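import Mathlib
import Pool.Agent.Lib.MP_f9aece_nt.TruncExp

/-!
Pointwise inequalities: replacing exponentials of prime sums by truncated exponentials.
-/

set_option autoImplicit false

namespace Pool.Agent.Lib.MP_f9aece_nt_h97

open Complex Set Filter Topology
open Pool.Agent.Lib.MP_f9aece_nt (EE exp_eleven_tenth)

/-- the relative truncation error -/
noncomputable def dl (M : ℕ) : ℝ := 2 * (1 / 3) ^ (M + 1)

lemma dl_pos (M : ℕ) : 0 < dl M := by unfold dl; positivity

lemma dl_le {M : ℕ} (hM : 1 ≤ M) : dl M ≤ 1 / 4 := by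
  unfold dl
  have : (1 / 3 : ℝ) ^ (M + 1) ≤ (1 / 3) ^ 2 := pow_le_pow_of_le_one (by norm_num) (by norm_num) (by omega)
  norm_num at this ⊢
  linarith

lemma EE_sub_exp_c {M : ℕ} {z : ℂ} {c : ℝ} (hc : |c| ≤ 1) (hz : ‖z‖ ≤ ((M + 1 : ℕ) : ℝ) / 10) :
    ‖cexp (c * z) - EE M (c * z)‖ ≤ |c| * dl M * ‖cexp (c * z)‖ := by
  unfold dl
  set n := M + 1 with hn
  set w : ℂ := c * z with hw
  have hn0 : (0 : ℝ) < n := by positivity
  have hwn : ‖w‖ = |c| * ‖z‖ := by rw [hw, norm_mul, Complex.norm_real, Real.norm_eq_abs]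
  have hwz : ‖w‖ ≤ (n : ℝ) / 10 := by
    rw [hwn]
    calc |c| * ‖z‖ ≤ 1 * ‖z‖ := by gcongr
      _ ≤ _ := by rw [one_mul]; exact hz
  have h1 : ‖w‖ / n.succ ≤ 1 / 2 := by
    rw [div_le_iff₀ (by positivity)]
    push_cast
    linarith
  have h2 := Complex.exp_bound' h1
  have h3 : ‖w‖ ^ n / (n.factorial : ℝ) ≤ |c| * (Real.exp 1 / 10) ^ n := by
    have h4 := Real.pow_div_factorial_le_exp (n : ℝ) hn0.le n
    have h5 : ‖w‖ ^ n ≤ |c| * ((n : ℝ) / 10) ^ n := by
      rw [hwn, mul_pow]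
      have hcn : |c| ^ n ≤ |c| := by
        have : |c| ^ n ≤ |c| ^ 1 := pow_le_pow_of_le_one (abs_nonneg _) hc (by omega)
        rwa [pow_one] at this
      gcongr
    calc ‖w‖ ^ n / (n.factorial : ℝ) ≤ |c| * ((n : ℝ) / 10) ^ n / (n.factorial : ℝ) := by gcongr
      _ = |c| * (((n : ℝ) ^ n / (n.factorial : ℝ)) / 10 ^ n) := by rw [div_pow]; ring
      _ ≤ |c| * (Real.exp n / 10 ^ n) := by gcongr
      _ = |c| * (Real.exp 1 / 10) ^ n := by rw [div_pow, ← Real.exp_nat_mul, mul_one]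
  have h6 : Real.exp (-((n : ℝ) / 10)) ≤ ‖cexp w‖ := by
    rw [Complex.norm_exp]
    apply Real.exp_le_exp.mpr
    have := Complex.abs_re_le_norm w
    have := neg_abs_le w.re
    linarith
  have h7 : (Real.exp 1 / 10) ^ n ≤ (1 / 3) ^ n * Real.exp (-((n : ℝ) / 10)) := by
    have e1 : Real.exp (-((n : ℝ) / 10)) = (Real.exp (-(1 / 10))) ^ n := by
      rw [← Real.exp_nat_mul]; congr 1; ring
    rw [e1, ← mul_pow]
    refine pow_le_pow_left₀ (by positivity) ?_ n
    have e2 : Real.exp 1 = Real.exp (11 / 10) * Real.exp (-(1 / 10)) := by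
      rw [← Real.exp_add]; norm_num
    rw [e2]
    have := exp_eleven_tenth
    have h8 : 0 < Real.exp (-(1 / 10)) := Real.exp_pos _
    calc Real.exp (11 / 10) * Real.exp (-(1 / 10)) / 10
        ≤ 10 / 3 * Real.exp (-(1 / 10)) / 10 := by gcongr
      _ = _ := by ring
  calc ‖cexp w - EE M w‖ ≤ ‖w‖ ^ n / (n.factorial : ℝ) * 2 := h2
    _ ≤ (|c| * (Real.exp 1 / 10) ^ n) * 2 := by gcongr
    _ ≤ (|c| * ((1 / 3) ^ n * Real.exp (-((n : ℝ) / 10)))) * 2 := by gcongr
    _ ≤ (|c| * ((1 / 3) ^ n * ‖cexp w‖)) * 2 := by gcongr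
    _ = _ := by ring

lemma norm_EE_ge {M : ℕ} {z : ℂ} {c : ℝ} (hc : |c| ≤ 1) (hz : ‖z‖ ≤ ((M + 1 : ℕ) : ℝ) / 10) :
    (1 - |c| * dl M) * Real.exp (c * z.re) ≤ ‖EE M (c * z)‖ := by
  have h1 := EE_sub_exp_c hc hz
  have h2 : ‖cexp (c * z)‖ ≤ ‖EE M (c * z)‖ + ‖cexp (c * z) - EE M (c * z)‖ := by
    have : cexp (c * z) = EE M (c * z) + (cexp (c * z) - EE M (c * z)) := by ring
    calc ‖cexp (c * z)‖ = ‖EE M (c * z) + (cexp (c * z) - EE M (c * z))‖ := by rw [← this]
      _ ≤ _ := norm_add_le _ _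
  have h3 : ‖cexp (c * z)‖ = Real.exp (c * z.re) := by
    rw [Complex.norm_exp]; congr 1; simp
  rw [h3] at h1 h2
  linarith

/-- small values: the truncated exponential is not much below one -/
lemma small_ge {M : ℕ} (hM : 1 ≤ M) {z : ℂ} {c R : ℝ} (hc : |c| ≤ 1) (hR : 1 ≤ R)
    (hRM : R ≤ ((M + 1 : ℕ) : ℝ) / 10) (hz : ‖z‖ ≤ R) :
    1 - 3 * |c| * R ≤ ‖EE M (c * z)‖ ^ 2 := by
  have h1 := norm_EE_ge hc (hz.trans hRM)
  have hd := dl_le hM
  have hd0 := dl_pos M
  have hx0 : 0 ≤ |c| := abs_nonneg c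
  have h2 : Real.exp (-(|c| * R)) ≤ Real.exp (c * z.re) := by
    apply Real.exp_le_exp.mpr
    have h3 : |c * z.re| ≤ |c| * R := by
      rw [abs_mul]
      gcongr
      exact (Complex.abs_re_le_norm z).trans hz
    have := neg_abs_le (c * z.re)
    linarith
  have h4 : 1 - |c| * R ≤ Real.exp (-(|c| * R)) := by
    have := Real.add_one_le_exp (-(|c| * R))
    linarith
  have h5 : 0 ≤ 1 - |c| * dl M := by nlinarith
  have h6 : (1 - |c| * dl M) * Real.exp (-(|c| * R)) ≤ ‖EE M (c * z)‖ :=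
    le_trans (by gcongr) h1
  rcases le_or_gt (|c| * R) 1 with h | h
  · have h7 : (1 - |c| * dl M) * (1 - |c| * R) ≤ ‖EE M (c * z)‖ :=
      le_trans (by gcongr) h6
    have h8 : 0 ≤ (1 - |c| * dl M) * (1 - |c| * R) := mul_nonneg h5 (by linarith)
    have h9 : ((1 - |c| * dl M) * (1 - |c| * R)) ^ 2 ≤ ‖EE M (c * z)‖ ^ 2 := by gcongr
    refine le_trans ?_ h9
    set u := |c| * dl M with hu
    set v := |c| * R with hv
    have hu0 : 0 ≤ u := by positivity
    have hv0 : 0 ≤ v := by positivity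
    have huv : u ≤ v / 4 := by
      rw [hu, hv]
      have : |c| * dl M ≤ |c| * (R / 4) := by gcongr; linarith
      linarith
    have e1 : 3 * |c| * R = 3 * v := by rw [hv]; ring
    rw [e1]
    have e2 : 1 - u - v ≤ (1 - u) * (1 - v) := by nlinarith
    rcases le_or_gt (1 - u - v) 0 with h10 | h10
    · nlinarith [sq_nonneg ((1 - u) * (1 - v))]
    · have : (1 - u - v) ^ 2 ≤ ((1 - u) * (1 - v)) ^ 2 := by gcongr
      nlinarith [sq_nonneg (u + v)]
  · have : 0 ≤ ‖EE M (c * z)‖ ^ 2 := by positivity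
    nlinarith

/-- large values: a crude lower bound -/
lemma large_ge {M : ℕ} {z : ℂ} {c R : ℝ} (hc : |c| ≤ 1) (hR : 0 < R) (hz : R ≤ ‖z‖) :
    1 - 2 * |c| * Real.exp R * (‖z‖ / R) ^ (2 * M) ≤ ‖EE M (c * z)‖ ^ 2 := by
  have h1 : 1 ≤ ‖z‖ / R := by rw [le_div_iff₀ hR]; linarith
  have hsum : ‖EE M (c * z) - 1‖ ≤ |c| * Real.exp R * (‖z‖ / R) ^ M := by
    unfold EE
    rw [Finset.sum_range_succ']
    simp only [pow_zero, Nat.factorial_zero, Nat.cast_one, div_one, add_sub_cancel_right]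
    calc ‖∑ r ∈ Finset.range M, ((c : ℂ) * z) ^ (r + 1) / ((r + 1).factorial : ℂ)‖
        ≤ ∑ r ∈ Finset.range M, ‖((c : ℂ) * z) ^ (r + 1) / ((r + 1).factorial : ℂ)‖ := norm_sum_le _ _
      _ ≤ ∑ r ∈ Finset.range M, |c| * (R ^ (r + 1) / ((r + 1).factorial : ℝ)) * (‖z‖ / R) ^ M := by
          refine Finset.sum_le_sum fun r hr => ?_
          rw [Finset.mem_range] at hr
          rw [norm_div, norm_pow, norm_mul, Complex.norm_real, Real.norm_eq_abs, Complex.norm_natCast]
          have h2 : (‖z‖ / R) ^ (r + 1) ≤ (‖z‖ / R) ^ M := pow_le_pow_right₀ h1 (by omega)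
          have h3 : |c| ^ (r + 1) ≤ |c| := by
            have : |c| ^ (r + 1) ≤ |c| ^ 1 := pow_le_pow_of_le_one (abs_nonneg _) hc (by omega)
            rwa [pow_one] at this
          calc (|c| * ‖z‖) ^ (r + 1) / ((r + 1).factorial : ℝ)
              = |c| ^ (r + 1) * (R ^ (r + 1) / ((r + 1).factorial : ℝ)) * (‖z‖ / R) ^ (r + 1) := by
                rw [mul_pow, div_pow]
                field_simp
            _ ≤ _ := by gcongr
      _ = |c| * (∑ r ∈ Finset.range M, R ^ (r + 1) / ((r + 1).factorial : ℝ)) * (‖z‖ / R) ^ M := by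
          rw [Finset.mul_sum, Finset.sum_mul]
      _ ≤ |c| * Real.exp R * (‖z‖ / R) ^ M := by
          gcongr
          have h4 := Real.sum_le_exp_of_nonneg hR.le (M + 1)
          rw [Finset.sum_range_succ'] at h4
          simp only [pow_zero, Nat.factorial_zero, Nat.cast_one, div_one] at h4
          linarith
  set x := |c| * Real.exp R * (‖z‖ / R) ^ M with hx
  have hx0 : 0 ≤ x := by positivity
  have h5 : 1 - x ≤ ‖EE M (c * z)‖ := by
    have h6 : ‖(1 : ℂ)‖ ≤ ‖EE M (c * z)‖ + ‖EE M (c * z) - 1‖ := by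
      have : (1 : ℂ) = EE M (c * z) - (EE M (c * z) - 1) := by ring
      calc ‖(1 : ℂ)‖ = ‖EE M (c * z) - (EE M (c * z) - 1)‖ := by rw [← this]
        _ ≤ _ := norm_sub_le _ _
    rw [norm_one] at h6
    linarith
  have h7 : (‖z‖ / R) ^ M ≤ (‖z‖ / R) ^ (2 * M) := pow_le_pow_right₀ h1 (by omega)
  have h8 : 2 * x ≤ 2 * |c| * Real.exp R * (‖z‖ / R) ^ (2 * M) := by
    rw [hx]
    calc 2 * (|c| * Real.exp R * (‖z‖ / R) ^ M) = 2 * |c| * Real.exp R * (‖z‖ / R) ^ M := by ring
      _ ≤ _ := by gcongr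
  have h9 : 0 ≤ ‖EE M (c * z)‖ := norm_nonneg _
  rcases le_or_gt x 1 with h | h
  · nlinarith
  · nlinarith [sq_nonneg ‖EE M (c * z)‖]

/-- the weight with resets -/
noncomputable def wt (c : ℝ) (M : ℕ → ℕ) (R : ℕ → ℝ) (z : ℕ → ℂ) : ℕ → ℝ
  | 0 => 1
  | j + 1 => if ‖z j‖ ≤ R j then ‖EE (M j) (c * z j)‖ ^ 2 * wt c M R z j else 1

/-- the polynomial majorant of the weight -/
noncomputable def up (c : ℝ) (M : ℕ → ℕ) (R : ℕ → ℝ) (z : ℕ → ℂ) : ℕ → ℝ
  | 0 => 1
  | j + 1 => ‖EE (M j) (c * z j)‖ ^ 2 * up c M R z j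
      + 5 * |c| * Real.exp (R j) * (‖z j‖ / R j) ^ (2 * M j)

section

variable {c : ℝ} {M : ℕ → ℕ} {R : ℕ → ℝ} {z : ℕ → ℂ}

lemma wt_nonneg (j : ℕ) : 0 ≤ wt c M R z j := by
  induction j with
  | zero => simp [wt]
  | succ j ih =>
    simp only [wt]
    split_ifs
    · positivity
    · exact zero_le_one

lemma wt_ge (hc : |c| ≤ 1) (hM : ∀ j, 1 ≤ M j) (hR : ∀ j, 1 ≤ R j)
    (hRM : ∀ j, R j ≤ ((M j + 1 : ℕ) : ℝ) / 10) (j : ℕ) :
    1 - 3 * |c| * ∑ i ∈ Finset.range j, R i ≤ wt c M R z j := by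
  have hc0 : 0 ≤ |c| := abs_nonneg c
  induction j with
  | zero => simp [wt]
  | succ j ih =>
    rw [Finset.sum_range_succ]
    have hS : 0 ≤ ∑ i ∈ Finset.range j, R i := Finset.sum_nonneg fun i _ => by linarith [hR i]
    have hRj := hR j
    simp only [wt]
    split_ifs with h
    · have h1 := small_ge (hM j) hc (hR j) (hRM j) h
      have h2 := wt_nonneg (c := c) (M := M) (R := R) (z := z) j
      set α := ‖EE (M j) (c * z j)‖ ^ 2 with hα
      have hα0 : 0 ≤ α := by positivity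
      set w := wt c M R z j with hw
      set u := 3 * |c| * R j with hu
      set v := 3 * |c| * ∑ i ∈ Finset.range j, R i with hv
      have hu0 : 0 ≤ u := by positivity
      have hv0 : 0 ≤ v := by positivity
      have e1 : 3 * |c| * (∑ i ∈ Finset.range j, R i + R j) = v + u := by rw [hu, hv]; ring
      rw [e1]
      rcases le_or_gt 1 (v + u) with h3 | h3
      · have : 0 ≤ α * w := mul_nonneg hα0 h2
        linarith
      · have h4 : (1 - u) * (1 - v) ≤ α * w := by
          apply mul_le_mul h1 ih (by linarith) hα0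
        nlinarith
    · have : 0 ≤ 3 * |c| * (∑ i ∈ Finset.range j, R i + R j) := by positivity
      linarith

lemma wt_le_up (hc : |c| ≤ 1) (hM : ∀ j, 1 ≤ M j) (hR : ∀ j, 1 ≤ R j)
    (hRM : ∀ j, R j ≤ ((M j + 1 : ℕ) : ℝ) / 10)
    (hRR : ∀ j, ∑ i ∈ Finset.range j, R i ≤ R j) (j : ℕ) :
    wt c M R z j ≤ up c M R z j := by
  have hc0 : 0 ≤ |c| := abs_nonneg c
  induction j with
  | zero => simp [wt, up]
  | succ j ih =>
    have hwge := wt_ge (z := z) hc hM hR hRM j
    have hw0 := wt_nonneg (c := c) (M := M) (R := R) (z := z) j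
    have hRj := hR j
    have hRj0 : 0 < R j := by linarith
    simp only [wt, up]
    set α := ‖EE (M j) (c * z j)‖ ^ 2 with hα
    have hα0 : 0 ≤ α := by positivity
    set w := wt c M R z j with hw
    set U := up c M R z j with hU
    have hαw : α * w ≤ α * U := by gcongr
    split_ifs with h
    · have : 0 ≤ 5 * |c| * Real.exp (R j) * (‖z j‖ / R j) ^ (2 * M j) := by positivity
      linarith
    · push Not at h
      have h1 := large_ge (M := M j) hc hRj0 h.le
      rw [← hα] at h1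
      set Q := (‖z j‖ / R j) ^ (2 * M j) with hQ
      have hQ1 : 1 ≤ Q := by
        rw [hQ]
        apply one_le_pow₀
        rw [le_div_iff₀ hRj0]; linarith
      have hQ0 : 0 ≤ 2 * |c| * Real.exp (R j) * Q := by positivity
      have h2 : 1 - α * w ≤ 5 * |c| * Real.exp (R j) * Q := by
        rcases le_or_gt 1 w with h3 | h3
        · have : α ≤ α * w := le_mul_of_one_le_right hα0 h3
          have h4 : 0 ≤ |c| * Real.exp (R j) * Q := by positivity
          linarith
        · have h4 : w * (1 - α) ≤ 2 * |c| * Real.exp (R j) * Q := by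
            rcases le_or_gt 1 α with h5 | h5
            · have : w * (1 - α) ≤ 0 := mul_nonpos_of_nonneg_of_nonpos hw0 (by linarith)
              linarith
            · calc w * (1 - α) ≤ 1 * (1 - α) := by
                    apply mul_le_mul_of_nonneg_right h3.le
                    linarith
                _ ≤ _ := by linarith
          have h5 : 3 * |c| * ∑ i ∈ Finset.range j, R i ≤ 3 * |c| * Real.exp (R j) * Q := by
            have h6 : R j ≤ Real.exp (R j) := by
              have := Real.add_one_le_exp (R j)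
              linarith
            calc 3 * |c| * ∑ i ∈ Finset.range j, R i ≤ 3 * |c| * R j := by
                  gcongr
                  exact hRR j
              _ ≤ 3 * |c| * Real.exp (R j) := by gcongr
              _ = 3 * |c| * Real.exp (R j) * 1 := by ring
              _ ≤ _ := by gcongr
          have e1 : 1 - α * w = (1 - w) + w * (1 - α) := by ring
          rw [e1]
          have e2 : 5 * |c| * Real.exp (R j) * Q
              = 3 * |c| * Real.exp (R j) * Q + 2 * |c| * Real.exp (R j) * Q := by ring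
          rw [e2]
          linarith
      linarith

end

lemma one_sub_ge_exp {x : ℝ} (hx0 : 0 ≤ x) (hx : x ≤ 1 / 2) : Real.exp (-(2 * x)) ≤ 1 - x := by
  have h := Pool.Agent.Lib.MP_f9aece_nt.inv_one_sub_le hx0 hx
  rw [Real.exp_neg, inv_le_iff_one_le_mul₀ (Real.exp_pos _), mul_comm]
  exact h

/-- the two weights together -/
lemma wt_pair {a k : ℝ} (ha : 0 ≤ a) (hk : 0 ≤ k) (hak : a + k = 1) {M : ℕ → ℕ} {R : ℕ → ℝ}
    {z : ℕ → ℂ} (hM : ∀ j, 1 ≤ M j) (hRM : ∀ j, R j ≤ ((M j + 1 : ℕ) : ℝ) / 10) (j : ℕ) :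
    Real.exp (-(8 * k * a * ∑ i ∈ Finset.range j, dl (M i)))
      ≤ wt (-a) M R z j ^ k * wt k M R z j ^ a := by
  induction j with
  | zero => simp [wt]
  | succ j ih =>
    have h1 := wt_nonneg (c := -a) (M := M) (R := R) (z := z) j
    have h2 := wt_nonneg (c := k) (M := M) (R := R) (z := z) j
    have hd0 := dl_pos (M j)
    have hd := dl_le (hM j)
    simp only [wt]
    split_ifs with h
    · have hz := h.trans (hRM j)
      have a1 : a ≤ 1 := by linarith
      have k1 : k ≤ 1 := by linarith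
      have b1 := norm_EE_ge (c := -a) (by rw [abs_neg, abs_of_nonneg ha]; exact a1) hz
      have b2 := norm_EE_ge (c := k) (by rw [abs_of_nonneg hk]; exact k1) hz
      rw [abs_neg, abs_of_nonneg ha] at b1
      rw [abs_of_nonneg hk] at b2
      set δ := dl (M j) with hδ
      set x := (z j).re with hx
      have c1 : Real.exp (-(2 * (a * δ))) ≤ 1 - a * δ := one_sub_ge_exp (by positivity) (by nlinarith)
      have c2 : Real.exp (-(2 * (k * δ))) ≤ 1 - k * δ := one_sub_ge_exp (by positivity) (by nlinarith)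
      have d1 : Real.exp (-(2 * (a * δ)) + -a * x) ≤ ‖EE (M j) ((-a : ℝ) * z j)‖ := by
        rw [Real.exp_add]
        refine le_trans ?_ b1
        gcongr
      have d2 : Real.exp (-(2 * (k * δ)) + k * x) ≤ ‖EE (M j) ((k : ℝ) * z j)‖ := by
        rw [Real.exp_add]
        refine le_trans ?_ b2
        gcongr
      have e1 : Real.exp (2 * k * (-(2 * (a * δ)) + -a * x)) ≤ (‖EE (M j) ((-a : ℝ) * z j)‖ ^ 2) ^ k := by
        have : Real.exp (2 * k * (-(2 * (a * δ)) + -a * x))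
            = (Real.exp (-(2 * (a * δ)) + -a * x) ^ 2) ^ k := by
          rw [← Real.exp_nat_mul, ← Real.exp_mul]
          congr 1
          push_cast
          ring
        rw [this]
        gcongr
      have e2 : Real.exp (2 * a * (-(2 * (k * δ)) + k * x)) ≤ (‖EE (M j) ((k : ℝ) * z j)‖ ^ 2) ^ a := by
        have : Real.exp (2 * a * (-(2 * (k * δ)) + k * x))
            = (Real.exp (-(2 * (k * δ)) + k * x) ^ 2) ^ a := by
          rw [← Real.exp_nat_mul, ← Real.exp_mul]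
          congr 1
          push_cast
          ring
        rw [this]
        gcongr
      rw [Real.mul_rpow (by positivity) h1, Real.mul_rpow (by positivity) h2]
      have e3 : (‖EE (M j) ((-a : ℝ) * z j)‖ ^ 2) ^ k * wt (-a) M R z j ^ k
          * ((‖EE (M j) ((k : ℝ) * z j)‖ ^ 2) ^ a * wt k M R z j ^ a)
          = ((‖EE (M j) ((-a : ℝ) * z j)‖ ^ 2) ^ k * (‖EE (M j) ((k : ℝ) * z j)‖ ^ 2) ^ a)
            * (wt (-a) M R z j ^ k * wt k M R z j ^ a) := by ring
      rw [e3]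
      have e4 : Real.exp (-(8 * k * a * δ))
          ≤ (‖EE (M j) ((-a : ℝ) * z j)‖ ^ 2) ^ k * (‖EE (M j) ((k : ℝ) * z j)‖ ^ 2) ^ a := by
        calc Real.exp (-(8 * k * a * δ))
            = Real.exp (2 * k * (-(2 * (a * δ)) + -a * x)) * Real.exp (2 * a * (-(2 * (k * δ)) + k * x)) := by
              rw [← Real.exp_add]; congr 1; ring
          _ ≤ _ := by gcongr
      rw [Finset.sum_range_succ]
      calc Real.exp (-(8 * k * a * (∑ i ∈ Finset.range j, dl (M i) + δ)))
          = Real.exp (-(8 * k * a * δ)) * Real.exp (-(8 * k * a * ∑ i ∈ Finset.range j, dl (M i))) := by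
            rw [← Real.exp_add]; congr 1; ring
        _ ≤ _ := by gcongr
    · rw [Real.one_rpow, Real.one_rpow, one_mul]
      rw [Real.exp_le_one_iff]
      have : 0 ≤ 8 * k * a * ∑ i ∈ Finset.range (j + 1), dl (M i) := by
        have : 0 ≤ ∑ i ∈ Finset.range (j + 1), dl (M i) := Finset.sum_nonneg fun i _ => (dl_pos _).le
        positivity
      linarith

/-- the pointwise inequality -/
theorem one_le_up {a k : ℝ} (ha : 0 ≤ a) (hk : 0 ≤ k) (hak : a + k = 1) {M : ℕ → ℕ} {R : ℕ → ℝ}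
    (z : ℕ → ℂ) (hM : ∀ j, 1 ≤ M j) (hR : ∀ j, 1 ≤ R j) (hRM : ∀ j, R j ≤ ((M j + 1 : ℕ) : ℝ) / 10)
    (hRR : ∀ j, ∑ i ∈ Finset.range j, R i ≤ R j) (J : ℕ) :
    1 ≤ Real.exp (8 * k * a * ∑ i ∈ Finset.range J, dl (M i))
      * (up (-a) M R z J ^ k * up k M R z J ^ a) := by
  have h1 := wt_pair (z := z) ha hk hak hM hRM J
  have a1 : |(-a)| ≤ 1 := by rw [abs_neg, abs_of_nonneg ha]; linarith
  have k1 : |k| ≤ 1 := by rw [abs_of_nonneg hk]; linarith
  have h2 := wt_le_up (z := z) a1 hM hR hRM hRR J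
  have h3 := wt_le_up (z := z) k1 hM hR hRM hRR J
  have h4 := wt_nonneg (c := -a) (M := M) (R := R) (z := z) J
  have h5 := wt_nonneg (c := k) (M := M) (R := R) (z := z) J
  have h6 : wt (-a) M R z J ^ k * wt k M R z J ^ a ≤ up (-a) M R z J ^ k * up k M R z J ^ a := by
    have : wt (-a) M R z J ^ k ≤ up (-a) M R z J ^ k := Real.rpow_le_rpow h4 h2 hk
    have : wt k M R z J ^ a ≤ up k M R z J ^ a := Real.rpow_le_rpow h5 h3 ha
    gcongr
    exact Real.rpow_nonneg (h4.trans h2) _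
  have h7 := h1.trans h6
  rw [Real.exp_neg, inv_le_iff_one_le_mul₀ (Real.exp_pos _)] at h7
  rw [mul_comm] at h7
  linarith

end Pool.Agent.Lib.MP_f9aece_nt_h97
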