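import Mathlib
import Pool.Agent.Lib.MP_f9aece_nt.SPoly

/-!
Kernels with logarithms of the least common multiple and greatest common divisor.
-/

set_option autoImplicit false

namespace Pool.Agent.Lib.MP_f9aece_nt_h97

open MeasureTheory Set Filter Topology Complex
open Pool.Agent.Lib.MP_f9aece_nt (DP pair BK K2 K2_nonneg K2_eq_inv_lcm)

/-- `ℓ¹` norm of the coefficients -/
noncomputable def nrm (D : DP) : ℝ := ∑ h ∈ D.coeff.support, |D.coeff h|

lemma nrm_nonneg (D : DP) : 0 ≤ nrm D := Finset.sum_nonneg fun _ _ => abs_nonneg _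

lemma BK_eq (K : ℕ → ℕ → ℝ) (D : DP) :
    BK K D D = ∑ h ∈ D.coeff.support, ∑ k ∈ D.coeff.support, D.coeff h * D.coeff k * K h k := by
  rw [BK, Pool.Agent.Lib.MP_f9aece_nt.pair_def]
  refine Finset.sum_congr rfl fun h _ => ?_
  rw [Pool.Agent.Lib.MP_f9aece_nt.pair_def, Finset.mul_sum]
  exact Finset.sum_congr rfl fun k _ => by ring

/-- kernel with the logarithm of the least common multiple -/
noncomputable def Kl (h k : ℕ) : ℝ := K2 h k * Real.log (Nat.lcm h k)

/-- kernel with the logarithm of the greatest common divisor -/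
noncomputable def Kg (h k : ℕ) : ℝ := K2 h k * Real.log (Nat.gcd h k)

/-- kernel `K2` times the logarithm of `lcm/gcd` -/
noncomputable def KL (h k : ℕ) : ℝ := Kl h k - Kg h k

lemma BK_KL (D : DP) : BK KL D D = BK Kl D D - BK Kg D D := by
  rw [BK_eq, BK_eq, BK_eq]
  simp only [← Finset.sum_sub_distrib]
  refine Finset.sum_congr rfl fun h _ => Finset.sum_congr rfl fun k _ => ?_
  unfold KL
  ring

lemma abs_BK_le {K : ℕ → ℕ → ℝ} {D : DP} {B : ℝ}
    (h : ∀ a b, 1 ≤ a → 1 ≤ b → |K a b| ≤ B) (hD : ∀ n, D.coeff n ≠ 0 → 1 ≤ n) :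
    |BK K D D| ≤ nrm D ^ 2 * B := by
  rw [BK_eq]
  have hT0 : ∀ a ∈ D.coeff.support, |∑ b ∈ D.coeff.support, D.coeff a * D.coeff b * K a b|
      ≤ ∑ b ∈ D.coeff.support, |D.coeff a| * |D.coeff b| * B := by
    intro a ha
    refine (Finset.abs_sum_le_sum_abs _ _).trans (Finset.sum_le_sum fun b hb => ?_)
    rw [abs_mul, abs_mul]
    exact mul_le_mul_of_nonneg_left (h a b (hD a (Finsupp.mem_support_iff.mp ha))
      (hD b (Finsupp.mem_support_iff.mp hb))) (by positivity)
  refine ((Finset.abs_sum_le_sum_abs _ _).trans (Finset.sum_le_sum hT0)).trans (le_of_eq ?_)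
  unfold nrm
  rw [sq, Finset.sum_mul_sum, Finset.sum_mul]
  refine Finset.sum_congr rfl fun h _ => ?_
  rw [Finset.sum_mul]

/-- divisor-type coefficients -/
noncomputable def bb (D : DP) (N : ℕ) : ℝ :=
  ∑ h ∈ D.coeff.support, if h ∣ N then D.coeff h else 0

/-- coefficients of the difference -/
noncomputable def eM (D B : DP) (M : ℕ) : ℝ := bb D M - B.coeff M

/-- the value of a Dirichlet polynomial at a complex point -/
noncomputable def evs (s : ℂ) (D : DP) : ℂ :=
  ∑ h ∈ D.coeff.support, (D.coeff h : ℂ) * (h : ℂ) ^ (-s)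

end Pool.Agent.Lib.MP_f9aece_nt_h97
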