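import Mathlib
import Pool.Agent.Lib.MP_f9aece_nt_h97.Base
import Pool.Agent.Lib.MP_f9aece_nt.Upper

/-!
Quadratic forms of Dirichlet polynomials with real coefficients of arbitrary sign.
-/

set_option autoImplicit false

namespace Pool.Agent.Lib.MP_f9aece_nt_h97

open MeasureTheory Set Filter Topology Complex
open Pool.Agent.Lib.MP_f9aece_nt

/-- support condition -/
def Sup (A : Set ℕ) (f : DP) : Prop := ∀ n, f.coeff n ≠ 0 → n ∈ A

lemma Sup.mono {A B : Set ℕ} {f : DP} (h : Sup A f) (hAB : A ⊆ B) : Sup B f :=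
  fun n hn => hAB (h n hn)

lemma sup_of_cone {A : Set ℕ} {f : DP} (h : Cone A f) : Sup A f := fun n hn => (h n).2 hn

lemma Sup.zero (A : Set ℕ) : Sup A 0 := fun n hn => by simp at hn

lemma Sup.single {A : Set ℕ} {a : ℕ} (ha : a ∈ A) (x : ℝ) : Sup A (MonoidAlgebra.single a x) := by
  intro n hn
  rw [MonoidAlgebra.coeff_single, Finsupp.single_apply] at hn
  split_ifs at hn with h
  · subst h; exact ha
  · exact absurd rfl hn

lemma Sup.one {A : Set ℕ} (hA : 1 ∈ A) : Sup A 1 := Sup.single hA 1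

lemma Sup.add {A : Set ℕ} {f g : DP} (hf : Sup A f) (hg : Sup A g) : Sup A (f + g) := by
  intro n hn
  rw [MonoidAlgebra.coeff_add, Finsupp.add_apply] at hn
  by_cases h1 : f.coeff n = 0
  · exact hg n (by intro h2; apply hn; rw [h1, h2, add_zero])
  · exact hf n h1

lemma Sup.smul {A : Set ℕ} {f : DP} (hf : Sup A f) (c : ℝ) : Sup A (c • f) := by
  intro n hn
  rw [MonoidAlgebra.coeff_smul, Finsupp.smul_apply, smul_eq_mul] at hn
  exact hf n (right_ne_zero_of_mul hn)

lemma Sup.sub {A : Set ℕ} {f g : DP} (hf : Sup A f) (hg : Sup A g) : Sup A (f - g) := by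
  have h := hf.add (hg.smul (-1))
  have e : f - g = f + (-1 : ℝ) • g := by rw [neg_one_smul]; abel
  rw [e]; exact h

lemma Sup.sum {ι : Type} {A : Set ℕ} (s : Finset ι) {f : ι → DP} (hf : ∀ i ∈ s, Sup A (f i)) :
    Sup A (∑ i ∈ s, f i) := by
  classical
  induction s using Finset.induction_on with
  | empty => simpa using Sup.zero A
  | insert a s ha ih =>
    rw [Finset.sum_insert ha]
    exact (hf a (Finset.mem_insert_self _ _)).add
      (ih fun i hi => hf i (Finset.mem_insert_of_mem hi))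

lemma Sup.mul {A B C : Set ℕ} {f g : DP} (hf : Sup A f) (hg : Sup B g)
    (hABC : ∀ a ∈ A, ∀ b ∈ B, a * b ∈ C) : Sup C (f * g) := by
  classical
  rw [MonoidAlgebra.mul_def, Finsupp.sum]
  refine Sup.sum _ fun a ha => ?_
  rw [Finsupp.sum]
  refine Sup.sum _ fun b hb => ?_
  exact Sup.single (hABC a (hf a (Finsupp.mem_support_iff.mp ha)) b
    (hg b (Finsupp.mem_support_iff.mp hb))) _

lemma Sup.prod {ι : Type} {A : Set ℕ} (s : Finset ι) {f : ι → DP} (hf : ∀ i ∈ s, Sup A (f i))
    (hA : 1 ∈ A) (hAA : ∀ a ∈ A, ∀ b ∈ A, a * b ∈ A) : Sup A (∏ i ∈ s, f i) := by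
  classical
  induction s using Finset.induction_on with
  | empty => simpa using Sup.one hA
  | insert a s ha ih =>
    rw [Finset.prod_insert ha]
    exact (hf a (Finset.mem_insert_self _ _)).mul
      (ih fun i hi => hf i (Finset.mem_insert_of_mem hi)) hAA

lemma sup_prod_Smo (s : Finset ℕ) (I : ℕ → Finset ℕ) (f : ℕ → DP)
    (hf : ∀ j ∈ s, Sup (Smo (I j)) (f j)) :
    Sup (Smo (⋃ j ∈ s, (I j : Set ℕ))) (∏ j ∈ s, f j) := by
  refine Sup.prod s (fun j hj => (hf j hj).mono (Smo_mono ?_)) (one_mem_Smo _)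
    (fun a ha b hb => mul_mem_Smo ha hb)
  exact Set.subset_biUnion_of_mem (u := fun j => (I j : Set ℕ)) hj

/-- multiplicativity of bilinear forms over coprime supports -/
lemma BK_mul_sup (K : ℕ → ℕ → ℝ) {A B : Set ℕ} {f g f' g' : DP}
    (hf : Sup A f) (hf' : Sup A f') (hg : Sup B g) (hg' : Sup B g')
    (hK : ∀ a ∈ A, ∀ a' ∈ A, ∀ b ∈ B, ∀ b' ∈ B, K (a * b) (a' * b') = K a a' * K b b') :
    BK K (f * g) (f' * g') = BK K f f' * BK K g g' := by
  unfold BK
  rw [pair_mul]
  have h1 : ∀ a, f.coeff a ≠ 0 →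
      pair (fun b => pair (fun c => K (a * b) c) (f' * g')) g
        = pair (fun a' => K a a') f' * pair (fun b => pair (fun b' => K b b') g') g := by
    intro a ha
    have h2 : ∀ b, g.coeff b ≠ 0 → pair (fun c => K (a * b) c) (f' * g')
        = pair (fun a' => K a a') f' * pair (fun b' => K b b') g' := by
      intro b hb
      rw [pair_mul]
      have h3 : ∀ a', f'.coeff a' ≠ 0 → pair (fun b' => K (a * b) (a' * b')) g'
          = K a a' * pair (fun b' => K b b') g' := by
        intro a' ha'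
        rw [← pair_const_mul]
        refine pair_congr g' fun b' hb' => ?_
        exact hK a (hf a ha) a' (hf' a' ha') b (hg b hb) b' (hg' b' hb')
      rw [pair_congr f' h3, pair_mul_const]
    rw [pair_congr g h2, pair_const_mul]
  rw [pair_congr f h1, pair_mul_const]

lemma pair_add_fun (φ ψ : ℕ → ℝ) (f : DP) :
    pair (fun a => φ a + ψ a) f = pair φ f + pair ψ f := by
  simp only [pair_def, mul_add, Finset.sum_add_distrib]

/-- Leibniz rule for a derivation kernel -/
lemma BK_mul_der (K L : ℕ → ℕ → ℝ) {A B : Set ℕ} {f g f' g' : DP}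
    (hf : Sup A f) (hf' : Sup A f') (hg : Sup B g) (hg' : Sup B g')
    (hK : ∀ a ∈ A, ∀ a' ∈ A, ∀ b ∈ B, ∀ b' ∈ B,
      L (a * b) (a' * b') = L a a' * K b b' + K a a' * L b b') :
    BK L (f * g) (f' * g') = BK L f f' * BK K g g' + BK K f f' * BK L g g' := by
  unfold BK
  rw [pair_mul]
  have h1 : ∀ a, f.coeff a ≠ 0 →
      pair (fun b => pair (fun c => L (a * b) c) (f' * g')) g
        = pair (fun a' => L a a') f' * pair (fun b => pair (fun b' => K b b') g') g
          + pair (fun a' => K a a') f' * pair (fun b => pair (fun b' => L b b') g') g := by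
    intro a ha
    have h2 : ∀ b, g.coeff b ≠ 0 → pair (fun c => L (a * b) c) (f' * g')
        = pair (fun a' => L a a') f' * pair (fun b' => K b b') g'
          + pair (fun a' => K a a') f' * pair (fun b' => L b b') g' := by
      intro b hb
      rw [pair_mul]
      have h3 : ∀ a', f'.coeff a' ≠ 0 → pair (fun b' => L (a * b) (a' * b')) g'
          = L a a' * pair (fun b' => K b b') g' + K a a' * pair (fun b' => L b b') g' := by
        intro a' ha'
        rw [← pair_const_mul, ← pair_const_mul, ← pair_add_fun]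
        refine pair_congr g' fun b' hb' => ?_
        exact hK a (hf a ha) a' (hf' a' ha') b (hg b hb) b' (hg' b' hb')
      rw [pair_congr f' h3, pair_add_fun, pair_mul_const, pair_mul_const]
    rw [pair_congr g h2, pair_add_fun, pair_const_mul, pair_const_mul]
  rw [pair_congr f h1, pair_add_fun, pair_mul_const, pair_mul_const]

lemma KL_eq (a b : ℕ) : KL a b = K2 a b * (Real.log (Nat.lcm a b) - Real.log (Nat.gcd a b)) := by
  unfold KL Kl Kg; ring

lemma KL_nonneg (a b : ℕ) : 0 ≤ KL a b := by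
  rcases Nat.eq_zero_or_pos a with rfl | ha
  · rw [KL_eq]; simp [K2]
  rcases Nat.eq_zero_or_pos b with rfl | hb
  · rw [KL_eq]; simp [K2]
  rw [KL_eq]
  refine mul_nonneg (K2_nonneg _ _) ?_
  rw [sub_nonneg]
  have h1 : 0 < Nat.gcd a b := Nat.gcd_pos_of_pos_left b ha
  have h2 : 0 < Nat.lcm a b := Nat.lcm_pos ha hb
  apply Real.log_le_log (by exact_mod_cast h1)
  exact_mod_cast Nat.le_of_dvd h2 ((Nat.gcd_dvd_left a b).trans (Nat.dvd_lcm_left a b))

lemma KL_le {a b : ℕ} (ha : 1 ≤ a) (hb : 1 ≤ b) :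
    KL a b ≤ K2 a b * (Real.log a + Real.log b) := by
  rw [KL_eq]
  refine mul_le_mul_of_nonneg_left ?_ (K2_nonneg _ _)
  have h1 : 1 ≤ Nat.gcd a b := Nat.gcd_pos_of_pos_left b ha
  have h2 : 0 < Nat.lcm a b := Nat.lcm_pos ha hb
  have h3 : Nat.lcm a b ≤ a * b := Nat.le_of_dvd (by positivity) (Nat.lcm_dvd_mul a b)
  have ha0 : (a : ℝ) ≠ 0 := by exact_mod_cast (by omega : a ≠ 0)
  have hb0 : (b : ℝ) ≠ 0 := by exact_mod_cast (by omega : b ≠ 0)
  have h4 : Real.log (Nat.lcm a b) ≤ Real.log a + Real.log b := by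
    rw [← Real.log_mul ha0 hb0]
    apply Real.log_le_log (by exact_mod_cast h2)
    exact_mod_cast h3
  have h5 : 0 ≤ Real.log (Nat.gcd a b) := Real.log_nonneg (by exact_mod_cast h1)
  linarith

lemma KL_mul {A B : Set ℕ} (hAB : Disjoint A B) {a a' b b' : ℕ} (ha : a ∈ Smo A) (ha' : a' ∈ Smo A)
    (hb : b ∈ Smo B) (hb' : b' ∈ Smo B) :
    KL (a * b) (a' * b') = KL a a' * K2 b b' + K2 a a' * KL b b' := by
  have h1 : Nat.Coprime a' b' := coprime_of_Smo hAB ha' hb'
  have h2 : Nat.Coprime a' b := coprime_of_Smo hAB ha' hb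
  have h3 : Nat.Coprime a b' := coprime_of_Smo hAB ha hb'
  have e : Nat.gcd (a * b) (a' * b') = Nat.gcd a a' * Nat.gcd b b' := by
    rw [Nat.Coprime.gcd_mul _ h1, Nat.Coprime.gcd_mul_right_cancel a h2.symm,
      Nat.Coprime.gcd_mul_left_cancel b h3]
  have ha0 := Nat.pos_of_ne_zero ha.1
  have ha'0 := Nat.pos_of_ne_zero ha'.1
  have hb0 := Nat.pos_of_ne_zero hb.1
  have hb'0 := Nat.pos_of_ne_zero hb'.1
  have hg1 : 0 < Nat.gcd a a' := Nat.gcd_pos_of_pos_left a' ha0
  have hg2 : 0 < Nat.gcd b b' := Nat.gcd_pos_of_pos_left b' hb0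
  have e2 : Nat.lcm (a * b) (a' * b') = Nat.lcm a a' * Nat.lcm b b' := by
    have h5 := Nat.gcd_mul_lcm (a * b) (a' * b')
    have h6 := Nat.gcd_mul_lcm a a'
    have h7 := Nat.gcd_mul_lcm b b'
    rw [e] at h5
    have h8 : (Nat.gcd a a' * Nat.gcd b b') * (Nat.lcm a a' * Nat.lcm b b')
        = (Nat.gcd a a' * Nat.gcd b b') * Nat.lcm (a * b) (a' * b') := by
      rw [h5]
      calc (Nat.gcd a a' * Nat.gcd b b') * (Nat.lcm a a' * Nat.lcm b b')
          = (Nat.gcd a a' * Nat.lcm a a') * (Nat.gcd b b' * Nat.lcm b b') := by ring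
        _ = (a * a') * (b * b') := by rw [h6, h7]
        _ = a * b * (a' * b') := by ring
    exact (Nat.eq_of_mul_eq_mul_left (by positivity) h8).symm
  have hl1 : 0 < Nat.lcm a a' := Nat.lcm_pos ha0 ha'0
  have hl2 : 0 < Nat.lcm b b' := Nat.lcm_pos hb0 hb'0
  rw [KL_eq, KL_eq, KL_eq, K2_mul hAB ha ha' hb hb', e, e2]
  push_cast
  rw [Real.log_mul (by exact_mod_cast hl1.ne') (by exact_mod_cast hl2.ne'),
    Real.log_mul (by exact_mod_cast hg1.ne') (by exact_mod_cast hg2.ne')]
  ring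

/-- bounds for both quadratic forms of a product over coprime supports -/
lemma prod_bounds (s : Finset ℕ) (I : ℕ → Finset ℕ)
    (hI : ∀ i ∈ s, ∀ j ∈ s, i ≠ j → Disjoint (I i) (I j)) (f : ℕ → DP)
    (hf : ∀ j ∈ s, Sup (Smo (I j)) (f j)) (U κ : ℕ → ℝ) (hU : ∀ j ∈ s, 0 ≤ U j)
    (hκ : ∀ j ∈ s, 0 ≤ κ j)
    (h1 : ∀ j ∈ s, |BK K2 (f j) (f j)| ≤ U j)
    (h2 : ∀ j ∈ s, |BK KL (f j) (f j)| ≤ κ j * U j) :
    |BK K2 (∏ j ∈ s, f j) (∏ j ∈ s, f j)| ≤ ∏ j ∈ s, U j ∧
    |BK KL (∏ j ∈ s, f j) (∏ j ∈ s, f j)| ≤ (∑ j ∈ s, κ j) * ∏ j ∈ s, U j := by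
  classical
  induction s using Finset.induction_on with
  | empty =>
    simp only [Finset.prod_empty, Finset.sum_empty, zero_mul]
    rw [MonoidAlgebra.one_def, BK_single, BK_single]
    constructor
    · simp [K2]
    · simp [KL_eq]
  | insert a s ha ih =>
    rw [Finset.prod_insert ha, Finset.prod_insert ha, Finset.sum_insert ha]
    have hf' : ∀ j ∈ s, Sup (Smo (I j)) (f j) := fun j hj => hf j (Finset.mem_insert_of_mem hj)
    have hdis : Disjoint (I a : Set ℕ) (⋃ j ∈ s, (I j : Set ℕ)) := by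
      rw [Set.disjoint_iUnion₂_right]
      intro j hj
      rw [Finset.disjoint_coe]
      exact hI a (Finset.mem_insert_self _ _) j (Finset.mem_insert_of_mem hj)
        (by rintro rfl; exact ha hj)
    obtain ⟨ih1, ih2⟩ := ih
      (fun i hi j hj hij => hI i (Finset.mem_insert_of_mem hi) j (Finset.mem_insert_of_mem hj) hij)
      hf' (fun j hj => hU j (Finset.mem_insert_of_mem hj))
      (fun j hj => hκ j (Finset.mem_insert_of_mem hj))
      (fun j hj => h1 j (Finset.mem_insert_of_mem hj))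
      (fun j hj => h2 j (Finset.mem_insert_of_mem hj))
    have hsa := hf a (Finset.mem_insert_self _ _)
    have hss := sup_prod_Smo s I f hf'
    have a1 := h1 a (Finset.mem_insert_self _ _)
    have a2 := h2 a (Finset.mem_insert_self _ _)
    have a3 := hU a (Finset.mem_insert_self _ _)
    have a4 := hκ a (Finset.mem_insert_self _ _)
    rw [BK_mul_sup K2 hsa hsa hss hss fun x hx x' hx' y hy y' hy' => K2_mul hdis hx hx' hy hy',
      BK_mul_der K2 KL hsa hsa hss hss fun x hx x' hx' y hy y' hy' => KL_mul hdis hx hx' hy hy']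
    have hP : 0 ≤ ∏ j ∈ s, U j := Finset.prod_nonneg fun j hj => hU j (Finset.mem_insert_of_mem hj)
    have hS : 0 ≤ ∑ j ∈ s, κ j := Finset.sum_nonneg fun j hj => hκ j (Finset.mem_insert_of_mem hj)
    constructor
    · rw [abs_mul]
      gcongr
    · calc |BK KL (f a) (f a) * BK K2 (∏ j ∈ s, f j) (∏ j ∈ s, f j)
            + BK K2 (f a) (f a) * BK KL (∏ j ∈ s, f j) (∏ j ∈ s, f j)|
          ≤ |BK KL (f a) (f a)| * |BK K2 (∏ j ∈ s, f j) (∏ j ∈ s, f j)|
            + |BK K2 (f a) (f a)| * |BK KL (∏ j ∈ s, f j) (∏ j ∈ s, f j)| := by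
            refine (abs_add_le _ _).trans (le_of_eq ?_)
            rw [abs_mul, abs_mul]
        _ ≤ (κ a * U a) * (∏ j ∈ s, U j) + U a * ((∑ j ∈ s, κ j) * ∏ j ∈ s, U j) := by
            gcongr
        _ = _ := by ring

/-- coefficientwise domination -/
def Dom (f g : DP) : Prop := ∀ n, |f.coeff n| ≤ g.coeff n

lemma Dom.nonneg {f g : DP} (h : Dom f g) (n : ℕ) : 0 ≤ g.coeff n := (abs_nonneg _).trans (h n)

lemma dom_self {A : Set ℕ} {f : DP} (hf : Cone A f) : Dom f f := fun n => by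
  rw [abs_of_nonneg (hf n).1]

lemma Dom.zero : Dom 0 0 := fun n => by simp

lemma Dom.add {f g f' g' : DP} (h : Dom f g) (h' : Dom f' g') : Dom (f + f') (g + g') := by
  intro n
  rw [MonoidAlgebra.coeff_add, MonoidAlgebra.coeff_add, Finsupp.add_apply, Finsupp.add_apply]
  exact (abs_add_le _ _).trans (add_le_add (h n) (h' n))

lemma Dom.smul {f g : DP} (h : Dom f g) {c d : ℝ} (hcd : |c| ≤ d) : Dom (c • f) (d • g) := by
  intro n
  rw [MonoidAlgebra.coeff_smul, MonoidAlgebra.coeff_smul, Finsupp.smul_apply, Finsupp.smul_apply,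
    smul_eq_mul, smul_eq_mul, abs_mul]
  have := h n
  have h0 : 0 ≤ d := (abs_nonneg _).trans hcd
  gcongr

lemma Dom.trans' {f g : DP} {c d : ℝ} (h : Dom f (c • g)) (hcd : c ≤ d) (hg : ∀ n, 0 ≤ g.coeff n) :
    Dom f (d • g) := by
  intro n
  refine (h n).trans ?_
  rw [MonoidAlgebra.coeff_smul, MonoidAlgebra.coeff_smul, Finsupp.smul_apply, Finsupp.smul_apply,
    smul_eq_mul, smul_eq_mul]
  exact mul_le_mul_of_nonneg_right hcd (hg n)

lemma Dom.sum {ι : Type} (s : Finset ι) {f g : ι → DP} (h : ∀ i ∈ s, Dom (f i) (g i)) :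
    Dom (∑ i ∈ s, f i) (∑ i ∈ s, g i) := by
  classical
  induction s using Finset.induction_on with
  | empty => simpa using Dom.zero
  | insert a s ha ih =>
    rw [Finset.sum_insert ha, Finset.sum_insert ha]
    exact (h a (Finset.mem_insert_self _ _)).add
      (ih fun i hi => h i (Finset.mem_insert_of_mem hi))

lemma abs_pair_le {f g : DP} (h : Dom f g) {φ ψ : ℕ → ℝ} (hφ : ∀ a, |φ a| ≤ ψ a) :
    |pair φ f| ≤ pair ψ g := by
  classical
  rw [pair_def, pair_def]
  have hsub : f.coeff.support ⊆ g.coeff.support := by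
    intro a ha
    rw [Finsupp.mem_support_iff] at ha ⊢
    intro h0
    have := h a
    rw [h0] at this
    exact ha (abs_nonpos_iff.mp this)
  have hψ : ∀ a, 0 ≤ ψ a := fun a => (abs_nonneg _).trans (hφ a)
  calc |∑ a ∈ f.coeff.support, f.coeff a * φ a|
      ≤ ∑ a ∈ f.coeff.support, g.coeff a * ψ a := by
        refine (Finset.abs_sum_le_sum_abs _ _).trans (Finset.sum_le_sum fun a _ => ?_)
        rw [abs_mul]
        have h1 := h a
        have h2 := hφ a
        have h3 := h.nonneg a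
        gcongr
    _ ≤ ∑ a ∈ g.coeff.support, g.coeff a * ψ a :=
        Finset.sum_le_sum_of_subset_of_nonneg hsub fun a _ _ => mul_nonneg (h.nonneg a) (hψ a)

lemma abs_BK_le_of_dom {K : ℕ → ℕ → ℝ} (hK : ∀ a b, 0 ≤ K a b) {f g f' g' : DP} (h : Dom f g)
    (h' : Dom f' g') : |BK K f f'| ≤ BK K g g' := by
  unfold BK
  refine abs_pair_le h fun a => ?_
  refine abs_pair_le h' fun b => ?_
  rw [abs_of_nonneg (hK a b)]

lemma coeff_eq_pair (f : DP) (n : ℕ) : f.coeff n = pair (fun c => if c = n then 1 else 0) f := by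
  rw [pair_def]
  simp only [mul_ite, mul_one, mul_zero, Finset.sum_ite_eq']
  split_ifs with h
  · rfl
  · rwa [Finsupp.notMem_support_iff] at h

lemma Dom.mul {f g f' g' : DP} (h : Dom f g) (h' : Dom f' g') : Dom (f * f') (g * g') := by
  intro n
  rw [coeff_eq_pair, coeff_eq_pair (g * g'), pair_mul, pair_mul]
  refine abs_pair_le h fun a => ?_
  refine abs_pair_le h' fun b => ?_
  split_ifs <;> simp

lemma Dom.one : Dom 1 1 := by
  intro n
  rw [MonoidAlgebra.one_def, MonoidAlgebra.coeff_single, Finsupp.single_apply]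
  split_ifs <;> simp

lemma Dom.single (p : ℕ) {x y : ℝ} (h : |x| ≤ y) :
    Dom (MonoidAlgebra.single p x) (MonoidAlgebra.single p y) := by
  intro n
  rw [MonoidAlgebra.coeff_single, MonoidAlgebra.coeff_single, Finsupp.single_apply,
    Finsupp.single_apply]
  split_ifs
  · exact h
  · simp

lemma Dom.pow {f g : DP} (h : Dom f g) (r : ℕ) : Dom (f ^ r) (g ^ r) := by
  induction r with
  | zero => simpa using Dom.one
  | succ r ih => rw [pow_succ, pow_succ]; exact ih.mul h

lemma Dom.prod {ι : Type} (s : Finset ι) {f g : ι → DP} (h : ∀ i ∈ s, Dom (f i) (g i)) :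
    Dom (∏ i ∈ s, f i) (∏ i ∈ s, g i) := by
  classical
  induction s using Finset.induction_on with
  | empty => simpa using Dom.one
  | insert a s ha ih =>
    rw [Finset.prod_insert ha, Finset.prod_insert ha]
    exact (h a (Finset.mem_insert_self _ _)).mul
      (ih fun i hi => h i (Finset.mem_insert_of_mem hi))

/-- total mass of the coefficients -/
noncomputable def aug (f : DP) : ℝ := pair (fun _ => 1) f

lemma aug_mul (f g : DP) : aug (f * g) = aug f * aug g := by
  unfold aug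
  rw [pair_mul]
  have : (fun _ : ℕ => pair (fun _ => (1 : ℝ)) g) = fun _ : ℕ => 1 * pair (fun _ => (1 : ℝ)) g := by
    funext _; ring
  rw [this, pair_mul_const]

lemma aug_one : aug 1 = 1 := by
  unfold aug
  rw [MonoidAlgebra.one_def, pair_single]; ring

lemma aug_pow (f : DP) (r : ℕ) : aug (f ^ r) = aug f ^ r := by
  induction r with
  | zero => simp [aug_one]
  | succ r ih => rw [pow_succ, aug_mul, ih, pow_succ]

lemma aug_prod {ι : Type} (s : Finset ι) (f : ι → DP) : aug (∏ i ∈ s, f i) = ∏ i ∈ s, aug (f i) := by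
  classical
  induction s using Finset.induction_on with
  | empty => simp [aug_one]
  | insert a s ha ih => rw [Finset.prod_insert ha, Finset.prod_insert ha, aug_mul, ih]

lemma nrm_le_aug {f g : DP} (h : Dom f g) : nrm f ≤ aug g := by
  classical
  unfold nrm aug
  rw [pair_def]
  simp only [mul_one]
  have hsub : f.coeff.support ⊆ g.coeff.support := by
    intro a ha
    rw [Finsupp.mem_support_iff] at ha ⊢
    intro h0
    have := h a
    rw [h0] at this
    exact ha (abs_nonpos_iff.mp this)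
  calc ∑ a ∈ f.coeff.support, |f.coeff a| ≤ ∑ a ∈ f.coeff.support, g.coeff a :=
        Finset.sum_le_sum fun a _ => h a
    _ ≤ _ := Finset.sum_le_sum_of_subset_of_nonneg hsub fun a _ _ => h.nonneg a

end Pool.Agent.Lib.MP_f9aece_nt_h97
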