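import Mathlib
import Pool.Agent.Lib.MP_f9aece_nt_h97.Signed

/-!
Local factors of the quadratic forms, and comparison of the truncated exponential of a prime
polynomial with the product of the local truncated exponentials.
-/

set_option autoImplicit false

namespace Pool.Agent.Lib.MP_f9aece_nt_h97

open MeasureTheory Set Filter Topology Complex
open Pool.Agent.Lib.MP_f9aece_nt

lemma PP_singleton (p : ℕ) : PP {p} = MonoidAlgebra.single p 1 := by simp [PP]

lemma PP_singleton_pow (p r : ℕ) : PP {p} ^ r = MonoidAlgebra.single (p ^ r) (1 : ℝ) := by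
  rw [PP_singleton, MonoidAlgebra.single_pow, one_pow]

lemma PP_insert {I : Finset ℕ} {p : ℕ} (hp : p ∉ I) : PP (insert p I) = PP {p} + PP I := by
  unfold PP
  rw [Finset.sum_insert hp, Finset.sum_singleton]

lemma K2_pow {p : ℕ} (hp : p.Prime) (i l : ℕ) : K2 (p ^ i) (p ^ l) = ((p : ℝ)⁻¹) ^ max i l := by
  have h0 : ∀ i, p ^ i ≠ 0 := fun i => pow_ne_zero _ hp.ne_zero
  rw [K2_eq_inv_lcm (h0 i) (h0 l)]
  rcases le_total i l with h | h
  · rw [Nat.lcm_eq_right (pow_dvd_pow p h), max_eq_right h]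
    push_cast
    rw [inv_pow]
  · rw [Nat.lcm_eq_left (pow_dvd_pow p h), max_eq_left h]
    push_cast
    rw [inv_pow]

lemma KL_pow_le {p : ℕ} (hp : p.Prime) (i l : ℕ) :
    KL (p ^ i) (p ^ l) ≤ (p : ℝ)⁻¹ * Real.log p * (i + l) := by
  have h1 : 1 ≤ p := hp.one_le
  have hlog : 0 ≤ Real.log p := Real.log_nonneg (by exact_mod_cast h1)
  have hp0 : (0 : ℝ) < p := by exact_mod_cast hp.pos
  have hpinv : (p : ℝ)⁻¹ ≤ 1 := inv_le_one_of_one_le₀ (by exact_mod_cast h1)
  rcases Nat.eq_zero_or_pos (max i l) with h | h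
  · have hi : i = 0 := by omega
    have hl : l = 0 := by omega
    subst hi; subst hl
    rw [KL_eq]
    simp
  · refine (KL_le (Nat.one_le_pow _ _ hp.pos) (Nat.one_le_pow _ _ hp.pos)).trans ?_
    rw [K2_pow hp]
    push_cast
    rw [Real.log_pow, Real.log_pow]
    have h2 : ((p : ℝ)⁻¹) ^ max i l ≤ ((p : ℝ)⁻¹) ^ 1 :=
      pow_le_pow_of_le_one (by positivity) hpinv h
    rw [pow_one] at h2
    calc ((p : ℝ)⁻¹) ^ max i l * (i * Real.log p + l * Real.log p)
        ≤ (p : ℝ)⁻¹ * (i * Real.log p + l * Real.log p) := by gcongr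
      _ = _ := by ring

/-- double sum for the local factor -/
lemma BK_local (K : ℕ → ℕ → ℝ) (c : ℝ) (M p : ℕ) :
    BK K (expo c M {p}) (expo c M {p})
      = ∑ i ∈ Finset.range (M + 1), ∑ l ∈ Finset.range (M + 1),
        (c ^ i / (i.factorial : ℝ)) * (c ^ l / (l.factorial : ℝ)) * K (p ^ i) (p ^ l) := by
  unfold expo
  rw [BK_sum_left]
  refine Finset.sum_congr rfl fun i _ => ?_
  rw [BK_sum_right]
  refine Finset.sum_congr rfl fun l _ => ?_
  rw [BK_smul_left, BK_smul_right, PP_singleton_pow, PP_singleton_pow, BK_single]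
  ring

lemma sum_mul_exp_le {c : ℝ} (hc : 0 ≤ c) (M : ℕ) :
    ∑ i ∈ Finset.range (M + 1), (i : ℝ) * (c ^ i / (i.factorial : ℝ)) ≤ c * Real.exp c := by
  rw [Finset.sum_range_succ']
  simp only [Nat.cast_zero, zero_mul, add_zero]
  have h1 : ∀ i ∈ Finset.range M, ((i + 1 : ℕ) : ℝ) * (c ^ (i + 1) / ((i + 1).factorial : ℝ))
      = c * (c ^ i / (i.factorial : ℝ)) := by
    intro i _
    rw [Nat.factorial_succ]
    push_cast
    field_simp
    ring
  rw [Finset.sum_congr rfl h1, ← Finset.mul_sum]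
  gcongr
  exact Real.sum_le_exp_of_nonneg hc _

lemma local_KL {p : ℕ} (hp : p.Prime) (c : ℝ) (M : ℕ) :
    |BK KL (expo c M {p}) (expo c M {p})|
      ≤ 2 * |c| * Real.exp (2 * |c|) * ((p : ℝ)⁻¹ * Real.log p) := by
  rw [BK_local]
  have hlog : 0 ≤ Real.log p := Real.log_nonneg (by exact_mod_cast hp.one_le)
  have hp0 : (0 : ℝ) < p := by exact_mod_cast hp.pos
  set x := |c| with hx
  have hx0 : 0 ≤ x := abs_nonneg _
  have h1 : |∑ i ∈ Finset.range (M + 1), ∑ l ∈ Finset.range (M + 1),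
        (c ^ i / (i.factorial : ℝ)) * (c ^ l / (l.factorial : ℝ)) * KL (p ^ i) (p ^ l)|
      ≤ ∑ i ∈ Finset.range (M + 1), ∑ l ∈ Finset.range (M + 1),
        (x ^ i / (i.factorial : ℝ)) * (x ^ l / (l.factorial : ℝ)) *
          ((p : ℝ)⁻¹ * Real.log p * (i + l)) := by
    refine (Finset.abs_sum_le_sum_abs _ _).trans (Finset.sum_le_sum fun i _ => ?_)
    refine (Finset.abs_sum_le_sum_abs _ _).trans (Finset.sum_le_sum fun l _ => ?_)
    rw [abs_mul, abs_mul, abs_div, abs_div, abs_pow, abs_pow, abs_of_nonneg (KL_nonneg _ _),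
      abs_of_pos (by positivity : (0 : ℝ) < (i.factorial : ℝ)),
      abs_of_pos (by positivity : (0 : ℝ) < (l.factorial : ℝ))]
    have := KL_pow_le hp i l
    gcongr
  refine h1.trans ?_
  have h2 : ∑ i ∈ Finset.range (M + 1), ∑ l ∈ Finset.range (M + 1),
        (x ^ i / (i.factorial : ℝ)) * (x ^ l / (l.factorial : ℝ)) *
          ((p : ℝ)⁻¹ * Real.log p * (i + l))
      = ((p : ℝ)⁻¹ * Real.log p) * (2 * ((∑ i ∈ Finset.range (M + 1), (i : ℝ) * (x ^ i / (i.factorial : ℝ)))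
        * ∑ l ∈ Finset.range (M + 1), x ^ l / (l.factorial : ℝ))) := by
    have e1 : (∑ i ∈ Finset.range (M + 1), (i : ℝ) * (x ^ i / (i.factorial : ℝ)))
        * ∑ l ∈ Finset.range (M + 1), x ^ l / (l.factorial : ℝ)
        = ∑ i ∈ Finset.range (M + 1), ∑ l ∈ Finset.range (M + 1),
          (i : ℝ) * (x ^ i / (i.factorial : ℝ)) * (x ^ l / (l.factorial : ℝ)) := by
      rw [Finset.sum_mul_sum]
    have e2 : (∑ i ∈ Finset.range (M + 1), (i : ℝ) * (x ^ i / (i.factorial : ℝ)))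
        * ∑ l ∈ Finset.range (M + 1), x ^ l / (l.factorial : ℝ)
        = ∑ i ∈ Finset.range (M + 1), ∑ l ∈ Finset.range (M + 1),
          (x ^ i / (i.factorial : ℝ)) * ((l : ℝ) * (x ^ l / (l.factorial : ℝ))) := by
      rw [mul_comm, Finset.sum_mul_sum]
    have e3 : 2 * ((∑ i ∈ Finset.range (M + 1), (i : ℝ) * (x ^ i / (i.factorial : ℝ)))
        * ∑ l ∈ Finset.range (M + 1), x ^ l / (l.factorial : ℝ))
        = ∑ i ∈ Finset.range (M + 1), ∑ l ∈ Finset.range (M + 1),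
          (x ^ i / (i.factorial : ℝ)) * (x ^ l / (l.factorial : ℝ)) * (i + l) := by
      rw [two_mul]
      nth_rewrite 1 [e1]
      rw [e2, ← Finset.sum_add_distrib]
      refine Finset.sum_congr rfl fun i _ => ?_
      rw [← Finset.sum_add_distrib]
      refine Finset.sum_congr rfl fun l _ => ?_
      ring
    rw [e3, Finset.mul_sum]
    refine Finset.sum_congr rfl fun i _ => ?_
    rw [Finset.mul_sum]
    refine Finset.sum_congr rfl fun l _ => ?_
    ring
  rw [h2]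
  have h3 := sum_mul_exp_le hx0 M
  have h4 : ∑ l ∈ Finset.range (M + 1), x ^ l / (l.factorial : ℝ) ≤ Real.exp x :=
    Real.sum_le_exp_of_nonneg hx0 _
  have h5 : 0 ≤ ∑ l ∈ Finset.range (M + 1), x ^ l / (l.factorial : ℝ) :=
    Finset.sum_nonneg fun l _ => by positivity
  calc ((p : ℝ)⁻¹ * Real.log p) * (2 * ((∑ i ∈ Finset.range (M + 1), (i : ℝ) * (x ^ i / (i.factorial : ℝ)))
        * ∑ l ∈ Finset.range (M + 1), x ^ l / (l.factorial : ℝ)))
      ≤ ((p : ℝ)⁻¹ * Real.log p) * (2 * ((x * Real.exp x) * Real.exp x)) := by gcongr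
    _ = _ := by
        have : Real.exp (2 * x) = Real.exp x * Real.exp x := by rw [← Real.exp_add]; congr 1; ring
        rw [this]; ring

lemma exp_two_lt : Real.exp 2 < 7.4 := by
  have h := Real.exp_one_lt_d9
  have h0 := Real.exp_pos 1
  have e : Real.exp 2 = Real.exp 1 * Real.exp 1 := by rw [← Real.exp_add]; norm_num
  rw [e]
  nlinarith

lemma exp_four_lt : Real.exp 4 < 55 := by
  have h := exp_two_lt
  have h0 := Real.exp_pos 2
  have e : Real.exp 4 = Real.exp 2 * Real.exp 2 := by rw [← Real.exp_add]; norm_num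
  rw [e]
  nlinarith

/-- the local quadratic form near the main term -/
lemma local_K2 {p : ℕ} (hp : p.Prime) {c : ℝ} (hc : |c| ≤ 1) {M : ℕ} (hM : 1 ≤ M) :
    |BK K2 (expo c M {p}) (expo c M {p}) - (1 + (2 * c + c ^ 2) * (p : ℝ)⁻¹)|
      ≤ 3.4 * c ^ 2 * ((p : ℝ)⁻¹) ^ 2 := by
  rw [BK_local]
  simp_rw [K2_pow hp]
  have hp0 : (0 : ℝ) < p := by exact_mod_cast hp.pos
  set q := (p : ℝ)⁻¹ with hq
  have hq0 : 0 < q := by positivity
  have hq1 : q ≤ 1 := inv_le_one_of_one_le₀ (by exact_mod_cast hp.one_le)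
  set t : ℕ × ℕ → ℝ := fun x => (c ^ x.1 / (x.1.factorial : ℝ)) * (c ^ x.2 / (x.2.factorial : ℝ)) * q ^ max x.1 x.2
    with ht
  set w : ℕ × ℕ → ℝ := fun x => (1 / (x.1.factorial : ℝ)) * (1 / (x.2.factorial : ℝ)) with hw
  have e1 : ∑ i ∈ Finset.range (M + 1), ∑ l ∈ Finset.range (M + 1),
        (c ^ i / (i.factorial : ℝ)) * (c ^ l / (l.factorial : ℝ)) * q ^ max i l
      = ∑ x ∈ Finset.range (M + 1) ×ˢ Finset.range (M + 1), t x := by
    rw [Finset.sum_product]
  rw [e1]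
  have hsub : Finset.range 2 ×ˢ Finset.range 2 ⊆ Finset.range (M + 1) ×ˢ Finset.range (M + 1) := by
    apply Finset.product_subset_product <;> exact Finset.range_subset_range.mpr (by omega)
  rw [← Finset.sum_sdiff hsub]
  have e2 : ∑ x ∈ Finset.range 2 ×ˢ Finset.range 2, t x = 1 + (2 * c + c ^ 2) * q := by
    rw [Finset.sum_product]
    simp [ht, Finset.sum_range_succ]
    ring
  rw [e2, add_sub_cancel_right]
  have h1 : ∀ x ∈ (Finset.range (M + 1) ×ˢ Finset.range (M + 1)) \ (Finset.range 2 ×ˢ Finset.range 2),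
      |t x| ≤ c ^ 2 * q ^ 2 * w x := by
    intro x hx
    rw [Finset.mem_sdiff, Finset.mem_product, Finset.mem_product] at hx
    simp only [Finset.mem_range] at hx
    have hmax : 2 ≤ max x.1 x.2 := by omega
    have hsum : 2 ≤ x.1 + x.2 := by omega
    rw [ht, hw]
    simp only
    have hf1 : (0 : ℝ) < (x.1.factorial : ℝ) := by positivity
    have hf2 : (0 : ℝ) < (x.2.factorial : ℝ) := by positivity
    have ec : c ^ x.1 / (x.1.factorial : ℝ) * (c ^ x.2 / (x.2.factorial : ℝ)) * q ^ max x.1 x.2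
        = c ^ (x.1 + x.2) * q ^ max x.1 x.2 * (1 / (x.1.factorial : ℝ) * (1 / (x.2.factorial : ℝ))) := by
      rw [pow_add]; ring
    rw [ec, abs_mul, abs_mul, abs_pow, abs_of_pos (by positivity : 0 < q ^ max x.1 x.2),
      abs_of_pos (by positivity : 0 < 1 / (x.1.factorial : ℝ) * (1 / (x.2.factorial : ℝ)))]
    have a1 : |c| ^ (x.1 + x.2) ≤ c ^ 2 := by
      rw [← sq_abs c]
      exact pow_le_pow_of_le_one (abs_nonneg _) hc hsum
    have a2 : q ^ max x.1 x.2 ≤ q ^ 2 := pow_le_pow_of_le_one hq0.le hq1 hmax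
    gcongr
  refine (Finset.abs_sum_le_sum_abs _ _).trans ((Finset.sum_le_sum h1).trans ?_)
  rw [← Finset.mul_sum]
  have h2 : ∑ x ∈ (Finset.range (M + 1) ×ˢ Finset.range (M + 1)) \ (Finset.range 2 ×ˢ Finset.range 2), w x
      ≤ 3.4 := by
    have h3 : ∑ x ∈ Finset.range (M + 1) ×ˢ Finset.range (M + 1), w x ≤ 7.4 := by
      rw [Finset.sum_product]
      have h4 : ∑ i ∈ Finset.range (M + 1), ∑ l ∈ Finset.range (M + 1), w (i, l)
          = (∑ i ∈ Finset.range (M + 1), 1 / (i.factorial : ℝ)) ^ 2 := by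
        rw [sq, Finset.sum_mul_sum]
      rw [h4]
      have h5 : ∑ i ∈ Finset.range (M + 1), 1 / (i.factorial : ℝ) ≤ Real.exp 1 := by
        have := Real.sum_le_exp_of_nonneg (zero_le_one (α := ℝ)) (M + 1)
        simpa using this
      have h6 : 0 ≤ ∑ i ∈ Finset.range (M + 1), 1 / (i.factorial : ℝ) :=
        Finset.sum_nonneg fun i _ => by positivity
      calc (∑ i ∈ Finset.range (M + 1), 1 / (i.factorial : ℝ)) ^ 2 ≤ Real.exp 1 ^ 2 := by gcongr
        _ = Real.exp 2 := by rw [← Real.exp_nat_mul]; norm_num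
        _ ≤ 7.4 := exp_two_lt.le
    rw [← Finset.sum_sdiff hsub] at h3
    have h7 : ∑ x ∈ Finset.range 2 ×ˢ Finset.range 2, w x = 4 := by
      rw [Finset.sum_product]
      simp [hw, Finset.sum_range_succ]
      norm_num
    rw [h7] at h3
    linarith
  calc c ^ 2 * q ^ 2 * ∑ x ∈ (Finset.range (M + 1) ×ˢ Finset.range (M + 1)) \ (Finset.range 2 ×ˢ Finset.range 2), w x
      ≤ c ^ 2 * q ^ 2 * 3.4 := by gcongr
    _ = _ := by ring

/-- the local quadratic form of the majorant -/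
lemma local_K2_two {p : ℕ} (hp : p.Prime) (M : ℕ) :
    |BK K2 (expo 2 M {p}) (expo 2 M {p})| ≤ Real.exp (54 * (p : ℝ)⁻¹) := by
  rw [BK_local]
  simp_rw [K2_pow hp]
  have hp0 : (0 : ℝ) < p := by exact_mod_cast hp.pos
  set q := (p : ℝ)⁻¹ with hq
  have hq0 : 0 < q := by positivity
  have hq1 : q ≤ 1 := inv_le_one_of_one_le₀ (by exact_mod_cast hp.one_le)
  have hnn : ∀ i l : ℕ, 0 ≤ ((2 : ℝ) ^ i / (i.factorial : ℝ)) * ((2 : ℝ) ^ l / (l.factorial : ℝ)) * q ^ max i l :=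
    fun i l => by positivity
  rw [abs_of_nonneg (Finset.sum_nonneg fun i _ => Finset.sum_nonneg fun l _ => hnn i l)]
  set t : ℕ × ℕ → ℝ := fun x => ((2 : ℝ) ^ x.1 / (x.1.factorial : ℝ)) * ((2 : ℝ) ^ x.2 / (x.2.factorial : ℝ)) * q ^ max x.1 x.2
    with ht
  set w : ℕ × ℕ → ℝ := fun x => ((2 : ℝ) ^ x.1 / (x.1.factorial : ℝ)) * ((2 : ℝ) ^ x.2 / (x.2.factorial : ℝ)) with hw
  have e1 : ∑ i ∈ Finset.range (M + 1), ∑ l ∈ Finset.range (M + 1),
        ((2 : ℝ) ^ i / (i.factorial : ℝ)) * ((2 : ℝ) ^ l / (l.factorial : ℝ)) * q ^ max i l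
      = ∑ x ∈ Finset.range (M + 1) ×ˢ Finset.range (M + 1), t x := by
    rw [Finset.sum_product]
  rw [e1]
  have h00 : (0, 0) ∈ Finset.range (M + 1) ×ˢ Finset.range (M + 1) := by simp
  rw [← Finset.add_sum_erase _ _ h00]
  have h1 : ∑ x ∈ (Finset.range (M + 1) ×ˢ Finset.range (M + 1)).erase (0, 0), t x
      ≤ q * ∑ x ∈ (Finset.range (M + 1) ×ˢ Finset.range (M + 1)).erase (0, 0), w x := by
    rw [Finset.mul_sum]
    refine Finset.sum_le_sum fun x hx => ?_
    rw [Finset.mem_erase] at hx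
    have hmax : 1 ≤ max x.1 x.2 := by
      by_contra hc
      have h1 : x.1 = 0 := by omega
      have h2 : x.2 = 0 := by omega
      exact hx.1 (Prod.ext h1 h2)
    have a2 : q ^ max x.1 x.2 ≤ q ^ 1 := pow_le_pow_of_le_one hq0.le hq1 hmax
    rw [pow_one] at a2
    rw [ht, hw]
    simp only
    rw [mul_comm q]
    gcongr
  have h2 : ∑ x ∈ (Finset.range (M + 1) ×ˢ Finset.range (M + 1)).erase (0, 0), w x ≤ 54 := by
    have h3 : ∑ x ∈ Finset.range (M + 1) ×ˢ Finset.range (M + 1), w x ≤ 55 := by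
      rw [Finset.sum_product]
      have h4 : ∑ i ∈ Finset.range (M + 1), ∑ l ∈ Finset.range (M + 1), w (i, l)
          = (∑ i ∈ Finset.range (M + 1), (2 : ℝ) ^ i / (i.factorial : ℝ)) ^ 2 := by
        rw [sq, Finset.sum_mul_sum]
      rw [h4]
      have h5 : ∑ i ∈ Finset.range (M + 1), (2 : ℝ) ^ i / (i.factorial : ℝ) ≤ Real.exp 2 :=
        Real.sum_le_exp_of_nonneg zero_le_two (M + 1)
      have h6 : 0 ≤ ∑ i ∈ Finset.range (M + 1), (2 : ℝ) ^ i / (i.factorial : ℝ) :=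
        Finset.sum_nonneg fun i _ => by positivity
      calc (∑ i ∈ Finset.range (M + 1), (2 : ℝ) ^ i / (i.factorial : ℝ)) ^ 2 ≤ Real.exp 2 ^ 2 := by gcongr
        _ = Real.exp 4 := by rw [← Real.exp_nat_mul]; norm_num
        _ ≤ 55 := exp_four_lt.le
    rw [← Finset.add_sum_erase _ _ h00] at h3
    have : w (0, 0) = 1 := by simp [hw]
    linarith
  have h3 : t (0, 0) = 1 := by simp [ht]
  have h4 := Real.add_one_le_exp (54 * q)
  have h5 : q * ∑ x ∈ (Finset.range (M + 1) ×ˢ Finset.range (M + 1)).erase (0, 0), w x ≤ q * 54 := by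
    gcongr
  linarith

end Pool.Agent.Lib.MP_f9aece_nt_h97
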