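import Mathlib
import Pool.Agent.Lib.MP_f9aece_nt_h97.Local

/-!
Bounds for both quadratic forms of the truncated exponential with a negative parameter.
-/

set_option autoImplicit false

namespace Pool.Agent.Lib.MP_f9aece_nt_h97

open MeasureTheory Set Filter Topology Complex
open Pool.Agent.Lib.MP_f9aece_nt

/-- splitting off one prime -/
lemma expo_insert {I : Finset ℕ} {p : ℕ} (hp : p ∉ I) (c : ℝ) (m : ℕ) :
    expo c m (insert p I) = ∑ i ∈ Finset.range (m + 1),
      ((c ^ i / (i.factorial : ℝ)) • PP {p} ^ i) * expo c (m - i) I := by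
  unfold expo
  set x := PP {p} with hx
  set y := PP I with hy
  have e0 : PP (insert p I) = x + y := PP_insert hp
  rw [e0]
  set F : ℕ → ℕ → DP := fun i j => ((c ^ i / (i.factorial : ℝ)) • x ^ i) *
    ((c ^ j / (j.factorial : ℝ)) • y ^ j) with hF
  have e1 : ∀ r ∈ Finset.range (m + 1), (c ^ r / (r.factorial : ℝ)) • (x + y) ^ r
      = ∑ i ∈ Finset.range (r + 1), F i (r - i) := by
    intro r _
    rw [add_pow, Finset.smul_sum]
    refine Finset.sum_congr rfl fun i hi => ?_
    rw [Finset.mem_range] at hi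
    have hir : i ≤ r := by omega
    rw [hF]
    simp only
    rw [smul_mul_smul_comm]
    have e2 : x ^ i * y ^ (r - i) * ((r.choose i : ℕ) : DP) = ((r.choose i : ℕ) : ℝ) • (x ^ i * y ^ (r - i)) := by
      rw [← nsmul_eq_mul', Nat.cast_smul_eq_nsmul]
    rw [e2, smul_smul]
    congr 1
    have h3 := Nat.choose_mul_factorial_mul_factorial hir
    have h3' : (r.choose i : ℝ) * (i.factorial : ℝ) * ((r - i).factorial : ℝ) = (r.factorial : ℝ) := by
      exact_mod_cast h3
    have h4 : c ^ r = c ^ i * c ^ (r - i) := by rw [← pow_add]; congr 1; omega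
    rw [h4, ← h3']
    have f1 : (0 : ℝ) < (i.factorial : ℝ) := by positivity
    have f2 : (0 : ℝ) < ((r - i).factorial : ℝ) := by positivity
    have f3 : (0 : ℝ) < (r.choose i : ℝ) := by exact_mod_cast Nat.choose_pos hir
    field_simp
  rw [Finset.sum_congr rfl e1]
  rw [Finset.sum_comm' (t' := Finset.range (m + 1)) (s' := fun i => Finset.Ico i (m + 1))]
  · refine Finset.sum_congr rfl fun i hi => ?_
    rw [Finset.mem_range] at hi
    rw [Finset.sum_Ico_eq_sum_range, Finset.mul_sum]
    have : m + 1 - i = m - i + 1 := by omega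
    rw [this]
    refine Finset.sum_congr rfl fun j _ => ?_
    rw [Nat.add_sub_cancel_left]
  · intro r i
    simp only [Finset.mem_range, Finset.mem_Ico]
    omega

/-- product of local truncated exponentials -/
noncomputable def FF (c : ℝ) (M : ℕ) (I : Finset ℕ) : DP := ∏ p ∈ I, expo c M {p}

lemma dom_expo {I : Finset ℕ} (hI : ∀ p ∈ I, p.Prime) {c d : ℝ} (h : |c| ≤ d) (M : ℕ) :
    Dom (expo c M I) (expo d M I) := by
  unfold expo
  refine Dom.sum _ fun r _ => ?_
  refine (dom_self (cone_PP_pow hI r)).smul ?_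
  rw [abs_div, abs_pow, abs_of_pos (by positivity : (0 : ℝ) < (r.factorial : ℝ))]
  gcongr

lemma dom_FF {I : Finset ℕ} (hI : ∀ p ∈ I, p.Prime) {c d : ℝ} (h : |c| ≤ d) (M : ℕ) :
    Dom (FF c M I) (FF d M I) := by
  unfold FF
  refine Dom.prod _ fun p hp => dom_expo ?_ h M
  intro q hq
  rw [Finset.mem_singleton] at hq
  rw [hq]; exact hI p hp

lemma smul_mul_dom {f g h : DP} {c d : ℝ} (hcd : c = d) (hh : f = g * h) : c • f = d • (g * h) := by
  rw [hcd, hh]

/-- comparison of the truncated exponential with the product of the local ones -/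
lemma dom_diff {I : Finset ℕ} (hI : ∀ p ∈ I, p.Prime) {c : ℝ} (hc : |c| ≤ 1) (M m : ℕ) (hm : m ≤ M) :
    Dom (FF c M I - expo c m I) ((|c| / 2 ^ m) • FF 2 M I) := by
  classical
  induction I using Finset.induction_on generalizing m with
  | empty =>
    have e1 : FF c M ∅ - expo c m ∅ = 0 := by
      unfold FF expo
      rw [Finset.prod_empty, Finset.sum_range_succ']
      have : ∀ r ∈ Finset.range m, (c ^ (r + 1) / ((r + 1).factorial : ℝ)) • PP ∅ ^ (r + 1) = 0 := by
        intro r _
        simp [PP]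
      rw [Finset.sum_eq_zero this]
      simp
    rw [e1]
    intro n
    unfold FF
    rw [Finset.prod_empty, MonoidAlgebra.coeff_smul, Finsupp.smul_apply, smul_eq_mul,
      MonoidAlgebra.one_def, MonoidAlgebra.coeff_single, Finsupp.single_apply]
    simp only [MonoidAlgebra.coeff_zero, Finsupp.coe_zero, Pi.zero_apply, abs_zero]
    split_ifs <;> positivity
  | insert p I hp ih =>
    have hpp : p.Prime := hI p (Finset.mem_insert_self _ _)
    have hI' : ∀ q ∈ I, q.Prime := fun q hq => hI q (Finset.mem_insert_of_mem hq)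
    have hF : ∀ d, FF d M (insert p I) = expo d M {p} * FF d M I := fun d => by
      unfold FF; rw [Finset.prod_insert hp]
    set x := PP {p} with hx
    have hxd : Dom x x := by
      rw [hx, PP_singleton]
      exact Dom.single p (by simp)
    -- remainder pieces
    set R : ℕ → DP := fun i => if i ≤ m then FF c M I - expo c (m - i) I else FF c M I with hR
    have e1 : FF c M (insert p I) - expo c m (insert p I)
        = ∑ i ∈ Finset.range (M + 1), ((1 / (i.factorial : ℝ)) • x ^ i) * (c ^ i • R i) := by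
      rw [hF, expo_insert hp]
      have e2 : expo c M {p} * FF c M I
          = ∑ i ∈ Finset.range (M + 1), ((c ^ i / (i.factorial : ℝ)) • x ^ i) * FF c M I := by
        conv_lhs => rw [expo]
        rw [Finset.sum_mul]
      have e3 : ∑ i ∈ Finset.range (m + 1), ((c ^ i / (i.factorial : ℝ)) • x ^ i) * expo c (m - i) I
          = ∑ i ∈ Finset.range (M + 1), if i ≤ m then
            ((c ^ i / (i.factorial : ℝ)) • x ^ i) * expo c (m - i) I else 0 := by
        rw [← Finset.sum_filter]
        refine Finset.sum_congr ?_ fun _ _ => rfl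
        ext i
        simp only [Finset.mem_range, Finset.mem_filter]
        omega
      rw [e2, e3, ← Finset.sum_sub_distrib]
      refine Finset.sum_congr rfl fun i _ => ?_
      have e4 : (c ^ i / (i.factorial : ℝ)) • x ^ i = c ^ i • ((1 / (i.factorial : ℝ)) • x ^ i) := by
        rw [smul_smul]; congr 1; ring
      rw [hR]
      simp only
      split_ifs with h
      · rw [e4, ← mul_sub, smul_mul_assoc, mul_smul_comm]
      · rw [sub_zero, e4, smul_mul_assoc, mul_smul_comm]
    have e5 : (|c| / 2 ^ m) • FF 2 M (insert p I)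
        = ∑ i ∈ Finset.range (M + 1), ((1 / (i.factorial : ℝ)) • x ^ i)
          * ((|c| / 2 ^ m * 2 ^ i) • FF 2 M I) := by
      rw [hF]
      conv_lhs => rw [expo]
      rw [Finset.sum_mul, Finset.smul_sum]
      refine Finset.sum_congr rfl fun i _ => ?_
      rw [smul_mul_smul_comm, smul_mul_assoc, smul_smul]
      congr 1
      ring
    rw [e1, e5]
    refine Dom.sum _ fun i hi => ?_
    rw [Finset.mem_range] at hi
    refine Dom.mul ((hxd.pow i).smul ?_) ?_
    · rw [abs_of_nonneg (by positivity)]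
    · have hG : ∀ n, 0 ≤ (FF 2 M I).coeff n := (dom_FF hI' (c := 2) (d := 2) (by norm_num) M).nonneg
      rw [hR]
      simp only
      split_ifs with h
      · have h1 := ih hI' (m - i) (by omega)
        have h2 : Dom (c ^ i • (FF c M I - expo c (m - i) I))
            ((1 : ℝ) • ((|c| / 2 ^ (m - i)) • FF 2 M I)) := by
          refine h1.smul ?_
          rw [abs_pow]
          exact pow_le_one₀ (abs_nonneg _) hc
        rw [one_smul] at h2
        refine h2.trans' (le_of_eq ?_) hG
        have : (2 : ℝ) ^ m = 2 ^ (m - i) * 2 ^ i := by rw [← pow_add]; congr 1; omega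
        rw [this]
        field_simp
      · have h1 := dom_FF hI' (c := c) (d := 2) (by linarith) M
        have h2 : Dom (c ^ i • FF c M I) (|c| • FF 2 M I) := by
          refine h1.smul ?_
          rw [abs_pow]
          have : |c| ^ i ≤ |c| ^ 1 := pow_le_pow_of_le_one (abs_nonneg _) hc (by omega)
          rwa [pow_one] at this
        refine h2.trans' ?_ hG
        have h3 : (2 : ℝ) ^ m ≤ 2 ^ i := pow_le_pow_right₀ (by norm_num) (by omega)
        calc |c| = |c| * 1 := by ring
          _ ≤ |c| * (2 ^ i / 2 ^ m) := by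
              gcongr
              rw [le_div_iff₀ (by positivity)]
              linarith
          _ = _ := by ring

/-- sum of squared reciprocals -/
noncomputable def V2 (I : Finset ℕ) : ℝ := ∑ p ∈ I, ((p : ℝ)⁻¹) ^ 2

/-- sum of `log p / p` -/
noncomputable def LL (I : Finset ℕ) : ℝ := ∑ p ∈ I, (p : ℝ)⁻¹ * Real.log p

lemma V2_nonneg (I : Finset ℕ) : 0 ≤ V2 I := Finset.sum_nonneg fun p _ => by positivity

lemma LL_nonneg (I : Finset ℕ) : 0 ≤ LL I :=
  Finset.sum_nonneg fun p _ => mul_nonneg (by positivity) (Real.log_natCast_nonneg p)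

lemma disj_single {I : Finset ℕ} : ∀ i ∈ I, ∀ j ∈ I, i ≠ j → Disjoint ({i} : Finset ℕ) {j} := by
  intro i _ j _ hij
  rw [Finset.disjoint_singleton]
  exact hij

lemma sup_expo {I : Finset ℕ} (hI : ∀ p ∈ I, p.Prime) (c : ℝ) (M : ℕ) : Sup (Smo I) (expo c M I) := by
  unfold expo
  refine Sup.sum _ fun r _ => Sup.smul ?_ _
  exact (sup_of_cone (cone_PP_pow hI r)).mono fun n hn => hn.1

lemma prime_single {p : ℕ} (hp : p.Prime) : ∀ q ∈ ({p} : Finset ℕ), q.Prime := by
  intro q hq
  rw [Finset.mem_singleton] at hq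
  rw [hq]; exact hp

/-- forms of the product of local factors -/
lemma FF_bounds {I : Finset ℕ} (hI : ∀ p ∈ I, p.Prime) {a : ℝ} (ha0 : 0 ≤ a) (ha : a ≤ 1) {M : ℕ}
    (hM : 1 ≤ M) :
    |BK K2 (FF (-a) M I) (FF (-a) M I)| ≤ Real.exp ((a ^ 2 - 2 * a) * VV I + 3.4 * a ^ 2 * V2 I) ∧
    |BK KL (FF (-a) M I) (FF (-a) M I)|
      ≤ 25 * a * LL I * Real.exp ((a ^ 2 - 2 * a) * VV I + 3.4 * a ^ 2 * V2 I) := by
  have h := prod_bounds I (fun p => {p}) disj_single (fun p => expo (-a) M {p})
    (fun p hp => sup_expo (prime_single (hI p hp)) _ _)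
    (fun p => Real.exp ((a ^ 2 - 2 * a) * (p : ℝ)⁻¹ + 3.4 * a ^ 2 * ((p : ℝ)⁻¹) ^ 2))
    (fun p => 25 * a * ((p : ℝ)⁻¹ * Real.log p))
    (fun p _ => (Real.exp_pos _).le)
    (fun p _ => mul_nonneg (by positivity) (mul_nonneg (by positivity) (Real.log_natCast_nonneg p)))
    ?_ ?_
  · rw [← Real.exp_sum, Finset.sum_add_distrib, ← Finset.mul_sum, ← Finset.mul_sum,
      ← Finset.mul_sum] at h
    exact h
  · intro p hp
    have hpp := hI p hp
    have h1 := local_K2 hpp (c := -a) (by rw [abs_neg, abs_of_nonneg ha0]; exact ha) hM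
    have hp2 : (2 : ℝ) ≤ p := by exact_mod_cast hpp.two_le
    set q := (p : ℝ)⁻¹ with hq
    have hq0 : 0 < q := by positivity
    have hq1 : q ≤ 1 / 2 := by
      rw [hq, one_div]; exact inv_anti₀ (by norm_num) hp2
    rw [abs_le] at h1 ⊢
    set B := BK K2 (expo (-a) M {p}) (expo (-a) M {p}) with hB
    have h2 := Real.add_one_le_exp ((a ^ 2 - 2 * a) * q + 3.4 * a ^ 2 * q ^ 2)
    have e1 : (2 * -a + (-a) ^ 2) * q = (a ^ 2 - 2 * a) * q := by ring
    have e2 : 3.4 * (-a) ^ 2 * q ^ 2 = 3.4 * a ^ 2 * q ^ 2 := by ring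
    rw [e1, e2] at h1
    constructor
    · have h3 : (0 : ℝ) ≤ 1 + (a ^ 2 - 2 * a) * q := by
        have : -(1 : ℝ) ≤ a ^ 2 - 2 * a := by nlinarith [sq_nonneg (a - 1)]
        nlinarith
      linarith
    · linarith
  · intro p hp
    have hpp := hI p hp
    have h1 := local_KL hpp (-a) M
    rw [abs_neg, abs_of_nonneg ha0] at h1
    refine h1.trans ?_
    have hp2 : (2 : ℝ) ≤ p := by exact_mod_cast hpp.two_le
    have hlog : 0 ≤ Real.log p := Real.log_natCast_nonneg p
    set q := (p : ℝ)⁻¹ with hq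
    have hq0 : 0 < q := by positivity
    have hq1 : q ≤ 1 / 2 := by
      rw [hq, one_div]; exact inv_anti₀ (by norm_num) hp2
    have h2 : Real.exp (2 * a) ≤ 7.4 := by
      refine le_trans (Real.exp_le_exp.mpr (by linarith)) exp_two_lt.le
    have h3 : 0.6 ≤ Real.exp ((a ^ 2 - 2 * a) * q + 3.4 * a ^ 2 * q ^ 2) := by
      have h4 : -(1 / 2 : ℝ) ≤ (a ^ 2 - 2 * a) * q + 3.4 * a ^ 2 * q ^ 2 := by
        have h5 : -(1 : ℝ) ≤ a ^ 2 - 2 * a := by nlinarith [sq_nonneg (a - 1)]
        have h6 : 0 ≤ 3.4 * a ^ 2 * q ^ 2 := by positivity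
        nlinarith
      have h7 : (0.6 : ℝ) ≤ Real.exp (-(1 / 2)) := by
        have h8 : Real.exp (1 / 2) ≤ 1.65 := by
          have e : Real.exp (1 / 2) ^ 2 = Real.exp 1 := by rw [← Real.exp_nat_mul]; norm_num
          have h9 := Real.exp_one_lt_d9
          have h10 := Real.exp_pos (1 / 2 : ℝ)
          nlinarith
        rw [Real.exp_neg, le_inv_comm₀ (by norm_num) (Real.exp_pos _)]
        refine h8.trans ?_
        norm_num
      exact h7.trans (Real.exp_le_exp.mpr h4)
    have hql : 0 ≤ q * Real.log p := by positivity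
    calc 2 * a * Real.exp (2 * a) * (q * Real.log p)
        ≤ 2 * a * 7.4 * (q * Real.log p) := by gcongr
      _ = 14.8 * a * (q * Real.log p) := by ring
      _ ≤ 25 * a * (q * Real.log p) * 0.6 := by
          have : 0 ≤ a * (q * Real.log p) := by positivity
          linarith
      _ ≤ _ := by gcongr

lemma FF_bounds_two {I : Finset ℕ} (hI : ∀ p ∈ I, p.Prime) (M : ℕ) :
    |BK K2 (FF 2 M I) (FF 2 M I)| ≤ Real.exp (54 * VV I) ∧
    |BK KL (FF 2 M I) (FF 2 M I)| ≤ 220 * LL I * Real.exp (54 * VV I) := by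
  have h := prod_bounds I (fun p => {p}) disj_single (fun p => expo 2 M {p})
    (fun p hp => sup_expo (prime_single (hI p hp)) _ _)
    (fun p => Real.exp (54 * (p : ℝ)⁻¹))
    (fun p => 220 * ((p : ℝ)⁻¹ * Real.log p))
    (fun p _ => (Real.exp_pos _).le)
    (fun p _ => mul_nonneg (by positivity) (mul_nonneg (by positivity) (Real.log_natCast_nonneg p)))
    ?_ ?_
  · rw [← Real.exp_sum, ← Finset.mul_sum, ← Finset.mul_sum] at h
    exact h
  · intro p hp
    exact local_K2_two (hI p hp) M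
  · intro p hp
    have h1 := local_KL (hI p hp) 2 M
    rw [abs_two] at h1
    refine h1.trans ?_
    have h2 : Real.exp (2 * 2) ≤ 55 := by
      have := exp_four_lt
      norm_num at this ⊢
      exact this.le
    have hlog : 0 ≤ Real.log p := Real.log_natCast_nonneg p
    have h3 : 1 ≤ Real.exp (54 * (p : ℝ)⁻¹) := Real.one_le_exp (by positivity)
    have hql : 0 ≤ (p : ℝ)⁻¹ * Real.log p := by positivity
    calc 2 * 2 * Real.exp (2 * 2) * ((p : ℝ)⁻¹ * Real.log p)
        ≤ 2 * 2 * 55 * ((p : ℝ)⁻¹ * Real.log p) := by gcongr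
      _ = 220 * ((p : ℝ)⁻¹ * Real.log p) * 1 := by ring
      _ ≤ _ := by gcongr

/-- forms of the truncated exponential with parameter `-a` -/
lemma expo_bounds {I : Finset ℕ} (hI : ∀ p ∈ I, p.Prime) {a : ℝ} (ha0 : 0 ≤ a) (ha : a ≤ 1) {M : ℕ}
    (hM : 1 ≤ M) (hV : VV I ≤ 12) :
    |BK K2 (expo (-a) M I) (expo (-a) M I)|
      ≤ Real.exp ((a ^ 2 - 2 * a) * VV I + 3.4 * a ^ 2 * V2 I + 3 * (a / 2 ^ M) * Real.exp 660) ∧
    |BK KL (expo (-a) M I) (expo (-a) M I)|
      ≤ LL I * (25 * a + 660 * (a / 2 ^ M) * Real.exp 660)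
        * Real.exp ((a ^ 2 - 2 * a) * VV I + 3.4 * a ^ 2 * V2 I + 3 * (a / 2 ^ M) * Real.exp 660) := by
  have hac : |(-a)| ≤ 1 := by rw [abs_neg, abs_of_nonneg ha0]; exact ha
  have hd := dom_diff hI hac M M le_rfl
  rw [abs_neg, abs_of_nonneg ha0] at hd
  set F := FF (-a) M I with hF
  set A := expo (-a) M I with hA
  set G := FF 2 M I with hG
  set δ := a / 2 ^ M with hδ
  have hδ0 : 0 ≤ δ := by positivity
  have hδ1 : δ ≤ 1 := by
    rw [hδ, div_le_one (by positivity)]
    exact ha.trans (one_le_pow₀ (by norm_num))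
  set R := F - A with hR
  have hFG : Dom F G := dom_FF hI (by linarith) M
  have hGG : Dom G G := dom_FF hI (by norm_num) M
  have hAe : A = F + (-1 : ℝ) • R := by rw [hR, neg_one_smul]; abel
  have key : ∀ K : ℕ → ℕ → ℝ, (∀ a b, 0 ≤ K a b) → |BK K A A| ≤ |BK K F F| + 3 * δ * |BK K G G| := by
    intro K hK
    have h1 : |BK K F R| ≤ BK K G (δ • G) := abs_BK_le_of_dom hK hFG hd
    have h2 : |BK K R F| ≤ BK K (δ • G) G := abs_BK_le_of_dom hK hd hFG
    have h3 : |BK K R R| ≤ BK K (δ • G) (δ • G) := abs_BK_le_of_dom hK hd hd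
    rw [BK_smul_right] at h1
    rw [BK_smul_left] at h2
    rw [BK_smul_left, BK_smul_right] at h3
    have h4 : BK K G G ≤ |BK K G G| := le_abs_self _
    have h5 : 0 ≤ |BK K G G| := abs_nonneg _
    have e1 : BK K A A = BK K F F - BK K F R - BK K R F + BK K R R := by
      rw [hAe, BK_add_left, BK_add_right, BK_add_right, BK_smul_left, BK_smul_right, BK_smul_left,
        BK_smul_right]
      ring
    rw [e1]
    have h6 : |BK K F F - BK K F R - BK K R F + BK K R R|
        ≤ |BK K F F| + |BK K F R| + |BK K R F| + |BK K R R| := by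
      refine (abs_add_le _ _).trans ?_
      gcongr
      refine (abs_sub _ _).trans ?_
      gcongr
      exact abs_sub _ _
    refine h6.trans ?_
    have h7 : |BK K F R| ≤ δ * |BK K G G| := h1.trans (by gcongr)
    have h8 : |BK K R F| ≤ δ * |BK K G G| := h2.trans (by gcongr)
    have h9 : |BK K R R| ≤ δ * |BK K G G| := by
      refine h3.trans ?_
      calc δ * (δ * BK K G G) ≤ δ * (δ * |BK K G G|) := by gcongr
        _ ≤ δ * (1 * |BK K G G|) := by gcongr
        _ = _ := by ring
    linarith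
  obtain ⟨f1, f2⟩ := FF_bounds hI ha0 ha hM
  obtain ⟨g1, g2⟩ := FF_bounds_two hI M
  set E := Real.exp ((a ^ 2 - 2 * a) * VV I + 3.4 * a ^ 2 * V2 I) with hE
  have hE0 : 0 < E := Real.exp_pos _
  have hVn := VV_nonneg I
  have hV2 := V2_nonneg I
  have hLL := LL_nonneg I
  have hG12 : Real.exp (54 * VV I) ≤ Real.exp 660 * E := by
    rw [hE, ← Real.exp_add]
    apply Real.exp_le_exp.mpr
    have h5 : -(1 : ℝ) ≤ a ^ 2 - 2 * a := by nlinarith [sq_nonneg (a - 1)]
    have h6 : 0 ≤ 3.4 * a ^ 2 * V2 I := by positivity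
    nlinarith
  have hsum : Real.exp ((a ^ 2 - 2 * a) * VV I + 3.4 * a ^ 2 * V2 I + 3 * δ * Real.exp 660)
      = E * Real.exp (3 * δ * Real.exp 660) := by
    rw [hE, ← Real.exp_add]
  rw [hsum]
  have hx0 : 0 ≤ 3 * δ * Real.exp 660 := by positivity
  have hx1 : 1 ≤ Real.exp (3 * δ * Real.exp 660) := Real.one_le_exp hx0
  have hx2 := Real.add_one_le_exp (3 * δ * Real.exp 660)
  constructor
  · refine (key K2 K2_nonneg).trans ?_
    calc |BK K2 F F| + 3 * δ * |BK K2 G G| ≤ E + 3 * δ * (Real.exp 660 * E) := by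
          gcongr
          exact g1.trans hG12
      _ = E * (3 * δ * Real.exp 660 + 1) := by ring
      _ ≤ _ := by gcongr
  · refine (key KL KL_nonneg).trans ?_
    calc |BK KL F F| + 3 * δ * |BK KL G G|
        ≤ 25 * a * LL I * E + 3 * δ * (220 * LL I * (Real.exp 660 * E)) := by
          gcongr
          exact g2.trans (by gcongr)
      _ = LL I * (25 * a + 660 * δ * Real.exp 660) * (E * 1) := by ring
      _ ≤ _ := by gcongr

end Pool.Agent.Lib.MP_f9aece_nt_h97
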