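import Mathlib
import Pool.Agent.Lib.MP_f9aece_nt_h97.Window

/-!
The quadratic form with kernel `1/lcm` on powers of prime polynomials.
-/

set_option autoImplicit false

namespace Pool.Agent.Lib.MP_f9aece_nt_h97

open MeasureTheory Set Filter Topology Complex
open Pool.Agent.Lib.MP_f9aece_nt
open scoped ArithmeticFunction.Omega

lemma coeff_PP_pow_nonneg {I : Finset ℕ} (hI : ∀ p ∈ I, p.Prime) (r n : ℕ) :
    0 ≤ ((PP I) ^ r).coeff n := (cone_PP_pow hI r n).1

lemma coeff_PP_pow_mul_le {I : Finset ℕ} (hI : ∀ p ∈ I, p.Prime) {p : ℕ} (hp : p.Prime) (s n : ℕ) :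
    ((PP I) ^ s).coeff (p * n) ≤ s * ((PP I) ^ (s - 1)).coeff n := by
  induction s generalizing n with
  | zero =>
    have h1 : ((PP I) ^ 0).coeff (p * n) = 0 := by
      by_contra h
      have h2 := ((cone_PP_pow hI 0) (p * n)).2 h
      obtain ⟨⟨h3, _⟩, h4⟩ := h2
      have hn : n ≠ 0 := right_ne_zero_of_mul h3
      rw [ArithmeticFunction.cardFactors_mul hp.ne_zero hn,
        ArithmeticFunction.cardFactors_apply_prime hp] at h4
      omega
    rw [h1]; simp
  | succ s ih =>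
    rw [coeff_PP_pow_succ hI, Nat.add_sub_cancel]
    have h1 : ∑ q ∈ I with q ∣ p * n, ((PP I) ^ s).coeff (p * n / q)
        ≤ ((PP I) ^ s).coeff n + ∑ q ∈ I with q ∣ n, (s : ℝ) * ((PP I) ^ (s - 1)).coeff (n / q) := by
      have h2 : ∑ q ∈ I with q ∣ p * n, ((PP I) ^ s).coeff (p * n / q)
          ≤ ∑ q ∈ insert p (I.filter (· ∣ n)),
            if q = p then ((PP I) ^ s).coeff n else (s : ℝ) * ((PP I) ^ (s - 1)).coeff (n / q) := by
        have hsub : I.filter (· ∣ p * n) ⊆ insert p (I.filter (· ∣ n)) := by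
          intro q hq
          rw [Finset.mem_filter] at hq
          rw [Finset.mem_insert, Finset.mem_filter]
          have hqp := hI q hq.1
          rcases (hqp.dvd_mul).mp hq.2 with h | h
          · left; exact (Nat.prime_dvd_prime_iff_eq hqp hp).mp h
          · right; exact ⟨hq.1, h⟩
        refine (Finset.sum_le_sum fun q hq => ?_).trans
          (Finset.sum_le_sum_of_subset_of_nonneg hsub fun q _ _ => ?_)
        · rw [Finset.mem_filter] at hq
          have hqp := hI q hq.1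
          split_ifs with h
          · subst h
            rw [Nat.mul_div_cancel_left n hp.pos]
          · have hqn : q ∣ n := by
              rcases (hqp.dvd_mul).mp hq.2 with h' | h'
              · exact absurd ((Nat.prime_dvd_prime_iff_eq hqp hp).mp h') h
              · exact h'
            rw [Nat.mul_div_assoc p hqn]
            exact ih (n / q)
        · split_ifs
          · exact coeff_PP_pow_nonneg hI _ _
          · exact mul_nonneg (Nat.cast_nonneg _) (coeff_PP_pow_nonneg hI _ _)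
      refine h2.trans ?_
      rw [← Finset.insert_erase (Finset.mem_insert_self p (I.filter (· ∣ n))),
        Finset.sum_insert (Finset.notMem_erase _ _), if_pos rfl]
      refine add_le_add le_rfl ?_
      have h3 : (insert p (I.filter (· ∣ n))).erase p ⊆ I.filter (· ∣ n) := by
        intro q hq
        rw [Finset.mem_erase, Finset.mem_insert] at hq
        rcases hq.2 with h | h
        · exact absurd h hq.1
        · exact h
      calc ∑ q ∈ (insert p (I.filter (· ∣ n))).erase p,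
            (if q = p then ((PP I) ^ s).coeff n else (s : ℝ) * ((PP I) ^ (s - 1)).coeff (n / q))
          = ∑ q ∈ (insert p (I.filter (· ∣ n))).erase p, (s : ℝ) * ((PP I) ^ (s - 1)).coeff (n / q) := by
            refine Finset.sum_congr rfl fun q hq => ?_
            rw [Finset.mem_erase] at hq
            rw [if_neg hq.1]
        _ ≤ _ := Finset.sum_le_sum_of_subset_of_nonneg h3 fun q _ _ =>
            mul_nonneg (Nat.cast_nonneg _) (coeff_PP_pow_nonneg hI _ _)
    refine h1.trans ?_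
    rw [← Finset.mul_sum]
    rcases Nat.eq_zero_or_pos s with rfl | hs
    · simp
    · have h4 : ∑ q ∈ I with q ∣ n, ((PP I) ^ (s - 1)).coeff (n / q) = ((PP I) ^ s).coeff n := by
        have : s = (s - 1) + 1 := by omega
        conv_rhs => rw [this, coeff_PP_pow_succ hI]
      rw [h4]
      push_cast
      linarith

lemma pair_dvd_le {I : Finset ℕ} (hI : ∀ p ∈ I, p.Prime) {p : ℕ} (hp : p.Prime) (s : ℕ) {ψ : ℕ → ℝ}
    (hψ : ∀ n, 0 ≤ ψ n) :
    pair (fun b => if p ∣ b then ψ (b / p) else 0) ((PP I) ^ s)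
      ≤ s * pair ψ ((PP I) ^ (s - 1)) := by
  classical
  rw [pair_def, pair_def]
  simp only [mul_ite, mul_zero]
  rw [← Finset.sum_filter, Finset.mul_sum]
  set S := ((PP I) ^ s).coeff.support.filter (p ∣ ·) with hS
  have hinj : Set.InjOn (fun b => b / p) (S : Set ℕ) := by
    intro b hb b' hb' h
    rw [hS, Finset.coe_filter, Set.mem_setOf_eq] at hb hb'
    simp only at h
    obtain ⟨c, rfl⟩ := hb.2
    obtain ⟨c', rfl⟩ := hb'.2
    rw [Nat.mul_div_cancel_left _ hp.pos, Nat.mul_div_cancel_left _ hp.pos] at h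
    rw [h]
  have h1 : ∑ b ∈ S, ((PP I) ^ s).coeff b * ψ (b / p)
      = ∑ x ∈ S.image (fun b => b / p), ((PP I) ^ s).coeff (p * x) * ψ x := by
    rw [Finset.sum_image hinj]
    refine Finset.sum_congr rfl fun b hb => ?_
    rw [hS, Finset.mem_filter] at hb
    rw [Nat.mul_div_cancel' hb.2]
  rw [h1]
  have hsub : S.image (fun b => b / p) ⊆ ((PP I) ^ (s - 1)).coeff.support := by
    intro x hx
    rw [Finset.mem_image] at hx
    obtain ⟨b, hb, rfl⟩ := hx
    rw [hS, Finset.mem_filter, Finsupp.mem_support_iff] at hb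
    rw [Finsupp.mem_support_iff]
    intro h0
    have h2 := coeff_PP_pow_mul_le hI hp s (b / p)
    rw [Nat.mul_div_cancel' hb.2, h0, mul_zero] at h2
    exact hb.1 (le_antisymm h2 (coeff_PP_pow_nonneg hI _ _))
  calc ∑ x ∈ S.image (fun b => b / p), ((PP I) ^ s).coeff (p * x) * ψ x
      ≤ ∑ x ∈ S.image (fun b => b / p), (s : ℝ) * (((PP I) ^ (s - 1)).coeff x * ψ x) := by
        refine Finset.sum_le_sum fun x _ => ?_
        rw [← mul_assoc]
        exact mul_le_mul_of_nonneg_right (coeff_PP_pow_mul_le hI hp s x) (hψ x)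
    _ ≤ _ := Finset.sum_le_sum_of_subset_of_nonneg hsub fun x _ _ =>
        mul_nonneg (Nat.cast_nonneg _) (mul_nonneg (coeff_PP_pow_nonneg hI _ _) (hψ x))

lemma K2_prime_mul {p : ℕ} (hp : p.Prime) (a b : ℕ) :
    K2 (p * a) b ≤ (p : ℝ)⁻¹ * (K2 a b + if p ∣ b then K2 a (b / p) else 0) := by
  have hp0 : (p : ℝ) ≠ 0 := by exact_mod_cast hp.ne_zero
  split_ifs with h
  · obtain ⟨c, rfl⟩ := h
    rw [Nat.mul_div_cancel_left _ hp.pos]
    have h1 : K2 (p * a) (p * c) = (p : ℝ)⁻¹ * K2 a c := by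
      unfold K2
      rw [Nat.gcd_mul_left]
      push_cast
      have e : (p : ℝ) * a * (p * c) = p * (p * (a * c)) := by ring
      rw [e, mul_div_mul_left _ _ hp0, div_mul_eq_div_div_swap]
      rw [div_eq_mul_inv _ (p : ℝ), mul_comm]
    rw [h1]
    have : 0 ≤ K2 a (p * c) := K2_nonneg _ _
    have hpi : 0 ≤ (p : ℝ)⁻¹ := by positivity
    nlinarith [mul_nonneg hpi this]
  · have hcop : Nat.Coprime p b := (Nat.Prime.coprime_iff_not_dvd hp).mpr h
    rw [add_zero]
    refine le_of_eq ?_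
    unfold K2
    rw [Nat.Coprime.gcd_mul_left_cancel a hcop]
    push_cast
    rw [mul_assoc, div_mul_eq_div_div_swap, div_eq_mul_inv _ (p : ℝ), mul_comm]

lemma U_rec {I : Finset ℕ} (hI : ∀ p ∈ I, p.Prime) (r s : ℕ) :
    BK K2 ((PP I) ^ (r + 1)) ((PP I) ^ s)
      ≤ VV I * (BK K2 ((PP I) ^ r) ((PP I) ^ s) + s * BK K2 ((PP I) ^ r) ((PP I) ^ (s - 1))) := by
  have h1 : (PP I) ^ (r + 1) = ∑ p ∈ I, MonoidAlgebra.single p (1 : ℝ) * (PP I) ^ r := by
    rw [pow_succ', ← Finset.sum_mul]; rfl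
  rw [h1, BK_sum_left]
  unfold VV
  rw [Finset.sum_mul]
  refine Finset.sum_le_sum fun p hp => ?_
  have hpp := hI p hp
  unfold BK
  rw [pair_mul, pair_single, one_mul]
  have h2 : ∀ a, pair (fun b => K2 (p * a) b) ((PP I) ^ s)
      ≤ (p : ℝ)⁻¹ * (pair (fun b => K2 a b) ((PP I) ^ s)
        + s * pair (fun b => K2 a b) ((PP I) ^ (s - 1))) := by
    intro a
    have h3 : pair (fun b => K2 (p * a) b) ((PP I) ^ s)
        ≤ pair (fun b => (p : ℝ)⁻¹ * (K2 a b + if p ∣ b then K2 a (b / p) else 0)) ((PP I) ^ s) :=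
      pair_mono (cone_PP_pow hI s) fun b _ => K2_prime_mul hpp a b
    refine h3.trans ?_
    rw [pair_const_mul, pair_add_fun]
    have h4 := pair_dvd_le hI hpp s (ψ := fun b => K2 a b) fun n => K2_nonneg _ _
    have hp0 : (0 : ℝ) ≤ (p : ℝ)⁻¹ := by positivity
    gcongr
  have h5 : pair (fun a => pair (fun b => K2 (p * a) b) ((PP I) ^ s)) ((PP I) ^ r)
      ≤ pair (fun a => (p : ℝ)⁻¹ * (pair (fun b => K2 a b) ((PP I) ^ s)
        + s * pair (fun b => K2 a b) ((PP I) ^ (s - 1)))) ((PP I) ^ r) :=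
    pair_mono (cone_PP_pow hI r) fun a _ => h2 a
  refine h5.trans (le_of_eq ?_)
  rw [pair_const_mul, pair_add_fun, pair_const_mul]

lemma U_zero {I : Finset ℕ} (hI : ∀ p ∈ I, p.Prime) (s : ℕ) :
    BK K2 ((PP I) ^ 0) ((PP I) ^ s) = VV I ^ s := by
  have h1 : VV I ^ s = ev1 ((PP I) ^ s) := by rw [map_pow, ev1_PP]
  rw [h1, ev1_apply, pow_zero]
  unfold BK
  rw [MonoidAlgebra.one_def, pair_single, one_mul]
  refine pair_congr _ fun b hb => ?_
  have hb0 := ((cone_PP_pow hI s) b).2 hb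
  unfold K2
  simp

lemma U_le {I : Finset ℕ} (hI : ∀ p ∈ I, p.Prime) {l : ℕ} (hl : 1 ≤ l) (hV : VV I ≤ l) (r : ℕ) :
    ∀ s ≤ l, BK K2 ((PP I) ^ r) ((PP I) ^ s) ≤ (2 * VV I) ^ r * (l : ℝ) ^ s := by
  have hV0 := VV_nonneg I
  induction r with
  | zero =>
    intro s _
    rw [U_zero hI, pow_zero, one_mul]
    gcongr
  | succ r ih =>
    intro s hs
    refine (U_rec hI r s).trans ?_
    have h1 := ih s hs
    have h2 := ih (s - 1) (by omega)
    have hl0 : (1 : ℝ) ≤ l := by exact_mod_cast hl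
    have h3 : (s : ℝ) * BK K2 ((PP I) ^ r) ((PP I) ^ (s - 1)) ≤ (2 * VV I) ^ r * (l : ℝ) ^ s := by
      rcases Nat.eq_zero_or_pos s with rfl | hs0
      · simp only [Nat.cast_zero, zero_mul]
        positivity
      · calc (s : ℝ) * BK K2 ((PP I) ^ r) ((PP I) ^ (s - 1))
            ≤ l * ((2 * VV I) ^ r * (l : ℝ) ^ (s - 1)) := by
              have hsl : (s : ℝ) ≤ l := by exact_mod_cast hs
              have : 0 ≤ BK K2 ((PP I) ^ r) ((PP I) ^ (s - 1)) :=
                BK_nonneg (A := univ) ((cone_PP_pow hI r).mono (subset_univ _))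
                  ((cone_PP_pow hI (s - 1)).mono (subset_univ _)) K2_nonneg
              gcongr
          _ = (2 * VV I) ^ r * ((l : ℝ) ^ (s - 1) * l) := by ring
          _ = (2 * VV I) ^ r * (l : ℝ) ^ s := by
              rw [← pow_succ]
              congr 2
              omega
    calc VV I * (BK K2 ((PP I) ^ r) ((PP I) ^ s) + s * BK K2 ((PP I) ^ r) ((PP I) ^ (s - 1)))
        ≤ VV I * ((2 * VV I) ^ r * (l : ℝ) ^ s + (2 * VV I) ^ r * (l : ℝ) ^ s) := by gcongr
      _ = (2 * VV I) ^ (r + 1) * (l : ℝ) ^ s := by ring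

/-- forms of a high power of the prime polynomial -/
lemma pow_bounds {I : Finset ℕ} (hI : ∀ p ∈ I, p.Prime) {l : ℕ} (hl : 12 ≤ l) (hV : VV I ≤ 12)
    {y : ℝ} (hy : 0 ≤ y) (hyI : ∀ p ∈ I, Real.log p ≤ y) :
    |BK K2 ((PP I) ^ l) ((PP I) ^ l)| ≤ (24 * l : ℝ) ^ l ∧
    |BK KL ((PP I) ^ l) ((PP I) ^ l)| ≤ (2 * l * y) * (24 * l : ℝ) ^ l := by
  have hl12 : (12 : ℝ) ≤ l := by exact_mod_cast hl
  have hV0 := VV_nonneg I
  have h0 : 0 ≤ BK K2 ((PP I) ^ l) ((PP I) ^ l) :=
    BK_nonneg (A := univ) ((cone_PP_pow hI l).mono (subset_univ _))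
      ((cone_PP_pow hI l).mono (subset_univ _)) K2_nonneg
  have h0' : 0 ≤ BK KL ((PP I) ^ l) ((PP I) ^ l) :=
    BK_nonneg (A := univ) ((cone_PP_pow hI l).mono (subset_univ _))
      ((cone_PP_pow hI l).mono (subset_univ _)) KL_nonneg
  have h1 : BK K2 ((PP I) ^ l) ((PP I) ^ l) ≤ (24 * l : ℝ) ^ l := by
    refine (U_le hI (by omega) (hV.trans hl12) l l le_rfl).trans ?_
    rw [← mul_pow]
    apply pow_le_pow_left₀ (by positivity)
    nlinarith
  rw [abs_of_nonneg h0, abs_of_nonneg h0']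
  refine ⟨h1, ?_⟩
  have h2 : BK KL ((PP I) ^ l) ((PP I) ^ l) ≤ 2 * l * y * BK K2 ((PP I) ^ l) ((PP I) ^ l) := by
    have hlog : ∀ a ∈ {n | n ∈ Smo (I : Set ℕ) ∧ Ω n = l}, Real.log a ≤ l * y := by
      intro a ha
      exact log_le_of_Omega (fun p hp => hyI p hp) hy ha.1 ha.2.le
    have e1 : 2 * l * y * BK K2 ((PP I) ^ l) ((PP I) ^ l)
        = pair (fun a => pair (fun b => K2 a b * (2 * l * y)) ((PP I) ^ l)) ((PP I) ^ l) := by
      unfold BK
      simp only [pair_mul_const]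
      ring
    rw [e1]
    unfold BK
    refine pair_mono (cone_PP_pow hI l) fun a ha => ?_
    refine pair_mono (cone_PP_pow hI l) fun b hb => ?_
    refine (KL_le (Smo_pos ha.1) (Smo_pos hb.1)).trans ?_
    refine mul_le_mul_of_nonneg_left ?_ (K2_nonneg _ _)
    have := hlog a ha
    have := hlog b hb
    linarith
  refine h2.trans ?_
  gcongr

end Pool.Agent.Lib.MP_f9aece_nt_h97
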