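import Mathlib
import Pool.Agent.Lib.MP_f9aece_nt_h97.PowK2
import Pool.Agent.Lib.MP_f9aece_nt_h97.Point
import Pool.Agent.Lib.MP_f9aece_nt.Upper2

/-!
The Dirichlet polynomials attached to the scales, their lengths and their coefficient sums.
-/

set_option autoImplicit false

namespace Pool.Agent.Lib.MP_f9aece_nt_h97

open MeasureTheory Set Filter Topology Complex
open Pool.Agent.Lib.MP_f9aece_nt
open scoped ArithmeticFunction.Omega

/-- truncation lengths -/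
def Mj (j : ℕ) : ℕ := 4000 * 2 ^ j

/-- size thresholds -/
noncomputable def Rj (j : ℕ) : ℝ := 400 * 2 ^ j

lemma Mj_cast (j : ℕ) : (Mj j : ℝ) = 4000 * 2 ^ j := by unfold Mj; push_cast; ring

lemma Rj_eq (j : ℕ) : Rj j = (Mj j : ℝ) / 10 := by rw [Mj_cast]; unfold Rj; ring

lemma Mj_ge (j : ℕ) : 4000 ≤ Mj j := by
  unfold Mj
  have : 1 ≤ 2 ^ j := Nat.one_le_two_pow
  omega

lemma Rj_ge (j : ℕ) : 400 ≤ Rj j := by
  unfold Rj
  have : (1 : ℝ) ≤ 2 ^ j := one_le_pow₀ (by norm_num)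
  linarith

lemma Rj_le (j : ℕ) : Rj j ≤ ((Mj j + 1 : ℕ) : ℝ) / 10 := by
  rw [Rj_eq]; push_cast; linarith

lemma sum_Rj (j : ℕ) : ∑ i ∈ Finset.range j, Rj i ≤ Rj j := by
  have h : ∑ i ∈ Finset.range j, Rj i = Rj j - 400 := by
    induction j with
    | zero => simp [Rj]
    | succ j ih => rw [Finset.sum_range_succ, ih]; unfold Rj; ring
  rw [h]; linarith

/-- one factor -/
noncomputable def AD (c : ℝ) (I : ℕ → Finset ℕ) (j : ℕ) : DP := expo c (Mj j) (I j)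

/-- the full product -/
noncomputable def D0 (c : ℝ) (I : ℕ → Finset ℕ) (J : ℕ) : DP := ∏ i ∈ Finset.range J, AD c I i

/-- the product after a reset at `j` -/
noncomputable def D1 (c : ℝ) (I : ℕ → Finset ℕ) (J j : ℕ) : DP :=
  PP (I j) ^ Mj j * ∏ i ∈ Finset.Ico (j + 1) J, AD c I i

/-- weights of the resets -/
noncomputable def qj (c : ℝ) (j : ℕ) : ℝ := 5 * |c| * (Real.exp (Rj j) / Rj j ^ (2 * Mj j))

lemma qj_nonneg (c : ℝ) (j : ℕ) : 0 ≤ qj c j := by
  have : 0 ≤ Rj j := by linarith [Rj_ge j]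
  unfold qj; positivity

lemma up_eq (c : ℝ) (I : ℕ → Finset ℕ) (t : ℝ) (J : ℕ) :
    up c Mj Rj (fun j => ev t (PP (I j))) J
      = ‖ev t (D0 c I J)‖ ^ 2 + ∑ j ∈ Finset.range J, qj c j * ‖ev t (D1 c I J j)‖ ^ 2 := by
  induction J with
  | zero => simp [up, D0]
  | succ J ih =>
    simp only [up]
    rw [ih]
    have e1 : EE (Mj J) (c * ev t (PP (I J))) = ev t (AD c I J) := by
      unfold AD; rw [ev_expo]
    have e2 : D0 c I (J + 1) = D0 c I J * AD c I J := by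
      unfold D0; rw [Finset.prod_range_succ]
    have e3 : ∀ j ∈ Finset.range J, D1 c I (J + 1) j = D1 c I J j * AD c I J := by
      intro j hj
      rw [Finset.mem_range] at hj
      unfold D1
      rw [Finset.prod_Ico_succ_top (by omega), mul_assoc]
    have e4 : D1 c I (J + 1) J = PP (I J) ^ Mj J := by
      unfold D1; simp
    rw [Finset.sum_range_succ, e2, e4, e1]
    have e5 : ∑ j ∈ Finset.range J, qj c j * ‖ev t (D1 c I (J + 1) j)‖ ^ 2
        = (∑ j ∈ Finset.range J, qj c j * ‖ev t (D1 c I J j)‖ ^ 2) * ‖ev t (AD c I J)‖ ^ 2 := by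
      rw [Finset.sum_mul]
      refine Finset.sum_congr rfl fun j hj => ?_
      rw [e3 j hj, map_mul, norm_mul]
      ring
    rw [e5, map_mul, norm_mul, map_pow, norm_pow]
    unfold qj
    rw [div_pow]
    ring

/-! ### lengths -/

/-- length set -/
def Len (lam : ℝ) : Set ℕ := {n | 1 ≤ n ∧ Real.log n ≤ lam}

lemma Len.mul {x y : ℝ} {a b : ℕ} (ha : a ∈ Len x) (hb : b ∈ Len y) : a * b ∈ Len (x + y) := by
  have ha0 : (a : ℝ) ≠ 0 := by have := ha.1; positivity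
  have hb0 : (b : ℝ) ≠ 0 := by have := hb.1; positivity
  refine ⟨Nat.one_le_iff_ne_zero.mpr (Nat.mul_ne_zero (by have := ha.1; omega) (by have := hb.1; omega)), ?_⟩
  push_cast
  rw [Real.log_mul ha0 hb0]
  linarith [ha.2, hb.2]

lemma Len.mono {x y : ℝ} (h : x ≤ y) : Len x ⊆ Len y := fun _ hn => ⟨hn.1, hn.2.trans h⟩

lemma cone_len_prod (s : Finset ℕ) (f : ℕ → DP) (lam : ℕ → ℝ)
    (hf : ∀ j ∈ s, Cone (Len (lam j)) (f j)) : Cone (Len (∑ j ∈ s, lam j)) (∏ j ∈ s, f j) := by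
  classical
  induction s using Finset.induction_on with
  | empty =>
    rw [Finset.prod_empty]
    refine Cone.one ⟨le_rfl, by simp⟩
  | insert a s ha ih =>
    rw [Finset.prod_insert ha, Finset.sum_insert ha]
    exact (hf a (Finset.mem_insert_self _ _)).mul
      (ih fun i hi => hf i (Finset.mem_insert_of_mem hi)) fun x hx y hy => Len.mul hx hy

lemma cone_AD {c : ℝ} (hc : 0 ≤ c) {I : ℕ → Finset ℕ} {j : ℕ} {y : ℝ} (hI : ∀ p ∈ I j, p.Prime)
    (hy : 0 ≤ y) (hyI : ∀ p ∈ I j, Real.log p ≤ y) : Cone (Len (Mj j * y)) (AD c I j) := by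
  refine (cone_expo hI hc (Mj j)).mono fun n hn => ?_
  exact ⟨Smo_pos hn.1, log_le_of_Omega (fun p hp => hyI p hp) hy hn.1 hn.2⟩

lemma cone_PPM {I : ℕ → Finset ℕ} {j : ℕ} {y : ℝ} (hI : ∀ p ∈ I j, p.Prime)
    (hy : 0 ≤ y) (hyI : ∀ p ∈ I j, Real.log p ≤ y) : Cone (Len (Mj j * y)) (PP (I j) ^ Mj j) := by
  refine (cone_PP_pow hI (Mj j)).mono fun n hn => ?_
  exact ⟨Smo_pos hn.1, log_le_of_Omega (fun p hp => hyI p hp) hy hn.1 hn.2.le⟩

lemma Dom.sup {f g : DP} {A : Set ℕ} (h : Dom f g) (hg : Cone A g) : Sup A f := by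
  intro n hn
  refine (hg n).2 fun h0 => ?_
  have := h n
  rw [h0] at this
  exact hn (abs_nonpos_iff.mp this)

lemma aug_single (p : ℕ) (x : ℝ) : aug (MonoidAlgebra.single p x) = x := by
  unfold aug; simp

lemma aug_PP (I : Finset ℕ) : aug (PP I) = I.card := by
  unfold aug PP
  rw [pair_sum]
  simp

lemma aug_expo_le {I : Finset ℕ} {M : ℕ} {y : ℝ} (hy : 0 ≤ y) (hcard : (I.card : ℝ) ≤ Real.exp y) :
    aug (expo 1 M I) ≤ Real.exp (1 + M * y) := by
  unfold expo aug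
  rw [pair_sum]
  have h1 : ∀ r ∈ Finset.range (M + 1),
      pair (fun _ => 1) (((1 : ℝ) ^ r / (r.factorial : ℝ)) • PP I ^ r)
        ≤ (1 : ℝ) ^ r / (r.factorial : ℝ) * Real.exp (M * y) := by
    intro r hr
    rw [Finset.mem_range] at hr
    rw [pair_smul]
    refine mul_le_mul_of_nonneg_left ?_ (by positivity)
    have h2 : pair (fun _ => 1) (PP I ^ r) = (I.card : ℝ) ^ r := by
      have := aug_pow (PP I) r
      rw [aug_PP] at this
      exact this
    rw [h2]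
    calc (I.card : ℝ) ^ r ≤ Real.exp y ^ r := by gcongr
      _ ≤ Real.exp y ^ M := pow_le_pow_right₀ (Real.one_le_exp hy) (by omega)
      _ = Real.exp (M * y) := by rw [← Real.exp_nat_mul]
  refine (Finset.sum_le_sum h1).trans ?_
  rw [← Finset.sum_mul, Real.exp_add]
  gcongr
  exact Real.sum_le_exp_of_nonneg zero_le_one _

lemma card_le_exp {I : Finset ℕ} {y : ℝ} (hI : ∀ p ∈ I, 1 ≤ p ∧ Real.log p ≤ y) :
    (I.card : ℝ) ≤ Real.exp y := by
  have h1 : I ⊆ Finset.Icc 1 ⌊Real.exp y⌋₊ := by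
    intro p hp
    obtain ⟨h1, h2⟩ := hI p hp
    rw [Finset.mem_Icc]
    refine ⟨h1, Nat.le_floor ?_⟩
    rw [← Real.log_le_iff_le_exp (by exact_mod_cast h1)]
    exact h2
  have h2 := Finset.card_le_card h1
  rw [Nat.card_Icc] at h2
  have h3 : (I.card : ℝ) ≤ ⌊Real.exp y⌋₊ := by exact_mod_cast (by omega)
  exact h3.trans (Nat.floor_le (Real.exp_pos y).le)

/-! ### numerical facts -/

lemma exp_660 : Real.exp 660 ≤ 2 ^ 960 := by
  have h1 : Real.exp 11 ≤ 2 ^ 16 := by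
    have h := Real.exp_one_lt_d9
    have e : Real.exp 11 = Real.exp 1 ^ 11 := by rw [← Real.exp_nat_mul]; norm_num
    rw [e]
    calc Real.exp 1 ^ 11 ≤ 2.7182818286 ^ 11 := by gcongr
      _ ≤ 2 ^ 16 := by norm_num
  have e : Real.exp 660 = Real.exp 11 ^ 60 := by rw [← Real.exp_nat_mul]; norm_num
  rw [e]
  calc Real.exp 11 ^ 60 ≤ (2 ^ 16) ^ 60 := by gcongr
    _ = 2 ^ 960 := by rw [← pow_mul]

lemma succ_le_two_pow (j : ℕ) : j + 1 ≤ 2 ^ j := Nat.lt_two_pow_self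

lemma tiny_le (j : ℕ) : Real.exp 660 / 2 ^ Mj j ≤ (1 / 2) ^ (j + 21) := by
  rw [div_le_iff₀ (by positivity)]
  refine exp_660.trans ?_
  have h1 : 960 + (j + 21) ≤ Mj j := by
    unfold Mj
    have := succ_le_two_pow j
    omega
  calc (2 : ℝ) ^ 960 = (1 / 2) ^ (j + 21) * 2 ^ (960 + (j + 21)) := by
        rw [pow_add 2 960, one_div, inv_pow]; field_simp
    _ ≤ (1 / 2) ^ (j + 21) * 2 ^ Mj j := by
        gcongr
        norm_num

lemma exp_twelve : Real.exp 12 ≤ 2 ^ 18 := by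
  have h := Real.exp_one_lt_d9
  have e : Real.exp 12 = Real.exp 1 ^ 12 := by rw [← Real.exp_nat_mul]; norm_num
  rw [e]
  calc Real.exp 1 ^ 12 ≤ 2.7182818286 ^ 12 := by gcongr
    _ ≤ 2 ^ 18 := by norm_num

lemma weight_le (j : ℕ) :
    5 * (Real.exp (Rj j) / Rj j ^ (2 * Mj j)) * (24 * Mj j : ℝ) ^ Mj j * Real.exp (12 * (j + 1))
      ≤ (1 / 2) ^ (j + 21) := by
  set m := Mj j with hm
  have hm0 : (4000 : ℝ) ≤ m := by exact_mod_cast Mj_ge j
  have hmpos : (0 : ℝ) < m := by linarith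
  have h1 : Real.exp (Rj j) / Rj j ^ (2 * m) * (24 * m : ℝ) ^ m = (Real.exp (1 / 10) * (2400 / m)) ^ m := by
    rw [Rj_eq, ← hm]
    have e1 : Real.exp ((m : ℝ) / 10) = Real.exp (1 / 10) ^ m := by
      rw [← Real.exp_nat_mul]; congr 1; ring
    rw [e1, pow_mul, ← div_pow, ← mul_pow]
    congr 1
    field_simp
    ring
  have h2 : Real.exp (1 / 10) * (2400 / m) ≤ 2 / 3 := by
    have h3 : Real.exp (1 / 10) ≤ 10 / 9 := by
      have h4 := Real.add_one_le_exp (-(1 / 10) : ℝ)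
      rw [Real.exp_neg] at h4
      have h5 := Real.exp_pos (1 / 10 : ℝ)
      have h6 : (9 / 10 : ℝ) ≤ (Real.exp (1 / 10))⁻¹ := by linarith
      rw [le_inv_comm₀ (by norm_num) h5] at h6
      refine h6.trans ?_
      norm_num
    calc Real.exp (1 / 10) * (2400 / m) ≤ 10 / 9 * (2400 / 4000) := by gcongr
      _ = 2 / 3 := by norm_num
  have h3 : (Real.exp (1 / 10) * (2400 / m)) ^ m ≤ (2 / 3) ^ m := by gcongr
  have h4 : Real.exp (12 * (j + 1)) ≤ 2 ^ (18 * (j + 1)) := by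
    have e1 : Real.exp (12 * ((j : ℝ) + 1)) = Real.exp 12 ^ (j + 1) := by
      rw [← Real.exp_nat_mul]; congr 1; push_cast; ring
    rw [e1, pow_mul]
    have := exp_twelve
    gcongr
  have h5 : (2 / 3 : ℝ) ^ m ≤ (1 / 2) ^ (3 + 18 * (j + 1) + (j + 21)) := by
    have e1 : m = 2 * (2000 * 2 ^ j) := by rw [hm]; unfold Mj; ring
    rw [e1, pow_mul]
    calc ((2 / 3 : ℝ) ^ 2) ^ (2000 * 2 ^ j) ≤ (1 / 2) ^ (2000 * 2 ^ j) := by
          gcongr; norm_num
      _ ≤ (1 / 2) ^ (3 + 18 * (j + 1) + (j + 21)) := by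
          apply pow_le_pow_of_le_one (by norm_num) (by norm_num)
          have := succ_le_two_pow j
          omega
  calc 5 * (Real.exp (Rj j) / Rj j ^ (2 * m)) * (24 * m : ℝ) ^ m * Real.exp (12 * (j + 1))
      = 5 * (Real.exp (Rj j) / Rj j ^ (2 * m) * (24 * m : ℝ) ^ m) * Real.exp (12 * (j + 1)) := by ring
    _ ≤ 5 * (1 / 2) ^ (3 + 18 * (j + 1) + (j + 21)) * 2 ^ (18 * (j + 1)) := by
        rw [h1]
        have h6 := h3.trans h5
        gcongr
    _ = 5 / 8 * (1 / 2) ^ (j + 21) := by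
        rw [pow_add, pow_add, one_div, inv_pow, inv_pow, inv_pow]
        field_simp
        norm_num
    _ ≤ _ := by
        have : (0 : ℝ) ≤ (1 / 2) ^ (j + 21) := by positivity
        linarith

lemma sum_half21 (J : ℕ) : ∑ j ∈ Finset.range J, (1 / 2 : ℝ) ^ (j + 21) ≤ 1 / 1000000 := by
  have h : ∑ j ∈ Finset.range J, (1 / 2 : ℝ) ^ (j + 21) = (1 / 2) ^ 20 - (1 / 2) ^ (J + 20) := by
    induction J with
    | zero => simp
    | succ J ih =>
      rw [Finset.sum_range_succ, ih]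
      ring
  rw [h]
  have : (0 : ℝ) < (1 / 2) ^ (J + 20) := by positivity
  have h2 : (1 / 2 : ℝ) ^ 20 ≤ 1 / 1000000 := by norm_num
  linarith

lemma sup_len_floor {lam : ℝ} {f : DP} (h : Sup (Len lam) f) :
    ∀ n, f.coeff n ≠ 0 → 1 ≤ n ∧ (n : ℝ) ≤ Real.exp lam := by
  intro n hn
  obtain ⟨h1, h2⟩ := h n hn
  refine ⟨h1, ?_⟩
  rw [← Real.log_le_iff_le_exp (by exact_mod_cast h1)]
  exact h2

lemma aug_nonneg {A : Set ℕ} {f : DP} (hf : Cone A f) : 0 ≤ aug f :=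
  pair_nonneg hf fun _ _ => zero_le_one

lemma evh_le_aug {f : DP} {A : Set ℕ} (hf : Cone A f) (hA : ∀ n ∈ A, 1 ≤ n) : evh f ≤ aug f := by
  rw [evh_apply]
  unfold aug
  refine pair_mono hf fun n hn => ?_
  have h1 : (1 : ℝ) ≤ n := by exact_mod_cast hA n hn
  exact Real.rpow_le_one_of_one_le_of_nonpos h1 (by norm_num)

lemma evh_nonneg {f : DP} {A : Set ℕ} (hf : Cone A f) : 0 ≤ evh f := by
  rw [evh_apply]
  exact pair_nonneg hf fun n _ => by positivity

end Pool.Agent.Lib.MP_f9aece_nt_h97
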