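import Mathlib
import Pool.Agent.Lib.MP_f9aece_nt_h97.Polys

/-!
Definitions for the mollified second moment to the right of the critical line: kernels,
truncation lengths, the mollifier `Dm` and the tilting polynomial `Bm`.
-/

set_option autoImplicit false

namespace Pool.Agent.Lib.MP_f9aece_nt_h97

open MeasureTheory Set Filter Topology Complex
open Pool.Agent.Lib.MP_f9aece_nt

/-- kernel `lcm(a,b)^(-s)` -/
noncomputable def K2s (s : ℝ) (a b : ℕ) : ℝ := ((Nat.lcm a b : ℕ) : ℝ) ^ (-s)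

/-- kernel `[a | b] b^(-s)` -/
noncomputable def Kcs (s : ℝ) (a b : ℕ) : ℝ := if a ∣ b then (b : ℝ) ^ (-s) else 0

/-- diagonal kernel `[a = b] a^(-s)` -/
noncomputable def K1s (s : ℝ) (a b : ℕ) : ℝ := if a = b then (a : ℝ) ^ (-s) else 0

/-- truncation lengths -/
def Mm (m j : ℕ) : ℕ := m * 2 ^ j

/-- product of truncated exponentials over the scales -/
noncomputable def DD (m p0 : ℕ) (c Y : ℝ) (J : ℕ) : DP :=
  ∏ j ∈ Finset.range J, expo c (Mm m j) (sc Y p0 j)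

/-- small primes -/
def Psm (p0 : ℕ) : Finset ℕ := (Finset.Ioc 0 p0).filter Nat.Prime

/-- exact mollifier at the small primes -/
noncomputable def Dsm (p0 : ℕ) : DP := ∏ p ∈ Psm p0, (1 - MonoidAlgebra.single p 1)

/-- the mollifier, for `zeta^(-1)` at small primes and `zeta^(-a)` at the scales -/
noncomputable def Dm (m p0 : ℕ) (a Y : ℝ) (J : ℕ) : DP := Dsm p0 * DD m p0 (-a) Y J

/-- the tilting polynomial -/
noncomputable def Bm (m p0 : ℕ) (k Y : ℝ) (J : ℕ) : DP := DD m p0 k Y J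

/-- the prime polynomials on the line `σ` -/
noncomputable def Pj (p0 : ℕ) (Y σ : ℝ) (j : ℕ) (t : ℝ) : ℂ :=
  ∑ p ∈ sc Y p0 j, (p : ℂ) ^ (-(σ + I * t : ℂ))

/-- multiplicative kernels dominated by `K2` -/
def MK (K : ℕ → ℕ → ℝ) : Prop :=
  (∀ a b, 0 ≤ K a b) ∧ (∀ a b, K a b ≤ K2 a b) ∧ K 1 1 = 1 ∧
  ∀ A B : Set ℕ, Disjoint A B → ∀ a ∈ Smo A, ∀ a' ∈ Smo A, ∀ b ∈ Smo B, ∀ b' ∈ Smo B,
    K (a * b) (a' * b') = K a a' * K b b'

end Pool.Agent.Lib.MP_f9aece_nt_h97
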