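import Mathlib
import Pool.Agent.Lib.MP_f9aece_nt_h97.OffDefs

/-!
Multiplicative kernels: product formula, truncation error, local factors.
-/

set_option autoImplicit false

namespace Pool.Agent.Lib.MP_f9aece_nt_h97

open MeasureTheory Set Filter Topology Complex
open Pool.Agent.Lib.MP_f9aece_nt

lemma BK_prod_MK {K : ℕ → ℕ → ℝ} (hK : MK K) (s : Finset ℕ) (I : ℕ → Finset ℕ)
    (hI : ∀ i ∈ s, ∀ j ∈ s, i ≠ j → Disjoint (I i) (I j)) (f g : ℕ → DP)
    (hf : ∀ j ∈ s, Sup (Smo (I j)) (f j)) (hg : ∀ j ∈ s, Sup (Smo (I j)) (g j)) :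
    BK K (∏ j ∈ s, f j) (∏ j ∈ s, g j) = ∏ j ∈ s, BK K (f j) (g j) := by
  classical
  induction s using Finset.induction_on with
  | empty =>
    simp only [Finset.prod_empty]
    rw [MonoidAlgebra.one_def, BK_single, hK.2.2.1]
    norm_num
  | insert a s ha ih =>
    rw [Finset.prod_insert ha, Finset.prod_insert ha, Finset.prod_insert ha]
    have hf' : ∀ j ∈ s, Sup (Smo (I j)) (f j) := fun j hj => hf j (Finset.mem_insert_of_mem hj)
    have hg' : ∀ j ∈ s, Sup (Smo (I j)) (g j) := fun j hj => hg j (Finset.mem_insert_of_mem hj)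
    have hdis : Disjoint (I a : Set ℕ) (⋃ j ∈ s, (I j : Set ℕ)) := by
      rw [Set.disjoint_iUnion₂_right]
      intro j hj
      rw [Finset.disjoint_coe]
      exact hI a (Finset.mem_insert_self _ _) j (Finset.mem_insert_of_mem hj)
        (by rintro rfl; exact ha hj)
    rw [BK_mul_sup K (hf a (Finset.mem_insert_self _ _)) (hg a (Finset.mem_insert_self _ _))
      (sup_prod_Smo s I f hf') (sup_prod_Smo s I g hg') (hK.2.2.2 _ _ hdis)]
    rw [ih (fun i hi j hj hij => hI i (Finset.mem_insert_of_mem hi) j (Finset.mem_insert_of_mem hj) hij)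
      hf' hg']

/-! ### the kernels -/

section mult

variable {A B : Set ℕ} {a a' b b' : ℕ}

lemma lcm_mul_smo (hAB : Disjoint A B) (ha : a ∈ Smo A) (ha' : a' ∈ Smo A)
    (hb : b ∈ Smo B) (hb' : b' ∈ Smo B) :
    Nat.lcm (a * b) (a' * b') = Nat.lcm a a' * Nat.lcm b b' := by
  have h1 : Nat.Coprime a' b' := coprime_of_Smo hAB ha' hb'
  have h2 : Nat.Coprime a' b := coprime_of_Smo hAB ha' hb
  have h3 : Nat.Coprime a b' := coprime_of_Smo hAB ha hb'
  have e : Nat.gcd (a * b) (a' * b') = Nat.gcd a a' * Nat.gcd b b' := by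
    rw [Nat.Coprime.gcd_mul _ h1, Nat.Coprime.gcd_mul_right_cancel a h2.symm,
      Nat.Coprime.gcd_mul_left_cancel b h3]
  have ha0 := Nat.pos_of_ne_zero ha.1
  have hb0 := Nat.pos_of_ne_zero hb.1
  have hg1 : 0 < Nat.gcd a a' := Nat.gcd_pos_of_pos_left a' ha0
  have hg2 : 0 < Nat.gcd b b' := Nat.gcd_pos_of_pos_left b' hb0
  have h5 := Nat.gcd_mul_lcm (a * b) (a' * b')
  have h6 := Nat.gcd_mul_lcm a a'
  have h7 := Nat.gcd_mul_lcm b b'
  rw [e] at h5
  have h8 : (Nat.gcd a a' * Nat.gcd b b') * (Nat.lcm a a' * Nat.lcm b b')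
      = (Nat.gcd a a' * Nat.gcd b b') * Nat.lcm (a * b) (a' * b') := by
    rw [h5]
    calc (Nat.gcd a a' * Nat.gcd b b') * (Nat.lcm a a' * Nat.lcm b b')
        = (Nat.gcd a a' * Nat.lcm a a') * (Nat.gcd b b' * Nat.lcm b b') := by ring
      _ = (a * a') * (b * b') := by rw [h6, h7]
      _ = a * b * (a' * b') := by ring
  exact (Nat.eq_of_mul_eq_mul_left (by positivity) h8).symm

lemma dvd_mul_smo (hAB : Disjoint A B) (ha : a ∈ Smo A) (ha' : a' ∈ Smo A)
    (hb : b ∈ Smo B) (hb' : b' ∈ Smo B) : a * b ∣ a' * b' ↔ a ∣ a' ∧ b ∣ b' := by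
  have h2 : Nat.Coprime a' b := coprime_of_Smo hAB ha' hb
  have h3 : Nat.Coprime a b' := coprime_of_Smo hAB ha hb'
  constructor
  · intro h
    refine ⟨h3.dvd_of_dvd_mul_right ((Dvd.intro b rfl).trans h), ?_⟩
    exact h2.symm.dvd_of_dvd_mul_left ((Dvd.intro_left a rfl).trans h)
  · rintro ⟨h4, h5⟩
    exact mul_dvd_mul h4 h5

end mult

lemma rpow_neg_le_inv {s : ℝ} (hs : 1 ≤ s) {n : ℕ} (hn : 1 ≤ n) : (n : ℝ) ^ (-s) ≤ (n : ℝ)⁻¹ := by
  rw [← Real.rpow_neg_one]
  exact Real.rpow_le_rpow_of_exponent_le (by exact_mod_cast hn) (by linarith)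

lemma mk_K2s {s : ℝ} (hs : 1 ≤ s) : MK (K2s s) := by
  refine ⟨fun a b => by unfold K2s; positivity, fun a b => ?_, by simp [K2s], ?_⟩
  · rcases Nat.eq_zero_or_pos a with rfl | ha
    · unfold K2s
      rw [Nat.lcm_zero_left, Nat.cast_zero, Real.zero_rpow (by linarith)]
      exact K2_nonneg _ _
    rcases Nat.eq_zero_or_pos b with rfl | hb
    · unfold K2s
      rw [Nat.lcm_zero_right, Nat.cast_zero, Real.zero_rpow (by linarith)]
      exact K2_nonneg _ _
    rw [K2_eq_inv_lcm ha.ne' hb.ne']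
    exact rpow_neg_le_inv hs (Nat.lcm_pos ha hb)
  · intro A B hAB a ha a' ha' b hb b' hb'
    unfold K2s
    rw [lcm_mul_smo hAB ha ha' hb hb']
    push_cast
    rw [Real.mul_rpow (Nat.cast_nonneg _) (Nat.cast_nonneg _)]

lemma mk_Kcs {s : ℝ} (hs : 1 ≤ s) : MK (Kcs s) := by
  refine ⟨fun a b => by unfold Kcs; positivity, fun a b => ?_, by simp [Kcs], ?_⟩
  · unfold Kcs
    split_ifs with h
    · rcases Nat.eq_zero_or_pos b with rfl | hb
      · rw [Nat.cast_zero, Real.zero_rpow (by linarith)]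
        exact K2_nonneg _ _
      have ha : 0 < a := Nat.pos_of_dvd_of_pos h hb
      rw [K2_eq_inv_lcm ha.ne' hb.ne', Nat.lcm_eq_right h]
      exact rpow_neg_le_inv hs hb
    · exact K2_nonneg _ _
  · intro A B hAB a ha a' ha' b hb b' hb'
    unfold Kcs
    have h := dvd_mul_smo hAB ha ha' hb hb'
    by_cases h1 : a ∣ a'
    · by_cases h2 : b ∣ b'
      · rw [if_pos (h.mpr ⟨h1, h2⟩), if_pos h1, if_pos h2]
        push_cast
        rw [Real.mul_rpow (Nat.cast_nonneg _) (Nat.cast_nonneg _)]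
      · rw [if_neg (fun h3 => h2 (h.mp h3).2), if_neg h2, mul_zero]
    · rw [if_neg (fun h3 => h1 (h.mp h3).1), if_neg h1, zero_mul]

lemma mk_K1s {s : ℝ} (hs : 1 ≤ s) : MK (K1s s) := by
  refine ⟨fun a b => by unfold K1s; positivity, fun a b => ?_, by simp [K1s], ?_⟩
  · unfold K1s
    split_ifs with h
    · subst h
      rcases Nat.eq_zero_or_pos a with rfl | ha
      · rw [Nat.cast_zero, Real.zero_rpow (by linarith)]
        exact K2_nonneg _ _
      rw [K2_eq_inv_lcm ha.ne' ha.ne', Nat.lcm_self]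
      exact rpow_neg_le_inv hs ha
    · exact K2_nonneg _ _
  · intro A B hAB a ha a' ha' b hb b' hb'
    unfold K1s
    have hd1 := dvd_mul_smo hAB ha ha' hb hb'
    have hd2 := dvd_mul_smo hAB ha' ha hb' hb
    have key : a * b = a' * b' ↔ a = a' ∧ b = b' := by
      constructor
      · intro h
        have h1 := hd1.mp (by rw [h])
        have h2 := hd2.mp (by rw [h])
        exact ⟨Nat.dvd_antisymm h1.1 h2.1, Nat.dvd_antisymm h1.2 h2.2⟩
      · rintro ⟨rfl, rfl⟩; rfl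
    by_cases h1 : a = a'
    · by_cases h2 : b = b'
      · rw [if_pos (key.mpr ⟨h1, h2⟩), if_pos h1, if_pos h2]
        push_cast
        rw [Real.mul_rpow (Nat.cast_nonneg _) (Nat.cast_nonneg _)]
      · rw [if_neg (fun h3 => h2 (key.mp h3).2), if_neg h2, mul_zero]
    · rw [if_neg (fun h3 => h1 (key.mp h3).1), if_neg h1, zero_mul]

/-! ### truncation error -/

lemma BK_le_K2 {K : ℕ → ℕ → ℝ} (hK : MK K) {A : Set ℕ} {G G' : DP} (hG : Cone A G) (hG' : Cone A G') :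
    BK K G G' ≤ BK K2 G G' :=
  pair_mono hG fun a _ => pair_mono hG' fun b _ => hK.2.1 a b

lemma cone_FF {I : Finset ℕ} (hI : ∀ p ∈ I, p.Prime) {c : ℝ} (hc : 0 ≤ c) (M : ℕ) :
    Cone (Smo I) (FF c M I) := by
  unfold FF
  refine Cone.prod _ (fun p hp => ?_) (one_mem_Smo _) (fun a ha b hb => mul_mem_Smo ha hb)
  refine (cone_expo (prime_single (hI p hp)) hc M).mono ?_
  intro n hn
  exact Smo_mono (by simpa using hp) hn.1

lemma sup_FF {I : Finset ℕ} (hI : ∀ p ∈ I, p.Prime) (c : ℝ) (M : ℕ) : Sup (Smo I) (FF c M I) := by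
  unfold FF
  refine Sup.prod _ (fun p hp => ?_) (one_mem_Smo _) (fun a ha b hb => mul_mem_Smo ha hb)
  refine (sup_expo (prime_single (hI p hp)) c M).mono ?_
  exact Smo_mono (by simpa using hp)

lemma trunc_MK {K : ℕ → ℕ → ℝ} (hK : MK K) {I : Finset ℕ} (hI : ∀ p ∈ I, p.Prime) {c d : ℝ}
    (hc : |c| ≤ 1) (hd : |d| ≤ 1) (M : ℕ) (hV : VV I ≤ 12) :
    |BK K (expo c M I) (expo d M I) - BK K (FF c M I) (FF d M I)| ≤ 3 / 2 ^ M * Real.exp 648 := by
  set G := FF 2 M I with hG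
  have hGn : Cone (Smo I) G := cone_FF hI (by norm_num) M
  have hK0 := hK.1
  set δ : ℝ := 1 / 2 ^ M with hδ
  have hδ0 : 0 ≤ δ := by positivity
  have hδ1 : δ ≤ 1 := by
    rw [hδ, div_le_one (by positivity)]
    exact one_le_pow₀ (by norm_num)
  have hdc : Dom (FF c M I - expo c M I) (δ • G) :=
    (dom_diff hI hc M M le_rfl).trans' (by rw [hδ]; gcongr) fun n => (hGn n).1
  have hdd : Dom (FF d M I - expo d M I) (δ • G) :=
    (dom_diff hI hd M M le_rfl).trans' (by rw [hδ]; gcongr) fun n => (hGn n).1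
  have hFc : Dom (FF c M I) G := dom_FF hI (by linarith) M
  have hFd : Dom (FF d M I) G := dom_FF hI (by linarith) M
  set R := FF c M I - expo c M I with hR
  set R' := FF d M I - expo d M I with hR'
  have e1 : expo c M I = FF c M I + (-1 : ℝ) • R := by rw [hR, neg_one_smul]; abel
  have e2 : expo d M I = FF d M I + (-1 : ℝ) • R' := by rw [hR', neg_one_smul]; abel
  have e3 : BK K (expo c M I) (expo d M I) - BK K (FF c M I) (FF d M I)
      = - BK K (FF c M I) R' - BK K R (FF d M I) + BK K R R' := by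
    rw [e1, e2, BK_add_left, BK_add_right, BK_add_right, BK_smul_left, BK_smul_right, BK_smul_left,
      BK_smul_right]
    ring
  have hGG : BK K G G ≤ Real.exp 648 := by
    refine (BK_le_K2 hK hGn hGn).trans ((le_abs_self _).trans ((FF_bounds_two hI M).1.trans ?_))
    apply Real.exp_le_exp.mpr
    linarith
  have hGG0 : 0 ≤ BK K G G := BK_nonneg hGn hGn hK0
  have h1 : |BK K (FF c M I) R'| ≤ δ * BK K G G := by
    have := abs_BK_le_of_dom hK0 hFc hdd
    rwa [BK_smul_right] at this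
  have h2 : |BK K R (FF d M I)| ≤ δ * BK K G G := by
    have := abs_BK_le_of_dom hK0 hdc hFd
    rwa [BK_smul_left] at this
  have h3 : |BK K R R'| ≤ δ * BK K G G := by
    have := abs_BK_le_of_dom hK0 hdc hdd
    rw [BK_smul_left, BK_smul_right] at this
    refine this.trans ?_
    calc δ * (δ * BK K G G) ≤ δ * (1 * BK K G G) := by gcongr
      _ = _ := by ring
  rw [e3]
  have h4 : |-BK K (FF c M I) R' - BK K R (FF d M I) + BK K R R'|
      ≤ |BK K (FF c M I) R'| + |BK K R (FF d M I)| + |BK K R R'| := by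
    refine (abs_add_le _ _).trans ?_
    gcongr
    refine (abs_sub _ _).trans ?_
    rw [abs_neg]
  refine h4.trans ?_
  calc |BK K (FF c M I) R'| + |BK K R (FF d M I)| + |BK K R R'| ≤ 3 * δ * BK K G G := by linarith
    _ ≤ 3 * δ * Real.exp 648 := by gcongr
    _ = _ := by rw [hδ]; ring

/-! ### local factors -/

lemma BK_local_two (K : ℕ → ℕ → ℝ) (c d : ℝ) (M p : ℕ) :
    BK K (expo c M {p}) (expo d M {p})
      = ∑ i ∈ Finset.range (M + 1), ∑ l ∈ Finset.range (M + 1),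
        (c ^ i / (i.factorial : ℝ)) * (d ^ l / (l.factorial : ℝ)) * K (p ^ i) (p ^ l) := by
  unfold expo
  rw [BK_sum_left]
  refine Finset.sum_congr rfl fun i _ => ?_
  rw [BK_sum_right]
  refine Finset.sum_congr rfl fun l _ => ?_
  rw [BK_smul_left, BK_smul_right, PP_singleton_pow, PP_singleton_pow, BK_single]
  ring

/-- generic expansion of a local factor -/
lemma local_gen {c d R : ℝ} {M : ℕ} (hM : 1 ≤ M) (κ : ℕ → ℕ → ℝ)
    (hκ : ∀ i l : ℕ, 2 ≤ i ∨ 2 ≤ l → |c ^ i * d ^ l * κ i l| ≤ R) (hR : 0 ≤ R) :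
    |(∑ i ∈ Finset.range (M + 1), ∑ l ∈ Finset.range (M + 1),
        (c ^ i / (i.factorial : ℝ)) * (d ^ l / (l.factorial : ℝ)) * κ i l)
      - (κ 0 0 + c * κ 1 0 + d * κ 0 1 + c * d * κ 1 1)| ≤ 3.4 * R := by
  set t : ℕ × ℕ → ℝ := fun x => (c ^ x.1 / (x.1.factorial : ℝ)) * (d ^ x.2 / (x.2.factorial : ℝ)) * κ x.1 x.2
    with ht
  set w : ℕ × ℕ → ℝ := fun x => (1 / (x.1.factorial : ℝ)) * (1 / (x.2.factorial : ℝ)) with hw
  have e1 : ∑ i ∈ Finset.range (M + 1), ∑ l ∈ Finset.range (M + 1),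
        (c ^ i / (i.factorial : ℝ)) * (d ^ l / (l.factorial : ℝ)) * κ i l
      = ∑ x ∈ Finset.range (M + 1) ×ˢ Finset.range (M + 1), t x := by
    rw [Finset.sum_product]
  rw [e1]
  have hsub : Finset.range 2 ×ˢ Finset.range 2 ⊆ Finset.range (M + 1) ×ˢ Finset.range (M + 1) := by
    apply Finset.product_subset_product <;> exact Finset.range_subset_range.mpr (by omega)
  rw [← Finset.sum_sdiff hsub]
  have e2 : ∑ x ∈ Finset.range 2 ×ˢ Finset.range 2, t x
      = κ 0 0 + c * κ 1 0 + d * κ 0 1 + c * d * κ 1 1 := by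
    rw [Finset.sum_product]
    simp [ht, Finset.sum_range_succ]
    ring
  rw [e2, add_sub_cancel_right]
  have h1 : ∀ x ∈ (Finset.range (M + 1) ×ˢ Finset.range (M + 1)) \ (Finset.range 2 ×ˢ Finset.range 2),
      |t x| ≤ R * w x := by
    intro x hx
    rw [Finset.mem_sdiff, Finset.mem_product, Finset.mem_product] at hx
    simp only [Finset.mem_range] at hx
    rw [ht, hw]
    simp only
    have hf1 : (0 : ℝ) < (x.1.factorial : ℝ) := by positivity
    have hf2 : (0 : ℝ) < (x.2.factorial : ℝ) := by positivity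
    have ec : c ^ x.1 / (x.1.factorial : ℝ) * (d ^ x.2 / (x.2.factorial : ℝ)) * κ x.1 x.2
        = (c ^ x.1 * d ^ x.2 * κ x.1 x.2) * (1 / (x.1.factorial : ℝ) * (1 / (x.2.factorial : ℝ))) := by
      ring
    rw [ec, abs_mul,
      abs_of_pos (by positivity : 0 < 1 / (x.1.factorial : ℝ) * (1 / (x.2.factorial : ℝ)))]
    have := hκ x.1 x.2 (by omega)
    gcongr
  refine (Finset.abs_sum_le_sum_abs _ _).trans ((Finset.sum_le_sum h1).trans ?_)
  rw [← Finset.mul_sum]
  have h2 : ∑ x ∈ (Finset.range (M + 1) ×ˢ Finset.range (M + 1)) \ (Finset.range 2 ×ˢ Finset.range 2), w x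
      ≤ 3.4 := by
    have h3 : ∑ x ∈ Finset.range (M + 1) ×ˢ Finset.range (M + 1), w x ≤ 7.4 := by
      rw [Finset.sum_product]
      have h4 : ∑ i ∈ Finset.range (M + 1), ∑ l ∈ Finset.range (M + 1), w (i, l)
          = (∑ i ∈ Finset.range (M + 1), 1 / (i.factorial : ℝ)) ^ 2 := by
        rw [sq, Finset.sum_mul_sum]
      rw [h4]
      have h5 : ∑ i ∈ Finset.range (M + 1), 1 / (i.factorial : ℝ) ≤ Real.exp 1 := by
        have := Real.sum_le_exp_of_nonneg (zero_le_one (α := ℝ)) (M + 1)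
        simpa using this
      have h6 : 0 ≤ ∑ i ∈ Finset.range (M + 1), 1 / (i.factorial : ℝ) :=
        Finset.sum_nonneg fun i _ => by positivity
      calc (∑ i ∈ Finset.range (M + 1), 1 / (i.factorial : ℝ)) ^ 2 ≤ Real.exp 1 ^ 2 := by gcongr
        _ = Real.exp 2 := by rw [← Real.exp_nat_mul]; norm_num
        _ ≤ 7.4 := exp_two_lt.le
    rw [← Finset.sum_sdiff hsub] at h3
    have h7 : ∑ x ∈ Finset.range 2 ×ˢ Finset.range 2, w x = 4 := by
      rw [Finset.sum_product]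
      simp [hw, Finset.sum_range_succ]
      norm_num
    rw [h7] at h3
    linarith
  calc R * ∑ x ∈ (Finset.range (M + 1) ×ˢ Finset.range (M + 1)) \ (Finset.range 2 ×ˢ Finset.range 2), w x
      ≤ R * 3.4 := by gcongr
    _ = _ := by ring

section loc

variable {p : ℕ} {s k : ℝ}

lemma prime_rpow_pow (_hp : p.Prime) (i : ℕ) : ((p ^ i : ℕ) : ℝ) ^ (-s) = ((p : ℝ) ^ (-s)) ^ i := by
  have hp0 : (0 : ℝ) ≤ p := Nat.cast_nonneg _
  push_cast
  rw [← Real.rpow_natCast, ← Real.rpow_natCast, ← Real.rpow_mul hp0, ← Real.rpow_mul hp0, mul_comm]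

lemma K2s_pow (hp : p.Prime) (i l : ℕ) : K2s s (p ^ i) (p ^ l) = ((p : ℝ) ^ (-s)) ^ max i l := by
  unfold K2s
  rcases le_total i l with h | h
  · rw [Nat.lcm_eq_right (pow_dvd_pow p h), max_eq_right h, prime_rpow_pow hp]
  · rw [Nat.lcm_eq_left (pow_dvd_pow p h), max_eq_left h, prime_rpow_pow hp]

lemma Kcs_pow (hp : p.Prime) (i l : ℕ) :
    Kcs s (p ^ i) (p ^ l) = if i ≤ l then ((p : ℝ) ^ (-s)) ^ l else 0 := by
  unfold Kcs
  rw [prime_rpow_pow hp]
  by_cases h : i ≤ l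
  · rw [if_pos h, if_pos (pow_dvd_pow p h)]
  · rw [if_neg h, if_neg]
    intro h1
    exact h ((Nat.pow_dvd_pow_iff_le_right hp.one_lt).mp h1)

lemma K1s_pow (hp : p.Prime) (i l : ℕ) :
    K1s s (p ^ i) (p ^ l) = if i = l then ((p : ℝ) ^ (-s)) ^ i else 0 := by
  unfold K1s
  rw [prime_rpow_pow hp]
  by_cases h : i = l
  · rw [if_pos h, if_pos (by rw [h])]
  · rw [if_neg h, if_neg]
    intro h1
    exact h (Nat.pow_right_injective hp.two_le h1)

lemma q_bounds (hp : p.Prime) (hs : 1 ≤ s) :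
    0 < (p : ℝ) ^ (-s) ∧ (p : ℝ) ^ (-s) ≤ (p : ℝ)⁻¹ ∧ (p : ℝ) ^ (-s) ≤ 1 / 2 := by
  have hp0 : (0 : ℝ) < p := by exact_mod_cast hp.pos
  have h1 := rpow_neg_le_inv hs hp.one_le
  refine ⟨by positivity, h1, h1.trans ?_⟩
  rw [one_div]
  exact inv_anti₀ (by norm_num) (by exact_mod_cast hp.two_le)

lemma local_K2s (hp : p.Prime) (hs : 1 ≤ s) {c : ℝ} (hc : |c| ≤ 1) {M : ℕ} (hM : 1 ≤ M) :
    |BK (K2s s) (expo c M {p}) (expo c M {p}) - (1 + (2 * c + c ^ 2) * (p : ℝ) ^ (-s))|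
      ≤ 3.4 * ((p : ℝ) ^ (-s)) ^ 2 := by
  obtain ⟨hq0, _, hq1⟩ := q_bounds hp hs
  rw [BK_local_two]
  simp_rw [K2s_pow hp]
  set q := (p : ℝ) ^ (-s) with hq
  have h := local_gen (c := c) (d := c) (R := q ^ 2) hM (fun i l => q ^ max i l) ?_ (by positivity)
  · have e : (fun i l : ℕ => q ^ max i l) 0 0 + c * (fun i l : ℕ => q ^ max i l) 1 0
        + c * (fun i l : ℕ => q ^ max i l) 0 1 + c * c * (fun i l : ℕ => q ^ max i l) 1 1
        = 1 + (2 * c + c ^ 2) * q := by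
      simp
      ring
    rw [e] at h
    exact h
  · intro i l hil
    rw [abs_mul, abs_mul, abs_pow, abs_pow, abs_of_pos (by positivity : 0 < q ^ max i l)]
    have a1 : |c| ^ i ≤ 1 := pow_le_one₀ (abs_nonneg _) hc
    have a2 : |c| ^ l ≤ 1 := pow_le_one₀ (abs_nonneg _) hc
    have a3 : q ^ max i l ≤ q ^ 2 := pow_le_pow_of_le_one hq0.le (by linarith) (by omega)
    have a4 : |c| ^ i * |c| ^ l ≤ 1 := mul_le_one₀ a1 (by positivity) a2
    calc |c| ^ i * |c| ^ l * q ^ max i l ≤ 1 * q ^ 2 := by gcongr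
      _ = q ^ 2 := one_mul _

lemma local_Kcs (hp : p.Prime) (hs : 1 ≤ s) {c d : ℝ} (hc : |c| ≤ 1) (hd : |d| ≤ 1) {M : ℕ}
    (hM : 1 ≤ M) :
    |BK (Kcs s) (expo c M {p}) (expo d M {p}) - (1 + (d + c * d) * (p : ℝ) ^ (-s))|
      ≤ 3.4 * ((p : ℝ) ^ (-s)) ^ 2 := by
  obtain ⟨hq0, _, hq1⟩ := q_bounds hp hs
  rw [BK_local_two]
  simp_rw [Kcs_pow hp]
  set q := (p : ℝ) ^ (-s) with hq
  have h := local_gen (c := c) (d := d) (R := q ^ 2) hM (fun i l => if i ≤ l then q ^ l else 0) ?_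
    (by positivity)
  · have e : (fun i l : ℕ => if i ≤ l then q ^ l else 0) 0 0
        + c * (fun i l : ℕ => if i ≤ l then q ^ l else 0) 1 0
        + d * (fun i l : ℕ => if i ≤ l then q ^ l else 0) 0 1
        + c * d * (fun i l : ℕ => if i ≤ l then q ^ l else 0) 1 1
        = 1 + (d + c * d) * q := by
      simp
      ring
    rw [e] at h
    exact h
  · intro i l hil
    split_ifs with h1
    · rw [abs_mul, abs_mul, abs_pow, abs_pow, abs_of_pos (by positivity : 0 < q ^ l)]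
      have a1 : |c| ^ i ≤ 1 := pow_le_one₀ (abs_nonneg _) hc
      have a2 : |d| ^ l ≤ 1 := pow_le_one₀ (abs_nonneg _) hd
      have a3 : q ^ l ≤ q ^ 2 := pow_le_pow_of_le_one hq0.le (by linarith) (by omega)
      have a4 : |c| ^ i * |d| ^ l ≤ 1 := mul_le_one₀ a1 (by positivity) a2
      calc |c| ^ i * |d| ^ l * q ^ l ≤ 1 * q ^ 2 := by gcongr
        _ = q ^ 2 := one_mul _
    · simp
      positivity

lemma local_K1s (hp : p.Prime) (hs : 1 ≤ s) {c : ℝ} (hc : |c| ≤ 1) {M : ℕ} (hM : 1 ≤ M) :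
    |BK (K1s s) (expo c M {p}) (expo c M {p}) - (1 + c ^ 2 * (p : ℝ) ^ (-s))|
      ≤ 3.4 * ((p : ℝ) ^ (-s)) ^ 2 := by
  obtain ⟨hq0, _, hq1⟩ := q_bounds hp hs
  rw [BK_local_two]
  simp_rw [K1s_pow hp]
  set q := (p : ℝ) ^ (-s) with hq
  have h := local_gen (c := c) (d := c) (R := q ^ 2) hM (fun i l => if i = l then q ^ i else 0) ?_
    (by positivity)
  · have e : (fun i l : ℕ => if i = l then q ^ i else 0) 0 0
        + c * (fun i l : ℕ => if i = l then q ^ i else 0) 1 0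
        + c * (fun i l : ℕ => if i = l then q ^ i else 0) 0 1
        + c * c * (fun i l : ℕ => if i = l then q ^ i else 0) 1 1
        = 1 + c ^ 2 * q := by
      simp
      left
      ring
    rw [e] at h
    exact h
  · intro i l hil
    split_ifs with h1
    · rw [abs_mul, abs_mul, abs_pow, abs_pow, abs_of_pos (by positivity : 0 < q ^ i)]
      have a1 : |c| ^ i ≤ 1 := pow_le_one₀ (abs_nonneg _) hc
      have a2 : |c| ^ l ≤ 1 := pow_le_one₀ (abs_nonneg _) hc
      have a3 : q ^ i ≤ q ^ 2 := pow_le_pow_of_le_one hq0.le (by linarith) (by omega)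
      have a4 : |c| ^ i * |c| ^ l ≤ 1 := mul_le_one₀ a1 (by positivity) a2
      calc |c| ^ i * |c| ^ l * q ^ i ≤ 1 * q ^ 2 := by gcongr
        _ = q ^ 2 := one_mul _
    · simp
      positivity

end loc

end Pool.Agent.Lib.MP_f9aece_nt_h97
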