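import Mathlib
import Pool.Agent.Lib.MP_f9aece_nt_h97.OffF1

/-!
Block bounds for the three quadratic forms on truncated exponentials.
-/

set_option autoImplicit false

namespace Pool.Agent.Lib.MP_f9aece_nt_h97

open MeasureTheory Set Filter Topology Complex
open Pool.Agent.Lib.MP_f9aece_nt

lemma exp_sub_two_sq_le {x : ℝ} (hx : -(1 / 2) ≤ x) : Real.exp (x - 2 * x ^ 2) ≤ 1 + x := by
  have h0 : 0 < 1 + x := by linarith
  rw [← Real.le_log_iff_exp_le h0]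
  refine le_trans ?_ (Real.one_sub_inv_le_log_of_pos h0)
  have e : 1 - (1 + x)⁻¹ = x / (1 + x) := by field_simp; ring
  rw [e, le_div_iff₀ h0]
  nlinarith [sq_nonneg x, mul_nonneg (sq_nonneg x) (by linarith : (0 : ℝ) ≤ 1 + 2 * x)]

/-- sum of `p^(-s)` -/
noncomputable def QS (s : ℝ) (I : Finset ℕ) : ℝ := ∑ p ∈ I, (p : ℝ) ^ (-s)

/-- error of one block -/
noncomputable def tau (M : ℕ) : ℝ := 6 / 2 ^ M * Real.exp 720

lemma tau_pos (M : ℕ) : 0 < tau M := by unfold tau; positivity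

lemma QS_nonneg (s : ℝ) (I : Finset ℕ) : 0 ≤ QS s I := Finset.sum_nonneg fun p _ => by positivity

lemma QS_le_VV {s : ℝ} (hs : 1 ≤ s) {I : Finset ℕ} (hI : ∀ p ∈ I, p.Prime) : QS s I ≤ VV I :=
  Finset.sum_le_sum fun p hp => (q_bounds (hI p hp) hs).2.1

lemma V2_le_VV {I : Finset ℕ} (hI : ∀ p ∈ I, p.Prime) : V2 I ≤ VV I := by
  refine Finset.sum_le_sum fun p hp => ?_
  have hp2 : (1 : ℝ) ≤ p := by exact_mod_cast (hI p hp).one_le
  have h0 : (0 : ℝ) < (p : ℝ)⁻¹ := by positivity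
  have h1 : (p : ℝ)⁻¹ ≤ 1 := inv_le_one_of_one_le₀ hp2
  nlinarith

section blocks

variable {I : Finset ℕ} {s k : ℝ} {M : ℕ}

lemma sup_loc (hI : ∀ p ∈ I, p.Prime) (c : ℝ) (M : ℕ) :
    ∀ p ∈ I, Sup (Smo (({p} : Finset ℕ) : Set ℕ)) (expo c M {p}) :=
  fun p hp => sup_expo (prime_single (hI p hp)) c M

lemma q_sq_le (hs : 1 ≤ s) {p : ℕ} (hp : p.Prime) : ((p : ℝ) ^ (-s)) ^ 2 ≤ ((p : ℝ)⁻¹) ^ 2 := by
  obtain ⟨h0, h1, _⟩ := q_bounds hp hs
  gcongr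

lemma q_third (hs : 1 ≤ s) {p : ℕ} (hp : p.Prime) (hp3 : 3 ≤ p) : (p : ℝ) ^ (-s) ≤ 1 / 3 := by
  obtain ⟨_, h1, _⟩ := q_bounds hp hs
  refine h1.trans ?_
  rw [one_div]
  exact inv_anti₀ (by norm_num) (by exact_mod_cast hp3)

/-- the `lcm` form of the local product -/
lemma FF_K2s (hI : ∀ p ∈ I, p.Prime) (hs : 1 ≤ s) (hk0 : 0 ≤ k) (hk : k ≤ 1) (hM : 1 ≤ M) :
    |BK (K2s s) (FF (-(1 - k)) M I) (FF (-(1 - k)) M I)|
      ≤ Real.exp ((k ^ 2 - 1) * QS s I + 3.4 * V2 I) := by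
  unfold FF
  rw [BK_prod_MK (mk_K2s hs) I (fun p => {p}) disj_single _ _ (sup_loc hI _ M) (sup_loc hI _ M)]
  rw [Finset.abs_prod]
  unfold QS V2
  rw [Finset.mul_sum, Finset.mul_sum, ← Finset.sum_add_distrib, Real.exp_sum]
  refine Finset.prod_le_prod (fun p _ => abs_nonneg _) fun p hp => ?_
  have hpp := hI p hp
  obtain ⟨hq0, hq1, hq2⟩ := q_bounds hpp hs
  have hsq := q_sq_le hs hpp
  have h1 := local_K2s hpp hs (c := -(1 - k)) (by rw [abs_neg, abs_of_nonneg (by linarith)]; linarith) hM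
  set q := (p : ℝ) ^ (-s) with hq
  have e : 2 * -(1 - k) + (-(1 - k)) ^ 2 = k ^ 2 - 1 := by ring
  rw [e, abs_le] at h1
  have h2 := Real.add_one_le_exp ((k ^ 2 - 1) * q + 3.4 * ((p : ℝ)⁻¹) ^ 2)
  rw [abs_le]
  constructor
  · have h3 : (0 : ℝ) ≤ 1 + (k ^ 2 - 1) * q := by nlinarith [sq_nonneg k]
    linarith
  · linarith

/-- lower bound of a local factor -/
lemma loc_ge {q k x : ℝ} (hq0 : 0 < q) (hq : q ≤ 1 / 3) (hk0 : 0 ≤ k) (hk : k ≤ 1)
    (hx : 1 + k ^ 2 * q - 3.4 * q ^ 2 ≤ x) : Real.exp (k ^ 2 * q - 6 * q ^ 2) ≤ x := by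
  have hk2 : k ^ 2 ≤ 1 := by nlinarith
  have hk20 : 0 ≤ k ^ 2 := sq_nonneg k
  set y := k ^ 2 * q - 3.4 * q ^ 2 with hy
  have h1 : -(1.14 * q) ≤ y := by
    have : 0 ≤ k ^ 2 * q := by positivity
    nlinarith
  have h2 : y ≤ 1.14 * q := by nlinarith
  have h3 : -(1 / 2) ≤ y := by nlinarith
  have h4 := exp_sub_two_sq_le h3
  have h5 : y ^ 2 ≤ (1.14 * q) ^ 2 := sq_le_sq' h1 h2
  refine le_trans ?_ (h4.trans (by linarith))
  apply Real.exp_le_exp.mpr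
  nlinarith

/-- the divisor form of the local product -/
lemma FF_Kcs (hI : ∀ p ∈ I, p.Prime) (hI3 : ∀ p ∈ I, 3 ≤ p) (hs : 1 ≤ s) (hk0 : 0 ≤ k) (hk : k ≤ 1)
    (hM : 1 ≤ M) :
    Real.exp (k ^ 2 * QS s I - 6 * V2 I) ≤ BK (Kcs s) (FF (-(1 - k)) M I) (FF k M I) := by
  unfold FF
  rw [BK_prod_MK (mk_Kcs hs) I (fun p => {p}) disj_single _ _ (sup_loc hI _ M) (sup_loc hI _ M)]
  unfold QS V2
  rw [Finset.mul_sum, Finset.mul_sum, ← Finset.sum_sub_distrib, Real.exp_sum]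
  refine Finset.prod_le_prod (fun p _ => (Real.exp_pos _).le) fun p hp => ?_
  have hpp := hI p hp
  obtain ⟨hq0, hq1, hq2⟩ := q_bounds hpp hs
  have hsq := q_sq_le hs hpp
  have hq3 := q_third hs hpp (hI3 p hp)
  have h1 := local_Kcs hpp hs (c := -(1 - k)) (d := k)
    (by rw [abs_neg, abs_of_nonneg (by linarith)]; linarith) (by rw [abs_of_nonneg hk0]; exact hk) hM
  set q := (p : ℝ) ^ (-s) with hq
  have e : k + -(1 - k) * k = k ^ 2 := by ring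
  rw [e, abs_le] at h1
  refine le_trans (Real.exp_le_exp.mpr ?_) (loc_ge hq0 hq3 hk0 hk (by linarith [h1.1]))
  linarith

/-- the diagonal form of the local product, below -/
lemma FF_K1s_ge (hI : ∀ p ∈ I, p.Prime) (hI3 : ∀ p ∈ I, 3 ≤ p) (hs : 1 ≤ s) (hk0 : 0 ≤ k) (hk : k ≤ 1)
    (hM : 1 ≤ M) :
    Real.exp (k ^ 2 * QS s I - 6 * V2 I) ≤ BK (K1s s) (FF k M I) (FF k M I) := by
  unfold FF
  rw [BK_prod_MK (mk_K1s hs) I (fun p => {p}) disj_single _ _ (sup_loc hI _ M) (sup_loc hI _ M)]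
  unfold QS V2
  rw [Finset.mul_sum, Finset.mul_sum, ← Finset.sum_sub_distrib, Real.exp_sum]
  refine Finset.prod_le_prod (fun p _ => (Real.exp_pos _).le) fun p hp => ?_
  have hpp := hI p hp
  obtain ⟨hq0, hq1, hq2⟩ := q_bounds hpp hs
  have hsq := q_sq_le hs hpp
  have hq3 := q_third hs hpp (hI3 p hp)
  have h1 := local_K1s hpp hs (c := k) (by rw [abs_of_nonneg hk0]; exact hk) hM
  set q := (p : ℝ) ^ (-s) with hq
  rw [abs_le] at h1
  refine le_trans (Real.exp_le_exp.mpr ?_) (loc_ge hq0 hq3 hk0 hk (by linarith [h1.1]))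
  linarith

/-- the diagonal form of the local product, above -/
lemma FF_K1s_le (hI : ∀ p ∈ I, p.Prime) (hI3 : ∀ p ∈ I, 3 ≤ p) (hs : 1 ≤ s) (hk0 : 0 ≤ k) (hk : k ≤ 1)
    (hM : 1 ≤ M) :
    BK (K1s s) (FF k M I) (FF k M I) ≤ Real.exp (k ^ 2 * QS s I + 3.4 * V2 I) := by
  unfold FF
  rw [BK_prod_MK (mk_K1s hs) I (fun p => {p}) disj_single _ _ (sup_loc hI _ M) (sup_loc hI _ M)]
  unfold QS V2
  rw [Finset.mul_sum, Finset.mul_sum, ← Finset.sum_add_distrib, Real.exp_sum]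
  refine Finset.prod_le_prod (fun p hp => ?_) fun p hp => ?_
  · refine le_trans (Real.exp_pos (k ^ 2 * (p : ℝ) ^ (-s) - 6 * ((p : ℝ) ^ (-s)) ^ 2)).le ?_
    have hpp := hI p hp
    obtain ⟨hq0, hq1, hq2⟩ := q_bounds hpp hs
    have hq3 := q_third hs hpp (hI3 p hp)
    have h1 := local_K1s hpp hs (c := k) (by rw [abs_of_nonneg hk0]; exact hk) hM
    rw [abs_le] at h1
    exact loc_ge hq0 hq3 hk0 hk (by linarith [h1.1])
  have hpp := hI p hp
  obtain ⟨hq0, hq1, hq2⟩ := q_bounds hpp hs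
  have hsq := q_sq_le hs hpp
  have h1 := local_K1s hpp hs (c := k) (by rw [abs_of_nonneg hk0]; exact hk) hM
  set q := (p : ℝ) ^ (-s) with hq
  rw [abs_le] at h1
  have h2 := Real.add_one_le_exp (k ^ 2 * q + 3.4 * ((p : ℝ)⁻¹) ^ 2)
  linarith

lemma abs_neg_one_sub (hk0 : 0 ≤ k) (hk : k ≤ 1) : |(-(1 - k))| ≤ 1 := by
  rw [abs_neg, abs_of_nonneg (by linarith)]; linarith

/-- block bound for the `lcm` form -/
lemma expo_K2s (hI : ∀ p ∈ I, p.Prime) (hs : 1 ≤ s) (hk0 : 0 ≤ k) (hk : k ≤ 1) (hM : 1 ≤ M)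
    (hV : VV I ≤ 12) :
    |BK (K2s s) (expo (-(1 - k)) M I) (expo (-(1 - k)) M I)|
      ≤ Real.exp ((k ^ 2 - 1) * QS s I + 3.4 * V2 I + tau M) := by
  have h1 := FF_K2s hI hs hk0 hk hM
  have h2 := trunc_MK (mk_K2s hs) hI (abs_neg_one_sub hk0 hk) (abs_neg_one_sub hk0 hk) M hV
  have hQ := QS_le_VV hs hI
  have hQ0 := QS_nonneg s I
  have hV2 := V2_nonneg I
  set X := Real.exp ((k ^ 2 - 1) * QS s I + 3.4 * V2 I) with hX
  have hXp : 0 < X := Real.exp_pos _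
  have h3 : 3 / 2 ^ M * Real.exp 648 ≤ X * tau M := by
    have h4 : Real.exp 648 ≤ X * Real.exp 720 := by
      rw [hX, ← Real.exp_add]
      apply Real.exp_le_exp.mpr
      have h5 : -(1 : ℝ) ≤ k ^ 2 - 1 := by nlinarith [sq_nonneg k]
      nlinarith
    unfold tau
    calc 3 / 2 ^ M * Real.exp 648 ≤ 3 / 2 ^ M * (X * Real.exp 720) := by gcongr
      _ ≤ 6 / 2 ^ M * (X * Real.exp 720) := by gcongr; norm_num
      _ = _ := by ring
  rw [Real.exp_add]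
  have h4 := Real.add_one_le_exp (tau M)
  have h5 : |BK (K2s s) (expo (-(1 - k)) M I) (expo (-(1 - k)) M I)| ≤ X + X * tau M := by
    have := abs_sub_abs_le_abs_sub (BK (K2s s) (expo (-(1 - k)) M I) (expo (-(1 - k)) M I))
      (BK (K2s s) (FF (-(1 - k)) M I) (FF (-(1 - k)) M I))
    linarith
  calc |BK (K2s s) (expo (-(1 - k)) M I) (expo (-(1 - k)) M I)| ≤ X + X * tau M := h5
    _ = X * (tau M + 1) := by ring
    _ ≤ _ := by gcongr

/-- from a lower bound of the local product to one of the truncated exponential -/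
lemma lower_trunc {b f : ℝ} (hQ0 : 0 ≤ k ^ 2 * QS s I) (hV2 : V2 I ≤ 12)
    (hf : Real.exp (k ^ 2 * QS s I - 6 * V2 I) ≤ f)
    (hb : |b - f| ≤ 3 / 2 ^ M * Real.exp 648) (hM : tau M ≤ 1) :
    Real.exp (k ^ 2 * QS s I - 6 * V2 I - tau M) ≤ b := by
  set X := Real.exp (k ^ 2 * QS s I - 6 * V2 I) with hX
  have hXp : 0 < X := Real.exp_pos _
  have ht := tau_pos M
  have h3 : 3 / 2 ^ M * Real.exp 648 ≤ X * (tau M / 2) := by
    have h4 : Real.exp 648 ≤ X * Real.exp 720 := by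
      rw [hX, ← Real.exp_add]
      apply Real.exp_le_exp.mpr
      nlinarith
    unfold tau
    calc 3 / 2 ^ M * Real.exp 648 ≤ 3 / 2 ^ M * (X * Real.exp 720) := by gcongr
      _ = _ := by ring
  rw [abs_le] at hb
  have h5 : X * (1 - tau M / 2) ≤ b := by nlinarith [hb.1]
  refine le_trans ?_ h5
  rw [sub_eq_add_neg (k ^ 2 * QS s I - 6 * V2 I), Real.exp_add]
  refine mul_le_mul_of_nonneg_left ?_ hXp.le
  have h6 := exp_sub_two_sq_le (x := -(tau M / 2)) (by linarith)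
  refine le_trans (Real.exp_le_exp.mpr ?_) (h6.trans (le_of_eq (by ring)))
  nlinarith

/-- block bound for the divisor form -/
lemma expo_Kcs (hI : ∀ p ∈ I, p.Prime) (hI3 : ∀ p ∈ I, 3 ≤ p) (hs : 1 ≤ s) (hk0 : 0 ≤ k) (hk : k ≤ 1)
    (hM : 1 ≤ M) (hMt : tau M ≤ 1) (hV : VV I ≤ 12) :
    Real.exp (k ^ 2 * QS s I - 6 * V2 I - tau M) ≤ BK (Kcs s) (expo (-(1 - k)) M I) (expo k M I) :=
  lower_trunc (mul_nonneg (sq_nonneg _) (QS_nonneg _ _)) ((V2_le_VV hI).trans hV)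
    (FF_Kcs hI hI3 hs hk0 hk hM)
    (trunc_MK (mk_Kcs hs) hI (abs_neg_one_sub hk0 hk) (by rw [abs_of_nonneg hk0]; exact hk) M hV) hMt

/-- block bound for the diagonal form, below -/
lemma expo_K1s_ge (hI : ∀ p ∈ I, p.Prime) (hI3 : ∀ p ∈ I, 3 ≤ p) (hs : 1 ≤ s) (hk0 : 0 ≤ k)
    (hk : k ≤ 1) (hM : 1 ≤ M) (hMt : tau M ≤ 1) (hV : VV I ≤ 12) :
    Real.exp (k ^ 2 * QS s I - 6 * V2 I - tau M) ≤ BK (K1s s) (expo k M I) (expo k M I) :=
  lower_trunc (mul_nonneg (sq_nonneg _) (QS_nonneg _ _)) ((V2_le_VV hI).trans hV)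
    (FF_K1s_ge hI hI3 hs hk0 hk hM)
    (trunc_MK (mk_K1s hs) hI (by rw [abs_of_nonneg hk0]; exact hk)
      (by rw [abs_of_nonneg hk0]; exact hk) M hV) hMt

/-- block bound for the diagonal form, above -/
lemma expo_K1s_le (hI : ∀ p ∈ I, p.Prime) (hI3 : ∀ p ∈ I, 3 ≤ p) (hs : 1 ≤ s) (hk0 : 0 ≤ k)
    (hk : k ≤ 1) (hM : 1 ≤ M) (hV : VV I ≤ 12) :
    BK (K1s s) (expo k M I) (expo k M I) ≤ Real.exp (k ^ 2 * QS s I + 3.4 * V2 I + tau M) := by
  have h1 := FF_K1s_le hI hI3 hs hk0 hk hM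
  have h2 := trunc_MK (mk_K1s hs) hI (c := k) (d := k) (by rw [abs_of_nonneg hk0]; exact hk)
    (by rw [abs_of_nonneg hk0]; exact hk) M hV
  have hV2 := V2_nonneg I
  have hQ0 : 0 ≤ k ^ 2 * QS s I := mul_nonneg (sq_nonneg _) (QS_nonneg _ _)
  set X := Real.exp (k ^ 2 * QS s I + 3.4 * V2 I) with hX
  have hX1 : 1 ≤ X := Real.one_le_exp (by positivity)
  have h3 : 3 / 2 ^ M * Real.exp 648 ≤ X * tau M := by
    unfold tau
    calc 3 / 2 ^ M * Real.exp 648 ≤ 6 / 2 ^ M * Real.exp 720 := by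
          gcongr
          · norm_num
          · norm_num
      _ = 1 * (6 / 2 ^ M * Real.exp 720) := by ring
      _ ≤ _ := by gcongr
  rw [Real.exp_add]
  have h4 := Real.add_one_le_exp (tau M)
  rw [abs_le] at h2
  calc BK (K1s s) (expo k M I) (expo k M I) ≤ X + X * tau M := by linarith [h2.2]
    _ = X * (tau M + 1) := by ring
    _ ≤ _ := by gcongr

end blocks

/-! ### total truncation error -/

/-- total error -/
noncomputable def tm (m : ℕ) : ℝ := 2 ^ 1044 / 2 ^ m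

lemma tm_pos (m : ℕ) : 0 < tm m := by unfold tm; positivity

lemma exp_720_le : Real.exp 720 ≤ 2 ^ 1040 := by
  have h1 : Real.exp 9 ≤ 2 ^ 13 := by
    have e : Real.exp 9 = Real.exp 1 ^ 9 := by rw [← Real.exp_nat_mul]; norm_num
    rw [e]
    calc Real.exp 1 ^ 9 ≤ 2.7182818286 ^ 9 := by
          gcongr
          exact Real.exp_one_lt_d9.le
      _ ≤ 2 ^ 13 := by norm_num
  have e : Real.exp 720 = Real.exp 9 ^ 80 := by rw [← Real.exp_nat_mul]; norm_num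
  rw [e]
  calc Real.exp 9 ^ 80 ≤ (2 ^ 13) ^ 80 := by gcongr
    _ = 2 ^ 1040 := by rw [← pow_mul]

lemma tau_Mm_le {m : ℕ} (hm : 1 ≤ m) (j : ℕ) : tau (Mm m j) ≤ tm m * (1 / 2) ^ (j + 1) := by
  unfold tau tm Mm
  have h1 : m + j ≤ m * 2 ^ j := by
    have h2 : j + 1 ≤ 2 ^ j := Nat.lt_two_pow_self
    calc m + j ≤ m + m * j := by
          have : j ≤ m * j := Nat.le_mul_of_pos_left j hm
          omega
      _ = m * (j + 1) := by ring
      _ ≤ _ := Nat.mul_le_mul_left m h2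
  have h3 : (2 : ℝ) ^ (m + j) ≤ 2 ^ (m * 2 ^ j) := pow_le_pow_right₀ (by norm_num) h1
  calc 6 / 2 ^ (m * 2 ^ j) * Real.exp 720 ≤ 6 / 2 ^ (m + j) * 2 ^ 1040 := by
        gcongr
        exact exp_720_le
    _ ≤ 8 / 2 ^ (m + j) * 2 ^ 1040 := by gcongr; norm_num
    _ = _ := by
        rw [pow_add 2 m j, one_div, inv_pow, pow_succ]
        have h4 : (2 : ℝ) ^ 1044 = 16 * 2 ^ 1040 := by
          rw [show (1044 : ℕ) = 4 + 1040 by norm_num, pow_add]; norm_num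
        rw [h4]
        field_simp
        ring

lemma sum_half_le (J : ℕ) : ∑ j ∈ Finset.range J, (1 / 2 : ℝ) ^ (j + 1) ≤ 1 := by
  have h : ∑ j ∈ Finset.range J, (1 / 2 : ℝ) ^ (j + 1) = 1 - (1 / 2) ^ J := by
    induction J with
    | zero => simp
    | succ J ih => rw [Finset.sum_range_succ, ih]; ring
  rw [h]
  have : (0 : ℝ) < (1 / 2) ^ J := by positivity
  linarith

lemma sum_tau_le {m : ℕ} (hm : 1 ≤ m) (J : ℕ) : ∑ j ∈ Finset.range J, tau (Mm m j) ≤ tm m := by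
  calc ∑ j ∈ Finset.range J, tau (Mm m j) ≤ ∑ j ∈ Finset.range J, tm m * (1 / 2) ^ (j + 1) :=
        Finset.sum_le_sum fun j _ => tau_Mm_le hm j
    _ = tm m * ∑ j ∈ Finset.range J, (1 / 2 : ℝ) ^ (j + 1) := by rw [Finset.mul_sum]
    _ ≤ tm m * 1 := by
        have := sum_half_le J
        have := tm_pos m
        gcongr
    _ = _ := mul_one _

lemma tau_Mm_le_one {m : ℕ} (hm : 1044 ≤ m) (j : ℕ) : tau (Mm m j) ≤ 1 := by
  refine (tau_Mm_le (by omega) j).trans ?_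
  have h1 : tm m ≤ 1 := by
    unfold tm
    rw [div_le_one (by positivity)]
    exact pow_le_pow_right₀ (by norm_num) hm
  have h2 : (1 / 2 : ℝ) ^ (j + 1) ≤ 1 := pow_le_one₀ (by norm_num) (by norm_num)
  have := tm_pos m
  calc tm m * (1 / 2) ^ (j + 1) ≤ 1 * 1 := by gcongr
    _ = 1 := by ring

end Pool.Agent.Lib.MP_f9aece_nt_h97
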