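import Mathlib
import Pool.Agent.Lib.MP_f9aece_nt_h97.OffF2

/-!
The diagonal energy of the off-line approximation as a combination of quadratic forms.
-/

set_option autoImplicit false

namespace Pool.Agent.Lib.MP_f9aece_nt_h97

open MeasureTheory Set Filter Topology Complex
open Pool.Agent.Lib.MP_f9aece_nt

/-- the zeta function at a real point as a sum -/
noncomputable def Zr (s : ℝ) : ℝ := ∑' n : ℕ, (n : ℝ) ^ (-s)

lemma Zr_nonneg (s : ℝ) : 0 ≤ Zr s := tsum_nonneg fun n => by positivity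

lemma Zr_eq {s : ℝ} (hs : 1 < s) : ‖riemannZeta (s : ℂ)‖ = Zr s := by
  have h1 : riemannZeta (s : ℂ) = ((Zr s : ℝ) : ℂ) := by
    rw [zeta_eq_tsum_one_div_nat_cpow (by simpa using hs), Zr, Complex.ofReal_tsum]
    refine tsum_congr fun n => ?_
    rw [Complex.ofReal_cpow (Nat.cast_nonneg n)]
    push_cast
    rw [Complex.cpow_neg, one_div]
  rw [h1, Complex.norm_real, Real.norm_of_nonneg (Zr_nonneg s)]

lemma summable_Zr {s : ℝ} (hs : 1 < s) : Summable (fun n : ℕ => (n : ℝ) ^ (-s)) :=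
  Real.summable_nat_rpow.mpr (by linarith)

lemma hasSum_mult {s : ℝ} (hs : 1 < s) {d : ℕ} (hd : 1 ≤ d) :
    HasSum (fun M : ℕ => if d ∣ M then (M : ℝ) ^ (-s) else 0) ((d : ℝ) ^ (-s) * Zr s) := by
  have hg : Function.Injective (fun n : ℕ => d * n) := fun a b h => Nat.eq_of_mul_eq_mul_left hd h
  have hz : ∀ x ∉ Set.range (fun n : ℕ => d * n),
      (fun M : ℕ => if d ∣ M then (M : ℝ) ^ (-s) else 0) x = 0 := by
    intro x hx
    simp only
    rw [if_neg]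
    rintro ⟨c, rfl⟩
    exact hx ⟨c, rfl⟩
  rw [← hg.hasSum_iff hz]
  have e : ((fun M : ℕ => if d ∣ M then (M : ℝ) ^ (-s) else 0) ∘ fun n : ℕ => d * n)
      = fun n : ℕ => (d : ℝ) ^ (-s) * (n : ℝ) ^ (-s) := by
    funext n
    simp only [Function.comp]
    rw [if_pos (Dvd.intro n rfl)]
    push_cast
    rw [Real.mul_rpow (Nat.cast_nonneg _) (Nat.cast_nonneg _)]
  rw [e]
  exact (summable_Zr hs).hasSum.mul_left _

lemma bb_eq_pair (D : DP) (M : ℕ) : bb D M = pair (fun a => if a ∣ M then 1 else 0) D := by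
  unfold bb
  rw [pair_def]
  refine Finset.sum_congr rfl fun a _ => ?_
  split_ifs <;> simp

lemma hasSum_bb_sq {s : ℝ} (hs : 1 < s) {D : DP} (hD : ∀ n, D.coeff n ≠ 0 → 1 ≤ n) :
    HasSum (fun M : ℕ => bb D M ^ 2 * (M : ℝ) ^ (-s)) (Zr s * BK (K2s s) D D) := by
  have e1 : (fun M : ℕ => bb D M ^ 2 * (M : ℝ) ^ (-s)) = fun M : ℕ =>
      ∑ a ∈ D.coeff.support, ∑ b ∈ D.coeff.support,
        (D.coeff a * D.coeff b) * (if Nat.lcm a b ∣ M then (M : ℝ) ^ (-s) else 0) := by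
    funext M
    rw [bb_eq_pair, pair_def, sq, Finset.sum_mul_sum, Finset.sum_mul]
    refine Finset.sum_congr rfl fun a _ => ?_
    rw [Finset.sum_mul]
    refine Finset.sum_congr rfl fun b _ => ?_
    by_cases ha : a ∣ M
    · by_cases hb : b ∣ M
      · rw [if_pos ha, if_pos hb, if_pos (Nat.lcm_dvd ha hb)]; ring
      · rw [if_neg hb, if_neg (fun h => hb ((Nat.dvd_lcm_right a b).trans h))]; ring
    · rw [if_neg ha, if_neg (fun h => ha ((Nat.dvd_lcm_left a b).trans h))]; ring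
  have e2 : Zr s * BK (K2s s) D D = ∑ a ∈ D.coeff.support, ∑ b ∈ D.coeff.support,
        (D.coeff a * D.coeff b) * (((Nat.lcm a b : ℕ) : ℝ) ^ (-s) * Zr s) := by
    unfold BK
    rw [pair_def, Finset.mul_sum]
    refine Finset.sum_congr rfl fun a _ => ?_
    rw [pair_def, Finset.mul_sum, Finset.mul_sum]
    refine Finset.sum_congr rfl fun b _ => ?_
    unfold K2s
    ring
  rw [e1, e2]
  refine hasSum_sum fun a ha => hasSum_sum fun b hb => ?_
  rw [Finsupp.mem_support_iff] at ha hb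
  exact (hasSum_mult hs (Nat.lcm_pos (hD a ha) (hD b hb))).mul_left _

lemma hasSum_bb_mul {s : ℝ} {D B : DP} :
    HasSum (fun M : ℕ => bb D M * B.coeff M * (M : ℝ) ^ (-s)) (BK (Kcs s) D B) := by
  have e2 : BK (Kcs s) D B = ∑ b ∈ B.coeff.support, bb D b * B.coeff b * (b : ℝ) ^ (-s) := by
    unfold BK
    rw [pair_def]
    simp only [pair_def, Finset.mul_sum]
    rw [Finset.sum_comm]
    refine Finset.sum_congr rfl fun b _ => ?_
    rw [bb_eq_pair, pair_def, Finset.sum_mul, Finset.sum_mul]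
    refine Finset.sum_congr rfl fun a _ => ?_
    unfold Kcs
    split_ifs <;> ring
  rw [e2]
  refine hasSum_sum_of_ne_finset_zero fun b hb => ?_
  rw [Finsupp.notMem_support_iff] at hb
  rw [hb]; ring

lemma hasSum_B_sq {s : ℝ} {B : DP} :
    HasSum (fun M : ℕ => B.coeff M ^ 2 * (M : ℝ) ^ (-s)) (BK (K1s s) B B) := by
  have e2 : BK (K1s s) B B = ∑ b ∈ B.coeff.support, B.coeff b ^ 2 * (b : ℝ) ^ (-s) := by
    unfold BK
    rw [pair_def]
    refine Finset.sum_congr rfl fun b hb => ?_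
    have : pair (fun b' => K1s s b b') B = B.coeff b * (b : ℝ) ^ (-s) := by
      rw [pair_def]
      unfold K1s
      simp only [mul_ite, mul_zero]
      rw [Finset.sum_ite_eq, if_pos hb]
    rw [this]
    ring
  rw [e2]
  refine hasSum_sum_of_ne_finset_zero fun b hb => ?_
  rw [Finsupp.notMem_support_iff] at hb
  rw [hb]; ring

theorem eM_sum_le {s : ℝ} (hs : 1 < s) {D B : DP} (hD : ∀ n, D.coeff n ≠ 0 → 1 ≤ n) (N : ℕ) :
    ∑ M ∈ Finset.Icc 1 N, eM D B M ^ 2 * (M : ℝ) ^ (-s)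
      ≤ Zr s * BK (K2s s) D D - 2 * BK (Kcs s) D B + BK (K1s s) B B := by
  have h : HasSum (fun M : ℕ => eM D B M ^ 2 * (M : ℝ) ^ (-s))
      (Zr s * BK (K2s s) D D - 2 * BK (Kcs s) D B + BK (K1s s) B B) := by
    have h1 := ((hasSum_bb_sq hs hD).sub ((hasSum_bb_mul (s := s) (D := D) (B := B)).mul_left 2)).add
      (hasSum_B_sq (s := s) (B := B))
    refine h1.congr_fun ?_
    intro M
    unfold eM
    ring
  refine sum_le_hasSum _ (fun M _ => ?_) h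
  positivity

/-! ### totals over the scales -/

/-- total sum of `p^(-s)` over the scales -/
noncomputable def QT (s : ℝ) (p0 : ℕ) (Y : ℝ) (J : ℕ) : ℝ := ∑ j ∈ Finset.range J, QS s (sc Y p0 j)

lemma QT_nonneg (s : ℝ) (p0 : ℕ) (Y : ℝ) (J : ℕ) : 0 ≤ QT s p0 Y J :=
  Finset.sum_nonneg fun _ _ => QS_nonneg _ _

section tot

variable {s k Y : ℝ} {p0 m J : ℕ}

lemma scp : ∀ j ∈ Finset.range J, ∀ p ∈ sc Y p0 j, p.Prime := fun _ _ _ hp => sc_prime hp

lemma scdis (hY : 0 < Y) : ∀ i ∈ Finset.range J, ∀ j ∈ Finset.range J, i ≠ j →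
    Disjoint (sc Y p0 i) (sc Y p0 j) := fun _ _ _ _ h => sc_disjoint hY h

lemma sup_sc (c : ℝ) : ∀ j ∈ Finset.range J, Sup (Smo (sc Y p0 j : Set ℕ)) (expo c (Mm m j) (sc Y p0 j)) :=
  fun j hj => sup_expo (scp j hj) c _

lemma DD_prod {K : ℕ → ℕ → ℝ} (hK : MK K) (hY : 0 < Y) (c d : ℝ) :
    BK K (DD m p0 c Y J) (DD m p0 d Y J) = ∏ j ∈ Finset.range J,
      BK K (expo c (Mm m j) (sc Y p0 j)) (expo d (Mm m j) (sc Y p0 j)) := by
  unfold DD
  exact BK_prod_MK hK _ _ (scdis hY) _ _ (sup_sc c) (sup_sc d)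

lemma Mm_pos (hm : 1044 ≤ m) (j : ℕ) : 1 ≤ Mm m j := by
  unfold Mm
  exact Nat.mul_pos (by omega) (by positivity)

lemma sum_V2_sc (hY : 0 < Y) (hp0 : 2 ≤ p0) : ∑ j ∈ Finset.range J, V2 (sc Y p0 j) ≤ 1 / p0 :=
  sum_sq_sc_le hY (by omega) J

/-- error parameter -/
noncomputable def xe (p0 m : ℕ) : ℝ := 6 / p0 + tm m

lemma xe_pos : 0 < xe p0 m := by
  unfold xe
  have := tm_pos m
  positivity

lemma DD_K2s (hY : 0 < Y) (hs : 1 ≤ s) (hk0 : 0 ≤ k) (hk : k ≤ 1) (hp0 : 2 ≤ p0) (hm : 1044 ≤ m) :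
    |BK (K2s s) (DD m p0 (-(1 - k)) Y J) (DD m p0 (-(1 - k)) Y J)|
      ≤ Real.exp ((k ^ 2 - 1) * QT s p0 Y J + 3.4 * ∑ j ∈ Finset.range J, V2 (sc Y p0 j) + tm m) := by
  rw [DD_prod (mk_K2s hs) hY, Finset.abs_prod]
  have h1 := sum_tau_le (m := m) (by omega) J
  calc ∏ j ∈ Finset.range J, |BK (K2s s) (expo (-(1 - k)) (Mm m j) (sc Y p0 j))
        (expo (-(1 - k)) (Mm m j) (sc Y p0 j))|
      ≤ ∏ j ∈ Finset.range J, Real.exp ((k ^ 2 - 1) * QS s (sc Y p0 j) + 3.4 * V2 (sc Y p0 j)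
          + tau (Mm m j)) :=
        Finset.prod_le_prod (fun _ _ => abs_nonneg _) fun j hj =>
          expo_K2s (scp j hj) hs hk0 hk (Mm_pos hm j) (VV_sc_le hY p0 j)
    _ = Real.exp ((k ^ 2 - 1) * QT s p0 Y J + 3.4 * (∑ j ∈ Finset.range J, V2 (sc Y p0 j))
          + ∑ j ∈ Finset.range J, tau (Mm m j)) := by
        rw [← Real.exp_sum, Finset.sum_add_distrib, Finset.sum_add_distrib, ← Finset.mul_sum,
          ← Finset.mul_sum]
        rfl
    _ ≤ _ := by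
        apply Real.exp_le_exp.mpr
        linarith

lemma sc_ge_three (hp0 : 2 ≤ p0) (j : ℕ) : ∀ p ∈ sc Y p0 j, 3 ≤ p := by
  intro p hp
  have := (mem_sc.mp hp).2.2.1
  omega

lemma DD_Kcs (hY : 0 < Y) (hs : 1 ≤ s) (hk0 : 0 ≤ k) (hk : k ≤ 1) (hp0 : 2 ≤ p0) (hm : 1044 ≤ m) :
    Real.exp (k ^ 2 * QT s p0 Y J - xe p0 m)
      ≤ BK (Kcs s) (DD m p0 (-(1 - k)) Y J) (DD m p0 k Y J) := by
  rw [DD_prod (mk_Kcs hs) hY]
  have h1 := sum_tau_le (m := m) (by omega) J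
  have h2 := sum_V2_sc (J := J) hY hp0
  calc Real.exp (k ^ 2 * QT s p0 Y J - xe p0 m)
      ≤ Real.exp (k ^ 2 * QT s p0 Y J - 6 * (∑ j ∈ Finset.range J, V2 (sc Y p0 j))
          - ∑ j ∈ Finset.range J, tau (Mm m j)) := by
        apply Real.exp_le_exp.mpr
        have h3 : 6 * (∑ j ∈ Finset.range J, V2 (sc Y p0 j)) ≤ 6 / p0 := by
          calc 6 * (∑ j ∈ Finset.range J, V2 (sc Y p0 j)) ≤ 6 * (1 / p0) := by gcongr
            _ = _ := by ring
        unfold xe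
        linarith
    _ = ∏ j ∈ Finset.range J, Real.exp (k ^ 2 * QS s (sc Y p0 j) - 6 * V2 (sc Y p0 j)
          - tau (Mm m j)) := by
        rw [← Real.exp_sum, Finset.sum_sub_distrib, Finset.sum_sub_distrib, ← Finset.mul_sum,
          ← Finset.mul_sum]
        rfl
    _ ≤ _ := Finset.prod_le_prod (fun _ _ => (Real.exp_pos _).le) fun j hj =>
          expo_Kcs (scp j hj) (sc_ge_three hp0 j) hs hk0 hk (Mm_pos hm j) (tau_Mm_le_one hm j)
            (VV_sc_le hY p0 j)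

lemma DD_K1s_ge (hY : 0 < Y) (hs : 1 ≤ s) (hk0 : 0 ≤ k) (hk : k ≤ 1) (hp0 : 2 ≤ p0) (hm : 1044 ≤ m) :
    Real.exp (k ^ 2 * QT s p0 Y J - xe p0 m)
      ≤ BK (K1s s) (DD m p0 k Y J) (DD m p0 k Y J) := by
  rw [DD_prod (mk_K1s hs) hY]
  have h1 := sum_tau_le (m := m) (by omega) J
  have h2 := sum_V2_sc (J := J) hY hp0
  calc Real.exp (k ^ 2 * QT s p0 Y J - xe p0 m)
      ≤ Real.exp (k ^ 2 * QT s p0 Y J - 6 * (∑ j ∈ Finset.range J, V2 (sc Y p0 j))
          - ∑ j ∈ Finset.range J, tau (Mm m j)) := by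
        apply Real.exp_le_exp.mpr
        have h3 : 6 * (∑ j ∈ Finset.range J, V2 (sc Y p0 j)) ≤ 6 / p0 := by
          calc 6 * (∑ j ∈ Finset.range J, V2 (sc Y p0 j)) ≤ 6 * (1 / p0) := by gcongr
            _ = _ := by ring
        unfold xe
        linarith
    _ = ∏ j ∈ Finset.range J, Real.exp (k ^ 2 * QS s (sc Y p0 j) - 6 * V2 (sc Y p0 j)
          - tau (Mm m j)) := by
        rw [← Real.exp_sum, Finset.sum_sub_distrib, Finset.sum_sub_distrib, ← Finset.mul_sum,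
          ← Finset.mul_sum]
        rfl
    _ ≤ _ := Finset.prod_le_prod (fun _ _ => (Real.exp_pos _).le) fun j hj =>
          expo_K1s_ge (scp j hj) (sc_ge_three hp0 j) hs hk0 hk (Mm_pos hm j) (tau_Mm_le_one hm j)
            (VV_sc_le hY p0 j)

lemma DD_K1s_le (hY : 0 < Y) (hs : 1 ≤ s) (hk0 : 0 ≤ k) (hk : k ≤ 1) (hp0 : 2 ≤ p0) (hm : 1044 ≤ m) :
    BK (K1s s) (DD m p0 k Y J) (DD m p0 k Y J) ≤ Real.exp (k ^ 2 * QT s p0 Y J + xe p0 m) := by
  rw [DD_prod (mk_K1s hs) hY]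
  have h1 := sum_tau_le (m := m) (by omega) J
  have h2 := sum_V2_sc (J := J) hY hp0
  have h0 : 0 ≤ ∑ j ∈ Finset.range J, V2 (sc Y p0 j) := Finset.sum_nonneg fun j _ => V2_nonneg _
  calc ∏ j ∈ Finset.range J, BK (K1s s) (expo k (Mm m j) (sc Y p0 j)) (expo k (Mm m j) (sc Y p0 j))
      ≤ ∏ j ∈ Finset.range J, Real.exp (k ^ 2 * QS s (sc Y p0 j) + 3.4 * V2 (sc Y p0 j)
          + tau (Mm m j)) :=
        Finset.prod_le_prod (fun j hj => (Real.exp_pos _).le.trans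
          (expo_K1s_ge (scp j hj) (sc_ge_three hp0 j) hs hk0 hk (Mm_pos hm j) (tau_Mm_le_one hm j)
            (VV_sc_le hY p0 j))) fun j hj =>
          expo_K1s_le (scp j hj) (sc_ge_three hp0 j) hs hk0 hk (Mm_pos hm j) (VV_sc_le hY p0 j)
    _ = Real.exp (k ^ 2 * QT s p0 Y J + 3.4 * (∑ j ∈ Finset.range J, V2 (sc Y p0 j))
          + ∑ j ∈ Finset.range J, tau (Mm m j)) := by
        rw [← Real.exp_sum, Finset.sum_add_distrib, Finset.sum_add_distrib, ← Finset.mul_sum,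
          ← Finset.mul_sum]
        rfl
    _ ≤ _ := by
        apply Real.exp_le_exp.mpr
        have h3 : 3.4 * (∑ j ∈ Finset.range J, V2 (sc Y p0 j)) ≤ 6 / p0 := by
          calc 3.4 * (∑ j ∈ Finset.range J, V2 (sc Y p0 j)) ≤ 6 * (1 / p0) := by gcongr; norm_num
            _ = _ := by ring
        unfold xe
        linarith

end tot

end Pool.Agent.Lib.MP_f9aece_nt_h97
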