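import Mathlib
import Pool.Agent.Lib.MP_f9aece_nt_h97.OffF3

/-!
The diagonal energy of `zeta * D - B` against the mean square of `B`.
-/

set_option autoImplicit false

namespace Pool.Agent.Lib.MP_f9aece_nt_h97

open MeasureTheory Set Filter Topology Complex
open Pool.Agent.Lib.MP_f9aece_nt

lemma Psm_prime {p0 : ℕ} : ∀ p ∈ Psm p0, p.Prime := fun _ hp => (Finset.mem_filter.mp hp).2

lemma sup_loc_sm {p : ℕ} (hp : p.Prime) :
    Sup (Smo (({p} : Finset ℕ) : Set ℕ)) (1 - MonoidAlgebra.single p (1 : ℝ)) :=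
  (Sup.one (one_mem_Smo _)).sub (Sup.single (prime_mem_Smo hp (by simp)) 1)

lemma sup_Dsm (p0 : ℕ) : Sup (Smo (Psm p0 : Set ℕ)) (Dsm p0) := by
  unfold Dsm
  refine Sup.prod _ (fun p hp => ?_) (one_mem_Smo _) (fun a ha b hb => mul_mem_Smo ha hb)
  exact (sup_loc_sm (Psm_prime p hp)).mono (Smo_mono (by simpa using hp))

lemma one_sub_single (p : ℕ) :
    (1 - MonoidAlgebra.single p (1 : ℝ) : DP) = MonoidAlgebra.single 1 1 + MonoidAlgebra.single p (-1) := by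
  rw [MonoidAlgebra.one_def, MonoidAlgebra.single_neg, sub_eq_add_neg]

lemma Dsm_K2s {s : ℝ} (hs : 1 ≤ s) (p0 : ℕ) :
    BK (K2s s) (Dsm p0) (Dsm p0) = ∏ p ∈ Psm p0, (1 - (p : ℝ) ^ (-s)) := by
  unfold Dsm
  rw [BK_prod_MK (mk_K2s hs) (Psm p0) (fun p => {p}) disj_single _ _
    (fun p hp => sup_loc_sm (Psm_prime p hp)) (fun p hp => sup_loc_sm (Psm_prime p hp))]
  refine Finset.prod_congr rfl fun p _ => ?_
  rw [one_sub_single, BK_add_left, BK_add_right, BK_add_right, BK_single, BK_single, BK_single,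
    BK_single]
  unfold K2s
  simp
  ring

lemma Dsm_Kcs {s : ℝ} (hs : 1 ≤ s) (p0 : ℕ) : BK (Kcs s) (Dsm p0) 1 = 1 := by
  have h := BK_prod_MK (mk_Kcs hs) (Psm p0) (fun p => {p}) disj_single
    (fun p => (1 - MonoidAlgebra.single p (1 : ℝ) : DP)) (fun _ => 1)
    (fun p hp => sup_loc_sm (Psm_prime p hp)) (fun p _ => Sup.one (one_mem_Smo _))
  rw [Finset.prod_const_one] at h
  unfold Dsm
  rw [h]
  refine Finset.prod_eq_one fun p hp => ?_
  rw [one_sub_single, BK_add_left, MonoidAlgebra.one_def, BK_single, BK_single]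
  unfold Kcs
  rw [if_pos (one_dvd 1), if_neg]
  · simp
  · intro h1
    exact (Psm_prime p hp).one_lt.ne' (Nat.dvd_one.mp h1)

section tot

variable {s k Y : ℝ} {p0 m J : ℕ}

lemma sup_DD (c : ℝ) : Sup (Smo (⋃ j ∈ Finset.range J, (sc Y p0 j : Set ℕ))) (DD m p0 c Y J) :=
  sup_prod_Smo _ _ _ (sup_sc c)

lemma disj_Psm : Disjoint (Psm p0 : Set ℕ) (⋃ j ∈ Finset.range J, (sc Y p0 j : Set ℕ)) := by
  rw [Set.disjoint_iUnion₂_right]
  intro j _
  rw [Finset.disjoint_coe, Finset.disjoint_left]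
  intro p hp hpj
  have h1 := (mem_sc.mp hpj).2.2.1
  have h2 := (Finset.mem_Ioc.mp (Finset.mem_filter.mp hp).1).2
  omega

lemma Dm_K2s (hs : 1 ≤ s) (a : ℝ) :
    BK (K2s s) (Dm m p0 a Y J) (Dm m p0 a Y J)
      = (∏ p ∈ Psm p0, (1 - (p : ℝ) ^ (-s))) * BK (K2s s) (DD m p0 (-a) Y J) (DD m p0 (-a) Y J) := by
  unfold Dm
  rw [BK_mul_sup (K2s s) (sup_Dsm p0) (sup_Dsm p0) (sup_DD _) (sup_DD _)
    ((mk_K2s hs).2.2.2 _ _ disj_Psm), Dsm_K2s hs]

lemma Dm_Kcs (hs : 1 ≤ s) (a k : ℝ) :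
    BK (Kcs s) (Dm m p0 a Y J) (Bm m p0 k Y J)
      = BK (Kcs s) (DD m p0 (-a) Y J) (DD m p0 k Y J) := by
  unfold Dm Bm
  have h := BK_mul_sup (Kcs s) (sup_Dsm p0) (Sup.one (one_mem_Smo (Psm p0 : Set ℕ)))
    (sup_DD (m := m) (p0 := p0) (Y := Y) (J := J) (-a)) (sup_DD (m := m) (p0 := p0) (Y := Y) (J := J) k)
    ((mk_Kcs hs).2.2.2 _ _ disj_Psm)
  rw [one_mul, Dsm_Kcs hs, one_mul] at h
  exact h

lemma Dm_supp (a : ℝ) : ∀ n, (Dm m p0 a Y J).coeff n ≠ 0 → 1 ≤ n := by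
  intro n hn
  have h : Sup (Smo (Set.univ : Set ℕ)) (Dm m p0 a Y J) := by
    unfold Dm
    exact ((sup_Dsm p0).mono (Smo_mono (Set.subset_univ _))).mul
      ((sup_DD _).mono (Smo_mono (Set.subset_univ _))) (fun a ha b hb => mul_mem_Smo ha hb)
  exact Smo_pos (h n hn)

/-- the primes of the scales -/
lemma scales_eq (hY : 0 < Y) (hJ : Y / 4 ^ J < Real.log 2) :
    (Finset.Ioc p0 ⌊Real.exp Y⌋₊).filter Nat.Prime = (Finset.range J).biUnion (sc Y p0) := by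
  classical
  ext p
  rw [Finset.mem_filter, Finset.mem_Ioc, Finset.mem_biUnion]
  constructor
  · rintro ⟨⟨h, hple⟩, hp1⟩
    have hp0' : (0 : ℝ) < p := by exact_mod_cast hp1.pos
    have hlogp : Real.log p ≤ Y := by
      rw [Real.log_le_iff_le_exp hp0']
      exact (Nat.le_floor_iff (Real.exp_pos Y).le).mp hple
    have hlog2 : Real.log 2 ≤ Real.log p := by
      apply Real.log_le_log (by norm_num)
      exact_mod_cast hp1.two_le
    have hex : ∃ j, Y / 4 ^ (j + 1) < Real.log p := by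
      refine ⟨J, ?_⟩
      have : Y / 4 ^ (J + 1) ≤ Y / 4 ^ J := by
        apply div_le_div_of_nonneg_left hY.le (by positivity)
        exact pow_le_pow_right₀ (by norm_num) (by omega)
      linarith
    set j := Nat.find hex with hj
    have hj1 : Y / 4 ^ (j + 1) < Real.log p := Nat.find_spec hex
    have hj2 : Real.log p ≤ Y / 4 ^ j := by
      rcases Nat.eq_zero_or_pos j with h0 | h0
      · rw [h0]; simpa using hlogp
      · have := Nat.find_min hex (m := j - 1) (by omega)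
        rw [not_lt] at this
        have e : j - 1 + 1 = j := by omega
        rw [e] at this
        exact this
    have hjJ : j < J := by
      by_contra hcon
      rw [not_lt] at hcon
      have : Y / 4 ^ j ≤ Y / 4 ^ J := by
        apply div_le_div_of_nonneg_left hY.le (by positivity)
        exact pow_le_pow_right₀ (by norm_num) hcon
      linarith
    refine ⟨j, Finset.mem_range.mpr hjJ, ?_⟩
    rw [mem_sc, Finset.mem_Icc]
    exact ⟨⟨hp1.one_le, hple⟩, hp1, h, hj1, hj2⟩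
  · rintro ⟨j, _, hj⟩
    rw [mem_sc, Finset.mem_Icc] at hj
    exact ⟨⟨hj.2.2.1, hj.1.2⟩, hj.2.1⟩

lemma QT_eq (hY : 0 < Y) (hJ : Y / 4 ^ J < Real.log 2) :
    QT s p0 Y J = ∑ p ∈ (Finset.Ioc p0 ⌊Real.exp Y⌋₊).filter Nat.Prime, (p : ℝ) ^ (-s) := by
  classical
  rw [scales_eq hY hJ, Finset.sum_biUnion]
  · rfl
  · intro i _ j _ hij
    exact sc_disjoint hY hij

/-- Euler product over the primes up to `e^Y` -/
lemma euler_le (hY : 0 < Y) (hJ : Y / 4 ^ J < Real.log 2) (hs : 1 ≤ s) (hp0Y : p0 ≤ ⌊Real.exp Y⌋₊) :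
    (∏ p ∈ (Finset.Ioc 0 ⌊Real.exp Y⌋₊).filter Nat.Prime, (1 - (p : ℝ) ^ (-s))⁻¹)
        * ∏ p ∈ Psm p0, (1 - (p : ℝ) ^ (-s))
      ≤ Real.exp (QT s p0 Y J + 2 * ∑ j ∈ Finset.range J, V2 (sc Y p0 j)) := by
  classical
  have h1 : (Finset.Ioc 0 ⌊Real.exp Y⌋₊).filter Nat.Prime
      = Psm p0 ∪ (Finset.Ioc p0 ⌊Real.exp Y⌋₊).filter Nat.Prime := by
    unfold Psm
    rw [← Finset.filter_union, Finset.Ioc_union_Ioc_eq_Ioc (Nat.zero_le _) hp0Y]
  have h2 : Disjoint (Psm p0) ((Finset.Ioc p0 ⌊Real.exp Y⌋₊).filter Nat.Prime) := by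
    rw [Finset.disjoint_left]
    intro p hp hpj
    have h3 := (Finset.mem_Ioc.mp (Finset.mem_filter.mp hpj).1).1
    have h4 := (Finset.mem_Ioc.mp (Finset.mem_filter.mp hp).1).2
    omega
  rw [h1, Finset.prod_union h2]
  have h3 : (∏ p ∈ Psm p0, (1 - (p : ℝ) ^ (-s))⁻¹) * ∏ p ∈ Psm p0, (1 - (p : ℝ) ^ (-s)) = 1 := by
    rw [← Finset.prod_mul_distrib]
    refine Finset.prod_eq_one fun p hp => ?_
    obtain ⟨_, _, h⟩ := q_bounds (Psm_prime p hp) hs
    exact inv_mul_cancel₀ (by linarith)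
  rw [mul_right_comm, h3, one_mul, QT_eq hY hJ]
  have h4 : ∑ j ∈ Finset.range J, V2 (sc Y p0 j)
      = ∑ p ∈ (Finset.Ioc p0 ⌊Real.exp Y⌋₊).filter Nat.Prime, ((p : ℝ)⁻¹) ^ 2 := by
    rw [scales_eq hY hJ, Finset.sum_biUnion]
    · rfl
    · intro i _ j _ hij
      exact sc_disjoint hY hij
  rw [h4, Finset.mul_sum, ← Finset.sum_add_distrib, Real.exp_sum]
  refine Finset.prod_le_prod (fun p hp => ?_) fun p hp => ?_
  · obtain ⟨_, _, h⟩ := q_bounds (Finset.mem_filter.mp hp).2 hs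
    exact inv_nonneg.mpr (by linarith)
  · have hpp := (Finset.mem_filter.mp hp).2
    obtain ⟨hq0, hq1, hq2⟩ := q_bounds hpp hs
    have hsq := q_sq_le hs hpp
    set q := (p : ℝ) ^ (-s) with hq
    have h5 := exp_sub_two_sq_le (x := -q) (by linarith)
    rw [inv_le_comm₀ (by linarith) (Real.exp_pos _), ← Real.exp_neg]
    refine le_trans (Real.exp_le_exp.mpr ?_) (h5.trans (le_of_eq (by ring)))
    nlinarith

/-- the diagonal energy is a small multiple of the mean square of `B` -/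
theorem energy_forms {δ ε : ℝ} (hδ : 0 < δ) (hk0 : 0 ≤ k) (hk : k ≤ 1) (hY : 0 < Y)
    (hp0 : 2 ≤ p0) (hp0Y : p0 ≤ ⌊Real.exp Y⌋₊) (hm : 1044 ≤ m) (hJ : Y / 4 ^ J < Real.log 2)
    (hε : 0 ≤ ε)
    (hZ : ‖riemannZeta (1 + 2 * (δ : ℂ))‖
      ≤ (1 + ε) * ∏ p ∈ (Finset.Ioc 0 ⌊Real.exp Y⌋₊).filter Nat.Prime, (1 - (p : ℝ) ^ (-(1 + 2 * δ)))⁻¹)
    (N : ℕ) :
    ∑ M ∈ Finset.Icc 1 N, eM (Dm m p0 (1 - k) Y J) (Bm m p0 k Y J) M ^ 2 * (M : ℝ) ^ (-(1 + 2 * δ))
      ≤ ((3 + ε) * Real.exp (2 * xe p0 m) - 3)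
        * BK (K1s (1 + 2 * δ)) (Bm m p0 k Y J) (Bm m p0 k Y J) := by
  have hs : (1 : ℝ) < 1 + 2 * δ := by linarith
  set s := 1 + 2 * δ with hsdef
  have hZr : Zr s ≤ (1 + ε) * ∏ p ∈ (Finset.Ioc 0 ⌊Real.exp Y⌋₊).filter Nat.Prime, (1 - (p : ℝ) ^ (-s))⁻¹ := by
    rw [← Zr_eq hs, hsdef]
    push_cast
    exact hZ
  refine (eM_sum_le hs (Dm_supp _) N).trans ?_
  rw [Dm_K2s hs.le, Dm_Kcs hs.le]
  set x := xe p0 m with hx
  have hx0 : 0 < x := xe_pos
  set V := ∑ j ∈ Finset.range J, V2 (sc Y p0 j) with hV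
  have hV0 : 0 ≤ V := Finset.sum_nonneg fun j _ => V2_nonneg _
  have hV1 : V ≤ 1 / p0 := sum_V2_sc hY hp0
  have h1 := DD_K2s (s := s) (k := k) (J := J) hY hs.le hk0 hk hp0 hm
  have h2 := DD_Kcs (s := s) (k := k) (J := J) hY hs.le hk0 hk hp0 hm
  have h3 := DD_K1s_ge (s := s) (k := k) (J := J) hY hs.le hk0 hk hp0 hm
  have h4 := DD_K1s_le (s := s) (k := k) (J := J) hY hs.le hk0 hk hp0 hm
  have h5 := euler_le (s := s) (J := J) hY hJ hs.le hp0Y
  rw [← hx] at h2 h3 h4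
  rw [← hV] at h1 h5
  set F1 := BK (K2s s) (DD m p0 (-(1 - k)) Y J) (DD m p0 (-(1 - k)) Y J) with hF1
  set F2 := BK (Kcs s) (DD m p0 (-(1 - k)) Y J) (DD m p0 k Y J) with hF2
  have eB : BK (K1s s) (Bm m p0 k Y J) (Bm m p0 k Y J)
      = BK (K1s s) (DD m p0 k Y J) (DD m p0 k Y J) := rfl
  rw [eB]
  set E := BK (K1s s) (DD m p0 k Y J) (DD m p0 k Y J) with hE
  set P := ∏ p ∈ Psm p0, (1 - (p : ℝ) ^ (-s)) with hP
  have hP0 : 0 ≤ P := Finset.prod_nonneg fun p hp => by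
    obtain ⟨_, _, h⟩ := q_bounds (Psm_prime p hp) hs.le
    linarith
  set Q := QT s p0 Y J with hQ
  set A := ∏ p ∈ (Finset.Ioc 0 ⌊Real.exp Y⌋₊).filter Nat.Prime, (1 - (p : ℝ) ^ (-s))⁻¹ with hA
  set G := Real.exp (k ^ 2 * Q) with hG
  have hG0 : 0 < G := Real.exp_pos _
  have hE1 : G ≤ E * Real.exp x := by
    calc G = Real.exp (k ^ 2 * Q - x) * Real.exp x := by rw [← Real.exp_add, hG]; congr 1; ring
      _ ≤ _ := by gcongr
  have hE2 : E ≤ G * Real.exp x := by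
    refine h4.trans (le_of_eq ?_)
    rw [hG, ← Real.exp_add]
  have hF2' : G * Real.exp (-x) ≤ F2 := by
    refine le_trans (le_of_eq ?_) h2
    rw [hG, ← Real.exp_add]; rfl
  have hE0 : 0 < E := lt_of_lt_of_le (Real.exp_pos _) h3
  have hZF : Zr s * (P * F1) ≤ (1 + ε) * (G * Real.exp x) := by
    have hPF : P * F1 ≤ P * |F1| := mul_le_mul_of_nonneg_left (le_abs_self _) hP0
    calc Zr s * (P * F1) ≤ Zr s * (P * |F1|) := mul_le_mul_of_nonneg_left hPF (Zr_nonneg s)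
      _ ≤ ((1 + ε) * A) * (P * |F1|) := mul_le_mul_of_nonneg_right hZr (by positivity)
      _ = (1 + ε) * ((A * P) * |F1|) := by ring
      _ ≤ (1 + ε) * (Real.exp (Q + 2 * V) * Real.exp ((k ^ 2 - 1) * Q + 3.4 * V + tm m)) := by
          gcongr
      _ ≤ (1 + ε) * (G * Real.exp x) := by
          rw [← Real.exp_add, hG, ← Real.exp_add]
          refine mul_le_mul_of_nonneg_left (Real.exp_le_exp.mpr ?_) (by linarith)
          have h9 : 5.4 * V ≤ 6 / p0 := by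
            calc 5.4 * V ≤ 6 * (1 / p0) := by
                  have : 0 ≤ 1 / (p0 : ℝ) := by positivity
                  linarith
              _ = _ := by ring
          rw [hx]
          unfold xe
          linarith
  -- combination
  have hGE : G * Real.exp x ≤ E * Real.exp (2 * x) := by
    calc G * Real.exp x ≤ (E * Real.exp x) * Real.exp x := by gcongr
      _ = _ := by rw [mul_assoc, ← Real.exp_add]; congr 2; ring
  have hkey : Zr s * (P * F1) - 2 * F2 + E ≤ (1 + ε) * (G * Real.exp x) - 2 * (G * Real.exp (-x)) + E := by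
    linarith
  refine hkey.trans ?_
  -- G e^{-x} ≥ E e^{-2x}
  have hGm : E * Real.exp (-(2 * x)) ≤ G * Real.exp (-x) := by
    calc E * Real.exp (-(2 * x)) ≤ (G * Real.exp x) * Real.exp (-(2 * x)) := by gcongr
      _ = _ := by rw [mul_assoc, ← Real.exp_add]; congr 2; ring
  have h6 : 2 - Real.exp (2 * x) ≤ Real.exp (-(2 * x)) := by
    have h7 := Real.add_one_le_exp (-(2 * x))
    have h8 : Real.exp (-(2 * x)) * Real.exp (2 * x) = 1 := by
      rw [← Real.exp_add]; simp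
    have h9 := Real.exp_pos (-(2 * x))
    have h10 := Real.exp_pos (2 * x)
    nlinarith [sq_nonneg (Real.exp (2 * x) - 1)]
  have h7 : E * (2 - Real.exp (2 * x)) ≤ E * Real.exp (-(2 * x)) := by gcongr
  calc (1 + ε) * (G * Real.exp x) - 2 * (G * Real.exp (-x)) + E
      ≤ (1 + ε) * (E * Real.exp (2 * x)) - 2 * (E * Real.exp (-(2 * x))) + E := by
        have := mul_le_mul_of_nonneg_left hGE (by linarith : 0 ≤ 1 + ε)
        linarith
    _ ≤ (1 + ε) * (E * Real.exp (2 * x)) - 2 * (E * (2 - Real.exp (2 * x))) + E := by linarith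
    _ = _ := by ring

end tot

end Pool.Agent.Lib.MP_f9aece_nt_h97
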