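import Mathlib

/-!
Plancherel's theorem for functions that are both integrable and square integrable, and the
resulting inequality for Mellin transforms on the critical line.
-/

set_option autoImplicit false

namespace Pool.Agent.Lib.MP_f9aece_nt_h97

open MeasureTheory Set Filter Topology Complex FourierTransform
open scoped ENNReal ContDiff SchwartzMap

/-- the `L²` Fourier transform agrees with the Fourier integral on `L¹ ∩ L²` -/
lemma fourier_toLp_ae {f : ℝ → ℂ} (hf1 : Integrable f) (hf2 : MemLp f 2) :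
    (𝓕 (hf2.toLp f) : Lp ℂ 2 (volume : Measure ℝ)) =ᵐ[volume] 𝓕 f := by
  have hcont : Continuous (𝓕 f) :=
    VectorFourier.fourierIntegral_continuous Real.continuous_fourierChar
      (by exact continuous_inner) hf1
  refine ae_eq_of_integral_contDiff_smul_eq ?_ hcont.locallyIntegrable ?_
  · exact (Lp.memLp _).locallyIntegrable (by norm_num)
  · intro g g_smooth g_cpt
    have hg₁ : HasCompactSupport (Complex.ofRealCLM ∘ g) := g_cpt.comp_left rfl
    have hg₂ : ContDiff ℝ ∞ (Complex.ofRealCLM ∘ g) := by fun_prop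
    set ψ : 𝓢(ℝ, ℂ) := hg₁.toSchwartzMap hg₂ with hψ
    have h1 := congrArg (fun T : 𝓢'(ℝ, ℂ) => T ψ)
      (Lp.fourier_toTemperedDistribution_eq (hf2.toLp f))
    simp only [TemperedDistribution.fourier_apply, Lp.toTemperedDistribution_apply] at h1
    have h2 : ∫ x : ℝ, (𝓕 ψ) x • (hf2.toLp f : ℝ → ℂ) x = ∫ x : ℝ, (𝓕 ψ) x • f x := by
      refine integral_congr_ae ?_
      filter_upwards [hf2.coeFn_toLp] with x hx
      rw [hx]
    have h3 : ∫ x : ℝ, (𝓕 ψ) x • f x = ∫ x : ℝ, ψ x • 𝓕 f x := by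
      have := VectorFourier.integral_fourierIntegral_smul_eq_flip (μ := (volume : Measure ℝ))
        (ν := (volume : Measure ℝ)) (L := innerₗ ℝ) (f := (ψ : ℝ → ℂ)) (g := f)
        Real.continuous_fourierChar continuous_inner ψ.integrable hf1
      rw [flip_innerₗ] at this
      exact this
    have h4 : ∀ (F : ℝ → ℂ), ∫ x : ℝ, g x • F x = ∫ x : ℝ, ψ x • F x := by
      intro F
      refine integral_congr_ae (Eventually.of_forall fun x => ?_)
      simp [hψ]
    rw [h4, h4, ← h3, ← h2, h1]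

theorem plancherel {f : ℝ → ℂ} (hf1 : Integrable f) (hf2 : MemLp f 2) :
    eLpNorm (𝓕 f) 2 = eLpNorm f 2 := by
  rw [← eLpNorm_congr_ae (fourier_toLp_ae hf1 hf2)]
  have h1 := Lp.norm_fourier_eq (hf2.toLp f)
  rw [Lp.norm_def, Lp.norm_def] at h1
  have h2 := (ENNReal.toReal_eq_toReal_iff' (Lp.eLpNorm_ne_top _) (Lp.eLpNorm_ne_top _)).mp h1
  rw [h2, eLpNorm_congr_ae hf2.coeFn_toLp]

theorem plancherel_integral {f : ℝ → ℂ} (hf1 : Integrable f) (hf2 : MemLp f 2) :
    MemLp (𝓕 f) 2 ∧ ∫ t, ‖𝓕 f t‖ ^ 2 = ∫ x, ‖f x‖ ^ 2 := by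
  have hcont : Continuous (𝓕 f) :=
    VectorFourier.fourierIntegral_continuous Real.continuous_fourierChar
      (by exact continuous_inner) hf1
  have hm : MemLp (𝓕 f) 2 := by
    refine ⟨hcont.aestronglyMeasurable, ?_⟩
    rw [plancherel hf1 hf2]
    exact hf2.2
  refine ⟨hm, ?_⟩
  have h1 := plancherel hf1 hf2
  have key : ∀ g : ℝ → ℂ, MemLp g 2 → ∫ t, ‖g t‖ ^ 2 = (eLpNorm g 2).toReal ^ 2 := by
    intro g hg
    rw [hg.eLpNorm_eq_integral_rpow_norm (by norm_num) (by norm_num)]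
    have h0 : 0 ≤ ∫ t, ‖g t‖ ^ 2 := integral_nonneg fun t => by positivity
    rw [ENNReal.toReal_ofReal (by positivity)]
    simp only [ENNReal.toReal_ofNat]
    have h3 : ∀ t, ‖g t‖ ^ (2 : ℝ) = ‖g t‖ ^ 2 := fun t => by
      rw [← Real.rpow_natCast]; norm_num
    simp_rw [h3]
    rw [← Real.rpow_natCast, ← Real.rpow_mul h0]
    norm_num
  rw [key _ hm, key _ hf2, h1]

end Pool.Agent.Lib.MP_f9aece_nt_h97
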