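import Mathlib
import Pool.Agent.Lib.MP_f9aece_nt_h97.Planch

/-!
The Plancherel inequality for Mellin transforms of real functions on the critical line.
-/

set_option autoImplicit false

namespace Pool.Agent.Lib.MP_f9aece_nt_h97

open MeasureTheory Set Filter Topology Complex FourierTransform
open scoped ENNReal ContDiff SchwartzMap ComplexConjugate

private lemma dneg : ∀ x ∈ univ, HasDerivWithinAt (Real.exp ∘ Neg.neg) (-Real.exp (-x)) univ x :=
  fun x _ ↦ mul_neg_one (Real.exp (-x)) ▸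
    ((Real.hasDerivAt_exp (-x)).comp x (hasDerivAt_neg x)).hasDerivWithinAt

private lemma ineg : Real.exp ∘ Neg.neg '' univ = Ioi 0 := by
  rw [Set.image_comp, Set.image_univ_of_surjective neg_surjective, Set.image_univ, Real.range_exp]

private lemma jneg : univ.InjOn (Real.exp ∘ Neg.neg) :=
  Real.exp_injective.injOn.comp neg_injective.injOn (univ.mapsTo_univ _)

lemma integrableOn_exp_iff {E : Type*} [NormedAddCommGroup E] [NormedSpace ℝ E] (f : ℝ → E) :
    IntegrableOn f (Ioi 0) ↔ Integrable (fun u : ℝ => Real.exp (-u) • f (Real.exp (-u))) := by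
  rw [← ineg, integrableOn_image_iff_integrableOn_abs_deriv_smul MeasurableSet.univ dneg jneg]
  simp [integrableOn_univ]

lemma integral_exp_eq {E : Type*} [NormedAddCommGroup E] [NormedSpace ℝ E] (f : ℝ → E) :
    ∫ x in Ioi (0 : ℝ), f x = ∫ u : ℝ, Real.exp (-u) • f (Real.exp (-u)) := by
  rw [← ineg, integral_image_eq_integral_abs_deriv_smul MeasurableSet.univ dneg jneg]
  simp

lemma fourier_conj_neg (f : ℝ → ℝ) (t : ℝ) :
    𝓕 (fun u => (f u : ℂ)) (-t) = conj (𝓕 (fun u => (f u : ℂ)) t) := by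
  rw [Real.fourier_real_eq_integral_exp_smul, Real.fourier_real_eq_integral_exp_smul,
    ← integral_conj]
  refine integral_congr_ae (Eventually.of_forall fun u => ?_)
  simp only [smul_eq_mul, map_mul, Complex.conj_ofReal, ← Complex.exp_conj, Complex.conj_I]
  congr 2
  push_cast
  ring

theorem mellin_plancherel {f : ℝ → ℝ}
    (h1 : IntegrableOn (fun x => x ^ (-(1 / 2) : ℝ) * f x) (Ioi 0))
    (h2 : IntegrableOn (fun x => f x ^ 2) (Ioi 0)) {T : ℝ} (hT : 0 ≤ T) :
    IntervalIntegrable (fun t : ℝ => ‖mellin (fun x => (f x : ℂ)) (1 / 2 + I * t)‖ ^ 2) volume 0 T ∧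
    ∫ t in (0 : ℝ)..T, ‖mellin (fun x => (f x : ℂ)) (1 / 2 + I * t)‖ ^ 2
      ≤ Real.pi * ∫ x in Ioi (0 : ℝ), f x ^ 2 := by
  set g : ℝ → ℝ := fun u => Real.exp (-(1 / 2) * u) * f (Real.exp (-u)) with hg
  have e1 : ∀ u : ℝ, Real.exp (-u) • ((Real.exp (-u)) ^ (-(1 / 2) : ℝ) * f (Real.exp (-u))) = g u := by
    intro u
    rw [smul_eq_mul, ← Real.exp_mul, ← mul_assoc, ← Real.exp_add, hg]
    congr 2
    ring
  have e2 : ∀ u : ℝ, Real.exp (-u) • (f (Real.exp (-u)) ^ 2) = g u ^ 2 := by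
    intro u
    rw [smul_eq_mul, hg]
    simp only
    rw [mul_pow, ← Real.exp_nat_mul]
    congr 2
    push_cast
    ring
  have hgi : Integrable g := by
    have := (integrableOn_exp_iff _).mp h1
    simp_rw [e1] at this
    exact this
  have hg2 : Integrable (fun u => g u ^ 2) := by
    have := (integrableOn_exp_iff _).mp h2
    simp_rw [e2] at this
    exact this
  have hgc : Integrable (fun u => (g u : ℂ)) := hgi.ofReal
  have hgm : MemLp (fun u => (g u : ℂ)) 2 := by
    rw [memLp_two_iff_integrable_sq_norm hgc.aestronglyMeasurable]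
    simpa using hg2
  obtain ⟨hm, hp⟩ := plancherel_integral hgc hgm
  set F : ℝ → ℂ := 𝓕 (fun u => (g u : ℂ)) with hF
  have e3 : ∀ t : ℝ, mellin (fun x => (f x : ℂ)) (1 / 2 + I * t) = F (t / (2 * Real.pi)) := by
    intro t
    rw [mellin_eq_fourier]
    have r1 : (1 / 2 + I * t : ℂ).re = 1 / 2 := by simp
    have r2 : (1 / 2 + I * t : ℂ).im = t := by simp
    rw [r1, r2, hF]
    have e4 : (fun u : ℝ => Real.exp (-(1 / 2) * u) • ((f (Real.exp (-u)) : ℝ) : ℂ))
        = fun u => (g u : ℂ) := by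
      funext u
      rw [hg]
      simp only [Complex.real_smul]
      push_cast
      ring
    rw [e4]
  have hsq : Integrable (fun v => ‖F v‖ ^ 2) := by
    have := (memLp_two_iff_integrable_sq_norm hm.1).mp hm
    exact this
  have hcF : Continuous F :=
    VectorFourier.fourierIntegral_continuous Real.continuous_fourierChar
      (by exact continuous_inner) hgc
  simp_rw [e3]
  have h2pi : (0 : ℝ) < 2 * Real.pi := by positivity
  refine ⟨(by fun_prop : Continuous fun t : ℝ => ‖F (t / (2 * Real.pi))‖ ^ 2).intervalIntegrable _ _, ?_⟩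
  have s1 : ∫ t in (0 : ℝ)..T, ‖F (t / (2 * Real.pi))‖ ^ 2
      = (2 * Real.pi) * ∫ v in (0 : ℝ)..(T / (2 * Real.pi)), ‖F v‖ ^ 2 := by
    rw [intervalIntegral.integral_comp_div (fun v => ‖F v‖ ^ 2) h2pi.ne', zero_div, smul_eq_mul]
  have hsym : ∀ v, ‖F (-v)‖ ^ 2 = ‖F v‖ ^ 2 := by
    intro v
    rw [hF, fourier_conj_neg, RCLike.norm_conj]
  have s2 : ∫ v in (0 : ℝ)..(T / (2 * Real.pi)), ‖F v‖ ^ 2 ≤ ∫ v in Ioi (0 : ℝ), ‖F v‖ ^ 2 := by
    rw [intervalIntegral.integral_of_le (by positivity)]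
    refine setIntegral_mono_set hsq.integrableOn (Eventually.of_forall fun v => by positivity) ?_
    exact (Ioc_subset_Ioi_self).eventuallyLE
  have s3 : ∫ v : ℝ, ‖F v‖ ^ 2 = 2 * ∫ v in Ioi (0 : ℝ), ‖F v‖ ^ 2 := by
    have h5 := integral_comp_abs (f := fun v => ‖F v‖ ^ 2)
    rw [← h5]
    refine integral_congr_ae (Eventually.of_forall fun v => ?_)
    simp only
    rcases abs_cases v with ⟨h, _⟩ | ⟨h, _⟩
    · rw [h]
    · rw [h, hsym]
  have s4 : ∫ x in Ioi (0 : ℝ), f x ^ 2 = ∫ u, ‖(g u : ℂ)‖ ^ 2 := by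
    rw [integral_exp_eq]
    simp_rw [e2]
    refine integral_congr_ae (Eventually.of_forall fun v => ?_)
    simp
  rw [s1, s4, ← hp, s3]
  nlinarith [Real.pi_pos]

end Pool.Agent.Lib.MP_f9aece_nt_h97
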