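import Mathlib
import Pool.Agent.Lib.MP_f9aece_nt.EM

/-!
Muentz's formula on the critical line for a compactly supported Lipschitz function.
-/

set_option autoImplicit false

namespace Pool.Agent.Lib.MP_f9aece_nt_h97

open MeasureTheory Set Filter Topology Complex

/-- a continuous Lipschitz function supported in `[1/2, 2]` -/
structure Bmp (φ : ℝ → ℝ) : Prop where
  cont : Continuous φ
  supp : ∀ y, φ y ≠ 0 → 1 / 2 ≤ y ∧ y ≤ 2
  lip : ∃ K : ℝ, 0 ≤ K ∧ ∀ x y, |φ x - φ y| ≤ K * |x - y|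

/-- the primitive -/
noncomputable def G1 (φ : ℝ → ℝ) (y : ℝ) : ℝ := ∫ u in (0 : ℝ)..y, φ u

namespace Bmp

variable {φ : ℝ → ℝ} (hφ : Bmp φ)

include hφ

lemma zero_of_lt {y : ℝ} (hy : y < 1 / 2) : φ y = 0 := by
  by_contra h
  linarith [(hφ.supp y h).1]

lemma zero_of_gt {y : ℝ} (hy : 2 < y) : φ y = 0 := by
  by_contra h
  linarith [(hφ.supp y h).2]

lemma compactSupp : HasCompactSupport φ := by
  refine HasCompactSupport.intro (isCompact_Icc (a := (1 / 2 : ℝ)) (b := 2)) fun x hx => ?_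
  by_contra h
  exact hx ⟨(hφ.supp x h).1, (hφ.supp x h).2⟩

lemma integrable : Integrable φ := hφ.cont.integrable_of_hasCompactSupport hφ.compactSupp

lemma G1_hasDerivAt (y : ℝ) : HasDerivAt (G1 φ) (φ y) y :=
  intervalIntegral.integral_hasDerivAt_right (hφ.cont.intervalIntegrable _ _)
    (hφ.cont.stronglyMeasurableAtFilter _ _) hφ.cont.continuousAt

lemma G1_cont : Continuous (G1 φ) := continuous_iff_continuousAt.mpr fun y =>
  (hφ.G1_hasDerivAt y).continuousAt

lemma G1_small {y : ℝ} (h0 : 0 ≤ y) (hy : y ≤ 1 / 2) : G1 φ y = 0 := by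
  unfold G1
  rw [intervalIntegral.integral_congr_ae (g := fun _ => 0)]
  · simp
  · have : ∀ᵐ x : ℝ, x ≠ 1 / 2 := by simp [ae_iff]
    filter_upwards [this] with x hx hx'
    rw [uIoc_of_le h0] at hx'
    refine hφ.zero_of_lt (lt_of_le_of_ne (hx'.2.trans hy) hx)

lemma G1_large {y : ℝ} (hy : 2 ≤ y) : G1 φ y = ∫ u, φ u := by
  unfold G1
  rw [intervalIntegral.integral_of_le (by linarith)]
  apply setIntegral_eq_integral_of_forall_compl_eq_zero
  intro x hx
  by_contra h
  have := hφ.supp x h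
  exact hx ⟨by linarith, by linarith⟩

lemma mellinConv (s : ℂ) : MellinConvergent (fun x => (φ x : ℂ)) s := by
  refine mellinConvergent_of_isBigO_rpow (a := s.re + 1) (b := s.re - 1) ?_ ?_ (by linarith) ?_
    (by linarith)
  · exact (Complex.continuous_ofReal.comp hφ.cont).locallyIntegrable.locallyIntegrableOn _
  · refine Asymptotics.IsBigO.of_bound 0 ?_
    filter_upwards [eventually_gt_atTop (2 : ℝ)] with x hx
    simp [hφ.zero_of_gt hx]
  · refine Asymptotics.IsBigO.of_bound 0 ?_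
    have : ∀ᶠ x : ℝ in 𝓝[>] 0, x < 1 / 2 :=
      eventually_nhdsWithin_of_eventually_nhds (eventually_lt_nhds (by norm_num))
    filter_upwards [this] with x hx
    simp [hφ.zero_of_lt hx]

lemma mellin_H {s : ℂ} (h0 : 0 < s.re) (h1 : s.re < 1) :
    HasMellin (fun x : ℝ => ((x⁻¹ * G1 φ x : ℝ) : ℂ)) s
      (mellin (fun x => (φ x : ℂ)) s / (1 - s)) := by
  have hs1 : s - 1 ≠ 0 := by
    intro h
    have := congrArg Complex.re h
    simp at this
    linarith
  have hs1' : 1 - s ≠ 0 := by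
    intro h
    apply hs1
    rw [← neg_eq_zero, neg_sub, h]
  have hcv : MellinConvergent (fun x : ℝ => ((x⁻¹ * G1 φ x : ℝ) : ℂ)) s := by
    refine mellinConvergent_of_isBigO_rpow (a := 1) (b := 0) ?_ ?_ h1 ?_ h0
    · refine ContinuousOn.locallyIntegrableOn ?_ measurableSet_Ioi
      refine Complex.continuous_ofReal.comp_continuousOn ?_
      refine ContinuousOn.mul ?_ hφ.G1_cont.continuousOn
      exact continuousOn_inv₀.mono fun x hx => (ne_of_gt hx)
    · refine Asymptotics.IsBigO.of_bound (|∫ u, φ u|) ?_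
      filter_upwards [eventually_gt_atTop (2 : ℝ)] with x hx
      rw [hφ.G1_large hx.le, Complex.norm_real, Real.norm_eq_abs, abs_mul, Real.rpow_neg_one,
        Real.norm_eq_abs, mul_comm]
    · refine Asymptotics.IsBigO.of_bound 0 ?_
      have : ∀ᶠ x : ℝ in 𝓝[>] 0, x < 1 / 2 :=
        eventually_nhdsWithin_of_eventually_nhds (eventually_lt_nhds (by norm_num))
      filter_upwards [this, self_mem_nhdsWithin] with x hx hx0
      rw [hφ.G1_small (le_of_lt hx0) hx.le]
      simp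
  refine ⟨hcv, ?_⟩
  set P : ℝ → ℂ := fun x => (x : ℂ) ^ (s - 1) * (G1 φ x : ℂ) with hP
  set P' : ℝ → ℂ := fun x => (s - 1) * ((x : ℂ) ^ (s - 1) * ((x⁻¹ * G1 φ x : ℝ) : ℂ))
    + (x : ℂ) ^ (s - 1) * (φ x : ℂ) with hP'
  have hd : ∀ x ∈ Ioi (0 : ℝ), HasDerivAt P (P' x) x := by
    intro x hx
    have hx0 : (x : ℂ) ≠ 0 := by exact_mod_cast (ne_of_gt hx)
    have d1 : HasDerivAt (fun y : ℝ => (y : ℂ) ^ (s - 1)) ((s - 1) * (x : ℂ) ^ (s - 1 - 1)) x :=
      Pool.Agent.Lib.MP_f9aece_nt.hasDerivAt_cpow_real hx (s - 1)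
    have d2 : HasDerivAt (fun y : ℝ => (G1 φ y : ℂ)) ((φ x : ℝ) : ℂ) x :=
      (hφ.G1_hasDerivAt x).ofReal_comp
    refine (d1.mul d2).congr_deriv ?_
    rw [hP']
    simp only
    rw [Complex.cpow_sub _ _ hx0, Complex.cpow_one]
    push_cast
    field_simp
  have i1 : IntegrableOn (fun x : ℝ => (x : ℂ) ^ (s - 1) * ((x⁻¹ * G1 φ x : ℝ) : ℂ)) (Ioi 0) := hcv
  have i2 : IntegrableOn (fun x : ℝ => (x : ℂ) ^ (s - 1) * (φ x : ℂ)) (Ioi 0) := hφ.mellinConv s
  have hi : IntegrableOn P' (Ioi 0) := (i1.const_mul _).add i2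
  have hcont : ContinuousWithinAt P (Ici 0) 0 := by
    have hev : P =ᶠ[𝓝[Ici 0] 0] fun _ => 0 := by
      have : ∀ᶠ x : ℝ in 𝓝[Ici 0] 0, x < 1 / 2 :=
        eventually_nhdsWithin_of_eventually_nhds (eventually_lt_nhds (by norm_num))
      filter_upwards [this, self_mem_nhdsWithin] with x hx hx0
      simp only [hP]
      rw [hφ.G1_small hx0 hx.le]
      simp
    refine ContinuousWithinAt.congr_of_eventuallyEq continuousWithinAt_const hev ?_
    simp only [hP]
    rw [hφ.G1_small le_rfl (by norm_num)]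
    simp
  have hlim : Tendsto P atTop (𝓝 0) := by
    have hev : (fun x : ℝ => (x : ℂ) ^ (s - 1) * ((∫ u, φ u : ℝ) : ℂ)) =ᶠ[atTop] P := by
      filter_upwards [eventually_ge_atTop (2 : ℝ)] with x hx
      simp only [hP]
      rw [hφ.G1_large hx]
    refine Tendsto.congr' hev ?_
    have : Tendsto (fun x : ℝ => (x : ℂ) ^ (s - 1)) atTop (𝓝 0) := by
      rw [tendsto_zero_iff_norm_tendsto_zero]
      have h2 : Tendsto (fun x : ℝ => x ^ (-(1 - s.re))) atTop (𝓝 0) :=
        tendsto_rpow_neg_atTop (by linarith)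
      refine h2.congr' ?_
      filter_upwards [eventually_gt_atTop (0 : ℝ)] with x hx
      rw [Complex.norm_cpow_eq_rpow_re_of_pos hx]
      simp
    simpa using this.mul_const _
  have key := integral_Ioi_of_hasDerivAt_of_tendsto hcont hd hi hlim
  have hP0 : P 0 = 0 := by
    simp only [hP]
    rw [hφ.G1_small le_rfl (by norm_num)]
    simp
  rw [hP0, sub_zero, hP', integral_add (i1.const_mul _) i2, integral_const_mul] at key
  have e1 : mellin (fun x : ℝ => ((x⁻¹ * G1 φ x : ℝ) : ℂ)) s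
      = ∫ x in Ioi (0 : ℝ), (x : ℂ) ^ (s - 1) * ((x⁻¹ * G1 φ x : ℝ) : ℂ) := rfl
  have e2 : mellin (fun x : ℝ => (φ x : ℂ)) s
      = ∫ x in Ioi (0 : ℝ), (x : ℂ) ^ (s - 1) * (φ x : ℂ) := rfl
  rw [← e1, ← e2] at key
  rw [eq_div_iff hs1']
  linear_combination -key

end Bmp

/-- truncated Muentz function -/
noncomputable def PhiN (φ : ℝ → ℝ) (N : ℕ) (x : ℝ) : ℝ :=
  ∑ n ∈ Finset.range N, φ (((n + 1 : ℕ) : ℝ) * x) - x⁻¹ * G1 φ (N * x)

/-- Muentz function -/
noncomputable def Phi (φ : ℝ → ℝ) (x : ℝ) : ℝ :=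
  ∑' n : ℕ, φ (((n + 1 : ℕ) : ℝ) * x) - x⁻¹ * ∫ u, φ u

namespace Bmp

variable {φ : ℝ → ℝ} (hφ : Bmp φ)

include hφ

lemma tsum_eq {x : ℝ} (hx : 0 < x) {N : ℕ} (hN : 2 < N * x) :
    ∑' n : ℕ, φ (((n + 1 : ℕ) : ℝ) * x) = ∑ n ∈ Finset.range N, φ (((n + 1 : ℕ) : ℝ) * x) := by
  refine tsum_eq_sum fun n hn => ?_
  rw [Finset.mem_range, not_lt] at hn
  refine hφ.zero_of_gt (lt_of_lt_of_le hN ?_)
  gcongr
  omega

lemma Phi_eq {x : ℝ} (hx : 0 < x) {N : ℕ} (hN : 2 < N * x) : Phi φ x = PhiN φ N x := by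
  unfold Phi PhiN
  rw [hφ.tsum_eq hx hN, hφ.G1_large hN.le]

lemma PhiN_tendsto {x : ℝ} (hx : 0 < x) : Tendsto (fun N => PhiN φ N x) atTop (𝓝 (Phi φ x)) := by
  refine tendsto_const_nhds.congr' ?_
  have : ∀ᶠ N : ℕ in atTop, 2 < (N : ℝ) * x :=
    (tendsto_natCast_atTop_atTop.atTop_mul_const hx).eventually_gt_atTop 2
  filter_upwards [this] with N hN
  exact hφ.Phi_eq hx hN

lemma PhiN_bound : ∃ C : ℝ, 0 ≤ C ∧ ∀ (N : ℕ) (x : ℝ), 0 < x → |PhiN φ N x| ≤ C / (1 + x) := by
  obtain ⟨K, hK, hlip⟩ := hφ.lip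
  set M := ∫ u, |φ u| with hM
  have hM0 : 0 ≤ M := integral_nonneg fun u => abs_nonneg _
  have hG1 : ∀ y, 0 ≤ y → |G1 φ y| ≤ M := by
    intro y hy
    unfold G1
    rw [intervalIntegral.integral_of_le hy]
    refine (abs_integral_le_integral_abs).trans ?_
    exact setIntegral_le_integral hφ.integrable.abs (Eventually.of_forall fun u => abs_nonneg _)
  refine ⟨12 * K + 2 * M, by positivity, fun N x hx => ?_⟩
  rcases le_or_gt x 2 with hx2 | hx2
  · -- small x
    have e1 : x⁻¹ * G1 φ (N * x)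
        = ∑ n ∈ Finset.range N, ∫ u in (n : ℝ)..((n + 1 : ℕ) : ℝ), φ (u * x) := by
      have h1 : ∀ m < N, IntervalIntegrable (fun u => φ (u * x)) volume (m : ℝ) ((m + 1 : ℕ) : ℝ) :=
        fun m _ => (hφ.cont.comp (continuous_id.mul continuous_const)).intervalIntegrable _ _
      rw [intervalIntegral.sum_integral_adjacent_intervals h1]
      have := intervalIntegral.integral_comp_mul_right (a := ((0 : ℕ) : ℝ)) (b := (N : ℝ)) φ hx.ne'
      rw [this, G1]
      simp
    have e2 : PhiN φ N x = ∑ n ∈ Finset.range N,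
        ∫ u in (n : ℝ)..((n + 1 : ℕ) : ℝ), (φ (((n + 1 : ℕ) : ℝ) * x) - φ (u * x)) := by
      unfold PhiN
      rw [e1, ← Finset.sum_sub_distrib]
      refine Finset.sum_congr rfl fun n _ => ?_
      have h5 := intervalIntegral.integral_sub (μ := volume) (a := (n : ℝ)) (b := ((n + 1 : ℕ) : ℝ))
        (f := fun _ : ℝ => φ (((n + 1 : ℕ) : ℝ) * x)) (g := fun u : ℝ => φ (u * x))
        intervalIntegrable_const
        ((hφ.cont.comp (continuous_id.mul continuous_const)).intervalIntegrable _ _)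
      rw [h5]
      simp
    have hterm : ∀ n : ℕ, |∫ u in (n : ℝ)..((n + 1 : ℕ) : ℝ), (φ (((n + 1 : ℕ) : ℝ) * x) - φ (u * x))|
        ≤ if (n : ℝ) * x ≤ 2 then K * x else 0 := by
      intro n
      split_ifs with h
      · have := intervalIntegral.norm_integral_le_of_norm_le_const (a := (n : ℝ))
          (b := ((n + 1 : ℕ) : ℝ)) (C := K * x)
          (f := fun u => φ (((n + 1 : ℕ) : ℝ) * x) - φ (u * x)) ?_
        · rw [Real.norm_eq_abs] at this
          refine this.trans (le_of_eq ?_)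
          push_cast
          rw [add_sub_cancel_left, abs_one, mul_one]
        · intro u hu
          rw [uIoc_of_le (by push_cast; linarith)] at hu
          rw [Real.norm_eq_abs]
          refine (hlip _ _).trans ?_
          rw [← sub_mul, abs_mul, abs_of_pos hx]
          have h2 : |((n + 1 : ℕ) : ℝ) - u| ≤ 1 := by
            rw [abs_le]
            have h3 := hu.1
            have h4 := hu.2
            push_cast at h4 ⊢
            constructor <;> linarith
          calc K * (|((n + 1 : ℕ) : ℝ) - u| * x) ≤ K * (1 * x) := by gcongr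
            _ = K * x := by ring
      · rw [not_le] at h
        have : ∫ u in (n : ℝ)..((n + 1 : ℕ) : ℝ), (φ (((n + 1 : ℕ) : ℝ) * x) - φ (u * x))
            = ∫ u in (n : ℝ)..((n + 1 : ℕ) : ℝ), (0 : ℝ) := by
          refine intervalIntegral.integral_congr fun u hu => ?_
          rw [uIcc_of_le (by push_cast; linarith)] at hu
          have h3 : 2 < ((n + 1 : ℕ) : ℝ) * x := by
            push_cast
            nlinarith
          have h4 : 2 < u * x := by nlinarith [hu.1]
          rw [hφ.zero_of_gt h3, hφ.zero_of_gt h4, sub_zero]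
        rw [this]
        simp
    have hcount : (((Finset.range N).filter fun n : ℕ => (n : ℝ) * x ≤ 2).card : ℝ) ≤ 2 / x + 1 := by
      have hsub : ((Finset.range N).filter fun n : ℕ => (n : ℝ) * x ≤ 2)
          ⊆ Finset.range (⌊2 / x⌋₊ + 1) := by
        intro n hn
        rw [Finset.mem_filter] at hn
        rw [Finset.mem_range, Nat.lt_succ_iff]
        apply Nat.le_floor
        rw [le_div_iff₀ hx]
        exact hn.2
      calc (((Finset.range N).filter fun n : ℕ => (n : ℝ) * x ≤ 2).card : ℝ)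
          ≤ ((Finset.range (⌊2 / x⌋₊ + 1)).card : ℝ) := by
            exact_mod_cast Finset.card_le_card hsub
        _ = (⌊2 / x⌋₊ : ℝ) + 1 := by rw [Finset.card_range]; push_cast; ring
        _ ≤ 2 / x + 1 := by
            have := Nat.floor_le (a := 2 / x) (by positivity)
            linarith
    have hb : |PhiN φ N x| ≤ K * (2 + x) := by
      rw [e2]
      refine (Finset.abs_sum_le_sum_abs _ _).trans ((Finset.sum_le_sum fun n _ => hterm n).trans ?_)
      rw [← Finset.sum_filter, Finset.sum_const, nsmul_eq_mul]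
      calc (((Finset.range N).filter fun n : ℕ => (n : ℝ) * x ≤ 2).card : ℝ) * (K * x)
          ≤ (2 / x + 1) * (K * x) := by gcongr
        _ = K * (2 + x) := by field_simp
    refine hb.trans ?_
    rw [le_div_iff₀ (by positivity)]
    have : (2 + x) * (1 + x) ≤ 12 := by nlinarith
    nlinarith
  · -- large x
    have hz : ∀ n : ℕ, φ (((n + 1 : ℕ) : ℝ) * x) = 0 := by
      intro n
      apply hφ.zero_of_gt
      push_cast
      have : (0 : ℝ) ≤ n := Nat.cast_nonneg n
      nlinarith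
    unfold PhiN
    rw [Finset.sum_eq_zero fun n _ => hz n, zero_sub, abs_neg, abs_mul, abs_of_pos (inv_pos.mpr hx)]
    have h1 := hG1 (N * x) (by positivity)
    calc x⁻¹ * |G1 φ (N * x)| ≤ x⁻¹ * M := by gcongr
      _ ≤ (2 * M) / (1 + x) := by
          rw [inv_mul_eq_div, div_le_div_iff₀ hx (by positivity)]
          nlinarith
      _ ≤ _ := by
          gcongr
          nlinarith

lemma Phi_bound : ∃ C : ℝ, 0 ≤ C ∧ ∀ x : ℝ, 0 < x → |Phi φ x| ≤ C / (1 + x) := by
  obtain ⟨C, hC, h⟩ := hφ.PhiN_bound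
  exact ⟨C, hC, fun x hx => le_of_tendsto (hφ.PhiN_tendsto hx).abs
    (Eventually.of_forall fun N => h N x hx)⟩

lemma PhiN_meas (N : ℕ) : AEStronglyMeasurable (PhiN φ N) (volume.restrict (Ioi 0)) := by
  refine ContinuousOn.aestronglyMeasurable ?_ measurableSet_Ioi
  unfold PhiN
  refine ContinuousOn.sub ?_ (ContinuousOn.mul ?_ ?_)
  · exact continuousOn_finsetSum _ fun n _ =>
      (hφ.cont.comp (continuous_const.mul continuous_id)).continuousOn
  · exact continuousOn_inv₀.mono fun x hx => (ne_of_gt hx)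
  · exact (hφ.G1_cont.comp (continuous_const.mul continuous_id)).continuousOn

lemma Phi_meas : AEStronglyMeasurable (Phi φ) (volume.restrict (Ioi 0)) := by
  refine aestronglyMeasurable_of_tendsto_ae atTop (hφ.PhiN_meas) ?_
  filter_upwards [ae_restrict_mem measurableSet_Ioi] with x hx
  exact hφ.PhiN_tendsto hx

lemma hasMellin_PhiN {s : ℂ} (h0 : 0 < s.re) (h1 : s.re < 1) (N : ℕ) (hN : 1 ≤ N) :
    HasMellin (fun x => (PhiN φ N x : ℂ)) s
      ((∑ n ∈ Finset.Icc 1 N, (n : ℂ) ^ (-s) - (N : ℂ) ^ (1 - s) / (1 - s))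
        * mellin (fun x => (φ x : ℂ)) s) := by
  have hN0 : (0 : ℝ) < N := by exact_mod_cast hN
  have hNc : (N : ℂ) ≠ 0 := by exact_mod_cast hN0.ne'
  -- first part
  have hA : ∀ M : ℕ, HasMellin (fun x : ℝ => ((∑ n ∈ Finset.range M, φ (((n + 1 : ℕ) : ℝ) * x) : ℝ) : ℂ)) s
      ((∑ n ∈ Finset.range M, ((n + 1 : ℕ) : ℂ) ^ (-s)) * mellin (fun x => (φ x : ℂ)) s) := by
    intro M
    induction M with
    | zero =>
      refine ⟨?_, ?_⟩
      · simp only [MellinConvergent, Finset.range_zero, Finset.sum_empty, ofReal_zero, smul_zero]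
        exact integrableOn_zero
      · simp [mellin]
    | succ M ih =>
      have hpos : (0 : ℝ) < ((M + 1 : ℕ) : ℝ) := by positivity
      have c1 : MellinConvergent (fun x : ℝ => ((φ (((M + 1 : ℕ) : ℝ) * x) : ℝ) : ℂ)) s :=
        (MellinConvergent.comp_mul_left (f := fun x => (φ x : ℂ)) hpos).mpr (hφ.mellinConv s)
      have c2 := hasMellin_add ih.1 c1
      have c3 := mellin_comp_mul_left (fun x => (φ x : ℂ)) s hpos
      have e : (fun x : ℝ => ((∑ n ∈ Finset.range (M + 1), φ (((n + 1 : ℕ) : ℝ) * x) : ℝ) : ℂ))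
          = fun x : ℝ => ((∑ n ∈ Finset.range M, φ (((n + 1 : ℕ) : ℝ) * x) : ℝ) : ℂ)
            + ((φ (((M + 1 : ℕ) : ℝ) * x) : ℝ) : ℂ) := by
        funext x
        rw [Finset.sum_range_succ]
        push_cast
        ring
      rw [e]
      refine ⟨c2.1, ?_⟩
      rw [c2.2, ih.2, c3, Finset.sum_range_succ, smul_eq_mul]
      push_cast
      ring
  -- second part
  have hB : HasMellin (fun x : ℝ => ((x⁻¹ * G1 φ (N * x) : ℝ) : ℂ)) s
      ((N : ℂ) ^ (1 - s) / (1 - s) * mellin (fun x => (φ x : ℂ)) s) := by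
    have b1 := hφ.mellin_H h0 h1
    have b2 : MellinConvergent (fun x : ℝ => ((((N : ℝ) * x)⁻¹ * G1 φ ((N : ℝ) * x) : ℝ) : ℂ)) s :=
      (MellinConvergent.comp_mul_left (f := fun x : ℝ => ((x⁻¹ * G1 φ x : ℝ) : ℂ)) hN0).mpr b1.1
    have b3 := mellin_comp_mul_left (fun x : ℝ => ((x⁻¹ * G1 φ x : ℝ) : ℂ)) s hN0
    have b4 := hasMellin_const_smul b2 (N : ℂ)
    have e : (fun x : ℝ => ((x⁻¹ * G1 φ (N * x) : ℝ) : ℂ))
        = fun x : ℝ => (N : ℂ) • ((((N : ℝ) * x)⁻¹ * G1 φ ((N : ℝ) * x) : ℝ) : ℂ) := by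
      funext x
      rw [smul_eq_mul, mul_inv]
      push_cast
      field_simp
    rw [e]
    refine ⟨b4.1, ?_⟩
    rw [b4.2, b3, b1.2, smul_eq_mul, smul_eq_mul]
    have : (N : ℂ) ^ (1 - s) = (N : ℂ) * (N : ℂ) ^ (-s) := by
      rw [sub_eq_add_neg, Complex.cpow_add _ _ hNc, Complex.cpow_one]
    rw [this]
    push_cast
    ring
  have hC := hasMellin_sub (hA N).1 hB.1
  have e : (fun x => (PhiN φ N x : ℂ)) = fun x : ℝ =>
      ((∑ n ∈ Finset.range N, φ (((n + 1 : ℕ) : ℝ) * x) : ℝ) : ℂ) - ((x⁻¹ * G1 φ (N * x) : ℝ) : ℂ) := by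
    funext x
    unfold PhiN
    push_cast
    ring
  rw [e]
  refine ⟨hC.1, ?_⟩
  rw [hC.2, (hA N).2, hB.2]
  have e2 : ∑ n ∈ Finset.range N, ((n + 1 : ℕ) : ℂ) ^ (-s) = ∑ n ∈ Finset.Icc 1 N, (n : ℂ) ^ (-s) := by
    have : Finset.Icc 1 N = Finset.Ico 1 (N + 1) := by
      ext x; simp only [Finset.mem_Icc, Finset.mem_Ico]; omega
    rw [this, Finset.sum_Ico_eq_sum_range]
    refine Finset.sum_congr (by simp) fun n _ => ?_
    congr 2
    omega
  rw [e2]
  ring

omit hφ in
lemma integrable_bound (C : ℝ) :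
    IntegrableOn (fun x : ℝ => x ^ (-(1 / 2) : ℝ) * (C / (1 + x))) (Ioi 0) := by
  have h1 : IntegrableOn (fun x : ℝ => x ^ (-(1 / 2) : ℝ) * (C / (1 + x))) (Ioc 0 1) := by
    have h2 : IntegrableOn (fun x : ℝ => x ^ (-(1 / 2) : ℝ)) (Ioc 0 1) :=
      (intervalIntegrable_iff_integrableOn_Ioc_of_le zero_le_one).mp
        (intervalIntegral.intervalIntegrable_rpow' (by norm_num))
    refine Integrable.mono' (h2.mul_const |C|) ?_ ?_
    · refine ContinuousOn.aestronglyMeasurable ?_ measurableSet_Ioc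
      refine ContinuousOn.mul ?_ (ContinuousOn.div continuousOn_const (by fun_prop) ?_)
      · exact fun x hx => (Real.continuousAt_rpow_const _ _ (Or.inl hx.1.ne')).continuousWithinAt
      · intro x hx; have := hx.1; positivity
    · filter_upwards [ae_restrict_mem measurableSet_Ioc] with x hx
      have hx0 := hx.1
      rw [Real.norm_eq_abs, abs_mul, abs_of_nonneg (by positivity : (0 : ℝ) ≤ x ^ (-(1 / 2) : ℝ)),
        abs_div, abs_of_pos (by positivity : (0 : ℝ) < 1 + x)]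
      gcongr
      exact div_le_self (abs_nonneg _) (by linarith)
  have h3 : IntegrableOn (fun x : ℝ => x ^ (-(1 / 2) : ℝ) * (C / (1 + x))) (Ioi 1) := by
    have h2 : IntegrableOn (fun x : ℝ => x ^ (-(3 / 2) : ℝ)) (Ioi 1) :=
      integrableOn_Ioi_rpow_of_lt (by norm_num) one_pos
    refine Integrable.mono' (h2.mul_const |C|) ?_ ?_
    · refine ContinuousOn.aestronglyMeasurable ?_ measurableSet_Ioi
      refine ContinuousOn.mul ?_ (ContinuousOn.div continuousOn_const (by fun_prop) ?_)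
      · intro x hx
        have : (0 : ℝ) < x := lt_trans one_pos hx
        exact (Real.continuousAt_rpow_const _ _ (Or.inl this.ne')).continuousWithinAt
      · intro x hx
        have : (0 : ℝ) < x := lt_trans one_pos hx
        positivity
    · filter_upwards [ae_restrict_mem measurableSet_Ioi] with x hx
      have hx0 : (0 : ℝ) < x := lt_trans one_pos hx
      rw [Real.norm_eq_abs, abs_mul, abs_of_nonneg (by positivity : (0 : ℝ) ≤ x ^ (-(1 / 2) : ℝ)),
        abs_div, abs_of_pos (by positivity : (0 : ℝ) < 1 + x)]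
      have e : x ^ (-(3 / 2) : ℝ) = x ^ (-(1 / 2) : ℝ) * x⁻¹ := by
        rw [← Real.rpow_neg_one, ← Real.rpow_add hx0]
        norm_num
      rw [e, mul_assoc]
      gcongr
      rw [inv_mul_eq_div]
      gcongr
      linarith
  rw [← Ioc_union_Ioi_eq_Ioi zero_le_one]
  exact h1.union h3

/-- Muentz's formula on the critical line -/
theorem muntz {t : ℝ} (ht : 0 < t) :
    HasMellin (fun x => (Phi φ x : ℂ)) (1 / 2 + I * t)
      (riemannZeta (1 / 2 + I * t) * mellin (fun x => (φ x : ℂ)) (1 / 2 + I * t)) := by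
  set s : ℂ := 1 / 2 + I * t with hs
  have hsre : s.re = 1 / 2 := by simp [hs]
  have hsim : s.im = t := by simp [hs]
  have h0 : 0 < s.re := by rw [hsre]; norm_num
  have h1 : s.re < 1 := by rw [hsre]; norm_num
  have hq : s ∈ Pool.Agent.Lib.MP_f9aece_nt.quad := ⟨h0, by rw [hsim]; exact ht⟩
  have hs1 := Pool.Agent.Lib.MP_f9aece_nt.quad_ne_one hq
  obtain ⟨C, hC, hbN⟩ := hφ.PhiN_bound
  have hCphi : ∀ x : ℝ, 0 < x → |Phi φ x| ≤ C / (1 + x) := fun x hx =>
    le_of_tendsto (hφ.PhiN_tendsto hx).abs (Eventually.of_forall fun N => hbN N x hx)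
  have hib := integrable_bound C
  have hcp : ContinuousOn (fun x : ℝ => (x : ℂ) ^ (s - 1)) (Ioi 0) := by
    intro x hx
    exact ((Pool.Agent.Lib.MP_f9aece_nt.hasDerivAt_cpow_real hx (s - 1)).continuousAt).continuousWithinAt
  have hnorm : ∀ x : ℝ, 0 < x → ‖(x : ℂ) ^ (s - 1)‖ = x ^ (-(1 / 2) : ℝ) := by
    intro x hx
    rw [Complex.norm_cpow_eq_rpow_re_of_pos hx]
    congr 1
    rw [Complex.sub_re, hsre, Complex.one_re]
    norm_num
  -- convergence
  have hconv : MellinConvergent (fun x => (Phi φ x : ℂ)) s := by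
    refine Integrable.mono' hib ?_ ?_
    · exact (hcp.aestronglyMeasurable measurableSet_Ioi).smul
        (Complex.continuous_ofReal.comp_aestronglyMeasurable hφ.Phi_meas)
    · filter_upwards [ae_restrict_mem measurableSet_Ioi] with x hx
      rw [norm_smul, hnorm x hx, Complex.norm_real, Real.norm_eq_abs]
      have hx0 : (0 : ℝ) < x := hx
      gcongr
      exact hCphi x hx
  refine ⟨hconv, ?_⟩
  -- limit of the Mellin transforms
  have hlim1 : Tendsto (fun N : ℕ => mellin (fun x => (PhiN φ N x : ℂ)) s) atTop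
      (𝓝 (mellin (fun x => (Phi φ x : ℂ)) s)) := by
    unfold mellin
    refine tendsto_integral_of_dominated_convergence
      (fun x : ℝ => x ^ (-(1 / 2) : ℝ) * (C / (1 + x))) ?_ hib ?_ ?_
    · intro N
      exact (hcp.aestronglyMeasurable measurableSet_Ioi).smul
        (Complex.continuous_ofReal.comp_aestronglyMeasurable (hφ.PhiN_meas N))
    · intro N
      filter_upwards [ae_restrict_mem measurableSet_Ioi] with x hx
      rw [norm_smul, hnorm x hx, Complex.norm_real, Real.norm_eq_abs]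
      have hx0 : (0 : ℝ) < x := hx
      gcongr
      exact hbN N x hx
    · filter_upwards [ae_restrict_mem measurableSet_Ioi] with x hx
      exact ((Complex.continuous_ofReal.tendsto _).comp (hφ.PhiN_tendsto hx)).const_smul _
  have hlim2 : Tendsto (fun N : ℕ => mellin (fun x => (PhiN φ N x : ℂ)) s) atTop
      (𝓝 (riemannZeta s * mellin (fun x => (φ x : ℂ)) s)) := by
    have e1 : ∀ᶠ N : ℕ in atTop, (riemannZeta s + (N : ℂ) ^ (-s) / 2 - ∑' n : ℕ,
        Pool.Agent.Lib.MP_f9aece_nt.trap (n + N) s) * mellin (fun x => (φ x : ℂ)) s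
        = mellin (fun x => (PhiN φ N x : ℂ)) s := by
      filter_upwards [eventually_ge_atTop 1] with N hN
      rw [(hφ.hasMellin_PhiN h0 h1 N hN).2]
      have := Pool.Agent.Lib.MP_f9aece_nt.zeta_eq_sum hq hN
      rw [this]
      have h7 : (N : ℂ) ^ (1 - s) / (s - 1) = - ((N : ℂ) ^ (1 - s) / (1 - s)) := by
        rw [← neg_sub 1 s, div_neg]
      rw [h7]
      ring
    refine Tendsto.congr' e1 ?_
    have t1 : Tendsto (fun N : ℕ => (N : ℂ) ^ (-s) / 2) atTop (𝓝 (0 / 2)) := by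
      refine Tendsto.div_const ?_ _
      rw [tendsto_zero_iff_norm_tendsto_zero]
      have h2 : Tendsto (fun N : ℕ => (N : ℝ) ^ (-s.re)) atTop (𝓝 0) :=
        (tendsto_rpow_neg_atTop h0).comp tendsto_natCast_atTop_atTop
      refine h2.congr' ?_
      filter_upwards [eventually_ge_atTop 1] with N hN
      rw [Complex.norm_natCast_cpow_of_pos (by omega)]
      simp
    have t2 : Tendsto (fun N : ℕ => ∑' n : ℕ, Pool.Agent.Lib.MP_f9aece_nt.trap (n + N) s) atTop
        (𝓝 0) := by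
      have := tendsto_sum_nat_add (fun n : ℕ => Pool.Agent.Lib.MP_f9aece_nt.trap n s)
      exact this
    have := ((tendsto_const_nhds (x := riemannZeta s)).add t1).sub t2
    simpa using this.mul_const (mellin (fun x => (φ x : ℂ)) s)
  exact tendsto_nhds_unique hlim1 hlim2

end Bmp

end Pool.Agent.Lib.MP_f9aece_nt_h97
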