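import Mathlib
import Pool.Agent.Lib.MP_f9aece_nt_h97.Muntz
import Pool.Agent.Lib.MP_f9aece_nt_h97.MellinP

/-!
Compactly supported even smooth kernels and Poisson summation for the Muentz function.
-/

set_option autoImplicit false

namespace Pool.Agent.Lib.MP_f9aece_nt_h97

open MeasureTheory Set Filter Topology Complex FourierTransform
open scoped ENNReal ContDiff SchwartzMap ComplexConjugate

/-- an even smooth compactly supported kernel -/
structure Ker where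
  g : ℝ → ℝ
  smooth : ContDiff ℝ ∞ g
  L : ℝ
  hL : 1 ≤ L
  supp : ∀ v, g v ≠ 0 → |v| ≤ L
  even : ∀ v, g (-v) = g v

namespace Ker

variable (K : Ker)

lemma zero_of {v : ℝ} (hv : K.L < |v|) : K.g v = 0 := by
  by_contra h
  linarith [K.supp v h]

lemma cs : HasCompactSupport K.g := by
  refine HasCompactSupport.intro (isCompact_Icc (a := -K.L) (b := K.L)) fun x hx => ?_
  by_contra h
  exact hx (abs_le.mp (K.supp x h))

lemma csC : HasCompactSupport (Complex.ofRealCLM ∘ K.g) := K.cs.comp_left rfl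

lemma smoothC : ContDiff ℝ ∞ (Complex.ofRealCLM ∘ K.g) :=
  Complex.ofRealCLM.contDiff.comp K.smooth

/-- the kernel as a Schwartz function -/
noncomputable def gS : 𝓢(ℝ, ℂ) := K.csC.toSchwartzMap K.smoothC

lemma gS_apply (v : ℝ) : K.gS v = (K.g v : ℂ) := by simp [gS]

lemma cont : Continuous K.g := K.smooth.continuous

lemma integrable : Integrable K.g := K.cont.integrable_of_hasCompactSupport K.cs

/-- the Fourier transform of the kernel, a real even function -/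
noncomputable def G (w : ℝ) : ℝ := ((𝓕 K.gS : 𝓢(ℝ, ℂ)) w).re

lemma gS_fun : (K.gS : ℝ → ℂ) = fun v => (K.g v : ℂ) := funext K.gS_apply

lemma fourier_eq (w : ℝ) : (𝓕 K.gS : 𝓢(ℝ, ℂ)) w = (K.G w : ℂ) := by
  have h1 : ((𝓕 K.gS : 𝓢(ℝ, ℂ)) : ℝ → ℂ) = 𝓕 (fun v => (K.g v : ℂ)) := by
    rw [← K.gS_fun, SchwartzMap.fourier_coe]
  have h2 : 𝓕 (fun v => (K.g v : ℂ)) (-w) = conj (𝓕 (fun v => (K.g v : ℂ)) w) :=
    fourier_conj_neg K.g w
  have h3 : 𝓕 (fun v => (K.g v : ℂ)) (-w) = 𝓕 (fun v => (K.g v : ℂ)) w := by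
    rw [← Real.fourierInv_eq_fourier_neg, Real.fourierInv_eq_fourier_comp_neg]
    congr 1
    simp_rw [K.even]
  rw [h3] at h2
  have h4 : (𝓕 (fun v => (K.g v : ℂ)) w).im = 0 := by
    have := congrArg Complex.im h2
    simp only [Complex.conj_im] at this
    linarith
  unfold G
  rw [h1]
  apply Complex.ext
  · simp
  · simp [h4]

lemma fourier_eq' (w : ℝ) : 𝓕 (fun v => (K.g v : ℂ)) w = (K.G w : ℂ) := by
  rw [← K.fourier_eq, ← K.gS_fun, SchwartzMap.fourier_coe]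

lemma G_even (w : ℝ) : K.G (-w) = K.G w := by
  have h := fourier_conj_neg K.g w
  rw [K.fourier_eq', K.fourier_eq', Complex.conj_ofReal] at h
  exact_mod_cast h

lemma G_eq_integral (w : ℝ) : K.G w = ∫ v, K.g v * Real.cos (2 * Real.pi * v * w) := by
  have h := K.fourier_eq' w
  rw [Real.fourier_real_eq_integral_exp_smul] at h
  have hi : Integrable (fun v : ℝ => cexp (↑(-2 * Real.pi * v * w) * I) • (K.g v : ℂ)) := by
    have := (Real.fourierIntegral_convergent_iff (f := fun v => (K.g v : ℂ)) (μ := volume) w).mpr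
      K.integrable.ofReal
    refine this.congr (Eventually.of_forall fun v => ?_)
    simp only [Circle.smul_def, Real.fourierChar_apply]
    congr 2
    simp
    ring
  have h2 := congrArg Complex.re h
  rw [Complex.ofReal_re] at h2
  rw [← h2]
  have h3 := integral_re hi
  have h4 : (∫ v : ℝ, cexp (↑(-2 * Real.pi * v * w) * I) • (K.g v : ℂ)).re
      = RCLike.re (∫ v : ℝ, cexp (↑(-2 * Real.pi * v * w) * I) • (K.g v : ℂ)) := rfl
  rw [h4, ← h3]
  refine integral_congr_ae (Eventually.of_forall fun v => ?_)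
  simp only [smul_eq_mul, RCLike.re_to_complex, Complex.mul_re, Complex.ofReal_re, Complex.ofReal_im,
    mul_zero, sub_zero, Complex.exp_ofReal_mul_I_re]
  rw [mul_comm]
  congr 1
  rw [← Real.cos_neg]
  congr 1
  ring

/-- derivative of the transform -/
noncomputable def G' (w : ℝ) : ℝ := ((SchwartzMap.derivCLM ℝ ℂ (𝓕 K.gS : 𝓢(ℝ, ℂ))) w).re

lemma G_hasDerivAt (w : ℝ) : HasDerivAt K.G (K.G' w) w := by
  have h1 : HasDerivAt ((𝓕 K.gS : 𝓢(ℝ, ℂ)) : ℝ → ℂ)
      ((SchwartzMap.derivCLM ℝ ℂ (𝓕 K.gS : 𝓢(ℝ, ℂ))) w) w := by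
    rw [SchwartzMap.derivCLM_apply]
    exact ((𝓕 K.gS : 𝓢(ℝ, ℂ)).differentiableAt (x := w)).hasDerivAt
  exact (Complex.reCLM.hasFDerivAt.comp_hasDerivAt w h1)

lemma G_cont : Continuous K.G := Complex.continuous_re.comp (𝓕 K.gS : 𝓢(ℝ, ℂ)).continuous

lemma G'_cont : Continuous K.G' :=
  Complex.continuous_re.comp (SchwartzMap.derivCLM ℝ ℂ (𝓕 K.gS : 𝓢(ℝ, ℂ))).continuous

lemma G'_integrable : Integrable K.G' := (SchwartzMap.derivCLM ℝ ℂ (𝓕 K.gS : 𝓢(ℝ, ℂ))).integrable.re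

lemma G_decay (k : ℕ) : ∃ B : ℝ, 0 < B ∧ ∀ w, |w| ^ k * |K.G w| ≤ B := by
  obtain ⟨B, hB, h⟩ := (𝓕 K.gS : 𝓢(ℝ, ℂ)).decay k 0
  refine ⟨B, hB, fun w => ?_⟩
  have h2 := h w
  rw [norm_iteratedFDeriv_zero, Real.norm_eq_abs] at h2
  refine le_trans ?_ h2
  gcongr
  exact Complex.abs_re_le_norm _

lemma G_sq_integrable : Integrable (fun w => K.G w ^ 2) := by
  have h : MemLp ((𝓕 K.gS : 𝓢(ℝ, ℂ)) : ℝ → ℂ) 2 := (𝓕 K.gS : 𝓢(ℝ, ℂ)).memLp 2 volume
  have h2 := (memLp_two_iff_integrable_sq_norm h.1).mp h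
  refine h2.congr (Eventually.of_forall fun w => ?_)
  simp only
  rw [K.fourier_eq, Complex.norm_real, Real.norm_eq_abs, sq_abs]

/-- squared `L²` norm of the kernel -/
noncomputable def m2 : ℝ := ∫ v, K.g v ^ 2

lemma m2_nonneg : 0 ≤ K.m2 := integral_nonneg fun v => by positivity

lemma integral_G_sq : ∫ w, K.G w ^ 2 = K.m2 := by
  have h := SchwartzMap.integral_norm_sq_fourier K.gS
  unfold m2
  have e1 : ∀ w, ‖(𝓕 K.gS : 𝓢(ℝ, ℂ)) w‖ ^ 2 = K.G w ^ 2 := by
    intro w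
    rw [K.fourier_eq, Complex.norm_real, Real.norm_eq_abs, sq_abs]
  have e2 : ∀ v, ‖K.gS v‖ ^ 2 = K.g v ^ 2 := by
    intro w
    rw [K.gS_apply, Complex.norm_real, Real.norm_eq_abs, sq_abs]
  simp_rw [e1, e2] at h
  exact h

lemma integral_G_sq_Ioi : ∫ w in Ioi (0 : ℝ), K.G w ^ 2 = K.m2 / 2 := by
  have h5 := integral_comp_abs (f := fun v => K.G v ^ 2)
  have h6 : ∫ v, K.G |v| ^ 2 = ∫ v, K.G v ^ 2 := by
    refine integral_congr_ae (Eventually.of_forall fun v => ?_)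
    simp only
    rcases abs_cases v with ⟨h, _⟩ | ⟨h, _⟩
    · rw [h]
    · rw [h, K.G_even]
  rw [h6, K.integral_G_sq] at h5
  linarith

/-- the bump near one at scale `1/T` -/
noncomputable def phi (T : ℝ) (y : ℝ) : ℝ := K.g (T * (y - 1))

lemma phi_supp {T : ℝ} (hT : 0 < T) {y : ℝ} (hy : K.phi T y ≠ 0) : |y - 1| ≤ K.L / T := by
  have := K.supp _ hy
  rw [abs_mul, abs_of_pos hT] at this
  rw [le_div_iff₀ hT, mul_comm]
  exact this

lemma phi_bmp {T : ℝ} (hT : 2 * K.L ≤ T) : Bmp (K.phi T) := by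
  have hL := K.hL
  have hT0 : 0 < T := by linarith
  have hLT : K.L / T ≤ 1 / 2 := by
    rw [div_le_iff₀ hT0]; linarith
  refine ⟨?_, ?_, ?_⟩
  · exact K.cont.comp (by fun_prop)
  · intro y hy
    have := K.phi_supp hT0 hy
    rw [abs_le] at this
    constructor <;> linarith
  · obtain ⟨C, hC⟩ := K.smooth.lipschitzWith_of_hasCompactSupport K.cs (by simp)
    refine ⟨C * T, by positivity, fun x y => ?_⟩
    have := hC.dist_le_mul (T * (x - 1)) (T * (y - 1))
    rw [Real.dist_eq, Real.dist_eq] at this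
    unfold phi
    refine this.trans (le_of_eq ?_)
    have : T * (x - 1) - T * (y - 1) = T * (x - y) := by ring
    rw [this, abs_mul, abs_of_pos hT0]
    ring

/-- integral of the kernel -/
noncomputable def m1 : ℝ := ∫ v, K.g v

lemma G_zero : K.G 0 = K.m1 := by
  rw [K.G_eq_integral, m1]
  simp

/-- `L¹` norm of the kernel -/
noncomputable def ml : ℝ := ∫ v, |K.g v|

lemma ml_nonneg : 0 ≤ K.ml := integral_nonneg fun v => abs_nonneg _

lemma abs_m1_le : |K.m1| ≤ K.ml := abs_integral_le_integral_abs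

lemma integral_comp_aff {T : ℝ} (hT : 0 < T) (F : ℝ → ℝ) :
    ∫ y, F (T * (y - 1)) = T⁻¹ * ∫ v, F v := by
  have h1 := integral_sub_right_eq_self (fun y => F (T * y)) (1 : ℝ) (μ := volume)
  rw [h1]
  rw [Measure.integral_comp_mul_left]
  rw [abs_of_pos (inv_pos.mpr hT), smul_eq_mul]

lemma integral_phi {T : ℝ} (hT : 0 < T) : ∫ y, K.phi T y = T⁻¹ * K.m1 :=
  integral_comp_aff hT K.g

lemma integral_phi_sq {T : ℝ} (hT : 0 < T) : ∫ y, K.phi T y ^ 2 = T⁻¹ * K.m2 :=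
  integral_comp_aff hT (fun v => K.g v ^ 2)

lemma integral_abs_phi {T : ℝ} (hT : 0 < T) : ∫ y, |K.phi T y| = T⁻¹ * K.ml :=
  integral_comp_aff hT (fun v => |K.g v|)

end Ker

end Pool.Agent.Lib.MP_f9aece_nt_h97
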