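import Mathlib
import Pool.Agent.Lib.MP_f9aece_nt_h97.Kern

/-!
Choice of a kernel whose Fourier transform is close to one on `[-1,1]` and whose energy is close
to `1/π`.
-/

set_option autoImplicit false

namespace Pool.Agent.Lib.MP_f9aece_nt_h97

open MeasureTheory Set Filter Topology Complex FourierTransform
open scoped ENNReal ContDiff SchwartzMap ComplexConjugate

namespace Ker

/-- bump kernel on the frequency side -/
noncomputable def bk (f : ContDiffBump (0 : ℝ)) (hf : f.rOut ≤ 1) : Ker where
  g := f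
  smooth := f.contDiff
  L := 1
  hL := le_refl _
  supp := by
    intro v hv
    have h1 : v ∈ Function.support f := hv
    rw [f.support_eq, Metric.mem_ball, dist_zero_right, Real.norm_eq_abs] at h1
    linarith
  even := fun v => f.neg v

lemma G_smooth (K : Ker) : ContDiff ℝ ∞ K.G :=
  Complex.reCLM.contDiff.comp (𝓕 K.gS : 𝓢(ℝ, ℂ)).smooth'

lemma G_integrableC (K : Ker) : Integrable K.G := (𝓕 K.gS : 𝓢(ℝ, ℂ)).integrable.re

lemma integral_G_cos (K : Ker) (w : ℝ) : ∫ v, K.G v * Real.cos (2 * Real.pi * v * w) = K.g w := by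
  have h1 : 𝓕 (fun v => (K.G v : ℂ)) w = (K.g w : ℂ) := by
    have e1 : (fun v => (K.G v : ℂ)) = 𝓕 (fun v => (K.g v : ℂ)) := by
      funext v; rw [K.fourier_eq']
    have e2 : 𝓕⁻ (𝓕 (fun v => (K.g v : ℂ))) = fun v => (K.g v : ℂ) := by
      refine Continuous.fourierInv_fourier_eq ?_ K.integrable.ofReal ?_
      · exact Complex.continuous_ofReal.comp K.cont
      · rw [← e1]
        exact K.G_integrableC.ofReal
    have e3 : 𝓕 (fun v => (K.G v : ℂ)) w = 𝓕⁻ (fun v => (K.G v : ℂ)) (-w) := by
      rw [Real.fourierInv_eq_fourier_neg, neg_neg]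
    rw [e3, e1, e2]
    simp only [K.even]
  rw [Real.fourier_real_eq_integral_exp_smul] at h1
  have hi : Integrable (fun v : ℝ => cexp (↑(-2 * Real.pi * v * w) * I) • (K.G v : ℂ)) := by
    have := (Real.fourierIntegral_convergent_iff (f := fun v => (K.G v : ℂ)) (μ := volume) w).mpr
      K.G_integrableC.ofReal
    refine this.congr (Eventually.of_forall fun v => ?_)
    simp only [Circle.smul_def, Real.fourierChar_apply]
    congr 2
    simp
    ring
  have h2 := congrArg Complex.re h1
  rw [Complex.ofReal_re] at h2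
  rw [← h2]
  have h3 := integral_re hi
  have h4 : (∫ v : ℝ, cexp (↑(-2 * Real.pi * v * w) * I) • (K.G v : ℂ)).re
      = RCLike.re (∫ v : ℝ, cexp (↑(-2 * Real.pi * v * w) * I) • (K.G v : ℂ)) := rfl
  rw [h4, ← h3]
  refine integral_congr_ae (Eventually.of_forall fun v => ?_)
  simp only [smul_eq_mul, RCLike.re_to_complex, Complex.mul_re, Complex.ofReal_re, Complex.ofReal_im,
    mul_zero, sub_zero, Complex.exp_ofReal_mul_I_re]
  rw [mul_comm]
  congr 1
  rw [← Real.cos_neg]
  congr 1
  ring

/-- the truncated kernel -/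
noncomputable def trunc (K : Ker) (n : ℕ) : Ker where
  g := fun v => (⟨1, 2, one_pos, one_lt_two⟩ : ContDiffBump (0 : ℝ)) (v / (n + 1)) * K.G v
  smooth := by
    refine ContDiff.mul ?_ K.G_smooth
    exact (ContDiffBump.contDiff _).comp (contDiff_id.div_const _)
  L := 2 * (n + 1)
  hL := by
    have : (0 : ℝ) ≤ n := Nat.cast_nonneg n
    linarith
  supp := by
    intro v hv
    have h1 : v / (n + 1) ∈ Function.support (⟨1, 2, one_pos, one_lt_two⟩ : ContDiffBump (0 : ℝ)) :=
      left_ne_zero_of_mul hv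
    rw [ContDiffBump.support_eq, Metric.mem_ball, dist_zero_right, Real.norm_eq_abs, abs_div] at h1
    have h0 : (0 : ℝ) < n + 1 := by positivity
    rw [abs_of_pos h0, div_lt_iff₀ h0] at h1
    exact h1.le
  even := by
    intro v
    rw [K.G_even, neg_div, ContDiffBump.neg]

theorem exists_good {ε : ℝ} (hε : 0 < ε) (hε1 : ε ≤ 1) : ∃ K : Ker,
    Real.pi * K.m2 ≤ 1 + ε ∧
    ∀ u : ℝ, |u| ≤ 1 → 1 - ε ≤ ∫ v, K.g v * Real.cos (u * v) := by
  have hpi := Real.pi_pos
  have hpi3 := Real.pi_gt_three
  have hrr : (1 : ℝ) / (2 * Real.pi) < (1 + ε) / (2 * Real.pi) := by gcongr; linarith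
  set f : ContDiffBump (0 : ℝ) := ⟨1 / (2 * Real.pi), (1 + ε) / (2 * Real.pi), by positivity, hrr⟩
    with hf
  have hfo : f.rOut ≤ 1 := by
    change (1 + ε) / (2 * Real.pi) ≤ 1
    rw [div_le_one (by positivity)]; linarith
  set Ψ := bk f hfo with hΨ
  have hΨm : Ψ.m2 ≤ (1 + ε) / Real.pi := by
    have h1 : Ψ.m2 ≤ ∫ v, (Icc (-f.rOut) f.rOut).indicator (fun _ => (1 : ℝ)) v := by
      unfold m2
      refine integral_mono_of_nonneg (Eventually.of_forall fun v => by positivity) ?_ ?_
      · rw [integrable_indicator_iff measurableSet_Icc]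
        exact integrableOn_const (by simp)
      · refine Eventually.of_forall fun v => ?_
        change (f v) ^ 2 ≤ _
        by_cases hv : v ∈ Icc (-f.rOut) f.rOut
        · rw [indicator_of_mem hv]
          have h1 := f.nonneg (x := v)
          have h2 := f.le_one (x := v)
          nlinarith
        · rw [indicator_of_notMem hv]
          have : f v = 0 := by
            apply f.zero_of_le_dist
            rw [dist_zero_right, Real.norm_eq_abs]
            by_contra hc
            push Not at hc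
            exact hv (abs_le.mp hc.le)
          rw [this]; simp
    refine h1.trans (le_of_eq ?_)
    rw [integral_indicator measurableSet_Icc]
    simp only [integral_const, MeasurableSet.univ, measureReal_restrict_apply, univ_inter,
      Real.volume_real_Icc, smul_eq_mul, mul_one]
    have h0 : (0 : ℝ) < f.rOut := f.rOut_pos
    rw [max_eq_left (by linarith)]
    change (1 + ε) / (2 * Real.pi) - -((1 + ε) / (2 * Real.pi)) = _
    field_simp
    ring
  have hlim : Tendsto (fun n : ℕ => ∫ v, |Ψ.G v - (Ψ.trunc n).g v|) atTop (𝓝 0) := by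
    have h0 : (0 : ℝ) = ∫ v : ℝ, (0 : ℝ) := by simp
    rw [h0]
    refine tendsto_integral_of_dominated_convergence (fun v => |Ψ.G v|) ?_ ?_ ?_ ?_
    · intro n
      exact (Ψ.G_cont.sub (Ψ.trunc n).cont).abs.aestronglyMeasurable
    · exact Ψ.G_integrableC.abs
    · intro n
      refine Eventually.of_forall fun v => ?_
      rw [Real.norm_eq_abs, abs_abs]
      have e1 : Ψ.G v - (Ψ.trunc n).g v
          = (1 - (⟨1, 2, one_pos, one_lt_two⟩ : ContDiffBump (0 : ℝ)) (v / (n + 1))) * Ψ.G v := by
        change Ψ.G v - _ * Ψ.G v = _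
        ring
      rw [e1, abs_mul]
      have h1 := (⟨1, 2, one_pos, one_lt_two⟩ : ContDiffBump (0 : ℝ)).nonneg (x := v / (n + 1))
      have h2 := (⟨1, 2, one_pos, one_lt_two⟩ : ContDiffBump (0 : ℝ)).le_one (x := v / (n + 1))
      refine mul_le_of_le_one_left (abs_nonneg _) ?_
      rw [abs_le]
      constructor <;> linarith
    · refine Eventually.of_forall fun v => ?_
      refine tendsto_const_nhds.congr' ?_
      obtain ⟨N, hN⟩ := exists_nat_ge |v|
      filter_upwards [eventually_ge_atTop N] with n hn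
      have e1 : Ψ.G v - (Ψ.trunc n).g v
          = (1 - (⟨1, 2, one_pos, one_lt_two⟩ : ContDiffBump (0 : ℝ)) (v / (n + 1))) * Ψ.G v := by
        change Ψ.G v - _ * Ψ.G v = _
        ring
      have e2 : (⟨1, 2, one_pos, one_lt_two⟩ : ContDiffBump (0 : ℝ)) (v / (n + 1)) = 1 := by
        apply ContDiffBump.one_of_mem_closedBall
        rw [Metric.mem_closedBall, dist_zero_right, Real.norm_eq_abs, abs_div]
        have h0 : (0 : ℝ) < n + 1 := by positivity
        change |v| / |(n : ℝ) + 1| ≤ 1
        rw [abs_of_pos h0, div_le_one h0]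
        have : (N : ℝ) ≤ n := by exact_mod_cast hn
        linarith
      rw [e1, e2]
      simp
  obtain ⟨n, hn⟩ := ((hlim.eventually (gt_mem_nhds hε))).exists
  refine ⟨Ψ.trunc n, ?_, ?_⟩
  · have h1 : (Ψ.trunc n).m2 ≤ ∫ v, Ψ.G v ^ 2 := by
      unfold m2
      refine integral_mono_of_nonneg (Eventually.of_forall fun v => by positivity)
        Ψ.G_sq_integrable (Eventually.of_forall fun v => ?_)
      change (_ * Ψ.G v) ^ 2 ≤ _
      rw [mul_pow]
      have h1 := (⟨1, 2, one_pos, one_lt_two⟩ : ContDiffBump (0 : ℝ)).nonneg (x := v / (n + 1))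
      have h2 := (⟨1, 2, one_pos, one_lt_two⟩ : ContDiffBump (0 : ℝ)).le_one (x := v / (n + 1))
      refine mul_le_of_le_one_left (by positivity) ?_
      nlinarith
    rw [Ψ.integral_G_sq] at h1
    calc Real.pi * (Ψ.trunc n).m2 ≤ Real.pi * ((1 + ε) / Real.pi) := by
          gcongr
          exact h1.trans hΨm
      _ = 1 + ε := by field_simp
  · intro u hu
    have h1 := Ψ.integral_G_cos (u / (2 * Real.pi))
    have h2 : Ψ.g (u / (2 * Real.pi)) = 1 := by
      change f (u / (2 * Real.pi)) = 1
      apply ContDiffBump.one_of_mem_closedBall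
      rw [Metric.mem_closedBall, dist_zero_right, Real.norm_eq_abs, abs_div,
        abs_of_pos (by positivity : (0 : ℝ) < 2 * Real.pi)]
      change |u| / (2 * Real.pi) ≤ 1 / (2 * Real.pi)
      gcongr
    have h3 : ∀ v : ℝ, 2 * Real.pi * v * (u / (2 * Real.pi)) = u * v := fun v => by field_simp
    simp_rw [h3] at h1
    rw [h2] at h1
    have hcos : ∀ F : ℝ → ℝ, Integrable F → Integrable (fun v => F v * Real.cos (u * v)) := by
      intro F hF
      refine hF.mul_bdd (c := 1) ?_ (Eventually.of_forall fun v => ?_)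
      · exact (Real.continuous_cos.comp (by fun_prop)).aestronglyMeasurable
      · exact Real.abs_cos_le_one _
    have h4 : (∫ v, Ψ.G v * Real.cos (u * v)) - ∫ v, (Ψ.trunc n).g v * Real.cos (u * v)
        = ∫ v, (Ψ.G v - (Ψ.trunc n).g v) * Real.cos (u * v) := by
      rw [← integral_sub (hcos _ Ψ.G_integrableC) (hcos _ (Ψ.trunc n).integrable)]
      refine integral_congr_ae (Eventually.of_forall fun v => ?_)
      simp only
      ring
    have h5 : ∫ v, (Ψ.G v - (Ψ.trunc n).g v) * Real.cos (u * v)
        ≤ ∫ v, |Ψ.G v - (Ψ.trunc n).g v| := by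
      have hi : Integrable (fun v => Ψ.G v - (Ψ.trunc n).g v) :=
        Ψ.G_integrableC.sub (Ψ.trunc n).integrable
      refine integral_mono (hcos _ hi) hi.abs fun v => ?_
      simp only
      refine (le_abs_self _).trans ?_
      rw [abs_mul]
      exact mul_le_of_le_one_right (abs_nonneg _) (Real.abs_cos_le_one _)
    linarith

end Ker

end Pool.Agent.Lib.MP_f9aece_nt_h97
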