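import Mathlib
import Pool.Agent.Lib.MP_f9aece_nt_h97.Kern

/-!
Lower and upper bounds for the Mellin transform of the bump.
-/

set_option autoImplicit false

namespace Pool.Agent.Lib.MP_f9aece_nt_h97

open MeasureTheory Set Filter Topology Complex

lemma abs_log_one_add_sub {w : ℝ} (hw : |w| ≤ 1 / 2) : |Real.log (1 + w) - w| ≤ w ^ 2 := by
  rw [abs_le] at hw
  have h0 : 0 < 1 + w := by linarith
  have h1 := Real.log_le_sub_one_of_pos h0
  have h2 := Real.one_sub_inv_le_log_of_pos h0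
  have h3 : -(w ^ 2) ≤ Real.log (1 + w) - w := by
    rcases le_or_gt 0 w with h | h
    · have : 1 - (1 + w)⁻¹ = w / (1 + w) := by field_simp; ring
      rw [this] at h2
      have : w - w ^ 2 ≤ w / (1 + w) := by
        rw [le_div_iff₀ h0]
        nlinarith [pow_nonneg h 3]
      linarith
    · have h6 : Real.exp (w - w ^ 2) ≤ 1 + w := by
        have h7 : 0 ≤ -(w - w ^ 2) := by nlinarith
        have h8 := Real.quadratic_le_exp_of_nonneg h7
        have h9 : Real.exp (w - w ^ 2) = (Real.exp (-(w - w ^ 2)))⁻¹ := by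
          rw [← Real.exp_neg, neg_neg]
        rw [h9]
        rw [inv_le_comm₀ (Real.exp_pos _) h0]
        refine le_trans ?_ h8
        rw [inv_le_iff_one_le_mul₀ h0]
        have hv1 : w ^ 2 ≤ 1 / 4 := by nlinarith
        have hv : 0 ≤ 1 + w - w ^ 2 + w ^ 3 := by
          have : -(1 / 8) ≤ w ^ 3 := by nlinarith
          linarith
        have hv3 : 0 ≤ w ^ 2 * (1 + w - w ^ 2 + w ^ 3) := by positivity
        nlinarith
      have h10 := Real.log_le_log (Real.exp_pos _) h6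
      rw [Real.log_exp] at h10
      linarith
  rw [abs_le]
  constructor
  · linarith
  · nlinarith [sq_nonneg w]

lemma cexp_sub_bound {v T t L : ℝ} (hL : 1 ≤ L) (hT : 4 * L ^ 2 ≤ T) (hv : |v| ≤ L) (ht0 : 0 ≤ t)
    (htT : t ≤ T) :
    ‖((1 + v / T : ℝ) : ℂ) ^ (1 / 2 + I * t - 1 : ℂ) - cexp (I * (t / T * v : ℝ))‖ ≤ 4 * L ^ 2 / T := by
  have hT0 : 0 < T := by nlinarith
  set w := v / T with hw
  have hwa : |w| ≤ L / T := by
    rw [hw, abs_div, abs_of_pos hT0]; gcongr
  have hLT : L / T ≤ 1 / 4 := by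
    rw [div_le_iff₀ hT0]; nlinarith
  have hw2 : |w| ≤ 1 / 2 := by linarith
  have h1w : 0 < 1 + w := by
    have := (abs_le.mp hw2).1; linarith
  set ℓ := Real.log (1 + w) with hℓ
  have hlw := abs_log_one_add_sub hw2
  rw [← hℓ] at hlw
  have hcp : ((1 + w : ℝ) : ℂ) ^ (1 / 2 + I * t - 1 : ℂ)
      = cexp (I * (t / T * v : ℝ)) * cexp (-(ℓ / 2) + I * (t * (ℓ - w))) := by
    rw [Complex.cpow_def_of_ne_zero (by exact_mod_cast h1w.ne'), ← Complex.ofReal_log h1w.le,
      ← Complex.exp_add]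
    congr 1
    have : t / T * v = t * w := by rw [hw]; ring
    rw [this, ← hℓ]
    push_cast
    ring
  rw [hcp]
  set z : ℂ := -(ℓ / 2) + I * (t * (ℓ - w)) with hz
  have hwsq : w ^ 2 ≤ (L / T) ^ 2 := by
    rw [← sq_abs w]; gcongr
  have hzn : ‖z‖ ≤ 2 * L ^ 2 / T := by
    have h1 : ‖z‖ ≤ |ℓ| / 2 + t * |ℓ - w| := by
      rw [hz]
      refine (norm_add_le _ _).trans (le_of_eq ?_)
      rw [norm_neg, norm_div, norm_mul, norm_I, one_mul, norm_mul, Complex.norm_real, Complex.norm_real,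
        Real.norm_eq_abs, Real.norm_eq_abs, abs_of_nonneg ht0]
      have : ((ℓ : ℂ) - (w : ℂ)) = ((ℓ - w : ℝ) : ℂ) := by push_cast; ring
      rw [this, Complex.norm_real, Real.norm_eq_abs]
      norm_num
    have h2 : |ℓ| ≤ 2 * (L / T) := by
      have : |ℓ| ≤ |ℓ - w| + |w| := by
        have := abs_add_le (ℓ - w) w
        rwa [sub_add_cancel] at this
      have h3 : (L / T) ^ 2 ≤ L / T * (1 / 4) := by
        rw [sq]; gcongr
      linarith [div_nonneg (by linarith : (0 : ℝ) ≤ L) hT0.le]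
    have h3 : t * |ℓ - w| ≤ L ^ 2 / T := by
      calc t * |ℓ - w| ≤ T * (L / T) ^ 2 := by
            gcongr
            exact hlw.trans hwsq
        _ = L ^ 2 / T := by field_simp
    have h4 : L / T ≤ L ^ 2 / T := by
      gcongr
      nlinarith
    calc ‖z‖ ≤ |ℓ| / 2 + t * |ℓ - w| := h1
      _ ≤ 2 * (L / T) / 2 + L ^ 2 / T := by gcongr
      _ ≤ 2 * L ^ 2 / T := by
          have : 2 * L ^ 2 / T = L ^ 2 / T + L ^ 2 / T := by ring
          rw [this]; linarith
  have hz1 : ‖z‖ ≤ 1 := by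
    refine hzn.trans ?_
    rw [div_le_one hT0]; linarith
  have e1 : cexp (I * (t / T * v : ℝ)) * cexp z - cexp (I * (t / T * v : ℝ))
      = cexp (I * (t / T * v : ℝ)) * (cexp z - 1) := by ring
  have hn1 : ‖cexp (I * (t / T * v : ℝ))‖ = 1 := by
    rw [mul_comm]; exact Complex.norm_exp_ofReal_mul_I _
  rw [e1, norm_mul, hn1, one_mul]
  calc ‖cexp z - 1‖ ≤ 2 * ‖z‖ := Complex.norm_exp_sub_one_le hz1
    _ ≤ 2 * (2 * L ^ 2 / T) := by gcongr
    _ = 4 * L ^ 2 / T := by ring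

namespace Ker

variable (K : Ker)

lemma mellin_phi {T : ℝ} (hT : 2 * K.L ≤ T) (s : ℂ) :
    (T : ℂ) * mellin (fun x => (K.phi T x : ℂ)) s
      = ∫ v : ℝ, ((1 + v / T : ℝ) : ℂ) ^ (s - 1) * (K.g v : ℂ) := by
  have hL := K.hL
  have hT0 : 0 < T := by linarith
  unfold mellin
  have h1 : ∫ x in Ioi (0 : ℝ), (x : ℂ) ^ (s - 1) • (K.phi T x : ℂ)
      = ∫ x : ℝ, (x : ℂ) ^ (s - 1) * (K.phi T x : ℂ) := by
    simp only [smul_eq_mul]
    rw [← integral_indicator measurableSet_Ioi]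
    refine integral_congr_ae (Eventually.of_forall fun x => ?_)
    simp only
    by_cases hx : x ∈ Ioi (0 : ℝ)
    · rw [indicator_of_mem hx]
    · rw [indicator_of_notMem hx]
      have : K.phi T x = 0 := by
        by_contra hne
        have := K.phi_supp hT0 hne
        rw [abs_le] at this
        have h2 : K.L / T ≤ 1 / 2 := by rw [div_le_iff₀ hT0]; linarith
        exact hx (by rw [mem_Ioi]; linarith)
      rw [this]; simp
  rw [h1]
  set F : ℝ → ℂ := fun v => ((1 + v / T : ℝ) : ℂ) ^ (s - 1) * (K.g v : ℂ) with hF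
  have h2 : ∀ x : ℝ, (x : ℂ) ^ (s - 1) * (K.phi T x : ℂ) = F (T * (x - 1)) := by
    intro x
    rw [hF]
    simp only
    have : 1 + T * (x - 1) / T = x := by field_simp; ring
    rw [this]
    rfl
  simp_rw [h2]
  have h3 := integral_sub_right_eq_self (fun y => F (T * y)) (1 : ℝ) (μ := volume)
  rw [h3, Measure.integral_comp_mul_left, abs_of_pos (inv_pos.mpr hT0)]
  rw [Complex.real_smul]
  push_cast
  have hTne : (T : ℂ) ≠ 0 := by exact_mod_cast hT0.ne'
  rw [← mul_assoc, mul_inv_cancel₀ hTne, one_mul]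

lemma mellin_lower {ε : ℝ} (hg : ∀ u : ℝ, |u| ≤ 1 → 1 - ε ≤ ∫ v, K.g v * Real.cos (u * v))
    {T t : ℝ} (hT : 4 * K.L ^ 2 ≤ T) (ht0 : 0 ≤ t) (htT : t ≤ T) :
    (1 - ε - 4 * K.L ^ 2 * K.ml / T) / T ≤ ‖mellin (fun x => (K.phi T x : ℂ)) (1 / 2 + I * t)‖ := by
  have hL := K.hL
  have hT0 : 0 < T := by nlinarith
  have hT2 : 2 * K.L ≤ T := by nlinarith
  have h1 := K.mellin_phi hT2 (1 / 2 + I * t)
  have hu : |t / T| ≤ 1 := by
    rw [abs_of_nonneg (by positivity), div_le_one hT0]; exact htT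
  have h2 := hg (t / T) hu
  set F : ℝ → ℂ := fun v => ((1 + v / T : ℝ) : ℂ) ^ (1 / 2 + I * t - 1 : ℂ) * (K.g v : ℂ) with hF
  set E : ℝ → ℂ := fun v => cexp (I * (t / T * v : ℝ)) * (K.g v : ℂ) with hE
  have hEi : Integrable E := by
    have hc : Continuous E := by
      rw [hE]
      exact (by fun_prop : Continuous fun v : ℝ => cexp (I * (t / T * v : ℝ))).mul
        (Complex.continuous_ofReal.comp K.cont)
    refine hc.integrable_of_hasCompactSupport ?_
    refine HasCompactSupport.mul_left ?_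
    exact K.csC
  have hdb : ∀ v, ‖F v - E v‖ ≤ 4 * K.L ^ 2 / T * |K.g v| := by
    intro v
    by_cases hv : K.g v = 0
    · simp [hF, hE, hv]
    · have hv2 := K.supp v hv
      have := cexp_sub_bound hL hT hv2 ht0 htT
      have e1 : F v - E v = (((1 + v / T : ℝ) : ℂ) ^ (1 / 2 + I * t - 1 : ℂ)
          - cexp (I * (t / T * v : ℝ))) * (K.g v : ℂ) := by
        rw [hF, hE]; ring
      rw [e1, norm_mul, Complex.norm_real, Real.norm_eq_abs]
      gcongr
  have hdi : Integrable (fun v => 4 * K.L ^ 2 / T * |K.g v|) := K.integrable.abs.const_mul _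
  have hFm : AEStronglyMeasurable F volume := by
    rw [hF]
    refine AEStronglyMeasurable.mul ?_ (Complex.continuous_ofReal.comp K.cont).aestronglyMeasurable
    refine Measurable.aestronglyMeasurable ?_
    refine Measurable.pow_const ?_ _
    fun_prop
  have hFE : Integrable (fun v => F v - E v) :=
    Integrable.mono' hdi (hFm.sub hEi.1) (Eventually.of_forall hdb)
  have hFi : Integrable F := by
    have := hFE.add hEi
    refine this.congr (Eventually.of_forall fun v => ?_)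
    simp
  have h3 : ‖(∫ v, F v) - ∫ v, E v‖ ≤ 4 * K.L ^ 2 / T * K.ml := by
    rw [← integral_sub hFi hEi]
    refine (norm_integral_le_of_norm_le hdi (Eventually.of_forall hdb)).trans (le_of_eq ?_)
    rw [integral_const_mul]
    rfl
  have h4 : (∫ v, E v).re = ∫ v, K.g v * Real.cos (t / T * v) := by
    have h5 := integral_re hEi
    have h6 : (∫ v, E v).re = RCLike.re (∫ v, E v) := rfl
    rw [h6, ← h5]
    refine integral_congr_ae (Eventually.of_forall fun v => ?_)
    simp only [hE, RCLike.re_to_complex, Complex.mul_re, Complex.ofReal_re, Complex.ofReal_im, mul_zero,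
      sub_zero]
    rw [mul_comm I, Complex.exp_ofReal_mul_I_re, mul_comm]
  have h5 : 1 - ε - 4 * K.L ^ 2 / T * K.ml ≤ ‖∫ v, F v‖ := by
    have a1 : (∫ v, E v).re ≤ ‖∫ v, E v‖ := Complex.re_le_norm _
    have a2 : ‖∫ v, E v‖ ≤ ‖∫ v, F v‖ + ‖(∫ v, F v) - ∫ v, E v‖ := by
      have := norm_sub_norm_le (∫ v, E v) (∫ v, F v)
      rw [norm_sub_rev] at this
      linarith
    rw [h4] at a1
    linarith
  rw [← h1, norm_mul, Complex.norm_real, Real.norm_eq_abs, abs_of_pos hT0] at h5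
  rw [div_le_iff₀ hT0]
  have : 4 * K.L ^ 2 * K.ml / T = 4 * K.L ^ 2 / T * K.ml := by ring
  rw [this, mul_comm _ T]
  exact h5

lemma mellin_upper_crude {T : ℝ} (hT : 2 * K.L ≤ T) (t : ℝ) :
    T * ‖mellin (fun x => (K.phi T x : ℂ)) (1 / 2 + I * t)‖ ≤ 2 * K.ml := by
  have hL := K.hL
  have hT0 : 0 < T := by linarith
  have h1 := K.mellin_phi hT (1 / 2 + I * t)
  have h2 : T * ‖mellin (fun x => (K.phi T x : ℂ)) (1 / 2 + I * t)‖
      = ‖∫ v : ℝ, ((1 + v / T : ℝ) : ℂ) ^ ((1 / 2 + I * t : ℂ) - 1) * (K.g v : ℂ)‖ := by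
    rw [← h1, norm_mul, Complex.norm_real, Real.norm_eq_abs, abs_of_pos hT0]
  rw [h2]
  have h3 : ∀ v : ℝ, ‖((1 + v / T : ℝ) : ℂ) ^ ((1 / 2 + I * t : ℂ) - 1) * (K.g v : ℂ)‖ ≤ 2 * |K.g v| := by
    intro v
    by_cases hv : K.g v = 0
    · simp [hv]
    · have hv2 := K.supp v hv
      have h4 : (1 : ℝ) / 2 ≤ 1 + v / T := by
        have h5 : |v / T| ≤ 1 / 2 := by
          rw [abs_div, abs_of_pos hT0, div_le_iff₀ hT0]
          linarith
        rw [abs_le] at h5
        linarith [h5.1]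
      rw [norm_mul, Complex.norm_real, Real.norm_eq_abs,
        Complex.norm_cpow_eq_rpow_re_of_pos (by linarith)]
      gcongr
      have e1 : ((1 / 2 + I * t : ℂ) - 1).re = -(1 / 2) := by simp; norm_num
      rw [e1]
      calc (1 + v / T) ^ (-(1 / 2) : ℝ) ≤ (1 / 2 : ℝ) ^ (-(1 / 2) : ℝ) :=
            Real.rpow_le_rpow_of_nonpos (by norm_num) h4 (by norm_num)
        _ ≤ (1 / 2 : ℝ) ^ (-1 : ℝ) :=
            Real.rpow_le_rpow_of_exponent_ge (by norm_num) (by norm_num) (by norm_num)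
        _ = 2 := by rw [Real.rpow_neg_one]; norm_num
  refine (norm_integral_le_of_norm_le (K.integrable.abs.const_mul 2)
    (Eventually.of_forall h3)).trans (le_of_eq ?_)
  rw [integral_const_mul]
  rfl

end Ker

end Pool.Agent.Lib.MP_f9aece_nt_h97
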