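import Mathlib

/-!
Sums of `1/j` against a tail function, with logarithmic main term.
-/

set_option autoImplicit false

namespace Pool.Agent.Lib.MP_f9aece_nt_h97

open MeasureTheory Set Filter Topology

/-- truncated harmonic counting function -/
noncomputable def Ah (J : ℕ) (y : ℝ) : ℝ :=
  ∑ j ∈ Finset.range J, if ((j + 1 : ℕ) : ℝ) < y then (((j + 1 : ℕ) : ℝ))⁻¹ else 0

/-- the Euler-Mascheroni constant -/
noncomputable abbrev γE : ℝ := Real.eulerMascheroniConstant

lemma harmonic_real (n : ℕ) : (harmonic n : ℝ) = ∑ j ∈ Finset.range n, (((j + 1 : ℕ) : ℝ))⁻¹ := by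
  rw [harmonic]
  push_cast
  rfl

lemma Ah_pt {y : ℝ} (hy : 0 < y) {J : ℕ} (hJ : 1 ≤ J) :
    |Ah J y - (Real.log y + γE)| ≤ 2 * y ^ (-(1 / 2) : ℝ) + y / J := by
  have hJ0 : (0 : ℝ) < J := by exact_mod_cast hJ
  have hg1 : 0 < γE := lt_trans (by norm_num) Real.one_half_lt_eulerMascheroniConstant
  have hg2 : γE < 2 / 3 := Real.eulerMascheroniConstant_lt_two_thirds
  have hyJ : 0 ≤ y / J := by positivity
  rcases le_or_gt y 1 with h1 | h1
  · have hA : Ah J y = 0 := by
      unfold Ah
      refine Finset.sum_eq_zero fun j _ => if_neg ?_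
      rw [not_lt]
      push_cast
      have : (0 : ℝ) ≤ j := Nat.cast_nonneg j
      linarith
    rw [hA, zero_sub, abs_neg]
    have hl : Real.log y ≤ 0 := Real.log_nonpos hy.le h1
    have hr1 : 1 ≤ y ^ (-(1 / 2) : ℝ) := by
      rw [Real.rpow_neg hy.le]
      exact (one_le_inv₀ (by positivity)).mpr (Real.rpow_le_one hy.le h1 (by norm_num))
    have hr2 : -Real.log y ≤ 2 * y ^ (-(1 / 2) : ℝ) := by
      have h2 := Real.log_le_sub_one_of_pos (x := y ^ (-(1 / 2) : ℝ)) (by positivity)
      rw [Real.log_rpow hy] at h2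
      linarith
    rw [abs_le]
    constructor <;> linarith
  · -- y > 1
    set n : ℕ := ⌈y⌉₊ - 1 with hn
    have hc1 : 1 < ⌈y⌉₊ := Nat.lt_ceil.mpr (by simpa using h1)
    have hn1 : 1 ≤ n := by omega
    have hny : (n : ℝ) < y := by
      rw [← Nat.lt_ceil]; omega
    have hyn : y ≤ n + 1 := by
      have := Nat.le_ceil y
      have e : (n : ℝ) + 1 = ⌈y⌉₊ := by
        rw [hn]; push_cast [Nat.cast_sub hc1.le]; ring
      rw [e]; exact this
    have hn0 : (0 : ℝ) < n := by exact_mod_cast hn1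
    have hA : Ah J y = (harmonic (min J n) : ℝ) := by
      unfold Ah
      rw [harmonic_real, ← Finset.sum_filter]
      refine Finset.sum_congr ?_ fun _ _ => rfl
      ext j
      simp only [Finset.mem_filter, Finset.mem_range, lt_min_iff]
      constructor
      · rintro ⟨h2, h3⟩
        refine ⟨h2, ?_⟩
        rw [← Nat.lt_ceil] at h3
        omega
      · rintro ⟨h2, h3⟩
        refine ⟨h2, ?_⟩
        rw [← Nat.lt_ceil]
        omega
    have hH1 : (harmonic n : ℝ) - Real.log (n + 1) < γE := by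
      have := Real.eulerMascheroniSeq_lt_eulerMascheroniConstant n
      exact this
    have hH2 : γE < (harmonic n : ℝ) - Real.log n := by
      have := Real.eulerMascheroniConstant_lt_eulerMascheroniSeq' n
      rw [Real.eulerMascheroniSeq', if_neg (by omega)] at this
      exact this
    have hl1 : Real.log (n + 1) ≤ Real.log y + 1 / n := by
      have h2 : Real.log (n + 1) ≤ Real.log (y * (1 + 1 / n)) := by
        apply Real.log_le_log (by positivity)
        have : (n : ℝ) * (1 + 1 / n) = n + 1 := by field_simp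
        nlinarith [show (0 : ℝ) < 1 + 1 / n by positivity]
      rw [Real.log_mul (by positivity) (by positivity)] at h2
      have h3 := Real.log_le_sub_one_of_pos (x := 1 + 1 / (n : ℝ)) (by positivity)
      linarith
    have hl2 : Real.log y ≤ Real.log n + 1 / n := by
      have h2 : Real.log y ≤ Real.log (n * (1 + 1 / n)) := by
        apply Real.log_le_log hy
        have : (n : ℝ) * (1 + 1 / n) = n + 1 := by field_simp
        linarith
      rw [Real.log_mul (by positivity) (by positivity)] at h2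
      have h3 := Real.log_le_sub_one_of_pos (x := 1 + 1 / (n : ℝ)) (by positivity)
      linarith
    have hmain : |(harmonic n : ℝ) - (Real.log y + γE)| ≤ 1 / n := by
      rw [abs_le]
      constructor <;> linarith
    have hn2 : 1 / (n : ℝ) ≤ 2 * y ^ (-(1 / 2) : ℝ) := by
      have h2 : 1 / (n : ℝ) ≤ 2 * y ^ (-1 : ℝ) := by
        rw [Real.rpow_neg_one, ← div_eq_mul_inv, div_le_div_iff₀ hn0 hy]
        have : (1 : ℝ) ≤ n := by exact_mod_cast hn1
        linarith
      refine h2.trans ?_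
      gcongr
      · exact h1.le
      · norm_num
    have hdiff : |Ah J y - (harmonic n : ℝ)| ≤ y / J := by
      rw [hA]
      rcases le_or_gt n J with h | h
      · rw [min_eq_right h, sub_self, abs_zero]; exact hyJ
      · rw [min_eq_left h.le, harmonic_real, harmonic_real]
        have h3 : ∑ j ∈ Finset.range n, (((j + 1 : ℕ) : ℝ))⁻¹
            = ∑ j ∈ Finset.range J, (((j + 1 : ℕ) : ℝ))⁻¹ + ∑ j ∈ Finset.Ico J n, (((j + 1 : ℕ) : ℝ))⁻¹ := by
          rw [Finset.sum_range_add_sum_Ico _ h.le]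
        have h4 : 0 ≤ ∑ j ∈ Finset.Ico J n, (((j + 1 : ℕ) : ℝ))⁻¹ := Finset.sum_nonneg fun _ _ => by positivity
        have h5 : ∑ j ∈ Finset.Ico J n, (((j + 1 : ℕ) : ℝ))⁻¹ ≤ (n : ℝ) / J := by
          calc ∑ j ∈ Finset.Ico J n, (((j + 1 : ℕ) : ℝ))⁻¹
              ≤ ∑ j ∈ Finset.Ico J n, ((J : ℝ))⁻¹ := by
                refine Finset.sum_le_sum fun j hj => ?_
                rw [Finset.mem_Ico] at hj
                apply inv_anti₀ hJ0
                push_cast
                have : (J : ℝ) ≤ j := by exact_mod_cast hj.1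
                linarith
            _ = ((n - J : ℕ) : ℝ) * (J : ℝ)⁻¹ := by
                rw [Finset.sum_const, Nat.card_Ico, nsmul_eq_mul]
            _ ≤ (n : ℝ) / J := by
                rw [div_eq_mul_inv]
                gcongr
                omega
        rw [h3, sub_add_cancel_left, abs_neg, abs_of_nonneg h4]
        refine h5.trans ?_
        gcongr
    have htri := abs_sub_le (Ah J y) (harmonic n : ℝ) (Real.log y + γE)
    linarith

/-- weighted harmonic sum with tail function -/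
theorem harm_sum {w : ℝ → ℝ} (hw : IntegrableOn w (Ioi 0)) (hw0 : ∀ u, 0 ≤ w u)
    (hw1 : IntegrableOn (fun u => w u * u ^ (-(1 / 2) : ℝ)) (Ioi 0))
    (hw2 : IntegrableOn (fun u => w u * u) (Ioi 0))
    (hw3 : IntegrableOn (fun u => w u * Real.log u) (Ioi 0))
    {v : ℝ} (hv : 0 < v) {J : ℕ} (hJ : 1 ≤ J) :
    |(∑ j ∈ Finset.range J, (((j + 1 : ℕ) : ℝ))⁻¹ * ∫ u in Ioi (((j + 1 : ℕ) : ℝ) * v), w u)
      - ((∫ u in Ioi (0 : ℝ), w u) * (Real.log (1 / v) + γE) + ∫ u in Ioi (0 : ℝ), w u * Real.log u)|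
      ≤ 2 * v ^ (1 / 2 : ℝ) * (∫ u in Ioi (0 : ℝ), w u * u ^ (-(1 / 2) : ℝ))
        + (1 / (J * v)) * ∫ u in Ioi (0 : ℝ), w u * u := by
  have hJ0 : (0 : ℝ) < J := by exact_mod_cast hJ
  have hterm : ∀ j : ℕ, ((((j + 1 : ℕ) : ℝ))⁻¹ * ∫ u in Ioi (((j + 1 : ℕ) : ℝ) * v), w u
      = ∫ u in Ioi (0 : ℝ), w u * (if ((j + 1 : ℕ) : ℝ) < u / v then (((j + 1 : ℕ) : ℝ))⁻¹ else 0)) := by
    intro j
    have hjv : 0 < ((j + 1 : ℕ) : ℝ) * v := by positivity
    have e1 : ∀ u, w u * (if ((j + 1 : ℕ) : ℝ) < u / v then (((j + 1 : ℕ) : ℝ))⁻¹ else 0)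
        = (Ioi (((j + 1 : ℕ) : ℝ) * v)).indicator (fun u => (((j + 1 : ℕ) : ℝ))⁻¹ * w u) u := by
      intro u
      rw [indicator_apply]
      by_cases h : ((j + 1 : ℕ) : ℝ) < u / v
      · rw [if_pos h, if_pos (by rw [mem_Ioi]; rwa [lt_div_iff₀ hv] at h), mul_comm]
      · rw [if_neg h, if_neg (by rw [mem_Ioi]; rwa [lt_div_iff₀ hv] at h), mul_zero]
    simp_rw [e1]
    rw [setIntegral_indicator measurableSet_Ioi, Ioi_inter_Ioi, max_eq_right hjv.le,
      integral_const_mul]
  have hint : ∀ j : ℕ, IntegrableOn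
      (fun u => w u * (if ((j + 1 : ℕ) : ℝ) < u / v then (((j + 1 : ℕ) : ℝ))⁻¹ else 0)) (Ioi 0) := by
    intro j
    refine Integrable.mul_bdd (c := (((j + 1 : ℕ) : ℝ))⁻¹) hw ?_ (Eventually.of_forall fun u => ?_)
    · refine Measurable.aestronglyMeasurable ?_
      refine Measurable.ite ?_ measurable_const measurable_const
      exact measurableSet_lt measurable_const (measurable_id.div_const _)
    · split_ifs
      · rw [Real.norm_eq_abs, abs_of_nonneg (by positivity)]
      · rw [norm_zero]; positivity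
  have hsum : ∑ j ∈ Finset.range J, (((j + 1 : ℕ) : ℝ))⁻¹ * ∫ u in Ioi (((j + 1 : ℕ) : ℝ) * v), w u
      = ∫ u in Ioi (0 : ℝ), w u * Ah J (u / v) := by
    rw [Finset.sum_congr rfl fun j _ => hterm j, ← integral_finsetSum _ fun j _ => hint j]
    refine integral_congr_ae (Eventually.of_forall fun u => ?_)
    simp only [Ah, Finset.mul_sum]
  have hintA : IntegrableOn (fun u => w u * Ah J (u / v)) (Ioi 0) := by
    have := integrable_finsetSum (μ := volume.restrict (Ioi (0 : ℝ))) (Finset.range J) (fun j _ => hint j)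
    refine this.congr (Eventually.of_forall fun u => ?_)
    simp only [Ah, Finset.mul_sum]
  have hmain : (∫ u in Ioi (0 : ℝ), w u) * (Real.log (1 / v) + γE) + ∫ u in Ioi (0 : ℝ), w u * Real.log u
      = ∫ u in Ioi (0 : ℝ), w u * (Real.log (u / v) + γE) := by
    rw [← integral_mul_const, ← integral_add (hw.mul_const _) hw3]
    refine setIntegral_congr_fun measurableSet_Ioi fun u hu => ?_
    have hu0 : (0 : ℝ) < u := hu
    rw [Real.log_div hu0.ne' hv.ne', Real.log_div one_ne_zero hv.ne', Real.log_one]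
    ring
  have hintM : IntegrableOn (fun u => w u * (Real.log (u / v) + γE)) (Ioi 0) := by
    have := (hw.mul_const (Real.log (1 / v) + γE)).add hw3
    refine IntegrableOn.congr_fun this (fun u hu => ?_) measurableSet_Ioi
    have hu0 : (0 : ℝ) < u := hu
    simp only [Pi.add_apply]
    rw [Real.log_div hu0.ne' hv.ne', Real.log_div one_ne_zero hv.ne', Real.log_one]
    ring
  rw [hsum, hmain, ← integral_sub hintA hintM]
  have hbound : IntegrableOn (fun u => 2 * v ^ (1 / 2 : ℝ) * (w u * u ^ (-(1 / 2) : ℝ))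
      + (1 / (J * v)) * (w u * u)) (Ioi 0) := (hw1.const_mul _).add (hw2.const_mul _)
  have h1 := norm_integral_le_of_norm_le (f := fun u => w u * Ah J (u / v) - w u * (Real.log (u / v) + γE))
    hbound ?_
  · rw [Real.norm_eq_abs] at h1
    refine h1.trans (le_of_eq ?_)
    rw [integral_add (hw1.const_mul _) (hw2.const_mul _), integral_const_mul, integral_const_mul]
  · filter_upwards [ae_restrict_mem measurableSet_Ioi] with u hu
    have hu0 : (0 : ℝ) < u := hu
    rw [← mul_sub, Real.norm_eq_abs, abs_mul, abs_of_nonneg (hw0 u)]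
    have h2 := Ah_pt (y := u / v) (by positivity) hJ
    have e1 : (u / v) ^ (-(1 / 2) : ℝ) = v ^ (1 / 2 : ℝ) * u ^ (-(1 / 2) : ℝ) := by
      rw [Real.div_rpow hu0.le hv.le, Real.rpow_neg hv.le, div_inv_eq_mul, mul_comm]
    calc w u * |Ah J (u / v) - (Real.log (u / v) + γE)|
        ≤ w u * (2 * (u / v) ^ (-(1 / 2) : ℝ) + (u / v) / J) := by
          have := hw0 u
          gcongr
      _ = 2 * v ^ (1 / 2 : ℝ) * (w u * u ^ (-(1 / 2) : ℝ)) + (1 / (J * v)) * (w u * u) := by
          rw [e1]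
          field_simp

end Pool.Agent.Lib.MP_f9aece_nt_h97
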