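import Mathlib
import Pool.Agent.Lib.MP_f9aece_nt_h97.Base
import Pool.Agent.Lib.MP_f9aece_nt_h97.Harm
import Pool.Agent.Lib.MP_f9aece_nt_h97.Muntz

/-!
The direct part of the quadratic mean of the Muentz sum.
-/

set_option autoImplicit false

namespace Pool.Agent.Lib.MP_f9aece_nt_h97

open MeasureTheory Set Filter Topology
open Pool.Agent.Lib.MP_f9aece_nt (DP pair BK K2 K2_nonneg K2_eq_inv_lcm)

/-- sum over multiples -/
lemma mult_sum {l : ℕ} (hl : 1 ≤ l) (N : ℕ) (F : ℕ → ℝ) (hF : ∀ M, N < M → F M = 0) :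
    ∑ j ∈ Finset.range N, F ((j + 1) * l) = ∑ M ∈ Finset.Icc 1 N, if l ∣ M then F M else 0 := by
  classical
  rw [← Finset.sum_filter]
  have h1 : ∑ j ∈ Finset.range N, F ((j + 1) * l)
      = ∑ j ∈ (Finset.range N).filter (fun j => (j + 1) * l ≤ N), F ((j + 1) * l) := by
    rw [Finset.sum_filter]
    refine Finset.sum_congr rfl fun j _ => ?_
    split_ifs with h
    · rfl
    · exact hF _ (not_le.mp h)
  rw [h1]
  refine Finset.sum_nbij' (fun j => (j + 1) * l) (fun M => M / l - 1) ?_ ?_ ?_ ?_ ?_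
  · intro j hj
    rw [Finset.mem_filter, Finset.mem_range] at hj
    rw [Finset.mem_filter, Finset.mem_Icc]
    refine ⟨⟨?_, hj.2⟩, Dvd.intro_left (j + 1) rfl⟩
    exact Nat.mul_pos (by omega) hl
  · intro M hM
    rw [Finset.mem_filter, Finset.mem_Icc] at hM
    obtain ⟨⟨h1, h2⟩, c, rfl⟩ := hM
    have hc : 1 ≤ c := by
      rcases Nat.eq_zero_or_pos c with h | h
      · subst h; simp at h1
      · exact h
    rw [Finset.mem_filter, Finset.mem_range, Nat.mul_div_cancel_left c hl]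
    have h3 : c ≤ N := le_trans (Nat.le_mul_of_pos_left c hl) h2
    refine ⟨by omega, ?_⟩
    have : c - 1 + 1 = c := by omega
    rw [this, mul_comm]
    exact h2
  · intro j _
    rw [Nat.mul_div_cancel _ hl]
    omega
  · intro M hM
    rw [Finset.mem_filter, Finset.mem_Icc] at hM
    obtain ⟨⟨h1, h2⟩, c, rfl⟩ := hM
    have hc : 1 ≤ c := by
      rcases Nat.eq_zero_or_pos c with h | h
      · subst h; simp at h1
      · exact h
    rw [Nat.mul_div_cancel_left c hl]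
    have : c - 1 + 1 = c := by omega
    rw [this, mul_comm]
  · intro j _
    rfl

/-- square of a sum of mutually annihilating terms -/
lemma sq_sum_of_ne {ι : Type} [DecidableEq ι] (s : Finset ι) (c : ι → ℝ)
    (h : ∀ i ∈ s, ∀ j ∈ s, i ≠ j → c i * c j = 0) :
    (∑ i ∈ s, c i) ^ 2 = ∑ i ∈ s, c i ^ 2 := by
  rw [sq, Finset.sum_mul_sum]
  refine Finset.sum_congr rfl fun i hi => ?_
  rw [Finset.sum_eq_single i, sq]
  · intro j hj hji
    exact h i hi j hj hji.symm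
  · intro h2; exact absurd hi h2

lemma bb_sq (D : DP) (N : ℕ) : bb D N ^ 2 = ∑ h ∈ D.coeff.support, ∑ k ∈ D.coeff.support,
    D.coeff h * D.coeff k * (if Nat.lcm h k ∣ N then 1 else 0) := by
  rw [sq, bb, Finset.sum_mul_sum]
  refine Finset.sum_congr rfl fun h _ => Finset.sum_congr rfl fun k _ => ?_
  by_cases h1 : h ∣ N
  · by_cases h2 : k ∣ N
    · rw [if_pos h1, if_pos h2, if_pos (Nat.lcm_dvd h1 h2), mul_one]
    · rw [if_neg h2, if_neg fun h3 => h2 ((Nat.dvd_lcm_right h k).trans h3), mul_zero, mul_zero]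
  · rw [if_neg h1, if_neg fun h3 => h1 ((Nat.dvd_lcm_left h k).trans h3)]
    ring

lemma sum_abs_bb_le (D : DP) (N : ℕ) : ∑ M ∈ Finset.Icc 1 N, |bb D M| ≤ nrm D * N := by
  calc ∑ M ∈ Finset.Icc 1 N, |bb D M| ≤ ∑ M ∈ Finset.Icc 1 N, nrm D := by
        refine Finset.sum_le_sum fun M _ => ?_
        unfold bb nrm
        refine (Finset.abs_sum_le_sum_abs _ _).trans (Finset.sum_le_sum fun h _ => ?_)
        split_ifs
        · exact le_rfl
        · rw [abs_zero]; exact abs_nonneg _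
    _ = nrm D * N := by
        rw [Finset.sum_const, Nat.card_Icc, nsmul_eq_mul]
        simp [mul_comm]

/-- the direct sum -/
noncomputable def q1 (φ : ℝ → ℝ) (D : DP) (x : ℝ) : ℝ :=
  ∑ h ∈ D.coeff.support, D.coeff h * ∑' n : ℕ, φ (((n + 1 : ℕ) : ℝ) * (h * x))

/-- the residue coefficient -/
noncomputable def c0 (D : DP) : ℝ := ∑ h ∈ D.coeff.support, D.coeff h * (h : ℝ)⁻¹

/-- the Muentz sum attached to a Dirichlet polynomial -/
noncomputable def QQ (φ : ℝ → ℝ) (D : DP) (x : ℝ) : ℝ :=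
  ∑ h ∈ D.coeff.support, D.coeff h * Phi φ (h * x)

lemma abs_c0_le {D : DP} (hD : ∀ n, D.coeff n ≠ 0 → 1 ≤ n) : |c0 D| ≤ nrm D := by
  unfold c0 nrm
  refine (Finset.abs_sum_le_sum_abs _ _).trans (Finset.sum_le_sum fun h hh => ?_)
  have h1 : 1 ≤ h := hD h (Finsupp.mem_support_iff.mp hh)
  rw [abs_mul]
  have h2 : |(h : ℝ)⁻¹| ≤ 1 := by
    rw [abs_of_nonneg (by positivity)]
    exact inv_le_one_of_one_le₀ (by exact_mod_cast h1)
  calc |D.coeff h| * |(h : ℝ)⁻¹| ≤ |D.coeff h| * 1 := by gcongr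
    _ = _ := mul_one _

lemma QQ_eq {φ : ℝ → ℝ} {D : DP} (hD : ∀ n, D.coeff n ≠ 0 → 1 ≤ n) {x : ℝ} (hx : 0 < x) :
    QQ φ D x = q1 φ D x - c0 D * (∫ u, φ u) * x⁻¹ := by
  unfold QQ q1 c0 Phi
  rw [Finset.sum_mul, Finset.sum_mul, ← Finset.sum_sub_distrib]
  refine Finset.sum_congr rfl fun h hh => ?_
  have h1 : 1 ≤ h := hD h (Finsupp.mem_support_iff.mp hh)
  have h0 : (0 : ℝ) < h := by exact_mod_cast h1
  rw [mul_inv]
  ring

namespace Bmp

variable {φ : ℝ → ℝ} (hφ : Bmp φ)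

include hφ

lemma q1_eq {D : DP} (hD : ∀ n, D.coeff n ≠ 0 → 1 ≤ n) {x0 x : ℝ} (hx0 : 0 < x0) (hx : x0 ≤ x)
    {N : ℕ} (hN : 2 < N * x0) : q1 φ D x = ∑ M ∈ Finset.Icc 1 N, bb D M * φ (M * x) := by
  have hx' : 0 < x := lt_of_lt_of_le hx0 hx
  have h1 : ∀ h ∈ D.coeff.support, ∑' n : ℕ, φ (((n + 1 : ℕ) : ℝ) * (h * x))
      = ∑ M ∈ Finset.Icc 1 N, if h ∣ M then φ (M * x) else 0 := by
    intro h hh
    have hh1 : 1 ≤ h := hD h (Finsupp.mem_support_iff.mp hh)
    have hh0 : (1 : ℝ) ≤ h := by exact_mod_cast hh1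
    have hlt : 2 < (N : ℝ) * (h * x) := by
      calc (2 : ℝ) < N * x0 := hN
        _ ≤ N * x := by gcongr
        _ = N * (1 * x) := by ring
        _ ≤ _ := by gcongr
    rw [hφ.tsum_eq (by positivity) hlt]
    rw [← mult_sum hh1 N (fun M => φ (M * x))]
    · refine Finset.sum_congr rfl fun n _ => ?_
      congr 1
      push_cast
      ring
    · intro M hM
      apply hφ.zero_of_gt
      have : (N : ℝ) ≤ M := by exact_mod_cast hM.le
      calc (2 : ℝ) < N * x0 := hN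
        _ ≤ M * x := by gcongr
  unfold q1
  rw [Finset.sum_congr rfl fun h hh => by rw [h1 h hh]]
  simp only [bb, Finset.mul_sum, Finset.sum_mul]
  rw [Finset.sum_comm]
  refine Finset.sum_congr rfl fun M _ => Finset.sum_congr rfl fun h _ => ?_
  split_ifs <;> ring

lemma q1_sq {ε : ℝ} (hε : ∀ y, φ y ≠ 0 → |y - 1| ≤ ε) {D : DP} (hD : ∀ n, D.coeff n ≠ 0 → 1 ≤ n)
    {x0 x : ℝ} (hx0 : 0 < x0) (hx : x0 ≤ x) (hεx : 2 * ε < x0) {N : ℕ} (hN : 2 < N * x0) :
    q1 φ D x ^ 2 = ∑ M ∈ Finset.Icc 1 N, bb D M ^ 2 * φ (M * x) ^ 2 := by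
  rw [hφ.q1_eq hD hx0 hx hN, sq_sum_of_ne]
  · exact Finset.sum_congr rfl fun M _ => by ring
  · intro i _ j _ hij
    by_contra hcon
    have h1 : φ (i * x) ≠ 0 := by
      intro h; apply hcon; rw [h]; ring
    have h2 : φ (j * x) ≠ 0 := by
      intro h; apply hcon; rw [h]; ring
    have h3 := hε _ h1
    have h4 := hε _ h2
    have h5 : |(i : ℝ) * x - j * x| ≤ 2 * ε := by
      have e : (i : ℝ) * x - j * x = (i * x - 1) - (j * x - 1) := by ring
      rw [e]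
      exact (abs_sub _ _).trans (by linarith)
    rw [← sub_mul, abs_mul, abs_of_pos (lt_of_lt_of_le hx0 hx)] at h5
    have h6 : (1 : ℝ) ≤ |(i : ℝ) - j| := by
      have : (1 : ℤ) ≤ |(i : ℤ) - j| := Int.one_le_abs (sub_ne_zero.mpr (by exact_mod_cast hij))
      exact_mod_cast this
    nlinarith [lt_of_lt_of_le hx0 hx]

lemma sq_integrable : Integrable (fun y => φ y ^ 2) := by
  refine Continuous.integrable_of_hasCompactSupport (hφ.cont.pow 2) ?_
  exact hφ.compactSupp.comp_left (g := fun y => y ^ 2) (by simp)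

/-- tail function -/
lemma tail_zero {v : ℝ} (hv : 2 ≤ v) : ∫ u in Ioi v, φ u ^ 2 = 0 := by
  rw [setIntegral_congr_fun measurableSet_Ioi (g := fun _ => (0 : ℝ))]
  · simp
  · intro u hu
    simp only
    rw [hφ.zero_of_gt (lt_of_le_of_lt hv hu)]
    norm_num

lemma int_mul_sq {F : ℝ → ℝ} (hF : ContinuousOn F (Ioi 0)) :
    IntegrableOn (fun u => φ u ^ 2 * F u) (Ioi 0) := by
  have h1 : IntegrableOn (fun u => φ u ^ 2 * F u) (Icc (1 / 2) 2) := by
    refine ContinuousOn.integrableOn_Icc ?_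
    refine ((hφ.cont.pow 2).continuousOn).mul (hF.mono fun u hu => ?_)
    have := hu.1
    rw [mem_Ioi]
    linarith
  have h2 : IntegrableOn (fun u => φ u ^ 2 * F u) ((Icc (1 / 2) 2)ᶜ) := by
    refine IntegrableOn.congr_fun (f := fun _ => (0 : ℝ)) integrableOn_zero (fun u hu => ?_)
      measurableSet_Icc.compl
    simp only
    have : φ u = 0 := by
      by_contra h
      exact hu (hφ.supp u h)
    rw [this]
    ring
  have h3 := h1.union h2
  rw [union_compl_self] at h3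
  exact h3.mono_set (subset_univ _)

lemma int_mul_sq_le {F : ℝ → ℝ} (hF : ContinuousOn F (Ioi 0)) {B : ℝ}
    (hB : ∀ u, 1 / 2 ≤ u → u ≤ 2 → |F u| ≤ B) :
    |∫ u in Ioi (0 : ℝ), φ u ^ 2 * F u| ≤ (∫ y, φ y ^ 2) * B := by
  have h1 := norm_integral_le_of_norm_le (μ := volume.restrict (Ioi (0 : ℝ)))
    (f := fun u => φ u ^ 2 * F u) (g := fun u => φ u ^ 2 * B)
    ((hφ.sq_integrable.integrableOn).mul_const B) (Eventually.of_forall fun u => ?_)
  · rw [Real.norm_eq_abs] at h1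
    refine h1.trans ?_
    rw [integral_mul_const]
    have hB0 : 0 ≤ B := (abs_nonneg _).trans (hB 1 (by norm_num) (by norm_num))
    refine mul_le_mul_of_nonneg_right ?_ hB0
    exact setIntegral_le_integral hφ.sq_integrable (Eventually.of_forall fun u => by positivity)
  · rw [Real.norm_eq_abs, abs_mul, abs_of_nonneg (by positivity)]
    by_cases h : φ u = 0
    · rw [h]; simp
    · have := hφ.supp u h
      exact mul_le_mul_of_nonneg_left (hB u this.1 this.2) (by positivity)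

lemma integral_q1_sq {ε : ℝ} (hε : ∀ y, φ y ≠ 0 → |y - 1| ≤ ε) {D : DP}
    (hD : ∀ n, D.coeff n ≠ 0 → 1 ≤ n)
    {x0 : ℝ} (hx0 : 0 < x0) (hεx : 2 * ε < x0) {N : ℕ} (hN : 2 < N * x0) :
    IntegrableOn (fun x => q1 φ D x ^ 2) (Ioi x0) ∧
    ∫ x in Ioi x0, q1 φ D x ^ 2 = ∑ h ∈ D.coeff.support, ∑ k ∈ D.coeff.support,
      D.coeff h * D.coeff k * (K2 h k * ∑ j ∈ Finset.range N, (((j + 1 : ℕ) : ℝ))⁻¹ *
        ∫ u in Ioi (((j + 1 : ℕ) : ℝ) * ((Nat.lcm h k : ℕ) * x0)), φ u ^ 2) := by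
  have hi : ∀ M ∈ Finset.Icc 1 N, IntegrableOn (fun x => bb D M ^ 2 * φ (M * x) ^ 2) (Ioi x0) := by
    intro M hM
    have hM0 : (M : ℝ) ≠ 0 := by
      rw [Finset.mem_Icc] at hM
      exact_mod_cast (by omega : M ≠ 0)
    refine Integrable.const_mul ?_ _
    exact (hφ.sq_integrable.comp_mul_left' hM0).integrableOn
  have hcongr : EqOn (fun x => q1 φ D x ^ 2)
      (fun x => ∑ M ∈ Finset.Icc 1 N, bb D M ^ 2 * φ (M * x) ^ 2) (Ioi x0) := fun x hx =>
    hφ.q1_sq hε hD hx0 (le_of_lt hx) hεx hN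
  constructor
  · refine IntegrableOn.congr_fun ?_ hcongr.symm measurableSet_Ioi
    exact integrable_finsetSum _ hi
  rw [setIntegral_congr_fun measurableSet_Ioi hcongr, integral_finsetSum _ hi]
  have e1 : ∀ M ∈ Finset.Icc 1 N, ∫ x in Ioi x0, bb D M ^ 2 * φ (M * x) ^ 2
      = ∑ h ∈ D.coeff.support, ∑ k ∈ D.coeff.support, D.coeff h * D.coeff k *
        (if Nat.lcm h k ∣ M then ((M : ℝ)⁻¹ * ∫ u in Ioi ((M : ℝ) * x0), φ u ^ 2) else 0) := by
    intro M hM
    have hM0 : (0 : ℝ) < M := by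
      rw [Finset.mem_Icc] at hM
      exact_mod_cast (by omega : 0 < M)
    rw [integral_const_mul, integral_comp_mul_left_Ioi (fun y => φ y ^ 2) x0 hM0, smul_eq_mul, bb_sq,
      Finset.sum_mul]
    refine Finset.sum_congr rfl fun h _ => ?_
    rw [Finset.sum_mul]
    refine Finset.sum_congr rfl fun k _ => ?_
    split_ifs <;> ring
  rw [Finset.sum_congr rfl e1, Finset.sum_comm]
  refine Finset.sum_congr rfl fun h hh => ?_
  rw [Finset.sum_comm]
  refine Finset.sum_congr rfl fun k hk => ?_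
  have hh1 : 1 ≤ h := hD h (Finsupp.mem_support_iff.mp hh)
  have hk1 : 1 ≤ k := hD k (Finsupp.mem_support_iff.mp hk)
  have hl : 1 ≤ Nat.lcm h k := Nat.lcm_pos hh1 hk1
  have hl0 : (0 : ℝ) < (Nat.lcm h k : ℕ) := by exact_mod_cast hl
  rw [← Finset.mul_sum, ← mult_sum hl N (fun M => (M : ℝ)⁻¹ * ∫ u in Ioi ((M : ℝ) * x0), φ u ^ 2)]
  · congr 1
    rw [Finset.mul_sum, K2_eq_inv_lcm (by omega) (by omega)]
    refine Finset.sum_congr rfl fun j _ => ?_
    push_cast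
    rw [mul_inv]
    have e2 : ((j : ℝ) + 1) * (Nat.lcm h k : ℕ) * x0 = ((j : ℝ) + 1) * ((Nat.lcm h k : ℕ) * x0) := by
      ring
    rw [e2]
    ring
  · intro M hM
    have : 2 ≤ (M : ℝ) * x0 := by
      have : (N : ℝ) ≤ M := by exact_mod_cast hM.le
      calc (2 : ℝ) ≤ N * x0 := hN.le
        _ ≤ M * x0 := by gcongr
    rw [hφ.tail_zero this, mul_zero]

/-- logarithmic moment -/
noncomputable def _root_.Pool.Agent.Lib.MP_f9aece_nt_h97.lm (φ : ℝ → ℝ) : ℝ :=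
  ∫ u in Ioi (0 : ℝ), φ u ^ 2 * Real.log u

lemma abs_lm_le : |lm φ| ≤ (∫ y, φ y ^ 2) * 1 := by
  unfold lm
  refine hφ.int_mul_sq_le (Real.continuousOn_log.mono fun u hu => ?_) fun u h1 h2 => ?_
  · exact ne_of_gt hu
  · have hu : 0 < u := by linarith
    have hl2 : Real.log 2 < 1 := by
      have := Real.log_two_lt_d9
      linarith
    rw [abs_le]
    constructor
    · have : Real.log (1 / 2) ≤ Real.log u := Real.log_le_log (by norm_num) h1
      rw [Real.log_div one_ne_zero two_ne_zero, Real.log_one] at this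
      linarith
    · have : Real.log u ≤ Real.log 2 := Real.log_le_log hu h2
      linarith

theorem direct_q1 {ε : ℝ} (hε : ∀ y, φ y ≠ 0 → |y - 1| ≤ ε) {D : DP}
    (hD : ∀ n, D.coeff n ≠ 0 → 1 ≤ n)
    {x0 : ℝ} (hx0 : 0 < x0) (hx01 : x0 ≤ 1) (hεx : 2 * ε < x0) :
    |(∫ x in Ioi x0, q1 φ D x ^ 2)
      - ((∫ y, φ y ^ 2) * ((Real.log (1 / x0) + γE) * BK K2 D D - BK Kl D D) + lm φ * BK K2 D D)|
      ≤ nrm D ^ 2 * (6 * (∫ y, φ y ^ 2) * x0 ^ (1 / 2 : ℝ)) := by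
  set m := ∫ y, φ y ^ 2 with hm
  have hm0 : 0 ≤ m := integral_nonneg fun y => by positivity
  obtain ⟨N, hNN⟩ := exists_nat_gt (3 / x0 ^ 2)
  have hNx : 3 < (N : ℝ) * x0 ^ 2 := by
    rwa [div_lt_iff₀ (by positivity)] at hNN
  have hN : 2 < (N : ℝ) * x0 := by
    have : (N : ℝ) * x0 ^ 2 ≤ N * x0 := by
      have : x0 ^ 2 ≤ x0 := by rw [sq]; exact mul_le_of_le_one_left hx0.le hx01
      gcongr
    linarith
  have hN1 : 1 ≤ N := by
    rcases Nat.eq_zero_or_pos N with h | h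
    · subst h; simp at hN; linarith
    · exact h
  have hN0 : (0 : ℝ) < N := by exact_mod_cast hN1
  rw [(hφ.integral_q1_sq hε hD hx0 hεx hN).2, BK_eq, BK_eq]
  have hmain : m * ((Real.log (1 / x0) + γE) * (∑ h ∈ D.coeff.support, ∑ k ∈ D.coeff.support,
        D.coeff h * D.coeff k * K2 h k) - ∑ h ∈ D.coeff.support, ∑ k ∈ D.coeff.support,
        D.coeff h * D.coeff k * Kl h k) + lm φ * (∑ h ∈ D.coeff.support, ∑ k ∈ D.coeff.support,
        D.coeff h * D.coeff k * K2 h k)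
      = ∑ h ∈ D.coeff.support, ∑ k ∈ D.coeff.support, D.coeff h * D.coeff k * (K2 h k *
        (m * (Real.log (1 / x0) - Real.log (Nat.lcm h k) + γE) + lm φ)) := by
    simp only [Finset.mul_sum, ← Finset.sum_sub_distrib, ← Finset.sum_add_distrib]
    refine Finset.sum_congr rfl fun h _ => Finset.sum_congr rfl fun k _ => ?_
    unfold Kl
    ring
  rw [hmain]
  simp only [← Finset.sum_sub_distrib]
  have hm' : (∫ u in Ioi (0 : ℝ), φ u ^ 2) = m := by
    rw [hm]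
    apply setIntegral_eq_integral_of_forall_compl_eq_zero
    intro x hx
    have : φ x = 0 := hφ.zero_of_lt (by
      rw [mem_Ioi, not_lt] at hx; linarith)
    rw [this]; norm_num
  have hterm : ∀ h ∈ D.coeff.support, ∀ k ∈ D.coeff.support,
      |D.coeff h * D.coeff k * (K2 h k * ∑ j ∈ Finset.range N, (((j + 1 : ℕ) : ℝ))⁻¹ *
        ∫ u in Ioi (((j + 1 : ℕ) : ℝ) * ((Nat.lcm h k : ℕ) * x0)), φ u ^ 2)
      - D.coeff h * D.coeff k * (K2 h k *
        (m * (Real.log (1 / x0) - Real.log (Nat.lcm h k) + γE) + lm φ))|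
      ≤ |D.coeff h| * |D.coeff k| * (6 * m * x0 ^ (1 / 2 : ℝ)) := by
    intro h hh k hk
    have hh1 : 1 ≤ h := hD h (Finsupp.mem_support_iff.mp hh)
    have hk1 : 1 ≤ k := hD k (Finsupp.mem_support_iff.mp hk)
    have hl : 1 ≤ Nat.lcm h k := Nat.lcm_pos hh1 hk1
    set l : ℝ := ((Nat.lcm h k : ℕ) : ℝ) with hldef
    have hl1 : 1 ≤ l := by rw [hldef]; exact_mod_cast hl
    have hl0 : 0 < l := by linarith
    have hv : 0 < l * x0 := by positivity
    have hs := harm_sum (w := fun u => φ u ^ 2) hφ.sq_integrable.integrableOn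
      (fun u => by positivity)
      (hφ.int_mul_sq (F := fun u => u ^ (-(1 / 2) : ℝ)) (fun u hu =>
        (Real.continuousAt_rpow_const _ _ (Or.inl (ne_of_gt hu))).continuousWithinAt))
      (hφ.int_mul_sq (F := fun u => u) continuousOn_id)
      (hφ.int_mul_sq (F := fun u => Real.log u) (Real.continuousOn_log.mono fun u hu => ne_of_gt hu))
      hv hN1
    rw [hm'] at hs
    have b1 : ∫ u in Ioi (0 : ℝ), φ u ^ 2 * u ^ (-(1 / 2) : ℝ) ≤ m * 2 := by
      refine (le_abs_self _).trans (hφ.int_mul_sq_le (F := fun u => u ^ (-(1 / 2) : ℝ)) (fun u hu =>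
        (Real.continuousAt_rpow_const _ _ (Or.inl (ne_of_gt hu))).continuousWithinAt) ?_)
      intro u h1 h2
      have hu : 0 < u := by linarith
      rw [abs_of_nonneg (by positivity)]
      calc u ^ (-(1 / 2) : ℝ) ≤ (1 / 2 : ℝ) ^ (-(1 / 2) : ℝ) :=
            Real.rpow_le_rpow_of_nonpos (by norm_num) h1 (by norm_num)
        _ ≤ (1 / 2 : ℝ) ^ (-1 : ℝ) :=
            Real.rpow_le_rpow_of_exponent_ge (by norm_num) (by norm_num) (by norm_num)
        _ = 2 := by rw [Real.rpow_neg_one]; norm_num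
    have b2 : ∫ u in Ioi (0 : ℝ), φ u ^ 2 * u ≤ m * 2 := by
      refine (le_abs_self _).trans (hφ.int_mul_sq_le (F := fun u => u) continuousOn_id ?_)
      intro u h1 h2
      rw [abs_of_nonneg (by linarith)]
      exact h2
    have e1 : Real.log (1 / (l * x0)) = Real.log (1 / x0) - Real.log l := by
      rw [Real.log_div one_ne_zero hv.ne', Real.log_div one_ne_zero hx0.ne', Real.log_mul hl0.ne' hx0.ne',
        Real.log_one]
      ring
    rw [e1] at hs
    have e2 : ∫ u in Ioi (0 : ℝ), φ u ^ 2 * Real.log u = lm φ := rfl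
    rw [e2] at hs
    rw [← mul_sub, ← mul_sub, abs_mul, abs_mul, abs_mul, abs_of_nonneg (K2_nonneg h k)]
    have hK : K2 h k = l⁻¹ := by rw [K2_eq_inv_lcm (by omega) (by omega)]
    have herr : 2 * (l * x0) ^ (1 / 2 : ℝ) * (m * 2) + (1 / (N * (l * x0))) * (m * 2)
        ≤ l * (6 * m * x0 ^ (1 / 2 : ℝ)) := by
      have c1 : (l * x0) ^ (1 / 2 : ℝ) ≤ l * x0 ^ (1 / 2 : ℝ) := by
        rw [Real.mul_rpow hl0.le hx0.le]
        gcongr
        calc l ^ (1 / 2 : ℝ) ≤ l ^ (1 : ℝ) :=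
              Real.rpow_le_rpow_of_exponent_le hl1 (by norm_num)
          _ = l := Real.rpow_one l
      have c2 : 1 / (N * (l * x0)) ≤ x0 ^ (1 / 2 : ℝ) := by
        have c3 : 1 / (N * (l * x0)) ≤ x0 := by
          rw [div_le_iff₀ (by positivity)]
          have : 1 ≤ (N : ℝ) * x0 ^ 2 := by linarith
          calc (1 : ℝ) ≤ 1 * (N * x0 ^ 2) := by linarith
            _ ≤ l * (N * x0 ^ 2) := by gcongr
            _ = x0 * (N * (l * x0)) := by ring
        refine c3.trans ?_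
        calc x0 = x0 ^ (1 : ℝ) := (Real.rpow_one _).symm
          _ ≤ x0 ^ (1 / 2 : ℝ) := Real.rpow_le_rpow_of_exponent_ge hx0 hx01 (by norm_num)
      have c4 : 0 ≤ x0 ^ (1 / 2 : ℝ) := by positivity
      have c5 : x0 ^ (1 / 2 : ℝ) * (m * 2) ≤ l * x0 ^ (1 / 2 : ℝ) * (m * 2) := by
        have : x0 ^ (1 / 2 : ℝ) ≤ l * x0 ^ (1 / 2 : ℝ) := le_mul_of_one_le_left c4 hl1
        gcongr
      calc 2 * (l * x0) ^ (1 / 2 : ℝ) * (m * 2) + (1 / (N * (l * x0))) * (m * 2)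
          ≤ 2 * (l * x0 ^ (1 / 2 : ℝ)) * (m * 2) + x0 ^ (1 / 2 : ℝ) * (m * 2) := by gcongr
        _ ≤ l * (6 * m * x0 ^ (1 / 2 : ℝ)) := by linarith
    have hX : |(∑ j ∈ Finset.range N, (((j + 1 : ℕ) : ℝ))⁻¹ *
        ∫ u in Ioi (((j + 1 : ℕ) : ℝ) * (l * x0)), φ u ^ 2)
        - (m * (Real.log (1 / x0) - Real.log l + γE) + lm φ)| ≤ l * (6 * m * x0 ^ (1 / 2 : ℝ)) := by
      refine hs.trans (le_trans ?_ herr)
      gcongr
    calc |D.coeff h| * |D.coeff k| * (K2 h k * |(∑ j ∈ Finset.range N, (((j + 1 : ℕ) : ℝ))⁻¹ *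
        ∫ u in Ioi (((j + 1 : ℕ) : ℝ) * (l * x0)), φ u ^ 2)
        - (m * (Real.log (1 / x0) - Real.log l + γE) + lm φ)|)
        ≤ |D.coeff h| * |D.coeff k| * (l⁻¹ * (l * (6 * m * x0 ^ (1 / 2 : ℝ)))) := by
          rw [hK]; gcongr
      _ = _ := by field_simp
  refine (Finset.abs_sum_le_sum_abs _ _).trans ((Finset.sum_le_sum fun h hh =>
    (Finset.abs_sum_le_sum_abs _ _).trans (Finset.sum_le_sum fun k hk => hterm h hh k hk)).trans
    (le_of_eq ?_))
  unfold nrm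
  rw [sq, Finset.sum_mul_sum, Finset.sum_mul]
  refine Finset.sum_congr rfl fun h _ => ?_
  rw [Finset.sum_mul]

/-- full direct part including the residue term -/
theorem direct {ε : ℝ} (hε : ∀ y, φ y ≠ 0 → |y - 1| ≤ ε) {D : DP}
    (hD : ∀ n, D.coeff n ≠ 0 → 1 ≤ n)
    {x0 : ℝ} (hx0 : 0 < x0) (hx01 : x0 ≤ 1) (hεx : 2 * ε < x0) :
    IntegrableOn (fun x => QQ φ D x ^ 2) (Ioi x0) ∧
    |(∫ x in Ioi x0, QQ φ D x ^ 2)
      - ((∫ y, φ y ^ 2) * ((Real.log (1 / x0) + γE) * BK K2 D D - BK Kl D D) + lm φ * BK K2 D D)|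
      ≤ nrm D ^ 2 * (6 * (∫ y, φ y ^ 2) * x0 ^ (1 / 2 : ℝ) + 13 * (∫ y, |φ y|) ^ 2 / x0) := by
  set lam := ∫ y, |φ y| with hlam
  have hlam0 : 0 ≤ lam := integral_nonneg fun y => abs_nonneg _
  set κ := ∫ u, φ u with hκ
  have hκl : |κ| ≤ lam := abs_integral_le_integral_abs
  have hc0 := abs_c0_le hD
  have hnn := nrm_nonneg D
  obtain ⟨N, hN, hN'⟩ : ∃ N : ℕ, 2 < (N : ℝ) * x0 ∧ (N : ℝ) * x0 ≤ 3 := by
    refine ⟨⌊2 / x0⌋₊ + 1, ?_, ?_⟩
    · have := Nat.lt_floor_add_one (2 / x0)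
      rw [div_lt_iff₀ hx0] at this
      push_cast
      exact this
    · have h1 := Nat.floor_le (a := 2 / x0) (by positivity)
      push_cast
      have h2 : (⌊2 / x0⌋₊ : ℝ) * x0 ≤ 2 := by
        rwa [le_div_iff₀ hx0] at h1
      rw [add_mul, one_mul]
      linarith
  obtain ⟨i1, _⟩ := hφ.integral_q1_sq hε hD hx0 hεx hN
  -- the cross term
  have hq1 : EqOn (fun x => q1 φ D x * x⁻¹) (fun x => ∑ M ∈ Finset.Icc 1 N, bb D M * (φ (M * x) * x⁻¹))
      (Ioi x0) := by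
    intro x hx
    simp only
    rw [hφ.q1_eq hD hx0 (le_of_lt hx) hN, Finset.sum_mul]
    exact Finset.sum_congr rfl fun M _ => by ring
  have hφx : ∀ M ∈ Finset.Icc 1 N, IntegrableOn (fun x => φ (M * x) * x⁻¹) (Ioi x0) ∧
      |∫ x in Ioi x0, φ (M * x) * x⁻¹| ≤ 2 * lam := by
    intro M hM
    have hM0 : (0 : ℝ) < M := by
      rw [Finset.mem_Icc] at hM
      exact_mod_cast (by omega : 0 < M)
    have hdom : Integrable (fun x : ℝ => 2 * (M * |φ (M * x)|)) := by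
      refine Integrable.const_mul (Integrable.const_mul ?_ _) _
      exact hφ.integrable.abs.comp_mul_left' hM0.ne'
    have hle : ∀ x ∈ Ioi x0, ‖φ (M * x) * x⁻¹‖ ≤ 2 * (M * |φ (M * x)|) := by
      intro x hx
      have hx' : 0 < x := lt_trans hx0 hx
      rw [norm_mul, Real.norm_eq_abs, Real.norm_eq_abs, abs_of_pos (inv_pos.mpr hx')]
      by_cases h : φ (M * x) = 0
      · rw [h]; simp
      · have h1 := (hφ.supp _ h).1
        have h2 : x⁻¹ ≤ 2 * M := by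
          rw [inv_le_comm₀ hx' (by positivity), inv_eq_one_div, div_le_iff₀ (by positivity)]
          linarith
        calc |φ (M * x)| * x⁻¹ ≤ |φ (M * x)| * (2 * M) := by gcongr
          _ = _ := by ring
    have hmeas : AEStronglyMeasurable (fun x : ℝ => φ (M * x) * x⁻¹) (volume.restrict (Ioi x0)) := by
      refine ContinuousOn.aestronglyMeasurable ?_ measurableSet_Ioi
      refine ((hφ.cont.comp (continuous_const.mul continuous_id)).continuousOn).mul ?_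
      exact continuousOn_inv₀.mono fun x hx => ne_of_gt (lt_trans hx0 hx)
    constructor
    · refine Integrable.mono' hdom.integrableOn hmeas ?_
      filter_upwards [ae_restrict_mem measurableSet_Ioi] with x hx
      exact hle x hx
    · have h1 := norm_integral_le_of_norm_le (μ := volume.restrict (Ioi x0)) hdom.integrableOn
        (f := fun x : ℝ => φ (M * x) * x⁻¹) (by
          filter_upwards [ae_restrict_mem measurableSet_Ioi] with x hx
          exact hle x hx)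
      rw [Real.norm_eq_abs] at h1
      refine h1.trans ((setIntegral_le_integral hdom
        (Eventually.of_forall fun x => by positivity)).trans (le_of_eq ?_))
      rw [integral_const_mul, integral_const_mul,
        Measure.integral_comp_mul_left (fun y => |φ y|), abs_of_pos (inv_pos.mpr hM0), smul_eq_mul,
        ← hlam]
      field_simp
  have i2 : IntegrableOn (fun x => q1 φ D x * x⁻¹) (Ioi x0) := by
    refine IntegrableOn.congr_fun ?_ hq1.symm measurableSet_Ioi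
    exact integrable_finsetSum _ fun M hM => ((hφx M hM).1).const_mul _
  have c2 : |∫ x in Ioi x0, q1 φ D x * x⁻¹| ≤ nrm D * (6 * lam / x0) := by
    rw [setIntegral_congr_fun measurableSet_Ioi hq1,
      integral_finsetSum _ fun M hM => ((hφx M hM).1).const_mul _]
    refine (Finset.abs_sum_le_sum_abs _ _).trans ?_
    calc ∑ M ∈ Finset.Icc 1 N, |∫ x in Ioi x0, bb D M * (φ (M * x) * x⁻¹)|
        ≤ ∑ M ∈ Finset.Icc 1 N, |bb D M| * (2 * lam) := by
          refine Finset.sum_le_sum fun M hM => ?_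
          rw [integral_const_mul, abs_mul]
          exact mul_le_mul_of_nonneg_left (hφx M hM).2 (abs_nonneg _)
      _ = (∑ M ∈ Finset.Icc 1 N, |bb D M|) * (2 * lam) := by rw [Finset.sum_mul]
      _ ≤ (nrm D * N) * (2 * lam) := by
          gcongr
          exact sum_abs_bb_le D N
      _ ≤ nrm D * (6 * lam / x0) := by
          have : (N : ℝ) ≤ 3 / x0 := by rwa [le_div_iff₀ hx0]
          calc (nrm D * N) * (2 * lam) ≤ (nrm D * (3 / x0)) * (2 * lam) := by gcongr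
            _ = _ := by ring
  -- the square of the residue term
  have i3 : IntegrableOn (fun x : ℝ => x ^ (-2 : ℝ)) (Ioi x0) :=
    integrableOn_Ioi_rpow_of_lt (by norm_num) hx0
  have c3 : ∫ x in Ioi x0, x ^ (-2 : ℝ) = x0⁻¹ := by
    rw [integral_Ioi_rpow_of_lt (by norm_num) hx0]
    norm_num
    rw [Real.rpow_neg_one]
  have hexp : EqOn (fun x => QQ φ D x ^ 2) (fun x => q1 φ D x ^ 2
      - 2 * (c0 D * κ) * (q1 φ D x * x⁻¹) + (c0 D * κ) ^ 2 * x ^ (-2 : ℝ)) (Ioi x0) := by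
    intro x hx
    have hx' : 0 < x := lt_trans hx0 hx
    simp only
    rw [QQ_eq hD hx', ← hκ]
    have : x ^ (-2 : ℝ) = x⁻¹ ^ 2 := by
      rw [Real.rpow_neg hx'.le, inv_pow]
      norm_num
    rw [this]
    ring
  have i5 : Integrable (fun x => 2 * (c0 D * κ) * (q1 φ D x * x⁻¹)) (volume.restrict (Ioi x0)) :=
    Integrable.const_mul i2 (2 * (c0 D * κ))
  have i6 : Integrable (fun x => q1 φ D x ^ 2 - 2 * (c0 D * κ) * (q1 φ D x * x⁻¹))
      (volume.restrict (Ioi x0)) := Integrable.sub i1 i5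
  have i7 : Integrable (fun x : ℝ => (c0 D * κ) ^ 2 * x ^ (-2 : ℝ)) (volume.restrict (Ioi x0)) :=
    Integrable.const_mul i3 _
  have i4 : IntegrableOn (fun x => q1 φ D x ^ 2
      - 2 * (c0 D * κ) * (q1 φ D x * x⁻¹) + (c0 D * κ) ^ 2 * x ^ (-2 : ℝ)) (Ioi x0) :=
    Integrable.add i6 i7
  refine ⟨IntegrableOn.congr_fun i4 hexp.symm measurableSet_Ioi, ?_⟩
  have e5 := integral_add (μ := volume.restrict (Ioi x0))
    (f := fun x => q1 φ D x ^ 2 - 2 * (c0 D * κ) * (q1 φ D x * x⁻¹))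
    (g := fun x : ℝ => (c0 D * κ) ^ 2 * x ^ (-2 : ℝ)) i6 i7
  have e6 := integral_sub (μ := volume.restrict (Ioi x0)) (f := fun x => q1 φ D x ^ 2)
    (g := fun x : ℝ => 2 * (c0 D * κ) * (q1 φ D x * x⁻¹)) i1 i5
  rw [setIntegral_congr_fun measurableSet_Ioi hexp, e5, e6,
    integral_const_mul, integral_const_mul, c3]
  have hd := hφ.direct_q1 hε hD hx0 hx01 hεx
  set A := ∫ x in Ioi x0, q1 φ D x ^ 2
  set B := ∫ x in Ioi x0, q1 φ D x * x⁻¹
  set Mn := (∫ y, φ y ^ 2) * ((Real.log (1 / x0) + γE) * BK K2 D D - BK Kl D D) + lm φ * BK K2 D D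
  have hck : |c0 D * κ| ≤ nrm D * lam := by
    rw [abs_mul]; gcongr
  have h1 : |2 * (c0 D * κ) * B| ≤ 12 * (nrm D ^ 2 * lam ^ 2 / x0) := by
    rw [abs_mul, abs_mul, abs_two]
    calc 2 * |c0 D * κ| * |B| ≤ 2 * (nrm D * lam) * (nrm D * (6 * lam / x0)) := by gcongr
      _ = _ := by ring
  have h2 : |(c0 D * κ) ^ 2 * x0⁻¹| ≤ nrm D ^ 2 * lam ^ 2 / x0 := by
    rw [abs_mul, abs_pow, abs_of_pos (inv_pos.mpr hx0), ← mul_pow, div_eq_mul_inv]
    gcongr
  have e : A - 2 * (c0 D * κ) * B + (c0 D * κ) ^ 2 * x0⁻¹ - Mn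
      = (A - Mn) - 2 * (c0 D * κ) * B + (c0 D * κ) ^ 2 * x0⁻¹ := by ring
  rw [e]
  calc |(A - Mn) - 2 * (c0 D * κ) * B + (c0 D * κ) ^ 2 * x0⁻¹|
      ≤ |A - Mn| + |2 * (c0 D * κ) * B| + |(c0 D * κ) ^ 2 * x0⁻¹| := by
        refine (abs_add_le _ _).trans ?_
        gcongr
        exact abs_sub _ _
    _ ≤ nrm D ^ 2 * (6 * (∫ y, φ y ^ 2) * x0 ^ (1 / 2 : ℝ)) + 12 * (nrm D ^ 2 * lam ^ 2 / x0)
        + nrm D ^ 2 * lam ^ 2 / x0 := by gcongr
    _ = _ := by ring

end Bmp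

end Pool.Agent.Lib.MP_f9aece_nt_h97
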