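import Mathlib
import Pool.Agent.Lib.MP_f9aece_nt_h97.Kern

/-!
Oscillatory integrals of products of the transform of the kernel.
-/

set_option autoImplicit false

namespace Pool.Agent.Lib.MP_f9aece_nt_h97

open MeasureTheory Set Filter Topology FourierTransform
open scoped SchwartzMap

namespace Ker

variable (K : Ker)

lemma G_integrable : Integrable K.G := (𝓕 K.gS : 𝓢(ℝ, ℂ)).integrable.re

/-- a uniform bound of the transform -/
noncomputable def B0 : ℝ := (K.G_decay 0).choose

lemma B0_pos : 0 < K.B0 := (K.G_decay 0).choose_spec.1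

lemma abs_G_le (w : ℝ) : |K.G w| ≤ K.B0 := by
  have := (K.G_decay 0).choose_spec.2 w
  rw [pow_zero, one_mul] at this
  exact this

/-- a quadratic decay constant of the transform -/
noncomputable def B2 : ℝ := (K.G_decay 2).choose

lemma B2_pos : 0 < K.B2 := (K.G_decay 2).choose_spec.1

lemma abs_G_le2 {w : ℝ} (hw : 0 < w) : |K.G w| ≤ K.B2 / w ^ 2 := by
  have := (K.G_decay 2).choose_spec.2 w
  rw [abs_of_pos hw] at this
  rw [le_div_iff₀ (by positivity), mul_comm]
  exact this

/-- `L¹` norm of the derivative -/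
noncomputable def B1 : ℝ := ∫ w, |K.G' w|

lemma B1_nonneg : 0 ≤ K.B1 := integral_nonneg fun _ => abs_nonneg _

/-- constant in the oscillatory bound -/
noncomputable def CK : ℝ := K.B0 ^ 2 + 2 * K.B0 * K.B1

lemma CK_nonneg : 0 ≤ K.CK := by
  have := K.B0_pos
  have := K.B1_nonneg
  unfold CK
  positivity

lemma int_abs_G'_comp {c : ℝ} (hc : 0 < c) (a : ℝ) :
    Integrable (fun X => c * |K.G' (c * X)|) ∧ ∫ X in Ioi a, c * |K.G' (c * X)| ≤ K.B1 := by
  have h1 : Integrable (fun X => c * |K.G' (c * X)|) :=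
    (K.G'_integrable.abs.comp_mul_left' hc.ne').const_mul _
  refine ⟨h1, (setIntegral_le_integral h1 (Eventually.of_forall fun X => by positivity)).trans
    (le_of_eq ?_)⟩
  rw [integral_const_mul, Measure.integral_comp_mul_left (fun y => |K.G' y|),
    abs_of_pos (inv_pos.mpr hc), smul_eq_mul, B1]
  field_simp

lemma int_prod {c c' : ℝ} (hc : 0 < c) : Integrable (fun X => K.G (c * X) * K.G (c' * X)) := by
  have h := K.G_integrable.comp_mul_left' hc.ne'
  refine Integrable.mul_bdd (c := K.B0) h ?_ (Eventually.of_forall fun X => ?_)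
  · exact (K.G_cont.comp (continuous_const.mul continuous_id)).aestronglyMeasurable
  · rw [Real.norm_eq_abs]; exact K.abs_G_le _

lemma int_cos_prod {c c' : ℝ} (hc : 0 < c) (ω : ℝ) :
    Integrable (fun X => Real.cos (ω * X) * (K.G (c * X) * K.G (c' * X))) := by
  refine (K.int_prod hc (c' := c')).bdd_mul (c := 1) ?_ (Eventually.of_forall fun X => ?_)
  · exact (by fun_prop : Continuous fun X : ℝ => Real.cos (ω * X)).aestronglyMeasurable
  · rw [Real.norm_eq_abs]; exact Real.abs_cos_le_one _

theorem osc {c c' : ℝ} (hc : 0 < c) (hc' : 0 < c') {ω : ℝ} (hω : ω ≠ 0) (a : ℝ) :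
    |∫ X in Ioi a, Real.cos (ω * X) * (K.G (c * X) * K.G (c' * X))| ≤ K.CK / |ω| := by
  have hω0 : 0 < |ω| := abs_pos.mpr hω
  have hB0 := K.B0_pos
  set A : ℝ → ℝ := fun X => K.G (c * X) * K.G (c' * X) with hA
  set A' : ℝ → ℝ := fun X => c * K.G' (c * X) * K.G (c' * X) + K.G (c * X) * (c' * K.G' (c' * X))
    with hA'
  have hd : ∀ X, HasDerivAt A (A' X) X := by
    intro X
    have d1 : HasDerivAt (fun X => K.G (c * X)) (K.G' (c * X) * c) X := by
      have := (K.G_hasDerivAt (c * X)).comp X ((hasDerivAt_id X).const_mul c)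
      rw [mul_one] at this
      exact this
    have d2 : HasDerivAt (fun X => K.G (c' * X)) (K.G' (c' * X) * c') X := by
      have := (K.G_hasDerivAt (c' * X)).comp X ((hasDerivAt_id X).const_mul c')
      rw [mul_one] at this
      exact this
    refine (d1.mul d2).congr_deriv ?_
    rw [hA']
    simp only
    ring
  have hAi : Integrable A := K.int_prod hc
  have hA'bound : ∀ X, ‖A' X‖ ≤ K.B0 * (c * |K.G' (c * X)| + c' * |K.G' (c' * X)|) := by
    intro X
    rw [Real.norm_eq_abs, hA']
    simp only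
    refine (abs_add_le _ _).trans ?_
    rw [abs_mul, abs_mul, abs_mul, abs_mul, abs_of_pos hc, abs_of_pos hc']
    have h1 := K.abs_G_le (c' * X)
    have h2 := K.abs_G_le (c * X)
    calc c * |K.G' (c * X)| * |K.G (c' * X)| + |K.G (c * X)| * (c' * |K.G' (c' * X)|)
        ≤ c * |K.G' (c * X)| * K.B0 + K.B0 * (c' * |K.G' (c' * X)|) := by gcongr
      _ = _ := by ring
  obtain ⟨g1, g2⟩ := K.int_abs_G'_comp hc a
  obtain ⟨g3, g4⟩ := K.int_abs_G'_comp hc' a
  have hbi : Integrable (fun X => K.B0 * (c * |K.G' (c * X)| + c' * |K.G' (c' * X)|)) :=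
    (g1.add g3).const_mul _
  have hA'c : Continuous A' := by
    have := K.G_cont
    have := K.G'_cont
    rw [hA']
    fun_prop
  have hA'i : Integrable A' := Integrable.mono' hbi hA'c.aestronglyMeasurable
    (Eventually.of_forall hA'bound)
  -- primitive
  set F : ℝ → ℝ := fun X => Real.sin (ω * X) / ω * A X with hF
  have hFd : ∀ X ∈ Ici a, HasDerivAt F (Real.cos (ω * X) * A X + Real.sin (ω * X) / ω * A' X) X := by
    intro X _
    have d1 : HasDerivAt (fun X => Real.sin (ω * X) / ω) (Real.cos (ω * X)) X := by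
      have := ((Real.hasDerivAt_sin (ω * X)).comp X ((hasDerivAt_id X).const_mul ω)).div_const ω
      refine this.congr_deriv ?_
      simp only [mul_one]
      field_simp
    exact d1.mul (hd X)
  have i1 : Integrable (fun X => Real.cos (ω * X) * A X) := K.int_cos_prod hc ω
  have i2 : Integrable (fun X => Real.sin (ω * X) / ω * A' X) := by
    refine hA'i.bdd_mul (c := 1 / |ω|) ?_ (Eventually.of_forall fun X => ?_)
    · exact (by fun_prop : Continuous fun X : ℝ => Real.sin (ω * X) / ω).aestronglyMeasurable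
    · rw [Real.norm_eq_abs, abs_div]
      gcongr
      exact Real.abs_sin_le_one _
  have hAlim : Tendsto A atTop (𝓝 0) := by
    have h1 : Tendsto (fun X : ℝ => K.B0 * (K.B2 / (c * X) ^ 2)) atTop (𝓝 (K.B0 * 0)) := by
      refine Tendsto.const_mul _ (Tendsto.div_atTop tendsto_const_nhds ?_)
      exact (tendsto_pow_atTop (by norm_num)).comp (tendsto_id.const_mul_atTop hc)
    rw [mul_zero] at h1
    refine squeeze_zero_norm' ?_ h1
    filter_upwards [eventually_gt_atTop 0] with X hX
    rw [hA]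
    simp only
    rw [norm_mul, Real.norm_eq_abs, Real.norm_eq_abs, mul_comm]
    gcongr
    · exact K.abs_G_le _
    · exact K.abs_G_le2 (by positivity)
  have hFlim : Tendsto F atTop (𝓝 0) := by
    have h1 : Tendsto (fun X : ℝ => 1 / |ω| * ‖A X‖) atTop (𝓝 (1 / |ω| * 0)) :=
      Tendsto.const_mul _ (by simpa using hAlim.norm)
    rw [mul_zero] at h1
    refine squeeze_zero_norm (fun X => ?_) h1
    rw [hF]
    simp only
    rw [norm_mul, Real.norm_eq_abs, abs_div]
    gcongr
    exact Real.abs_sin_le_one _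
  have key := integral_Ioi_of_hasDerivAt_of_tendsto' hFd (i1.add i2).integrableOn hFlim
  have key2 : ∫ X in Ioi a, (Real.cos (ω * X) * A X + Real.sin (ω * X) / ω * A' X)
      = (∫ X in Ioi a, Real.cos (ω * X) * A X) + ∫ X in Ioi a, Real.sin (ω * X) / ω * A' X :=
    integral_add i1.integrableOn i2.integrableOn
  rw [key2, zero_sub] at key
  have b1 : |F a| ≤ K.B0 ^ 2 / |ω| := by
    rw [hF, hA]
    simp only
    rw [abs_mul, abs_div, abs_mul]
    have h1 := K.abs_G_le (c * a)
    have h2 := K.abs_G_le (c' * a)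
    calc |Real.sin (ω * a)| / |ω| * (|K.G (c * a)| * |K.G (c' * a)|)
        ≤ 1 / |ω| * (K.B0 * K.B0) := by
          gcongr
          exact Real.abs_sin_le_one _
      _ = _ := by ring
  have b2 : |∫ X in Ioi a, Real.sin (ω * X) / ω * A' X| ≤ 2 * K.B0 * K.B1 / |ω| := by
    have hb3 : Integrable (fun X => 1 / |ω| * (K.B0 * (c * |K.G' (c * X)| + c' * |K.G' (c' * X)|))) :=
      hbi.const_mul _
    have h1 := norm_integral_le_of_norm_le (μ := volume.restrict (Ioi a)) hb3.integrableOn
      (f := fun X => Real.sin (ω * X) / ω * A' X) (Eventually.of_forall fun X => ?_)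
    · rw [Real.norm_eq_abs] at h1
      refine h1.trans ?_
      rw [integral_const_mul, integral_const_mul, integral_add g1.integrableOn g3.integrableOn]
      calc 1 / |ω| * (K.B0 * ((∫ X in Ioi a, c * |K.G' (c * X)|) + ∫ X in Ioi a, c' * |K.G' (c' * X)|))
          ≤ 1 / |ω| * (K.B0 * (K.B1 + K.B1)) := by gcongr
        _ = _ := by ring
    · rw [norm_mul, Real.norm_eq_abs, abs_div]
      gcongr
      · exact Real.abs_sin_le_one _
      · exact hA'bound X
  have e : ∫ X in Ioi a, Real.cos (ω * X) * A X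
      = -F a - ∫ X in Ioi a, Real.sin (ω * X) / ω * A' X := by linarith
  rw [e]
  calc |-F a - ∫ X in Ioi a, Real.sin (ω * X) / ω * A' X|
      ≤ |F a| + |∫ X in Ioi a, Real.sin (ω * X) / ω * A' X| := by
        refine (abs_sub _ _).trans ?_
        rw [abs_neg]
    _ ≤ K.B0 ^ 2 / |ω| + 2 * K.B0 * K.B1 / |ω| := by gcongr
    _ = K.CK / |ω| := by rw [CK]; ring

/-- product of two cosines against the kernel -/
lemma cos_cos {c c' : ℝ} (hc : 0 < c) (hc' : 0 < c') {α β : ℝ} (hsum : α + β ≠ 0) (a : ℝ) :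
    |(∫ X in Ioi a, (Real.cos (α * X) * K.G (c * X)) * (Real.cos (β * X) * K.G (c' * X)))
      - (if α = β then 1 / 2 * ∫ X in Ioi a, K.G (c * X) * K.G (c' * X) else 0)|
      ≤ K.CK / 2 * (1 / |α + β| + if α = β then 0 else 1 / |α - β|) := by
  have hCK := K.CK_nonneg
  have e1 : ∀ X : ℝ, (Real.cos (α * X) * K.G (c * X)) * (Real.cos (β * X) * K.G (c' * X))
      = 1 / 2 * (Real.cos ((α + β) * X) * (K.G (c * X) * K.G (c' * X)))
        + 1 / 2 * (Real.cos ((α - β) * X) * (K.G (c * X) * K.G (c' * X))) := by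
    intro X
    have h1 : Real.cos ((α + β) * X) = Real.cos (α * X) * Real.cos (β * X)
        - Real.sin (α * X) * Real.sin (β * X) := by rw [add_mul, Real.cos_add]
    have h2 : Real.cos ((α - β) * X) = Real.cos (α * X) * Real.cos (β * X)
        + Real.sin (α * X) * Real.sin (β * X) := by rw [sub_mul, Real.cos_sub]
    rw [h1, h2]
    ring
  simp_rw [e1]
  have j1 := (K.int_cos_prod hc (c' := c') (α + β)).const_mul (1 / 2)
  have j2 := (K.int_cos_prod hc (c' := c') (α - β)).const_mul (1 / 2)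
  rw [integral_add j1.integrableOn j2.integrableOn, integral_const_mul, integral_const_mul]
  have o1 := K.osc hc hc' hsum a
  by_cases h : α = β
  · rw [if_pos h, if_pos h]
    have e2 : ∀ X : ℝ, Real.cos ((α - β) * X) * (K.G (c * X) * K.G (c' * X))
        = K.G (c * X) * K.G (c' * X) := by
      intro X
      rw [h, sub_self, zero_mul, Real.cos_zero, one_mul]
    simp_rw [e2]
    rw [add_sub_cancel_right, abs_mul, abs_of_pos (by norm_num : (0 : ℝ) < 1 / 2), add_zero]
    calc 1 / 2 * |∫ X in Ioi a, Real.cos ((α + β) * X) * (K.G (c * X) * K.G (c' * X))|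
        ≤ 1 / 2 * (K.CK / |α + β|) := by gcongr
      _ = _ := by ring
  · rw [if_neg h, if_neg h, sub_zero]
    have o2 := K.osc hc hc' (sub_ne_zero.mpr h) a
    calc |1 / 2 * (∫ X in Ioi a, Real.cos ((α + β) * X) * (K.G (c * X) * K.G (c' * X)))
          + 1 / 2 * ∫ X in Ioi a, Real.cos ((α - β) * X) * (K.G (c * X) * K.G (c' * X))|
        ≤ 1 / 2 * |∫ X in Ioi a, Real.cos ((α + β) * X) * (K.G (c * X) * K.G (c' * X))|
          + 1 / 2 * |∫ X in Ioi a, Real.cos ((α - β) * X) * (K.G (c * X) * K.G (c' * X))| := by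
          refine (abs_add_le _ _).trans ?_
          rw [abs_mul, abs_mul, abs_of_pos (by norm_num : (0 : ℝ) < 1 / 2)]
      _ ≤ 1 / 2 * (K.CK / |α + β|) + 1 / 2 * (K.CK / |α - β|) := by gcongr
      _ = _ := by ring

end Ker

end Pool.Agent.Lib.MP_f9aece_nt_h97
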