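import Mathlib
import Pool.Agent.Lib.MP_f9aece_nt_h97.Kern

/-!
Poisson summation for the Muentz function of the bump kernel.
-/

set_option autoImplicit false

namespace Pool.Agent.Lib.MP_f9aece_nt_h97

open MeasureTheory Set Filter Topology Complex FourierTransform
open scoped ENNReal ContDiff SchwartzMap ComplexConjugate

namespace Ker

variable (K : Ker)

/-- dilated bump -/
noncomputable def ff (T x : ℝ) (y : ℝ) : ℝ := K.g (T * (y * x - 1))

lemma ff_cs {T x : ℝ} (hT : 0 < T) (hx : 0 < x) : HasCompactSupport (K.ff T x) := by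
  refine HasCompactSupport.intro
    (isCompact_Icc (a := 1 / x - K.L / (T * x)) (b := 1 / x + K.L / (T * x))) fun y hy => ?_
  by_contra h
  apply hy
  have h1 := K.supp _ h
  rw [abs_mul, abs_of_pos hT] at h1
  have h2 : |y - 1 / x| ≤ K.L / (T * x) := by
    rw [le_div_iff₀ (by positivity)]
    have e : y * x - 1 = (y - 1 / x) * x := by field_simp
    rw [e, abs_mul, abs_of_pos hx] at h1
    calc |y - 1 / x| * (T * x) = T * (|y - 1 / x| * x) := by ring
      _ ≤ K.L := h1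
  rw [abs_le] at h2
  exact ⟨by linarith [h2.1], by linarith [h2.2]⟩

lemma ff_smooth (T x : ℝ) : ContDiff ℝ ∞ (Complex.ofRealCLM ∘ K.ff T x) := by
  refine Complex.ofRealCLM.contDiff.comp ?_
  exact K.smooth.comp (by fun_prop)

/-- the dilated bump as a Schwartz function -/
noncomputable def fS {T x : ℝ} (hT : 0 < T) (hx : 0 < x) : 𝓢(ℝ, ℂ) :=
  ((K.ff_cs hT hx).comp_left (g := Complex.ofRealCLM) rfl).toSchwartzMap (K.ff_smooth T x)

lemma fS_apply {T x : ℝ} (hT : 0 < T) (hx : 0 < x) (y : ℝ) :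
    K.fS hT hx y = (K.ff T x y : ℂ) := by simp [fS]

lemma fourier_fS {T x : ℝ} (hT : 0 < T) (hx : 0 < x) (w : ℝ) :
    (𝓕 (K.fS hT hx) : 𝓢(ℝ, ℂ)) w
      = ((x * T)⁻¹ : ℝ) * (cexp (((-(2 * Real.pi * w / x) : ℝ) : ℂ) * I) * (K.G (w / (x * T)) : ℂ)) := by
  have hTx : 0 < T * x := by positivity
  rw [SchwartzMap.fourier_coe, Real.fourier_real_eq_integral_exp_smul]
  set F : ℝ → ℂ := fun v => cexp (↑(-2 * Real.pi * (v / (T * x) + 1 / x) * w) * I) • (K.g v : ℂ)
    with hF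
  have e1 : ∀ y : ℝ, cexp (↑(-2 * Real.pi * y * w) * I) • K.fS hT hx y
      = F ((T * x) * (y - 1 / x)) := by
    intro y
    rw [K.fS_apply, hF]
    simp only [ff]
    have e2 : T * x * (y - 1 / x) / (T * x) + 1 / x = y := by field_simp; ring
    have e3 : T * x * (y - 1 / x) = T * (y * x - 1) := by field_simp
    rw [e2, e3]
  simp_rw [e1]
  rw [integral_sub_right_eq_self (fun y => F ((T * x) * y)) (1 / x) (μ := volume),
    Measure.integral_comp_mul_left, abs_of_pos (inv_pos.mpr hTx), Complex.real_smul]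
  have e4 : ∫ v, F v = cexp (((-(2 * Real.pi * w / x) : ℝ) : ℂ) * I) * (K.G (w / (x * T)) : ℂ) := by
    rw [← K.fourier_eq', Real.fourier_real_eq_integral_exp_smul, ← integral_const_mul]
    refine integral_congr_ae (Eventually.of_forall fun v => ?_)
    simp only [hF, smul_eq_mul]
    rw [← mul_assoc, ← Complex.exp_add]
    congr 2
    push_cast
    field_simp
    ring
  rw [e4, mul_comm T x]

lemma summable_G {c : ℝ} (hc : 0 < c) : Summable (fun m : ℕ => |K.G (((m + 1 : ℕ) : ℝ) * c)|) := by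
  obtain ⟨B, hB, h⟩ := K.G_decay 2
  refine Summable.of_nonneg_of_le (fun m => abs_nonneg _) (fun m => ?_)
    ((((summable_nat_add_iff (f := fun n : ℕ => 1 / ((n : ℕ) : ℝ) ^ 2) 1).mpr
      (Real.summable_one_div_nat_pow.mpr (by norm_num : 1 < 2)))).mul_left
      (B / c ^ 2))
  have h1 := h (((m + 1 : ℕ) : ℝ) * c)
  have h2 : (0 : ℝ) < ((m + 1 : ℕ) : ℝ) * c := by positivity
  rw [abs_of_pos h2, mul_pow] at h1
  rw [mul_one_div, div_div, le_div_iff₀ (by positivity)]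
  calc |K.G (((m + 1 : ℕ) : ℝ) * c)| * (c ^ 2 * ((m + 1 : ℕ) : ℝ) ^ 2)
      = ((m + 1 : ℕ) : ℝ) ^ 2 * c ^ 2 * |K.G (((m + 1 : ℕ) : ℝ) * c)| := by ring
    _ ≤ B := h1

/-- the dual series -/
noncomputable def dual (c x : ℝ) : ℝ :=
  ∑' m : ℕ, Real.cos (2 * Real.pi * ((m + 1 : ℕ) : ℝ) * x) * K.G (((m + 1 : ℕ) : ℝ) * c)

lemma summable_dual {c : ℝ} (hc : 0 < c) (x : ℝ) :
    Summable (fun m : ℕ => Real.cos (2 * Real.pi * ((m + 1 : ℕ) : ℝ) * x) * K.G (((m + 1 : ℕ) : ℝ) * c)) := by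
  refine Summable.of_norm_bounded (K.summable_G hc) fun m => ?_
  rw [Real.norm_eq_abs, abs_mul]
  calc _ ≤ 1 * |K.G (((m + 1 : ℕ) : ℝ) * c)| := by
        gcongr
        exact Real.abs_cos_le_one _
    _ = _ := one_mul _

theorem poisson {T : ℝ} (hT : 2 * K.L ≤ T) {x : ℝ} (hx : 0 < x) :
    Phi (K.phi T) x = 2 / (x * T) * K.dual (1 / (x * T)) (1 / x) := by
  have hL := K.hL
  have hT0 : 0 < T := by linarith
  have hB := K.phi_bmp hT
  have hxT : 0 < x * T := by positivity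
  have hc : 0 < 1 / (x * T) := by positivity
  have hP := SchwartzMap.tsum_eq_tsum_fourier (K.fS hT0 hx) 0
  simp only [zero_add] at hP
  have hff : ∀ n : ℤ, K.fS hT0 hx (n : ℝ) = (K.phi T ((n : ℝ) * x) : ℂ) := by
    intro n
    rw [K.fS_apply]
    rfl
  have hQ : ∀ n : ℤ, (𝓕 (K.fS hT0 hx) : 𝓢(ℝ, ℂ)) (n : ℝ) * fourier n ((0 : ℝ) : UnitAddCircle)
      = ((x * T)⁻¹ : ℝ) * (cexp (((-(2 * Real.pi * n / x) : ℝ) : ℂ) * I) * (K.G ((n : ℝ) / (x * T)) : ℂ)) := by
    intro n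
    rw [K.fourier_fS]
    simp
  -- left side
  have hzero : ∀ n : ℤ, n ≤ 0 → K.phi T ((n : ℝ) * x) = 0 := by
    intro n hn
    apply hB.zero_of_lt
    have : (n : ℝ) ≤ 0 := by exact_mod_cast hn
    have : (n : ℝ) * x ≤ 0 := mul_nonpos_of_nonpos_of_nonneg this hx.le
    linarith
  have hL1 : ∑' n : ℤ, (K.fS hT0 hx) (n : ℝ)
      = ((∑' n : ℕ, K.phi T (((n + 1 : ℕ) : ℝ) * x) : ℝ) : ℂ) := by
    simp_rw [hff]
    rw [← Complex.ofReal_tsum]
    congr 1
    have hsN : Summable (fun n : ℕ => K.phi T (((n : ℕ) : ℝ) * x)) := by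
      obtain ⟨N, hN⟩ := exists_nat_gt (2 / x)
      refine summable_of_hasFiniteSupport ((Finset.finite_toSet (Finset.range (N + 1))).subset ?_)
      intro n hn
      simp only [Finset.coe_range, mem_Iio]
      by_contra hcon
      rw [not_lt] at hcon
      apply hn
      apply hB.zero_of_gt
      rw [div_lt_iff₀ hx] at hN
      have : (N : ℝ) ≤ n := by exact_mod_cast (by omega : N ≤ n)
      nlinarith
    have h1 := tsum_of_nat_of_neg_add_one (f := fun n : ℤ => K.phi T ((n : ℝ) * x))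
      (by simpa using hsN) ?_
    · rw [h1]
      have h2 : ∑' n : ℕ, K.phi T (((-((n : ℤ) + 1) : ℤ) : ℝ) * x) = 0 := by
        rw [tsum_congr (fun n => hzero _ (by omega))]
        simp
      rw [h2, add_zero]
      have h3 := hsN.tsum_eq_zero_add
      have h0 : K.phi T (((0 : ℕ) : ℝ) * x) = 0 := by
        have := hzero 0 le_rfl
        simpa using this
      rw [h0, zero_add] at h3
      simpa using h3
    · have hz : (fun n : ℕ => K.phi T (((-((n : ℤ) + 1) : ℤ) : ℝ) * x)) = fun _ => 0 :=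
        funext fun n => hzero _ (by omega)
      rw [hz]
      exact summable_zero
  -- right side
  set a : ℤ → ℂ := fun n => ((x * T)⁻¹ : ℝ) * (cexp (((-(2 * Real.pi * n / x) : ℝ) : ℂ) * I)
    * (K.G ((n : ℝ) / (x * T)) : ℂ)) with ha
  have hGsum := K.summable_G hc
  have hnorm : ∀ n : ℤ, ‖a n‖ = (x * T)⁻¹ * |K.G ((n : ℝ) / (x * T))| := by
    intro n
    simp only [ha]
    rw [norm_mul, norm_mul, Complex.norm_exp_ofReal_mul_I, one_mul, Complex.norm_real,
      Complex.norm_real, Real.norm_eq_abs, Real.norm_eq_abs, abs_of_pos (inv_pos.mpr hxT)]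
  have hs2 : Summable (fun n : ℕ => a (-((n : ℤ) + 1))) := by
    refine Summable.of_norm_bounded (hGsum.mul_left (x * T)⁻¹) fun n => le_of_eq ?_
    rw [hnorm]
    congr 2
    push_cast
    rw [← K.G_even]
    congr 1
    field_simp
  have hs1' : Summable (fun n : ℕ => a ((n : ℤ) + 1)) := by
    refine Summable.of_norm_bounded (hGsum.mul_left (x * T)⁻¹) fun n => le_of_eq ?_
    rw [hnorm]
    congr 2
    push_cast
    field_simp
  have hs1 : Summable (fun n : ℕ => a (n : ℤ)) := by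
    rw [← summable_nat_add_iff 1]
    simpa using hs1'
  have hR := tsum_of_nat_of_neg_add_one hs1 hs2
  have hR1 := hs1.tsum_eq_zero_add
  have ha0 : a ((0 : ℕ) : ℤ) = (((x * T)⁻¹ * K.m1 : ℝ) : ℂ) := by
    simp only [ha]
    rw [← K.G_zero]
    simp
  have hpair : ∀ n : ℕ, a ((n : ℤ) + 1) + a (-((n : ℤ) + 1))
      = ((2 / (x * T) * (Real.cos (2 * Real.pi * ((n + 1 : ℕ) : ℝ) * (1 / x))
        * K.G (((n + 1 : ℕ) : ℝ) * (1 / (x * T)))) : ℝ) : ℂ) := by
    intro n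
    simp only [ha]
    have g1 : K.G (((-((n : ℤ) + 1) : ℤ) : ℝ) / (x * T)) = K.G (((n + 1 : ℕ) : ℝ) * (1 / (x * T))) := by
      rw [← K.G_even]
      congr 1
      push_cast
      field_simp
    have g2 : K.G ((((n : ℤ) + 1 : ℤ) : ℝ) / (x * T)) = K.G (((n + 1 : ℕ) : ℝ) * (1 / (x * T))) := by
      congr 1
      push_cast
      field_simp
    rw [g1, g2]
    set θ : ℝ := 2 * Real.pi * ((n + 1 : ℕ) : ℝ) * (1 / x) with hθ
    have t1 : (-(2 * Real.pi * (((n : ℤ) + 1 : ℤ) : ℝ) / x) : ℝ) = -θ := by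
      rw [hθ]; push_cast; ring
    have t2 : (-(2 * Real.pi * ((-((n : ℤ) + 1) : ℤ) : ℝ) / x) : ℝ) = θ := by
      rw [hθ]; push_cast; ring
    rw [t1, t2]
    push_cast
    rw [Complex.cos]
    push_cast
    field_simp
    ring
  have hsum3 : ∑' n : ℤ, a n = (((x * T)⁻¹ * K.m1
      + 2 / (x * T) * K.dual (1 / (x * T)) (1 / x) : ℝ) : ℂ) := by
    rw [hR, hR1, ha0]
    have e1 : ∑' n : ℕ, a ((n + 1 : ℕ) : ℤ) = ∑' n : ℕ, a ((n : ℤ) + 1) := by
      refine tsum_congr fun n => ?_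
      push_cast
      rfl
    rw [e1, add_assoc, ← hs1'.tsum_add hs2, tsum_congr hpair, ← Complex.ofReal_tsum, tsum_mul_left,
      dual]
    push_cast
    ring
  have hfin : ((∑' n : ℕ, K.phi T (((n + 1 : ℕ) : ℝ) * x) : ℝ) : ℂ) = (((x * T)⁻¹ * K.m1
      + 2 / (x * T) * K.dual (1 / (x * T)) (1 / x) : ℝ) : ℂ) := by
    rw [← hL1, hP, tsum_congr hQ, hsum3]
  have hfin' := Complex.ofReal_injective hfin
  unfold Phi
  rw [hfin', K.integral_phi hT0]
  field_simp
  ring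

end Ker

end Pool.Agent.Lib.MP_f9aece_nt_h97
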