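import Mathlib
import Pool.Agent.Lib.MP_f9aece_nt_h97.Osc
import Pool.Agent.Lib.MP_f9aece_nt_h97.Direct
import Pool.Agent.Lib.MP_f9aece_nt_h97.Poisson

/-!
The dual part of the quadratic mean of the Muentz sum.
-/

set_option autoImplicit false

namespace Pool.Agent.Lib.MP_f9aece_nt_h97

open MeasureTheory Set Filter Topology
open Pool.Agent.Lib.MP_f9aece_nt (DP pair BK K2 K2_nonneg K2_eq_inv_lcm)

/-- coincidences of two families of fractions -/
lemma diag_pairs {h k : ℕ} (hh : 1 ≤ h) (hk : 1 ≤ k) (X : ℕ) (F : ℕ → ℝ) :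
    ∑ p ∈ Finset.range (X * h) ×ˢ Finset.range (X * k),
      (if (p.1 + 1) * k = (p.2 + 1) * h then F (p.1 + 1) else 0)
      = ∑ j ∈ Finset.range (X * Nat.gcd h k), F ((j + 1) * (h / Nat.gcd h k)) := by
  classical
  set q := Nat.gcd h k with hq
  have hq0 : 0 < q := Nat.gcd_pos_of_pos_left k hh
  obtain ⟨h', hh'⟩ : q ∣ h := Nat.gcd_dvd_left h k
  obtain ⟨k', hk'⟩ : q ∣ k := Nat.gcd_dvd_right h k
  have hh0 : 0 < h' := Nat.pos_of_ne_zero (by rintro rfl; omega)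
  have hk0 : 0 < k' := Nat.pos_of_ne_zero (by rintro rfl; omega)
  have hcop : Nat.Coprime h' k' := by
    have h1 : Nat.gcd (q * h') (q * k') = q * Nat.gcd h' k' := Nat.gcd_mul_left q h' k'
    rw [← hh', ← hk', ← hq] at h1
    exact Nat.eq_of_mul_eq_mul_left hq0 (by rw [mul_one]; exact h1.symm)
  have hdivh : h / q = h' := by rw [hh']; exact Nat.mul_div_cancel_left h' hq0
  rw [← Finset.sum_filter, hdivh]
  symm
  refine Finset.sum_nbij' (fun j => ((j + 1) * h' - 1, (j + 1) * k' - 1)) (fun p => (p.1 + 1) / h' - 1)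
    ?_ ?_ ?_ ?_ ?_
  · intro j hj
    rw [Finset.mem_range] at hj
    rw [Finset.mem_filter, Finset.mem_product, Finset.mem_range, Finset.mem_range]
    have p1 : 0 < (j + 1) * h' := Nat.mul_pos (by omega) hh0
    have p2 : 0 < (j + 1) * k' := Nat.mul_pos (by omega) hk0
    have q1 : (j + 1) * h' ≤ X * q * h' := Nat.mul_le_mul_right _ hj
    have q2 : (j + 1) * k' ≤ X * q * k' := Nat.mul_le_mul_right _ hj
    have r1 : X * q * h' = X * h := by rw [hh', mul_assoc]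
    have r2 : X * q * k' = X * k := by rw [hk', mul_assoc]
    simp only
    refine ⟨⟨by omega, by omega⟩, ?_⟩
    have s1 : (j + 1) * h' - 1 + 1 = (j + 1) * h' := by omega
    have s2 : (j + 1) * k' - 1 + 1 = (j + 1) * k' := by omega
    rw [s1, s2, hh', hk']
    ring
  · rintro ⟨m, n⟩ hp
    rw [Finset.mem_filter, Finset.mem_product, Finset.mem_range, Finset.mem_range] at hp
    obtain ⟨⟨h1, h2⟩, h3⟩ := hp
    simp only at h1 h2 h3 ⊢
    rw [Finset.mem_range]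
    have h4 : (m + 1) * k' = (n + 1) * h' := by
      have : q * ((m + 1) * k') = q * ((n + 1) * h') := by
        calc q * ((m + 1) * k') = (m + 1) * (q * k') := by ring
          _ = (m + 1) * k := by rw [← hk']
          _ = (n + 1) * h := h3
          _ = (n + 1) * (q * h') := by rw [← hh']
          _ = _ := by ring
      exact Nat.eq_of_mul_eq_mul_left hq0 this
    have h5 : h' ∣ m + 1 := by
      have : h' ∣ (m + 1) * k' := ⟨n + 1, by rw [h4]; ring⟩
      exact hcop.dvd_of_dvd_mul_right this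
    obtain ⟨t, ht⟩ := h5
    rw [ht, Nat.mul_div_cancel_left t hh0]
    have ht0 : 0 < t := Nat.pos_of_ne_zero (by rintro rfl; omega)
    have h6 : h' * t ≤ h' * (X * q) := by
      rw [← ht]
      calc m + 1 ≤ X * h := h1
        _ = h' * (X * q) := by rw [hh']; ring
    have h7 := Nat.le_of_mul_le_mul_left h6 hh0
    omega
  · intro j _
    have p1 : 0 < (j + 1) * h' := Nat.mul_pos (by omega) hh0
    have s1 : (j + 1) * h' - 1 + 1 = (j + 1) * h' := by omega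
    simp only
    rw [s1, Nat.mul_div_cancel _ hh0]
    omega
  · rintro ⟨m, n⟩ hp
    rw [Finset.mem_filter, Finset.mem_product, Finset.mem_range, Finset.mem_range] at hp
    obtain ⟨⟨h1, h2⟩, h3⟩ := hp
    simp only at h1 h2 h3 ⊢
    have h4 : (m + 1) * k' = (n + 1) * h' := by
      have : q * ((m + 1) * k') = q * ((n + 1) * h') := by
        calc q * ((m + 1) * k') = (m + 1) * (q * k') := by ring
          _ = (m + 1) * k := by rw [← hk']
          _ = (n + 1) * h := h3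
          _ = (n + 1) * (q * h') := by rw [← hh']
          _ = _ := by ring
      exact Nat.eq_of_mul_eq_mul_left hq0 this
    have h5 : h' ∣ m + 1 := by
      have : h' ∣ (m + 1) * k' := ⟨n + 1, by rw [h4]; ring⟩
      exact hcop.dvd_of_dvd_mul_right this
    obtain ⟨t, ht⟩ := h5
    have ht0 : 0 < t := Nat.pos_of_ne_zero (by rintro rfl; omega)
    rw [ht, Nat.mul_div_cancel_left t hh0]
    have e1 : t - 1 + 1 = t := by omega
    rw [e1]
    have h8 : n + 1 = t * k' := by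
      have : h' * (t * k') = h' * (n + 1) := by
        calc h' * (t * k') = (h' * t) * k' := by ring
          _ = (m + 1) * k' := by rw [← ht]
          _ = (n + 1) * h' := h4
          _ = _ := by ring
      exact (Nat.eq_of_mul_eq_mul_left hh0 this).symm
    have h9 : t * h' = m + 1 := by rw [ht]; ring
    ext <;> simp only <;> omega
  · intro j _
    have p1 : 0 < (j + 1) * h' := Nat.mul_pos (by omega) hh0
    have s1 : (j + 1) * h' - 1 + 1 = (j + 1) * h' := by omega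
    simp only
    rw [s1]

namespace Ker

variable (K : Ker)

/-- one term of the dual sum -/
noncomputable def tm (T : ℝ) (h m : ℕ) (X : ℝ) : ℝ :=
  Real.cos (2 * Real.pi * (((m + 1 : ℕ) : ℝ) / h) * X) * K.G (((m + 1 : ℕ) : ℝ) / h / T * X)

/-- truncated dual sum -/
noncomputable def PX (T : ℝ) (D : DP) (Ξ : ℕ) (X : ℝ) : ℝ :=
  ∑ i ∈ D.coeff.support.sigma (fun h => Finset.range (Ξ * h)), D.coeff i.1 / i.1 * K.tm T i.1 i.2 X

/-- dual sum -/
noncomputable def PP (T : ℝ) (D : DP) (X : ℝ) : ℝ :=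
  ∑ h ∈ D.coeff.support, D.coeff h / h * K.dual (X / (h * T)) (X / h)

lemma QQ_dual {T : ℝ} (hT : 2 * K.L ≤ T) {D : DP} (hD : ∀ n, D.coeff n ≠ 0 → 1 ≤ n) {X : ℝ}
    (hX : 0 < X) : QQ (K.phi T) D X⁻¹ = 2 * X / T * K.PP T D X := by
  have hL := K.hL
  have hT0 : 0 < T := by linarith
  unfold QQ PP
  rw [Finset.mul_sum]
  refine Finset.sum_congr rfl fun h hh => ?_
  have h1 : 1 ≤ h := hD h (Finsupp.mem_support_iff.mp hh)
  have h0 : (0 : ℝ) < h := by exact_mod_cast h1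
  rw [K.poisson hT (by positivity : 0 < (h : ℝ) * X⁻¹)]
  have e1 : 1 / ((h : ℝ) * X⁻¹ * T) = X / (h * T) := by field_simp
  have e2 : 1 / ((h : ℝ) * X⁻¹) = X / h := by field_simp
  rw [e1, e2]
  field_simp

lemma integral_inv_sq (f : ℝ → ℝ) {x0 : ℝ} (hx0 : 0 < x0) :
    ∫ x in Ioo 0 x0, f x = ∫ X in Ioi x0⁻¹, X ^ (-2 : ℝ) * f X⁻¹ := by
  have h1 := integral_comp_rpow_Ioi ((Iio x0).indicator f) (p := -1) (by norm_num)
  have h2 : ∫ y in Ioi (0 : ℝ), (Iio x0).indicator f y = ∫ x in Ioo 0 x0, f x := by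
    rw [setIntegral_indicator measurableSet_Iio, Ioi_inter_Iio]
  rw [← h2, ← h1]
  have h3 : ∀ x ∈ Ioi (0 : ℝ), (|(-1 : ℝ)| * x ^ ((-1 : ℝ) - 1)) • (Iio x0).indicator f (x ^ (-1 : ℝ))
      = (Ioi x0⁻¹).indicator (fun X => X ^ (-2 : ℝ) * f X⁻¹) x := by
    intro x hx
    have hx' : (0 : ℝ) < x := hx
    rw [Real.rpow_neg_one, abs_neg, abs_one, one_mul, smul_eq_mul]
    have e : ((-1 : ℝ) - 1) = -2 := by norm_num
    rw [e, indicator_apply, indicator_apply]
    by_cases h : x⁻¹ < x0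
    · rw [if_pos (mem_Iio.mpr h), if_pos]
      rw [mem_Ioi]
      exact (inv_lt_comm₀ hx' hx0).mp h
    · rw [if_neg (fun h' => h (mem_Iio.mp h')), if_neg, mul_zero]
      intro h'
      exact h ((inv_lt_comm₀ hx' hx0).mpr (mem_Ioi.mp h'))
  rw [setIntegral_congr_fun measurableSet_Ioi h3, setIntegral_indicator measurableSet_Ioi,
    Ioi_inter_Ioi, max_eq_right (by positivity)]

lemma dual_tail {c : ℝ} (hc : 0 < c) (x : ℝ) {M : ℕ} (hM : 1 ≤ M) :
    |K.dual c x - ∑ m ∈ Finset.range M,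
      Real.cos (2 * Real.pi * ((m + 1 : ℕ) : ℝ) * x) * K.G (((m + 1 : ℕ) : ℝ) * c)|
      ≤ 2 * K.B2 / (c ^ 2 * M) := by
  have hB2 := K.B2_pos
  have hs := K.summable_dual hc x
  have h1 := hs.sum_add_tsum_nat_add M
  unfold dual
  rw [← h1, add_sub_cancel_left]
  have hM0 : (0 : ℝ) < M := by exact_mod_cast hM
  have hsum : Summable (fun n : ℕ => 1 / ((n + M : ℕ) : ℝ) ^ 2) :=
    (summable_nat_add_iff (f := fun n : ℕ => 1 / (n : ℝ) ^ 2) M).mpr
      (Real.summable_one_div_nat_pow.mpr (by norm_num : 1 < 2))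
  have h2 : ∀ n : ℕ, ‖Real.cos (2 * Real.pi * ((n + M + 1 : ℕ) : ℝ) * x) * K.G (((n + M + 1 : ℕ) : ℝ) * c)‖
      ≤ K.B2 / c ^ 2 * (1 / ((n + M : ℕ) : ℝ) ^ 2) := by
    intro n
    rw [norm_mul, Real.norm_eq_abs, Real.norm_eq_abs]
    have h3 := K.abs_G_le2 (w := ((n + M + 1 : ℕ) : ℝ) * c) (by positivity)
    have h4 : K.B2 / (((n + M + 1 : ℕ) : ℝ) * c) ^ 2 ≤ K.B2 / c ^ 2 * (1 / ((n + M : ℕ) : ℝ) ^ 2) := by
      rw [mul_one_div, div_div, mul_pow, mul_comm (c ^ 2)]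
      have h5 : (0 : ℝ) < ((n + M : ℕ) : ℝ) := by
        exact_mod_cast (by omega : 0 < n + M)
      have h6 : ((n + M : ℕ) : ℝ) ≤ ((n + M + 1 : ℕ) : ℝ) := by
        exact_mod_cast (by omega : n + M ≤ n + M + 1)
      gcongr
    calc |Real.cos (2 * Real.pi * ((n + M + 1 : ℕ) : ℝ) * x)| * |K.G (((n + M + 1 : ℕ) : ℝ) * c)|
        ≤ 1 * (K.B2 / (((n + M + 1 : ℕ) : ℝ) * c) ^ 2) := by
          gcongr
          exact Real.abs_cos_le_one _
      _ ≤ _ := by rw [one_mul]; exact h4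
  have h7 := tsum_of_norm_bounded (hsum.mul_left (K.B2 / c ^ 2)).hasSum h2
  rw [Real.norm_eq_abs] at h7
  refine h7.trans ?_
  rw [tsum_mul_left]
  have h8 := Pool.Agent.Lib.MP_f9aece_nt.tail_sum_sq M hM
  calc K.B2 / c ^ 2 * ∑' n : ℕ, 1 / ((n + M : ℕ) : ℝ) ^ 2 ≤ K.B2 / c ^ 2 * (2 / M) := by gcongr
    _ = _ := by field_simp

lemma PP_sub_PX {T : ℝ} (hT : 0 < T) {D : DP} (hD : ∀ n, D.coeff n ≠ 0 → 1 ≤ n) {Ξ : ℕ}
    (hΞ : 1 ≤ Ξ) {X : ℝ} (hX : 0 < X) :
    |K.PP T D X - K.PX T D Ξ X| ≤ 2 * K.B2 * T ^ 2 * nrm D / (Ξ * X ^ 2) := by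
  have hΞ0 : (0 : ℝ) < Ξ := by exact_mod_cast hΞ
  unfold PP PX
  rw [Finset.sum_sigma, ← Finset.sum_sub_distrib]
  refine (Finset.abs_sum_le_sum_abs _ _).trans ?_
  have hterm : ∀ h ∈ D.coeff.support, |D.coeff h / h * K.dual (X / (h * T)) (X / h)
      - ∑ m ∈ Finset.range (Ξ * h), D.coeff h / h * K.tm T h m X|
      ≤ |D.coeff h| * (2 * K.B2 * T ^ 2 / (Ξ * X ^ 2)) := by
    intro h hh
    have h1 : 1 ≤ h := hD h (Finsupp.mem_support_iff.mp hh)
    have h0 : (0 : ℝ) < h := by exact_mod_cast h1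
    have hc : 0 < X / (h * T) := by positivity
    have h2 := K.dual_tail hc (X / h) (M := Ξ * h) (Nat.mul_pos hΞ h1)
    have e1 : ∀ m, K.tm T h m X
        = Real.cos (2 * Real.pi * ((m + 1 : ℕ) : ℝ) * (X / h)) * K.G (((m + 1 : ℕ) : ℝ) * (X / (h * T))) := by
      intro m
      unfold tm
      congr 2
      · ring
      · field_simp
    simp_rw [e1]
    rw [← Finset.mul_sum, ← mul_sub, abs_mul, abs_div, abs_of_pos h0]
    calc |D.coeff h| / h * _ ≤ |D.coeff h| / h * (2 * K.B2 / ((X / (h * T)) ^ 2 * ((Ξ * h : ℕ) : ℝ))) := by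
          gcongr
      _ = |D.coeff h| * (2 * K.B2 * T ^ 2 / (Ξ * X ^ 2)) := by
          push_cast
          field_simp
  refine (Finset.sum_le_sum hterm).trans (le_of_eq ?_)
  rw [← Finset.sum_mul, nrm]
  ring

lemma tm_int {T : ℝ} (hT : 0 < T) {h m k n : ℕ} (hh : 1 ≤ h) :
    Integrable (fun X => K.tm T h m X * K.tm T k n X) := by
  have h0 : (0 : ℝ) < h := by exact_mod_cast hh
  have hc : 0 < ((m + 1 : ℕ) : ℝ) / h / T := by positivity
  have h1 := K.int_prod hc (c' := ((n + 1 : ℕ) : ℝ) / k / T)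
  refine (h1.bdd_mul (c := 1) (f := fun X => Real.cos (2 * Real.pi * (((m + 1 : ℕ) : ℝ) / h) * X)
    * Real.cos (2 * Real.pi * (((n + 1 : ℕ) : ℝ) / k) * X)) ?_ (Eventually.of_forall fun X => ?_)).congr
    (Eventually.of_forall fun X => ?_)
  · exact (by fun_prop : Continuous _).aestronglyMeasurable
  · rw [Real.norm_eq_abs, abs_mul]
    exact mul_le_one₀ (Real.abs_cos_le_one _) (abs_nonneg _) (Real.abs_cos_le_one _)
  · simp only [tm]
    ring

/-- the quadratic mean of the truncated dual sum, off-diagonal terms estimated -/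
lemma PX_sq {T : ℝ} (hT : 0 < T) {D : DP} {H : ℝ} (hD : ∀ n, D.coeff n ≠ 0 → 1 ≤ n ∧ (n : ℝ) ≤ H)
    (Ξ : ℕ) (a : ℝ) :
    IntegrableOn (fun X => K.PX T D Ξ X ^ 2) (Ioi a) ∧
    |(∫ X in Ioi a, K.PX T D Ξ X ^ 2) - ∑ h ∈ D.coeff.support, ∑ k ∈ D.coeff.support,
      D.coeff h / h * (D.coeff k / k) * ∑ p ∈ Finset.range (Ξ * h) ×ˢ Finset.range (Ξ * k),
      (if (p.1 + 1) * k = (p.2 + 1) * h then
        1 / 2 * ∫ X in Ioi a, K.G (((p.1 + 1 : ℕ) : ℝ) / h / T * X) ^ 2 else 0)|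
      ≤ K.CK * (Ξ * H * nrm D) ^ 2 := by
  classical
  have hCK := K.CK_nonneg
  set I := D.coeff.support.sigma (fun h => Finset.range (Ξ * h)) with hI
  have hI1 : ∀ i ∈ I, 1 ≤ i.1 ∧ (i.1 : ℝ) ≤ H ∧ i.2 < Ξ * i.1 := by
    intro i hi
    rw [hI, Finset.mem_sigma, Finset.mem_range] at hi
    have := hD i.1 (Finsupp.mem_support_iff.mp hi.1)
    exact ⟨this.1, this.2, hi.2⟩
  have hsq : ∀ X, K.PX T D Ξ X ^ 2 = ∑ i ∈ I, ∑ j ∈ I, (D.coeff i.1 / i.1 * (D.coeff j.1 / j.1))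
      * (K.tm T i.1 i.2 X * K.tm T j.1 j.2 X) := by
    intro X
    rw [sq, PX, Finset.sum_mul_sum]
    exact Finset.sum_congr rfl fun i _ => Finset.sum_congr rfl fun j _ => by ring
  have hint : ∀ i ∈ I, ∀ j ∈ I, IntegrableOn (fun X => (D.coeff i.1 / i.1 * (D.coeff j.1 / j.1))
      * (K.tm T i.1 i.2 X * K.tm T j.1 j.2 X)) (Ioi a) := fun i hi j _ =>
    ((K.tm_int hT (hI1 i hi).1).const_mul _).integrableOn
  have hintS : IntegrableOn (fun X => K.PX T D Ξ X ^ 2) (Ioi a) := by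
    simp_rw [hsq]
    exact integrable_finsetSum _ fun i hi => integrable_finsetSum _ fun j hj => hint i hi j hj
  refine ⟨hintS, ?_⟩
  have e1 : ∫ X in Ioi a, K.PX T D Ξ X ^ 2 = ∑ i ∈ I, ∑ j ∈ I,
      (D.coeff i.1 / i.1 * (D.coeff j.1 / j.1)) * ∫ X in Ioi a, K.tm T i.1 i.2 X * K.tm T j.1 j.2 X := by
    simp_rw [hsq]
    rw [integral_finsetSum _ fun i hi => integrable_finsetSum _ fun j hj => hint i hi j hj]
    refine Finset.sum_congr rfl fun i hi => ?_
    rw [integral_finsetSum _ fun j hj => hint i hi j hj]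
    exact Finset.sum_congr rfl fun j _ => integral_const_mul _ _
  have e2 : ∑ h ∈ D.coeff.support, ∑ k ∈ D.coeff.support,
      D.coeff h / h * (D.coeff k / k) * ∑ p ∈ Finset.range (Ξ * h) ×ˢ Finset.range (Ξ * k),
      (if (p.1 + 1) * k = (p.2 + 1) * h then
        1 / 2 * ∫ X in Ioi a, K.G (((p.1 + 1 : ℕ) : ℝ) / h / T * X) ^ 2 else 0)
      = ∑ i ∈ I, ∑ j ∈ I, (D.coeff i.1 / i.1 * (D.coeff j.1 / j.1)) *
        (if (i.2 + 1) * j.1 = (j.2 + 1) * i.1 then
          1 / 2 * ∫ X in Ioi a, K.G (((i.2 + 1 : ℕ) : ℝ) / i.1 / T * X) ^ 2 else 0) := by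
    rw [hI, Finset.sum_sigma]
    refine Finset.sum_congr rfl fun h _ => ?_
    simp_rw [Finset.sum_sigma]
    rw [Finset.sum_comm]
    refine Finset.sum_congr rfl fun k _ => ?_
    rw [Finset.mul_sum, Finset.sum_product]
  rw [e1, e2, ← Finset.sum_sub_distrib]
  simp_rw [← Finset.sum_sub_distrib, ← mul_sub]
  have hterm : ∀ i ∈ I, ∀ j ∈ I, |(D.coeff i.1 / i.1 * (D.coeff j.1 / j.1)) *
      ((∫ X in Ioi a, K.tm T i.1 i.2 X * K.tm T j.1 j.2 X)
        - (if (i.2 + 1) * j.1 = (j.2 + 1) * i.1 then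
          1 / 2 * ∫ X in Ioi a, K.G (((i.2 + 1 : ℕ) : ℝ) / i.1 / T * X) ^ 2 else 0))|
      ≤ K.CK * (|D.coeff i.1| * |D.coeff j.1|) := by
    intro i hi j hj
    obtain ⟨hi1, hi2, hi3⟩ := hI1 i hi
    obtain ⟨hj1, hj2, hj3⟩ := hI1 j hj
    have hi0 : (0 : ℝ) < i.1 := by exact_mod_cast hi1
    have hj0 : (0 : ℝ) < j.1 := by exact_mod_cast hj1
    set α : ℝ := 2 * Real.pi * (((i.2 + 1 : ℕ) : ℝ) / i.1) with hα
    set β : ℝ := 2 * Real.pi * (((j.2 + 1 : ℕ) : ℝ) / j.1) with hβ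
    have hc : 0 < ((i.2 + 1 : ℕ) : ℝ) / i.1 / T := by positivity
    have hc' : 0 < ((j.2 + 1 : ℕ) : ℝ) / j.1 / T := by positivity
    have hα0 : 0 < α := by positivity
    have hβ0 : 0 < β := by positivity
    have hpi : 1 ≤ 2 * Real.pi := by linarith [Real.pi_gt_three]
    have hαβ : α = β ↔ (i.2 + 1) * j.1 = (j.2 + 1) * i.1 := by
      rw [hα, hβ]
      constructor
      · intro h
        have h2 := mul_left_cancel₀ (by positivity : (2 * Real.pi) ≠ 0) h
        rw [div_eq_div_iff hi0.ne' hj0.ne'] at h2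
        exact_mod_cast h2
      · intro h
        congr 1
        rw [div_eq_div_iff hi0.ne' hj0.ne']
        exact_mod_cast h
    have hcc := K.cos_cos hc hc' (α := α) (β := β) (by positivity) a
    have hI2 : (if α = β then 1 / 2 * ∫ X in Ioi a, K.G (((i.2 + 1 : ℕ) : ℝ) / i.1 / T * X)
        * K.G (((j.2 + 1 : ℕ) : ℝ) / j.1 / T * X) else 0)
        = (if (i.2 + 1) * j.1 = (j.2 + 1) * i.1 then
          1 / 2 * ∫ X in Ioi a, K.G (((i.2 + 1 : ℕ) : ℝ) / i.1 / T * X) ^ 2 else 0) := by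
      by_cases h : α = β
      · rw [if_pos h, if_pos (hαβ.mp h)]
        have h2 : ((i.2 + 1 : ℕ) : ℝ) / i.1 = ((j.2 + 1 : ℕ) : ℝ) / j.1 :=
          mul_left_cancel₀ (by positivity : (2 * Real.pi) ≠ 0) h
        rw [← h2]
        simp_rw [sq]
      · rw [if_neg h, if_neg fun h' => h (hαβ.mpr h')]
    rw [hI2] at hcc
    have hb1 : 1 / |α + β| ≤ i.1 * j.1 := by
      rw [abs_of_pos (by positivity), div_le_iff₀ (by positivity)]
      have h2 : 1 / (i.1 : ℝ) ≤ α := by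
        rw [hα, ← mul_div_assoc]
        apply div_le_div_of_nonneg_right _ hi0.le
        have : (1 : ℝ) ≤ ((i.2 + 1 : ℕ) : ℝ) := by exact_mod_cast Nat.le_add_left 1 i.2
        exact one_le_mul_of_one_le_of_one_le hpi this
      have h3 : (1 : ℝ) ≤ j.1 := by exact_mod_cast hj1
      have h4 : 1 ≤ (i.1 : ℝ) * α := by
        rw [div_le_iff₀ hi0] at h2
        linarith
      have h5 : (1 : ℝ) ≤ j.1 * (i.1 * α) := one_le_mul_of_one_le_of_one_le h3 h4
      have h6 := mul_pos (mul_pos hi0 hj0) hβ0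
      have h7 : (i.1 : ℝ) * j.1 * (α + β) = j.1 * (i.1 * α) + i.1 * j.1 * β := by ring
      rw [h7]
      exact h5.trans (le_add_of_nonneg_right h6.le)
    have hb2 : (if α = β then 0 else 1 / |α - β|) ≤ (i.1 : ℝ) * j.1 := by
      by_cases h : α = β
      · rw [if_pos h]; positivity
      · rw [if_neg h]
        have hpos : 0 < |α - β| := abs_pos.mpr (sub_ne_zero.mpr h)
        rw [div_le_iff₀ hpos]
        have h2 : ¬ (i.2 + 1) * j.1 = (j.2 + 1) * i.1 := fun h' => h (hαβ.mpr h')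
        have h3 : α - β = 2 * Real.pi * ((((i.2 + 1) * j.1 : ℕ) : ℝ) - (((j.2 + 1) * i.1 : ℕ) : ℝ))
            / (i.1 * j.1) := by
          rw [hα, hβ]
          push_cast
          field_simp
        have h4 : (1 : ℝ) ≤ |(((i.2 + 1) * j.1 : ℕ) : ℝ) - (((j.2 + 1) * i.1 : ℕ) : ℝ)| := by
          have : (1 : ℤ) ≤ |(((i.2 + 1) * j.1 : ℕ) : ℤ) - (((j.2 + 1) * i.1 : ℕ) : ℤ)| :=
            Int.one_le_abs (sub_ne_zero.mpr (by exact_mod_cast h2))
          exact_mod_cast this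
        rw [h3, abs_div, abs_mul, abs_of_pos (by positivity : (0 : ℝ) < 2 * Real.pi),
          abs_of_pos (by positivity : (0 : ℝ) < i.1 * j.1)]
        rw [mul_div_cancel₀ _ (by positivity : (i.1 : ℝ) * j.1 ≠ 0)]
        exact one_le_mul_of_one_le_of_one_le hpi h4
    have hb3 : K.CK / 2 * (1 / |α + β| + if α = β then 0 else 1 / |α - β|) ≤ K.CK * (i.1 * j.1) := by
      calc K.CK / 2 * (1 / |α + β| + if α = β then 0 else 1 / |α - β|)
          ≤ K.CK / 2 * (i.1 * j.1 + i.1 * j.1) := by gcongr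
        _ = _ := by ring
    rw [abs_mul, abs_mul, abs_div, abs_div, abs_of_pos hi0, abs_of_pos hj0]
    have hcc' := hcc.trans hb3
    calc |D.coeff i.1| / i.1 * (|D.coeff j.1| / j.1) * _
        ≤ |D.coeff i.1| / i.1 * (|D.coeff j.1| / j.1) * (K.CK * (i.1 * j.1)) := by
          refine mul_le_mul_of_nonneg_left ?_ (by positivity)
          exact hcc'
      _ = _ := by field_simp
  refine (Finset.abs_sum_le_sum_abs _ _).trans ((Finset.sum_le_sum fun i hi =>
    (Finset.abs_sum_le_sum_abs _ _).trans (Finset.sum_le_sum fun j hj => hterm i hi j hj)).trans ?_)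
  have e3 : ∑ i ∈ I, ∑ j ∈ I, K.CK * (|D.coeff i.1| * |D.coeff j.1|)
      = K.CK * (∑ i ∈ I, |D.coeff i.1|) ^ 2 := by
    rw [sq, Finset.sum_mul_sum, Finset.mul_sum]
    exact Finset.sum_congr rfl fun i _ => by rw [Finset.mul_sum]
  rw [e3]
  have e4 : ∑ i ∈ I, |D.coeff i.1| ≤ Ξ * H * nrm D := by
    rw [hI, Finset.sum_sigma]
    calc ∑ h ∈ D.coeff.support, ∑ _m ∈ Finset.range (Ξ * h), |D.coeff h|
        = ∑ h ∈ D.coeff.support, (Ξ * h : ℝ) * |D.coeff h| := by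
          refine Finset.sum_congr rfl fun h _ => ?_
          rw [Finset.sum_const, Finset.card_range, nsmul_eq_mul]
          push_cast
          ring
      _ ≤ ∑ h ∈ D.coeff.support, (Ξ * H) * |D.coeff h| := by
          refine Finset.sum_le_sum fun h hh => ?_
          have := (hD h (Finsupp.mem_support_iff.mp hh)).2
          gcongr
      _ = _ := by rw [← Finset.mul_sum, nrm]
  have e5 : 0 ≤ ∑ i ∈ I, |D.coeff i.1| := Finset.sum_nonneg fun _ _ => abs_nonneg _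
  gcongr

end Ker

end Pool.Agent.Lib.MP_f9aece_nt_h97
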