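import Mathlib
import Pool.Agent.Lib.MP_f9aece_nt_h97.Dual

/-!
Evaluation of the diagonal of the dual part.
-/

set_option autoImplicit false

namespace Pool.Agent.Lib.MP_f9aece_nt_h97

open MeasureTheory Set Filter Topology
open Pool.Agent.Lib.MP_f9aece_nt (DP pair BK K2 K2_nonneg K2_eq_inv_lcm)

namespace Ker

variable (K : Ker)

/-- moments of the squared transform -/
noncomputable def I1 : ℝ := ∫ u in Ioi (0 : ℝ), K.G u ^ 2 * u ^ (-(1 / 2) : ℝ)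
/-- moments of the squared transform -/
noncomputable def I2 : ℝ := ∫ u in Ioi (0 : ℝ), K.G u ^ 2 * u
/-- moments of the squared transform -/
noncomputable def c2 : ℝ := ∫ u in Ioi (0 : ℝ), K.G u ^ 2 * Real.log u

lemma I1_nonneg : 0 ≤ K.I1 := setIntegral_nonneg measurableSet_Ioi fun u hu => by
  have : (0 : ℝ) < u := hu
  positivity

lemma I2_nonneg : 0 ≤ K.I2 := setIntegral_nonneg measurableSet_Ioi fun u hu => by
  have : (0 : ℝ) < u := hu
  positivity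

lemma int_I1 : IntegrableOn (fun u => K.G u ^ 2 * u ^ (-(1 / 2) : ℝ)) (Ioi 0) := by
  have hm : ∀ s : Set ℝ, s ⊆ Ioi 0 → MeasurableSet s → AEStronglyMeasurable
      (fun u => K.G u ^ 2 * u ^ (-(1 / 2) : ℝ)) (volume.restrict s) := by
    intro s hs hms
    refine ContinuousOn.aestronglyMeasurable ?_ hms
    refine (K.G_cont.pow 2).continuousOn.mul fun x hx => ?_
    have : (0 : ℝ) < x := hs hx
    exact (Real.continuousAt_rpow_const _ _ (Or.inl this.ne')).continuousWithinAt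
  have h1 : IntegrableOn (fun u => K.G u ^ 2 * u ^ (-(1 / 2) : ℝ)) (Ioc 0 1) := by
    have h2 : IntegrableOn (fun x : ℝ => x ^ (-(1 / 2) : ℝ)) (Ioc 0 1) :=
      (intervalIntegrable_iff_integrableOn_Ioc_of_le zero_le_one).mp
        (intervalIntegral.intervalIntegrable_rpow' (by norm_num))
    refine Integrable.mono' (h2.const_mul (K.B0 ^ 2)) (hm _ (fun x hx => hx.1) measurableSet_Ioc) ?_
    filter_upwards [ae_restrict_mem measurableSet_Ioc] with x hx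
    have hx0 := hx.1
    rw [Real.norm_eq_abs, abs_mul, abs_pow, abs_of_nonneg (by positivity : (0 : ℝ) ≤ x ^ (-(1 / 2) : ℝ))]
    gcongr
    exact K.abs_G_le x
  have h3 : IntegrableOn (fun u => K.G u ^ 2 * u ^ (-(1 / 2) : ℝ)) (Ioi 1) := by
    refine Integrable.mono' K.G_sq_integrable.integrableOn
      (hm _ (Ioi_subset_Ioi zero_le_one) measurableSet_Ioi) ?_
    filter_upwards [ae_restrict_mem measurableSet_Ioi] with x hx
    have hx1 : (1 : ℝ) < x := hx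
    have hx0 : (0 : ℝ) < x := by linarith
    rw [Real.norm_eq_abs, abs_mul, abs_of_nonneg (by positivity : (0 : ℝ) ≤ K.G x ^ 2),
      abs_of_nonneg (by positivity : (0 : ℝ) ≤ x ^ (-(1 / 2) : ℝ))]
    have : x ^ (-(1 / 2) : ℝ) ≤ 1 := Real.rpow_le_one_of_one_le_of_nonpos hx1.le (by norm_num)
    calc K.G x ^ 2 * x ^ (-(1 / 2) : ℝ) ≤ K.G x ^ 2 * 1 := by gcongr
      _ = _ := mul_one _
  rw [← Ioc_union_Ioi_eq_Ioi zero_le_one]
  exact h1.union h3

lemma int_I2 : IntegrableOn (fun u => K.G u ^ 2 * u) (Ioi 0) := by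
  obtain ⟨B, hB, h⟩ := K.G_decay 1
  refine Integrable.mono' ((K.G_integrable.abs.integrableOn (s := Ioi (0 : ℝ))).const_mul B)
    (((K.G_cont.pow 2).mul continuous_id).aestronglyMeasurable) ?_
  filter_upwards [ae_restrict_mem measurableSet_Ioi] with x hx
  have hx0 : (0 : ℝ) < x := hx
  have h1 := h x
  rw [pow_one] at h1
  rw [Real.norm_eq_abs, abs_mul, abs_pow]
  calc |K.G x| ^ 2 * |x| = (|x| * |K.G x|) * |K.G x| := by ring
    _ ≤ B * |K.G x| := by gcongr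

lemma int_c2 : IntegrableOn (fun u => K.G u ^ 2 * Real.log u) (Ioi 0) := by
  have hb := (K.int_I1.const_mul 2).add K.int_I2
  refine Integrable.mono' hb ?_ ?_
  · refine ContinuousOn.aestronglyMeasurable ?_ measurableSet_Ioi
    exact (K.G_cont.pow 2).continuousOn.mul (Real.continuousOn_log.mono fun u hu => ne_of_gt hu)
  · filter_upwards [ae_restrict_mem measurableSet_Ioi] with x hx
    have hx0 : (0 : ℝ) < x := hx
    rw [Real.norm_eq_abs, abs_mul, abs_of_nonneg (by positivity : (0 : ℝ) ≤ K.G x ^ 2)]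
    simp only [Pi.add_apply]
    have h1 : |Real.log x| ≤ 2 * x ^ (-(1 / 2) : ℝ) + x := by
      have h2 := Real.log_le_sub_one_of_pos (x := x ^ (-(1 / 2) : ℝ)) (by positivity)
      rw [Real.log_rpow hx0] at h2
      have h3 := Real.log_le_sub_one_of_pos hx0
      have h4 : 0 ≤ x ^ (-(1 / 2) : ℝ) := by positivity
      rw [abs_le]
      constructor <;> linarith
    calc K.G x ^ 2 * |Real.log x| ≤ K.G x ^ 2 * (2 * x ^ (-(1 / 2) : ℝ) + x) := by gcongr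
      _ = _ := by ring

/-- diagonal evaluation -/
lemma diag_eval {T a : ℝ} (hT : 0 < T) (ha : 0 < a) {D : DP} (hD : ∀ n, D.coeff n ≠ 0 → 1 ≤ n)
    {Ξ : ℕ} (hΞ : 1 ≤ Ξ) :
    |(∑ h ∈ D.coeff.support, ∑ k ∈ D.coeff.support,
      D.coeff h / h * (D.coeff k / k) * ∑ p ∈ Finset.range (Ξ * h) ×ˢ Finset.range (Ξ * k),
      (if (p.1 + 1) * k = (p.2 + 1) * h then
        1 / 2 * ∫ X in Ioi a, K.G (((p.1 + 1 : ℕ) : ℝ) / h / T * X) ^ 2 else 0))
      - T / 2 * (K.m2 / 2 * ((Real.log (T / a) + γE) * BK K2 D D + BK Kg D D) + K.c2 * BK K2 D D)|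
      ≤ T / 2 * (nrm D ^ 2 * (2 * (a / T) ^ (1 / 2 : ℝ) * K.I1 + T / (Ξ * a) * K.I2)) := by
  have hI1 := K.I1_nonneg
  have hI2 := K.I2_nonneg
  have hΞ0 : (0 : ℝ) < Ξ := by exact_mod_cast hΞ
  rw [BK_eq, BK_eq]
  have hmain : T / 2 * (K.m2 / 2 * ((Real.log (T / a) + γE) * (∑ h ∈ D.coeff.support,
        ∑ k ∈ D.coeff.support, D.coeff h * D.coeff k * K2 h k) + ∑ h ∈ D.coeff.support,
        ∑ k ∈ D.coeff.support, D.coeff h * D.coeff k * Kg h k) + K.c2 * (∑ h ∈ D.coeff.support,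
        ∑ k ∈ D.coeff.support, D.coeff h * D.coeff k * K2 h k))
      = ∑ h ∈ D.coeff.support, ∑ k ∈ D.coeff.support, D.coeff h * D.coeff k * (K2 h k *
        (T / 2 * (K.m2 / 2 * (Real.log (T / a) + Real.log (Nat.gcd h k) + γE) + K.c2))) := by
    simp only [Finset.mul_sum, ← Finset.sum_add_distrib]
    refine Finset.sum_congr rfl fun h _ => Finset.sum_congr rfl fun k _ => ?_
    unfold Kg
    ring
  rw [hmain]
  simp only [← Finset.sum_sub_distrib]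
  have hterm : ∀ h ∈ D.coeff.support, ∀ k ∈ D.coeff.support,
      |D.coeff h / h * (D.coeff k / k) * (∑ p ∈ Finset.range (Ξ * h) ×ˢ Finset.range (Ξ * k),
      (if (p.1 + 1) * k = (p.2 + 1) * h then
        1 / 2 * ∫ X in Ioi a, K.G (((p.1 + 1 : ℕ) : ℝ) / h / T * X) ^ 2 else 0))
      - D.coeff h * D.coeff k * (K2 h k *
        (T / 2 * (K.m2 / 2 * (Real.log (T / a) + Real.log (Nat.gcd h k) + γE) + K.c2)))|
      ≤ |D.coeff h| * |D.coeff k| * (T / 2 * (2 * (a / T) ^ (1 / 2 : ℝ) * K.I1 + T / (Ξ * a) * K.I2)) := by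
    intro h hh k hk
    have hh1 : 1 ≤ h := hD h (Finsupp.mem_support_iff.mp hh)
    have hk1 : 1 ≤ k := hD k (Finsupp.mem_support_iff.mp hk)
    have hh0 : (0 : ℝ) < h := by exact_mod_cast hh1
    have hk0 : (0 : ℝ) < k := by exact_mod_cast hk1
    have hq1 : 1 ≤ Nat.gcd h k := Nat.gcd_pos_of_pos_left k hh1
    set q : ℝ := ((Nat.gcd h k : ℕ) : ℝ) with hqdef
    have hq1' : 1 ≤ q := by rw [hqdef]; exact_mod_cast hq1
    have hq0 : 0 < q := by linarith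
    rw [diag_pairs hh1 hk1 Ξ (fun n => 1 / 2 * ∫ X in Ioi a, K.G (((n : ℕ) : ℝ) / h / T * X) ^ 2)]
    have hv : 0 < a / (q * T) := by positivity
    have hJ : 1 ≤ Ξ * Nat.gcd h k := Nat.mul_pos hΞ hq1
    have hs := harm_sum (w := fun u => K.G u ^ 2) K.G_sq_integrable.integrableOn
      (fun u => by positivity) K.int_I1 K.int_I2 K.int_c2 hv hJ
    rw [K.integral_G_sq_Ioi] at hs
    have e0 : ∀ j : ℕ, 1 / 2 * ∫ X in Ioi a,
        K.G ((((j + 1) * (h / Nat.gcd h k) : ℕ) : ℝ) / h / T * X) ^ 2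
        = T / 2 * (q * ((((j + 1 : ℕ) : ℝ))⁻¹ * ∫ u in Ioi (((j + 1 : ℕ) : ℝ) * (a / (q * T))), K.G u ^ 2)) := by
      intro j
      have e1 : (((j + 1) * (h / Nat.gcd h k) : ℕ) : ℝ) / h / T = ((j + 1 : ℕ) : ℝ) / (q * T) := by
        rw [Nat.cast_mul, Nat.cast_div (Nat.gcd_dvd_left h k) (by rw [← hqdef]; exact hq0.ne'), ← hqdef]
        field_simp
      rw [e1]
      have hb : 0 < ((j + 1 : ℕ) : ℝ) / (q * T) := by positivity
      rw [integral_comp_mul_left_Ioi (fun y => K.G y ^ 2) a hb, smul_eq_mul]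
      have e2 : ((j + 1 : ℕ) : ℝ) / (q * T) * a = ((j + 1 : ℕ) : ℝ) * (a / (q * T)) := by ring
      rw [e2, inv_div]
      field_simp
    rw [Finset.sum_congr rfl fun j _ => e0 j, ← Finset.mul_sum, ← Finset.mul_sum]
    have hK : K2 h k = q / (h * k) := by rw [K2]
    have hK0 : K2 h k ≤ 1 := by
      rw [K2_eq_inv_lcm (by omega) (by omega)]
      apply inv_le_one_of_one_le₀
      exact_mod_cast Nat.lcm_pos hh1 hk1
    have e3 : Real.log (1 / (a / (q * T))) = Real.log (T / a) + Real.log q := by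
      have : 1 / (a / (q * T)) = T / a * q := by field_simp
      rw [this, Real.log_mul (by positivity) (by positivity)]
    rw [e3] at hs
    set Sm := ∑ j ∈ Finset.range (Ξ * Nat.gcd h k), (((j + 1 : ℕ) : ℝ))⁻¹ *
      ∫ u in Ioi (((j + 1 : ℕ) : ℝ) * (a / (q * T))), K.G u ^ 2 with hSm
    have e4 : D.coeff h / h * (D.coeff k / k) * (T / 2 * (q * Sm))
        - D.coeff h * D.coeff k * (K2 h k *
          (T / 2 * (K.m2 / 2 * (Real.log (T / a) + Real.log q + γE) + K.c2)))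
        = D.coeff h * D.coeff k * (K2 h k * (T / 2 * (Sm
          - (K.m2 / 2 * (Real.log (T / a) + Real.log q + γE) + K.c2)))) := by
      rw [hK]
      field_simp
    rw [e4, abs_mul, abs_mul, abs_mul, abs_mul, abs_of_nonneg (K2_nonneg h k),
      abs_of_pos (by positivity : 0 < T / 2)]
    have hs2 : |Sm - (K.m2 / 2 * (Real.log (T / a) + Real.log q + γE) + K.c2)|
        ≤ 2 * (a / T) ^ (1 / 2 : ℝ) * K.I1 + T / (Ξ * a) * K.I2 := by
      refine hs.trans ?_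
      have f1 : (a / (q * T)) ^ (1 / 2 : ℝ) ≤ (a / T) ^ (1 / 2 : ℝ) := by
        apply Real.rpow_le_rpow hv.le _ (by norm_num)
        apply div_le_div_of_nonneg_left ha.le hT
        nlinarith
      have f2 : 1 / (((Ξ * Nat.gcd h k : ℕ) : ℝ) * (a / (q * T))) = T / (Ξ * a) := by
        push_cast
        rw [← hqdef]
        field_simp
      rw [f2]
      have f3 : (∫ u in Ioi (0 : ℝ), K.G u ^ 2 * u ^ (-(1 / 2) : ℝ)) = K.I1 := rfl
      have f4 : (∫ u in Ioi (0 : ℝ), K.G u ^ 2 * u) = K.I2 := rfl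
      rw [f3, f4]
      gcongr
    have hB : 0 ≤ 2 * (a / T) ^ (1 / 2 : ℝ) * K.I1 + T / (Ξ * a) * K.I2 := by positivity
    calc |D.coeff h| * |D.coeff k| * (K2 h k * (T / 2 *
          |Sm - (K.m2 / 2 * (Real.log (T / a) + Real.log q + γE) + K.c2)|))
        ≤ |D.coeff h| * |D.coeff k| * (1 * (T / 2 *
          (2 * (a / T) ^ (1 / 2 : ℝ) * K.I1 + T / (Ξ * a) * K.I2))) := by gcongr
      _ = _ := by ring
  refine (Finset.abs_sum_le_sum_abs _ _).trans ((Finset.sum_le_sum fun h hh =>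
    (Finset.abs_sum_le_sum_abs _ _).trans (Finset.sum_le_sum fun k hk => hterm h hh k hk)).trans
    (le_of_eq ?_))
  unfold nrm
  have e5 : T / 2 * ((∑ h ∈ D.coeff.support, |D.coeff h|) ^ 2 *
      (2 * (a / T) ^ (1 / 2 : ℝ) * K.I1 + T / (Ξ * a) * K.I2))
      = (∑ h ∈ D.coeff.support, |D.coeff h|) ^ 2 *
      (T / 2 * (2 * (a / T) ^ (1 / 2 : ℝ) * K.I1 + T / (Ξ * a) * K.I2)) := by ring
  rw [e5, sq, Finset.sum_mul_sum, Finset.sum_mul]
  refine Finset.sum_congr rfl fun h _ => ?_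
  rw [Finset.sum_mul]

/-- main term of the dual part -/
noncomputable def Md (T x0 : ℝ) (D : DP) : ℝ :=
  1 / T * (K.m2 * ((Real.log (T * x0) + γE) * BK K2 D D + BK Kg D D) + 2 * K.c2 * BK K2 D D)

/-- first error of the dual part -/
noncomputable def Ed1 (T x0 H : ℝ) (Ξ : ℕ) (D : DP) : ℝ :=
  4 / T ^ 2 * (K.CK * (Ξ * H * nrm D) ^ 2)
    + 2 / T * (nrm D ^ 2 * (2 * (1 / (T * x0)) ^ (1 / 2 : ℝ) * K.I1 + T * x0 / Ξ * K.I2))

/-- second error of the dual part -/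
noncomputable def Ed2 (T x0 : ℝ) (Ξ : ℕ) (D : DP) : ℝ :=
  16 / 3 * K.B2 ^ 2 * T ^ 2 * x0 ^ 3 * nrm D ^ 2 / Ξ ^ 2

theorem dual_bound {T : ℝ} (hT : 2 * K.L ≤ T) {D : DP} {H : ℝ}
    (hD : ∀ n, D.coeff n ≠ 0 → 1 ≤ n ∧ (n : ℝ) ≤ H) {x0 : ℝ} (hx0 : 0 < x0) {Ξ : ℕ} (hΞ : 1 ≤ Ξ)
    {δ : ℝ} (hδ : 0 < δ) :
    ∫ x in Ioo 0 x0, QQ (K.phi T) D x ^ 2
      ≤ (1 + δ) * (K.Md T x0 D + K.Ed1 T x0 H Ξ D) + (1 + 1 / δ) * K.Ed2 T x0 Ξ D := by
  have hL := K.hL
  have hT0 : 0 < T := by linarith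
  have hD1 : ∀ n, D.coeff n ≠ 0 → 1 ≤ n := fun n hn => (hD n hn).1
  have hΞ0 : (0 : ℝ) < Ξ := by exact_mod_cast hΞ
  have hB2 := K.B2_pos
  have ha : 0 < x0⁻¹ := by positivity
  rw [integral_inv_sq _ hx0]
  obtain ⟨i1, s1⟩ := K.PX_sq hT0 hD Ξ x0⁻¹
  have s2 := K.diag_eval hT0 ha hD1 hΞ
  set A := ∫ X in Ioi x0⁻¹, K.PX T D Ξ X ^ 2 with hA
  -- bound for A
  have hA1 : 4 / T ^ 2 * A ≤ K.Md T x0 D + K.Ed1 T x0 H Ξ D := by
    have h1 := le_of_abs_le s1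
    have h2 := le_of_abs_le s2
    have e1 : T / x0⁻¹ = T * x0 := by rw [div_inv_eq_mul]
    have e2 : x0⁻¹ / T = 1 / (T * x0) := by field_simp
    have e3 : T / (Ξ * x0⁻¹) = T * x0 / Ξ := by field_simp
    rw [e1, e2, e3] at h2
    have h3 : A ≤ T / 2 * (K.m2 / 2 * ((Real.log (T * x0) + γE) * BK K2 D D + BK Kg D D)
        + K.c2 * BK K2 D D)
        + T / 2 * (nrm D ^ 2 * (2 * (1 / (T * x0)) ^ (1 / 2 : ℝ) * K.I1 + T * x0 / Ξ * K.I2))
        + K.CK * (Ξ * H * nrm D) ^ 2 := by linarith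
    have h4 : 4 / T ^ 2 * A ≤ 4 / T ^ 2 * (T / 2 * (K.m2 / 2 * ((Real.log (T * x0) + γE) * BK K2 D D
        + BK Kg D D) + K.c2 * BK K2 D D)
        + T / 2 * (nrm D ^ 2 * (2 * (1 / (T * x0)) ^ (1 / 2 : ℝ) * K.I1 + T * x0 / Ξ * K.I2))
        + K.CK * (Ξ * H * nrm D) ^ 2) := by gcongr
    refine h4.trans (le_of_eq ?_)
    unfold Md Ed1
    field_simp
    ring
  -- pointwise bound
  set R : ℝ := 2 * K.B2 * T ^ 2 * nrm D / Ξ with hR
  have hpt : ∀ X ∈ Ioi x0⁻¹, X ^ (-2 : ℝ) * QQ (K.phi T) D X⁻¹ ^ 2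
      ≤ (1 + δ) * (4 / T ^ 2 * K.PX T D Ξ X ^ 2)
        + (1 + 1 / δ) * (4 / T ^ 2 * (R ^ 2 * X ^ (-4 : ℝ))) := by
    intro X hX
    have hX0 : (0 : ℝ) < X := lt_trans ha hX
    rw [K.QQ_dual hT hD1 hX0]
    have e1 : X ^ (-2 : ℝ) = 1 / X ^ 2 := by
      rw [Real.rpow_neg hX0.le, one_div]; norm_num
    have e2 : X ^ (-4 : ℝ) = 1 / X ^ 4 := by
      rw [Real.rpow_neg hX0.le, one_div]
      congr 1
      have : (4 : ℝ) = ((4 : ℕ) : ℝ) := by norm_num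
      rw [this, Real.rpow_natCast]
    rw [e1, e2]
    have h1 := K.PP_sub_PX hT0 hD1 hΞ hX0
    set r := K.PP T D X - K.PX T D Ξ X with hr
    have h2 : K.PP T D X = K.PX T D Ξ X + r := by rw [hr]; ring
    have h3 : r ^ 2 ≤ R ^ 2 * (1 / X ^ 4) := by
      have h4 : |r| ≤ R * (1 / X ^ 2) := by
        refine h1.trans (le_of_eq ?_)
        rw [hR]
        field_simp
      calc r ^ 2 = |r| ^ 2 := (sq_abs r).symm
        _ ≤ (R * (1 / X ^ 2)) ^ 2 := by gcongr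
        _ = _ := by ring
    have h5 : K.PP T D X ^ 2 ≤ (1 + δ) * K.PX T D Ξ X ^ 2 + (1 + 1 / δ) * r ^ 2 := by
      rw [h2]
      have h6 : 0 ≤ (δ * K.PX T D Ξ X - r) ^ 2 / δ := by positivity
      have h7 : (δ * K.PX T D Ξ X - r) ^ 2 / δ
          = δ * K.PX T D Ξ X ^ 2 - 2 * (K.PX T D Ξ X * r) + 1 / δ * r ^ 2 := by
        field_simp
        ring
      nlinarith
    have e3 : 1 / X ^ 2 * (2 * X / T * K.PP T D X) ^ 2 = 4 / T ^ 2 * K.PP T D X ^ 2 := by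
      field_simp
      ring
    rw [e3]
    calc 4 / T ^ 2 * K.PP T D X ^ 2
        ≤ 4 / T ^ 2 * ((1 + δ) * K.PX T D Ξ X ^ 2 + (1 + 1 / δ) * (R ^ 2 * (1 / X ^ 4))) := by
          gcongr
          refine h5.trans ?_
          gcongr
      _ = _ := by ring
  have i2 : IntegrableOn (fun X : ℝ => X ^ (-4 : ℝ)) (Ioi x0⁻¹) :=
    integrableOn_Ioi_rpow_of_lt (by norm_num) ha
  have c4 : ∫ X in Ioi x0⁻¹, X ^ (-4 : ℝ) = x0 ^ 3 / 3 := by
    rw [integral_Ioi_rpow_of_lt (by norm_num) ha]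
    have e1 : (x0⁻¹) ^ ((-4 : ℝ) + 1) = x0 ^ 3 := by
      rw [Real.inv_rpow hx0.le, ← Real.rpow_neg hx0.le]
      have : -((-4 : ℝ) + 1) = ((3 : ℕ) : ℝ) := by norm_num
      rw [this, Real.rpow_natCast]
    rw [e1]
    norm_num
  have j1 : Integrable (fun X => (1 + δ) * (4 / T ^ 2 * K.PX T D Ξ X ^ 2)) (volume.restrict (Ioi x0⁻¹)) :=
    (Integrable.const_mul i1 _).const_mul _
  have j2 : Integrable (fun X : ℝ => (1 + 1 / δ) * (4 / T ^ 2 * (R ^ 2 * X ^ (-4 : ℝ))))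
      (volume.restrict (Ioi x0⁻¹)) := (((Integrable.const_mul i2 _).const_mul _).const_mul _)
  have hmono := integral_mono_of_nonneg (μ := volume.restrict (Ioi x0⁻¹))
    (f := fun X => X ^ (-2 : ℝ) * QQ (K.phi T) D X⁻¹ ^ 2)
    (g := fun X => (1 + δ) * (4 / T ^ 2 * K.PX T D Ξ X ^ 2)
        + (1 + 1 / δ) * (4 / T ^ 2 * (R ^ 2 * X ^ (-4 : ℝ)))) ?_ (j1.add j2) ?_
  · refine hmono.trans ?_
    rw [integral_add j1 j2, integral_const_mul, integral_const_mul, integral_const_mul,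
      integral_const_mul, integral_const_mul, c4]
    have e4 : 4 / T ^ 2 * (R ^ 2 * (x0 ^ 3 / 3)) = K.Ed2 T x0 Ξ D := by
      unfold Ed2
      rw [hR]
      field_simp
      try ring
    rw [e4]
    gcongr
  · filter_upwards [ae_restrict_mem measurableSet_Ioi] with X hX
    have hX0 : (0 : ℝ) < X := lt_trans ha hX
    simp only [Pi.zero_apply]
    positivity
  · filter_upwards [ae_restrict_mem measurableSet_Ioi] with X hX
    exact hpt X hX

end Ker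

end Pool.Agent.Lib.MP_f9aece_nt_h97
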