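import Mathlib
import Pool.Agent.Lib.MP_f9aece_nt_h97.Dual2

/-!
The full quadratic mean of the Muentz sum attached to a Dirichlet polynomial.
-/

set_option autoImplicit false

namespace Pool.Agent.Lib.MP_f9aece_nt_h97

open MeasureTheory Set Filter Topology Complex
open Pool.Agent.Lib.MP_f9aece_nt (DP pair BK K2 K2_nonneg K2_eq_inv_lcm ev ev_apply)

lemma K2_le_one {a b : ℕ} (ha : 1 ≤ a) (hb : 1 ≤ b) : |K2 a b| ≤ 1 := by
  rw [abs_of_nonneg (K2_nonneg a b), K2_eq_inv_lcm (by omega) (by omega)]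
  apply inv_le_one_of_one_le₀
  exact_mod_cast Nat.lcm_pos ha hb

lemma Kg_le_one {a b : ℕ} (ha : 1 ≤ a) (hb : 1 ≤ b) : |Kg a b| ≤ 1 := by
  have hl : 1 ≤ Nat.lcm a b := Nat.lcm_pos ha hb
  have hg : 1 ≤ Nat.gcd a b := Nat.gcd_pos_of_pos_left b ha
  have hgl : Nat.gcd a b ≤ Nat.lcm a b :=
    Nat.le_of_dvd hl ((Nat.gcd_dvd_left a b).trans (Nat.dvd_lcm_left a b))
  have h1 : (0 : ℝ) < Nat.lcm a b := by exact_mod_cast hl
  have h2 : (1 : ℝ) ≤ Nat.gcd a b := by exact_mod_cast hg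
  have h3 : Real.log (Nat.gcd a b) ≤ Nat.lcm a b := by
    have h4 := Real.log_le_sub_one_of_pos (x := (Nat.gcd a b : ℝ)) (by linarith)
    have h5 : (Nat.gcd a b : ℝ) ≤ Nat.lcm a b := by exact_mod_cast hgl
    linarith
  unfold Kg
  rw [abs_mul, abs_of_nonneg (K2_nonneg a b), K2_eq_inv_lcm (by omega) (by omega),
    abs_of_nonneg (Real.log_nonneg h2), inv_mul_le_iff₀ h1, mul_one]
  exact h3

private lemma tot_a1 {CK τ H N Ξ : ℝ} (hCK : 0 ≤ CK) (hτ : 1 ≤ τ) (hH : 1 ≤ H) (hN0 : 0 ≤ N)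
    (hΞ0 : 0 < Ξ) (hΞ3 : Ξ ≤ 2 * τ ^ 6) :
    4 / (τ ^ 16) ^ 2 * (CK * (Ξ * H * N) ^ 2) ≤ 16 * CK * (N * H) ^ 2 / τ ^ 17 := by
  have hτ0 : 0 < τ := by linarith
  have hNH0 : 0 ≤ N * H := mul_nonneg hN0 (by linarith)
  have b1 : Ξ * H * N ≤ 2 * τ ^ 6 * (N * H) := by
    calc Ξ * H * N = Ξ * (N * H) := by ring
      _ ≤ _ := mul_le_mul_of_nonneg_right hΞ3 hNH0
  have b2 : 0 ≤ Ξ * H * N := by positivity
  have b3 : (Ξ * H * N) ^ 2 ≤ (2 * τ ^ 6 * (N * H)) ^ 2 := pow_le_pow_left₀ b2 b1 2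
  have b4 : 0 ≤ 4 / (τ ^ 16) ^ 2 := by positivity
  have b5 : τ ^ 17 ≤ τ ^ 20 := pow_le_pow_right₀ hτ (by norm_num)
  have b6 : 0 ≤ 16 * CK * (N * H) ^ 2 := by positivity
  calc 4 / (τ ^ 16) ^ 2 * (CK * (Ξ * H * N) ^ 2)
      ≤ 4 / (τ ^ 16) ^ 2 * (CK * (2 * τ ^ 6 * (N * H)) ^ 2) :=
        mul_le_mul_of_nonneg_left (mul_le_mul_of_nonneg_left b3 hCK) b4
    _ = 16 * CK * (N * H) ^ 2 / τ ^ 20 := by
        field_simp; ring
    _ ≤ _ := div_le_div_of_nonneg_left b6 (by positivity) b5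

private lemma tot_a2 {I1 I2 τ H N Ξ : ℝ} (hI1 : 0 ≤ I1) (hI2 : 0 ≤ I2) (hτ : 1 ≤ τ)
    (hNH : N ^ 2 ≤ (N * H) ^ 2) (hΞ0 : 0 < Ξ) (hΞ2 : τ ^ 6 ≤ Ξ) :
    2 / τ ^ 16 * (N ^ 2 * (2 * (1 / τ) * I1 + τ ^ 2 / Ξ * I2))
      ≤ (4 * I1 + 2 * I2) * (N * H) ^ 2 / τ ^ 17 := by
  have hτ0 : 0 < τ := by linarith
  have b1 : τ ^ 2 / Ξ ≤ 1 / τ := by
    rw [div_le_div_iff₀ hΞ0 hτ0]
    calc τ ^ 2 * τ = τ ^ 3 := by ring
      _ ≤ τ ^ 6 := pow_le_pow_right₀ hτ (by norm_num)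
      _ ≤ 1 * Ξ := by linarith
  have b2 : 0 ≤ 2 / τ ^ 16 := by positivity
  have b3 : 2 * (1 / τ) * I1 + τ ^ 2 / Ξ * I2 ≤ 2 * (1 / τ) * I1 + 1 / τ * I2 :=
    add_le_add_right (mul_le_mul_of_nonneg_right b1 hI2) _
  have b4 : 0 ≤ 4 * I1 + 2 * I2 := by positivity
  calc 2 / τ ^ 16 * (N ^ 2 * (2 * (1 / τ) * I1 + τ ^ 2 / Ξ * I2))
      ≤ 2 / τ ^ 16 * (N ^ 2 * (2 * (1 / τ) * I1 + 1 / τ * I2)) :=
        mul_le_mul_of_nonneg_left (mul_le_mul_of_nonneg_left b3 (sq_nonneg N)) b2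
    _ = (4 * I1 + 2 * I2) * N ^ 2 / τ ^ 17 := by
        field_simp; ring
    _ ≤ _ := div_le_div_of_nonneg_right (mul_le_mul_of_nonneg_left hNH b4) (by positivity)

private lemma tot_b {B2 δ τ H N Ξ : ℝ} (hδ : δ = (τ ^ 2)⁻¹) (hτ : 1 ≤ τ)
    (hNH : N ^ 2 ≤ (N * H) ^ 2) (hΞ2 : τ ^ 6 ≤ Ξ) :
    (1 + 1 / δ) * (16 / 3 * B2 ^ 2 * (τ ^ 16) ^ 2 * ((τ ^ 14)⁻¹) ^ 3 * N ^ 2 / Ξ ^ 2)
      ≤ 22 * B2 ^ 2 * (N * H) ^ 2 / τ ^ 17 := by
  have hτ0 : 0 < τ := by linarith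
  have b1 : 1 + 1 / δ ≤ 2 * τ ^ 2 := by
    rw [hδ, one_div, inv_inv]
    have : (1 : ℝ) ≤ τ ^ 2 := one_le_pow₀ hτ
    linarith
  have b0 : 0 ≤ 16 / 3 * B2 ^ 2 * (τ ^ 16) ^ 2 * ((τ ^ 14)⁻¹) ^ 3 * N ^ 2 := by positivity
  have b2 : 16 / 3 * B2 ^ 2 * (τ ^ 16) ^ 2 * ((τ ^ 14)⁻¹) ^ 3 * N ^ 2 / Ξ ^ 2
      ≤ 16 / 3 * B2 ^ 2 * (τ ^ 16) ^ 2 * ((τ ^ 14)⁻¹) ^ 3 * N ^ 2 / (τ ^ 6) ^ 2 :=
    div_le_div_of_nonneg_left b0 (by positivity) (pow_le_pow_left₀ (by positivity) hΞ2 2)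
  have b3 : 0 ≤ 16 / 3 * B2 ^ 2 * (τ ^ 16) ^ 2 * ((τ ^ 14)⁻¹) ^ 3 * N ^ 2 / Ξ ^ 2 :=
    div_nonneg b0 (sq_nonneg _)
  have b4 : τ ^ 17 ≤ τ ^ 20 := pow_le_pow_right₀ hτ (by norm_num)
  have h3 : 32 / 3 * B2 ^ 2 * N ^ 2 ≤ 22 * B2 ^ 2 * (N * H) ^ 2 := by
    have h4 : 32 / 3 * B2 ^ 2 ≤ 22 * B2 ^ 2 := by
      have := sq_nonneg B2
      linarith
    exact mul_le_mul h4 hNH (sq_nonneg N) (by positivity)
  calc (1 + 1 / δ) * (16 / 3 * B2 ^ 2 * (τ ^ 16) ^ 2 * ((τ ^ 14)⁻¹) ^ 3 * N ^ 2 / Ξ ^ 2)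
      ≤ 2 * τ ^ 2 * (16 / 3 * B2 ^ 2 * (τ ^ 16) ^ 2 * ((τ ^ 14)⁻¹) ^ 3 * N ^ 2 / (τ ^ 6) ^ 2) :=
        mul_le_mul b1 b2 b3 (by positivity)
    _ = 32 / 3 * B2 ^ 2 * N ^ 2 / τ ^ 20 := by
        field_simp; ring
    _ ≤ 22 * B2 ^ 2 * (N * H) ^ 2 / τ ^ 20 := div_le_div_of_nonneg_right h3 (by positivity)
    _ ≤ 22 * B2 ^ 2 * (N * H) ^ 2 / τ ^ 17 :=
        div_le_div_of_nonneg_left (by positivity) (by positivity) b4

private lemma tot_De {m2 ml τ H N : ℝ} (hm2 : 0 ≤ m2) (hτ : 1 ≤ τ)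
    (hNH : N ^ 2 ≤ (N * H) ^ 2) :
    N ^ 2 * (6 * (m2 / τ ^ 16) * (1 / τ ^ 7) + 13 * (ml / τ ^ 16) ^ 2 / (τ ^ 14)⁻¹)
      ≤ (6 * m2 + 13 * ml ^ 2) * (N * H) ^ 2 / τ ^ 17 := by
  have hτ0 : 0 < τ := by linarith
  have g1 : τ ^ 17 ≤ τ ^ 23 := pow_le_pow_right₀ hτ (by norm_num)
  have g2 : τ ^ 17 ≤ τ ^ 18 := pow_le_pow_right₀ hτ (by norm_num)
  have g3 : 6 * m2 * N ^ 2 / τ ^ 23 ≤ 6 * m2 * (N * H) ^ 2 / τ ^ 17 :=
    (div_le_div_of_nonneg_left (by positivity) (by positivity) g1).trans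
      (div_le_div_of_nonneg_right (mul_le_mul_of_nonneg_left hNH (by positivity)) (by positivity))
  have g4 : 13 * ml ^ 2 * N ^ 2 / τ ^ 18 ≤ 13 * ml ^ 2 * (N * H) ^ 2 / τ ^ 17 :=
    (div_le_div_of_nonneg_left (by positivity) (by positivity) g2).trans
      (div_le_div_of_nonneg_right (mul_le_mul_of_nonneg_left hNH (by positivity)) (by positivity))
  calc N ^ 2 * (6 * (m2 / τ ^ 16) * (1 / τ ^ 7) + 13 * (ml / τ ^ 16) ^ 2 / (τ ^ 14)⁻¹)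
      = 6 * m2 * N ^ 2 / τ ^ 23 + 13 * ml ^ 2 * N ^ 2 / τ ^ 18 := by
        field_simp
    _ ≤ 6 * m2 * (N * H) ^ 2 / τ ^ 17 + 13 * ml ^ 2 * (N * H) ^ 2 / τ ^ 17 := add_le_add g3 g4
    _ = _ := by ring

private lemma tot_main {m2 c2 g T t S Sl Sg lmv : ℝ} (hT0 : 0 < T) (hm2 : 0 ≤ m2)
    (hlm : |lmv| ≤ m2 / T) :
    1 / T * (m2 * ((2 * t + g) * S + Sg) + 2 * c2 * S)
        + (m2 / T * ((14 * t + g) * S - Sl) + lmv * S)
      ≤ 1 / T * (m2 * (16 * t * S - (Sl - Sg)) + (2 * m2 * |g| + 2 * |c2| + m2) * |S|) := by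
  have t1 : lmv * S ≤ m2 / T * |S| := by
    calc lmv * S ≤ |lmv * S| := le_abs_self _
      _ = |lmv| * |S| := abs_mul _ _
      _ ≤ _ := mul_le_mul_of_nonneg_right hlm (abs_nonneg _)
  have t2 : g * S ≤ |g| * |S| := by
    rw [← abs_mul]; exact le_abs_self _
  have t3 : c2 * S ≤ |c2| * |S| := by
    rw [← abs_mul]; exact le_abs_self _
  have e1 : 1 / T * (m2 * ((2 * t + g) * S + Sg) + 2 * c2 * S)
      + (m2 / T * ((14 * t + g) * S - Sl) + lmv * S)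
      = 1 / T * (m2 * (16 * t * S - (Sl - Sg)) + 2 * m2 * (g * S) + 2 * (c2 * S))
        + lmv * S := by
    field_simp
    ring
  have e2 : 1 / T * (m2 * (16 * t * S - (Sl - Sg))
        + (2 * m2 * |g| + 2 * |c2| + m2) * |S|)
      = 1 / T * (m2 * (16 * t * S - (Sl - Sg)) + 2 * m2 * (|g| * |S|)
        + 2 * (|c2| * |S|)) + m2 / T * |S| := by
    field_simp
    ring
  rw [e1, e2]
  have t4 : 2 * m2 * (g * S) ≤ 2 * m2 * (|g| * |S|) :=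
    mul_le_mul_of_nonneg_left t2 (by positivity)
  refine add_le_add (mul_le_mul_of_nonneg_left ?_ (by positivity)) t1
  linarith

private lemma tot_dabs {m2 c2 g T t τ S Sg N : ℝ} (hT0 : 0 < T) (hτ : 1 ≤ τ) (hm2 : 0 ≤ m2)
    (ht0 : 0 ≤ t) (ht1 : t ≤ τ) (hSN : |S| ≤ N ^ 2) (hSgN : |Sg| ≤ N ^ 2) :
    |1 / T * (m2 * ((2 * t + g) * S + Sg) + 2 * c2 * S)|
      ≤ 1 / T * ((4 * m2 + m2 * |g| + 2 * |c2|) * τ * N ^ 2) := by
  rw [abs_mul, abs_of_pos (by positivity : 0 < 1 / T)]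
  have hN2 := sq_nonneg N
  have t1 : |(2 * t + g) * S| ≤ (2 * τ + |g|) * N ^ 2 := by
    rw [abs_mul]
    have h : |2 * t + g| ≤ 2 * τ + |g| := by
      refine (abs_add_le _ _).trans ?_
      rw [abs_of_nonneg (by positivity : 0 ≤ 2 * t)]
      linarith
    exact mul_le_mul h hSN (abs_nonneg _) ((abs_nonneg _).trans h)
  have t2 : |2 * c2 * S| ≤ 2 * |c2| * N ^ 2 := by
    rw [abs_mul, abs_mul, abs_two]
    exact mul_le_mul_of_nonneg_left hSN (by positivity)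
  refine mul_le_mul_of_nonneg_left ?_ (by positivity)
  calc |m2 * ((2 * t + g) * S + Sg) + 2 * c2 * S|
      ≤ m2 * ((2 * τ + |g|) * N ^ 2 + N ^ 2) + 2 * |c2| * N ^ 2 := by
        refine (abs_add_le _ _).trans (add_le_add ?_ t2)
        rw [abs_mul, abs_of_nonneg hm2]
        exact mul_le_mul_of_nonneg_left ((abs_add_le _ _).trans (add_le_add t1 hSgN)) hm2
    _ ≤ (4 * m2 + m2 * |g| + 2 * |c2|) * τ * N ^ 2 := by
        have g1 : |g| ≤ |g| * τ := le_mul_of_one_le_right (abs_nonneg _) hτ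
        have g2 : |c2| ≤ |c2| * τ := le_mul_of_one_le_right (abs_nonneg _) hτ
        have g3 : m2 * ((2 * τ + |g|) + 1) ≤ m2 * ((2 * τ + |g| * τ) + 2 * τ) :=
          mul_le_mul_of_nonneg_left (by linarith) hm2
        have g4 : m2 * ((2 * τ + |g|) + 1) + 2 * |c2|
            ≤ m2 * ((2 * τ + |g| * τ) + 2 * τ) + 2 * (|c2| * τ) := by linarith
        calc m2 * ((2 * τ + |g|) * N ^ 2 + N ^ 2) + 2 * |c2| * N ^ 2
            = (m2 * ((2 * τ + |g|) + 1) + 2 * |c2|) * N ^ 2 := by ring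
          _ ≤ (m2 * ((2 * τ + |g| * τ) + 2 * τ) + 2 * (|c2| * τ)) * N ^ 2 :=
              mul_le_mul_of_nonneg_right g4 hN2
          _ = _ := by ring

namespace Ker

variable (K : Ker)

lemma QQ_bound {T : ℝ} (hT : 2 * K.L ≤ T) : ∃ C : ℝ, 0 ≤ C ∧ ∀ D : DP,
    (∀ n, D.coeff n ≠ 0 → 1 ≤ n) → ∀ x : ℝ, 0 < x → |QQ (K.phi T) D x| ≤ nrm D * (C / (1 + x)) := by
  obtain ⟨C, hC, h⟩ := (K.phi_bmp hT).Phi_bound
  refine ⟨C, hC, fun D hD x hx => ?_⟩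
  unfold QQ nrm
  rw [Finset.sum_mul]
  refine (Finset.abs_sum_le_sum_abs _ _).trans (Finset.sum_le_sum fun n hn => ?_)
  have h1 : 1 ≤ n := hD n (Finsupp.mem_support_iff.mp hn)
  have h0 : (1 : ℝ) ≤ n := by exact_mod_cast h1
  rw [abs_mul]
  refine mul_le_mul_of_nonneg_left ?_ (abs_nonneg _)
  refine (h (n * x) (by positivity)).trans ?_
  gcongr
  nlinarith

lemma Phi_comp_int {T : ℝ} (hT : 2 * K.L ≤ T) {n : ℕ} (hn : 1 ≤ n) :
    IntegrableOn (fun x : ℝ => x ^ (-(1 / 2) : ℝ) * Phi (K.phi T) (n * x)) (Ioi 0) := by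
  obtain ⟨C, hC, h⟩ := (K.phi_bmp hT).Phi_bound
  have hn0 : (0 : ℝ) < n := by exact_mod_cast hn
  have h1 : IntegrableOn (fun x : ℝ => x ^ (-(1 / 2) : ℝ) * Phi (K.phi T) x) (Ioi 0) := by
    refine Integrable.mono' (Bmp.integrable_bound C) ?_ ?_
    · refine AEStronglyMeasurable.mul ?_ (K.phi_bmp hT).Phi_meas
      refine ContinuousOn.aestronglyMeasurable (fun x hx => ?_) measurableSet_Ioi
      exact (Real.continuousAt_rpow_const _ _ (Or.inl (ne_of_gt hx))).continuousWithinAt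
    · filter_upwards [ae_restrict_mem measurableSet_Ioi] with x hx
      have hx0 : (0 : ℝ) < x := hx
      rw [Real.norm_eq_abs, abs_mul, abs_of_nonneg (by positivity : (0 : ℝ) ≤ x ^ (-(1 / 2) : ℝ))]
      gcongr
      exact h x hx0
  have h2 : IntegrableOn (fun x : ℝ => (n * x) ^ (-(1 / 2) : ℝ) * Phi (K.phi T) (n * x)) (Ioi 0) := by
    have := (integrableOn_Ioi_comp_mul_left_iff
      (fun x : ℝ => x ^ (-(1 / 2) : ℝ) * Phi (K.phi T) x) 0 hn0).mpr (by rwa [mul_zero])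
    exact this
  have h3 := h2.const_mul ((n : ℝ) ^ (1 / 2 : ℝ))
  refine IntegrableOn.congr_fun h3 (fun x hx => ?_) measurableSet_Ioi
  have hx0 : (0 : ℝ) < x := hx
  rw [Real.mul_rpow hn0.le hx0.le, ← mul_assoc, ← mul_assoc, ← Real.rpow_add hn0]
  norm_num

lemma QQ_int1 {T : ℝ} (hT : 2 * K.L ≤ T) {D : DP} (hD : ∀ n, D.coeff n ≠ 0 → 1 ≤ n) :
    IntegrableOn (fun x : ℝ => x ^ (-(1 / 2) : ℝ) * QQ (K.phi T) D x) (Ioi 0) := by
  have h1 : IntegrableOn (fun x : ℝ => ∑ n ∈ D.coeff.support,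
      D.coeff n * (x ^ (-(1 / 2) : ℝ) * Phi (K.phi T) (n * x))) (Ioi 0) :=
    integrable_finsetSum _ fun n hn =>
      (K.Phi_comp_int hT (hD n (Finsupp.mem_support_iff.mp hn))).const_mul _
  refine IntegrableOn.congr_fun h1 (fun x _ => ?_) measurableSet_Ioi
  simp only [QQ, Finset.mul_sum]
  exact Finset.sum_congr rfl fun n _ => by ring

lemma QQ_int2 {T : ℝ} (hT : 2 * K.L ≤ T) {D : DP} (hD : ∀ n, D.coeff n ≠ 0 → 1 ≤ n) :
    IntegrableOn (fun x : ℝ => QQ (K.phi T) D x ^ 2) (Ioi 0) := by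
  obtain ⟨C, hC, h⟩ := K.QQ_bound hT
  have hnn := nrm_nonneg D
  have hm : AEStronglyMeasurable (fun x : ℝ => QQ (K.phi T) D x) (volume.restrict (Ioi 0)) := by
    have h1 := (K.QQ_int1 hT hD).1
    have h2 : AEStronglyMeasurable (fun x : ℝ => x ^ (1 / 2 : ℝ)) (volume.restrict (Ioi 0)) := by
      refine ContinuousOn.aestronglyMeasurable (fun x hx => ?_) measurableSet_Ioi
      exact (Real.continuousAt_rpow_const _ _ (Or.inl (ne_of_gt hx))).continuousWithinAt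
    refine (h2.mul h1).congr ?_
    filter_upwards [ae_restrict_mem measurableSet_Ioi] with x hx
    have hx0 : (0 : ℝ) < x := hx
    simp only [Pi.mul_apply]
    rw [← mul_assoc, ← Real.rpow_add hx0]
    norm_num
  have hb : IntegrableOn (fun x : ℝ => (nrm D * C) ^ 2 * (1 / (1 + x) ^ 2)) (Ioi 0) := by
    refine Integrable.const_mul ?_ _
    have h1 : IntegrableOn (fun x : ℝ => x ^ (-2 : ℝ)) (Ioi 1) :=
      integrableOn_Ioi_rpow_of_lt (by norm_num) one_pos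
    have h2 : Integrable (fun x : ℝ => (Ioi (1 : ℝ)).indicator (fun x => x ^ (-2 : ℝ)) (x + 1)) :=
      ((integrable_indicator_iff measurableSet_Ioi).mpr h1).comp_add_right 1
    refine IntegrableOn.congr_fun h2.integrableOn (fun x hx => ?_) measurableSet_Ioi
    have hx0 : (0 : ℝ) < x := hx
    rw [indicator_of_mem (by rw [mem_Ioi]; linarith), Real.rpow_neg (by positivity), one_div,
      add_comm]
    norm_num
  refine Integrable.mono' hb (hm.pow 2) ?_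
  filter_upwards [ae_restrict_mem measurableSet_Ioi] with x hx
  have hx0 : (0 : ℝ) < x := hx
  rw [Real.norm_eq_abs, abs_pow]
  calc |QQ (K.phi T) D x| ^ 2 ≤ (nrm D * (C / (1 + x))) ^ 2 := by
        gcongr
        exact h D hD x hx0
    _ = (nrm D * C) ^ 2 * (1 / (1 + x) ^ 2) := by
        field_simp

lemma mellin_QQ {T : ℝ} (hT : 2 * K.L ≤ T) {D : DP} (hD : ∀ n, D.coeff n ≠ 0 → 1 ≤ n) {t : ℝ}
    (ht : 0 < t) : mellin (fun x => (QQ (K.phi T) D x : ℂ)) (1 / 2 + I * t)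
      = ev t D * (riemannZeta (1 / 2 + I * t) * mellin (fun x => (K.phi T x : ℂ)) (1 / 2 + I * t)) := by
  set s : ℂ := 1 / 2 + I * t with hs
  have hm := (K.phi_bmp hT).muntz ht
  rw [← hs] at hm
  have key : ∀ S : Finset ℕ, (∀ n ∈ S, 1 ≤ n) →
      HasMellin (fun x => ((∑ h ∈ S, D.coeff h * Phi (K.phi T) (h * x) : ℝ) : ℂ)) s
        (∑ h ∈ S, (D.coeff h : ℂ) * (h : ℂ) ^ (-s) * mellin (fun x => (Phi (K.phi T) x : ℂ)) s) := by
    classical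
    intro S
    induction S using Finset.induction_on with
    | empty =>
      intro _
      refine ⟨?_, ?_⟩
      · simp only [MellinConvergent, Finset.sum_empty, ofReal_zero, smul_zero]
        exact integrableOn_zero
      · simp [mellin]
    | insert n S hn ih =>
      intro hS
      have ih' := ih fun m hm => hS m (Finset.mem_insert_of_mem hm)
      have hn1 : 1 ≤ n := hS n (Finset.mem_insert_self _ _)
      have hn0 : (0 : ℝ) < n := by exact_mod_cast hn1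
      have c1 : MellinConvergent (fun x : ℝ => ((Phi (K.phi T) (n * x) : ℝ) : ℂ)) s :=
        (MellinConvergent.comp_mul_left (f := fun x => (Phi (K.phi T) x : ℂ)) hn0).mpr hm.1
      have c2 := mellin_comp_mul_left (fun x => (Phi (K.phi T) x : ℂ)) s hn0
      have c3 := hasMellin_const_smul c1 (D.coeff n : ℂ)
      have c4 := hasMellin_add c3.1 ih'.1
      have e : (fun x => ((∑ h ∈ insert n S, D.coeff h * Phi (K.phi T) (h * x) : ℝ) : ℂ))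
          = fun x => (D.coeff n : ℂ) • ((Phi (K.phi T) (n * x) : ℝ) : ℂ)
            + ((∑ h ∈ S, D.coeff h * Phi (K.phi T) (h * x) : ℝ) : ℂ) := by
        funext x
        rw [Finset.sum_insert hn, smul_eq_mul]
        push_cast
        ring
      rw [e]
      refine ⟨c4.1, ?_⟩
      rw [c4.2, c3.2, ih'.2, c2, Finset.sum_insert hn, smul_eq_mul, smul_eq_mul]
      push_cast
      ring
  have h1 := key D.coeff.support fun n hn => hD n (Finsupp.mem_support_iff.mp hn)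
  have h2 : mellin (fun x => (QQ (K.phi T) D x : ℂ)) s = _ := h1.2
  rw [h2, hm.2, ← Finset.sum_mul, ev_apply]

theorem weighted {T : ℝ} (hT : 2 * K.L ≤ T) {D : DP} (hD : ∀ n, D.coeff n ≠ 0 → 1 ≤ n) :
    ∫ t in (0 : ℝ)..T, ‖riemannZeta (1 / 2 + I * t) * ev t D‖ ^ 2
        * ‖mellin (fun x => (K.phi T x : ℂ)) (1 / 2 + I * t)‖ ^ 2
      ≤ Real.pi * ∫ x in Ioi (0 : ℝ), QQ (K.phi T) D x ^ 2 := by
  have hL := K.hL
  have hT0 : 0 < T := by linarith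
  obtain ⟨_, h1⟩ := mellin_plancherel (K.QQ_int1 hT hD) (K.QQ_int2 hT hD) hT0.le
  refine le_trans (le_of_eq ?_) h1
  rw [intervalIntegral.integral_of_le hT0.le, intervalIntegral.integral_of_le hT0.le]
  refine setIntegral_congr_fun measurableSet_Ioc fun t ht => ?_
  rw [K.mellin_QQ hT hD ht.1, norm_mul, norm_mul, norm_mul]
  ring

set_option maxHeartbeats 4000000 in
/-- the total quadratic mean, with `T = τ ^ 16` -/
theorem total : ∃ C : ℝ, 0 ≤ C ∧ ∀ τ : ℝ, 1 ≤ τ → 2 * K.L < τ ^ 2 → ∀ (D : DP) (H : ℝ), 1 ≤ H →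
    (∀ n, D.coeff n ≠ 0 → 1 ≤ n ∧ (n : ℝ) ≤ H) →
    ∫ x in Ioi (0 : ℝ), QQ (K.phi (τ ^ 16)) D x ^ 2
      ≤ 1 / τ ^ 16 * (K.m2 * (Real.log (τ ^ 16) * BK K2 D D - BK KL D D) + C * |BK K2 D D|)
        + C * (nrm D * H) ^ 2 / τ ^ 17 := by
  have hm2 := K.m2_nonneg
  have hCK := K.CK_nonneg
  have hB2 := K.B2_pos
  have hI1 := K.I1_nonneg
  have hI2 := K.I2_nonneg
  have hml := K.ml_nonneg
  have hL := K.hL
  refine ⟨2 * (2 * K.m2 * |γE| + 2 * |K.c2| + K.m2) + 2 * (4 * K.m2 + K.m2 * |γE| + 2 * |K.c2|)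
    + 32 * K.CK + 16 * K.I1 + 8 * K.I2 + 22 * K.B2 ^ 2 + 6 * K.m2 + 13 * K.ml ^ 2
    + 2 * (K.CK * 16), by positivity, ?_⟩
  set C := 2 * (2 * K.m2 * |γE| + 2 * |K.c2| + K.m2) + 2 * (4 * K.m2 + K.m2 * |γE| + 2 * |K.c2|)
    + 32 * K.CK + 16 * K.I1 + 8 * K.I2 + 22 * K.B2 ^ 2 + 6 * K.m2 + 13 * K.ml ^ 2
    + 2 * (K.CK * 16) with hC
  intro τ hτ hLτ D H hH hD
  have hτ0 : 0 < τ := by linarith
  have hD1 : ∀ n, D.coeff n ≠ 0 → 1 ≤ n := fun n hn => (hD n hn).1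
  set T := τ ^ 16 with hTdef
  have hT0 : 0 < T := by positivity
  have hT : 2 * K.L ≤ T := by
    have : τ ^ 2 ≤ τ ^ 16 := pow_le_pow_right₀ hτ (by norm_num)
    rw [hTdef]; linarith
  set x0 : ℝ := (τ ^ 14)⁻¹ with hx0def
  have hx0 : 0 < x0 := by positivity
  have hx01 : x0 ≤ 1 := inv_le_one_of_one_le₀ (one_le_pow₀ hτ)
  have hε : ∀ y, K.phi T y ≠ 0 → |y - 1| ≤ K.L / T := fun y hy => K.phi_supp hT0 hy
  have hεx : 2 * (K.L / T) < x0 := by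
    rw [hx0def, hTdef, ← mul_div_assoc, div_lt_iff₀ (by positivity)]
    have : (τ ^ 14)⁻¹ * τ ^ 16 = τ ^ 2 := by field_simp
    rw [this]; exact hLτ
  -- cutoff
  obtain ⟨Ξ, hΞ1, hΞ2, hΞ3⟩ : ∃ Ξ : ℕ, 1 ≤ Ξ ∧ τ ^ 6 ≤ Ξ ∧ (Ξ : ℝ) ≤ 2 * τ ^ 6 := by
    have h1 : (1 : ℝ) ≤ τ ^ 6 := one_le_pow₀ hτ
    refine ⟨⌈τ ^ 6⌉₊, Nat.one_le_ceil_iff.mpr (by positivity), Nat.le_ceil _, ?_⟩
    have := (Nat.ceil_lt_add_one (a := τ ^ 6) (by positivity)).le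
    linarith
  have hΞ0 : (0 : ℝ) < Ξ := by exact_mod_cast hΞ1
  set δ : ℝ := (τ ^ 2)⁻¹ with hδdef
  have hδ : 0 < δ := by positivity
  have hδ1 : δ ≤ 1 := inv_le_one_of_one_le₀ (one_le_pow₀ hτ)
  have hB := K.phi_bmp hT
  obtain ⟨iD, sD⟩ := hB.direct hε hD1 hx0 hx01 hεx
  have sU := K.dual_bound hT hD hx0 hΞ1 hδ
  have hQ2 := K.QQ_int2 hT hD1
  have hsplit : ∫ x in Ioi (0 : ℝ), QQ (K.phi T) D x ^ 2
      = (∫ x in Ioo 0 x0, QQ (K.phi T) D x ^ 2) + ∫ x in Ioi x0, QQ (K.phi T) D x ^ 2 := by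
    rw [← integral_Ioc_eq_integral_Ioo, ← Ioc_union_Ioi_eq_Ioi hx0.le,
      setIntegral_union (by
        rw [Set.disjoint_left]
        intro x h1 h2
        exact absurd h1.2 (not_le.mpr h2)) measurableSet_Ioi
        (hQ2.mono_set Ioc_subset_Ioi_self) (hQ2.mono_set (Ioi_subset_Ioi hx0.le))]
  rw [hsplit]
  set S := BK K2 D D with hS
  set Sl := BK Kl D D with hSl
  set Sg := BK Kg D D with hSg
  set N := nrm D with hN
  have hN0 : 0 ≤ N := nrm_nonneg D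
  have hSN : |S| ≤ N ^ 2 := by
    have := abs_BK_le (K := K2) (B := 1) (fun a b ha hb => K2_le_one ha hb) hD1
    rw [mul_one] at this
    exact this
  have hSgN : |Sg| ≤ N ^ 2 := by
    have := abs_BK_le (K := Kg) (B := 1) (fun a b ha hb => Kg_le_one ha hb) hD1
    rw [mul_one] at this
    exact this
  have hphi2 : ∫ y, K.phi T y ^ 2 = K.m2 / T := by
    rw [K.integral_phi_sq hT0, inv_mul_eq_div]
  have hphil : ∫ y, |K.phi T y| = K.ml / T := by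
    rw [K.integral_abs_phi hT0, inv_mul_eq_div]
  have hlm : |lm (K.phi T)| ≤ K.m2 / T := by
    have := hB.abs_lm_le
    rwa [hphi2, mul_one] at this
  rw [hphi2, hphil] at sD
  have hlogx : Real.log (1 / x0) = 14 * Real.log τ := by
    rw [hx0def, one_div, inv_inv, Real.log_pow]
    norm_num
  have hTx : T * x0 = τ ^ 2 := by
    rw [hTdef, hx0def]; field_simp
  have hlogTx : Real.log (T * x0) = 2 * Real.log τ := by
    rw [hTx, Real.log_pow]; norm_num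
  have hlogT : Real.log T = 16 * Real.log τ := by
    rw [hTdef, Real.log_pow]; norm_num
  have hlt0 : 0 ≤ Real.log τ := Real.log_nonneg hτ
  have hlt1 : Real.log τ ≤ τ := by
    have := Real.log_le_sub_one_of_pos hτ0
    linarith
  -- powers
  have hx0h : x0 ^ (1 / 2 : ℝ) = 1 / τ ^ 7 := by
    have : x0 = (1 / τ ^ 7) ^ 2 := by rw [hx0def]; field_simp
    rw [this, ← Real.rpow_natCast, ← Real.rpow_mul (by positivity)]
    norm_num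
  have hTxh : (1 / (T * x0)) ^ (1 / 2 : ℝ) = 1 / τ := by
    have : 1 / (T * x0) = (1 / τ) ^ 2 := by rw [hTx]; field_simp
    rw [this, ← Real.rpow_natCast, ← Real.rpow_mul (by positivity)]
    norm_num
  rw [hlogx, hx0h] at sD
  have hD2 := le_of_abs_le sD
  -- dual main
  have hMd : K.Md T x0 D = 1 / T * (K.m2 * ((2 * Real.log τ + γE) * S + Sg) + 2 * K.c2 * S) := by
    unfold Md; rw [hlogTx]
  have hMdabs : |K.Md T x0 D| ≤ 1 / T * ((4 * K.m2 + K.m2 * |γE| + 2 * |K.c2|) * τ * N ^ 2) := by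
    rw [hMd]
    exact tot_dabs hT0 hτ hm2 hlt0 hlt1 hSN hSgN
  have hδMd : δ * K.Md T x0 D ≤ (4 * K.m2 + K.m2 * |γE| + 2 * |K.c2|) * (N * H) ^ 2 / τ ^ 17 := by
    have hcf : 0 ≤ 4 * K.m2 + K.m2 * |γE| + 2 * |K.c2| := by positivity
    calc δ * K.Md T x0 D ≤ δ * |K.Md T x0 D| := by gcongr; exact le_abs_self _
      _ ≤ δ * (1 / T * ((4 * K.m2 + K.m2 * |γE| + 2 * |K.c2|) * τ * N ^ 2)) := by gcongr
      _ = (4 * K.m2 + K.m2 * |γE| + 2 * |K.c2|) * N ^ 2 / τ ^ 17 := by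
          rw [hδdef, hTdef]; field_simp
      _ ≤ _ := by
          have : N ≤ N * H := le_mul_of_one_le_right hN0 hH
          gcongr
  have hNH : N ^ 2 ≤ (N * H) ^ 2 := by
    have : N ≤ N * H := le_mul_of_one_le_right hN0 hH
    gcongr
  have hE1 : K.Ed1 T x0 H Ξ D ≤ (16 * K.CK + 4 * K.I1 + 2 * K.I2) * (N * H) ^ 2 / τ ^ 17 := by
    unfold Ed1
    rw [hTxh, hTx, ← hN]
    have a1 : 4 / T ^ 2 * (K.CK * (Ξ * H * N) ^ 2) ≤ 16 * K.CK * (N * H) ^ 2 / τ ^ 17 :=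
      tot_a1 hCK hτ hH hN0 hΞ0 hΞ3
    have a2 : 2 / T * (N ^ 2 * (2 * (1 / τ) * K.I1 + τ ^ 2 / Ξ * K.I2))
        ≤ (4 * K.I1 + 2 * K.I2) * (N * H) ^ 2 / τ ^ 17 := tot_a2 hI1 hI2 hτ hNH hΞ0 hΞ2
    calc _ ≤ 16 * K.CK * (N * H) ^ 2 / τ ^ 17 + (4 * K.I1 + 2 * K.I2) * (N * H) ^ 2 / τ ^ 17 :=
          add_le_add a1 a2
      _ = _ := by ring
  have hE10 : 0 ≤ K.Ed1 T x0 H Ξ D := by
    unfold Ed1; positivity
  have hE2 : (1 + 1 / δ) * K.Ed2 T x0 Ξ D ≤ 22 * K.B2 ^ 2 * (N * H) ^ 2 / τ ^ 17 := by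
    unfold Ed2
    rw [← hN]
    exact tot_b hδdef hτ hNH hΞ2
  have hDe : N ^ 2 * (6 * (K.m2 / T) * (1 / τ ^ 7) + 13 * (K.ml / T) ^ 2 / x0)
      ≤ (6 * K.m2 + 13 * K.ml ^ 2) * (N * H) ^ 2 / τ ^ 17 := by
    exact tot_De hm2 hτ hNH
  -- main terms
  have hKL : BK KL D D = Sl - Sg := BK_KL D
  rw [hKL]
  have hmain : K.Md T x0 D + (K.m2 / T * ((14 * Real.log τ + γE) * S - Sl) + lm (K.phi T) * S)
      ≤ 1 / T * (K.m2 * (Real.log T * S - (Sl - Sg)) + (2 * K.m2 * |γE| + 2 * |K.c2| + K.m2) * |S|) := by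
    rw [hMd, hlogT]
    exact tot_main hT0 hm2 hlm
  have hfin : (1 + δ) * (K.Md T x0 D + K.Ed1 T x0 H Ξ D) ≤ K.Md T x0 D
      + (4 * K.m2 + K.m2 * |γE| + 2 * |K.c2|) * (N * H) ^ 2 / τ ^ 17
      + 2 * ((16 * K.CK + 4 * K.I1 + 2 * K.I2) * (N * H) ^ 2 / τ ^ 17) := by
    have : (1 + δ) * (K.Md T x0 D + K.Ed1 T x0 H Ξ D)
        = K.Md T x0 D + δ * K.Md T x0 D + (1 + δ) * K.Ed1 T x0 H Ξ D := by ring
    rw [this]
    have h2 : (1 + δ) * K.Ed1 T x0 H Ξ D ≤ 2 * K.Ed1 T x0 H Ξ D := by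
      gcongr
      linarith
    linarith
  have hZ : 0 ≤ (N * H) ^ 2 / τ ^ 17 := by positivity
  have hSabs : 0 ≤ 1 / T * |S| := by positivity
  have hgam : 0 ≤ |γE| := abs_nonneg _
  have hc2a : 0 ≤ |K.c2| := abs_nonneg _
  have c1 : (2 * K.m2 * |γE| + 2 * |K.c2| + K.m2) * (1 / T * |S|) ≤ C * (1 / T * |S|) := by
    refine mul_le_mul_of_nonneg_right ?_ hSabs
    rw [hC]
    have hmg : 0 ≤ K.m2 * |γE| := mul_nonneg hm2 hgam
    have hb2 := sq_nonneg K.B2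
    have hl2 := sq_nonneg K.ml
    linarith
  have c2' : ((4 * K.m2 + K.m2 * |γE| + 2 * |K.c2|) + 2 * (16 * K.CK + 4 * K.I1 + 2 * K.I2)
      + 22 * K.B2 ^ 2 + (6 * K.m2 + 13 * K.ml ^ 2)) * ((N * H) ^ 2 / τ ^ 17)
      ≤ C * ((N * H) ^ 2 / τ ^ 17) := by
    refine mul_le_mul_of_nonneg_right ?_ hZ
    rw [hC]
    have hmg : 0 ≤ K.m2 * |γE| := mul_nonneg hm2 hgam
    have hb2 := sq_nonneg K.B2
    have hl2 := sq_nonneg K.ml
    linarith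
  have e9 : 1 / T * (K.m2 * (Real.log T * S - (Sl - Sg)) + C * |S|)
      = 1 / T * (K.m2 * (Real.log T * S - (Sl - Sg))) + C * (1 / T * |S|) := by ring
  have e10 : 1 / T * (K.m2 * (Real.log T * S - (Sl - Sg)) + (2 * K.m2 * |γE| + 2 * |K.c2| + K.m2) * |S|)
      = 1 / T * (K.m2 * (Real.log T * S - (Sl - Sg)))
        + (2 * K.m2 * |γE| + 2 * |K.c2| + K.m2) * (1 / T * |S|) := by ring
  rw [e9]
  rw [e10] at hmain
  have e11 : C * (N * H) ^ 2 / τ ^ 17 = C * ((N * H) ^ 2 / τ ^ 17) := by ring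
  rw [e11]
  have f1 : ∀ c : ℝ, c * (N * H) ^ 2 / τ ^ 17 = c * ((N * H) ^ 2 / τ ^ 17) := fun c => by ring
  rw [f1] at hDe hE2 hfin
  rw [f1] at hfin
  linarith

end Ker

end Pool.Agent.Lib.MP_f9aece_nt_h97
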