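import Mathlib
import Pool.Agent.Lib.MP_f9aece_nt_h97.Total
import Pool.Agent.Lib.MP_f9aece_nt_h97.KernChoice
import Pool.Agent.Lib.MP_f9aece_nt_h97.MellinL
import Pool.Agent.Lib.MP_f9aece_nt.Lower

/-!
The twisted second moment of zeta: an upper bound with the sharp leading constant.
-/

set_option autoImplicit false

namespace Pool.Agent.Lib.MP_f9aece_nt_h97

open MeasureTheory Set Filter Topology Complex
open Pool.Agent.Lib.MP_f9aece_nt (DP pair BK K2 K2_nonneg K2_eq_inv_lcm ev ev_apply continuous_zeta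
  continuous_ev)

namespace Ker

variable (K : Ker)

lemma weighted_int {T : ℝ} (hT : 2 * K.L ≤ T) {D : DP} (hD : ∀ n, D.coeff n ≠ 0 → 1 ≤ n) :
    IntegrableOn (fun t : ℝ => ‖riemannZeta (1 / 2 + I * t) * ev t D‖ ^ 2
        * ‖mellin (fun x => (K.phi T x : ℂ)) (1 / 2 + I * t)‖ ^ 2) (Ioc 0 T) := by
  have hL := K.hL
  have hT0 : 0 < T := by linarith
  obtain ⟨h1, _⟩ := mellin_plancherel (K.QQ_int1 hT hD) (K.QQ_int2 hT hD) hT0.le
  rw [intervalIntegrable_iff_integrableOn_Ioc_of_le hT0.le] at h1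
  refine IntegrableOn.congr_fun h1 (fun t ht => ?_) measurableSet_Ioc
  rw [K.mellin_QQ hT hD ht.1, norm_mul, norm_mul, norm_mul]
  ring

end Ker

lemma final_aux {δ J X Z : ℝ} (hδ : 0 ≤ δ) (hδ1 : δ ≤ 1 / 16) (hX : 0 ≤ X) (hZ : 0 ≤ Z) (hJ : 0 ≤ J)
    (h : (1 - 2 * δ) ^ 2 * J ≤ (1 + δ) * X + Z) : J ≤ (1 + 16 * δ) * X + 2 * Z := by
  have h1 : 0 ≤ δ * (4 - 28 * δ) := mul_nonneg hδ (by linarith)
  have h2 : 0 ≤ δ ^ 3 := by positivity
  have hfac : 1 ≤ (1 + 8 * δ) * (1 - 2 * δ) ^ 2 := by nlinarith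
  have h3 : J ≤ (1 + 8 * δ) * ((1 - 2 * δ) ^ 2 * J) := by
    calc J = 1 * J := by ring
      _ ≤ ((1 + 8 * δ) * (1 - 2 * δ) ^ 2) * J := by gcongr
      _ = _ := by ring
  have h4 : (1 + 8 * δ) * ((1 - 2 * δ) ^ 2 * J) ≤ (1 + 8 * δ) * ((1 + δ) * X + Z) := by gcongr
  have h5 : (1 + 8 * δ) * (1 + δ) ≤ 1 + 16 * δ := by nlinarith
  have h6 : (1 + 8 * δ) * (1 + δ) * X ≤ (1 + 16 * δ) * X := by gcongr
  have h7 : (1 + 8 * δ) * Z ≤ 2 * Z := by gcongr; linarith
  have h8 : (1 + 8 * δ) * ((1 + δ) * X + Z) = (1 + 8 * δ) * (1 + δ) * X + (1 + 8 * δ) * Z := by ring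
  linarith

/-- the twisted second moment, upper bound with sharp leading constant -/
theorem tsm {ε : ℝ} (hε : 0 < ε) (hε1 : ε ≤ 1) : ∃ C T0 : ℝ, 0 ≤ C ∧ 1 ≤ T0 ∧
    ∀ T : ℝ, T0 ≤ T → ∀ (D : DP) (H : ℝ), 1 ≤ H →
    (∀ n, D.coeff n ≠ 0 → 1 ≤ n ∧ (n : ℝ) ≤ H) →
    ∫ t in (0 : ℝ)..T, ‖riemannZeta (1 / 2 + I * t) * ev t D‖ ^ 2
      ≤ T * ((1 + ε) * (Real.log T * |BK K2 D D| + |BK KL D D|) + C * |BK K2 D D|
        + C * (nrm D * H) ^ 2 / T ^ (1 / 16 : ℝ)) := by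
  obtain ⟨K, hK1, hK2⟩ := Ker.exists_good (ε := ε / 16) (by positivity) (by linarith)
  obtain ⟨C, hC, hC2⟩ := K.total
  have hL := K.hL
  have hml := K.ml_nonneg
  have hm2 := K.m2_nonneg
  have hpi := Real.pi_pos
  refine ⟨2 * Real.pi * C, max (4 * K.L ^ 2 + (2 * K.L + 1) ^ 8) (4 * K.L ^ 2 * K.ml * 16 / ε),
    by positivity, ?_, ?_⟩
  · refine le_max_of_le_left ?_
    have : 0 ≤ (2 * K.L + 1) ^ 8 := by positivity
    nlinarith
  intro T hT D H hH hD
  have hTa : 4 * K.L ^ 2 + (2 * K.L + 1) ^ 8 ≤ T := (le_max_left _ _).trans hT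
  have hTb : 4 * K.L ^ 2 * K.ml * 16 / ε ≤ T := (le_max_right _ _).trans hT
  have h8 : 0 ≤ (2 * K.L + 1) ^ 8 := by positivity
  have hT4 : 4 * K.L ^ 2 ≤ T := by linarith
  have hT0 : 0 < T := by nlinarith
  have hT1 : 1 ≤ T := by nlinarith
  have hT2 : 2 * K.L ≤ T := by nlinarith
  have hD1 : ∀ n, D.coeff n ≠ 0 → 1 ≤ n := fun n hn => (hD n hn).1
  set τ := T ^ (1 / 16 : ℝ) with hτ
  have hτ16 : τ ^ 16 = T := by
    rw [hτ, ← Real.rpow_natCast, ← Real.rpow_mul hT0.le]; norm_num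
  have hτ1 : 1 ≤ τ := Real.one_le_rpow hT1 (by norm_num)
  have hτ0 : 0 < τ := by linarith
  have hτ2 : 2 * K.L < τ ^ 2 := by
    by_contra hc
    push Not at hc
    have : τ ^ 16 ≤ (2 * K.L) ^ 8 := by
      have : τ ^ 16 = (τ ^ 2) ^ 8 := by ring
      rw [this]
      gcongr
    rw [hτ16] at this
    have h9 : (2 * K.L) ^ 8 ≤ (2 * K.L + 1) ^ 8 := by gcongr; linarith
    nlinarith
  have h1 := hC2 τ hτ1 hτ2 D H hH hD
  rw [hτ16] at h1
  have h2 := K.weighted hT2 hD1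
  set S := BK K2 D D with hS
  set G := BK KL D D with hG
  set δ := ε / 16 with hδ
  have hδ0 : 0 < δ := by positivity
  have hδ1 : δ ≤ 1 / 16 := by rw [hδ]; linarith
  have hlow : ∀ t ∈ Ioc (0 : ℝ) T, (1 - 2 * δ) / T
      ≤ ‖mellin (fun x => (K.phi T x : ℂ)) (1 / 2 + I * t)‖ := by
    intro t ht
    have := K.mellin_lower hK2 hT4 ht.1.le ht.2
    refine le_trans (div_le_div_of_nonneg_right ?_ hT0.le) this
    have : 4 * K.L ^ 2 * K.ml / T ≤ δ := by
      rw [div_le_iff₀ hT0]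
      rw [div_le_iff₀ hε] at hTb
      rw [hδ]; linarith
    linarith
  have h3 : ((1 - 2 * δ) / T) ^ 2 * ∫ t in (0 : ℝ)..T, ‖riemannZeta (1 / 2 + I * t) * ev t D‖ ^ 2
      ≤ ∫ t in (0 : ℝ)..T, ‖riemannZeta (1 / 2 + I * t) * ev t D‖ ^ 2
        * ‖mellin (fun x => (K.phi T x : ℂ)) (1 / 2 + I * t)‖ ^ 2 := by
    rw [← intervalIntegral.integral_const_mul, intervalIntegral.integral_of_le hT0.le,
      intervalIntegral.integral_of_le hT0.le]
    have hcont : Continuous (fun t : ℝ => ((1 - 2 * δ) / T) ^ 2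
        * ‖riemannZeta (1 / 2 + I * t) * ev t D‖ ^ 2) := by
      exact continuous_const.mul ((continuous_zeta.mul (continuous_ev D)).norm.pow 2)
    refine setIntegral_mono_on ?_ (K.weighted_int hT2 hD1) measurableSet_Ioc ?_
    · exact (hcont.integrableOn_Icc (a := 0) (b := T)).mono_set Ioc_subset_Icc_self
    · intro t ht
      have := hlow t ht
      have h4 : ((1 - 2 * δ) / T) ^ 2 ≤ ‖mellin (fun x => (K.phi T x : ℂ)) (1 / 2 + I * t)‖ ^ 2 := by
        have : 0 ≤ (1 - 2 * δ) / T := by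
          apply div_nonneg _ hT0.le
          linarith
        gcongr
      rw [mul_comm]
      gcongr
  set J := ∫ t in (0 : ℝ)..T, ‖riemannZeta (1 / 2 + I * t) * ev t D‖ ^ 2 with hJ
  have h5 : ((1 - 2 * δ) / T) ^ 2 * J ≤ Real.pi * (1 / T * (K.m2 * (Real.log T * S - G) + C * |S|)
      + C * (nrm D * H) ^ 2 / τ ^ 17) := by
    refine (h3.trans h2).trans ?_
    gcongr
  have hτ17 : τ ^ 17 = T * τ := by rw [← hτ16]; ring
  rw [hτ17] at h5
  have hlogT : 0 ≤ Real.log T := Real.log_nonneg hT1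
  have h6 : (1 - 2 * δ) ^ 2 * J ≤ T * ((1 + δ) * (Real.log T * |S| + |G|) + Real.pi * C * |S|
      + Real.pi * C * (nrm D * H) ^ 2 / τ) := by
    have e1 : (1 - 2 * δ) ^ 2 * J = T ^ 2 * (((1 - 2 * δ) / T) ^ 2 * J) := by
      field_simp
    rw [e1]
    calc T ^ 2 * (((1 - 2 * δ) / T) ^ 2 * J)
        ≤ T ^ 2 * (Real.pi * (1 / T * (K.m2 * (Real.log T * S - G) + C * |S|)
          + C * (nrm D * H) ^ 2 / (T * τ))) := by gcongr
      _ = T * ((Real.pi * K.m2) * (Real.log T * S - G) + Real.pi * C * |S|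
          + Real.pi * C * (nrm D * H) ^ 2 / τ) := by
          field_simp
      _ ≤ _ := by
          have a1 : Real.log T * S - G ≤ Real.log T * |S| + |G| := by
            have b1 : Real.log T * S ≤ Real.log T * |S| := by
              gcongr; exact le_abs_self _
            have b2 := neg_abs_le G
            linarith
          have a2 : (Real.pi * K.m2) * (Real.log T * S - G)
              ≤ (1 + δ) * (Real.log T * |S| + |G|) := by
            calc (Real.pi * K.m2) * (Real.log T * S - G)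
                ≤ (Real.pi * K.m2) * (Real.log T * |S| + |G|) := by gcongr
              _ ≤ _ := by gcongr
          gcongr
  -- divide by the factor
  have hJ0 : 0 ≤ J := intervalIntegral.integral_nonneg hT0.le fun t _ => by positivity
  set A := Real.log T * |S| + |G| with hA
  have hA0 : 0 ≤ A := by positivity
  set B := Real.pi * C * |S| with hB
  have hB0 : 0 ≤ B := by positivity
  set E := Real.pi * C * (nrm D * H) ^ 2 / τ with hE
  have hE0 : 0 ≤ E := by positivity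
  have h7 : (1 - 2 * δ) ^ 2 * J ≤ (1 + δ) * (T * A) + T * (B + E) := by
    refine h6.trans (le_of_eq ?_)
    ring
  have h8 := final_aux hδ0.le hδ1 (by positivity : 0 ≤ T * A) (by positivity : 0 ≤ T * (B + E)) hJ0 h7
  refine h8.trans (le_of_eq ?_)
  have e1 : 16 * δ = ε := by rw [hδ]; ring
  rw [e1]
  have e2 : 2 * Real.pi * C * |S| = 2 * B := by rw [hB]; ring
  have e3 : 2 * Real.pi * C * (nrm D * H) ^ 2 / τ = 2 * E := by rw [hE]; ring
  rw [e2, e3]
  ring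

end Pool.Agent.Lib.MP_f9aece_nt_h97
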