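import Mathlib
import Pool.Agent.Lib.MP_f9aece_nt_h97.Total
import Pool.Agent.Lib.MP_f9aece_nt_h97.TSM

/-!
Muentz's formula off the critical line, and Plancherel's inequality for the resulting functions.
-/

set_option autoImplicit false

namespace Pool.Agent.Lib.MP_f9aece_nt_h97

open MeasureTheory Set Filter Topology Complex
open Pool.Agent.Lib.MP_f9aece_nt (DP pair BK K2 K2_nonneg K2_eq_inv_lcm ev ev_apply)

lemma integrable_bound_g {σ : ℝ} (h0 : 0 < σ) (h1 : σ < 1) (C : ℝ) :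
    IntegrableOn (fun x : ℝ => x ^ (σ - 1) * (C / (1 + x))) (Ioi 0) := by
  have hb1 : IntegrableOn (fun x : ℝ => x ^ (σ - 1) * (C / (1 + x))) (Ioc 0 1) := by
    have h2 : IntegrableOn (fun x : ℝ => x ^ (σ - 1)) (Ioc 0 1) :=
      (intervalIntegrable_iff_integrableOn_Ioc_of_le zero_le_one).mp
        (intervalIntegral.intervalIntegrable_rpow' (by linarith))
    refine Integrable.mono' (h2.mul_const |C|) ?_ ?_
    · refine ContinuousOn.aestronglyMeasurable ?_ measurableSet_Ioc
      refine ContinuousOn.mul ?_ (ContinuousOn.div continuousOn_const (by fun_prop) ?_)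
      · exact fun x hx => (Real.continuousAt_rpow_const _ _ (Or.inl hx.1.ne')).continuousWithinAt
      · intro x hx; have := hx.1; positivity
    · filter_upwards [ae_restrict_mem measurableSet_Ioc] with x hx
      have hx0 := hx.1
      rw [Real.norm_eq_abs, abs_mul, abs_of_nonneg (by positivity : (0 : ℝ) ≤ x ^ (σ - 1)),
        abs_div, abs_of_pos (by positivity : (0 : ℝ) < 1 + x)]
      gcongr
      exact div_le_self (abs_nonneg _) (by linarith)
  have hb2 : IntegrableOn (fun x : ℝ => x ^ (σ - 1) * (C / (1 + x))) (Ioi 1) := by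
    have h2 : IntegrableOn (fun x : ℝ => x ^ (σ - 2)) (Ioi 1) :=
      integrableOn_Ioi_rpow_of_lt (by linarith) one_pos
    refine Integrable.mono' (h2.mul_const |C|) ?_ ?_
    · refine ContinuousOn.aestronglyMeasurable ?_ measurableSet_Ioi
      refine ContinuousOn.mul ?_ (ContinuousOn.div continuousOn_const (by fun_prop) ?_)
      · intro x hx
        have : (0 : ℝ) < x := lt_trans one_pos hx
        exact (Real.continuousAt_rpow_const _ _ (Or.inl this.ne')).continuousWithinAt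
      · intro x hx
        have : (0 : ℝ) < x := lt_trans one_pos hx
        positivity
    · filter_upwards [ae_restrict_mem measurableSet_Ioi] with x hx
      have hx0 : (0 : ℝ) < x := lt_trans one_pos hx
      rw [Real.norm_eq_abs, abs_mul, abs_of_nonneg (by positivity : (0 : ℝ) ≤ x ^ (σ - 1)),
        abs_div, abs_of_pos (by positivity : (0 : ℝ) < 1 + x)]
      have e : x ^ (σ - 2) = x ^ (σ - 1) * x⁻¹ := by
        rw [← Real.rpow_neg_one, ← Real.rpow_add hx0]
        congr 1; ring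
      rw [e, mul_assoc]
      gcongr
      rw [inv_mul_eq_div]
      gcongr
      linarith
  rw [← Ioc_union_Ioi_eq_Ioi zero_le_one]
  exact hb1.union hb2

lemma integrable_bound_sq {σ : ℝ} (h0 : 1 / 2 ≤ σ) (h1 : σ < 1) (C : ℝ) :
    IntegrableOn (fun x : ℝ => x ^ (2 * σ - 1) * (C / (1 + x)) ^ 2) (Ioi 0) := by
  have hcont : ContinuousOn (fun x : ℝ => x ^ (2 * σ - 1) * (C / (1 + x)) ^ 2) (Ioi 0) := by
    refine ContinuousOn.mul ?_ (ContinuousOn.pow (ContinuousOn.div continuousOn_const (by fun_prop) ?_) _)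
    · intro x hx
      exact (Real.continuousAt_rpow_const _ _ (Or.inl (ne_of_gt hx))).continuousWithinAt
    · intro x hx
      have : (0 : ℝ) < x := hx
      positivity
  have hb1 : IntegrableOn (fun x : ℝ => x ^ (2 * σ - 1) * (C / (1 + x)) ^ 2) (Ioc 0 1) := by
    have h2 : IntegrableOn (fun _ : ℝ => C ^ 2) (Ioc (0 : ℝ) 1) := integrableOn_const (by simp)
    refine Integrable.mono' h2 ?_ ?_
    · exact (hcont.mono Ioc_subset_Ioi_self).aestronglyMeasurable measurableSet_Ioc
    · filter_upwards [ae_restrict_mem measurableSet_Ioc] with x hx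
      have hx0 := hx.1
      rw [Real.norm_eq_abs, abs_of_nonneg (by positivity)]
      have a1 : x ^ (2 * σ - 1) ≤ 1 := Real.rpow_le_one hx0.le hx.2 (by linarith)
      have a2 : (C / (1 + x)) ^ 2 ≤ C ^ 2 := by
        rw [div_pow]
        refine div_le_self (by positivity) (one_le_pow₀ (by linarith))
      calc x ^ (2 * σ - 1) * (C / (1 + x)) ^ 2 ≤ 1 * C ^ 2 := by gcongr
        _ = C ^ 2 := one_mul _
  have hb2 : IntegrableOn (fun x : ℝ => x ^ (2 * σ - 1) * (C / (1 + x)) ^ 2) (Ioi 1) := by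
    have h2 : IntegrableOn (fun x : ℝ => x ^ (2 * σ - 3)) (Ioi 1) :=
      integrableOn_Ioi_rpow_of_lt (by linarith) one_pos
    refine Integrable.mono' (h2.mul_const (C ^ 2)) ?_ ?_
    · exact (hcont.mono (Ioi_subset_Ioi zero_le_one)).aestronglyMeasurable measurableSet_Ioi
    · filter_upwards [ae_restrict_mem measurableSet_Ioi] with x hx
      have hx0 : (0 : ℝ) < x := lt_trans one_pos hx
      rw [Real.norm_eq_abs, abs_of_nonneg (by positivity)]
      have e : x ^ (2 * σ - 3) = x ^ (2 * σ - 1) * (x⁻¹) ^ 2 := by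
        rw [← Real.rpow_natCast, ← Real.rpow_neg_one, ← Real.rpow_mul hx0.le, ← Real.rpow_add hx0]
        congr 1; push_cast; ring
      rw [e, mul_assoc, div_pow]
      have a1 : C ^ 2 / (1 + x) ^ 2 ≤ (x⁻¹) ^ 2 * C ^ 2 := by
        rw [inv_pow, inv_mul_eq_div]
        gcongr
        linarith
      gcongr
  rw [← Ioc_union_Ioi_eq_Ioi zero_le_one]
  exact hb1.union hb2

/-- finite sum of dilates -/
noncomputable def QB (φ : ℝ → ℝ) (B : DP) (x : ℝ) : ℝ :=
  ∑ h ∈ B.coeff.support, B.coeff h * φ (h * x)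

/-- the mollified difference -/
noncomputable def RR (φ : ℝ → ℝ) (D B : DP) (x : ℝ) : ℝ := QQ φ D x - QB φ B x

namespace Bmp

variable {φ : ℝ → ℝ} (hφ : Bmp φ)

include hφ

/-- Muentz's formula in the critical strip -/
theorem muntz_g {s : ℂ} (h0 : 0 < s.re) (h1 : s.re < 1) (him : 0 < s.im) :
    HasMellin (fun x => (Phi φ x : ℂ)) s
      (riemannZeta s * mellin (fun x => (φ x : ℂ)) s) := by
  have hq : s ∈ Pool.Agent.Lib.MP_f9aece_nt.quad := ⟨h0, him⟩
  obtain ⟨C, hC, hbN⟩ := hφ.PhiN_bound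
  have hCphi : ∀ x : ℝ, 0 < x → |Phi φ x| ≤ C / (1 + x) := fun x hx =>
    le_of_tendsto (hφ.PhiN_tendsto hx).abs (Eventually.of_forall fun N => hbN N x hx)
  have hib := integrable_bound_g h0 h1 C
  have hcp : ContinuousOn (fun x : ℝ => (x : ℂ) ^ (s - 1)) (Ioi 0) := by
    intro x hx
    exact ((Pool.Agent.Lib.MP_f9aece_nt.hasDerivAt_cpow_real hx (s - 1)).continuousAt).continuousWithinAt
  have hnorm : ∀ x : ℝ, 0 < x → ‖(x : ℂ) ^ (s - 1)‖ = x ^ (s.re - 1) := by
    intro x hx
    rw [Complex.norm_cpow_eq_rpow_re_of_pos hx]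
    congr 1
  -- convergence
  have hconv : MellinConvergent (fun x => (Phi φ x : ℂ)) s := by
    refine Integrable.mono' hib ?_ ?_
    · exact (hcp.aestronglyMeasurable measurableSet_Ioi).smul
        (Complex.continuous_ofReal.comp_aestronglyMeasurable hφ.Phi_meas)
    · filter_upwards [ae_restrict_mem measurableSet_Ioi] with x hx
      rw [norm_smul, hnorm x hx, Complex.norm_real, Real.norm_eq_abs]
      have hx0 : (0 : ℝ) < x := hx
      gcongr
      exact hCphi x hx
  refine ⟨hconv, ?_⟩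
  -- limit of the Mellin transforms
  have hlim1 : Tendsto (fun N : ℕ => mellin (fun x => (PhiN φ N x : ℂ)) s) atTop
      (𝓝 (mellin (fun x => (Phi φ x : ℂ)) s)) := by
    unfold mellin
    refine tendsto_integral_of_dominated_convergence
      (fun x : ℝ => x ^ (s.re - 1) * (C / (1 + x))) ?_ hib ?_ ?_
    · intro N
      exact (hcp.aestronglyMeasurable measurableSet_Ioi).smul
        (Complex.continuous_ofReal.comp_aestronglyMeasurable (hφ.PhiN_meas N))
    · intro N
      filter_upwards [ae_restrict_mem measurableSet_Ioi] with x hx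
      rw [norm_smul, hnorm x hx, Complex.norm_real, Real.norm_eq_abs]
      have hx0 : (0 : ℝ) < x := hx
      gcongr
      exact hbN N x hx
    · filter_upwards [ae_restrict_mem measurableSet_Ioi] with x hx
      exact ((Complex.continuous_ofReal.tendsto _).comp (hφ.PhiN_tendsto hx)).const_smul _
  have hlim2 : Tendsto (fun N : ℕ => mellin (fun x => (PhiN φ N x : ℂ)) s) atTop
      (𝓝 (riemannZeta s * mellin (fun x => (φ x : ℂ)) s)) := by
    have e1 : ∀ᶠ N : ℕ in atTop, (riemannZeta s + (N : ℂ) ^ (-s) / 2 - ∑' n : ℕ,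
        Pool.Agent.Lib.MP_f9aece_nt.trap (n + N) s) * mellin (fun x => (φ x : ℂ)) s
        = mellin (fun x => (PhiN φ N x : ℂ)) s := by
      filter_upwards [eventually_ge_atTop 1] with N hN
      rw [(hφ.hasMellin_PhiN h0 h1 N hN).2]
      have := Pool.Agent.Lib.MP_f9aece_nt.zeta_eq_sum hq hN
      rw [this]
      have h7 : (N : ℂ) ^ (1 - s) / (s - 1) = - ((N : ℂ) ^ (1 - s) / (1 - s)) := by
        rw [← neg_sub 1 s, div_neg]
      rw [h7]
      ring
    refine Tendsto.congr' e1 ?_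
    have t1 : Tendsto (fun N : ℕ => (N : ℂ) ^ (-s) / 2) atTop (𝓝 (0 / 2)) := by
      refine Tendsto.div_const ?_ _
      rw [tendsto_zero_iff_norm_tendsto_zero]
      have h2 : Tendsto (fun N : ℕ => (N : ℝ) ^ (-s.re)) atTop (𝓝 0) :=
        (tendsto_rpow_neg_atTop h0).comp tendsto_natCast_atTop_atTop
      refine h2.congr' ?_
      filter_upwards [eventually_ge_atTop 1] with N hN
      rw [Complex.norm_natCast_cpow_of_pos (by omega)]
      simp
    have t2 : Tendsto (fun N : ℕ => ∑' n : ℕ, Pool.Agent.Lib.MP_f9aece_nt.trap (n + N) s) atTop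
        (𝓝 0) := by
      have := tendsto_sum_nat_add (fun n : ℕ => Pool.Agent.Lib.MP_f9aece_nt.trap n s)
      exact this
    have := ((tendsto_const_nhds (x := riemannZeta s)).add t1).sub t2
    simpa using this.mul_const (mellin (fun x => (φ x : ℂ)) s)
  exact tendsto_nhds_unique hlim1 hlim2

lemma hasMellin_dil_sum {F : ℝ → ℝ} {s : ℂ} {m : ℂ} (hm : HasMellin (fun x => (F x : ℂ)) s m)
    {D : DP} (hD : ∀ n, D.coeff n ≠ 0 → 1 ≤ n) :
    HasMellin (fun x => ((∑ h ∈ D.coeff.support, D.coeff h * F (h * x) : ℝ) : ℂ)) s (evs s D * m) := by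
  have key : ∀ S : Finset ℕ, (∀ n ∈ S, 1 ≤ n) →
      HasMellin (fun x => ((∑ h ∈ S, D.coeff h * F (h * x) : ℝ) : ℂ)) s
        (∑ h ∈ S, (D.coeff h : ℂ) * (h : ℂ) ^ (-s) * m) := by
    classical
    intro S
    induction S using Finset.induction_on with
    | empty =>
      intro _
      refine ⟨?_, ?_⟩
      · simp only [MellinConvergent, Finset.sum_empty, ofReal_zero, smul_zero]
        exact integrableOn_zero
      · simp [mellin]
    | insert n S hn ih =>
      intro hS
      have ih' := ih fun m hm => hS m (Finset.mem_insert_of_mem hm)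
      have hn1 : 1 ≤ n := hS n (Finset.mem_insert_self _ _)
      have hn0 : (0 : ℝ) < n := by exact_mod_cast hn1
      have c1 : MellinConvergent (fun x : ℝ => ((F (n * x) : ℝ) : ℂ)) s :=
        (MellinConvergent.comp_mul_left (f := fun x => (F x : ℂ)) hn0).mpr hm.1
      have c2 := mellin_comp_mul_left (fun x => (F x : ℂ)) s hn0
      have c3 := hasMellin_const_smul c1 (D.coeff n : ℂ)
      have c4 := hasMellin_add c3.1 ih'.1
      have e : (fun x => ((∑ h ∈ insert n S, D.coeff h * F (h * x) : ℝ) : ℂ))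
          = fun x => (D.coeff n : ℂ) • ((F (n * x) : ℝ) : ℂ)
            + ((∑ h ∈ S, D.coeff h * F (h * x) : ℝ) : ℂ) := by
        funext x
        rw [Finset.sum_insert hn, smul_eq_mul]
        push_cast
        ring
      rw [e]
      refine ⟨c4.1, ?_⟩
      rw [c4.2, c3.2, ih'.2, c2, hm.2, Finset.sum_insert hn, smul_eq_mul, smul_eq_mul]
      push_cast
      ring
  have h1 := key D.coeff.support fun n hn => hD n (Finsupp.mem_support_iff.mp hn)
  rw [← Finset.sum_mul] at h1
  exact h1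

lemma hasMellin_RR {s : ℂ} (h0 : 0 < s.re) (h1 : s.re < 1) (him : 0 < s.im) {D B : DP}
    (hD : ∀ n, D.coeff n ≠ 0 → 1 ≤ n) (hB : ∀ n, B.coeff n ≠ 0 → 1 ≤ n) :
    HasMellin (fun x => (RR φ D B x : ℂ)) s
      ((riemannZeta s * evs s D - evs s B) * mellin (fun x => (φ x : ℂ)) s) := by
  have a1 := hφ.hasMellin_dil_sum (hφ.muntz_g h0 h1 him) hD
  have a2 := hφ.hasMellin_dil_sum (F := φ) ⟨hφ.mellinConv s, rfl⟩ hB
  have a3 := hasMellin_sub a1.1 a2.1
  have e : (fun x => (RR φ D B x : ℂ)) = fun x =>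
      ((∑ h ∈ D.coeff.support, D.coeff h * Phi φ (h * x) : ℝ) : ℂ)
        - ((∑ h ∈ B.coeff.support, B.coeff h * φ (h * x) : ℝ) : ℂ) := by
    funext x
    unfold RR QQ QB
    push_cast
    ring
  rw [e]
  refine ⟨a3.1, ?_⟩
  rw [a3.2, a1.2, a2.2]
  ring

lemma RR_bound : ∃ C : ℝ, 0 ≤ C ∧ ∀ D B : DP,
    (∀ n, D.coeff n ≠ 0 → 1 ≤ n) → (∀ n, B.coeff n ≠ 0 → 1 ≤ n) → ∀ x : ℝ, 0 < x →
    |RR φ D B x| ≤ (nrm D + nrm B) * (C / (1 + x)) := by
  obtain ⟨C, hC, h⟩ := hφ.Phi_bound
  obtain ⟨C2, hC2⟩ := hφ.compactSupp.exists_bound_of_continuous hφ.cont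
  have hC20 : 0 ≤ C2 := (norm_nonneg _).trans (hC2 0)
  refine ⟨max C (3 * C2), le_max_of_le_left hC, fun D B hD hB x hx => ?_⟩
  have h1 : |QQ φ D x| ≤ nrm D * (max C (3 * C2) / (1 + x)) := by
    unfold QQ nrm
    rw [Finset.sum_mul]
    refine (Finset.abs_sum_le_sum_abs _ _).trans (Finset.sum_le_sum fun n hn => ?_)
    have h1 : 1 ≤ n := hD n (Finsupp.mem_support_iff.mp hn)
    have h0 : (1 : ℝ) ≤ n := by exact_mod_cast h1
    rw [abs_mul]
    refine mul_le_mul_of_nonneg_left ?_ (abs_nonneg _)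
    refine (h (n * x) (by positivity)).trans ?_
    have : x ≤ n * x := by nlinarith
    gcongr
    exact le_max_left _ _
  have h2 : |QB φ B x| ≤ nrm B * (max C (3 * C2) / (1 + x)) := by
    unfold QB nrm
    rw [Finset.sum_mul]
    refine (Finset.abs_sum_le_sum_abs _ _).trans (Finset.sum_le_sum fun n hn => ?_)
    have h1 : 1 ≤ n := hB n (Finsupp.mem_support_iff.mp hn)
    have h0 : (1 : ℝ) ≤ n := by exact_mod_cast h1
    rw [abs_mul]
    refine mul_le_mul_of_nonneg_left ?_ (abs_nonneg _)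
    rcases le_or_gt x 2 with hx2 | hx2
    · have h3 := hC2 (n * x)
      rw [Real.norm_eq_abs] at h3
      refine h3.trans ?_
      rw [le_div_iff₀ (by positivity)]
      calc C2 * (1 + x) ≤ C2 * 3 := by gcongr; linarith
        _ = 3 * C2 := by ring
        _ ≤ _ := le_max_right _ _
    · have : φ (n * x) = 0 := hφ.zero_of_gt (by nlinarith)
      rw [this, abs_zero]
      have : 0 ≤ max C (3 * C2) := le_max_of_le_left hC
      positivity
  calc |RR φ D B x| ≤ |QQ φ D x| + |QB φ B x| := abs_sub _ _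
    _ ≤ _ := by rw [add_mul]; exact add_le_add h1 h2

lemma QB_cont (B : DP) : Continuous (QB φ B) := by
  unfold QB
  exact continuous_finsetSum _ fun h _ => continuous_const.mul (hφ.cont.comp (by fun_prop))

lemma Phi_comp_meas {n : ℕ} (hn : 1 ≤ n) :
    AEStronglyMeasurable (fun x : ℝ => Phi φ (n * x)) (volume.restrict (Ioi 0)) := by
  have hn0 : (0 : ℝ) < n := by exact_mod_cast hn
  have h1 : ∀ N : ℕ, AEStronglyMeasurable (fun x : ℝ => PhiN φ N (n * x)) (volume.restrict (Ioi 0)) := by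
    intro N
    refine ContinuousOn.aestronglyMeasurable ?_ measurableSet_Ioi
    unfold PhiN
    refine ContinuousOn.sub ?_ (ContinuousOn.mul ?_ ?_)
    · exact continuousOn_finsetSum _ fun n _ => (hφ.cont.comp (by fun_prop)).continuousOn
    · refine ContinuousOn.inv₀ (by fun_prop) fun x hx => ?_
      have : (0 : ℝ) < x := hx
      positivity
    · exact (hφ.G1_cont.comp (by fun_prop)).continuousOn
  refine aestronglyMeasurable_of_tendsto_ae atTop h1 ?_
  filter_upwards [ae_restrict_mem measurableSet_Ioi] with x hx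
  have hx0 : (0 : ℝ) < x := hx
  exact hφ.PhiN_tendsto (by positivity)

lemma RR_meas {D B : DP} (hD : ∀ n, D.coeff n ≠ 0 → 1 ≤ n) :
    AEStronglyMeasurable (RR φ D B) (volume.restrict (Ioi 0)) := by
  have h1 : AEStronglyMeasurable (QQ φ D) (volume.restrict (Ioi 0)) := by
    have : QQ φ D = ∑ h ∈ D.coeff.support, fun x : ℝ => D.coeff h * Phi φ (h * x) := by
      funext x; unfold QQ; simp
    rw [this]
    refine Finset.aestronglyMeasurable_sum _ fun h hh => ?_
    exact (hφ.Phi_comp_meas (hD h (Finsupp.mem_support_iff.mp hh))).const_mul _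
  exact h1.sub (hφ.QB_cont B).aestronglyMeasurable

lemma RR_int {σ : ℝ} (h0 : 1 / 2 ≤ σ) (h1 : σ < 1) {D B : DP}
    (hD : ∀ n, D.coeff n ≠ 0 → 1 ≤ n) (hB : ∀ n, B.coeff n ≠ 0 → 1 ≤ n) :
    IntegrableOn (fun x : ℝ => x ^ (σ - 1) * RR φ D B x) (Ioi 0) ∧
    IntegrableOn (fun x : ℝ => x ^ (2 * σ - 1) * RR φ D B x ^ 2) (Ioi 0) := by
  obtain ⟨C, hC, hb⟩ := hφ.RR_bound
  have hm := hφ.RR_meas (B := B) hD
  have hpow : ∀ p : ℝ, AEStronglyMeasurable (fun x : ℝ => x ^ p) (volume.restrict (Ioi 0)) := by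
    intro p
    refine ContinuousOn.aestronglyMeasurable (fun x hx => ?_) measurableSet_Ioi
    exact (Real.continuousAt_rpow_const _ _ (Or.inl (ne_of_gt hx))).continuousWithinAt
  have hN : 0 ≤ nrm D + nrm B := add_nonneg (nrm_nonneg D) (nrm_nonneg B)
  constructor
  · refine Integrable.mono' (integrable_bound_g (by linarith) h1 ((nrm D + nrm B) * C)) ((hpow _).mul hm) ?_
    filter_upwards [ae_restrict_mem measurableSet_Ioi] with x hx
    have hx0 : (0 : ℝ) < x := hx
    rw [Real.norm_eq_abs, abs_mul, abs_of_nonneg (by positivity : (0 : ℝ) ≤ x ^ (σ - 1))]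
    have := hb D B hD hB x hx0
    rw [← mul_div_assoc] at this
    gcongr
  · refine Integrable.mono' (integrable_bound_sq h0 h1 ((nrm D + nrm B) * C)) ((hpow _).mul (hm.pow 2)) ?_
    filter_upwards [ae_restrict_mem measurableSet_Ioi] with x hx
    have hx0 : (0 : ℝ) < x := hx
    rw [Real.norm_eq_abs, abs_of_nonneg (by positivity)]
    have := hb D B hD hB x hx0
    rw [← mul_div_assoc] at this
    have h2 : RR φ D B x ^ 2 ≤ ((nrm D + nrm B) * C / (1 + x)) ^ 2 := by
      rw [← sq_abs]; gcongr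
    gcongr

/-- Plancherel inequality on a vertical line in the critical strip -/
theorem plancherel_RR {σ : ℝ} (h0 : 1 / 2 ≤ σ) (h1 : σ < 1) {D B : DP}
    (hD : ∀ n, D.coeff n ≠ 0 → 1 ≤ n) (hB : ∀ n, B.coeff n ≠ 0 → 1 ≤ n) {T : ℝ} (hT : 0 ≤ T) :
    IntegrableOn (fun t : ℝ => ‖riemannZeta (σ + I * t) * evs (σ + I * t) D - evs (σ + I * t) B‖ ^ 2
        * ‖mellin (fun x => (φ x : ℂ)) (σ + I * t)‖ ^ 2) (Ioc 0 T) ∧
    ∫ t in (0 : ℝ)..T, ‖riemannZeta (σ + I * t) * evs (σ + I * t) D - evs (σ + I * t) B‖ ^ 2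
        * ‖mellin (fun x => (φ x : ℂ)) (σ + I * t)‖ ^ 2
      ≤ Real.pi * ∫ x in Ioi (0 : ℝ), x ^ (2 * σ - 1) * RR φ D B x ^ 2 := by
  set g : ℝ → ℝ := fun x => x ^ (σ - 1 / 2) * RR φ D B x with hg
  obtain ⟨i1, i2⟩ := hφ.RR_int h0 h1 hD hB
  have g1 : IntegrableOn (fun x => x ^ (-(1 / 2) : ℝ) * g x) (Ioi 0) := by
    refine IntegrableOn.congr_fun i1 (fun x hx => ?_) measurableSet_Ioi
    have hx0 : (0 : ℝ) < x := hx
    simp only [hg]
    rw [← mul_assoc, ← Real.rpow_add hx0]
    congr 2; ring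
  have g2 : IntegrableOn (fun x => g x ^ 2) (Ioi 0) := by
    refine IntegrableOn.congr_fun i2 (fun x hx => ?_) measurableSet_Ioi
    have hx0 : (0 : ℝ) < x := hx
    simp only [hg]
    rw [mul_pow, ← Real.rpow_natCast (x ^ (σ - 1 / 2)) 2, ← Real.rpow_mul hx0.le]
    congr 2; push_cast; ring
  have e2 : ∫ x in Ioi (0 : ℝ), g x ^ 2 = ∫ x in Ioi (0 : ℝ), x ^ (2 * σ - 1) * RR φ D B x ^ 2 := by
    refine setIntegral_congr_fun measurableSet_Ioi fun x hx => ?_
    have hx0 : (0 : ℝ) < x := hx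
    simp only [hg]
    rw [mul_pow, ← Real.rpow_natCast (x ^ (σ - 1 / 2)) 2, ← Real.rpow_mul hx0.le]
    congr 2; push_cast; ring
  obtain ⟨j1, j2⟩ := mellin_plancherel g1 g2 hT
  rw [intervalIntegrable_iff_integrableOn_Ioc_of_le hT] at j1
  have hcongr : ∀ t ∈ Ioc 0 T, ‖mellin (fun x => (g x : ℂ)) (1 / 2 + I * t)‖ ^ 2
      = ‖riemannZeta (σ + I * t) * evs (σ + I * t) D - evs (σ + I * t) B‖ ^ 2
        * ‖mellin (fun x => (φ x : ℂ)) (σ + I * t)‖ ^ 2 := by
    intro t ht
    have hm : mellin (fun x => (g x : ℂ)) (1 / 2 + I * t)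
        = mellin (fun x => (RR φ D B x : ℂ)) (σ + I * t) := by
      unfold mellin
      refine setIntegral_congr_fun measurableSet_Ioi fun x hx => ?_
      have hx0 : (0 : ℝ) < x := hx
      have hxc : (x : ℂ) ≠ 0 := by exact_mod_cast hx0.ne'
      simp only [hg, smul_eq_mul]
      rw [Complex.ofReal_mul, Complex.ofReal_cpow hx0.le, ← mul_assoc, ← Complex.cpow_add _ _ hxc]
      congr 2
      push_cast
      ring
    rw [hm]
    have h2 := (hφ.hasMellin_RR (s := σ + I * t) (by simp; linarith) (by simp; exact h1)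
      (by simp; exact ht.1) hD hB).2
    rw [h2, norm_mul, mul_pow]
  refine ⟨IntegrableOn.congr_fun j1 hcongr measurableSet_Ioc, ?_⟩
  rw [e2] at j2
  refine le_trans (le_of_eq ?_) j2
  rw [intervalIntegral.integral_of_le hT, intervalIntegral.integral_of_le hT]
  exact setIntegral_congr_fun measurableSet_Ioc fun t ht => (hcongr t ht).symm

end Bmp

end Pool.Agent.Lib.MP_f9aece_nt_h97
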