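import Mathlib
import Pool.Agent.Lib.MP_f9aece_nt_h97.OffA

/-!
The mean square of `zeta * D - B` on a vertical line to the right of the critical line.
-/

set_option autoImplicit false

namespace Pool.Agent.Lib.MP_f9aece_nt_h97

open MeasureTheory Set Filter Topology Complex
open Pool.Agent.Lib.MP_f9aece_nt (DP pair BK K2 K2_nonneg K2_eq_inv_lcm ev ev_apply)

namespace Bmp

variable {φ : ℝ → ℝ} (hφ : Bmp φ)

include hφ

lemma QB_eq {B : DP} (hB : ∀ n, B.coeff n ≠ 0 → 1 ≤ n) {x0 x : ℝ} (hx0 : 0 < x0) (hx : x0 ≤ x)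
    {N : ℕ} (hN : 2 < N * x0) : QB φ B x = ∑ M ∈ Finset.Icc 1 N, B.coeff M * φ (M * x) := by
  classical
  unfold QB
  have h1 : ∑ h ∈ B.coeff.support, B.coeff h * φ (h * x)
      = ∑ h ∈ B.coeff.support ∩ Finset.Icc 1 N, B.coeff h * φ (h * x) := by
    symm
    refine Finset.sum_subset Finset.inter_subset_left fun h hh hn => ?_
    have h1 := hB h (Finsupp.mem_support_iff.mp hh)
    have h2 : N < h := by
      by_contra hc
      exact hn (Finset.mem_inter.mpr ⟨hh, Finset.mem_Icc.mpr ⟨h1, by omega⟩⟩)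
    have h3 : (N : ℝ) ≤ h := by exact_mod_cast h2.le
    have : φ (h * x) = 0 := by
      apply hφ.zero_of_gt
      calc (2 : ℝ) < N * x0 := hN
        _ ≤ h * x := by gcongr
    rw [this, mul_zero]
  rw [h1]
  refine Finset.sum_subset Finset.inter_subset_right fun M hM hn => ?_
  have : B.coeff M = 0 := by
    by_contra hc
    exact hn (Finset.mem_inter.mpr ⟨Finsupp.mem_support_iff.mpr hc, hM⟩)
  rw [this, zero_mul]

lemma RR_eq {D B : DP} (hD : ∀ n, D.coeff n ≠ 0 → 1 ≤ n) (hB : ∀ n, B.coeff n ≠ 0 → 1 ≤ n)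
    {x0 x : ℝ} (hx0 : 0 < x0) (hx : x0 ≤ x) {N : ℕ} (hN : 2 < N * x0) :
    RR φ D B x = (∑ M ∈ Finset.Icc 1 N, eM D B M * φ (M * x)) - c0 D * (∫ u, φ u) * x⁻¹ := by
  have hx' : 0 < x := lt_of_lt_of_le hx0 hx
  unfold RR
  rw [QQ_eq hD hx', hφ.q1_eq hD hx0 hx hN, hφ.QB_eq hB hx0 hx hN]
  unfold eM
  have : ∑ M ∈ Finset.Icc 1 N, (bb D M - B.coeff M) * φ (M * x)
      = (∑ M ∈ Finset.Icc 1 N, bb D M * φ (M * x)) - ∑ M ∈ Finset.Icc 1 N, B.coeff M * φ (M * x) := by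
    rw [← Finset.sum_sub_distrib]
    exact Finset.sum_congr rfl fun M _ => by ring
  rw [this]
  ring

lemma dir_sq {ε : ℝ} (hε : ∀ y, φ y ≠ 0 → |y - 1| ≤ ε) (e : ℕ → ℝ)
    {x0 x : ℝ} (hx0 : 0 < x0) (hx : x0 ≤ x) (hεx : 2 * ε < x0) (N : ℕ) :
    (∑ M ∈ Finset.Icc 1 N, e M * φ (M * x)) ^ 2 = ∑ M ∈ Finset.Icc 1 N, e M ^ 2 * φ (M * x) ^ 2 := by
  rw [sq_sum_of_ne]
  · exact Finset.sum_congr rfl fun M _ => by ring
  · intro i _ j _ hij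
    by_contra hcon
    have h1 : φ (i * x) ≠ 0 := by
      intro h; apply hcon; rw [h]; ring
    have h2 : φ (j * x) ≠ 0 := by
      intro h; apply hcon; rw [h]; ring
    have h3 := hε _ h1
    have h4 := hε _ h2
    have h5 : |(i : ℝ) * x - j * x| ≤ 2 * ε := by
      have e : (i : ℝ) * x - j * x = (i * x - 1) - (j * x - 1) := by ring
      rw [e]
      exact (abs_sub _ _).trans (by linarith)
    rw [← sub_mul, abs_mul, abs_of_pos (lt_of_lt_of_le hx0 hx)] at h5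
    have h6 : (1 : ℝ) ≤ |(i : ℝ) - j| := by
      have : (1 : ℤ) ≤ |(i : ℤ) - j| := Int.one_le_abs (sub_ne_zero.mpr (by exact_mod_cast hij))
      exact_mod_cast this
    nlinarith [lt_of_lt_of_le hx0 hx]

/-- weighted energy of one dilate -/
lemma dil_energy {σ : ℝ} (h0 : 1 / 2 ≤ σ) (h1 : σ ≤ 3 / 4) {M : ℕ} (hM : 1 ≤ M) :
    IntegrableOn (fun x : ℝ => x ^ (2 * σ - 1) * φ (M * x) ^ 2) (Ioi 0) ∧
    ∫ x in Ioi (0 : ℝ), x ^ (2 * σ - 1) * φ (M * x) ^ 2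
      ≤ 2 * (∫ y, φ y ^ 2) * (M : ℝ) ^ (-(2 * σ)) := by
  have hM0 : (0 : ℝ) < M := by exact_mod_cast hM
  have hcont : ContinuousOn (fun u : ℝ => u ^ (2 * σ - 1)) (Ioi 0) := fun u hu =>
    (Real.continuousAt_rpow_const _ _ (Or.inl (ne_of_gt hu))).continuousWithinAt
  have hi := hφ.int_mul_sq hcont
  have hb := hφ.int_mul_sq_le hcont (B := 2) (fun u hu1 hu2 => by
    have hu0 : 0 < u := by linarith
    rw [abs_of_nonneg (by positivity)]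
    calc u ^ (2 * σ - 1) ≤ 2 ^ (2 * σ - 1) := by gcongr; linarith
      _ ≤ 2 ^ (1 : ℝ) := Real.rpow_le_rpow_of_exponent_le (by norm_num) (by linarith)
      _ = 2 := Real.rpow_one _)
  have e1 : ∀ x ∈ Ioi (0 : ℝ), (M : ℝ) ^ (-(2 * σ - 1)) *
      (φ (M * x) ^ 2 * (M * x) ^ (2 * σ - 1)) = x ^ (2 * σ - 1) * φ (M * x) ^ 2 := by
    intro x hx
    have hx0 : (0 : ℝ) < x := hx
    rw [Real.mul_rpow hM0.le hx0.le, Real.rpow_neg hM0.le]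
    have : (M : ℝ) ^ (2 * σ - 1) ≠ 0 := (Real.rpow_pos_of_pos hM0 _).ne'
    field_simp
  have hcomp : IntegrableOn (fun x : ℝ => φ (M * x) ^ 2 * (M * x) ^ (2 * σ - 1)) (Ioi 0) := by
    have := (integrableOn_Ioi_comp_mul_left_iff
      (fun x : ℝ => φ x ^ 2 * x ^ (2 * σ - 1)) 0 hM0).mpr (by rwa [mul_zero])
    exact this
  constructor
  · exact IntegrableOn.congr_fun (hcomp.const_mul ((M : ℝ) ^ (-(2 * σ - 1)))) e1 measurableSet_Ioi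
  · rw [← setIntegral_congr_fun measurableSet_Ioi e1, integral_const_mul]
    have e2 := integral_comp_mul_left_Ioi (fun x : ℝ => φ x ^ 2 * x ^ (2 * σ - 1)) 0 hM0
    rw [mul_zero, smul_eq_mul] at e2
    rw [e2]
    have e3 : (M : ℝ) ^ (-(2 * σ)) = (M : ℝ) ^ (-(2 * σ - 1)) * (M : ℝ)⁻¹ := by
      rw [← Real.rpow_neg_one, ← Real.rpow_add hM0]
      congr 1; ring
    rw [e3]
    have h5 := (le_abs_self _).trans hb
    calc (M : ℝ) ^ (-(2 * σ - 1)) * ((M : ℝ)⁻¹ * ∫ x in Ioi (0 : ℝ), φ x ^ 2 * x ^ (2 * σ - 1))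
        ≤ (M : ℝ) ^ (-(2 * σ - 1)) * ((M : ℝ)⁻¹ * ((∫ y, φ y ^ 2) * 2)) := by gcongr
      _ = _ := by ring

/-- direct part -/
theorem direct_off {ε : ℝ} (hε : ∀ y, φ y ≠ 0 → |y - 1| ≤ ε) {σ : ℝ} (h0 : 1 / 2 ≤ σ)
    (h1 : σ ≤ 3 / 4) {D B : DP} (hD : ∀ n, D.coeff n ≠ 0 → 1 ≤ n)
    (hB : ∀ n, B.coeff n ≠ 0 → 1 ≤ n) {x0 : ℝ} (hx0 : 0 < x0) (hx01 : x0 ≤ 1) (hεx : 2 * ε < x0)
    {W : ℝ} (hW : ∀ N : ℕ, ∑ M ∈ Finset.Icc 1 N, eM D B M ^ 2 * (M : ℝ) ^ (-(2 * σ)) ≤ W) :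
    ∫ x in Ioi x0, x ^ (2 * σ - 1) * RR φ D B x ^ 2
      ≤ 4 * (∫ y, φ y ^ 2) * W + 4 * (nrm D * ∫ y, |φ y|) ^ 2 / x0 := by
  set m := ∫ y, φ y ^ 2 with hm
  have hm0 : 0 ≤ m := integral_nonneg fun y => by positivity
  obtain ⟨N, hN⟩ := exists_nat_gt (2 / x0)
  rw [div_lt_iff₀ hx0] at hN
  have hκ : |c0 D * ∫ u, φ u| ≤ nrm D * ∫ y, |φ y| := by
    rw [abs_mul]
    have a1 := abs_c0_le hD
    have a2 : |∫ u, φ u| ≤ ∫ y, |φ y| := abs_integral_le_integral_abs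
    have a3 := nrm_nonneg D
    gcongr
  have hi : ∀ M ∈ Finset.Icc 1 N, IntegrableOn
      (fun x : ℝ => eM D B M ^ 2 * (x ^ (2 * σ - 1) * φ (M * x) ^ 2)) (Ioi x0) := by
    intro M hM
    rw [Finset.mem_Icc] at hM
    exact ((hφ.dil_energy h0 h1 hM.1).1.mono_set (Ioi_subset_Ioi hx0.le)).const_mul _
  have hS : IntegrableOn (fun x : ℝ => ∑ M ∈ Finset.Icc 1 N,
      eM D B M ^ 2 * (x ^ (2 * σ - 1) * φ (M * x) ^ 2)) (Ioi x0) := integrable_finsetSum _ hi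
  have hP : IntegrableOn (fun x : ℝ => x ^ (2 * σ - 3)) (Ioi x0) :=
    integrableOn_Ioi_rpow_of_lt (by linarith) hx0
  have hS2 : ∫ x in Ioi x0, ∑ M ∈ Finset.Icc 1 N, eM D B M ^ 2 * (x ^ (2 * σ - 1) * φ (M * x) ^ 2)
      ≤ 2 * m * W := by
    rw [integral_finsetSum _ hi]
    calc ∑ M ∈ Finset.Icc 1 N, ∫ x in Ioi x0, eM D B M ^ 2 * (x ^ (2 * σ - 1) * φ (M * x) ^ 2)
        ≤ ∑ M ∈ Finset.Icc 1 N, 2 * m * (eM D B M ^ 2 * (M : ℝ) ^ (-(2 * σ))) := by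
          refine Finset.sum_le_sum fun M hM => ?_
          rw [Finset.mem_Icc] at hM
          obtain ⟨i1, i2⟩ := hφ.dil_energy h0 h1 hM.1
          rw [integral_const_mul]
          have i3 : ∫ x in Ioi x0, x ^ (2 * σ - 1) * φ (M * x) ^ 2
              ≤ ∫ x in Ioi (0 : ℝ), x ^ (2 * σ - 1) * φ (M * x) ^ 2 := by
            refine setIntegral_mono_set i1 ?_ (Ioi_subset_Ioi hx0.le).eventuallyLE
            filter_upwards [ae_restrict_mem measurableSet_Ioi] with x hx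
            have : (0 : ℝ) < x := hx
            simp only [Pi.zero_apply]
            positivity
          calc eM D B M ^ 2 * ∫ x in Ioi x0, x ^ (2 * σ - 1) * φ (M * x) ^ 2
              ≤ eM D B M ^ 2 * (2 * m * (M : ℝ) ^ (-(2 * σ))) := by
                gcongr
                exact i3.trans i2
            _ = _ := by ring
      _ = 2 * m * ∑ M ∈ Finset.Icc 1 N, (eM D B M ^ 2 * (M : ℝ) ^ (-(2 * σ))) := by
          rw [Finset.mul_sum]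
      _ ≤ _ := by
          have := hW N
          gcongr
  have hP2 : ∫ x in Ioi x0, x ^ (2 * σ - 3) ≤ 2 / x0 := by
    rw [integral_Ioi_rpow_of_lt (by linarith) hx0]
    have e1 : 2 * σ - 3 + 1 = -(2 - 2 * σ) := by ring
    rw [e1, neg_div_neg_eq]
    have h5 : x0 ^ (-(2 - 2 * σ)) ≤ x0 ^ (-1 : ℝ) :=
      Real.rpow_le_rpow_of_exponent_ge hx0 hx01 (by linarith)
    rw [Real.rpow_neg_one] at h5
    have h6 : 0 < x0 ^ (-(2 - 2 * σ)) := Real.rpow_pos_of_pos hx0 _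
    have h7 : (1 / 2 : ℝ) ≤ 2 - 2 * σ := by linarith
    calc x0 ^ (-(2 - 2 * σ)) / (2 - 2 * σ) ≤ x0 ^ (-(2 - 2 * σ)) / (1 / 2) := by gcongr
      _ ≤ x0⁻¹ / (1 / 2) := by gcongr
      _ = _ := by field_simp
  have hdom : IntegrableOn (fun x : ℝ => 2 * ∑ M ∈ Finset.Icc 1 N,
      eM D B M ^ 2 * (x ^ (2 * σ - 1) * φ (M * x) ^ 2)
        + 2 * (nrm D * ∫ y, |φ y|) ^ 2 * x ^ (2 * σ - 3)) (Ioi x0) :=
    (hS.const_mul 2).add (hP.const_mul _)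
  have hmono := integral_mono_of_nonneg (μ := volume.restrict (Ioi x0))
    (f := fun x : ℝ => x ^ (2 * σ - 1) * RR φ D B x ^ 2)
    (g := fun x : ℝ => 2 * ∑ M ∈ Finset.Icc 1 N,
      eM D B M ^ 2 * (x ^ (2 * σ - 1) * φ (M * x) ^ 2)
        + 2 * (nrm D * ∫ y, |φ y|) ^ 2 * x ^ (2 * σ - 3)) ?_ hdom ?_
  · refine hmono.trans ?_
    rw [integral_add (hS.const_mul 2) (hP.const_mul _), integral_const_mul, integral_const_mul]
    have a1 : 2 * (nrm D * ∫ y, |φ y|) ^ 2 * ∫ x in Ioi x0, x ^ (2 * σ - 3)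
        ≤ 2 * (nrm D * ∫ y, |φ y|) ^ 2 * (2 / x0) := by gcongr
    have a2 : 2 * (nrm D * ∫ y, |φ y|) ^ 2 * (2 / x0) = 4 * (nrm D * ∫ y, |φ y|) ^ 2 / x0 := by ring
    linarith
  · filter_upwards [ae_restrict_mem measurableSet_Ioi] with x hx
    have : (0 : ℝ) < x := lt_trans hx0 hx
    simp only [Pi.zero_apply]
    positivity
  · filter_upwards [ae_restrict_mem measurableSet_Ioi] with x hx
    have hx' : (0 : ℝ) < x := lt_trans hx0 hx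
    rw [hφ.RR_eq hD hB hx0 (le_of_lt hx) hN]
    set A := ∑ M ∈ Finset.Icc 1 N, eM D B M * φ (M * x) with hA
    have hA2 : A ^ 2 = ∑ M ∈ Finset.Icc 1 N, eM D B M ^ 2 * φ (M * x) ^ 2 :=
      hφ.dir_sq hε _ hx0 (le_of_lt hx) hεx N
    have e1 : ∑ M ∈ Finset.Icc 1 N, eM D B M ^ 2 * (x ^ (2 * σ - 1) * φ (M * x) ^ 2)
        = x ^ (2 * σ - 1) * A ^ 2 := by
      rw [hA2, Finset.mul_sum]
      exact Finset.sum_congr rfl fun M _ => by ring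
    have e2 : x ^ (2 * σ - 3) = x ^ (2 * σ - 1) * (x⁻¹) ^ 2 := by
      rw [← Real.rpow_natCast, ← Real.rpow_neg_one, ← Real.rpow_mul hx'.le, ← Real.rpow_add hx']
      congr 1; push_cast; ring
    rw [e1, e2]
    have h5 : (A - c0 D * (∫ u, φ u) * x⁻¹) ^ 2
        ≤ 2 * A ^ 2 + 2 * (nrm D * ∫ y, |φ y|) ^ 2 * (x⁻¹) ^ 2 := by
      have h6 : (c0 D * ∫ u, φ u) ^ 2 ≤ (nrm D * ∫ y, |φ y|) ^ 2 := by
        rw [← sq_abs]; gcongr
      have h7 : (c0 D * ∫ u, φ u) ^ 2 * (x⁻¹) ^ 2 ≤ (nrm D * ∫ y, |φ y|) ^ 2 * (x⁻¹) ^ 2 := by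
        gcongr
      nlinarith [sq_nonneg (A + c0 D * (∫ u, φ u) * x⁻¹)]
    have h8 : 0 < x ^ (2 * σ - 1) := Real.rpow_pos_of_pos hx' _
    calc x ^ (2 * σ - 1) * (A - c0 D * (∫ u, φ u) * x⁻¹) ^ 2
        ≤ x ^ (2 * σ - 1) * (2 * A ^ 2 + 2 * (nrm D * ∫ y, |φ y|) ^ 2 * (x⁻¹) ^ 2) := by gcongr
      _ = _ := by ring

end Bmp

end Pool.Agent.Lib.MP_f9aece_nt_h97
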