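import Mathlib
import Pool.Agent.Lib.MP_f9aece_nt_h97.OffB

/-!
The mean square of `zeta * D - B` on a vertical line to the right of the critical line: the dual
part, the lower bound for the Mellin transform and the assembly.
-/

set_option autoImplicit false

namespace Pool.Agent.Lib.MP_f9aece_nt_h97

open MeasureTheory Set Filter Topology Complex
open Pool.Agent.Lib.MP_f9aece_nt (DP pair BK K2 K2_nonneg K2_eq_inv_lcm ev ev_apply)

lemma offC_aux {m g c l S Sg : ℝ} (hm : 0 ≤ m) (hl : 0 ≤ l) :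
    m * ((2 * l + g) * S + Sg) + 2 * c * S
      ≤ (m + m * |g| + 2 * |c|) * ((1 + 16 * l) * |S| + |Sg|) := by
  have a1 : (2 * l + g) * S ≤ (2 * l + |g|) * |S| := by
    have h1 : l * S ≤ l * |S| := mul_le_mul_of_nonneg_left (le_abs_self S) hl
    have h2 : g * S ≤ |g| * |S| := by rw [← abs_mul]; exact le_abs_self _
    linarith
  have a2 : c * S ≤ |c| * |S| := by rw [← abs_mul]; exact le_abs_self _
  have a3 : Sg ≤ |Sg| := le_abs_self _
  have hS0 : 0 ≤ |S| := abs_nonneg _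
  have hSg0 : 0 ≤ |Sg| := abs_nonneg _
  have hg0 : 0 ≤ |g| := abs_nonneg _
  have hc0 : 0 ≤ |c| := abs_nonneg _
  have a4 : m * ((2 * l + g) * S + Sg) ≤ m * ((2 * l + |g|) * |S| + |Sg|) :=
    mul_le_mul_of_nonneg_left (add_le_add a1 a3) hm
  have b1 : 0 ≤ m * |g| * (l * |S|) := by positivity
  have b2 : 0 ≤ |c| * (l * |S|) := by positivity
  have b3 : 0 ≤ m * |g| * |Sg| := by positivity
  have b4 : 0 ≤ |c| * |Sg| := by positivity
  have b5 : 0 ≤ m * (l * |S|) := by positivity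
  have b6 : 0 ≤ m * |S| := by positivity
  linarith

lemma cexp_sub_bound_g {v T t L σ : ℝ} (hL : 1 ≤ L) (hT : 4 * L ^ 2 ≤ T) (hv : |v| ≤ L) (ht0 : 0 ≤ t)
    (htT : t ≤ T) (hσ0 : 1 / 2 ≤ σ) (hσ1 : σ ≤ 1) :
    ‖((1 + v / T : ℝ) : ℂ) ^ (σ + I * t - 1 : ℂ) - cexp (I * (t / T * v : ℝ))‖ ≤ 4 * L ^ 2 / T := by
  have hT0 : 0 < T := by nlinarith
  set w := v / T with hw
  have hwa : |w| ≤ L / T := by
    rw [hw, abs_div, abs_of_pos hT0]; gcongr
  have hLT : L / T ≤ 1 / 4 := by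
    rw [div_le_iff₀ hT0]; nlinarith
  have hw2 : |w| ≤ 1 / 2 := by linarith
  have h1w : 0 < 1 + w := by
    have := (abs_le.mp hw2).1; linarith
  set ℓ := Real.log (1 + w) with hℓ
  have hlw := abs_log_one_add_sub hw2
  rw [← hℓ] at hlw
  have hcp : ((1 + w : ℝ) : ℂ) ^ (σ + I * t - 1 : ℂ)
      = cexp (I * (t / T * v : ℝ)) * cexp (-((1 - σ) * ℓ) + I * (t * (ℓ - w))) := by
    rw [Complex.cpow_def_of_ne_zero (by exact_mod_cast h1w.ne'), ← Complex.ofReal_log h1w.le,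
      ← Complex.exp_add]
    congr 1
    have : t / T * v = t * w := by rw [hw]; ring
    rw [this, ← hℓ]
    push_cast
    ring
  rw [hcp]
  set z : ℂ := -((1 - σ) * ℓ) + I * (t * (ℓ - w)) with hz
  have hwsq : w ^ 2 ≤ (L / T) ^ 2 := by
    rw [← sq_abs w]; gcongr
  have hzn : ‖z‖ ≤ 2 * L ^ 2 / T := by
    have h1 : ‖z‖ ≤ |ℓ| / 2 + t * |ℓ - w| := by
      rw [hz]
      refine (norm_add_le _ _).trans (add_le_add ?_ (le_of_eq ?_))
      · have e1 : (-((1 - (σ : ℂ)) * (ℓ : ℂ))) = ((-((1 - σ) * ℓ) : ℝ) : ℂ) := by push_cast; ring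
        rw [e1, Complex.norm_real, Real.norm_eq_abs, abs_neg, abs_mul, abs_of_nonneg (by linarith)]
        have : (1 - σ) * |ℓ| ≤ 1 / 2 * |ℓ| := by
          apply mul_le_mul_of_nonneg_right _ (abs_nonneg _)
          linarith
        linarith
      · rw [norm_mul, norm_I, one_mul, norm_mul, Complex.norm_real,
          Real.norm_eq_abs, abs_of_nonneg ht0]
        have : ((ℓ : ℂ) - (w : ℂ)) = ((ℓ - w : ℝ) : ℂ) := by push_cast; ring
        rw [this, Complex.norm_real, Real.norm_eq_abs]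
    have h2 : |ℓ| ≤ 2 * (L / T) := by
      have : |ℓ| ≤ |ℓ - w| + |w| := by
        have := abs_add_le (ℓ - w) w
        rwa [sub_add_cancel] at this
      have h3 : (L / T) ^ 2 ≤ L / T * (1 / 4) := by
        rw [sq]; gcongr
      linarith [div_nonneg (by linarith : (0 : ℝ) ≤ L) hT0.le]
    have h3 : t * |ℓ - w| ≤ L ^ 2 / T := by
      calc t * |ℓ - w| ≤ T * (L / T) ^ 2 := by
            gcongr
            exact hlw.trans hwsq
        _ = L ^ 2 / T := by field_simp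
    have h4 : L / T ≤ L ^ 2 / T := by
      gcongr
      nlinarith
    calc ‖z‖ ≤ |ℓ| / 2 + t * |ℓ - w| := h1
      _ ≤ 2 * (L / T) / 2 + L ^ 2 / T := by gcongr
      _ ≤ 2 * L ^ 2 / T := by
          have : 2 * L ^ 2 / T = L ^ 2 / T + L ^ 2 / T := by ring
          rw [this]; linarith
  have hz1 : ‖z‖ ≤ 1 := by
    refine hzn.trans ?_
    rw [div_le_one hT0]; linarith
  have e1 : cexp (I * (t / T * v : ℝ)) * cexp z - cexp (I * (t / T * v : ℝ))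
      = cexp (I * (t / T * v : ℝ)) * (cexp z - 1) := by ring
  have hn1 : ‖cexp (I * (t / T * v : ℝ))‖ = 1 := by
    rw [mul_comm]; exact Complex.norm_exp_ofReal_mul_I _
  rw [e1, norm_mul, hn1, one_mul]
  calc ‖cexp z - 1‖ ≤ 2 * ‖z‖ := Complex.norm_exp_sub_one_le hz1
    _ ≤ 2 * (2 * L ^ 2 / T) := by gcongr
    _ = 4 * L ^ 2 / T := by ring

namespace Ker

variable (K : Ker)

lemma mellin_lower_g {ε : ℝ} (hg : ∀ u : ℝ, |u| ≤ 1 → 1 - ε ≤ ∫ v, K.g v * Real.cos (u * v))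
    {T t σ : ℝ} (hT : 4 * K.L ^ 2 ≤ T) (ht0 : 0 ≤ t) (htT : t ≤ T) (hσ0 : 1 / 2 ≤ σ) (hσ1 : σ ≤ 1) :
    (1 - ε - 4 * K.L ^ 2 * K.ml / T) / T ≤ ‖mellin (fun x => (K.phi T x : ℂ)) (σ + I * t)‖ := by
  have hL := K.hL
  have hT0 : 0 < T := by nlinarith
  have hT2 : 2 * K.L ≤ T := by nlinarith
  have h1 := K.mellin_phi hT2 (σ + I * t)
  have hu : |t / T| ≤ 1 := by
    rw [abs_of_nonneg (by positivity), div_le_one hT0]; exact htT
  have h2 := hg (t / T) hu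
  set F : ℝ → ℂ := fun v => ((1 + v / T : ℝ) : ℂ) ^ (σ + I * t - 1 : ℂ) * (K.g v : ℂ) with hF
  set E : ℝ → ℂ := fun v => cexp (I * (t / T * v : ℝ)) * (K.g v : ℂ) with hE
  have hEi : Integrable E := by
    have hc : Continuous E := by
      rw [hE]
      exact (by fun_prop : Continuous fun v : ℝ => cexp (I * (t / T * v : ℝ))).mul
        (Complex.continuous_ofReal.comp K.cont)
    refine hc.integrable_of_hasCompactSupport ?_
    refine HasCompactSupport.mul_left ?_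
    exact K.csC
  have hdb : ∀ v, ‖F v - E v‖ ≤ 4 * K.L ^ 2 / T * |K.g v| := by
    intro v
    by_cases hv : K.g v = 0
    · simp [hF, hE, hv]
    · have hv2 := K.supp v hv
      have := cexp_sub_bound_g hL hT hv2 ht0 htT hσ0 hσ1
      have e1 : F v - E v = (((1 + v / T : ℝ) : ℂ) ^ (σ + I * t - 1 : ℂ)
          - cexp (I * (t / T * v : ℝ))) * (K.g v : ℂ) := by
        rw [hF, hE]; ring
      rw [e1, norm_mul, Complex.norm_real, Real.norm_eq_abs]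
      gcongr
  have hdi : Integrable (fun v => 4 * K.L ^ 2 / T * |K.g v|) := K.integrable.abs.const_mul _
  have hFm : AEStronglyMeasurable F volume := by
    rw [hF]
    refine AEStronglyMeasurable.mul ?_ (Complex.continuous_ofReal.comp K.cont).aestronglyMeasurable
    refine Measurable.aestronglyMeasurable ?_
    refine Measurable.pow_const ?_ _
    fun_prop
  have hFE : Integrable (fun v => F v - E v) :=
    Integrable.mono' hdi (hFm.sub hEi.1) (Eventually.of_forall hdb)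
  have hFi : Integrable F := by
    have := hFE.add hEi
    refine this.congr (Eventually.of_forall fun v => ?_)
    simp
  have h3 : ‖(∫ v, F v) - ∫ v, E v‖ ≤ 4 * K.L ^ 2 / T * K.ml := by
    rw [← integral_sub hFi hEi]
    refine (norm_integral_le_of_norm_le hdi (Eventually.of_forall hdb)).trans (le_of_eq ?_)
    rw [integral_const_mul]
    rfl
  have h4 : (∫ v, E v).re = ∫ v, K.g v * Real.cos (t / T * v) := by
    have h5 := integral_re hEi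
    have h6 : (∫ v, E v).re = RCLike.re (∫ v, E v) := rfl
    rw [h6, ← h5]
    refine integral_congr_ae (Eventually.of_forall fun v => ?_)
    simp only [hE, RCLike.re_to_complex, Complex.mul_re, Complex.ofReal_re, Complex.ofReal_im, mul_zero,
      sub_zero]
    rw [mul_comm I, Complex.exp_ofReal_mul_I_re, mul_comm]
  have h5 : 1 - ε - 4 * K.L ^ 2 / T * K.ml ≤ ‖∫ v, F v‖ := by
    have a1 : (∫ v, E v).re ≤ ‖∫ v, E v‖ := Complex.re_le_norm _
    have a2 : ‖∫ v, E v‖ ≤ ‖∫ v, F v‖ + ‖(∫ v, F v) - ∫ v, E v‖ := by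
      have := norm_sub_norm_le (∫ v, E v) (∫ v, F v)
      rw [norm_sub_rev] at this
      linarith
    rw [h4] at a1
    linarith
  rw [← h1, norm_mul, Complex.norm_real, Real.norm_eq_abs, abs_of_pos hT0] at h5
  rw [div_le_iff₀ hT0]
  have : 4 * K.L ^ 2 * K.ml / T = 4 * K.L ^ 2 / T * K.ml := by ring
  rw [this, mul_comm _ T]
  exact h5

set_option maxHeartbeats 4000000 in
/-- the dual part with `T = τ ^ 16`, `x0 = τ ^ (-14)` -/
theorem dual_part : ∃ C : ℝ, 0 ≤ C ∧ ∀ τ : ℝ, 1 ≤ τ → 2 * K.L < τ ^ 2 → ∀ (D : DP) (H : ℝ), 1 ≤ H →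
    (∀ n, D.coeff n ≠ 0 → 1 ≤ n ∧ (n : ℝ) ≤ H) →
    ∫ x in Ioo (0 : ℝ) (τ ^ 14)⁻¹, QQ (K.phi (τ ^ 16)) D x ^ 2
      ≤ 1 / τ ^ 16 * (C * ((1 + Real.log (τ ^ 16)) * |BK K2 D D| + |BK Kg D D|))
        + C * (nrm D * H) ^ 2 / τ ^ 17 := by
  have hm2 := K.m2_nonneg
  have hCK := K.CK_nonneg
  have hB2 := K.B2_pos
  have hI1 := K.I1_nonneg
  have hI2 := K.I2_nonneg
  have hml := K.ml_nonneg
  have hL := K.hL
  refine ⟨(K.m2 + K.m2 * |γE| + 2 * |K.c2|) + (4 * K.m2 + K.m2 * |γE| + 2 * |K.c2|)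
    + 2 * (16 * K.CK + 4 * K.I1 + 2 * K.I2) + 22 * K.B2 ^ 2, by positivity, ?_⟩
  set C := (K.m2 + K.m2 * |γE| + 2 * |K.c2|) + (4 * K.m2 + K.m2 * |γE| + 2 * |K.c2|)
    + 2 * (16 * K.CK + 4 * K.I1 + 2 * K.I2) + 22 * K.B2 ^ 2 with hC
  intro τ hτ hLτ D H hH hD
  have hτ0 : 0 < τ := by linarith
  have hD1 : ∀ n, D.coeff n ≠ 0 → 1 ≤ n := fun n hn => (hD n hn).1
  set T := τ ^ 16 with hTdef
  have hT0 : 0 < T := by positivity
  have hT : 2 * K.L ≤ T := by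
    have : τ ^ 2 ≤ τ ^ 16 := pow_le_pow_right₀ hτ (by norm_num)
    rw [hTdef]; linarith
  set x0 : ℝ := (τ ^ 14)⁻¹ with hx0def
  have hx0 : 0 < x0 := by positivity
  -- cutoff
  obtain ⟨Ξ, hΞ1, hΞ2, hΞ3⟩ : ∃ Ξ : ℕ, 1 ≤ Ξ ∧ τ ^ 6 ≤ Ξ ∧ (Ξ : ℝ) ≤ 2 * τ ^ 6 := by
    have h1 : (1 : ℝ) ≤ τ ^ 6 := one_le_pow₀ hτ
    refine ⟨⌈τ ^ 6⌉₊, Nat.one_le_ceil_iff.mpr (by positivity), Nat.le_ceil _, ?_⟩
    have := (Nat.ceil_lt_add_one (a := τ ^ 6) (by positivity)).le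
    linarith
  have hΞ0 : (0 : ℝ) < Ξ := by exact_mod_cast hΞ1
  set δ : ℝ := (τ ^ 2)⁻¹ with hδdef
  have hδ : 0 < δ := by positivity
  have hδ1 : δ ≤ 1 := inv_le_one_of_one_le₀ (one_le_pow₀ hτ)
  have sU := K.dual_bound hT hD hx0 hΞ1 hδ
  set S := BK K2 D D with hS
  set Sg := BK Kg D D with hSg
  set N := nrm D with hN
  have hN0 : 0 ≤ N := nrm_nonneg D
  have hSN : |S| ≤ N ^ 2 := by
    have := abs_BK_le (K := K2) (B := 1) (fun a b ha hb => K2_le_one ha hb) hD1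
    rw [mul_one] at this
    exact this
  have hSgN : |Sg| ≤ N ^ 2 := by
    have := abs_BK_le (K := Kg) (B := 1) (fun a b ha hb => Kg_le_one ha hb) hD1
    rw [mul_one] at this
    exact this
  have hTx : T * x0 = τ ^ 2 := by
    rw [hTdef, hx0def]; field_simp
  have hlogTx : Real.log (T * x0) = 2 * Real.log τ := by
    rw [hTx, Real.log_pow]; norm_num
  have hlogT : Real.log T = 16 * Real.log τ := by
    rw [hTdef, Real.log_pow]; norm_num
  have hlt0 : 0 ≤ Real.log τ := Real.log_nonneg hτ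
  have hlt1 : Real.log τ ≤ τ := by
    have := Real.log_le_sub_one_of_pos hτ0
    linarith
  have hTxh : (1 / (T * x0)) ^ (1 / 2 : ℝ) = 1 / τ := by
    have : 1 / (T * x0) = (1 / τ) ^ 2 := by rw [hTx]; field_simp
    rw [this, ← Real.rpow_natCast, ← Real.rpow_mul (by positivity)]
    norm_num
  -- dual main
  have hMd : K.Md T x0 D = 1 / T * (K.m2 * ((2 * Real.log τ + γE) * S + Sg) + 2 * K.c2 * S) := by
    unfold Md; rw [hlogTx]
  have hMdabs : |K.Md T x0 D| ≤ 1 / T * ((4 * K.m2 + K.m2 * |γE| + 2 * |K.c2|) * τ * N ^ 2) := by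
    rw [hMd, abs_mul, abs_of_pos (by positivity : 0 < 1 / T)]
    gcongr
    have t1 : |(2 * Real.log τ + γE) * S| ≤ (2 * τ + |γE|) * N ^ 2 := by
      rw [abs_mul]
      have : |2 * Real.log τ + γE| ≤ 2 * τ + |γE| := by
        refine (abs_add_le _ _).trans ?_
        rw [abs_of_nonneg (by positivity : 0 ≤ 2 * Real.log τ)]
        linarith
      gcongr
    have t2 : |2 * K.c2 * S| ≤ 2 * |K.c2| * N ^ 2 := by
      rw [abs_mul, abs_mul, abs_two]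
      gcongr
    calc |K.m2 * ((2 * Real.log τ + γE) * S + Sg) + 2 * K.c2 * S|
        ≤ K.m2 * ((2 * τ + |γE|) * N ^ 2 + N ^ 2) + 2 * |K.c2| * N ^ 2 := by
          refine (abs_add_le _ _).trans (add_le_add ?_ t2)
          rw [abs_mul, abs_of_nonneg hm2]
          gcongr
          exact (abs_add_le _ _).trans (add_le_add t1 hSgN)
      _ ≤ (4 * K.m2 + K.m2 * |γE| + 2 * |K.c2|) * τ * N ^ 2 := by
          have g1 : |γE| ≤ |γE| * τ := le_mul_of_one_le_right (abs_nonneg _) hτ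
          have g2 : |K.c2| ≤ |K.c2| * τ := le_mul_of_one_le_right (abs_nonneg _) hτ
          have g3 : K.m2 * ((2 * τ + |γE|) + 1) ≤ K.m2 * ((2 * τ + |γE| * τ) + 2 * τ) := by
            gcongr
            linarith
          have g4 : K.m2 * ((2 * τ + |γE|) + 1) + 2 * |K.c2|
              ≤ K.m2 * ((2 * τ + |γE| * τ) + 2 * τ) + 2 * (|K.c2| * τ) := by linarith
          calc K.m2 * ((2 * τ + |γE|) * N ^ 2 + N ^ 2) + 2 * |K.c2| * N ^ 2
              = (K.m2 * ((2 * τ + |γE|) + 1) + 2 * |K.c2|) * N ^ 2 := by ring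
            _ ≤ (K.m2 * ((2 * τ + |γE| * τ) + 2 * τ) + 2 * (|K.c2| * τ)) * N ^ 2 := by gcongr
            _ = _ := by ring
  have hMdC : K.Md T x0 D ≤ 1 / T * ((K.m2 + K.m2 * |γE| + 2 * |K.c2|)
      * ((1 + Real.log T) * |S| + |Sg|)) := by
    rw [hMd, hlogT]
    refine mul_le_mul_of_nonneg_left ?_ (by positivity)
    exact offC_aux hm2 (by positivity)
  have hδMd : δ * K.Md T x0 D ≤ (4 * K.m2 + K.m2 * |γE| + 2 * |K.c2|) * (N * H) ^ 2 / τ ^ 17 := by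
    have hcf : 0 ≤ 4 * K.m2 + K.m2 * |γE| + 2 * |K.c2| := by positivity
    calc δ * K.Md T x0 D ≤ δ * |K.Md T x0 D| := by gcongr; exact le_abs_self _
      _ ≤ δ * (1 / T * ((4 * K.m2 + K.m2 * |γE| + 2 * |K.c2|) * τ * N ^ 2)) := by gcongr
      _ = (4 * K.m2 + K.m2 * |γE| + 2 * |K.c2|) * N ^ 2 / τ ^ 17 := by
          rw [hδdef, hTdef]; field_simp
      _ ≤ _ := by
          have : N ≤ N * H := le_mul_of_one_le_right hN0 hH
          gcongr
  have hNH : N ^ 2 ≤ (N * H) ^ 2 := by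
    have : N ≤ N * H := le_mul_of_one_le_right hN0 hH
    gcongr
  have hE1 : K.Ed1 T x0 H Ξ D ≤ (16 * K.CK + 4 * K.I1 + 2 * K.I2) * (N * H) ^ 2 / τ ^ 17 := by
    unfold Ed1
    rw [hTxh, hTx, ← hN]
    have a1 : 4 / T ^ 2 * (K.CK * (Ξ * H * N) ^ 2) ≤ 16 * K.CK * (N * H) ^ 2 / τ ^ 17 := by
      have b1 : (Ξ : ℝ) * H * N ≤ 2 * τ ^ 6 * (N * H) := by
        calc (Ξ : ℝ) * H * N = Ξ * (N * H) := by ring
          _ ≤ _ := by gcongr
      have b2 : (0 : ℝ) ≤ Ξ * H * N := by positivity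
      calc 4 / T ^ 2 * (K.CK * (Ξ * H * N) ^ 2) ≤ 4 / T ^ 2 * (K.CK * (2 * τ ^ 6 * (N * H)) ^ 2) := by
            gcongr
        _ = 16 * K.CK * (N * H) ^ 2 / τ ^ 20 := by
            rw [hTdef]; field_simp; ring
        _ ≤ _ := by
            have : τ ^ 17 ≤ τ ^ 20 := pow_le_pow_right₀ hτ (by norm_num)
            gcongr
    have a2 : 2 / T * (N ^ 2 * (2 * (1 / τ) * K.I1 + τ ^ 2 / Ξ * K.I2))
        ≤ (4 * K.I1 + 2 * K.I2) * (N * H) ^ 2 / τ ^ 17 := by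
      have b1 : τ ^ 2 / Ξ ≤ 1 / τ := by
        rw [div_le_div_iff₀ hΞ0 hτ0]
        calc τ ^ 2 * τ = τ ^ 3 := by ring
          _ ≤ τ ^ 6 := pow_le_pow_right₀ hτ (by norm_num)
          _ ≤ 1 * Ξ := by linarith
      calc 2 / T * (N ^ 2 * (2 * (1 / τ) * K.I1 + τ ^ 2 / Ξ * K.I2))
          ≤ 2 / T * (N ^ 2 * (2 * (1 / τ) * K.I1 + 1 / τ * K.I2)) := by gcongr
        _ = (4 * K.I1 + 2 * K.I2) * N ^ 2 / τ ^ 17 := by
            rw [hTdef]; field_simp; ring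
        _ ≤ _ := by gcongr
    calc _ ≤ 16 * K.CK * (N * H) ^ 2 / τ ^ 17 + (4 * K.I1 + 2 * K.I2) * (N * H) ^ 2 / τ ^ 17 :=
          add_le_add a1 a2
      _ = _ := by ring
  have hE10 : 0 ≤ K.Ed1 T x0 H Ξ D := by
    unfold Ed1; positivity
  have hE2 : (1 + 1 / δ) * K.Ed2 T x0 Ξ D ≤ 22 * K.B2 ^ 2 * (N * H) ^ 2 / τ ^ 17 := by
    unfold Ed2
    rw [← hN]
    have b1 : 1 + 1 / δ ≤ 2 * τ ^ 2 := by
      rw [hδdef, one_div, inv_inv]
      have : (1 : ℝ) ≤ τ ^ 2 := one_le_pow₀ hτ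
      linarith
    have b2 : 16 / 3 * K.B2 ^ 2 * T ^ 2 * x0 ^ 3 * N ^ 2 / Ξ ^ 2
        ≤ 16 / 3 * K.B2 ^ 2 * T ^ 2 * x0 ^ 3 * N ^ 2 / (τ ^ 6) ^ 2 := by gcongr
    calc (1 + 1 / δ) * (16 / 3 * K.B2 ^ 2 * T ^ 2 * x0 ^ 3 * N ^ 2 / Ξ ^ 2)
        ≤ 2 * τ ^ 2 * (16 / 3 * K.B2 ^ 2 * T ^ 2 * x0 ^ 3 * N ^ 2 / (τ ^ 6) ^ 2) := by gcongr
      _ = 32 / 3 * K.B2 ^ 2 * N ^ 2 / τ ^ 20 := by
          rw [hTdef, hx0def]; field_simp; ring
      _ ≤ 22 * K.B2 ^ 2 * (N * H) ^ 2 / τ ^ 17 := by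
          have : τ ^ 17 ≤ τ ^ 20 := pow_le_pow_right₀ hτ (by norm_num)
          have h3 : 32 / 3 * K.B2 ^ 2 * N ^ 2 ≤ 22 * K.B2 ^ 2 * (N * H) ^ 2 := by
            have : 32 / 3 * K.B2 ^ 2 ≤ 22 * K.B2 ^ 2 := by
              have := sq_nonneg K.B2
              linarith
            gcongr
          gcongr
  have hfin : (1 + δ) * (K.Md T x0 D + K.Ed1 T x0 H Ξ D) ≤ K.Md T x0 D
      + (4 * K.m2 + K.m2 * |γE| + 2 * |K.c2|) * (N * H) ^ 2 / τ ^ 17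
      + 2 * ((16 * K.CK + 4 * K.I1 + 2 * K.I2) * (N * H) ^ 2 / τ ^ 17) := by
    have : (1 + δ) * (K.Md T x0 D + K.Ed1 T x0 H Ξ D)
        = K.Md T x0 D + δ * K.Md T x0 D + (1 + δ) * K.Ed1 T x0 H Ξ D := by ring
    rw [this]
    have h2 : (1 + δ) * K.Ed1 T x0 H Ξ D ≤ 2 * K.Ed1 T x0 H Ξ D := by
      gcongr
      linarith
    linarith
  have hZ : 0 ≤ (N * H) ^ 2 / τ ^ 17 := by positivity
  have hlogT0 : 0 ≤ Real.log T := by rw [hlogT]; positivity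
  have hX0 : 0 ≤ (1 + Real.log T) * |S| + |Sg| := by positivity
  have c1 : 1 / T * ((K.m2 + K.m2 * |γE| + 2 * |K.c2|) * ((1 + Real.log T) * |S| + |Sg|))
      ≤ 1 / T * (C * ((1 + Real.log T) * |S| + |Sg|)) := by
    refine mul_le_mul_of_nonneg_left (mul_le_mul_of_nonneg_right ?_ hX0) (by positivity)
    rw [hC]
    have : 0 ≤ (4 * K.m2 + K.m2 * |γE| + 2 * |K.c2|)
      + 2 * (16 * K.CK + 4 * K.I1 + 2 * K.I2) + 22 * K.B2 ^ 2 := by positivity
    linarith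
  have c2' : ((4 * K.m2 + K.m2 * |γE| + 2 * |K.c2|) + 2 * (16 * K.CK + 4 * K.I1 + 2 * K.I2)
      + 22 * K.B2 ^ 2) * ((N * H) ^ 2 / τ ^ 17) ≤ C * ((N * H) ^ 2 / τ ^ 17) := by
    refine mul_le_mul_of_nonneg_right ?_ hZ
    rw [hC]
    have : 0 ≤ K.m2 + K.m2 * |γE| + 2 * |K.c2| := by positivity
    linarith
  have f1 : ∀ c : ℝ, c * (N * H) ^ 2 / τ ^ 17 = c * ((N * H) ^ 2 / τ ^ 17) := fun c => by ring
  rw [f1] at hE2 hfin
  rw [f1] at hfin
  rw [f1 C]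
  linarith

end Ker

end Pool.Agent.Lib.MP_f9aece_nt_h97
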