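import Mathlib
import Pool.Agent.Lib.MP_f9aece_nt_h97.OffC

/-!
The mean square of `zeta * D - B` on a vertical line to the right of the critical line: assembly.
-/

set_option autoImplicit false

namespace Pool.Agent.Lib.MP_f9aece_nt_h97

open MeasureTheory Set Filter Topology Complex
open Pool.Agent.Lib.MP_f9aece_nt (DP pair BK K2 K2_nonneg K2_eq_inv_lcm ev ev_apply)

/-- weighted energy of the full function -/
theorem Ker.energy_off (K : Ker) : ∃ C : ℝ, 0 ≤ C ∧ ∀ τ : ℝ, 1 ≤ τ → 2 * K.L < τ ^ 2 → ∀ σ : ℝ,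
    1 / 2 ≤ σ → σ ≤ 3 / 4 → ∀ (D B : DP) (H W : ℝ), 1 ≤ H → 2 * H < τ ^ 14 →
    (∀ n, D.coeff n ≠ 0 → 1 ≤ n ∧ (n : ℝ) ≤ H) → (∀ n, B.coeff n ≠ 0 → 1 ≤ n ∧ (n : ℝ) ≤ H) →
    (∀ N : ℕ, ∑ M ∈ Finset.Icc 1 N, eM D B M ^ 2 * (M : ℝ) ^ (-(2 * σ)) ≤ W) →
    ∫ x in Ioi (0 : ℝ), x ^ (2 * σ - 1) * RR (K.phi (τ ^ 16)) D B x ^ 2
      ≤ 1 / τ ^ 16 * (C * (W + (τ ^ 14) ^ (-(2 * σ - 1))
        * ((1 + Real.log (τ ^ 16)) * |BK K2 D D| + |BK Kg D D|)))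
        + C * (nrm D * H) ^ 2 / τ ^ 17 := by
  obtain ⟨C1, hC1, h1⟩ := K.dual_part
  have hm2 := K.m2_nonneg
  have hml := K.ml_nonneg
  have hL := K.hL
  refine ⟨4 * K.m2 + 2 * C1 + 4 * K.ml ^ 2, by positivity, ?_⟩
  intro τ hτ hLτ σ hσ0 hσ1 D B H W hH hHτ hD hB hW
  have hτ0 : 0 < τ := by linarith
  have hD1 : ∀ n, D.coeff n ≠ 0 → 1 ≤ n := fun n hn => (hD n hn).1
  have hB1 : ∀ n, B.coeff n ≠ 0 → 1 ≤ n := fun n hn => (hB n hn).1
  set T := τ ^ 16 with hTdef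
  have hT0 : 0 < T := by positivity
  have hT : 2 * K.L ≤ T := by
    have : τ ^ 2 ≤ τ ^ 16 := pow_le_pow_right₀ hτ (by norm_num)
    rw [hTdef]; linarith
  set x0 : ℝ := (τ ^ 14)⁻¹ with hx0def
  have hx0 : 0 < x0 := by positivity
  have hx01 : x0 ≤ 1 := inv_le_one_of_one_le₀ (one_le_pow₀ hτ)
  have hε : ∀ y, K.phi T y ≠ 0 → |y - 1| ≤ K.L / T := fun y hy => K.phi_supp hT0 hy
  have hεx : 2 * (K.L / T) < x0 := by
    rw [hx0def, hTdef, ← mul_div_assoc, div_lt_iff₀ (by positivity)]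
    have : (τ ^ 14)⁻¹ * τ ^ 16 = τ ^ 2 := by field_simp
    rw [this]; exact hLτ
  have hφ := K.phi_bmp hT
  obtain ⟨_, iR⟩ := hφ.RR_int hσ0 (by linarith) hD1 hB1
  have hsplit : ∫ x in Ioi (0 : ℝ), x ^ (2 * σ - 1) * RR (K.phi T) D B x ^ 2
      = (∫ x in Ioo 0 x0, x ^ (2 * σ - 1) * RR (K.phi T) D B x ^ 2)
        + ∫ x in Ioi x0, x ^ (2 * σ - 1) * RR (K.phi T) D B x ^ 2 := by
    rw [← integral_Ioc_eq_integral_Ioo, ← Ioc_union_Ioi_eq_Ioi hx0.le,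
      setIntegral_union (by
        rw [Set.disjoint_left]
        intro x h1 h2
        exact absurd h1.2 (not_le.mpr h2)) measurableSet_Ioi
        (iR.mono_set Ioc_subset_Ioi_self) (iR.mono_set (Ioi_subset_Ioi hx0.le))]
  rw [hsplit]
  -- direct part
  have d1 := hφ.direct_off hε hσ0 hσ1 hD1 hB1 hx0 hx01 hεx hW
  have hphi2 : ∫ y, K.phi T y ^ 2 = K.m2 / T := by
    rw [K.integral_phi_sq hT0, inv_mul_eq_div]
  have hphil : ∫ y, |K.phi T y| = K.ml / T := by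
    rw [K.integral_abs_phi hT0, inv_mul_eq_div]
  rw [hphi2, hphil] at d1
  have hN0 : 0 ≤ nrm D := nrm_nonneg D
  have d2 : 4 * (nrm D * (K.ml / T)) ^ 2 / x0 ≤ 4 * K.ml ^ 2 * (nrm D * H) ^ 2 / τ ^ 17 := by
    calc 4 * (nrm D * (K.ml / T)) ^ 2 / x0 = 4 * K.ml ^ 2 * nrm D ^ 2 / τ ^ 18 := by
          rw [hx0def, hTdef]; field_simp
      _ ≤ 4 * K.ml ^ 2 * (nrm D * H) ^ 2 / τ ^ 17 := by
          have g1 : τ ^ 17 ≤ τ ^ 18 := pow_le_pow_right₀ hτ (by norm_num)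
          have g2 : nrm D ≤ nrm D * H := le_mul_of_one_le_right hN0 hH
          gcongr
  -- dual part
  have hQ2 := K.QQ_int2 hT hD1
  have hpow : x0 ^ (2 * σ - 1) = (τ ^ 14) ^ (-(2 * σ - 1)) := by
    rw [hx0def, Real.inv_rpow (by positivity), ← Real.rpow_neg (by positivity)]
  have hp1 : (τ ^ 14 : ℝ) ^ (-(2 * σ - 1)) ≤ 1 :=
    Real.rpow_le_one_of_one_le_of_nonpos (one_le_pow₀ hτ) (by linarith)
  have hp0 : 0 < (τ ^ 14 : ℝ) ^ (-(2 * σ - 1)) := by positivity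
  have u1 : ∫ x in Ioo 0 x0, x ^ (2 * σ - 1) * RR (K.phi T) D B x ^ 2
      ≤ (τ ^ 14) ^ (-(2 * σ - 1)) * ∫ x in Ioo 0 x0, QQ (K.phi T) D x ^ 2 := by
    rw [← integral_const_mul]
    refine setIntegral_mono_on (iR.mono_set Ioo_subset_Ioi_self)
      ((hQ2.mono_set Ioo_subset_Ioi_self).const_mul _) measurableSet_Ioo fun x hx => ?_
    have hx0' : 0 < x := hx.1
    have hR : RR (K.phi T) D B x = QQ (K.phi T) D x := by
      unfold RR
      have : QB (K.phi T) B x = 0 := by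
        unfold QB
        refine Finset.sum_eq_zero fun h hh => ?_
        have h2 := (hB h (Finsupp.mem_support_iff.mp hh)).2
        have : K.phi T (h * x) = 0 := by
          apply hφ.zero_of_lt
          calc (h : ℝ) * x ≤ H * x := by gcongr
            _ < H * x0 := by
                apply mul_lt_mul_of_pos_left hx.2; linarith
            _ < 1 / 2 := by
                rw [hx0def, ← div_eq_mul_inv, div_lt_iff₀ (by positivity)]
                linarith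
        rw [this, mul_zero]
      rw [this, sub_zero]
    rw [hR, ← hpow]
    have : x ^ (2 * σ - 1) ≤ x0 ^ (2 * σ - 1) :=
      Real.rpow_le_rpow hx0'.le hx.2.le (by linarith)
    gcongr
  have u2 := h1 τ hτ hLτ D H hH hD
  rw [← hTdef, ← hx0def] at u2
  set X := (1 + Real.log T) * |BK K2 D D| + |BK Kg D D| with hX
  have hlogT : 0 ≤ Real.log T := Real.log_nonneg (by rw [hTdef]; exact one_le_pow₀ hτ)
  have hX0 : 0 ≤ X := by rw [hX]; positivity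
  set p := (τ ^ 14 : ℝ) ^ (-(2 * σ - 1)) with hp
  have hW0 : 0 ≤ W := by simpa using hW 0
  have u3 : ∫ x in Ioo 0 x0, x ^ (2 * σ - 1) * RR (K.phi T) D B x ^ 2
      ≤ 1 / T * (C1 * (p * X)) + C1 * (nrm D * H) ^ 2 / τ ^ 17 := by
    refine u1.trans ?_
    calc p * ∫ x in Ioo 0 x0, QQ (K.phi T) D x ^ 2
        ≤ p * (1 / T * (C1 * X) + C1 * (nrm D * H) ^ 2 / τ ^ 17) := by gcongr
      _ = 1 / T * (C1 * (p * X)) + p * (C1 * (nrm D * H) ^ 2 / τ ^ 17) := by ring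
      _ ≤ 1 / T * (C1 * (p * X)) + 1 * (C1 * (nrm D * H) ^ 2 / τ ^ 17) := by gcongr
      _ = _ := by ring
  have hWT : 4 * (K.m2 / T) * W = 1 / T * (4 * K.m2 * W) := by ring
  rw [hWT] at d1
  set Z := (nrm D * H) ^ 2 / τ ^ 17 with hZ
  have hZ0 : 0 ≤ Z := by positivity
  have f1 : ∀ c : ℝ, c * (nrm D * H) ^ 2 / τ ^ 17 = c * Z := fun c => by rw [hZ]; ring
  rw [f1] at d2 u3
  rw [f1]
  set q := 1 / T with hq
  have hq0 : 0 ≤ q := by positivity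
  set C := 4 * K.m2 + 2 * C1 + 4 * K.ml ^ 2 with hC
  have b1 : q * (4 * K.m2 * W) ≤ q * (C * W) := by
    have : 4 * K.m2 ≤ C := by rw [hC]; have := sq_nonneg K.ml; linarith
    gcongr
  have b2 : q * (C1 * (p * X)) ≤ q * (C * (p * X)) := by
    have : C1 ≤ C := by rw [hC]; have := sq_nonneg K.ml; linarith
    gcongr
  have b3 : (4 * K.ml ^ 2 + C1) * Z ≤ C * Z := by
    have : 4 * K.ml ^ 2 + C1 ≤ C := by rw [hC]; linarith
    gcongr
  have e1 : q * (C * (W + p * X)) = q * (C * W) + q * (C * (p * X)) := by ring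
  rw [e1]
  linarith

/-- **Mean square off the critical line.** -/
theorem off_mean : ∃ C T0 : ℝ, 0 ≤ C ∧ 1 ≤ T0 ∧
    ∀ T : ℝ, T0 ≤ T → ∀ σ : ℝ, 1 / 2 ≤ σ → σ ≤ 3 / 4 → ∀ (D B : DP) (H W : ℝ), 1 ≤ H →
    H ≤ T ^ (1 / 4 : ℝ) →
    (∀ n, D.coeff n ≠ 0 → 1 ≤ n ∧ (n : ℝ) ≤ H) → (∀ n, B.coeff n ≠ 0 → 1 ≤ n ∧ (n : ℝ) ≤ H) →
    (∀ N : ℕ, ∑ M ∈ Finset.Icc 1 N, eM D B M ^ 2 * (M : ℝ) ^ (-(2 * σ)) ≤ W) →
    IntegrableOn (fun t : ℝ =>
      ‖riemannZeta (σ + I * t) * evs (σ + I * t) D - evs (σ + I * t) B‖ ^ 2) (Ioc 0 T) →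
    ∫ t in (0 : ℝ)..T, ‖riemannZeta (σ + I * t) * evs (σ + I * t) D - evs (σ + I * t) B‖ ^ 2
      ≤ C * T * (W + T ^ (-(7 / 4 * (σ - 1 / 2)))
          * ((1 + Real.log T) * |BK K2 D D| + |BK Kg D D|)
        + (nrm D * H) ^ 2 / T ^ (1 / 16 : ℝ)) := by
  obtain ⟨K, hK1, hK2⟩ := Ker.exists_good (ε := 1 / 4) (by norm_num) (by norm_num)
  obtain ⟨C, hC, hC2⟩ := K.energy_off
  have hL := K.hL
  have hml := K.ml_nonneg
  have hm2 := K.m2_nonneg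
  have hpi := Real.pi_pos
  refine ⟨4 * Real.pi * C, max 16 (max (4 * K.L ^ 2 + (2 * K.L + 1) ^ 8) (16 * K.L ^ 2 * K.ml)),
    by positivity, ?_, ?_⟩
  · refine le_max_of_le_left (by norm_num)
  intro T hT σ hσ0 hσ1 D B H W hH hHT hD hB hW hint
  have hT16 : 16 ≤ T := (le_max_left _ _).trans hT
  have hTa : 4 * K.L ^ 2 + (2 * K.L + 1) ^ 8 ≤ T := ((le_max_left _ _).trans (le_max_right _ _)).trans hT
  have hTb : 16 * K.L ^ 2 * K.ml ≤ T := ((le_max_right _ _).trans (le_max_right _ _)).trans hT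
  have h8 : 0 ≤ (2 * K.L + 1) ^ 8 := by positivity
  have hT4 : 4 * K.L ^ 2 ≤ T := by linarith
  have hT0 : 0 < T := by linarith
  have hT1 : 1 ≤ T := by linarith
  have hT2 : 2 * K.L ≤ T := by nlinarith
  have hD1 : ∀ n, D.coeff n ≠ 0 → 1 ≤ n := fun n hn => (hD n hn).1
  have hB1 : ∀ n, B.coeff n ≠ 0 → 1 ≤ n := fun n hn => (hB n hn).1
  set τ := T ^ (1 / 16 : ℝ) with hτ
  have hτ16 : τ ^ 16 = T := by
    rw [hτ, ← Real.rpow_natCast, ← Real.rpow_mul hT0.le]; norm_num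
  have hτ1 : 1 ≤ τ := Real.one_le_rpow hT1 (by norm_num)
  have hτ0 : 0 < τ := by linarith
  have hτ2 : 2 * K.L < τ ^ 2 := by
    by_contra hc
    push Not at hc
    have : τ ^ 16 ≤ (2 * K.L) ^ 8 := by
      have : τ ^ 16 = (τ ^ 2) ^ 8 := by ring
      rw [this]
      gcongr
    rw [hτ16] at this
    have h9 : (2 * K.L) ^ 8 ≤ (2 * K.L + 1) ^ 8 := by gcongr; linarith
    nlinarith
  have hτ4 : T ^ (1 / 4 : ℝ) = τ ^ 4 := by
    rw [hτ, ← Real.rpow_natCast, ← Real.rpow_mul hT0.le]; norm_num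
  have hτ14 : 2 * H < τ ^ 14 := by
    have h2 : (2 : ℝ) ≤ τ ^ 4 := by
      rw [← hτ4]
      calc (2 : ℝ) = 16 ^ (1 / 4 : ℝ) := by
            have : (16 : ℝ) = 2 ^ (4 : ℝ) := by norm_num
            rw [this, ← Real.rpow_mul (by norm_num)]; norm_num
        _ ≤ T ^ (1 / 4 : ℝ) := by gcongr
    have h3 : τ ^ 8 < τ ^ 14 := by
      have hτgt : 1 < τ := by
        by_contra hc
        push Not at hc
        have : τ ^ 4 ≤ 1 := pow_le_one₀ hτ0.le hc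
        linarith
      exact pow_lt_pow_right₀ hτgt (by norm_num)
    calc 2 * H ≤ τ ^ 4 * τ ^ 4 := by
          rw [hτ4] at hHT
          gcongr
      _ = τ ^ 8 := by ring
      _ < τ ^ 14 := h3
  have h1 := hC2 τ hτ1 hτ2 σ hσ0 hσ1 D B H W hH hτ14 hD hB hW
  rw [hτ16] at h1
  have hpw : (τ ^ 14 : ℝ) ^ (-(2 * σ - 1)) = T ^ (-(7 / 4 * (σ - 1 / 2))) := by
    rw [hτ, ← Real.rpow_natCast, ← Real.rpow_mul hT0.le, ← Real.rpow_mul hT0.le]
    congr 1; push_cast; ring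
  rw [hpw] at h1
  obtain ⟨w1, w2⟩ := (K.phi_bmp hT2).plancherel_RR hσ0 (by linarith) hD1 hB1 hT0.le
  have hlow : ∀ t ∈ Ioc (0 : ℝ) T, (1 / 2) / T
      ≤ ‖mellin (fun x => (K.phi T x : ℂ)) (σ + I * t)‖ := by
    intro t ht
    have := K.mellin_lower_g hK2 hT4 ht.1.le ht.2 hσ0 (by linarith : σ ≤ 1)
    refine le_trans (div_le_div_of_nonneg_right ?_ hT0.le) this
    have : 4 * K.L ^ 2 * K.ml / T ≤ 1 / 4 := by
      rw [div_le_iff₀ hT0]
      linarith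
    linarith
  set F : ℝ → ℝ := fun t => ‖riemannZeta (σ + I * t) * evs (σ + I * t) D - evs (σ + I * t) B‖ ^ 2
    with hF
  have h3 : ((1 / 2) / T) ^ 2 * ∫ t in (0 : ℝ)..T, F t
      ≤ ∫ t in (0 : ℝ)..T, F t * ‖mellin (fun x => (K.phi T x : ℂ)) (σ + I * t)‖ ^ 2 := by
    rw [← intervalIntegral.integral_const_mul, intervalIntegral.integral_of_le hT0.le,
      intervalIntegral.integral_of_le hT0.le]
    refine setIntegral_mono_on (hint.const_mul _) w1 measurableSet_Ioc ?_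
    intro t ht
    have := hlow t ht
    have h4 : ((1 / 2) / T) ^ 2 ≤ ‖mellin (fun x => (K.phi T x : ℂ)) (σ + I * t)‖ ^ 2 := by
      gcongr
    rw [mul_comm]
    have hF0 : 0 ≤ F t := by rw [hF]; positivity
    gcongr
  set J := ∫ t in (0 : ℝ)..T, F t with hJ
  set X := (1 + Real.log T) * |BK K2 D D| + |BK Kg D D| with hX
  set p := T ^ (-(7 / 4 * (σ - 1 / 2))) with hp
  have h5 : ((1 / 2) / T) ^ 2 * J ≤ Real.pi * (1 / T * (C * (W + p * X))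
      + C * (nrm D * H) ^ 2 / τ ^ 17) := by
    refine (h3.trans w2).trans ?_
    gcongr
  have hτ17 : τ ^ 17 = T * τ := by rw [← hτ16]; ring
  rw [hτ17] at h5
  have e1 : J = 4 * T ^ 2 * (((1 / 2) / T) ^ 2 * J) := by
    field_simp
    ring
  rw [e1]
  calc 4 * T ^ 2 * (((1 / 2) / T) ^ 2 * J)
      ≤ 4 * T ^ 2 * (Real.pi * (1 / T * (C * (W + p * X)) + C * (nrm D * H) ^ 2 / (T * τ))) := by
        gcongr
    _ = 4 * Real.pi * C * T * (W + p * X + (nrm D * H) ^ 2 / τ) := by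
        field_simp

end Pool.Agent.Lib.MP_f9aece_nt_h97
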