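import Mathlib
import Pool.Agent.Lib.MP_f9aece_nt_h97.OffM
import Pool.Agent.Lib.MP_f9aece_nt_h97.OffF4
import Pool.Agent.Lib.MP_f9aece_nt_h40.GForms
import Pool.Agent.Lib.MP_f9aece_nt_h5.PrimeOff

/-!
The mean square of `zeta * D - B` to the right of the critical line is a small multiple of the
mean square of `B`.
-/

set_option autoImplicit false

namespace Pool.Agent.Lib.MP_f9aece_nt_h97

open MeasureTheory Set Filter Topology Complex
open Pool.Agent.Lib.MP_f9aece_nt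

lemma continuous_zeta_line {σ : ℝ} (hσ : σ < 1) :
    Continuous (fun t : ℝ => riemannZeta (σ + I * t)) := by
  refine continuous_iff_continuousAt.mpr fun t => ?_
  have h1 : (σ + I * t : ℂ) ≠ 1 := by
    intro h
    have := congrArg Complex.re h
    simp at this
    linarith
  have h2 : ContinuousAt riemannZeta (σ + I * t : ℂ) := (differentiableAt_riemannZeta h1).continuousAt
  exact ContinuousAt.comp (g := riemannZeta) (f := fun t : ℝ => (σ + I * t : ℂ)) h2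
    (by fun_prop)

lemma continuous_evs_line {σ : ℝ} (hσ : 0 < σ) (D : DP) :
    Continuous (fun t : ℝ => evs (σ + I * t) D) := by
  unfold evs
  refine continuous_finsetSum _ fun h _ => Continuous.mul continuous_const ?_
  refine Continuous.const_cpow (by fun_prop) ?_
  right
  intro t ht
  have := congrArg Complex.re ht
  simp at this
  linarith

lemma numG1 {κ e : ℝ} (hκ0 : 0 < κ) (hκ1 : κ ≤ 1) (he : e ≤ 1 + κ) :
    (3 + κ) * e - 3 ≤ 5 * κ := by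
  have : (3 + κ) * e ≤ (3 + κ) * (1 + κ) := by gcongr
  nlinarith

lemma numG2 {m Y X Λ δ : ℝ} (hX : X = 160 * m * Y) (hXp : 0 < X) (hδ : δ = Λ / X) (hδ0 : 0 < δ)
    (hYp : 0 < Y) {C : ℝ} (hΛ : 160 * m * C ≤ Λ) : C / δ ≤ Y := by
  rw [div_le_iff₀ hδ0, hδ, mul_div_assoc', le_div_iff₀ hXp, hX]
  calc C * (160 * m * Y) = (160 * m * C) * Y := by ring
    _ ≤ Λ * Y := by gcongr
    _ = Y * Λ := by ring

lemma numG3 {Y Λ E c X k2 : ℝ} (hYp : 0 < Y) (hΛ2 : 1 ≤ Λ) (hk20 : 0 ≤ k2) (hk2 : k2 ≤ 1)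
    (hYX : Y ≤ X) (h : (X / Λ) ^ k2 * Real.exp (-(c + 1)) ≤ E) :
    Y ^ k2 ≤ E * (Λ * Real.exp (c + 1)) := by
  have hΛ0 : 0 < Λ := by linarith
  have h1 : Y ^ k2 * Λ⁻¹ ≤ (X / Λ) ^ k2 := by
    have h2 : Y / Λ ≤ X / Λ := by gcongr
    have h3 : Λ ^ k2 ≤ Λ := by
      calc Λ ^ k2 ≤ Λ ^ (1 : ℝ) := Real.rpow_le_rpow_of_exponent_le hΛ2 hk2
        _ = Λ := Real.rpow_one _
    calc Y ^ k2 * Λ⁻¹ ≤ Y ^ k2 * (Λ ^ k2)⁻¹ := by gcongr
      _ = (Y / Λ) ^ k2 := by rw [Real.div_rpow hYp.le hΛ0.le]; ring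
      _ ≤ _ := by gcongr
  have h4 : Y ^ k2 * Λ⁻¹ * Real.exp (-(c + 1)) ≤ E := by
    refine le_trans ?_ h
    gcongr
  have h5 : Real.exp (-(c + 1)) * Real.exp (c + 1) = 1 := by rw [← Real.exp_add]; simp
  have h6 : Λ⁻¹ * Λ = 1 := inv_mul_cancel₀ hΛ0.ne'
  calc Y ^ k2 = Y ^ k2 * (Λ⁻¹ * Λ) * (Real.exp (-(c + 1)) * Real.exp (c + 1)) := by
        rw [h5, h6]; ring
    _ = (Y ^ k2 * Λ⁻¹ * Real.exp (-(c + 1))) * (Λ * Real.exp (c + 1)) := by ring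
    _ ≤ _ := by gcongr

lemma numG4 {E c X Λ k2 : ℝ} (hk20 : 0 ≤ k2) (hXΛ : 1 ≤ X / Λ)
    (h : (X / Λ) ^ k2 * Real.exp (-(c + 1)) ≤ E) : 1 ≤ E * Real.exp (c + 1) := by
  have h1 : 1 ≤ (X / Λ) ^ k2 := Real.one_le_rpow hXΛ hk20
  have h2 : Real.exp (-(c + 1)) ≤ E := by
    refine le_trans ?_ h
    calc Real.exp (-(c + 1)) = 1 * Real.exp (-(c + 1)) := (one_mul _).symm
      _ ≤ _ := by gcongr
  calc (1 : ℝ) = Real.exp (-(c + 1)) * Real.exp (c + 1) := by rw [← Real.exp_add]; simp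
    _ ≤ _ := by gcongr

lemma numG5 {C C1 X Y m E c Λ a2 a1 f1 f2 k2 t : ℝ} (hC : 0 ≤ C) (hC1 : 0 ≤ C1) (hX : X = 160 * m * Y)
    (hm : 0 < m) (hY : 1 ≤ Y) (hf1 : f1 ≤ C1 * Y ^ (k2 - 1)) (hf2 : f2 ≤ C1 * Y ^ k2)
    (hf10 : 0 ≤ f1) (hf20 : 0 ≤ f2)
    (hEY : Y ^ k2 ≤ E * (Λ * Real.exp (c + 1))) (ht : t ≤ Real.exp (-Λ)) (hE : 0 < E)
    (ha2 : a2 = C * (C1 * (2 + 160 * m) * Real.exp (c + 1)))
    (ha1 : a2 * (Λ * Real.exp (-Λ)) ≤ a1) :
    C * (t * ((1 + X) * f1 + f2)) ≤ a1 * E := by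
  have hYp : 0 < Y := by linarith
  have hYk : Y ^ (k2 - 1) * Y = Y ^ k2 := by
    rw [← Real.rpow_add_one hYp.ne']
    congr 1; ring
  have hYk0 : 0 < Y ^ k2 := by positivity
  have hYk1 : Y ^ (k2 - 1) ≤ Y ^ k2 := Real.rpow_le_rpow_of_exponent_le hY (by linarith)
  have hXp : 0 < X := by rw [hX]; positivity
  have t2' : (1 + X) * f1 + f2 ≤ C1 * (2 + 160 * m) * Y ^ k2 := by
    calc (1 + X) * f1 + f2
        ≤ (1 + X) * (C1 * Y ^ (k2 - 1)) + C1 * Y ^ k2 := by gcongr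
      _ = C1 * Y ^ (k2 - 1) + 160 * m * C1 * (Y ^ (k2 - 1) * Y) + C1 * Y ^ k2 := by
          rw [hX]; ring
      _ ≤ C1 * Y ^ k2 + 160 * m * C1 * Y ^ k2 + C1 * Y ^ k2 := by
          rw [hYk]
          gcongr
      _ = _ := by ring
  calc C * (t * ((1 + X) * f1 + f2))
      ≤ C * (Real.exp (-Λ) * (C1 * (2 + 160 * m) * Y ^ k2)) := by gcongr
    _ ≤ C * (Real.exp (-Λ) * (C1 * (2 + 160 * m) * (E * (Λ * Real.exp (c + 1))))) := by gcongr
    _ = (a2 * (Λ * Real.exp (-Λ))) * E := by rw [ha2]; ring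
    _ ≤ _ := by gcongr

lemma numG6 {C n H E c K m Y a3 a1 T16 : ℝ} {J : ℕ} (hC : 0 ≤ C) (hn0 : 0 ≤ n) (hm : 4000 ≤ m)
    (hY : 1 ≤ Y) (hJ : (J : ℝ) ≤ Y + 3)
    (hn : n * H ≤ K * (Real.exp (J + 2 * m * Y) * Real.exp (2 * m * Y))) (hH : 0 ≤ H)
    (hT : T16 = Real.exp (10 * m * Y)) (hE1 : 1 ≤ E * Real.exp (c + 1))
    (ha3 : a3 = C * (K ^ 2 * Real.exp 6 * Real.exp (c + 1))) (ha1 : a3 * Real.exp (-Y) ≤ a1)
    (hE : 0 < E) : C * ((n * H) ^ 2 / T16) ≤ a1 * E := by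
  have h1 : (n * H) ^ 2 ≤ K ^ 2 * Real.exp (2 * J + 8 * m * Y) := by
    calc (n * H) ^ 2 ≤ (K * (Real.exp (J + 2 * m * Y) * Real.exp (2 * m * Y))) ^ 2 := by gcongr
      _ = _ := by
          have e2 : Real.exp (2 * J + 8 * m * Y)
              = (Real.exp (J + 2 * m * Y) * Real.exp (2 * m * Y)) ^ 2 := by
            rw [← Real.exp_add, ← Real.exp_nat_mul]; congr 1; push_cast; ring
          rw [e2]; ring
  have h2 : (n * H) ^ 2 / T16 ≤ K ^ 2 * Real.exp 6 * Real.exp (-Y) := by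
    rw [hT, div_le_iff₀ (Real.exp_pos _)]
    refine h1.trans ?_
    have e3 : K ^ 2 * Real.exp 6 * Real.exp (-Y) * Real.exp (10 * m * Y)
        = K ^ 2 * Real.exp (6 + -Y + 10 * m * Y) := by
      rw [Real.exp_add, Real.exp_add]; ring
    rw [e3]
    refine mul_le_mul_of_nonneg_left (Real.exp_le_exp.mpr ?_) (by positivity)
    have h4 : 4000 * Y ≤ m * Y := by gcongr
    linarith
  calc C * ((n * H) ^ 2 / T16) ≤ C * (K ^ 2 * Real.exp 6 * Real.exp (-Y)) := by gcongr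
    _ = C * (K ^ 2 * Real.exp 6 * Real.exp (-Y)) * 1 := by ring
    _ ≤ C * (K ^ 2 * Real.exp 6 * Real.exp (-Y)) * (E * Real.exp (c + 1)) := by gcongr
    _ = (a3 * Real.exp (-Y)) * E := by rw [ha3]; ring
    _ ≤ _ := by gcongr

/-- choice of the truncation parameters -/
lemma choose_params {η C : ℝ} (hη : 0 < η) (hC : 0 ≤ C) : ∃ (m p0 : ℕ) (ε' : ℝ), 4000 ≤ m ∧ 2 ≤ p0 ∧
    0 < ε' ∧ (1 / 2 : ℝ) ^ m ≤ η / 4 ∧ xe p0 m ≤ η ∧
    C * ((3 + ε') * Real.exp (2 * xe p0 m) - 3) ≤ η / 2 := by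
  set κ := min 1 (η / (16 * (C + 1))) with hκ
  have hκ0 : 0 < κ := lt_min one_pos (by positivity)
  have hκ1 : κ ≤ 1 := min_le_left _ _
  have hκ2 : κ * (16 * (C + 1)) ≤ η := by
    have := min_le_right 1 (η / (16 * (C + 1)))
    rwa [← hκ, le_div_iff₀ (by positivity)] at this
  set x0 := min η (Real.log (1 + κ) / 2) with hx0
  have hlog : 0 < Real.log (1 + κ) := Real.log_pos (by linarith)
  have hx0p : 0 < x0 := lt_min hη (by positivity)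
  have h1 : ∀ᶠ m : ℕ in atTop, (1 / 2 : ℝ) ^ m ≤ η / 4 := by
    have := (tendsto_pow_atTop_nhds_zero_of_lt_one (r := (1 / 2 : ℝ)) (by norm_num) (by norm_num))
    exact this.eventually (eventually_le_nhds (by positivity))
  have h2 : ∀ᶠ m : ℕ in atTop, tm m ≤ x0 / 2 := by
    have h3 : Tendsto (fun m : ℕ => (2 : ℝ) ^ 1044 * (1 / 2 : ℝ) ^ m) atTop (𝓝 (2 ^ 1044 * 0)) :=
      (tendsto_pow_atTop_nhds_zero_of_lt_one (r := (1 / 2 : ℝ)) (by norm_num) (by norm_num)).const_mul _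
    rw [mul_zero] at h3
    filter_upwards [h3.eventually (eventually_le_nhds (by positivity : 0 < x0 / 2))] with m hm
    unfold tm
    rw [div_eq_mul_inv, ← inv_pow]
    simpa using hm
  obtain ⟨m, hm1, hm2, hm3⟩ := (h1.and (h2.and (eventually_ge_atTop 4000))).exists
  obtain ⟨p, hp⟩ := exists_nat_gt (12 / x0)
  set p0 := max 2 p with hp0
  have hp0' : (12 / x0) < (p0 : ℝ) := lt_of_lt_of_le hp (by exact_mod_cast le_max_right 2 p)
  have hp00 : (0 : ℝ) < p0 := by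
    have : 2 ≤ p0 := le_max_left _ _
    exact_mod_cast (by omega : 0 < p0)
  have hxe : xe p0 m ≤ x0 := by
    unfold xe
    have : 6 / (p0 : ℝ) ≤ x0 / 2 := by
      rw [div_lt_iff₀ hx0p] at hp0'
      rw [div_le_iff₀ hp00]
      linarith
    linarith
  refine ⟨m, p0, κ, hm3, le_max_left _ _, hκ0, hm1, hxe.trans (min_le_left _ _), ?_⟩
  have h4 : Real.exp (2 * xe p0 m) ≤ 1 + κ := by
    rw [← Real.le_log_iff_exp_le (by linarith)]
    have := min_le_right η (Real.log (1 + κ) / 2)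
    linarith
  have h5 : (3 + κ) * Real.exp (2 * xe p0 m) - 3 ≤ 5 * κ := numG1 hκ0 hκ1 h4
  calc C * ((3 + κ) * Real.exp (2 * xe p0 m) - 3) ≤ C * (5 * κ) := by gcongr
    _ ≤ η / 2 := by nlinarith

theorem off_core {η : ℝ} (hη : 0 < η) (hη1 : η ≤ 1) : ∃ (m p0 : ℕ) (Λ c Y0 : ℝ), 4000 ≤ m ∧ 2 ≤ p0 ∧
    (1 / 2 : ℝ) ^ m ≤ η / 4 ∧ 1 ≤ Λ ∧ 0 ≤ c ∧ 1 ≤ Y0 ∧ ∀ Y : ℝ, Y0 ≤ Y → ∀ J : ℕ, (J : ℝ) ≤ Y + 3 →
    Y / 4 ^ J < Real.log 2 → ∀ k : ℝ, 0 < k → k ≤ 1 / 100 →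
    Λ / (160 * m * Y) ≤ 1 / 4 ∧
    (160 * m * Y / Λ) ^ (k ^ 2) * Real.exp (-(k ^ 2 * c) - η)
      ≤ BK (K1s (2 * (1 / 2 + Λ / (160 * m * Y)))) (Bm m p0 k Y J) (Bm m p0 k Y J) ∧
    ∫ t in (0 : ℝ)..Real.exp (160 * m * Y),
      ‖riemannZeta (((1 / 2 + Λ / (160 * m * Y) : ℝ) : ℂ) + I * t)
          * evs (((1 / 2 + Λ / (160 * m * Y) : ℝ) : ℂ) + I * t) (Dm m p0 (1 - k) Y J)
        - evs (((1 / 2 + Λ / (160 * m * Y) : ℝ) : ℂ) + I * t) (Bm m p0 k Y J)‖ ^ 2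
      ≤ η * (Real.exp (160 * m * Y)
        * BK (K1s (2 * (1 / 2 + Λ / (160 * m * Y)))) (Bm m p0 k Y J) (Bm m p0 k Y J)) := by
  obtain ⟨C, T1, hC, hT1, hoff⟩ := off_mean
  obtain ⟨m, p0, ε', hm, hp0, hε', hmη, hxη, hCη⟩ := choose_params hη hC
  obtain ⟨c', hc'⟩ := Pool.Agent.Lib.MP_f9aece_nt_h5.prime_sum_lower p0
  obtain ⟨C0, hC0⟩ := Pool.Agent.Lib.MP_f9aece_nt_h5.zeta_tail ε' hε'
  obtain ⟨C1, hC1, hforms⟩ := Pool.Agent.Lib.MP_f9aece_nt_h40.forms_small m p0 hm (by omega)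
  set c := max c' 0 with hc
  have hc0 : 0 ≤ c := le_max_right _ _
  have hcc : c' ≤ c := le_max_left _ _
  have hm0 : (0 : ℝ) < m := by exact_mod_cast (by omega : 0 < m)
  have hm4 : (4000 : ℝ) ≤ m := by exact_mod_cast hm
  have hp00 : (0 : ℝ) < p0 := by exact_mod_cast (by omega : 0 < p0)
  -- choice of Λ
  set A2 := C * (C1 * (2 + 160 * m) * Real.exp (c + 1)) with hA2
  have hA20 : 0 ≤ A2 := by positivity
  have hlimΛ : ∀ᶠ L : ℝ in atTop, A2 * (L ^ 1 * Real.exp (-L)) ≤ η / 4 := by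
    have h1 := (Real.tendsto_pow_mul_exp_neg_atTop_nhds_zero 1).const_mul A2
    rw [mul_zero] at h1
    exact h1.eventually (eventually_le_nhds (by positivity))
  obtain ⟨Λ, hΛ1, hΛ2, hΛ3, hΛ4⟩ := (hlimΛ.and ((eventually_ge_atTop 1).and
    ((eventually_ge_atTop (160 * m * C0)).and (eventually_ge_atTop (160 * m : ℝ))))).exists
  have hΛ0 : 0 < Λ := by linarith
  rw [pow_one] at hΛ1
  -- choice of Y0
  set A3 := C * (((2 : ℝ) ^ p0 * (p0 : ℝ) ^ p0) ^ 2 * Real.exp 6 * Real.exp (c + 1)) with hA3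
  have hA30 : 0 ≤ A3 := by positivity
  have hlimY : ∀ᶠ Y : ℝ in atTop, A3 * Real.exp (-Y) ≤ η / 4 := by
    have h1 := (Real.tendsto_exp_neg_atTop_nhds_zero).const_mul A3
    rw [mul_zero] at h1
    exact h1.eventually (eventually_le_nhds (by positivity))
  obtain ⟨Y1, hY1⟩ := (hlimY.and ((eventually_ge_atTop 1).and ((eventually_ge_atTop (Real.log T1)).and
    ((eventually_ge_atTop (Λ / (40 * m))).and ((eventually_ge_atTop (Real.log ((p0 : ℝ) ^ p0))).and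
    (eventually_ge_atTop (p0 : ℝ))))))).exists_forall_of_atTop
  refine ⟨m, p0, Λ, c, max 1 Y1, hm, hp0, hmη, hΛ2, hc0, le_max_left _ _, ?_⟩
  intro Y hY J hJ hJ4 k hk0 hk1
  obtain ⟨hY2, hY3, hY4, hY5, hY6, hY7⟩ := hY1 Y ((le_max_right _ _).trans hY)
  have hYp : 0 < Y := by linarith
  set X := 160 * m * Y with hX
  have hXp : 0 < X := by positivity
  set δ := Λ / X with hδ
  have hδ0 : 0 < δ := by positivity
  have hδ4 : δ ≤ 1 / 4 := by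
    rw [hδ, div_le_iff₀ hXp, hX]
    rw [div_le_iff₀ (by positivity)] at hY5
    linarith
  have hδX : δ * X = Λ := by rw [hδ]; field_simp
  have hk2 : k ^ 2 ≤ 1 := by nlinarith
  -- the form of B
  have hs2 : 2 * (1 / 2 + δ) = 1 + 2 * δ := by ring
  set E := BK (K1s (2 * (1 / 2 + δ))) (Bm m p0 k Y J) (Bm m p0 k Y J) with hE
  have hyexp : 1 / δ ≤ Y := numG2 hX hXp hδ hδ0 hYp (by rw [mul_one]; exact hΛ4)
  have hYX : Y ≤ X := le_mul_of_one_le_left hYp.le (by linarith)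
  have hQ : Real.log (1 / δ) - c ≤ QT (1 + 2 * δ) p0 Y J := by
    rw [QT_eq hYp hJ4]
    have := hc' δ hδ0 hδ4 (Real.exp Y) (Real.exp_le_exp.mpr hyexp)
    linarith
  have hElow : (X / Λ) ^ (k ^ 2) * Real.exp (-(k ^ 2 * c) - η) ≤ E := by
    have h1 := DD_K1s_ge (s := 1 + 2 * δ) (k := k) (J := J) (p0 := p0) (m := m) hYp (by linarith)
      hk0.le (by linarith) hp0 (by omega)
    rw [← hs2] at h1
    refine le_trans ?_ h1
    have e1 : (X / Λ) ^ (k ^ 2) = Real.exp (k ^ 2 * Real.log (1 / δ)) := by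
      have : X / Λ = 1 / δ := by rw [hδ]; field_simp
      rw [this, Real.rpow_def_of_pos (by positivity), mul_comm]
    rw [e1, ← Real.exp_add]
    apply Real.exp_le_exp.mpr
    rw [hs2]
    have h2 : k ^ 2 * (Real.log (1 / δ) - c) ≤ k ^ 2 * QT (1 + 2 * δ) p0 Y J := by gcongr
    linarith
  refine ⟨hδ4, hElow, ?_⟩
  have hηexp : Real.exp (-(c + 1)) ≤ Real.exp (-(k ^ 2 * c) - η) := by
    apply Real.exp_le_exp.mpr
    have : k ^ 2 * c ≤ 1 * c := by gcongr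
    linarith
  have hElow' : (X / Λ) ^ (k ^ 2) * Real.exp (-(c + 1)) ≤ E := by
    refine le_trans ?_ hElow
    gcongr
  have hEY : Y ^ (k ^ 2) ≤ E * (Λ * Real.exp (c + 1)) :=
    numG3 hYp hΛ2 (by positivity) hk2 hYX hElow'
  have hXΛ : 1 ≤ X / Λ := by
    rw [one_le_div hΛ0]
    have : δ * X ≤ 1 / 4 * X := by gcongr
    linarith
  have hE1 : 1 ≤ E * Real.exp (c + 1) := numG4 (by positivity) hXΛ hElow'
  have hE0 : 0 < E := lt_of_lt_of_le (by positivity) hElow'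
  set T := Real.exp X with hT
  have hTp : 0 < T := Real.exp_pos _
  set D := Dm m p0 (1 - k) Y J with hD
  set B := Bm m p0 k Y J with hB
  set H := (p0 : ℝ) ^ p0 * Real.exp (2 * m * Y) with hH
  have hpp : (1 : ℝ) ≤ (p0 : ℝ) ^ p0 := one_le_pow₀ (by exact_mod_cast (by omega : 1 ≤ p0))
  have hH1 : 1 ≤ H := by
    calc (1 : ℝ) = 1 * 1 := by ring
      _ ≤ _ := by
        rw [hH]
        gcongr
        exact Real.one_le_exp (by positivity)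
  have hHT : H ≤ T ^ (1 / 4 : ℝ) := by
    have e1 : T ^ (1 / 4 : ℝ) = Real.exp (40 * m * Y) := by
      rw [hT, ← Real.exp_mul, hX]; congr 1; ring
    rw [e1, hH]
    have h1 : (p0 : ℝ) ^ p0 ≤ Real.exp Y := by
      rwa [← Real.log_le_iff_le_exp (by positivity)]
    calc (p0 : ℝ) ^ p0 * Real.exp (2 * m * Y) ≤ Real.exp Y * Real.exp (2 * m * Y) := by gcongr
      _ = Real.exp (Y + 2 * m * Y) := by rw [← Real.exp_add]
      _ ≤ _ := by
          apply Real.exp_le_exp.mpr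
          have : 1 * Y ≤ 38 * m * Y := by gcongr; linarith
          linarith
  have hka : |1 - k| ≤ 1 := by rw [abs_of_nonneg (by linarith)]; linarith
  have hkk : |k| ≤ 1 := by rw [abs_of_pos hk0]; linarith
  have hDs := Pool.Agent.Lib.MP_f9aece_nt_h40.len_D m (p0 := p0) (by omega) hka hYp J
  have hBs := Pool.Agent.Lib.MP_f9aece_nt_h40.len_B m p0 hkk hYp J
  have hnrm := Pool.Agent.Lib.MP_f9aece_nt_h40.nrm_D m p0 hka hYp J
  obtain ⟨hf1, hf2⟩ := hforms k hk0.le (by linarith) Y hY3 J hJ4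
  rw [← hD] at hf1 hf2 hDs hnrm
  rw [← hB] at hBs
  set W := ((3 + ε') * Real.exp (2 * xe p0 m) - 3) * E with hW
  have hp0Y : p0 ≤ ⌊Real.exp Y⌋₊ := by
    apply Nat.le_floor
    have := Real.add_one_le_exp Y
    linarith
  have hWs : ∀ N : ℕ, ∑ M ∈ Finset.Icc 1 N, eM D B M ^ 2 * (M : ℝ) ^ (-(2 * (1 / 2 + δ))) ≤ W := by
    intro N
    have hZ := hC0 δ hδ0 hδ4 (Real.exp Y) (Real.exp_le_exp.mpr (numG2 hX hXp hδ hδ0 hYp hΛ3))
    have := energy_forms (k := k) (Y := Y) (p0 := p0) (m := m) (J := J) (δ := δ) (ε := ε') hδ0 hk0.le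
      (by linarith) hYp hp0 hp0Y (by omega) hJ4 hε'.le hZ N
    rw [hs2, hW, hE, hs2]
    exact this
  have hTT : T1 ≤ T := by
    rw [hT, ← Real.log_le_iff_le_exp (by linarith)]
    linarith
  have hmain := hoff T hTT (1 / 2 + δ) (by linarith) (by linarith) D B H W hH1 hHT hDs
    (fun n hn => ⟨(hBs n hn).1, (hBs n hn).2.trans (by
      rw [hH]
      exact le_mul_of_one_le_left (Real.exp_pos _).le hpp)⟩) hWs (by
      refine Continuous.integrableOn_Ioc ?_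
      have c1 := continuous_zeta_line (σ := 1 / 2 + δ) (by linarith)
      have c2 := continuous_evs_line (σ := 1 / 2 + δ) (by linarith) D
      have c3 := continuous_evs_line (σ := 1 / 2 + δ) (by linarith) B
      exact ((c1.mul c2).sub c3).norm.pow 2)
  refine hmain.trans ?_
  have hlogT : Real.log T = X := by rw [hT, Real.log_exp]
  -- first term
  have t1 : C * W ≤ η / 2 * E := by
    calc C * W = (C * ((3 + ε') * Real.exp (2 * xe p0 m) - 3)) * E := by rw [hW]; ring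
      _ ≤ _ := by gcongr
  -- second term
  have hTδ : T ^ (-(7 / 4 * (1 / 2 + δ - 1 / 2))) ≤ Real.exp (-Λ) := by
    rw [hT, ← Real.exp_mul]
    apply Real.exp_le_exp.mpr
    have : X * -(7 / 4 * (1 / 2 + δ - 1 / 2)) = -(7 / 4 * (δ * X)) := by ring
    rw [this, hδX]
    linarith
  have t2 : C * (T ^ (-(7 / 4 * (1 / 2 + δ - 1 / 2))) * ((1 + Real.log T) * |BK K2 D D| + |BK Kg D D|))
      ≤ η / 4 * E := by
    rw [hlogT]
    exact numG5 hC hC1 hX hm0 hY3 hf1 hf2 (abs_nonneg _) (abs_nonneg _) hEY hTδ hE0 hA2 hΛ1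
  -- third term
  have t3 : C * ((nrm D * H) ^ 2 / T ^ (1 / 16 : ℝ)) ≤ η / 4 * E := by
    refine numG6 (K := (2 : ℝ) ^ p0 * (p0 : ℝ) ^ p0) (m := (m : ℝ)) (Y := Y) (J := J) hC (nrm_nonneg D)
      hm4 hY3 hJ ?_ (by linarith) ?_ hE1 hA3 hY2 hE0
    · calc nrm D * H ≤ (2 ^ p0 * Real.exp (J + 2 * m * Y)) * H := by gcongr
        _ = _ := by rw [hH]; ring
    · rw [hT, ← Real.exp_mul, hX]; congr 1; ring
  calc C * T * (W + T ^ (-(7 / 4 * (1 / 2 + δ - 1 / 2))) * ((1 + Real.log T) * |BK K2 D D| + |BK Kg D D|)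
        + (nrm D * H) ^ 2 / T ^ (1 / 16 : ℝ))
      = T * (C * W + C * (T ^ (-(7 / 4 * (1 / 2 + δ - 1 / 2)))
          * ((1 + Real.log T) * |BK K2 D D| + |BK Kg D D|))
        + C * ((nrm D * H) ^ 2 / T ^ (1 / 16 : ℝ))) := by ring
    _ ≤ T * (η / 2 * E + η / 4 * E + η / 4 * E) := by gcongr
    _ = _ := by ring

end Pool.Agent.Lib.MP_f9aece_nt_h97
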