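import Mathlib
import Pool.Agent.Lib.MP_f9aece_nt_h97.Window
import Pool.Agent.Lib.MP_f9aece_nt_h97.PowK2

/-!
The quadratic form attached to the fourth power of the Euler product: kernel, multiplicativity,
and the recursion for powers of prime polynomials.
-/

set_option autoImplicit false

namespace Pool.Agent.Lib.MP_f9aece_nt_h97

open MeasureTheory Set Filter Topology Complex
open Pool.Agent.Lib.MP_f9aece_nt

/-- the ratio `(p - 1) / (p + 1)` -/
noncomputable def rr (p : ℕ) : ℝ := ((p : ℝ) - 1) / (p + 1)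

/-- the multiplicative weight with `ts (p ^ i) = 1 + i (p - 1) / (p + 1)` -/
noncomputable def ts (n : ℕ) : ℝ := n.factorization.prod fun p k => 1 + (k : ℝ) * rr p

/-- normalised kernel of the fourth power of the Euler product -/
noncomputable def K4 (a b : ℕ) : ℝ := K2 a b * (ts (a / Nat.gcd a b) * ts (b / Nat.gcd a b))

lemma rr_nonneg {p : ℕ} (hp : 1 ≤ p) : 0 ≤ rr p := by
  have h : (1 : ℝ) ≤ p := by exact_mod_cast hp
  exact div_nonneg (by linarith) (by linarith)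

lemma rr_le_one (p : ℕ) : rr p ≤ 1 := by
  have h : (0 : ℝ) ≤ p := Nat.cast_nonneg p
  unfold rr
  rw [div_le_one (by linarith)]
  linarith

lemma ts_one : ts 1 = 1 := by simp [ts]

lemma one_le_ts (n : ℕ) : 1 ≤ ts n := by
  unfold ts Finsupp.prod
  have h : ∀ p ∈ n.factorization.support, (1 : ℝ) ≤ 1 + (n.factorization p : ℝ) * rr p := by
    intro p hp
    have hpp : p.Prime := Nat.prime_of_mem_primeFactors (by rwa [Nat.support_factorization] at hp)
    have := rr_nonneg hpp.one_le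
    have : 0 ≤ (n.factorization p : ℝ) * rr p := by positivity
    linarith
  calc (1 : ℝ) = ∏ p ∈ n.factorization.support, (1 : ℝ) := by rw [Finset.prod_const_one]
    _ ≤ ∏ p ∈ n.factorization.support, (1 + (n.factorization p : ℝ) * rr p) :=
        Finset.prod_le_prod (fun _ _ => zero_le_one) h

lemma ts_nonneg (n : ℕ) : 0 ≤ ts n := zero_le_one.trans (one_le_ts n)

lemma ts_mul {a b : ℕ} (h : Nat.Coprime a b) : ts (a * b) = ts a * ts b := by
  unfold ts
  rw [Nat.factorization_mul_of_coprime h, Finsupp.prod_add_index_of_disjoint]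
  rw [Nat.support_factorization, Nat.support_factorization]
  exact h.disjoint_primeFactors

lemma ts_pow {p : ℕ} (hp : p.Prime) (k : ℕ) : ts (p ^ k) = 1 + (k : ℝ) * rr p := by
  unfold ts
  rw [hp.factorization_pow, Finsupp.prod_single_index (by simp)]

lemma ts_prime_mul {p : ℕ} (hp : p.Prime) (n : ℕ) (hn : n ≠ 0) : ts (p * n) ≤ 2 * ts n := by
  obtain ⟨k, m, hm, rfl⟩ := Nat.exists_eq_pow_mul_and_not_dvd hn p hp.ne_one
  have hc : Nat.Coprime (p ^ k) m := Nat.Coprime.pow_left _ ((Nat.Prime.coprime_iff_not_dvd hp).mpr hm)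
  have hc' : Nat.Coprime (p ^ (k + 1)) m :=
    Nat.Coprime.pow_left _ ((Nat.Prime.coprime_iff_not_dvd hp).mpr hm)
  have e : p * (p ^ k * m) = p ^ (k + 1) * m := by ring
  rw [e, ts_mul hc, ts_mul hc', ts_pow hp, ts_pow hp]
  have h1 := ts_nonneg m
  have h2 := rr_nonneg hp.one_le
  have h3 := rr_le_one p
  have h4 : 0 ≤ (k : ℝ) * rr p := by positivity
  have h5 : 1 + ((k + 1 : ℕ) : ℝ) * rr p ≤ 2 * (1 + (k : ℝ) * rr p) := by
    push_cast
    nlinarith
  calc (1 + ((k + 1 : ℕ) : ℝ) * rr p) * ts m ≤ 2 * (1 + (k : ℝ) * rr p) * ts m := by gcongr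
    _ = _ := by ring

lemma K4_nonneg (a b : ℕ) : 0 ≤ K4 a b :=
  mul_nonneg (K2_nonneg _ _) (mul_nonneg (ts_nonneg _) (ts_nonneg _))

lemma K2_le_K4 (a b : ℕ) : K2 a b ≤ K4 a b := by
  unfold K4
  refine le_mul_of_one_le_right (K2_nonneg _ _) ?_
  calc (1 : ℝ) = 1 * 1 := by ring
    _ ≤ _ := by
        have := one_le_ts (a / Nat.gcd a b)
        have := one_le_ts (b / Nat.gcd a b)
        gcongr

lemma K4_comm (a b : ℕ) : K4 a b = K4 b a := by
  unfold K4
  rw [K2_comm, Nat.gcd_comm, mul_comm (ts _)]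

lemma K4_mul {A B : Set ℕ} (hAB : Disjoint A B) {a a' b b' : ℕ} (ha : a ∈ Smo A) (ha' : a' ∈ Smo A)
    (hb : b ∈ Smo B) (hb' : b' ∈ Smo B) : K4 (a * b) (a' * b') = K4 a a' * K4 b b' := by
  have h1 : Nat.Coprime a' b' := coprime_of_Smo hAB ha' hb'
  have h2 : Nat.Coprime a' b := coprime_of_Smo hAB ha' hb
  have h3 : Nat.Coprime a b' := coprime_of_Smo hAB ha hb'
  have h4 : Nat.Coprime a b := coprime_of_Smo hAB ha hb
  have e : Nat.gcd (a * b) (a' * b') = Nat.gcd a a' * Nat.gcd b b' := by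
    rw [Nat.Coprime.gcd_mul _ h1, Nat.Coprime.gcd_mul_right_cancel a h2.symm,
      Nat.Coprime.gcd_mul_left_cancel b h3]
  have e1 : a * b / (Nat.gcd a a' * Nat.gcd b b') = (a / Nat.gcd a a') * (b / Nat.gcd b b') :=
    Nat.mul_div_mul_comm (Nat.gcd_dvd_left _ _) (Nat.gcd_dvd_left _ _)
  have e2 : a' * b' / (Nat.gcd a a' * Nat.gcd b b') = (a' / Nat.gcd a a') * (b' / Nat.gcd b b') :=
    Nat.mul_div_mul_comm (Nat.gcd_dvd_right _ _) (Nat.gcd_dvd_right _ _)
  have c1 : Nat.Coprime (a / Nat.gcd a a') (b / Nat.gcd b b') :=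
    (h4.coprime_dvd_left (Nat.div_dvd_of_dvd (Nat.gcd_dvd_left _ _))).coprime_dvd_right
      (Nat.div_dvd_of_dvd (Nat.gcd_dvd_left _ _))
  have c2 : Nat.Coprime (a' / Nat.gcd a a') (b' / Nat.gcd b b') :=
    (h1.coprime_dvd_left (Nat.div_dvd_of_dvd (Nat.gcd_dvd_right _ _))).coprime_dvd_right
      (Nat.div_dvd_of_dvd (Nat.gcd_dvd_right _ _))
  unfold K4
  rw [K2_mul hAB ha ha' hb hb', e, e1, e2, ts_mul c1, ts_mul c2]
  ring

lemma mulKer_K4 : MulKer K4 :=
  ⟨by simp [K4, K2, ts_one], fun _ _ hAB _ ha _ ha' _ hb _ hb' => K4_mul hAB ha ha' hb hb'⟩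

lemma K4_pow {p : ℕ} (hp : p.Prime) (i l : ℕ) :
    K4 (p ^ i) (p ^ l) = ((p : ℝ)⁻¹) ^ max i l * (1 + |(i : ℝ) - l| * rr p) := by
  unfold K4
  rw [K2_pow hp]
  congr 1
  rcases le_total i l with h | h
  · have e : Nat.gcd (p ^ i) (p ^ l) = p ^ i := Nat.gcd_eq_left (pow_dvd_pow p h)
    have hr : (i : ℝ) ≤ l := by exact_mod_cast h
    rw [e, Nat.div_self (pow_pos hp.pos _), Nat.pow_div h hp.pos, ts_one, ts_pow hp, one_mul,
      abs_of_nonpos (by linarith)]
    push_cast [h]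
    ring
  · have e : Nat.gcd (p ^ i) (p ^ l) = p ^ l := Nat.gcd_eq_right (pow_dvd_pow p h)
    have hr : (l : ℝ) ≤ i := by exact_mod_cast h
    rw [e, Nat.div_self (pow_pos hp.pos _), Nat.pow_div h hp.pos, ts_one, ts_pow hp, mul_one,
      abs_of_nonneg (by linarith)]
    push_cast [h]
    ring

lemma K4_prime_mul {p : ℕ} (hp : p.Prime) {a b : ℕ} (ha : a ≠ 0) :
    K4 (p * a) b ≤ (p : ℝ)⁻¹ * (2 * K4 a b + if p ∣ b then K4 a (b / p) else 0) := by
  have hp0 : (p : ℝ) ≠ 0 := by exact_mod_cast hp.ne_zero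
  have hpi : 0 ≤ (p : ℝ)⁻¹ := by positivity
  split_ifs with h
  · obtain ⟨c, rfl⟩ := h
    rw [Nat.mul_div_cancel_left _ hp.pos]
    have h1 : K4 (p * a) (p * c) = (p : ℝ)⁻¹ * K4 a c := by
      unfold K4 K2
      rw [Nat.gcd_mul_left, Nat.mul_div_mul_left _ _ hp.pos, Nat.mul_div_mul_left _ _ hp.pos]
      push_cast
      have e : (p : ℝ) * a * (p * c) = p * (p * (a * c)) := by ring
      rw [e, mul_div_mul_left _ _ hp0, div_mul_eq_div_div_swap]
      rw [div_eq_mul_inv _ (p : ℝ)]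
      ring
    rw [h1]
    have := K4_nonneg a (p * c)
    nlinarith [mul_nonneg hpi this]
  · have hcop : Nat.Coprime p b := (Nat.Prime.coprime_iff_not_dvd hp).mpr h
    rw [add_zero]
    have hg : Nat.gcd (p * a) b = Nat.gcd a b := Nat.Coprime.gcd_mul_left_cancel a hcop
    have hK : K2 (p * a) b = (p : ℝ)⁻¹ * K2 a b := by
      unfold K2
      rw [hg]
      push_cast
      rw [mul_assoc, div_mul_eq_div_div_swap, div_eq_mul_inv _ (p : ℝ), mul_comm]
    unfold K4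
    rw [hK, hg]
    have hd : p * a / Nat.gcd a b = p * (a / Nat.gcd a b) := Nat.mul_div_assoc _ (Nat.gcd_dvd_left _ _)
    rw [hd]
    have hne : a / Nat.gcd a b ≠ 0 :=
      (Nat.div_pos (Nat.gcd_le_left _ (Nat.pos_of_ne_zero ha))
        (Nat.gcd_pos_of_pos_left _ (Nat.pos_of_ne_zero ha))).ne'
    have h1 := ts_prime_mul hp (a / Nat.gcd a b) hne
    have h2 := ts_nonneg (b / Nat.gcd a b)
    have h3 := K2_nonneg a b
    calc (p : ℝ)⁻¹ * K2 a b * (ts (p * (a / Nat.gcd a b)) * ts (b / Nat.gcd a b))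
        ≤ (p : ℝ)⁻¹ * K2 a b * (2 * ts (a / Nat.gcd a b) * ts (b / Nat.gcd a b)) := by gcongr
      _ = _ := by ring

lemma U_rec4 {I : Finset ℕ} (hI : ∀ p ∈ I, p.Prime) (r s : ℕ) :
    BK K4 ((PP I) ^ (r + 1)) ((PP I) ^ s)
      ≤ VV I * (2 * BK K4 ((PP I) ^ r) ((PP I) ^ s) + s * BK K4 ((PP I) ^ r) ((PP I) ^ (s - 1))) := by
  have h1 : (PP I) ^ (r + 1) = ∑ p ∈ I, MonoidAlgebra.single p (1 : ℝ) * (PP I) ^ r := by
    rw [pow_succ', ← Finset.sum_mul]; rfl
  rw [h1, BK_sum_left]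
  unfold VV
  rw [Finset.sum_mul]
  refine Finset.sum_le_sum fun p hp => ?_
  have hpp := hI p hp
  unfold BK
  rw [pair_mul, pair_single, one_mul]
  have h2 : ∀ a, a ≠ 0 → pair (fun b => K4 (p * a) b) ((PP I) ^ s)
      ≤ (p : ℝ)⁻¹ * (2 * pair (fun b => K4 a b) ((PP I) ^ s)
        + s * pair (fun b => K4 a b) ((PP I) ^ (s - 1))) := by
    intro a ha
    have h3 : pair (fun b => K4 (p * a) b) ((PP I) ^ s)
        ≤ pair (fun b => (p : ℝ)⁻¹ * (2 * K4 a b + if p ∣ b then K4 a (b / p) else 0)) ((PP I) ^ s) :=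
      pair_mono (cone_PP_pow hI s) fun b _ => K4_prime_mul hpp ha
    refine h3.trans ?_
    rw [pair_const_mul, pair_add_fun, pair_const_mul]
    have h4 := pair_dvd_le hI hpp s (ψ := fun b => K4 a b) fun n => K4_nonneg _ _
    have hp0 : (0 : ℝ) ≤ (p : ℝ)⁻¹ := by positivity
    gcongr
  have h5 : pair (fun a => pair (fun b => K4 (p * a) b) ((PP I) ^ s)) ((PP I) ^ r)
      ≤ pair (fun a => (p : ℝ)⁻¹ * (2 * pair (fun b => K4 a b) ((PP I) ^ s)
        + s * pair (fun b => K4 a b) ((PP I) ^ (s - 1)))) ((PP I) ^ r) :=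
    pair_mono (cone_PP_pow hI r) fun a ha => h2 a ha.1.1
  refine h5.trans (le_of_eq ?_)
  rw [pair_const_mul, pair_add_fun, pair_const_mul, pair_const_mul]

lemma cone_univ_PP {I : Finset ℕ} (hI : ∀ p ∈ I, p.Prime) (r : ℕ) : Cone univ ((PP I) ^ r) :=
  (cone_PP_pow hI r).mono (subset_univ _)

lemma U_zero4 {I : Finset ℕ} (hI : ∀ p ∈ I, p.Prime) (s : ℕ) :
    BK K4 ((PP I) ^ 0) ((PP I) ^ s) ≤ (2 * VV I) ^ s := by
  have hsymm : ∀ r, BK K4 ((PP I) ^ 0) ((PP I) ^ r) = BK K4 ((PP I) ^ r) ((PP I) ^ 0) := by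
    intro r
    unfold BK
    rw [pow_zero, MonoidAlgebra.one_def, pair_single, one_mul]
    refine pair_congr _ fun b _ => ?_
    rw [pair_single, one_mul, K4_comm]
  rw [hsymm]
  have hV := VV_nonneg I
  induction s with
  | zero =>
    rw [pow_zero, pow_zero, MonoidAlgebra.one_def, BK_single, mulKer_K4.1]
    norm_num
  | succ s ih =>
    refine (U_rec4 hI s 0).trans ?_
    simp only [Nat.cast_zero, zero_mul, add_zero]
    calc VV I * (2 * BK K4 ((PP I) ^ s) ((PP I) ^ 0)) ≤ VV I * (2 * (2 * VV I) ^ s) := by gcongr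
      _ = _ := by ring

lemma U_le4 {I : Finset ℕ} (hI : ∀ p ∈ I, p.Prime) {l : ℕ} (hV : 2 * VV I ≤ l) (r : ℕ) :
    ∀ s ≤ l, BK K4 ((PP I) ^ r) ((PP I) ^ s) ≤ (3 * VV I) ^ r * (l : ℝ) ^ s := by
  have hV0 := VV_nonneg I
  have hl0 : (0 : ℝ) ≤ l := by positivity
  induction r with
  | zero =>
    intro s _
    rw [pow_zero ((3 * VV I)), one_mul]
    refine (U_zero4 hI s).trans ?_
    gcongr
  | succ r ih =>
    intro s hs
    refine (U_rec4 hI r s).trans ?_
    have h1 := ih s hs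
    have h2 := ih (s - 1) (by omega)
    have h3 : (s : ℝ) * BK K4 ((PP I) ^ r) ((PP I) ^ (s - 1)) ≤ (3 * VV I) ^ r * (l : ℝ) ^ s := by
      rcases Nat.eq_zero_or_pos s with rfl | hs0
      · simp only [Nat.cast_zero, zero_mul]
        positivity
      · calc (s : ℝ) * BK K4 ((PP I) ^ r) ((PP I) ^ (s - 1))
            ≤ l * ((3 * VV I) ^ r * (l : ℝ) ^ (s - 1)) := by
              have hsl : (s : ℝ) ≤ l := by exact_mod_cast hs
              have : 0 ≤ BK K4 ((PP I) ^ r) ((PP I) ^ (s - 1)) :=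
                BK_nonneg (cone_univ_PP hI r) (cone_univ_PP hI (s - 1)) K4_nonneg
              gcongr
          _ = (3 * VV I) ^ r * ((l : ℝ) ^ (s - 1) * l) := by ring
          _ = (3 * VV I) ^ r * (l : ℝ) ^ s := by
              rw [← pow_succ]
              congr 2
              omega
    calc VV I * (2 * BK K4 ((PP I) ^ r) ((PP I) ^ s) + s * BK K4 ((PP I) ^ r) ((PP I) ^ (s - 1)))
        ≤ VV I * (2 * ((3 * VV I) ^ r * (l : ℝ) ^ s) + (3 * VV I) ^ r * (l : ℝ) ^ s) := by gcongr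
      _ = (3 * VV I) ^ (r + 1) * (l : ℝ) ^ s := by ring

/-- high powers of the prime polynomial under the fourth power form -/
lemma PP_pow_K4 {I : Finset ℕ} (hI : ∀ p ∈ I, p.Prime) {l : ℕ} (hV : 2 * VV I ≤ l) :
    BK K4 ((PP I) ^ l) ((PP I) ^ l) ≤ (3 * VV I * l) ^ l := by
  rw [mul_pow]
  exact U_le4 hI hV l l le_rfl

end Pool.Agent.Lib.MP_f9aece_nt_h97
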