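import Mathlib
import Pool.Agent.Lib.MP_f9aece_nt_h97.K4

/-!
Truncated exponentials of prime polynomials under the fourth power form.
-/

set_option autoImplicit false

namespace Pool.Agent.Lib.MP_f9aece_nt_h97

open MeasureTheory Set Filter Topology Complex
open Pool.Agent.Lib.MP_f9aece_nt

lemma sum_wt4_le {x : ℝ} (hx : 0 ≤ x) (M : ℕ) :
    ∑ y ∈ Finset.range (M + 1) ×ˢ Finset.range (M + 1),
      (x ^ y.1 / (y.1.factorial : ℝ)) * (x ^ y.2 / (y.2.factorial : ℝ)) * (1 + ((y.1 : ℝ) + y.2))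
      ≤ (1 + 2 * x) * Real.exp (2 * x) := by
  rw [Finset.sum_product]
  have e : ∑ i ∈ Finset.range (M + 1), ∑ l ∈ Finset.range (M + 1),
      (x ^ i / (i.factorial : ℝ)) * (x ^ l / (l.factorial : ℝ)) * (1 + ((i : ℝ) + l))
      = (∑ i ∈ Finset.range (M + 1), x ^ i / (i.factorial : ℝ)) ^ 2
        + 2 * ((∑ i ∈ Finset.range (M + 1), (i : ℝ) * (x ^ i / (i.factorial : ℝ)))
          * ∑ l ∈ Finset.range (M + 1), x ^ l / (l.factorial : ℝ)) := by
    have e1 : (∑ i ∈ Finset.range (M + 1), (i : ℝ) * (x ^ i / (i.factorial : ℝ)))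
        * ∑ l ∈ Finset.range (M + 1), x ^ l / (l.factorial : ℝ)
        = ∑ i ∈ Finset.range (M + 1), ∑ l ∈ Finset.range (M + 1),
          (i : ℝ) * (x ^ i / (i.factorial : ℝ)) * (x ^ l / (l.factorial : ℝ)) := by
      rw [Finset.sum_mul_sum]
    have e2 : (∑ i ∈ Finset.range (M + 1), (i : ℝ) * (x ^ i / (i.factorial : ℝ)))
        * ∑ l ∈ Finset.range (M + 1), x ^ l / (l.factorial : ℝ)
        = ∑ i ∈ Finset.range (M + 1), ∑ l ∈ Finset.range (M + 1),
          (x ^ i / (i.factorial : ℝ)) * ((l : ℝ) * (x ^ l / (l.factorial : ℝ))) := by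
      rw [mul_comm, Finset.sum_mul_sum]
    have e3 : (∑ i ∈ Finset.range (M + 1), x ^ i / (i.factorial : ℝ)) ^ 2
        = ∑ i ∈ Finset.range (M + 1), ∑ l ∈ Finset.range (M + 1),
          (x ^ i / (i.factorial : ℝ)) * (x ^ l / (l.factorial : ℝ)) := by
      rw [sq, Finset.sum_mul_sum]
    rw [two_mul]
    nth_rewrite 1 [e1]
    rw [e2, e3, ← Finset.sum_add_distrib, ← Finset.sum_add_distrib]
    refine Finset.sum_congr rfl fun i _ => ?_
    rw [← Finset.sum_add_distrib, ← Finset.sum_add_distrib]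
    refine Finset.sum_congr rfl fun l _ => ?_
    ring
  rw [e]
  have h3 := sum_mul_exp_le hx M
  have h4 : ∑ l ∈ Finset.range (M + 1), x ^ l / (l.factorial : ℝ) ≤ Real.exp x :=
    Real.sum_le_exp_of_nonneg hx _
  have h5 : 0 ≤ ∑ l ∈ Finset.range (M + 1), x ^ l / (l.factorial : ℝ) :=
    Finset.sum_nonneg fun l _ => by positivity
  have h6 : 0 ≤ ∑ i ∈ Finset.range (M + 1), (i : ℝ) * (x ^ i / (i.factorial : ℝ)) :=
    Finset.sum_nonneg fun l _ => by positivity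
  have e4 : Real.exp (2 * x) = Real.exp x * Real.exp x := by rw [← Real.exp_add]; congr 1; ring
  calc (∑ i ∈ Finset.range (M + 1), x ^ i / (i.factorial : ℝ)) ^ 2
        + 2 * ((∑ i ∈ Finset.range (M + 1), (i : ℝ) * (x ^ i / (i.factorial : ℝ)))
          * ∑ l ∈ Finset.range (M + 1), x ^ l / (l.factorial : ℝ))
      ≤ Real.exp x ^ 2 + 2 * ((x * Real.exp x) * Real.exp x) := by gcongr
    _ = _ := by rw [e4]; ring

/-- the local fourth power form near the main term -/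
lemma local_K4 {p : ℕ} (hp : p.Prime) {c : ℝ} (hc : |c| ≤ 1) {M : ℕ} (hM : 1 ≤ M) :
    |BK K4 (expo c M {p}) (expo c M {p}) - (1 + (4 * c + c ^ 2) * (p : ℝ)⁻¹)|
      ≤ 19 * |c| * ((p : ℝ)⁻¹) ^ 2 := by
  rw [BK_local]
  simp_rw [K4_pow hp]
  have hp0 : (0 : ℝ) < p := by exact_mod_cast hp.pos
  have hrr : rr p = (1 - (p : ℝ)⁻¹) / (1 + (p : ℝ)⁻¹) := by
    unfold rr; field_simp
  have hr0 := rr_nonneg hp.one_le
  have hr1 := rr_le_one p
  set r := rr p with hr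
  set q := (p : ℝ)⁻¹ with hq
  have hq0 : 0 < q := by positivity
  have hq1 : q ≤ 1 := inv_le_one_of_one_le₀ (by exact_mod_cast hp.one_le)
  set t : ℕ × ℕ → ℝ := fun x => (c ^ x.1 / (x.1.factorial : ℝ)) * (c ^ x.2 / (x.2.factorial : ℝ)) *
    (q ^ max x.1 x.2 * (1 + |(x.1 : ℝ) - x.2| * r)) with ht
  set w : ℕ × ℕ → ℝ := fun x => (1 ^ x.1 / (x.1.factorial : ℝ)) * (1 ^ x.2 / (x.2.factorial : ℝ))
    * (1 + ((x.1 : ℝ) + x.2)) with hw
  have e1 : ∑ i ∈ Finset.range (M + 1), ∑ l ∈ Finset.range (M + 1),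
        (c ^ i / (i.factorial : ℝ)) * (c ^ l / (l.factorial : ℝ)) *
          (q ^ max i l * (1 + |(i : ℝ) - l| * r))
      = ∑ x ∈ Finset.range (M + 1) ×ˢ Finset.range (M + 1), t x := by
    rw [Finset.sum_product]
  rw [e1]
  have hsub : Finset.range 2 ×ˢ Finset.range 2 ⊆ Finset.range (M + 1) ×ˢ Finset.range (M + 1) := by
    apply Finset.product_subset_product <;> exact Finset.range_subset_range.mpr (by omega)
  rw [← Finset.sum_sdiff hsub]
  have e2 : ∑ x ∈ Finset.range 2 ×ˢ Finset.range 2, t x = 1 + 2 * c * (q * (1 + r)) + c ^ 2 * q := by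
    rw [Finset.sum_product]
    simp [ht, Finset.sum_range_succ]
    ring
  have e3 : 1 + 2 * c * (q * (1 + r)) + c ^ 2 * q
      = (1 + (4 * c + c ^ 2) * q) - 4 * c * q ^ 2 / (1 + q) := by
    have : (1 + q) ≠ 0 := by positivity
    rw [hrr]
    field_simp
    ring
  rw [e2, e3]
  have h1 : ∀ x ∈ (Finset.range (M + 1) ×ˢ Finset.range (M + 1)) \ (Finset.range 2 ×ˢ Finset.range 2),
      |t x| ≤ |c| * q ^ 2 * w x := by
    intro x hx
    rw [Finset.mem_sdiff, Finset.mem_product, Finset.mem_product] at hx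
    simp only [Finset.mem_range] at hx
    have hmax : 2 ≤ max x.1 x.2 := by omega
    have hsum : 1 ≤ x.1 + x.2 := by omega
    rw [ht, hw]
    simp only
    have hf1 : (0 : ℝ) < (x.1.factorial : ℝ) := by positivity
    have hf2 : (0 : ℝ) < (x.2.factorial : ℝ) := by positivity
    have ec : c ^ x.1 / (x.1.factorial : ℝ) * (c ^ x.2 / (x.2.factorial : ℝ)) *
          (q ^ max x.1 x.2 * (1 + |(x.1 : ℝ) - x.2| * r))
        = c ^ (x.1 + x.2) * q ^ max x.1 x.2 * (1 ^ x.1 / (x.1.factorial : ℝ) * (1 ^ x.2 / (x.2.factorial : ℝ))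
          * (1 + |(x.1 : ℝ) - x.2| * r)) := by
      rw [pow_add, one_pow, one_pow]; ring
    have hA : 0 ≤ |(x.1 : ℝ) - x.2| * r := by positivity
    have hB : |(x.1 : ℝ) - x.2| * r ≤ (x.1 : ℝ) + x.2 := by
      have h2 : |(x.1 : ℝ) - x.2| ≤ (x.1 : ℝ) + x.2 := by
        rw [abs_le]
        have := Nat.cast_nonneg (α := ℝ) x.1
        have := Nat.cast_nonneg (α := ℝ) x.2
        constructor <;> linarith
      calc |(x.1 : ℝ) - x.2| * r ≤ ((x.1 : ℝ) + x.2) * 1 := by gcongr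
        _ = _ := mul_one _
    rw [ec, abs_mul, abs_mul, abs_pow, abs_of_pos (by positivity : 0 < q ^ max x.1 x.2),
      abs_of_pos (by positivity : 0 < 1 ^ x.1 / (x.1.factorial : ℝ) * (1 ^ x.2 / (x.2.factorial : ℝ))
          * (1 + |(x.1 : ℝ) - x.2| * r))]
    have a1 : |c| ^ (x.1 + x.2) ≤ |c| := by
      calc |c| ^ (x.1 + x.2) ≤ |c| ^ 1 := pow_le_pow_of_le_one (abs_nonneg _) hc hsum
        _ = |c| := pow_one _
    have a2 : q ^ max x.1 x.2 ≤ q ^ 2 := pow_le_pow_of_le_one hq0.le hq1 hmax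
    gcongr
  have h2 : ∑ x ∈ (Finset.range (M + 1) ×ˢ Finset.range (M + 1)) \ (Finset.range 2 ×ˢ Finset.range 2), w x
      ≤ 15 := by
    have h3 : ∑ x ∈ Finset.range (M + 1) ×ˢ Finset.range (M + 1), w x ≤ 22.2 := by
      refine (sum_wt4_le zero_le_one M).trans ?_
      have := exp_two_lt
      norm_num at this ⊢
      linarith
    rw [← Finset.sum_sdiff hsub] at h3
    have h7 : ∑ x ∈ Finset.range 2 ×ˢ Finset.range 2, w x = 8 := by
      rw [Finset.sum_product]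
      simp [hw, Finset.sum_range_succ]
      norm_num
    rw [h7] at h3
    linarith
  have h3 : |∑ x ∈ (Finset.range (M + 1) ×ˢ Finset.range (M + 1)) \ (Finset.range 2 ×ˢ Finset.range 2), t x|
      ≤ |c| * q ^ 2 * 15 := by
    refine (Finset.abs_sum_le_sum_abs _ _).trans ((Finset.sum_le_sum h1).trans ?_)
    rw [← Finset.mul_sum]
    gcongr
  have h4 : |4 * c * q ^ 2 / (1 + q)| ≤ 4 * |c| * q ^ 2 := by
    rw [abs_div, abs_mul, abs_mul, abs_of_pos (by positivity : (0 : ℝ) < 4),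
      abs_of_pos (by positivity : 0 < q ^ 2), abs_of_pos (by positivity : 0 < 1 + q)]
    apply div_le_self (by positivity)
    linarith
  set S := ∑ x ∈ (Finset.range (M + 1) ×ˢ Finset.range (M + 1)) \ (Finset.range 2 ×ˢ Finset.range 2), t x
  have e4 : S + (1 + (4 * c + c ^ 2) * q - 4 * c * q ^ 2 / (1 + q)) - (1 + (4 * c + c ^ 2) * q)
      = S - 4 * c * q ^ 2 / (1 + q) := by ring
  rw [e4]
  refine (abs_sub _ _).trans ?_
  calc |S| + |4 * c * q ^ 2 / (1 + q)| ≤ |c| * q ^ 2 * 15 + 4 * |c| * q ^ 2 := by gcongr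
    _ = _ := by ring

/-- the local fourth power form of the majorant -/
lemma local_K4_two {p : ℕ} (hp : p.Prime) (M : ℕ) :
    |BK K4 (expo 2 M {p}) (expo 2 M {p})| ≤ Real.exp (274 * (p : ℝ)⁻¹) := by
  rw [BK_local]
  simp_rw [K4_pow hp]
  have hp0 : (0 : ℝ) < p := by exact_mod_cast hp.pos
  have hr0 := rr_nonneg hp.one_le
  have hr1 := rr_le_one p
  set r := rr p with hr
  set q := (p : ℝ)⁻¹ with hq
  have hq0 : 0 < q := by positivity
  have hq1 : q ≤ 1 := inv_le_one_of_one_le₀ (by exact_mod_cast hp.one_le)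
  have hnn : ∀ i l : ℕ, 0 ≤ ((2 : ℝ) ^ i / (i.factorial : ℝ)) * ((2 : ℝ) ^ l / (l.factorial : ℝ)) *
      (q ^ max i l * (1 + |(i : ℝ) - l| * r)) :=
    fun i l => by positivity
  rw [abs_of_nonneg (Finset.sum_nonneg fun i _ => Finset.sum_nonneg fun l _ => hnn i l)]
  set t : ℕ × ℕ → ℝ := fun x => ((2 : ℝ) ^ x.1 / (x.1.factorial : ℝ)) * ((2 : ℝ) ^ x.2 / (x.2.factorial : ℝ)) *
    (q ^ max x.1 x.2 * (1 + |(x.1 : ℝ) - x.2| * r)) with ht
  set w : ℕ × ℕ → ℝ := fun x => ((2 : ℝ) ^ x.1 / (x.1.factorial : ℝ)) * ((2 : ℝ) ^ x.2 / (x.2.factorial : ℝ))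
    * (1 + ((x.1 : ℝ) + x.2)) with hw
  have e1 : ∑ i ∈ Finset.range (M + 1), ∑ l ∈ Finset.range (M + 1),
        ((2 : ℝ) ^ i / (i.factorial : ℝ)) * ((2 : ℝ) ^ l / (l.factorial : ℝ)) *
          (q ^ max i l * (1 + |(i : ℝ) - l| * r))
      = ∑ x ∈ Finset.range (M + 1) ×ˢ Finset.range (M + 1), t x := by
    rw [Finset.sum_product]
  rw [e1]
  have h00 : (0, 0) ∈ Finset.range (M + 1) ×ˢ Finset.range (M + 1) := by simp
  rw [← Finset.add_sum_erase _ _ h00]
  have h1 : ∑ x ∈ (Finset.range (M + 1) ×ˢ Finset.range (M + 1)).erase (0, 0), t x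
      ≤ q * ∑ x ∈ (Finset.range (M + 1) ×ˢ Finset.range (M + 1)).erase (0, 0), w x := by
    rw [Finset.mul_sum]
    refine Finset.sum_le_sum fun x hx => ?_
    rw [Finset.mem_erase] at hx
    have hmax : 1 ≤ max x.1 x.2 := by
      by_contra hc
      have h1 : x.1 = 0 := by omega
      have h2 : x.2 = 0 := by omega
      exact hx.1 (Prod.ext h1 h2)
    have a2 : q ^ max x.1 x.2 ≤ q ^ 1 := pow_le_pow_of_le_one hq0.le hq1 hmax
    rw [pow_one] at a2
    have hB : |(x.1 : ℝ) - x.2| * r ≤ (x.1 : ℝ) + x.2 := by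
      have h2 : |(x.1 : ℝ) - x.2| ≤ (x.1 : ℝ) + x.2 := by
        rw [abs_le]
        have := Nat.cast_nonneg (α := ℝ) x.1
        have := Nat.cast_nonneg (α := ℝ) x.2
        constructor <;> linarith
      calc |(x.1 : ℝ) - x.2| * r ≤ ((x.1 : ℝ) + x.2) * 1 := by gcongr
        _ = _ := mul_one _
    rw [ht, hw]
    simp only
    calc (2 : ℝ) ^ x.1 / (x.1.factorial : ℝ) * (2 ^ x.2 / (x.2.factorial : ℝ)) *
          (q ^ max x.1 x.2 * (1 + |(x.1 : ℝ) - x.2| * r))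
        ≤ (2 : ℝ) ^ x.1 / (x.1.factorial : ℝ) * (2 ^ x.2 / (x.2.factorial : ℝ)) *
          (q * (1 + ((x.1 : ℝ) + x.2))) := by gcongr
      _ = _ := by ring
  have h2 : ∑ x ∈ (Finset.range (M + 1) ×ˢ Finset.range (M + 1)).erase (0, 0), w x ≤ 274 := by
    have h3 : ∑ x ∈ Finset.range (M + 1) ×ˢ Finset.range (M + 1), w x ≤ 275 := by
      refine (sum_wt4_le zero_le_two M).trans ?_
      have := exp_four_lt
      norm_num at this ⊢
      linarith
    rw [← Finset.add_sum_erase _ _ h00] at h3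
    have : w (0, 0) = 1 := by simp [hw]
    linarith
  have h3 : t (0, 0) = 1 := by simp [ht]
  have h4 := Real.add_one_le_exp (274 * q)
  have h5 : q * ∑ x ∈ (Finset.range (M + 1) ×ˢ Finset.range (M + 1)).erase (0, 0), w x ≤ q * 274 := by
    gcongr
  linarith

/-- multiplicative kernels give multiplicative forms -/
lemma BK_prod_sup {K : ℕ → ℕ → ℝ} (hK : MulKer K) (s : Finset ℕ) (I : ℕ → Finset ℕ)
    (hI : ∀ i ∈ s, ∀ j ∈ s, i ≠ j → Disjoint (I i) (I j)) (f g : ℕ → DP)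
    (hf : ∀ j ∈ s, Sup (Smo (I j)) (f j)) (hg : ∀ j ∈ s, Sup (Smo (I j)) (g j)) :
    BK K (∏ j ∈ s, f j) (∏ j ∈ s, g j) = ∏ j ∈ s, BK K (f j) (g j) := by
  classical
  induction s using Finset.induction_on with
  | empty =>
    simp only [Finset.prod_empty]
    rw [MonoidAlgebra.one_def, BK_single, hK.1]
    norm_num
  | insert a s ha ih =>
    rw [Finset.prod_insert ha, Finset.prod_insert ha, Finset.prod_insert ha]
    have hf' : ∀ j ∈ s, Sup (Smo (I j)) (f j) := fun j hj => hf j (Finset.mem_insert_of_mem hj)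
    have hg' : ∀ j ∈ s, Sup (Smo (I j)) (g j) := fun j hj => hg j (Finset.mem_insert_of_mem hj)
    have hdis : Disjoint (I a : Set ℕ) (⋃ j ∈ s, (I j : Set ℕ)) := by
      rw [Set.disjoint_iUnion₂_right]
      intro j hj
      rw [Finset.disjoint_coe]
      exact hI a (Finset.mem_insert_self _ _) j (Finset.mem_insert_of_mem hj)
        (by rintro rfl; exact ha hj)
    rw [BK_mul_sup K (hf a (Finset.mem_insert_self _ _)) (hg a (Finset.mem_insert_self _ _))
      (sup_prod_Smo s I f hf') (sup_prod_Smo s I g hg') (hK.2 _ _ hdis)]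
    rw [ih (fun i hi j hj hij => hI i (Finset.mem_insert_of_mem hi) j (Finset.mem_insert_of_mem hj) hij)
      hf' hg']

/-- the form of the product of local factors as a product -/
lemma FF_prod {K : ℕ → ℕ → ℝ} (hK : MulKer K) {I : Finset ℕ} (hI : ∀ p ∈ I, p.Prime) (c : ℝ) (M : ℕ) :
    BK K (FF c M I) (FF c M I) = ∏ p ∈ I, BK K (expo c M {p}) (expo c M {p}) := by
  unfold FF
  exact BK_prod_sup hK I (fun p => {p}) disj_single _ _
    (fun p hp => sup_expo (prime_single (hI p hp)) _ _)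
    (fun p hp => sup_expo (prime_single (hI p hp)) _ _)

lemma inv_prime_bounds {p : ℕ} (hpp : p.Prime) : 0 < (p : ℝ)⁻¹ ∧ (p : ℝ)⁻¹ ≤ 1 / 2 := by
  have hp2 : (2 : ℝ) ≤ p := by exact_mod_cast hpp.two_le
  refine ⟨by positivity, ?_⟩
  rw [one_div]; exact inv_anti₀ (by norm_num) hp2

lemma FF4_upper {I : Finset ℕ} (hI : ∀ p ∈ I, p.Prime) {c : ℝ} (hc : |c| ≤ 1 / 2) {M : ℕ} (hM : 1 ≤ M) :
    |BK K4 (FF c M I) (FF c M I)| ≤ Real.exp ((4 * c + c ^ 2) * VV I + 19 * |c| * V2 I) := by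
  rw [FF_prod mulKer_K4 hI, Finset.abs_prod]
  have e : Real.exp ((4 * c + c ^ 2) * VV I + 19 * |c| * V2 I)
      = ∏ p ∈ I, Real.exp ((4 * c + c ^ 2) * (p : ℝ)⁻¹ + 19 * |c| * ((p : ℝ)⁻¹) ^ 2) := by
    rw [← Real.exp_sum, Finset.sum_add_distrib, ← Finset.mul_sum, ← Finset.mul_sum]
    rfl
  rw [e]
  refine Finset.prod_le_prod (fun _ _ => abs_nonneg _) fun p hp => ?_
  have hpp := hI p hp
  have h1 := local_K4 hpp (by linarith : |c| ≤ 1) hM
  obtain ⟨hq0, hq1⟩ := inv_prime_bounds hpp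
  set q := (p : ℝ)⁻¹ with hq
  set B := BK K4 (expo c M {p}) (expo c M {p}) with hB
  have h2 := Real.add_one_le_exp ((4 * c + c ^ 2) * q + 19 * |c| * q ^ 2)
  rw [abs_le] at h1 ⊢
  have h6 : 0 ≤ 1 + (4 * c + c ^ 2) * q := by
    have h7 : -(4 * |c|) ≤ 4 * c + c ^ 2 := by
      have := neg_abs_le c
      nlinarith [sq_nonneg c]
    have h8 := abs_nonneg c
    nlinarith
  constructor
  · linarith [h1.1]
  · linarith [h1.2]

lemma one_add_ge_exp {x : ℝ} (hx : |x| ≤ 1 / 2) : Real.exp (x - x ^ 2) ≤ 1 + x := by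
  have h1 := abs_le.mp hx
  have hp : 0 < 1 + x := by linarith
  rcases le_total 0 x with h | h
  · rw [← Real.le_log_iff_exp_le hp]
    have h2 : 1 - (1 + x)⁻¹ ≤ Real.log (1 + x) := Real.one_sub_inv_le_log_of_pos hp
    refine le_trans ?_ h2
    rw [← sub_nonneg]
    have : 1 - (1 + x)⁻¹ - (x - x ^ 2) = x ^ 3 / (1 + x) := by field_simp; ring
    rw [this]; positivity
  · have h3 : Real.exp (x - x ^ 2) = (Real.exp (x ^ 2 - x))⁻¹ := by
      rw [← Real.exp_neg]; congr 1; ring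
    have hy : 0 ≤ x ^ 2 - x := by nlinarith [sq_nonneg x]
    have h4 := Real.quadratic_le_exp_of_nonneg hy
    rw [h3, inv_le_iff_one_le_mul₀' (Real.exp_pos _)]
    have h5 : 1 ≤ (1 + (x ^ 2 - x) + (x ^ 2 - x) ^ 2 / 2) * (1 + x) := by
      have e : (1 + (x ^ 2 - x) + (x ^ 2 - x) ^ 2 / 2) * (1 + x)
          = 1 + x ^ 2 / 2 * (1 + x - x ^ 2 + x ^ 3) := by ring
      rw [e]
      have : 0 ≤ 1 + x - x ^ 2 + x ^ 3 := by nlinarith [sq_nonneg x, sq_nonneg (x + 1 / 2)]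
      have : 0 ≤ x ^ 2 / 2 * (1 + x - x ^ 2 + x ^ 3) := by positivity
      linarith
    refine h5.trans ?_
    gcongr

/-- lower bound for the local product, small parameter -/
lemma FF4_lower {I : Finset ℕ} (hI : ∀ p ∈ I, p.Prime) {c : ℝ} (hc : |c| ≤ 1 / 40) {M : ℕ} (hM : 1 ≤ M) :
    Real.exp ((4 * c + c ^ 2) * VV I - 24 * |c| * V2 I) ≤ BK K4 (FF c M I) (FF c M I) := by
  rw [FF_prod mulKer_K4 hI]
  have e : Real.exp ((4 * c + c ^ 2) * VV I - 24 * |c| * V2 I)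
      = ∏ p ∈ I, Real.exp ((4 * c + c ^ 2) * (p : ℝ)⁻¹ - 24 * |c| * ((p : ℝ)⁻¹) ^ 2) := by
    rw [← Real.exp_sum, Finset.sum_sub_distrib, ← Finset.mul_sum, ← Finset.mul_sum]
    rfl
  rw [e]
  refine Finset.prod_le_prod (fun _ _ => (Real.exp_pos _).le) fun p hp => ?_
  have hpp := hI p hp
  have h1 := (abs_le.mp (local_K4 hpp (by linarith : |c| ≤ 1) hM)).1
  obtain ⟨hq0, hq1⟩ := inv_prime_bounds hpp
  set q := (p : ℝ)⁻¹ with hq
  set B := BK K4 (expo c M {p}) (expo c M {p}) with hB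
  set x := (4 * c + c ^ 2) * q - 19 * |c| * q ^ 2 with hx
  have hc0 := abs_nonneg c
  have hca := abs_le.mp (le_refl |c|)
  have hx1 : |x| ≤ 14 * |c| * q := by
    rw [hx]
    refine (abs_sub _ _).trans ?_
    rw [abs_mul, abs_of_pos hq0, abs_of_nonneg (by positivity : 0 ≤ 19 * |c| * q ^ 2)]
    have h3 : |4 * c + c ^ 2| ≤ 4 * |c| + |c| * (1 / 40) := by
      refine (abs_add_le _ _).trans ?_
      rw [abs_mul, abs_pow, abs_of_pos (by norm_num : (0 : ℝ) < 4), sq]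
      gcongr
    have h4 : |4 * c + c ^ 2| * q ≤ (4 * |c| + |c| * (1 / 40)) * q := by gcongr
    have h5 : 19 * |c| * q ^ 2 ≤ 19 * |c| * (q * (1 / 2)) := by
      rw [sq]; gcongr
    nlinarith [mul_nonneg hc0 hq0.le]
  have hx2 : |x| ≤ 1 / 2 := by
    refine hx1.trans ?_
    calc 14 * |c| * q ≤ 14 * (1 / 40) * (1 / 2) := by gcongr
      _ ≤ 1 / 2 := by norm_num
  have h2 := one_add_ge_exp hx2
  have h6 : x ^ 2 ≤ 5 * |c| * q ^ 2 := by
    have : x ^ 2 ≤ (14 * |c| * q) ^ 2 := by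
      rw [← sq_abs x]; gcongr
    refine this.trans ?_
    have h7 : (14 * |c| * q) ^ 2 = 196 * |c| * |c| * q ^ 2 := by ring
    rw [h7]
    have h8 : 196 * |c| * |c| * q ^ 2 ≤ 196 * |c| * (1 / 40) * q ^ 2 := by gcongr
    nlinarith [mul_nonneg hc0 (sq_nonneg q)]
  have h7 : (4 * c + c ^ 2) * q - 24 * |c| * q ^ 2 ≤ x - x ^ 2 := by
    have : (4 * c + c ^ 2) * q - 24 * |c| * q ^ 2 = x - 5 * |c| * q ^ 2 := by rw [hx]; ring
    rw [this]; linarith
  calc Real.exp ((4 * c + c ^ 2) * q - 24 * |c| * q ^ 2) ≤ Real.exp (x - x ^ 2) := Real.exp_le_exp.mpr h7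
    _ ≤ 1 + x := h2
    _ ≤ B := by rw [hx]; linarith

lemma FF4_two {I : Finset ℕ} (hI : ∀ p ∈ I, p.Prime) (M : ℕ) :
    |BK K4 (FF 2 M I) (FF 2 M I)| ≤ Real.exp (274 * VV I) := by
  rw [FF_prod mulKer_K4 hI, Finset.abs_prod]
  have e : Real.exp (274 * VV I) = ∏ p ∈ I, Real.exp (274 * (p : ℝ)⁻¹) := by
    rw [← Real.exp_sum, ← Finset.mul_sum]; rfl
  rw [e]
  exact Finset.prod_le_prod (fun _ _ => abs_nonneg _) fun p hp => local_K4_two (hI p hp) M

/-- comparison of the truncated exponential with the product of the local ones under a form -/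
lemma expo_FF_diff {K : ℕ → ℕ → ℝ} (hK : ∀ a b, 0 ≤ K a b) {I : Finset ℕ} (hI : ∀ p ∈ I, p.Prime)
    {c : ℝ} (hc : |c| ≤ 1) (M : ℕ) :
    |BK K (expo c M I) (expo c M I) - BK K (FF c M I) (FF c M I)|
      ≤ 3 * (|c| / 2 ^ M) * BK K (FF 2 M I) (FF 2 M I) := by
  have hd := dom_diff hI hc M M le_rfl
  set F := FF c M I with hF
  set A := expo c M I with hA
  set G := FF 2 M I with hG
  set δ := |c| / 2 ^ M with hδ
  have hδ0 : 0 ≤ δ := by positivity
  have hδ1 : δ ≤ 1 := by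
    rw [hδ, div_le_one (by positivity)]
    exact hc.trans (one_le_pow₀ (by norm_num))
  set R := F - A with hR
  have hFG : Dom F G := dom_FF hI (by linarith) M
  have hAe : A = F + (-1 : ℝ) • R := by rw [hR, neg_one_smul]; abel
  have h1 : |BK K F R| ≤ BK K G (δ • G) := abs_BK_le_of_dom hK hFG hd
  have h2 : |BK K R F| ≤ BK K (δ • G) G := abs_BK_le_of_dom hK hd hFG
  have h3 : |BK K R R| ≤ BK K (δ • G) (δ • G) := abs_BK_le_of_dom hK hd hd
  rw [BK_smul_right] at h1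
  rw [BK_smul_left] at h2
  rw [BK_smul_left, BK_smul_right] at h3
  have hG0 : 0 ≤ BK K G G := by
    by_contra h
    rw [not_le] at h
    have h4 : (0 : ℝ) ≤ BK K G G := by
      have hGd : Dom G G := dom_FF hI (by norm_num) M
      exact (abs_nonneg _).trans (abs_BK_le_of_dom hK hGd hGd)
    linarith
  have e1 : BK K A A - BK K F F = - BK K F R - BK K R F + BK K R R := by
    rw [hAe, BK_add_left, BK_add_right, BK_add_right, BK_smul_left, BK_smul_right, BK_smul_left,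
      BK_smul_right]
    ring
  rw [e1]
  have h9 : |BK K R R| ≤ δ * BK K G G := by
    refine h3.trans ?_
    calc δ * (δ * BK K G G) ≤ δ * (1 * BK K G G) := by gcongr
      _ = _ := by ring
  rw [abs_le] at *
  constructor <;> nlinarith [h1.1, h1.2, h2.1, h2.2, h9.1, h9.2]

/-- **upper bound** for the truncated exponential -/
lemma expo4_upper {I : Finset ℕ} (hI : ∀ p ∈ I, p.Prime) {c : ℝ} (hc : |c| ≤ 1 / 2) {M : ℕ} (hM : 1 ≤ M) :
    |BK K4 (expo c M I) (expo c M I)|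
      ≤ Real.exp ((4 * c + c ^ 2) * VV I + 19 * |c| * V2 I + 3 * (|c| / 2 ^ M) * Real.exp (276 * VV I)) := by
  have h1 := expo_FF_diff K4_nonneg hI (by linarith : |c| ≤ 1) M
  have h2 := FF4_upper hI hc hM
  have h3 := FF4_two hI M
  set E := Real.exp ((4 * c + c ^ 2) * VV I + 19 * |c| * V2 I) with hE
  have hE0 : 0 < E := Real.exp_pos _
  have hVn := VV_nonneg I
  have hV2 := V2_nonneg I
  have hG : Real.exp (274 * VV I) ≤ Real.exp (276 * VV I) * E := by
    rw [hE, ← Real.exp_add]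
    apply Real.exp_le_exp.mpr
    have h5 : -(2 : ℝ) ≤ 4 * c + c ^ 2 := by
      have := abs_le.mp hc
      nlinarith [sq_nonneg c]
    have h6 : 0 ≤ 19 * |c| * V2 I := by positivity
    nlinarith
  set δ := |c| / 2 ^ M with hδ
  have hδ0 : 0 ≤ δ := by positivity
  have hx2 := Real.add_one_le_exp (3 * δ * Real.exp (276 * VV I))
  rw [Real.exp_add, ← hE]
  have h4 : |BK K4 (expo c M I) (expo c M I)| ≤ |BK K4 (FF c M I) (FF c M I)|
      + 3 * δ * BK K4 (FF 2 M I) (FF 2 M I) := by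
    have := abs_sub_abs_le_abs_sub (BK K4 (expo c M I) (expo c M I)) (BK K4 (FF c M I) (FF c M I))
    linarith
  refine h4.trans ?_
  calc |BK K4 (FF c M I) (FF c M I)| + 3 * δ * BK K4 (FF 2 M I) (FF 2 M I)
      ≤ E + 3 * δ * (Real.exp (276 * VV I) * E) := by
        gcongr
        exact (le_abs_self _).trans (h3.trans hG)
    _ = E * (3 * δ * Real.exp (276 * VV I) + 1) := by ring
    _ ≤ _ := by gcongr

/-- **lower bound** for the truncated exponential -/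
lemma expo4_lower {I : Finset ℕ} (hI : ∀ p ∈ I, p.Prime) {c : ℝ} (hc : |c| ≤ 1 / 40) {M : ℕ} (hM : 1 ≤ M) :
    Real.exp ((4 * c + c ^ 2) * VV I - 24 * |c| * V2 I) * (1 - 3 * (|c| / 2 ^ M) * Real.exp (276 * VV I))
      ≤ BK K4 (expo c M I) (expo c M I) := by
  have h1 := (abs_le.mp (expo_FF_diff K4_nonneg hI (by linarith : |c| ≤ 1) M)).1
  have h2 := FF4_lower hI hc hM
  have h3 := FF4_two hI M
  set E := Real.exp ((4 * c + c ^ 2) * VV I - 24 * |c| * V2 I) with hE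
  have hE0 : 0 < E := Real.exp_pos _
  have hVn := VV_nonneg I
  have hV2 := V2_nonneg I
  have hV21 : V2 I ≤ VV I := by
    unfold V2 VV
    refine Finset.sum_le_sum fun p hp => ?_
    obtain ⟨a, b⟩ := inv_prime_bounds (hI p hp)
    nlinarith
  have hG : Real.exp (274 * VV I) ≤ Real.exp (276 * VV I) * E := by
    rw [hE, ← Real.exp_add]
    apply Real.exp_le_exp.mpr
    have hcc := abs_le.mp hc
    have h5 : -(1 : ℝ) ≤ 4 * c + c ^ 2 := by nlinarith [sq_nonneg c]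
    have h6 : 24 * |c| * V2 I ≤ 1 * VV I := by
      have : 24 * |c| ≤ 1 := by linarith
      gcongr
    nlinarith
  set δ := |c| / 2 ^ M with hδ
  have hδ0 : 0 ≤ δ := by positivity
  have h5 : 3 * δ * BK K4 (FF 2 M I) (FF 2 M I) ≤ 3 * δ * (Real.exp (276 * VV I) * E) := by
    gcongr
    exact (le_abs_self _).trans (h3.trans hG)
  have e : E * (1 - 3 * δ * Real.exp (276 * VV I)) = E - 3 * δ * (Real.exp (276 * VV I) * E) := by ring
  rw [e]
  linarith

end Pool.Agent.Lib.MP_f9aece_nt_h97
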