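import Mathlib
import Pool.Agent.Lib.MP_f9aece_nt_h97.K4

/-!
Finite sums over numbers composed of a finite set of primes, bounded by Euler products, and the
energy of a Dirichlet polynomial times the divisor function in terms of the fourth power form.
-/

set_option autoImplicit false

namespace Pool.Agent.Lib.MP_f9aece_nt_h97

open MeasureTheory Set Filter Topology Complex
open Pool.Agent.Lib.MP_f9aece_nt

lemma smo_empty_eq {m : ℕ} (h : m ∈ Smo ((∅ : Finset ℕ) : Set ℕ)) : m = 1 := by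
  by_contra hm
  obtain ⟨p, hp, hd⟩ := Nat.exists_prime_and_dvd hm
  have := h.2 p hp hd
  simp at this

lemma inv_prime_half {p : ℕ} (hpp : p.Prime) : 0 < (p : ℝ)⁻¹ ∧ (p : ℝ)⁻¹ ≤ 1 / 2 := by
  have hp2 : (2 : ℝ) ≤ p := by exact_mod_cast hpp.two_le
  refine ⟨by positivity, ?_⟩
  rw [one_div]; exact inv_anti₀ (by norm_num) hp2

/-- Euler product bound for finite sums over numbers composed of primes of `S` -/
theorem sum_smo_le (S : Finset ℕ) (hS : ∀ p ∈ S, p.Prime) (h : ℕ → ℕ → ℝ)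
    (hn : ∀ p ∈ S, ∀ k, 0 ≤ h p k) (H : ℕ → ℝ)
    (hH : ∀ p ∈ S, ∀ N, ∑ k ∈ Finset.range N, h p k ≤ H p) :
    ∀ F : Finset ℕ, (∀ m ∈ F, m ∈ Smo (S : Set ℕ)) →
      ∑ m ∈ F, ∏ p ∈ S, h p (m.factorization p) ≤ ∏ p ∈ S, H p := by
  classical
  induction S using Finset.induction_on with
  | empty =>
    intro F hF
    simp only [Finset.prod_empty, Finset.sum_const, nsmul_eq_mul, mul_one]
    have : F ⊆ {1} := fun m hm => by rw [Finset.mem_singleton]; exact smo_empty_eq (hF m hm)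
    have h1 := Finset.card_le_card this
    rw [Finset.card_singleton] at h1
    exact_mod_cast h1
  | insert p S hp ih =>
    intro F hF
    have hpp : p.Prime := hS p (Finset.mem_insert_self _ _)
    have hS' : ∀ q ∈ S, q.Prime := fun q hq => hS q (Finset.mem_insert_of_mem hq)
    have hn' : ∀ q ∈ S, ∀ k, 0 ≤ h q k := fun q hq => hn q (Finset.mem_insert_of_mem hq)
    have hH' : ∀ q ∈ S, ∀ N, ∑ k ∈ Finset.range N, h q k ≤ H q :=
      fun q hq => hH q (Finset.mem_insert_of_mem hq)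
    set φ : ℕ → ℕ × ℕ := fun m => (m.factorization p, m / p ^ m.factorization p) with hφ
    set N := F.sup (fun m => m.factorization p) + 1 with hN
    set F' := F.image (fun m => m / p ^ m.factorization p) with hF'
    have hmul : ∀ m : ℕ, p ^ m.factorization p * (m / p ^ m.factorization p) = m :=
      fun m => Nat.ordProj_mul_ordCompl_eq_self m p
    have hinj : Set.InjOn φ (F : Set ℕ) := by
      intro a _ b _ hab
      simp only [hφ, Prod.mk.injEq] at hab
      rw [← hmul a, ← hmul b, hab.2, hab.1]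
    have hsmo : ∀ m ∈ F, m / p ^ m.factorization p ∈ Smo (S : Set ℕ) := by
      intro m hm
      have hm1 := hF m hm
      refine ⟨(Nat.ordCompl_pos p hm1.1).ne', fun q hq hd => ?_⟩
      have h1 : q ∣ m := hd.trans (Nat.ordCompl_dvd m p)
      have h2 := hm1.2 q hq h1
      rw [Finset.coe_insert, Set.mem_insert_iff] at h2
      rcases h2 with h2 | h2
      · subst h2
        exact absurd hd (Nat.not_dvd_ordCompl hpp hm1.1)
      · exact h2
    have hfac : ∀ m ∈ F, ∏ q ∈ insert p S, h q (m.factorization q)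
        = h p (φ m).1 * ∏ q ∈ S, h q ((φ m).2.factorization q) := by
      intro m hm
      rw [Finset.prod_insert hp]
      congr 1
      refine Finset.prod_congr rfl fun q hq => ?_
      have hqp : q ≠ p := by rintro rfl; exact hp hq
      simp only [hφ]
      rw [Nat.factorization_ordCompl, Finsupp.erase_ne hqp]
    rw [Finset.sum_congr rfl hfac]
    have himg : F.image φ ⊆ Finset.range N ×ˢ F' := by
      intro x hx
      rw [Finset.mem_image] at hx
      obtain ⟨m, hm, rfl⟩ := hx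
      rw [Finset.mem_product]
      refine ⟨?_, Finset.mem_image_of_mem _ hm⟩
      rw [Finset.mem_range, hN]
      exact Nat.lt_succ_of_le (Finset.le_sup (f := fun m => m.factorization p) hm)
    have hnn : ∀ x ∈ Finset.range N ×ˢ F', 0 ≤ h p x.1 * ∏ q ∈ S, h q (x.2.factorization q) :=
      fun x _ => mul_nonneg (hn p (Finset.mem_insert_self _ _) _)
        (Finset.prod_nonneg fun q hq => hn' q hq _)
    calc ∑ m ∈ F, h p (φ m).1 * ∏ q ∈ S, h q ((φ m).2.factorization q)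
        = ∑ x ∈ F.image φ, h p x.1 * ∏ q ∈ S, h q (x.2.factorization q) := by
          rw [Finset.sum_image hinj]
      _ ≤ ∑ x ∈ Finset.range N ×ˢ F', h p x.1 * ∏ q ∈ S, h q (x.2.factorization q) :=
          Finset.sum_le_sum_of_subset_of_nonneg himg fun x hx _ => hnn x hx
      _ = (∑ k ∈ Finset.range N, h p k) * ∑ m ∈ F', ∏ q ∈ S, h q (m.factorization q) := by
          rw [Finset.sum_product, Finset.sum_mul_sum]
      _ ≤ H p * ∏ q ∈ S, H q := by
          have h1 := hH p (Finset.mem_insert_self _ _) N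
          have h2 := ih hS' hn' hH' F' (by
            intro m hm
            rw [hF', Finset.mem_image] at hm
            obtain ⟨x, hx, rfl⟩ := hm
            exact hsmo x hx)
          have h3 : 0 ≤ ∑ m ∈ F', ∏ q ∈ S, h q (m.factorization q) :=
            Finset.sum_nonneg fun m _ => Finset.prod_nonneg fun q hq => hn' q hq _
          have h4 : 0 ≤ H p := (Finset.sum_nonneg fun k _ => hn p (Finset.mem_insert_self _ _) k).trans h1
          gcongr
      _ = _ := by rw [Finset.prod_insert hp]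

lemma sum_lin_le {x : ℝ} (h0 : 0 ≤ x) (h1 : x < 1) (N : ℕ) :
    ∑ k ∈ Finset.range N, ((k : ℝ) + 1) * x ^ k ≤ 1 / (1 - x) ^ 2 := by
  have h := hasSum_choose_mul_geometric_of_norm_lt_one (𝕜 := ℝ) 1 (r := x)
    (by rw [Real.norm_eq_abs, abs_of_nonneg h0]; exact h1)
  have h2 : ∀ k : ℕ, (((k + 1).choose 1 : ℕ) : ℝ) * x ^ k = ((k : ℝ) + 1) * x ^ k := by
    intro k; rw [Nat.choose_one_right]; push_cast; ring
  simp_rw [h2] at h
  exact sum_le_hasSum _ (fun k _ => by positivity) h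

lemma hasSum_sq {x : ℝ} (h0 : 0 ≤ x) (h1 : x < 1) :
    HasSum (fun k : ℕ => ((k : ℝ) + 1) ^ 2 * x ^ k) ((1 + x) / (1 - x) ^ 3) := by
  have hx : ‖x‖ < 1 := by rw [Real.norm_eq_abs, abs_of_nonneg h0]; exact h1
  have h := hasSum_choose_mul_geometric_of_norm_lt_one (𝕜 := ℝ) 1 hx
  have h' := hasSum_choose_mul_geometric_of_norm_lt_one (𝕜 := ℝ) 2 hx
  have h3 := (h'.mul_left 2).sub h
  have hne : 1 - x ≠ 0 := by linarith
  have e : 2 * (1 / (1 - x) ^ (2 + 1)) - 1 / (1 - x) ^ (1 + 1) = (1 + x) / (1 - x) ^ 3 := by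
    field_simp; ring
  rw [e] at h3
  have e2 : (fun k : ℕ => ((k : ℝ) + 1) ^ 2 * x ^ k)
      = fun k : ℕ => 2 * ((((k + 2).choose 2 : ℕ) : ℝ) * x ^ k) - (((k + 1).choose 1 : ℕ) : ℝ) * x ^ k := by
    funext k
    rw [Nat.choose_one_right, Nat.cast_choose_two]
    push_cast
    ring
  rw [e2]
  exact h3

lemma sum_sq_le {x : ℝ} (h0 : 0 ≤ x) (h1 : x < 1) (N : ℕ) :
    ∑ k ∈ Finset.range N, ((k : ℝ) + 1) ^ 2 * x ^ k ≤ (1 + x) / (1 - x) ^ 3 :=
  sum_le_hasSum _ (fun k _ => by positivity) (hasSum_sq h0 h1)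

/-- the Euler product of the squared divisor function over a finite set of primes -/
noncomputable def DS (S : Finset ℕ) : ℝ := ∏ p ∈ S, (1 + (p : ℝ)⁻¹) / (1 - (p : ℝ)⁻¹) ^ 3

lemma DS_pos {S : Finset ℕ} (hS : ∀ p ∈ S, p.Prime) : 0 < DS S := by
  refine Finset.prod_pos fun p hp => ?_
  obtain ⟨h0, h1⟩ := inv_prime_half (hS p hp)
  have : 0 < 1 - (p : ℝ)⁻¹ := by linarith
  positivity

lemma sum_shift_le {x : ℝ} (h0 : 0 ≤ x) (h1 : x < 1) (i N : ℕ) :
    ∑ k ∈ Finset.range N, ((k : ℝ) + 1) * ((k : ℝ) + 1 + i) * x ^ k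
      ≤ (1 + x) / (1 - x) ^ 3 * (1 + i * ((1 - x) / (1 + x))) := by
  have e : ∑ k ∈ Finset.range N, ((k : ℝ) + 1) * ((k : ℝ) + 1 + i) * x ^ k
      = ∑ k ∈ Finset.range N, ((k : ℝ) + 1) ^ 2 * x ^ k
        + i * ∑ k ∈ Finset.range N, ((k : ℝ) + 1) * x ^ k := by
    rw [Finset.mul_sum, ← Finset.sum_add_distrib]
    refine Finset.sum_congr rfl fun k _ => ?_
    ring
  rw [e]
  have h2 := sum_sq_le h0 h1 N
  have h3 := sum_lin_le h0 h1 N
  have hne : 0 < 1 - x := by linarith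
  have e2 : (1 + x) / (1 - x) ^ 3 * (1 + i * ((1 - x) / (1 + x)))
      = (1 + x) / (1 - x) ^ 3 + i * (1 / (1 - x) ^ 2) := by
    field_simp
  rw [e2]
  gcongr

/-- the divisor function -/
noncomputable def dv (n : ℕ) : ℝ := (n.divisors.card : ℝ)

lemma dv_nonneg (n : ℕ) : 0 ≤ dv n := Nat.cast_nonneg _

lemma prod_factorization_smo {S : Finset ℕ} {n : ℕ} (hn : n ∈ Smo (S : Set ℕ)) (g : ℕ → ℕ → ℝ)
    (hg : ∀ p, g p 0 = 1) :
    ∏ p ∈ n.primeFactors, g p (n.factorization p) = ∏ p ∈ S, g p (n.factorization p) := by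
  refine Finset.prod_subset ?_ fun p _ hp => ?_
  · intro p hp
    exact hn.2 p (Nat.prime_of_mem_primeFactors hp) (Nat.dvd_of_mem_primeFactors hp)
  · rw [← Nat.support_factorization, Finsupp.notMem_support_iff] at hp
    rw [hp, hg]

lemma dv_smo {S : Finset ℕ} {n : ℕ} (hn : n ∈ Smo (S : Set ℕ)) :
    dv n = ∏ p ∈ S, ((n.factorization p : ℝ) + 1) := by
  unfold dv
  rw [Nat.card_divisors hn.1]
  push_cast
  exact prod_factorization_smo hn (fun _ k => (k : ℝ) + 1) (fun p => by simp)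

lemma ts_smo {S : Finset ℕ} {n : ℕ} (hn : n ∈ Smo (S : Set ℕ)) :
    ts n = ∏ p ∈ S, (1 + (n.factorization p : ℝ) * rr p) := by
  unfold ts Finsupp.prod
  rw [Nat.support_factorization]
  exact prod_factorization_smo hn (fun p k => 1 + (k : ℝ) * rr p) (fun p => by simp)

lemma inv_smo {S : Finset ℕ} {n : ℕ} (hn : n ∈ Smo (S : Set ℕ)) :
    ((n : ℝ))⁻¹ = ∏ p ∈ S, ((p : ℝ)⁻¹) ^ n.factorization p := by
  have h1 : (n : ℝ) = ∏ p ∈ n.primeFactors, (p : ℝ) ^ n.factorization p := by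
    have := Nat.prod_factorization_pow_eq_self hn.1
    conv_lhs => rw [← this]
    rw [Finsupp.prod, Nat.support_factorization]
    push_cast
    rfl
  rw [h1, ← Finset.prod_inv_distrib]
  rw [← prod_factorization_smo hn (fun p k => ((p : ℝ)⁻¹) ^ k) (fun p => by simp)]
  exact Finset.prod_congr rfl fun p _ => by rw [inv_pow]

lemma dvd_smo {A : Set ℕ} {a b : ℕ} (hb : b ∈ Smo A) (h : a ∣ b) : a ∈ Smo A :=
  ⟨fun h0 => hb.1 (by rw [h0] at h; exact Nat.eq_zero_of_zero_dvd h),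
    fun p hp hd => hb.2 p hp (hd.trans h)⟩

/-- finite sums of products of two shifted divisor functions -/
lemma sum_dv_le {S : Finset ℕ} (hS : ∀ p ∈ S, p.Prime) {a b : ℕ} (ha : a ∈ Smo (S : Set ℕ))
    (hb : b ∈ Smo (S : Set ℕ)) (F : Finset ℕ) (hF : ∀ m ∈ F, m ∈ Smo (S : Set ℕ)) :
    ∑ m ∈ F, (if a ∣ m then dv (m / a) else 0) * (if b ∣ m then dv (m / b) else 0) * (m : ℝ)⁻¹
      ≤ DS S * K4 a b := by
  classical
  set l := Nat.lcm a b with hl
  have ha0 := Nat.pos_of_ne_zero ha.1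
  have hb0 := Nat.pos_of_ne_zero hb.1
  have hl0 : 0 < l := Nat.lcm_pos ha0 hb0
  obtain ⟨a1, ha1⟩ := Nat.dvd_lcm_left a b
  obtain ⟨b1, hb1⟩ := Nat.dvd_lcm_right a b
  rw [← hl] at ha1 hb1
  have hg0 : 0 < Nat.gcd a b := Nat.gcd_pos_of_pos_left _ ha0
  have hgl : Nat.gcd a b * l = a * b := Nat.gcd_mul_lcm a b
  have ea : a / Nat.gcd a b = b1 := by
    apply Nat.div_eq_of_eq_mul_right hg0
    have : a * b = Nat.gcd a b * b1 * b := by rw [← hgl, hb1]; ring
    exact Nat.eq_of_mul_eq_mul_right hb0 this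
  have eb : b / Nat.gcd a b = a1 := by
    apply Nat.div_eq_of_eq_mul_right hg0
    have : a * b = a * (Nat.gcd a b * a1) := by rw [← hgl, ha1]; ring
    exact Nat.eq_of_mul_eq_mul_left ha0 this
  have hcop : Nat.Coprime a1 b1 := by
    rw [← ea, ← eb]
    exact (Nat.coprime_div_gcd_div_gcd hg0).symm
  have hlS : l ∈ Smo (S : Set ℕ) := by
    refine ⟨hl0.ne', fun p hp hd => ?_⟩
    have h1 : p ∣ a * b := hd.trans (Nat.lcm_dvd_mul a b)
    rcases (hp.dvd_mul).mp h1 with h | h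
    · exact ha.2 p hp h
    · exact hb.2 p hp h
  have ha1S : a1 ∈ Smo (S : Set ℕ) := dvd_smo hlS (Dvd.intro_left a ha1.symm)
  have hb1S : b1 ∈ Smo (S : Set ℕ) := dvd_smo hlS (Dvd.intro_left b hb1.symm)
  -- local terms
  set h : ℕ → ℕ → ℝ := fun p k => ((k : ℝ) + 1) * ((k : ℝ) + 1 + ((a1.factorization p + b1.factorization p : ℕ) : ℝ))
    * ((p : ℝ)⁻¹) ^ k with hh
  set H : ℕ → ℝ := fun p => (1 + (p : ℝ)⁻¹) / (1 - (p : ℝ)⁻¹) ^ 3
    * (1 + ((a1.factorization p + b1.factorization p : ℕ) : ℝ) * rr p) with hH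
  have hmin : ∀ p, a1.factorization p = 0 ∨ b1.factorization p = 0 := by
    intro p
    by_contra hc
    push Not at hc
    have h1 : p ∣ a1 := Nat.dvd_of_factorization_pos hc.1
    have h2 : p ∣ b1 := Nat.dvd_of_factorization_pos hc.2
    have h3 : p ∣ 1 := by rw [← hcop]; exact Nat.dvd_gcd h1 h2
    have h4 := Nat.dvd_one.mp h3
    rw [h4, Nat.factorization_one_right] at hc
    exact hc.1 rfl
  have hlocal : ∀ p ∈ S, ∀ N, ∑ k ∈ Finset.range N, h p k ≤ H p := by
    intro p hp N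
    obtain ⟨h0, h1⟩ := inv_prime_half (hS p hp)
    have h2 := sum_shift_le h0.le (by linarith : (p : ℝ)⁻¹ < 1) (a1.factorization p + b1.factorization p) N
    have h3 : rr p = (1 - (p : ℝ)⁻¹) / (1 + (p : ℝ)⁻¹) := by
      have hp0 : (p : ℝ) ≠ 0 := by exact_mod_cast (hS p hp).ne_zero
      unfold rr; field_simp
    simp only [hh, hH]
    rw [h3]
    exact h2
  set F' := (F.filter (l ∣ ·)).image (fun m => m / l) with hF'
  have hF'S : ∀ m ∈ F', m ∈ Smo (S : Set ℕ) := by
    intro m hm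
    rw [hF', Finset.mem_image] at hm
    obtain ⟨x, hx, rfl⟩ := hm
    rw [Finset.mem_filter] at hx
    exact dvd_smo (hF x hx.1) (Nat.div_dvd_of_dvd hx.2)
  have hmain := sum_smo_le S hS h (fun p _ k => by simp only [hh]; positivity) H hlocal F' hF'S
  -- rewriting the sum
  have hterm : ∀ k, k ∈ Smo (S : Set ℕ) →
      dv (a1 * k) * dv (b1 * k) * ((k : ℝ))⁻¹ = ∏ p ∈ S, h p (k.factorization p) := by
    intro k hk
    rw [dv_smo (mul_mem_Smo ha1S hk), dv_smo (mul_mem_Smo hb1S hk), inv_smo hk,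
      ← Finset.prod_mul_distrib, ← Finset.prod_mul_distrib]
    refine Finset.prod_congr rfl fun p _ => ?_
    rw [Nat.factorization_mul ha1S.1 hk.1, Nat.factorization_mul hb1S.1 hk.1]
    simp only [hh, Finsupp.add_apply]
    rcases hmin p with h0 | h0 <;> rw [h0] <;> push_cast <;> ring
  have hsum : ∑ m ∈ F, (if a ∣ m then dv (m / a) else 0) * (if b ∣ m then dv (m / b) else 0) * (m : ℝ)⁻¹
      = (l : ℝ)⁻¹ * ∑ k ∈ F', ∏ p ∈ S, h p (k.factorization p) := by
    have e1 : ∑ m ∈ F, (if a ∣ m then dv (m / a) else 0) * (if b ∣ m then dv (m / b) else 0) * (m : ℝ)⁻¹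
        = ∑ m ∈ F.filter (l ∣ ·), dv (m / a) * dv (m / b) * (m : ℝ)⁻¹ := by
      rw [Finset.sum_filter]
      refine Finset.sum_congr rfl fun m _ => ?_
      by_cases h1 : a ∣ m
      · by_cases h2 : b ∣ m
        · rw [if_pos h1, if_pos h2, if_pos (Nat.lcm_dvd h1 h2)]
        · rw [if_neg h2, if_neg (fun h3 => h2 ((Nat.dvd_lcm_right a b).trans h3))]; ring
      · rw [if_neg h1, if_neg (fun h3 => h1 ((Nat.dvd_lcm_left a b).trans h3))]; ring
    rw [e1, hF', Finset.sum_image, Finset.mul_sum]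
    · refine Finset.sum_congr rfl fun m hm => ?_
      rw [Finset.mem_filter] at hm
      obtain ⟨k, hk⟩ := hm.2
      have hkS : k ∈ Smo (S : Set ℕ) := dvd_smo (hF m hm.1) ⟨l, by rw [hk, mul_comm]⟩
      have e2 : m / l = k := by rw [hk, Nat.mul_div_cancel_left _ hl0]
      have e3 : m / a = a1 * k := by rw [hk, ha1, mul_assoc, Nat.mul_div_cancel_left _ ha0]
      have e4 : m / b = b1 * k := by rw [hk, hb1, mul_assoc, Nat.mul_div_cancel_left _ hb0]
      rw [e2, e3, e4, ← hterm k hkS, hk]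
      push_cast
      rw [mul_inv]
      ring
    · intro x hx y hy hxy
      simp only [Finset.coe_filter, Set.mem_ofPred_eq] at hx hy
      simp only at hxy
      rw [← Nat.div_mul_cancel hx.2, ← Nat.div_mul_cancel hy.2, hxy]
  rw [hsum]
  have hprod : ∏ p ∈ S, H p = DS S * (ts a1 * ts b1) := by
    simp only [hH]
    rw [ts_smo ha1S, ts_smo hb1S, ← Finset.prod_mul_distrib]
    unfold DS
    have e5 : ∏ p ∈ S, (1 + ((a1.factorization p + b1.factorization p : ℕ) : ℝ) * rr p)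
        = ∏ p ∈ S, (1 + (a1.factorization p : ℝ) * rr p) * (1 + (b1.factorization p : ℝ) * rr p) := by
      refine Finset.prod_congr rfl fun p _ => ?_
      rcases hmin p with h0 | h0 <;> rw [h0] <;> push_cast <;> ring
    rw [← e5, ← Finset.prod_mul_distrib]
  have hlinv : (0 : ℝ) ≤ (l : ℝ)⁻¹ := by positivity
  calc (l : ℝ)⁻¹ * ∑ k ∈ F', ∏ p ∈ S, h p (k.factorization p)
      ≤ (l : ℝ)⁻¹ * ∏ p ∈ S, H p := by gcongr
    _ = DS S * K4 a b := by
        rw [hprod]
        unfold K4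
        rw [K2_eq_inv_lcm ha.1 hb.1, ea, eb]
        ring

/-- convolution of a Dirichlet polynomial with the divisor function -/
noncomputable def cvd (f : DP) (m : ℕ) : ℝ := pair (fun a => if a ∣ m then dv (m / a) else 0) f

/-- **energy bound**, nonnegative coefficients -/
theorem energy_cvd_le {S : Finset ℕ} (hS : ∀ p ∈ S, p.Prime) {f : DP} (hf : Cone (Smo (S : Set ℕ)) f)
    (F : Finset ℕ) (hF : ∀ m ∈ F, m ∈ Smo (S : Set ℕ)) :
    ∑ m ∈ F, cvd f m ^ 2 * (m : ℝ)⁻¹ ≤ DS S * BK K4 f f := by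
  have e1 : ∑ m ∈ F, cvd f m ^ 2 * (m : ℝ)⁻¹
      = pair (fun a => pair (fun b => ∑ m ∈ F, (if a ∣ m then dv (m / a) else 0)
          * (if b ∣ m then dv (m / b) else 0) * (m : ℝ)⁻¹) f) f := by
    simp only [cvd, pair_def]
    have : ∀ a b : ℕ, f.coeff b * ∑ m ∈ F, (if a ∣ m then dv (m / a) else 0)
          * (if b ∣ m then dv (m / b) else 0) * (m : ℝ)⁻¹
        = ∑ m ∈ F, f.coeff b * ((if a ∣ m then dv (m / a) else 0)
          * (if b ∣ m then dv (m / b) else 0) * (m : ℝ)⁻¹) := fun a b => Finset.mul_sum _ _ _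
    simp_rw [this]
    have e2 : ∀ a, f.coeff a * ∑ b ∈ f.coeff.support, ∑ m ∈ F, f.coeff b * ((if a ∣ m then dv (m / a) else 0)
          * (if b ∣ m then dv (m / b) else 0) * (m : ℝ)⁻¹)
        = ∑ m ∈ F, ∑ b ∈ f.coeff.support, f.coeff a * (f.coeff b * ((if a ∣ m then dv (m / a) else 0)
          * (if b ∣ m then dv (m / b) else 0) * (m : ℝ)⁻¹)) := by
      intro a
      rw [Finset.sum_comm, Finset.mul_sum]
      exact Finset.sum_congr rfl fun m _ => Finset.mul_sum _ _ _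
    simp_rw [e2]
    rw [Finset.sum_comm]
    refine Finset.sum_congr rfl fun m _ => ?_
    rw [sq, Finset.sum_mul_sum, Finset.sum_mul]
    refine Finset.sum_congr rfl fun a _ => ?_
    rw [Finset.sum_mul]
    refine Finset.sum_congr rfl fun b _ => ?_
    ring
  rw [e1]
  have h1 : pair (fun a => pair (fun b => ∑ m ∈ F, (if a ∣ m then dv (m / a) else 0)
          * (if b ∣ m then dv (m / b) else 0) * (m : ℝ)⁻¹) f) f
      ≤ pair (fun a => pair (fun b => DS S * K4 a b) f) f := by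
    refine pair_mono hf fun a ha => pair_mono hf fun b hb => ?_
    exact sum_dv_le hS ha hb F hF
  refine h1.trans (le_of_eq ?_)
  unfold BK
  rw [← pair_const_mul]
  congr 1
  funext a
  rw [pair_const_mul]

end Pool.Agent.Lib.MP_f9aece_nt_h97
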