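import Mathlib
import Pool.Agent.Lib.MP_f9aece_nt_h97.SmoSum
import Pool.Agent.Lib.MP_f9aece_nt_h97.K4Forms

/-!
Energies of truncated exponentials of prime polynomials convolved with a (twisted) divisor function.
-/

set_option autoImplicit false

namespace Pool.Agent.Lib.MP_f9aece_nt_h97

open MeasureTheory Set Filter Topology Complex
open Pool.Agent.Lib.MP_f9aece_nt

/-- the divisor function times a power -/
noncomputable def dk (κ : ℝ) (n : ℕ) : ℝ := dv n * (n : ℝ) ^ κ

lemma dk_nonneg (κ : ℝ) (n : ℕ) : 0 ≤ dk κ n := mul_nonneg (dv_nonneg n) (by positivity)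

lemma dv_one : dv 1 = 1 := by simp [dv]

lemma dv_mul {a b : ℕ} (h : Nat.Coprime a b) : dv (a * b) = dv a * dv b := by
  unfold dv
  rw [h.card_divisors_mul]
  push_cast
  rfl

lemma dv_pow {p : ℕ} (hp : p.Prime) (k : ℕ) : dv (p ^ k) = (k : ℝ) + 1 := by
  unfold dv
  rw [Nat.divisors_prime_pow hp, Finset.card_map, Finset.card_range]
  push_cast
  rfl

lemma dk_mul (κ : ℝ) {a b : ℕ} (h : Nat.Coprime a b) : dk κ (a * b) = dk κ a * dk κ b := by
  unfold dk
  rw [dv_mul h]
  push_cast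
  rw [Real.mul_rpow (Nat.cast_nonneg _) (Nat.cast_nonneg _)]
  ring

lemma dk_pow (κ : ℝ) {p : ℕ} (hp : p.Prime) (k : ℕ) : dk κ (p ^ k) = ((k : ℝ) + 1) * ((p : ℝ) ^ κ) ^ k := by
  unfold dk
  rw [dv_pow hp]
  push_cast
  rw [← Real.rpow_natCast ((p : ℝ) ^ κ), ← Real.rpow_mul (Nat.cast_nonneg _), mul_comm κ,
    Real.rpow_mul (Nat.cast_nonneg _), Real.rpow_natCast]

/-- convolution of a Dirichlet polynomial with a function -/
noncomputable def cvg (g : ℕ → ℝ) (f : DP) (m : ℕ) : ℝ := pair (fun a => if a ∣ m then g (m / a) else 0) f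

lemma cvg_add (g : ℕ → ℝ) (f f' : DP) (m : ℕ) : cvg g (f + f') m = cvg g f m + cvg g f' m := pair_add _ _ _

lemma cvg_smul (g : ℕ → ℝ) (c : ℝ) (f : DP) (m : ℕ) : cvg g (c • f) m = c * cvg g f m := pair_smul _ _ _

lemma cvg_sub (g : ℕ → ℝ) (f f' : DP) (m : ℕ) : cvg g (f - f') m = cvg g f m - cvg g f' m := by
  have : f - f' = f + (-1 : ℝ) • f' := by rw [neg_one_smul]; abel
  rw [this, cvg_add, cvg_smul]
  ring

lemma abs_pair_le_of_dom {φ : ℕ → ℝ} (hφ : ∀ a, 0 ≤ φ a) {f g : DP} (h : Dom f g) :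
    |pair φ f| ≤ pair φ g := by
  have h0 : ∀ K : ℕ → ℕ → ℝ, (∀ a b, 0 ≤ K a b) → |BK K f 1| ≤ BK K g 1 := fun K hK => by
    refine abs_BK_le_of_dom hK h ?_
    intro n
    rw [MonoidAlgebra.one_def, MonoidAlgebra.coeff_single, Finsupp.single_apply]
    split_ifs <;> simp
  have h1 := h0 (fun a _ => φ a) (fun a _ => hφ a)
  have e : ∀ f : DP, BK (fun a _ => φ a) f 1 = pair φ f := by
    intro f
    unfold BK
    refine pair_congr _ fun a _ => ?_
    rw [MonoidAlgebra.one_def, pair_single, one_mul]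
  rwa [e, e] at h1

lemma abs_cvg_le_of_dom {g : ℕ → ℝ} (hg : ∀ a, 0 ≤ g a) {f f' : DP} (h : Dom f f') (m : ℕ) :
    |cvg g f m| ≤ cvg g f' m :=
  abs_pair_le_of_dom (fun a => by split_ifs; exacts [hg _, le_rfl]) h

/-- splitting of the convolution over coprime supports -/
lemma cvg_mul_coprime {g : ℕ → ℝ} (hg : ∀ a b, Nat.Coprime a b → g (a * b) = g a * g b)
    {A B : Set ℕ} (hAB : Disjoint A B) {f f' : DP} (hf : Sup (Smo A) f) (hf' : Sup (Smo B) f')
    {x y : ℕ} (hx : x ∈ Smo A) (hy : y ∈ Smo B) :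
    cvg g (f * f') (x * y) = cvg g f x * cvg g f' y := by
  unfold cvg
  rw [pair_mul]
  have h1 : ∀ a, f.coeff a ≠ 0 → pair (fun b => if a * b ∣ x * y then g (x * y / (a * b)) else 0) f'
      = (if a ∣ x then g (x / a) else 0) * pair (fun b => if b ∣ y then g (y / b) else 0) f' := by
    intro a ha
    rw [← pair_const_mul]
    refine pair_congr _ fun b hb => ?_
    have haA := hf a ha
    have hbB := hf' b hb
    have c1 : Nat.Coprime a y := coprime_of_Smo hAB haA hy
    have c2 : Nat.Coprime b x := (coprime_of_Smo hAB hx hbB).symm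
    have hxy : Nat.Coprime x y := coprime_of_Smo hAB hx hy
    have key : a * b ∣ x * y ↔ a ∣ x ∧ b ∣ y := by
      constructor
      · intro h
        exact ⟨c1.dvd_of_dvd_mul_right ((Dvd.intro _ rfl).trans h),
          c2.dvd_of_dvd_mul_left ((Dvd.intro_left _ rfl).trans h)⟩
      · rintro ⟨h, h'⟩
        exact Nat.mul_dvd_mul h h'
    by_cases h2 : a ∣ x
    · by_cases h3 : b ∣ y
      · rw [if_pos (key.mpr ⟨h2, h3⟩), if_pos h2, if_pos h3, Nat.mul_div_mul_comm h2 h3]
        apply hg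
        exact (hxy.coprime_dvd_left (Nat.div_dvd_of_dvd h2)).coprime_dvd_right (Nat.div_dvd_of_dvd h3)
      · rw [if_neg (fun h => h3 (key.mp h).2), if_neg h3, mul_zero]
    · rw [if_neg (fun h => h2 (key.mp h).1), if_neg h2, zero_mul]
  rw [pair_congr _ h1, pair_mul_const]

/-- local convolution coefficients -/
noncomputable def lh (c z : ℝ) (M k : ℕ) : ℝ :=
  ∑ i ∈ Finset.range (M + 1), if i ≤ k then c ^ i / (i.factorial : ℝ) * (((k - i : ℕ) : ℝ) + 1) * z ^ (k - i) else 0

lemma cvg_local {p : ℕ} (hp : p.Prime) (κ c : ℝ) (M k : ℕ) :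
    cvg (dk κ) (expo c M {p}) (p ^ k) = lh c ((p : ℝ) ^ κ) M k := by
  unfold cvg expo lh
  rw [pair_sum]
  refine Finset.sum_congr rfl fun i _ => ?_
  rw [pair_smul, PP_singleton_pow, pair_single, one_mul]
  by_cases h : i ≤ k
  · rw [if_pos (pow_dvd_pow p h), if_pos h, Nat.pow_div h hp.pos, dk_pow κ hp]
    ring
  · rw [if_neg, if_neg h, mul_zero]
    intro hd
    exact h ((Nat.pow_dvd_pow_iff_le_right hp.one_lt).mp hd)

lemma lh_zero (c z : ℝ) (M : ℕ) : lh c z M 0 = 1 := by
  unfold lh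
  rw [Finset.sum_eq_single 0]
  · simp
  · intro i _ hi
    rw [if_neg (by omega)]
  · simp

lemma lh_one (c z : ℝ) {M : ℕ} (hM : 1 ≤ M) : lh c z M 1 = 2 * z + c := by
  unfold lh
  have hsub : Finset.range 2 ⊆ Finset.range (M + 1) := Finset.range_subset_range.mpr (by omega)
  rw [← Finset.sum_subset hsub]
  · rw [Finset.sum_range_succ, Finset.sum_range_one, if_pos (by norm_num), if_pos (by norm_num)]
    norm_num
  · intro i _ hi
    rw [Finset.mem_range] at hi
    rw [if_neg (by omega)]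

lemma abs_lh_le {c z : ℝ} (hz : 1 ≤ z) (M k : ℕ) : |lh c z M k| ≤ Real.exp |c| * (((k : ℝ) + 1) * z ^ k) := by
  unfold lh
  refine (Finset.abs_sum_le_sum_abs _ _).trans ?_
  have h1 : ∀ i ∈ Finset.range (M + 1),
      |if i ≤ k then c ^ i / (i.factorial : ℝ) * (((k - i : ℕ) : ℝ) + 1) * z ^ (k - i) else 0|
        ≤ |c| ^ i / (i.factorial : ℝ) * (((k : ℝ) + 1) * z ^ k) := by
    intro i _
    split_ifs with h
    · rw [abs_mul, abs_mul, abs_div, abs_pow, abs_of_pos (by positivity : (0 : ℝ) < (i.factorial : ℝ)),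
        abs_of_nonneg (by positivity : (0 : ℝ) ≤ ((k - i : ℕ) : ℝ) + 1),
        abs_of_nonneg (by positivity : (0 : ℝ) ≤ z ^ (k - i)), mul_assoc]
      have h2 : ((k - i : ℕ) : ℝ) ≤ k := by exact_mod_cast Nat.sub_le k i
      have h3 : z ^ (k - i) ≤ z ^ k := pow_le_pow_right₀ hz (Nat.sub_le k i)
      gcongr
    · rw [abs_zero]
      positivity
  refine (Finset.sum_le_sum h1).trans ?_
  rw [← Finset.sum_mul]
  gcongr
  exact Real.sum_le_exp_of_nonneg (abs_nonneg c) _

lemma cvg_FF {S : Finset ℕ} (hS : ∀ p ∈ S, p.Prime) (κ c : ℝ) (M : ℕ) :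
    ∀ m ∈ Smo (S : Set ℕ), cvg (dk κ) (FF c M S) m
      = ∏ p ∈ S, lh c ((p : ℝ) ^ κ) M (m.factorization p) := by
  classical
  induction S using Finset.induction_on with
  | empty =>
    intro m hm
    have := smo_empty_eq (m := m) (by simpa using hm)
    subst this
    simp [cvg, FF, MonoidAlgebra.one_def, dk, dv]
  | insert p S hp ih =>
    intro m hm
    have hpp : p.Prime := hS p (Finset.mem_insert_self _ _)
    have hS' : ∀ q ∈ S, q.Prime := fun q hq => hS q (Finset.mem_insert_of_mem hq)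
    have hdis : Disjoint ({p} : Set ℕ) (S : Set ℕ) := by
      rw [Set.disjoint_singleton_left]; exact hp
    have hx : p ^ m.factorization p ∈ Smo ({p} : Set ℕ) := by
      refine ⟨pow_ne_zero _ hpp.ne_zero, fun q hq hd => ?_⟩
      rw [Set.mem_singleton_iff]
      exact (Nat.prime_dvd_prime_iff_eq hq hpp).mp (hq.dvd_of_dvd_pow hd)
    have hy : m / p ^ m.factorization p ∈ Smo (S : Set ℕ) := by
      refine ⟨(Nat.ordCompl_pos p hm.1).ne', fun q hq hd => ?_⟩
      have h2 := hm.2 q hq (hd.trans (Nat.ordCompl_dvd m p))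
      rw [Finset.coe_insert, Set.mem_insert_iff] at h2
      rcases h2 with h2 | h2
      · subst h2
        exact absurd hd (Nat.not_dvd_ordCompl hpp hm.1)
      · exact h2
    have hFF : FF c M (insert p S) = expo c M {p} * FF c M S := by
      unfold FF; rw [Finset.prod_insert hp]
    have hsup1 : Sup (Smo ({p} : Set ℕ)) (expo c M {p}) := by
      have := sup_expo (prime_single hpp) c M
      simpa using this
    have hsup2 : Sup (Smo (S : Set ℕ)) (FF c M S) := by
      unfold FF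
      refine (sup_prod_Smo S (fun p => {p}) _ fun q hq => sup_expo (prime_single (hS' q hq)) _ _).mono ?_
      apply Smo_mono
      intro q hq
      simpa using hq
    conv_lhs => rw [← Nat.ordProj_mul_ordCompl_eq_self m p]
    rw [hFF, cvg_mul_coprime (fun a b h => dk_mul κ h) hdis hsup1 hsup2 hx hy, cvg_local hpp,
      ih hS' _ hy, Finset.prod_insert hp]
    congr 1
    refine Finset.prod_congr rfl fun q hq => ?_
    have hqp : q ≠ p := by rintro rfl; exact hp hq
    rw [Nat.factorization_ordCompl, Finsupp.erase_ne hqp]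

end Pool.Agent.Lib.MP_f9aece_nt_h97
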