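import Mathlib
import Pool.Agent.Lib.MP_f9aece_nt_h97.EnergyK

/-!
Upper bounds for the energies of truncated exponentials convolved with the twisted divisor function.
-/

set_option autoImplicit false

namespace Pool.Agent.Lib.MP_f9aece_nt_h97

open MeasureTheory Set Filter Topology Complex
open Pool.Agent.Lib.MP_f9aece_nt

lemma tail_sq_le {y : ℝ} (h1 : y ≤ 1 / 2) :
    (1 + y) / (1 - y) ^ 3 ≤ 1 + 4 * y + 36 * y ^ 2 := by
  have hy : 0 < 1 - y := by linarith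
  rw [div_le_iff₀ (by positivity)]
  have h2 : 0 ≤ y ^ 2 * ((1 - 2 * y) * (27 - 43 * y + 18 * y ^ 2)) := by
    have : 0 ≤ 27 - 43 * y + 18 * y ^ 2 := by nlinarith [sq_nonneg y]
    have : 0 ≤ 1 - 2 * y := by linarith
    positivity
  nlinarith [h2]

/-- partial sums without the first two terms -/
lemma sum_tail_le {y : ℝ} (h0 : 0 ≤ y) (h1 : y ≤ 1 / 2) (N : ℕ) :
    ∑ k ∈ Finset.range N, ((k : ℝ) + 3) ^ 2 * y ^ (k + 2) ≤ 36 * y ^ 2 := by
  have h2 := sum_sq_le h0 (by linarith : y < 1) (N + 2)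
  rw [Finset.sum_range_succ', Finset.sum_range_succ'] at h2
  have h3 := tail_sq_le h1
  have e : ∑ k ∈ Finset.range N, (((k + 1 + 1 : ℕ) : ℝ) + 1) ^ 2 * y ^ (k + 1 + 1)
      = ∑ k ∈ Finset.range N, ((k : ℝ) + 3) ^ 2 * y ^ (k + 2) := by
    refine Finset.sum_congr rfl fun k _ => ?_
    push_cast
    ring
  rw [e] at h2
  norm_num at h2
  linarith

/-- the exponent of the energy -/
noncomputable def QE (κ c : ℝ) (S : Finset ℕ) : ℝ :=
  ∑ p ∈ S, ((2 * (p : ℝ) ^ κ + c) ^ 2 * (p : ℝ)⁻¹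
    + 36 * Real.exp (2 * |c|) * (((p : ℝ) ^ κ) ^ 2 * (p : ℝ)⁻¹) ^ 2)

lemma QE_nonneg (κ c : ℝ) (S : Finset ℕ) : 0 ≤ QE κ c S :=
  Finset.sum_nonneg fun p _ => by positivity

/-- local sums -/
lemma local_energy {p : ℕ} (hp : p.Prime) {κ : ℝ} (hκ : 0 ≤ κ)
    (hy : ((p : ℝ) ^ κ) ^ 2 * (p : ℝ)⁻¹ ≤ 1 / 2) (c : ℝ) {M : ℕ} (hM : 1 ≤ M) (N : ℕ) :
    ∑ k ∈ Finset.range N, lh c ((p : ℝ) ^ κ) M k ^ 2 * ((p : ℝ)⁻¹) ^ k
      ≤ Real.exp ((2 * (p : ℝ) ^ κ + c) ^ 2 * (p : ℝ)⁻¹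
        + 36 * Real.exp (2 * |c|) * (((p : ℝ) ^ κ) ^ 2 * (p : ℝ)⁻¹) ^ 2) := by
  set z := (p : ℝ) ^ κ with hz
  set x := (p : ℝ)⁻¹ with hx
  have hp1 : (1 : ℝ) ≤ p := by exact_mod_cast hp.one_le
  have hz1 : 1 ≤ z := Real.one_le_rpow hp1 hκ
  have hx0 : 0 ≤ x := by positivity
  set y := z ^ 2 * x with hyd
  have hy0 : 0 ≤ y := by positivity
  have hnn : ∀ k, 0 ≤ lh c z M k ^ 2 * x ^ k := fun k => by positivity
  have hstep : ∑ k ∈ Finset.range N, lh c z M k ^ 2 * x ^ k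
      ≤ ∑ k ∈ Finset.range (N + 2), lh c z M k ^ 2 * x ^ k :=
    Finset.sum_le_sum_of_subset_of_nonneg (Finset.range_subset_range.mpr (by omega)) fun k _ _ => hnn k
  refine hstep.trans ?_
  rw [Finset.sum_range_succ', Finset.sum_range_succ']
  have h2 : ∑ k ∈ Finset.range N, lh c z M (k + 1 + 1) ^ 2 * x ^ (k + 1 + 1)
      ≤ Real.exp (2 * |c|) * (36 * y ^ 2) := by
    have h3 : ∀ k ∈ Finset.range N, lh c z M (k + 1 + 1) ^ 2 * x ^ (k + 1 + 1)
        ≤ Real.exp (2 * |c|) * (((k : ℝ) + 3) ^ 2 * y ^ (k + 2)) := by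
      intro k _
      have h4 := abs_lh_le (c := c) hz1 M (k + 1 + 1)
      have h5 : lh c z M (k + 1 + 1) ^ 2 ≤ (Real.exp |c| * ((((k + 1 + 1 : ℕ) : ℝ) + 1) * z ^ (k + 1 + 1))) ^ 2 := by
        rw [← sq_abs (lh c z M (k + 1 + 1))]
        gcongr
      calc lh c z M (k + 1 + 1) ^ 2 * x ^ (k + 1 + 1)
          ≤ (Real.exp |c| * ((((k + 1 + 1 : ℕ) : ℝ) + 1) * z ^ (k + 1 + 1))) ^ 2 * x ^ (k + 1 + 1) := by
            gcongr
        _ = Real.exp (2 * |c|) * (((k : ℝ) + 3) ^ 2 * y ^ (k + 2)) := by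
            have e1 : Real.exp (2 * |c|) = Real.exp |c| ^ 2 := by rw [← Real.exp_nat_mul]; norm_num
            have e3 : k + 1 + 1 = k + 2 := by ring
            have e2 : (z ^ 2 * x) ^ (k + 2) = (z ^ (k + 2)) ^ 2 * x ^ (k + 2) := by
              rw [mul_pow, ← pow_mul, ← pow_mul, mul_comm 2]
            rw [e1, hyd, e3, e2]
            push_cast
            ring
    refine (Finset.sum_le_sum h3).trans ?_
    rw [← Finset.mul_sum]
    gcongr
    exact sum_tail_le hy0 hy N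
  rw [zero_add, lh_one c z hM, lh_zero]
  have h6 := Real.add_one_le_exp ((2 * z + c) ^ 2 * x + 36 * Real.exp (2 * |c|) * y ^ 2)
  simp only [pow_one, pow_zero, one_pow, mul_one]
  linarith

/-- the energy of the product of local factors -/
theorem energy_FF {S : Finset ℕ} (hS : ∀ p ∈ S, p.Prime) {κ : ℝ} (hκ : 0 ≤ κ)
    (hy : ∀ p ∈ S, ((p : ℝ) ^ κ) ^ 2 * (p : ℝ)⁻¹ ≤ 1 / 2) (c : ℝ) {M : ℕ} (hM : 1 ≤ M)
    (F : Finset ℕ) (hF : ∀ m ∈ F, m ∈ Smo (S : Set ℕ)) :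
    ∑ m ∈ F, cvg (dk κ) (FF c M S) m ^ 2 * (m : ℝ)⁻¹ ≤ Real.exp (QE κ c S) := by
  have h1 : ∀ m ∈ F, cvg (dk κ) (FF c M S) m ^ 2 * (m : ℝ)⁻¹
      = ∏ p ∈ S, (fun p k => lh c ((p : ℝ) ^ κ) M k ^ 2 * ((p : ℝ)⁻¹) ^ k) p (m.factorization p) := by
    intro m hm
    rw [cvg_FF hS κ c M m (hF m hm), inv_smo (hF m hm), ← Finset.prod_pow, ← Finset.prod_mul_distrib]
  rw [Finset.sum_congr rfl h1]
  refine (sum_smo_le S hS _ (fun p _ k => by positivity) (fun p => Real.exp ((2 * (p : ℝ) ^ κ + c) ^ 2 * (p : ℝ)⁻¹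
    + 36 * Real.exp (2 * |c|) * (((p : ℝ) ^ κ) ^ 2 * (p : ℝ)⁻¹) ^ 2))
    (fun p hp N => local_energy (hS p hp) hκ (hy p hp) c hM N) F hF).trans (le_of_eq ?_)
  rw [← Real.exp_sum]
  rfl

/-- the energy of the truncated exponential -/
theorem energy_expo {S : Finset ℕ} (hS : ∀ p ∈ S, p.Prime) {κ : ℝ} (hκ : 0 ≤ κ)
    (hy : ∀ p ∈ S, ((p : ℝ) ^ κ) ^ 2 * (p : ℝ)⁻¹ ≤ 1 / 2) {c : ℝ} (hc : |c| ≤ 1) {M : ℕ} (hM : 1 ≤ M)
    (F : Finset ℕ) (hF : ∀ m ∈ F, m ∈ Smo (S : Set ℕ)) :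
    ∑ m ∈ F, cvg (dk κ) (expo c M S) m ^ 2 * (m : ℝ)⁻¹
      ≤ Real.exp (QE κ c S + 2 * (|c| / 2 ^ M) * Real.exp (QE κ 2 S)) := by
  set δ := |c| / 2 ^ M with hδ
  have hδ0 : 0 ≤ δ := by positivity
  have h1 := energy_FF hS hκ hy c hM F hF
  have h2 := energy_FF hS hκ hy 2 hM F hF
  have hd := dom_diff hS hc M M le_rfl
  have h3 : ∀ m ∈ F, cvg (dk κ) (expo c M S) m ^ 2 * (m : ℝ)⁻¹
      ≤ (1 + δ) * (cvg (dk κ) (FF c M S) m ^ 2 * (m : ℝ)⁻¹ + δ * (cvg (dk κ) (FF 2 M S) m ^ 2 * (m : ℝ)⁻¹)) := by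
    intro m _
    have h4 := abs_cvg_le_of_dom (dk_nonneg κ) hd m
    rw [cvg_sub, cvg_smul] at h4
    set u := cvg (dk κ) (FF c M S) m
    set v := cvg (dk κ) (expo c M S) m
    set w := cvg (dk κ) (FF 2 M S) m
    have hm0 : (0 : ℝ) ≤ (m : ℝ)⁻¹ := by positivity
    have h5 : v ^ 2 ≤ (1 + δ) * (u ^ 2 + δ * w ^ 2) := by
      have h6 : (u - v) ^ 2 ≤ (δ * w) ^ 2 := by
        rw [← sq_abs (u - v)]
        exact pow_le_pow_left₀ (abs_nonneg _) h4 2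
      have h7 : v = u - (u - v) := by ring
      set e := u - v with he
      have h8 : |e| ≤ δ * w := h4
      have h9 : 0 ≤ δ * w := (abs_nonneg _).trans h8
      rcases hδ0.eq_or_lt with h0 | h0
      · rw [← h0] at h6 h8
        rw [zero_mul] at h8
        have : e = 0 := abs_nonpos_iff.mp h8
        rw [h7, this, ← h0]
        nlinarith [sq_nonneg u]
      · -- |2 u e| ≤ 2 δ |u| w ≤ δ u^2 + δ w^2
        have h10 : -(2 * u * e) ≤ δ * u ^ 2 + δ * w ^ 2 := by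
          have h11 : |2 * u * e| ≤ 2 * |u| * (δ * w) := by
            rw [abs_mul, abs_mul, abs_two]
            gcongr
          have h12 : 2 * |u| * (δ * w) ≤ δ * u ^ 2 + δ * w ^ 2 := by
            have := sq_nonneg (|u| - w)
            have h13 := sq_abs u
            nlinarith
          have := neg_abs_le (2 * u * e)
          linarith
        rw [h7]
        nlinarith [sq_nonneg u, sq_nonneg w]
    calc v ^ 2 * (m : ℝ)⁻¹ ≤ (1 + δ) * (u ^ 2 + δ * w ^ 2) * (m : ℝ)⁻¹ := by gcongr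
      _ = _ := by ring
  refine (Finset.sum_le_sum h3).trans ?_
  rw [← Finset.mul_sum, Finset.sum_add_distrib, ← Finset.mul_sum]
  have hQ := QE_nonneg κ c S
  have hQ2 := QE_nonneg κ 2 S
  have hE : 1 ≤ Real.exp (QE κ 2 S) := Real.one_le_exp hQ2
  have hEc : 1 ≤ Real.exp (QE κ c S) := Real.one_le_exp hQ
  calc (1 + δ) * (∑ m ∈ F, cvg (dk κ) (FF c M S) m ^ 2 * (m : ℝ)⁻¹
        + δ * ∑ m ∈ F, cvg (dk κ) (FF 2 M S) m ^ 2 * (m : ℝ)⁻¹)
      ≤ (1 + δ) * (Real.exp (QE κ c S) + δ * Real.exp (QE κ 2 S)) := by gcongr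
    _ ≤ Real.exp δ * (Real.exp (QE κ c S) * Real.exp (δ * Real.exp (QE κ 2 S))) := by
        have h13 := Real.add_one_le_exp δ
        have h14 := Real.add_one_le_exp (δ * Real.exp (QE κ 2 S))
        have h15 : Real.exp (QE κ c S) + δ * Real.exp (QE κ 2 S)
            ≤ Real.exp (QE κ c S) * Real.exp (δ * Real.exp (QE κ 2 S)) := by
          have h16 : 0 ≤ δ * Real.exp (QE κ 2 S) := by positivity
          calc Real.exp (QE κ c S) + δ * Real.exp (QE κ 2 S)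
              ≤ Real.exp (QE κ c S) * (δ * Real.exp (QE κ 2 S) + 1) := by nlinarith
            _ ≤ _ := by gcongr
        have h17 : 0 ≤ Real.exp (QE κ c S) + δ * Real.exp (QE κ 2 S) := by positivity
        calc (1 + δ) * (Real.exp (QE κ c S) + δ * Real.exp (QE κ 2 S))
            ≤ Real.exp δ * (Real.exp (QE κ c S) + δ * Real.exp (QE κ 2 S)) := by
              apply mul_le_mul_of_nonneg_right _ h17
              linarith
          _ ≤ _ := by gcongr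
    _ = Real.exp (δ + QE κ c S + δ * Real.exp (QE κ 2 S)) := by
        rw [← Real.exp_add, ← Real.exp_add]; congr 1; ring
    _ ≤ _ := by
        apply Real.exp_le_exp.mpr
        nlinarith

/-- the Euler product dominates the exponential -/
lemma DS_ge {S : Finset ℕ} (hS : ∀ p ∈ S, p.Prime) : Real.exp (4 * VV S) ≤ DS S := by
  have e : Real.exp (4 * VV S) = ∏ p ∈ S, Real.exp (4 * (p : ℝ)⁻¹) := by
    rw [← Real.exp_sum, ← Finset.mul_sum]; rfl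
  rw [e]
  refine Finset.prod_le_prod (fun _ _ => (Real.exp_pos _).le) fun p hp => ?_
  obtain ⟨h0, h1⟩ := inv_prime_half (hS p hp)
  set x := (p : ℝ)⁻¹ with hx
  have hx1 : 0 < 1 - x := by linarith
  -- exp (-x) ≥ 1 - x gives exp (4 x) ≤ (1 - x)^(-3) * exp x
  have h2 : Real.exp x ≤ (1 - x)⁻¹ := by
    have := Real.add_one_le_exp (-x)
    rw [Real.exp_neg] at this
    rw [le_inv_comm₀ (Real.exp_pos _) hx1]
    linarith
  -- exp (2 x) ≤ (1 + x) / (1 - x)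
  have h3 : Real.exp (2 * x) ≤ (1 + x) / (1 - x) := by
    have h4 := Real.sum_range_le_log_div h0.le (by linarith : x < 1) 1
    simp only [Finset.range_one, Finset.sum_singleton] at h4
    have h5 : 0 < (1 + x) / (1 - x) := by positivity
    rw [← Real.le_log_iff_exp_le h5]
    norm_num at h4
    linarith
  have e2 : Real.exp (4 * x) = Real.exp (2 * x) * (Real.exp x * Real.exp x) := by
    rw [← Real.exp_add, ← Real.exp_add]; congr 1; ring
  rw [e2]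
  have e3 : (1 + x) / (1 - x) ^ 3 = (1 + x) / (1 - x) * ((1 - x)⁻¹ * (1 - x)⁻¹) := by
    field_simp
  rw [e3]
  have := Real.exp_pos x
  gcongr

/-- the Euler product is at most an exponential -/
lemma DS_le {S : Finset ℕ} (hS : ∀ p ∈ S, p.Prime) : DS S ≤ Real.exp (4 * VV S + 36 * V2 S) := by
  have e : Real.exp (4 * VV S + 36 * V2 S) = ∏ p ∈ S, Real.exp (4 * (p : ℝ)⁻¹ + 36 * ((p : ℝ)⁻¹) ^ 2) := by
    rw [← Real.exp_sum, Finset.sum_add_distrib, ← Finset.mul_sum, ← Finset.mul_sum]; rfl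
  rw [e]
  refine Finset.prod_le_prod (fun p hp => ?_) fun p hp => ?_
  · obtain ⟨h0, h1⟩ := inv_prime_half (hS p hp)
    have hx1 : 0 < 1 - (p : ℝ)⁻¹ := by linarith
    positivity
  · obtain ⟨h0, h1⟩ := inv_prime_half (hS p hp)
    have h2 := tail_sq_le h1
    have h3 := Real.add_one_le_exp (4 * (p : ℝ)⁻¹ + 36 * ((p : ℝ)⁻¹) ^ 2)
    linarith

end Pool.Agent.Lib.MP_f9aece_nt_h97
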