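import Mathlib
import Pool.Agent.Lib.MP_f9aece_nt_h97.Poisson

/-!
A crude approximate functional equation: splitting the Mellin transform of the Muentz function
at `1/(N+1/2)`.
-/

set_option autoImplicit false

namespace Pool.Agent.Lib.MP_f9aece_nt_h97

open MeasureTheory Set Filter Topology Complex FourierTransform
open scoped ENNReal ContDiff SchwartzMap ComplexConjugate

/-- Dirichlet polynomial of zeta on the critical line -/
noncomputable def DSt (t : ℝ) (N : ℕ) : ℂ :=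
  ∑ n ∈ Finset.range N, (((n + 1 : ℕ) : ℝ) : ℂ) ^ (-(1 / 2 + I * t : ℂ))

namespace Ker

variable (K : Ker)

/-- the oscillating integrand of the dual part -/
noncomputable def hU (T t u : ℝ) : ℂ :=
  (u : ℂ) ^ (-(1 / 2 + I * t : ℂ)) * ((Real.cos (2 * Real.pi * u) * K.G (u / T) : ℝ) : ℂ)

/-- the tail integral of the dual part -/
noncomputable def bet (T t a : ℝ) (k : ℕ) : ℂ := ∫ u in Ioi ((k : ℝ) * a), K.hU T t u

lemma phi_zero_of {T y : ℝ} (hT : 0 < T) (h : K.L / T < |y - 1|) : K.phi T y = 0 := by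
  by_contra hc
  exact absurd (K.phi_supp hT hc) (not_le.mpr h)

lemma half_bound {L T : ℝ} {N : ℕ} (hT : 0 < T) (h : (2 * N + 1) * L < T) :
    L / T < 1 / (2 * N + 1) := by
  rw [div_lt_div_iff₀ hT (by positivity)]
  linarith

lemma Phi_right {T : ℝ} (hT : 2 * K.L ≤ T) {N : ℕ} (hN : (2 * N + 1) * K.L < T) {x : ℝ}
    (hx : 1 / ((N : ℝ) + 1 / 2) < x) :
    Phi (K.phi T) x = ∑ n ∈ Finset.range N, K.phi T (((n + 1 : ℕ) : ℝ) * x) - x⁻¹ * (T⁻¹ * K.m1) := by
  have hL := K.hL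
  have hT0 : 0 < T := by linarith
  unfold Phi
  rw [K.integral_phi hT0]
  congr 1
  refine tsum_eq_sum fun n hn => ?_
  rw [Finset.mem_range, not_lt] at hn
  apply K.phi_zero_of hT0
  refine (half_bound hT0 hN).trans_le ((le_abs_self _).trans' ?_)
  have h1 : ((N : ℝ) + 1) / ((N : ℝ) + 1 / 2) ≤ ((n + 1 : ℕ) : ℝ) * x := by
    have h2 : (N : ℝ) + 1 ≤ ((n + 1 : ℕ) : ℝ) := by push_cast; gcongr
    calc ((N : ℝ) + 1) / ((N : ℝ) + 1 / 2) = ((N : ℝ) + 1) * (1 / ((N : ℝ) + 1 / 2)) := by ring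
      _ ≤ ((n + 1 : ℕ) : ℝ) * x := by gcongr
  have h3 : ((N : ℝ) + 1) / ((N : ℝ) + 1 / 2) - 1 = 1 / (2 * N + 1) := by
    field_simp
    ring
  linarith

lemma cont_phi (T : ℝ) : Continuous (K.phi T) := by
  unfold phi
  exact K.cont.comp (by fun_prop)

lemma right_term {T : ℝ} (hT : 2 * K.L ≤ T) {N : ℕ} (hN : (2 * N + 1) * K.L < T) {t : ℝ}
    {n : ℕ} (hn : n < N) :
    IntegrableOn (fun x : ℝ => (x : ℂ) ^ ((1 / 2 + I * t : ℂ) - 1) • (K.phi T (((n + 1 : ℕ) : ℝ) * x) : ℂ))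
      (Ioi (1 / ((N : ℝ) + 1 / 2))) ∧
    ∫ x in Ioi (1 / ((N : ℝ) + 1 / 2)), (x : ℂ) ^ ((1 / 2 + I * t : ℂ) - 1) • (K.phi T (((n + 1 : ℕ) : ℝ) * x) : ℂ)
      = (((n + 1 : ℕ) : ℝ) : ℂ) ^ (-(1 / 2 + I * t : ℂ))
        * mellin (fun x => (K.phi T x : ℂ)) (1 / 2 + I * t) := by
  have hL := K.hL
  have hT0 : 0 < T := by linarith
  set s : ℂ := 1 / 2 + I * t with hs
  have hX : 0 < 1 / ((N : ℝ) + 1 / 2) := by positivity
  have hn0 : (0 : ℝ) < ((n + 1 : ℕ) : ℝ) := by positivity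
  have hm := mellin_comp_mul_left (fun x : ℝ => (K.phi T x : ℂ)) s hn0
  have hc : MellinConvergent (fun x : ℝ => (K.phi T (((n + 1 : ℕ) : ℝ) * x) : ℂ)) s :=
    (MellinConvergent.comp_mul_left hn0).mpr ((K.phi_bmp hT).mellinConv s)
  refine ⟨hc.mono_set (Ioi_subset_Ioi hX.le), ?_⟩
  rw [smul_eq_mul] at hm
  rw [← hm, mellin]
  symm
  refine setIntegral_eq_of_subset_of_forall_sdiff_eq_zero measurableSet_Ioi
    (Ioi_subset_Ioi hX.le) ?_
  intro x hx
  have hx0 : 0 < x := hx.1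
  have hx1 : x ≤ 1 / ((N : ℝ) + 1 / 2) := not_lt.mp hx.2
  have : K.phi T (((n + 1 : ℕ) : ℝ) * x) = 0 := by
    apply K.phi_zero_of hT0
    refine (half_bound hT0 hN).trans_le ?_
    rw [abs_sub_comm]
    refine (le_abs_self _).trans' ?_
    have h2 : ((n + 1 : ℕ) : ℝ) ≤ N := by exact_mod_cast hn
    have h1 : ((n + 1 : ℕ) : ℝ) * x ≤ (N : ℝ) / ((N : ℝ) + 1 / 2) := by
      calc ((n + 1 : ℕ) : ℝ) * x ≤ (N : ℝ) * (1 / ((N : ℝ) + 1 / 2)) := by gcongr
        _ = _ := by ring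
    have h3 : 1 - (N : ℝ) / ((N : ℝ) + 1 / 2) = 1 / (2 * N + 1) := by
      field_simp
      ring
    linarith
  rw [this]
  simp

lemma right_part {T : ℝ} (hT : 2 * K.L ≤ T) {N : ℕ} (hN : (2 * N + 1) * K.L < T) {t : ℝ} :
    ∫ x in Ioi (1 / ((N : ℝ) + 1 / 2)), (x : ℂ) ^ ((1 / 2 + I * t : ℂ) - 1) • (Phi (K.phi T) x : ℂ)
      = mellin (fun x => (K.phi T x : ℂ)) (1 / 2 + I * t) * DSt t N
        + ((T⁻¹ * K.m1 : ℝ) : ℂ) * (((1 / ((N : ℝ) + 1 / 2) : ℝ) : ℂ) ^ ((1 / 2 + I * t : ℂ) - 1)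
          / ((1 / 2 + I * t : ℂ) - 1)) := by
  set s : ℂ := 1 / 2 + I * t with hs
  have hX : 0 < 1 / ((N : ℝ) + 1 / 2) := by positivity
  set X := 1 / ((N : ℝ) + 1 / 2) with hXd
  have e1 : ∀ x ∈ Ioi X, (x : ℂ) ^ (s - 1) • (Phi (K.phi T) x : ℂ)
      = ∑ n ∈ Finset.range N, (x : ℂ) ^ (s - 1) • (K.phi T (((n + 1 : ℕ) : ℝ) * x) : ℂ)
        - ((T⁻¹ * K.m1 : ℝ) : ℂ) * (x : ℂ) ^ (s - 2) := by
    intro x hx
    have hx0 : (0 : ℝ) < x := lt_trans hX hx
    have hxc : (x : ℂ) ≠ 0 := by exact_mod_cast hx0.ne'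
    rw [K.Phi_right hT hN hx]
    push_cast
    rw [smul_sub, Finset.smul_sum]
    congr 1
    rw [smul_eq_mul]
    have : (x : ℂ) ^ (s - 2) = (x : ℂ) ^ (s - 1) * (x : ℂ)⁻¹ := by
      rw [← Complex.cpow_neg_one, ← Complex.cpow_add _ _ hxc]
      congr 1
      ring
    rw [this]
    ring
  have hlt : (s - 2).re < -1 := by
    simp [hs]
    norm_num
  rw [setIntegral_congr_fun measurableSet_Ioi e1, integral_sub, integral_finsetSum, integral_const_mul,
    integral_Ioi_cpow_of_lt hlt hX]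
  · have e2 : ∀ n ∈ Finset.range N, ∫ x in Ioi X, (x : ℂ) ^ (s - 1) • (K.phi T (((n + 1 : ℕ) : ℝ) * x) : ℂ)
        = (((n + 1 : ℕ) : ℝ) : ℂ) ^ (-s) * mellin (fun x => (K.phi T x : ℂ)) s := fun n hn =>
      (K.right_term hT hN (Finset.mem_range.mp hn)).2
    rw [Finset.sum_congr rfl e2, ← Finset.sum_mul, DSt]
    have e3 : s - 2 + 1 = s - 1 := by ring
    rw [e3]
    ring
  · intro n hn
    exact (K.right_term hT hN (Finset.mem_range.mp hn)).1
  · exact integrable_finsetSum _ fun n hn => (K.right_term hT hN (Finset.mem_range.mp hn)).1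
  · exact (integrableOn_Ioi_cpow_of_lt hlt hX).const_mul _

/-- constant for quartic decay -/
noncomputable def B4 : ℝ := (K.G_decay 4).choose

lemma B4_pos : 0 < K.B4 := (K.G_decay 4).choose_spec.1

lemma abs_G_le4 {w : ℝ} (hw : 0 < w) : |K.G w| ≤ K.B4 / w ^ 4 := by
  have h := (K.G_decay 4).choose_spec.2 w
  rw [abs_of_pos hw] at h
  rw [le_div_iff₀ (by positivity), mul_comm]
  exact h

/-- one term of the dual series, on the side of `x` -/
noncomputable def FF1 (T t : ℝ) (m : ℕ) (x : ℝ) : ℂ :=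
  (x : ℂ) ^ ((1 / 2 + I * t : ℂ) - 1) * ((2 / (x * T) * (Real.cos (2 * Real.pi * ((m + 1 : ℕ) : ℝ) * (1 / x))
    * K.G (((m + 1 : ℕ) : ℝ) * (1 / (x * T)))) : ℝ) : ℂ)

lemma norm_FF1 {T : ℝ} (hT : 0 < T) (t : ℝ) (m : ℕ) {x : ℝ} (hx : 0 < x) (hx1 : x ≤ 1) :
    ‖K.FF1 T t m x‖ ≤ 2 * K.B4 * T ^ 3 / ((m + 1 : ℕ) : ℝ) ^ 4 := by
  have hB := K.B4_pos
  unfold FF1
  rw [norm_mul, Complex.norm_cpow_eq_rpow_re_of_pos hx, Complex.norm_real, Real.norm_eq_abs, abs_mul,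
    abs_mul, abs_of_pos (by positivity : 0 < 2 / (x * T))]
  have e1 : ((1 / 2 + I * t : ℂ) - 1).re = -(1 / 2) := by simp; norm_num
  rw [e1]
  have h1 := K.abs_G_le4 (w := ((m + 1 : ℕ) : ℝ) * (1 / (x * T))) (by positivity)
  have h2 := Real.abs_cos_le_one (2 * Real.pi * ((m + 1 : ℕ) : ℝ) * (1 / x))
  have h3 : x ^ (-(1 / 2) : ℝ) ≤ x⁻¹ := by
    rw [← Real.rpow_neg_one]
    exact Real.rpow_le_rpow_of_exponent_ge hx hx1 (by norm_num)
  calc x ^ (-(1 / 2) : ℝ) * (2 / (x * T) * (|Real.cos (2 * Real.pi * ((m + 1 : ℕ) : ℝ) * (1 / x))|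
        * |K.G (((m + 1 : ℕ) : ℝ) * (1 / (x * T)))|))
      ≤ x⁻¹ * (2 / (x * T) * (1 * (K.B4 / (((m + 1 : ℕ) : ℝ) * (1 / (x * T))) ^ 4))) := by gcongr
    _ = 2 * K.B4 * T ^ 3 / ((m + 1 : ℕ) : ℝ) ^ 4 * x ^ 2 := by
        field_simp
    _ ≤ 2 * K.B4 * T ^ 3 / ((m + 1 : ℕ) : ℝ) ^ 4 * 1 := by
        gcongr
        exact pow_le_one₀ hx.le hx1
    _ = _ := mul_one _

lemma FF1_int {T : ℝ} (hT : 0 < T) (t : ℝ) (m : ℕ) {X : ℝ} (hX1 : X ≤ 1) :
    IntegrableOn (K.FF1 T t m) (Ioc 0 X) := by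
  have hci : IntegrableOn (fun _ : ℝ => 2 * K.B4 * T ^ 3 / ((m + 1 : ℕ) : ℝ) ^ 4) (Ioc 0 X) :=
    integrableOn_const (measure_Ioc_lt_top (μ := volume)).ne
  refine Integrable.mono' hci ?_ ?_
  · refine ContinuousOn.aestronglyMeasurable ?_ (measurableSet_Ioc (a := (0 : ℝ)) (b := X))
    intro x hx
    have hx0 : x ≠ 0 := hx.1.ne'
    refine ContinuousAt.continuousWithinAt ?_
    unfold FF1
    refine ContinuousAt.mul ?_ ?_
    · exact (Pool.Agent.Lib.MP_f9aece_nt.hasDerivAt_cpow_real hx.1 _).continuousAt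
    · refine Complex.continuous_ofReal.continuousAt.comp ?_
      refine ContinuousAt.mul ?_ (ContinuousAt.mul ?_ ?_)
      · exact ContinuousAt.div continuousAt_const (by fun_prop) (by positivity)
      · exact Real.continuous_cos.continuousAt.comp
          (ContinuousAt.mul continuousAt_const (ContinuousAt.div continuousAt_const continuousAt_id hx0))
      · refine K.G_cont.continuousAt.comp ?_
        exact ContinuousAt.mul continuousAt_const
          (ContinuousAt.div continuousAt_const (by fun_prop) (by positivity))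
  · filter_upwards [ae_restrict_mem measurableSet_Ioc] with x hx
    exact K.norm_FF1 hT t m hx.1 (hx.2.trans hX1)

lemma left_term {T : ℝ} (hT : 0 < T) (t : ℝ) (m : ℕ) {a : ℝ} (ha : 0 < a) :
    ∫ x in Ioc 0 (1 / a), K.FF1 T t m x
      = ((2 / T : ℝ) : ℂ) * ((((m + 1 : ℕ) : ℝ) : ℂ) ^ ((1 / 2 + I * t : ℂ) - 1) * K.bet T t a (m + 1)) := by
  set s : ℂ := 1 / 2 + I * t with hs
  set k : ℝ := ((m + 1 : ℕ) : ℝ) with hk
  have hk0 : 0 < k := by positivity
  have hkc : (k : ℂ) ≠ 0 := by exact_mod_cast hk0.ne'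
  set f : ℝ → ℂ := (Ici (k * a)).indicator
    (fun u => ((u * (Real.cos (2 * Real.pi * u) * K.G (u / T)) : ℝ) : ℂ)) with hf
  have h1 := mellin_comp_inv (fun y => f (k * y)) s
  rw [mellin_comp_mul_left f (-s) hk0, neg_neg, smul_eq_mul] at h1
  have h2 : mellin f (-s) = K.bet T t a (m + 1) := by
    unfold mellin bet
    rw [← hk]
    have e1 : ∀ u ∈ Ioi (0 : ℝ), (u : ℂ) ^ (-s - 1) • f u
        = (Ici (k * a)).indicator (fun u => K.hU T t u) u := by
      intro u hu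
      have hu0 : (0 : ℝ) < u := hu
      have huc : (u : ℂ) ≠ 0 := by exact_mod_cast hu0.ne'
      by_cases hin : u ∈ Ici (k * a)
      · rw [hf, indicator_of_mem hin, indicator_of_mem hin, hU, smul_eq_mul, ← hs]
        have e2 : (u : ℂ) ^ (-s - 1) = (u : ℂ) ^ (-s) * (u : ℂ)⁻¹ := by
          rw [← Complex.cpow_neg_one, ← Complex.cpow_add _ _ huc]
          congr 1
        rw [e2]
        push_cast
        field_simp
      · rw [hf, indicator_of_notMem hin, indicator_of_notMem hin, smul_zero]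
    rw [setIntegral_congr_fun measurableSet_Ioi e1, setIntegral_indicator measurableSet_Ici]
    have e3 : Ioi (0 : ℝ) ∩ Ici (k * a) = Ici (k * a) := by
      rw [inter_eq_right]
      intro u hu
      exact lt_of_lt_of_le (by positivity : 0 < k * a) hu
    rw [e3, integral_Ici_eq_integral_Ioi]
  rw [h2] at h1
  have h3 : ∫ x in Ioc 0 (1 / a), K.FF1 T t m x
      = ((2 / (k * T) : ℝ) : ℂ) * mellin (fun t => f (k * t⁻¹)) s := by
    unfold mellin
    rw [← integral_const_mul]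
    have e1 : ∀ x ∈ Ioi (0 : ℝ), ((2 / (k * T) : ℝ) : ℂ) * ((x : ℂ) ^ (s - 1) • f (k * x⁻¹))
        = (Ioc 0 (1 / a)).indicator (K.FF1 T t m) x := by
      intro x hx
      have hx0 : (0 : ℝ) < x := hx
      by_cases hin : x ≤ 1 / a
      · have hin' : x ∈ Ioc 0 (1 / a) := ⟨hx0, hin⟩
        have hk' : k * x⁻¹ ∈ Ici (k * a) := by
          rw [mem_Ici]
          gcongr
          rw [le_inv_comm₀ ha hx0, ← one_div]
          exact hin
        rw [hf, indicator_of_mem hk', indicator_of_mem hin', FF1, smul_eq_mul, mul_left_comm,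
          ← Complex.ofReal_mul]
        congr 2
        rw [← hk]
        have g1 : k * x⁻¹ / T = k * (1 / (x * T)) := by field_simp
        have g2 : 2 * Real.pi * (k * x⁻¹) = 2 * Real.pi * k * (1 / x) := by field_simp
        rw [g1, g2]
        field_simp
      · have hin' : x ∉ Ioc 0 (1 / a) := fun h => hin h.2
        have hk' : k * x⁻¹ ∉ Ici (k * a) := by
          rw [mem_Ici, not_le]
          rw [not_le] at hin
          gcongr
          rw [inv_lt_comm₀ hx0 ha, ← one_div]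
          exact hin
        rw [hf, indicator_of_notMem hk', indicator_of_notMem hin']
        simp
    rw [setIntegral_congr_fun measurableSet_Ioi e1, setIntegral_indicator measurableSet_Ioc]
    have e3 : Ioi (0 : ℝ) ∩ Ioc 0 (1 / a) = Ioc 0 (1 / a) := by
      rw [inter_eq_right]
      exact fun u hu => hu.1
    rw [e3]
  rw [h3, h1]
  have e4 : (k : ℂ) ^ (s - 1) = (k : ℂ) ^ s * (k : ℂ)⁻¹ := by
    rw [← Complex.cpow_neg_one, ← Complex.cpow_add _ _ hkc]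
    congr 1
  rw [e4]
  push_cast
  field_simp

lemma left_part {T : ℝ} (hT : 2 * K.L ≤ T) (t : ℝ) {a : ℝ} (ha : 1 ≤ a) :
    HasSum (fun m : ℕ => ((2 / T : ℝ) : ℂ) * ((((m + 1 : ℕ) : ℝ) : ℂ) ^ ((1 / 2 + I * t : ℂ) - 1)
      * K.bet T t a (m + 1)))
    (∫ x in Ioc 0 (1 / a), (x : ℂ) ^ ((1 / 2 + I * t : ℂ) - 1) • (Phi (K.phi T) x : ℂ)) := by
  have hL := K.hL
  have hT0 : 0 < T := by linarith
  have ha0 : 0 < a := by linarith
  have hX1 : 1 / a ≤ 1 := by rw [div_le_one ha0]; exact ha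
  have hB := K.B4_pos
  have h1 := hasSum_integral_of_summable_integral_norm (μ := volume.restrict (Ioc 0 (1 / a)))
    (F := fun m => K.FF1 T t m) (fun m => K.FF1_int hT0 t m hX1) ?_
  · have e1 : (fun m => ∫ x in Ioc 0 (1 / a), K.FF1 T t m x) = (fun m : ℕ => ((2 / T : ℝ) : ℂ)
        * ((((m + 1 : ℕ) : ℝ) : ℂ) ^ ((1 / 2 + I * t : ℂ) - 1) * K.bet T t a (m + 1))) :=
      funext fun m => K.left_term hT0 t m ha0
    rw [e1] at h1
    have e2 : ∀ x ∈ Ioc (0 : ℝ) (1 / a), (x : ℂ) ^ ((1 / 2 + I * t : ℂ) - 1) • (Phi (K.phi T) x : ℂ)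
        = ∑' m : ℕ, K.FF1 T t m x := by
      intro x hx
      have hx0 : 0 < x := hx.1
      have hc : 0 < 1 / (x * T) := by positivity
      rw [K.poisson hT hx0]
      unfold FF1
      rw [tsum_mul_left, ← Complex.ofReal_tsum, tsum_mul_left, smul_eq_mul]
      rfl
    rw [setIntegral_congr_fun measurableSet_Ioc e2]
    exact h1
  · refine Summable.of_nonneg_of_le (fun m => integral_nonneg fun x => norm_nonneg _)
      (f := fun m : ℕ => (2 * K.B4 * T ^ 3 * (1 / a)) * (1 / ((m + 1 : ℕ) : ℝ) ^ 4)) (fun m => ?_) ?_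
    · have h2 := norm_setIntegral_le_of_norm_le_const (μ := volume) (s := Ioc 0 (1 / a))
        (f := fun x => ‖K.FF1 T t m x‖) (C := 2 * K.B4 * T ^ 3 / ((m + 1 : ℕ) : ℝ) ^ 4)
        (measure_Ioc_lt_top (μ := volume))
        (fun x hx => by
          rw [norm_norm]
          exact K.norm_FF1 hT0 t m hx.1 (hx.2.trans hX1))
      rw [Real.norm_eq_abs, abs_of_nonneg (integral_nonneg fun x => norm_nonneg _),
        Real.volume_real_Ioc_of_le (by positivity), sub_zero] at h2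
      refine h2.trans (le_of_eq ?_)
      ring
    · refine Summable.mul_left _ ?_
      exact (summable_nat_add_iff (f := fun n : ℕ => 1 / ((n : ℕ) : ℝ) ^ 4) 1).mpr
        (Real.summable_one_div_nat_pow.mpr (by norm_num : 1 < 4))

end Ker

end Pool.Agent.Lib.MP_f9aece_nt_h97
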