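import Mathlib
import Pool.Agent.Lib.MP_f9aece_nt_h97.FM1

/-!
Summation by parts for the dual part.
-/

set_option autoImplicit false

namespace Pool.Agent.Lib.MP_f9aece_nt_h97

open MeasureTheory Set Filter Topology Complex FourierTransform
open scoped ENNReal ContDiff SchwartzMap ComplexConjugate

namespace Ker

variable (K : Ker)

lemma norm_hU {T t u : ℝ} (hT : 0 < T) (hu : 1 ≤ u) :
    ‖K.hU T t u‖ ≤ K.B4 * T ^ 4 * u ^ (-4 : ℝ) := by
  have hB := K.B4_pos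
  have hu0 : 0 < u := by linarith
  unfold hU
  rw [norm_mul, Complex.norm_cpow_eq_rpow_re_of_pos hu0, Complex.norm_real, Real.norm_eq_abs, abs_mul]
  have e1 : (-(1 / 2 + I * t : ℂ)).re = -(1 / 2) := by simp
  rw [e1]
  have h1 := K.abs_G_le4 (w := u / T) (by positivity)
  have h2 := Real.abs_cos_le_one (2 * Real.pi * u)
  have h3 : u ^ (-(1 / 2) : ℝ) ≤ 1 := Real.rpow_le_one_of_one_le_of_nonpos hu (by norm_num)
  calc u ^ (-(1 / 2) : ℝ) * (|Real.cos (2 * Real.pi * u)| * |K.G (u / T)|)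
      ≤ 1 * (1 * (K.B4 / (u / T) ^ 4)) := by gcongr
    _ = K.B4 * T ^ 4 * u ^ (-4 : ℝ) := by
        have : u ^ (-4 : ℝ) = (u ^ 4)⁻¹ := by
          rw [Real.rpow_neg hu0.le]
          congr 1
          exact_mod_cast Real.rpow_natCast u 4
        rw [this]
        field_simp

lemma hU_contAt {T t u : ℝ} (hu : 0 < u) : ContinuousAt (K.hU T t) u := by
  unfold hU
  refine ContinuousAt.mul (Pool.Agent.Lib.MP_f9aece_nt.hasDerivAt_cpow_real hu _).continuousAt ?_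
  refine Complex.continuous_ofReal.continuousAt.comp ?_
  refine ContinuousAt.mul (Real.continuous_cos.continuousAt.comp (by fun_prop)) ?_
  exact K.G_cont.continuousAt.comp (by fun_prop)

lemma hU_int {T t : ℝ} (hT : 0 < T) {c : ℝ} (hc : 1 ≤ c) : IntegrableOn (K.hU T t) (Ioi c) := by
  have h1 : IntegrableOn (fun u : ℝ => K.B4 * T ^ 4 * u ^ (-4 : ℝ)) (Ioi c) :=
    (integrableOn_Ioi_rpow_of_lt (by norm_num) (by linarith)).const_mul _
  refine Integrable.mono' h1 ?_ ?_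
  · refine ContinuousOn.aestronglyMeasurable ?_ measurableSet_Ioi
    intro u hu
    have hu0 : 0 < u := by have : c < u := hu; linarith
    exact (K.hU_contAt hu0).continuousWithinAt
  · filter_upwards [ae_restrict_mem measurableSet_Ioi] with u hu
    have : c < u := hu
    exact K.norm_hU hT (by linarith)

lemma norm_tail {T t : ℝ} (hT : 0 < T) {c : ℝ} (hc : 1 ≤ c) :
    ‖∫ u in Ioi c, K.hU T t u‖ ≤ K.B4 * T ^ 4 / c ^ 3 := by
  have hB := K.B4_pos
  have h1 : IntegrableOn (fun u : ℝ => K.B4 * T ^ 4 * u ^ (-4 : ℝ)) (Ioi c) :=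
    (integrableOn_Ioi_rpow_of_lt (by norm_num) (by linarith)).const_mul _
  refine (norm_integral_le_of_norm_le h1 ?_).trans ?_
  · filter_upwards [ae_restrict_mem measurableSet_Ioi] with u hu
    have : c < u := hu
    exact K.norm_hU hT (by linarith)
  · rw [integral_const_mul, integral_Ioi_rpow_of_lt (by norm_num) (by linarith)]
    have hc0 : 0 < c := by linarith
    have e : c ^ ((-4 : ℝ) + 1) = (c ^ 3)⁻¹ := by
      have : (-4 : ℝ) + 1 = -(3 : ℝ) := by norm_num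
      rw [this, Real.rpow_neg hc0.le]
      congr 1
      exact_mod_cast Real.rpow_natCast c 3
    rw [e]
    have h2 : -(c ^ 3)⁻¹ / ((-4 : ℝ) + 1) = (c ^ 3)⁻¹ / 3 := by norm_num
    rw [h2, div_eq_mul_inv (K.B4 * T ^ 4)]
    gcongr
    have : 0 < (c ^ 3)⁻¹ := by positivity
    linarith

/-- the piece of the dual integral between consecutive multiples -/
noncomputable def gam (T t a : ℝ) (k : ℕ) : ℂ := ∫ u in Ioc ((k : ℝ) * a) (((k + 1 : ℕ) : ℝ) * a), K.hU T t u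

lemma bet_step {T t a : ℝ} (hT : 0 < T) (ha : 1 ≤ a) {k : ℕ} (hk : 1 ≤ k) :
    K.bet T t a k = K.gam T t a k + K.bet T t a (k + 1) := by
  have hk0 : (1 : ℝ) ≤ k := by exact_mod_cast hk
  have h1 : (1 : ℝ) ≤ (k : ℝ) * a := by nlinarith
  have h2 : (k : ℝ) * a ≤ ((k + 1 : ℕ) : ℝ) * a := by gcongr; omega
  unfold bet gam
  have hi := K.hU_int (t := t) hT h1
  rw [← setIntegral_union (Ioc_disjoint_Ioi le_rfl) measurableSet_Ioi
    (hi.mono_set Ioc_subset_Ioi_self) (hi.mono_set (Ioi_subset_Ioi h2)), Ioc_union_Ioi_eq_Ioi h2]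

/-- dual Dirichlet polynomial -/
noncomputable def DT (t : ℝ) (N : ℕ) : ℂ :=
  ∑ n ∈ Finset.range N, (((n + 1 : ℕ) : ℝ) : ℂ) ^ ((1 / 2 + I * t : ℂ) - 1)

lemma norm_DT (t : ℝ) (N : ℕ) : ‖DT t N‖ = ‖DSt t N‖ := by
  have : DT t N = conj (DSt t N) := by
    unfold DT DSt
    rw [map_sum]
    refine Finset.sum_congr rfl fun n _ => ?_
    have h0 : (0 : ℝ) < ((n + 1 : ℕ) : ℝ) := by positivity
    have h := Complex.cpow_conj (((n + 1 : ℕ) : ℝ) : ℂ) (-(1 / 2 + I * t : ℂ))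
      (by rw [Complex.arg_ofReal_of_nonneg h0.le]; exact Real.pi_pos.ne)
    rw [Complex.conj_ofReal] at h
    rw [← h]
    congr 1
    simp only [map_neg, map_add, map_div₀, map_one, map_mul, Complex.conj_I, Complex.conj_ofReal]
    have : conj (2 : ℂ) = 2 := by
      have := Complex.conj_ofReal 2
      simpa using this
    rw [this]
    ring
  rw [this, RCLike.norm_conj]

lemma norm_DT_le (t : ℝ) (N : ℕ) : ‖DT t N‖ ≤ N := by
  unfold DT
  refine (norm_sum_le _ _).trans ?_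
  have : ∀ n ∈ Finset.range N, ‖(((n + 1 : ℕ) : ℝ) : ℂ) ^ ((1 / 2 + I * t : ℂ) - 1)‖ ≤ 1 := by
    intro n _
    have h0 : (0 : ℝ) < ((n + 1 : ℕ) : ℝ) := by positivity
    rw [Complex.norm_cpow_eq_rpow_re_of_pos h0]
    refine Real.rpow_le_one_of_one_le_of_nonpos (by push_cast; linarith [Nat.cast_nonneg (α := ℝ) n]) ?_
    simp
    norm_num
  refine (Finset.sum_le_sum this).trans ?_
  simp

lemma abel {T t a : ℝ} (hT : 0 < T) (ha : 1 ≤ a) (M : ℕ) :
    ∑ m ∈ Finset.range M, (((m + 1 : ℕ) : ℝ) : ℂ) ^ ((1 / 2 + I * t : ℂ) - 1) * K.bet T t a (m + 1)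
      = ∑ m ∈ Finset.range M, DT t (m + 1) * K.gam T t a (m + 1) + DT t M * K.bet T t a (M + 1) := by
  induction M with
  | zero => simp [DT]
  | succ M ih =>
    rw [Finset.sum_range_succ, ih, Finset.sum_range_succ, K.bet_step hT ha (k := M + 1) (by omega)]
    have : DT t (M + 1) = DT t M + (((M + 1 : ℕ) : ℝ) : ℂ) ^ ((1 / 2 + I * t : ℂ) - 1) := by
      unfold DT
      rw [Finset.sum_range_succ]
    rw [this]
    ring

lemma norm_bet {T t a : ℝ} (hT : 0 < T) (ha : 1 ≤ a) {k : ℕ} (hk : 1 ≤ k) :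
    ‖K.bet T t a k‖ ≤ K.B4 * T ^ 4 / (k : ℝ) ^ 3 := by
  have hB := K.B4_pos
  have hk0 : (1 : ℝ) ≤ k := by exact_mod_cast hk
  have h1 : (1 : ℝ) ≤ (k : ℝ) * a := by nlinarith
  refine (K.norm_tail hT h1).trans ?_
  gcongr
  nlinarith

lemma tail_dual {T t a : ℝ} (hT : 1 ≤ T) (ha : 1 ≤ a) {M : ℕ} (hM : T ^ 2 ≤ M) :
    ‖∑' m : ℕ, (((m + M + 1 : ℕ) : ℝ) : ℂ) ^ ((1 / 2 + I * t : ℂ) - 1) * K.bet T t a (m + M + 1)‖
      ≤ 2 * K.B4 := by
  have hT0 : 0 < T := by linarith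
  have hB := K.B4_pos
  have hM0 : (0 : ℝ) < M := lt_of_lt_of_le (by positivity) hM
  have hM1 : 1 ≤ M := by exact_mod_cast hM0
  have h1 : ∀ m : ℕ, ‖(((m + M + 1 : ℕ) : ℝ) : ℂ) ^ ((1 / 2 + I * t : ℂ) - 1) * K.bet T t a (m + M + 1)‖
      ≤ (K.B4 * T ^ 4 / M) * (1 / ((m + M : ℕ) : ℝ) ^ 2) := by
    intro m
    have h0 : (0 : ℝ) < ((m + M + 1 : ℕ) : ℝ) := by positivity
    have h00 : (0 : ℝ) < ((m + M : ℕ) : ℝ) := by
      have : 1 ≤ m + M := by omega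
      exact_mod_cast this
    rw [norm_mul, Complex.norm_cpow_eq_rpow_re_of_pos h0]
    have h2 : ((m + M + 1 : ℕ) : ℝ) ^ ((1 / 2 + I * t : ℂ) - 1).re ≤ 1 := by
      refine Real.rpow_le_one_of_one_le_of_nonpos ?_ ?_
      · have : 1 ≤ m + M + 1 := by omega
        exact_mod_cast this
      · simp
        norm_num
    have h3 := K.norm_bet (t := t) hT0 ha (k := m + M + 1) (by omega)
    calc _ ≤ 1 * (K.B4 * T ^ 4 / ((m + M + 1 : ℕ) : ℝ) ^ 3) := by gcongr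
      _ ≤ 1 * (K.B4 * T ^ 4 / (M * ((m + M : ℕ) : ℝ) ^ 2)) := by
          gcongr
          have e1 : (M : ℝ) ≤ ((m + M + 1 : ℕ) : ℝ) := by
            have : M ≤ m + M + 1 := by omega
            exact_mod_cast this
          have e2 : ((m + M : ℕ) : ℝ) ≤ ((m + M + 1 : ℕ) : ℝ) := by
            have : m + M ≤ m + M + 1 := by omega
            exact_mod_cast this
          calc (M : ℝ) * ((m + M : ℕ) : ℝ) ^ 2 ≤ ((m + M + 1 : ℕ) : ℝ) * ((m + M + 1 : ℕ) : ℝ) ^ 2 := by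
                gcongr
            _ = ((m + M + 1 : ℕ) : ℝ) ^ 3 := by ring
      _ = _ := by field_simp
  have hs : Summable (fun m : ℕ => (K.B4 * T ^ 4 / M) * (1 / ((m + M : ℕ) : ℝ) ^ 2)) := by
    refine Summable.mul_left _ ?_
    exact (summable_nat_add_iff (f := fun n : ℕ => 1 / ((n : ℕ) : ℝ) ^ 2) M).mpr
      (Real.summable_one_div_nat_pow.mpr (by norm_num : 1 < 2))
  have h4 := tsum_of_norm_bounded hs.hasSum h1
  refine h4.trans ?_
  rw [tsum_mul_left]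
  have h5 := Pool.Agent.Lib.MP_f9aece_nt.tail_sum_sq M hM1
  calc K.B4 * T ^ 4 / M * ∑' m : ℕ, (1 / ((m + M : ℕ) : ℝ) ^ 2) ≤ K.B4 * T ^ 4 / M * (2 / M) := by
        gcongr
    _ = 2 * K.B4 * (T ^ 2 / M) ^ 2 := by field_simp
    _ ≤ 2 * K.B4 * 1 ^ 2 := by
        gcongr
        rw [div_le_one hM0]
        exact hM
    _ = 2 * K.B4 := by ring

/-- crude approximate functional equation -/
theorem zeta_le {T : ℝ} (hT : 2 * K.L ≤ T) {N M : ℕ} (hN1 : 1 ≤ N) (hN : (2 * N + 1) * K.L < T)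
    (hM : T ^ 2 ≤ M) {t : ℝ} (ht : 0 < t) :
    ‖riemannZeta (1 / 2 + I * t)‖ * ‖mellin (fun x => (K.phi T x : ℂ)) (1 / 2 + I * t)‖
      ≤ ‖mellin (fun x => (K.phi T x : ℂ)) (1 / 2 + I * t)‖ * ‖DSt t N‖
        + T⁻¹ * |K.m1| * ((N : ℝ) + 1 / 2) / t
        + 2 / T * (∑ m ∈ Finset.range M, ‖DSt t (m + 1)‖ * ‖K.gam T t ((N : ℝ) + 1 / 2) (m + 1)‖
          + 3 * K.B4) := by
  have hL := K.hL
  have hT0 : 0 < T := by linarith
  have hT1 : 1 ≤ T := by linarith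
  have hB4 := K.B4_pos
  set s : ℂ := 1 / 2 + I * t with hs
  set a : ℝ := (N : ℝ) + 1 / 2 with ha
  have hN1' : (1 : ℝ) ≤ N := by exact_mod_cast hN1
  have ha1 : 1 ≤ a := by rw [ha]; linarith
  have ha0 : 0 < a := by linarith
  have hX : 0 < 1 / a := by positivity
  have hmz := (K.phi_bmp hT).muntz ht
  rw [← hs] at hmz
  have h1 : riemannZeta s * mellin (fun x => (K.phi T x : ℂ)) s
      = (∫ x in Ioc 0 (1 / a), (x : ℂ) ^ (s - 1) • (Phi (K.phi T) x : ℂ))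
        + ∫ x in Ioi (1 / a), (x : ℂ) ^ (s - 1) • (Phi (K.phi T) x : ℂ) := by
    rw [← hmz.2, mellin]
    have hi : IntegrableOn (fun x : ℝ => (x : ℂ) ^ (s - 1) • (Phi (K.phi T) x : ℂ)) (Ioi 0) := hmz.1
    rw [← setIntegral_union (Ioc_disjoint_Ioi le_rfl) measurableSet_Ioi
      (hi.mono_set Ioc_subset_Ioi_self) (hi.mono_set (Ioi_subset_Ioi hX.le)), Ioc_union_Ioi_eq_Ioi hX.le]
  have hR := K.right_part hT hN (t := t)
  rw [← hs, ← ha] at hR
  have hLs := K.left_part hT t ha1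
  rw [← hs] at hLs
  rw [hR] at h1
  have h2 : (∫ x in Ioc 0 (1 / a), (x : ℂ) ^ (s - 1) • (Phi (K.phi T) x : ℂ))
      = ((2 / T : ℝ) : ℂ) * (∑ m ∈ Finset.range M, DT t (m + 1) * K.gam T t a (m + 1)
        + DT t M * K.bet T t a (M + 1)
        + ∑' m : ℕ, (((m + M + 1 : ℕ) : ℝ) : ℂ) ^ (s - 1) * K.bet T t a (m + M + 1)) := by
    have hc : ((2 / T : ℝ) : ℂ) ≠ 0 := by
      exact_mod_cast (by positivity : (2 / T : ℝ) ≠ 0)
    have hsum : Summable (fun m : ℕ => (((m + 1 : ℕ) : ℝ) : ℂ) ^ (s - 1) * K.bet T t a (m + 1)) :=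
      (summable_mul_left_iff hc).mp hLs.summable
    rw [← hLs.tsum_eq, tsum_mul_left, ← hsum.sum_add_tsum_nat_add M, ← K.abel hT0 ha1 M]
  have h3 : ‖∫ x in Ioc 0 (1 / a), (x : ℂ) ^ (s - 1) • (Phi (K.phi T) x : ℂ)‖
      ≤ 2 / T * (∑ m ∈ Finset.range M, ‖DSt t (m + 1)‖ * ‖K.gam T t a (m + 1)‖ + 3 * K.B4) := by
    rw [h2, norm_mul, Complex.norm_real, Real.norm_eq_abs, abs_of_pos (by positivity)]
    gcongr
    refine (norm_add_le _ _).trans ?_
    have h4 := K.tail_dual (t := t) hT1 ha1 hM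
    rw [← hs] at h4
    have hM0 : (0 : ℝ) < M := lt_of_lt_of_le (by positivity) hM
    have h5 : ‖DT t M * K.bet T t a (M + 1)‖ ≤ K.B4 := by
      rw [norm_mul]
      have h6 := K.norm_bet (t := t) hT0 ha1 (k := M + 1) (by omega)
      calc ‖DT t M‖ * ‖K.bet T t a (M + 1)‖ ≤ M * (K.B4 * T ^ 4 / ((M + 1 : ℕ) : ℝ) ^ 3) := by
            gcongr
            exact norm_DT_le t M
        _ ≤ M * (K.B4 * T ^ 4 / (M : ℝ) ^ 3) := by
            gcongr
            linarith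
        _ = K.B4 * (T ^ 2 / M) ^ 2 := by field_simp
        _ ≤ K.B4 * 1 ^ 2 := by
            gcongr
            rw [div_le_one hM0]
            exact hM
        _ = K.B4 := by ring
    have h7 : ‖∑ m ∈ Finset.range M, DT t (m + 1) * K.gam T t a (m + 1)‖
        ≤ ∑ m ∈ Finset.range M, ‖DSt t (m + 1)‖ * ‖K.gam T t a (m + 1)‖ := by
      refine (norm_sum_le _ _).trans (Finset.sum_le_sum fun m _ => ?_)
      rw [norm_mul, norm_DT]
    have h8 := norm_add_le (∑ m ∈ Finset.range M, DT t (m + 1) * K.gam T t a (m + 1))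
      (DT t M * K.bet T t a (M + 1))
    linarith
  have h9 : ‖((T⁻¹ * K.m1 : ℝ) : ℂ) * (((1 / a : ℝ) : ℂ) ^ (s - 1) / (s - 1))‖
      ≤ T⁻¹ * |K.m1| * a / t := by
    rw [norm_mul, norm_div, Complex.norm_real, Real.norm_eq_abs, abs_mul,
      abs_of_pos (inv_pos.mpr hT0), Complex.norm_cpow_eq_rpow_re_of_pos hX]
    have e1 : (s - 1).re = -(1 / 2) := by simp [hs]; norm_num
    rw [e1]
    have e2 : (1 / a) ^ (-(1 / 2) : ℝ) ≤ a := by
      rw [one_div, Real.inv_rpow ha0.le, ← Real.rpow_neg ha0.le, neg_neg]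
      calc a ^ (1 / 2 : ℝ) ≤ a ^ (1 : ℝ) := Real.rpow_le_rpow_of_exponent_le ha1 (by norm_num)
        _ = a := Real.rpow_one a
    have e3 : t ≤ ‖s - 1‖ := by
      have := Complex.abs_im_le_norm (s - 1)
      have e4 : (s - 1).im = t := by simp [hs]
      rw [e4, abs_of_pos ht] at this
      exact this
    calc T⁻¹ * |K.m1| * ((1 / a) ^ (-(1 / 2) : ℝ) / ‖s - 1‖) ≤ T⁻¹ * |K.m1| * (a / t) := by gcongr
      _ = _ := by ring
  rw [← norm_mul, h1]
  refine (norm_add_le _ _).trans ?_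
  have h10 := norm_add_le (mellin (fun x => (K.phi T x : ℂ)) s * DSt t N)
    (((T⁻¹ * K.m1 : ℝ) : ℂ) * (((1 / a : ℝ) : ℂ) ^ (s - 1) / (s - 1)))
  rw [norm_mul] at h10
  linarith

end Ker

end Pool.Agent.Lib.MP_f9aece_nt_h97
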