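import Mathlib
import Pool.Agent.Lib.MP_f9aece_nt_h97.FM1

/-!
First derivative test for the pieces of the dual integral.
-/

set_option autoImplicit false

namespace Pool.Agent.Lib.MP_f9aece_nt_h97

open MeasureTheory Set Filter Topology Complex FourierTransform
open scoped ENNReal ContDiff SchwartzMap ComplexConjugate

/-- oscillating factor -/
noncomputable def EE1 (σ t u : ℝ) : ℂ := cexp (((2 * Real.pi * σ * u - t * Real.log u : ℝ) : ℂ) * I)

lemma norm_EE1 (σ t u : ℝ) : ‖EE1 σ t u‖ = 1 := by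
  unfold EE1
  rw [Complex.norm_exp_ofReal_mul_I]

lemma EE1_deriv {σ t u : ℝ} (hu : 0 < u) :
    HasDerivAt (EE1 σ t) (((2 * Real.pi * σ - t / u : ℝ) : ℂ) * I * EE1 σ t u) u := by
  unfold EE1
  have h1 : HasDerivAt (fun v : ℝ => 2 * Real.pi * σ * v - t * Real.log v)
      (2 * Real.pi * σ - t / u) u := by
    have h2 := (hasDerivAt_id u).const_mul (2 * Real.pi * σ)
    have h3 := (Real.hasDerivAt_log hu.ne').const_mul t
    refine (h2.sub h3).congr_deriv ?_
    rw [mul_one, div_eq_mul_inv]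
  have h4 := (h1.ofReal_comp.mul_const I).cexp
  refine h4.congr_deriv ?_
  ring

/-- first derivative test -/
lemma first_deriv {σ t c d δ W V : ℝ} (hc : 0 < c) (hcd : c ≤ d) (ht : 0 < t) (hδ : 0 < δ)
    (hp : ∀ u ∈ Icc c d, δ ≤ |2 * Real.pi * σ - t / u|) {w w' : ℝ → ℝ}
    (hw : ∀ u ∈ Icc c d, HasDerivAt w (w' u) u) (hw' : ContinuousOn w' (Icc c d))
    (hW : ∀ u ∈ Icc c d, |w u| ≤ W) (hV : ∀ u ∈ Icc c d, |w' u| ≤ V) :
    ‖∫ u in c..d, (w u : ℂ) * EE1 σ t u‖ ≤ (4 * W + V * (d - c)) / δ := by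
  have hI : uIcc c d = Icc c d := uIcc_of_le hcd
  set p : ℝ → ℝ := fun u => 2 * Real.pi * σ - t / u with hpd
  have hpos : ∀ u ∈ Icc c d, 0 < u := fun u hu => lt_of_lt_of_le hc hu.1
  have hp0 : ∀ u ∈ Icc c d, p u ≠ 0 := fun u hu => by
    have := hp u hu
    intro h
    rw [hpd] at h
    simp only at h
    rw [h, abs_zero] at this
    linarith
  have hpder : ∀ u ∈ Icc c d, HasDerivAt p (t / u ^ 2) u := by
    intro u hu
    have hu0 := hpos u hu
    have h1 := ((hasDerivAt_inv hu0.ne').const_mul t).const_sub (2 * Real.pi * σ)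
    refine (h1.congr_deriv ?_)
    field_simp
  have hpcont : ContinuousOn p (Icc c d) := fun u hu => (hpder u hu).continuousAt.continuousWithinAt
  have hwcont : ContinuousOn w (Icc c d) := fun u hu => (hw u hu).continuousAt.continuousWithinAt
  have hEcont : ContinuousOn (EE1 σ t) (Icc c d) := fun u hu =>
    (EE1_deriv (hpos u hu)).continuousAt.continuousWithinAt
  set q : ℝ → ℝ := fun u => (p u)⁻¹ with hq
  have hqder : ∀ u ∈ Icc c d, HasDerivAt q (-(t / u ^ 2) / p u ^ 2) u := fun u hu =>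
    (hpder u hu).inv (hp0 u hu)
  have hqcont : ContinuousOn q (Icc c d) := fun u hu => (hqder u hu).continuousAt.continuousWithinAt
  have hqb : ∀ u ∈ Icc c d, |q u| ≤ 1 / δ := by
    intro u hu
    rw [hq]
    simp only
    rw [abs_inv, ← one_div]
    exact one_div_le_one_div_of_le hδ (hp u hu)
  have hq'cont : ContinuousOn (fun u => -(t / u ^ 2) / p u ^ 2) (Icc c d) := by
    refine ContinuousOn.div ?_ (hpcont.pow 2) (fun u hu => pow_ne_zero 2 (hp0 u hu))
    refine ContinuousOn.neg (ContinuousOn.div continuousOn_const (by fun_prop) ?_)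
    exact fun u hu => by have := hpos u hu; positivity
  -- primitive
  have hder : ∀ u ∈ uIcc c d, HasDerivAt (fun u => ((w u * q u : ℝ) : ℂ) * (-I) * EE1 σ t u)
      ((((w' u * q u : ℝ) : ℂ) + ((w u * (-(t / u ^ 2) / p u ^ 2) : ℝ) : ℂ)) * (-I) * EE1 σ t u
        + (w u : ℂ) * EE1 σ t u) u := by
    intro u hu
    rw [hI] at hu
    have h1 := (hw u hu).mul (hqder u hu)
    have h2 := (h1.ofReal_comp.mul_const (-I)).mul (EE1_deriv (σ := σ) (t := t) (hpos u hu))
    refine h2.congr_deriv ?_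
    have e1 : q u * p u = 1 := inv_mul_cancel₀ (hp0 u hu)
    have e2 : ((w u * q u : ℝ) : ℂ) * (-I) * (((p u : ℝ) : ℂ) * I * EE1 σ t u) = (w u : ℂ) * EE1 σ t u := by
      have e3 : ((w u * q u : ℝ) : ℂ) * ((p u : ℝ) : ℂ) = (w u : ℂ) := by
        rw [← Complex.ofReal_mul, mul_assoc, e1, mul_one]
      calc ((w u * q u : ℝ) : ℂ) * (-I) * (((p u : ℝ) : ℂ) * I * EE1 σ t u)
          = (((w u * q u : ℝ) : ℂ) * ((p u : ℝ) : ℂ)) * (-(I * I)) * EE1 σ t u := by ring
        _ = _ := by rw [e3, I_mul_I]; ring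
    have e4 : ((2 * Real.pi * σ - t / u : ℝ) : ℂ) = ((p u : ℝ) : ℂ) := rfl
    rw [e4]
    have e6 : (w * q) u = w u * q u := rfl
    rw [e6, e2]
    push_cast
    ring
  have hcont1 : ContinuousOn (fun u => (((w' u * q u : ℝ) : ℂ) + ((w u * (-(t / u ^ 2) / p u ^ 2) : ℝ) : ℂ))
      * (-I) * EE1 σ t u) (Icc c d) := by
    refine ContinuousOn.mul (ContinuousOn.mul ?_ continuousOn_const) hEcont
    refine ContinuousOn.add ?_ ?_
    · exact Complex.continuous_ofReal.comp_continuousOn (hw'.mul hqcont)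
    · exact Complex.continuous_ofReal.comp_continuousOn (hwcont.mul hq'cont)
  have hcont2 : ContinuousOn (fun u => (w u : ℂ) * EE1 σ t u) (Icc c d) :=
    (Complex.continuous_ofReal.comp_continuousOn hwcont).mul hEcont
  have hi1 : IntervalIntegrable (fun u => (((w' u * q u : ℝ) : ℂ) + ((w u * (-(t / u ^ 2) / p u ^ 2) : ℝ) : ℂ))
      * (-I) * EE1 σ t u) volume c d := (hcont1.mono (by rw [hI])).intervalIntegrable
  have hi2 : IntervalIntegrable (fun u => (w u : ℂ) * EE1 σ t u) volume c d :=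
    (hcont2.mono (by rw [hI])).intervalIntegrable
  have hftc := intervalIntegral.integral_eq_sub_of_hasDerivAt hder (hi1.add hi2)
  rw [intervalIntegral.integral_add hi1 hi2] at hftc
  -- the monotone part
  have hq' : ∫ u in c..d, -(-(t / u ^ 2) / p u ^ 2) = -(q d - q c) := by
    rw [intervalIntegral.integral_neg]
    congr 1
    refine intervalIntegral.integral_eq_sub_of_hasDerivAt (fun u hu => hqder u (by rwa [hI] at hu)) ?_
    exact (hq'cont.mono (by rw [hI])).intervalIntegrable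
  have hcm : c ∈ Icc c d := ⟨le_rfl, hcd⟩
  have hdm : d ∈ Icc c d := ⟨hcd, le_rfl⟩
  have hW0 : 0 ≤ W := (abs_nonneg _).trans (hW c hcm)
  have hV0 : 0 ≤ V := (abs_nonneg _).trans (hV c hcm)
  have hb1 : ‖∫ u in c..d, (((w' u * q u : ℝ) : ℂ) + ((w u * (-(t / u ^ 2) / p u ^ 2) : ℝ) : ℂ))
      * (-I) * EE1 σ t u‖ ≤ V * (d - c) / δ + 2 * W / δ := by
    have hbi : IntervalIntegrable (fun u => V / δ + W * (-(-(t / u ^ 2) / p u ^ 2))) volume c d := by
      refine ContinuousOn.intervalIntegrable ?_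
      rw [hI]
      exact continuousOn_const.add (continuousOn_const.mul hq'cont.neg)
    have h1 := intervalIntegral.norm_integral_le_of_norm_le (μ := volume)
      (f := fun u => (((w' u * q u : ℝ) : ℂ) + ((w u * (-(t / u ^ 2) / p u ^ 2) : ℝ) : ℂ))
      * (-I) * EE1 σ t u) hcd ?_ hbi
    · refine h1.trans ?_
      rw [intervalIntegral.integral_add (by simp) ?_, intervalIntegral.integral_const,
        intervalIntegral.integral_const_mul, hq']
      · have h2 := hqb d hdm
        have h3 := hqb c hcm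
        rw [abs_le] at h2 h3
        have h4 : -(q d - q c) ≤ 2 / δ := by
          have : 2 / δ = 1 / δ + 1 / δ := by ring
          linarith
        have h5 : W * -(q d - q c) ≤ W * (2 / δ) := mul_le_mul_of_nonneg_left h4 hW0
        rw [smul_eq_mul]
        have e1 : (d - c) * (V / δ) = V * (d - c) / δ := by ring
        have e2 : W * (2 / δ) = 2 * W / δ := by ring
        linarith
      · refine ContinuousOn.intervalIntegrable ?_
        rw [hI]
        exact continuousOn_const.mul hq'cont.neg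
    · refine Eventually.of_forall fun u hu => ?_
      have hu' : u ∈ Icc c d := ⟨hu.1.le, hu.2⟩
      have hu0 := hpos u hu'
      rw [norm_mul, norm_mul, norm_neg, norm_I, mul_one, norm_EE1, mul_one]
      refine (norm_add_le _ _).trans ?_
      rw [Complex.norm_real, Complex.norm_real, Real.norm_eq_abs, Real.norm_eq_abs, abs_mul, abs_mul]
      have e1 : |(-(t / u ^ 2) / p u ^ 2)| = -(-(t / u ^ 2) / p u ^ 2) := by
        have : -(-(t / u ^ 2) / p u ^ 2) = (t / u ^ 2) / p u ^ 2 := by ring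
        rw [← abs_neg, this, abs_of_nonneg]
        positivity
      rw [e1]
      have h3 : 0 ≤ -(-(t / u ^ 2) / p u ^ 2) := by
        have : -(-(t / u ^ 2) / p u ^ 2) = (t / u ^ 2) / p u ^ 2 := by ring
        rw [this]
        positivity
      have h4 : |w' u| * |q u| ≤ V * (1 / δ) :=
        mul_le_mul (hV u hu') (hqb u hu') (abs_nonneg _) hV0
      have h5 : |w u| * (-(-(t / u ^ 2) / p u ^ 2)) ≤ W * (-(-(t / u ^ 2) / p u ^ 2)) :=
        mul_le_mul_of_nonneg_right (hW u hu') h3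
      have e2 : V / δ = V * (1 / δ) := by ring
      rw [e2]
      linarith
  have hF : ∀ u ∈ Icc c d, ‖((w u * q u : ℝ) : ℂ) * (-I) * EE1 σ t u‖ ≤ W / δ := by
    intro u hu
    rw [norm_mul, norm_mul, norm_neg, norm_I, mul_one, norm_EE1, mul_one, Complex.norm_real,
      Real.norm_eq_abs, abs_mul]
    calc |w u| * |q u| ≤ W * (1 / δ) := mul_le_mul (hW u hu) (hqb u hu) (abs_nonneg _) hW0
      _ = W / δ := by ring
  have hfin : ∫ u in c..d, (w u : ℂ) * EE1 σ t u
      = (((w d * q d : ℝ) : ℂ) * (-I) * EE1 σ t d - ((w c * q c : ℝ) : ℂ) * (-I) * EE1 σ t c)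
        - ∫ u in c..d, (((w' u * q u : ℝ) : ℂ) + ((w u * (-(t / u ^ 2) / p u ^ 2) : ℝ) : ℂ))
      * (-I) * EE1 σ t u := by
    rw [← hftc]
    ring
  rw [hfin]
  refine (norm_sub_le _ _).trans ?_
  have h6 := norm_sub_le (((w d * q d : ℝ) : ℂ) * (-I) * EE1 σ t d)
    (((w c * q c : ℝ) : ℂ) * (-I) * EE1 σ t c)
  have h7 := hF d hdm
  have h8 := hF c hcm
  have e5 : (4 * W + V * (d - c)) / δ = W / δ + W / δ + (V * (d - c) / δ + 2 * W / δ) := by ring
  rw [e5]
  linarith

end Pool.Agent.Lib.MP_f9aece_nt_h97
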