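import Mathlib
import Pool.Agent.Lib.MP_f9aece_nt_h97.FM2
import Pool.Agent.Lib.MP_f9aece_nt_h97.FM3

/-!
Bounds for the pieces of the dual integral.
-/

set_option autoImplicit false

namespace Pool.Agent.Lib.MP_f9aece_nt_h97

open MeasureTheory Set Filter Topology Complex FourierTransform
open scoped ENNReal ContDiff SchwartzMap ComplexConjugate

namespace Ker

variable (K : Ker)

lemma schwartz_decay (f : 𝓢(ℝ, ℂ)) (j : ℕ) : ∃ C : ℝ, 0 < C ∧ ∀ w : ℝ, 0 ≤ w →
    ‖f w‖ ≤ C / (1 + w) ^ j := by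
  obtain ⟨B0, hB0, h0⟩ := f.decay 0 0
  obtain ⟨B1, hB1, h1⟩ := f.decay j 0
  refine ⟨2 ^ (j - 1) * (B0 + B1), by positivity, fun w hw => ?_⟩
  have e0 := h0 w
  have e1 := h1 w
  rw [norm_iteratedFDeriv_zero] at e0 e1
  rw [Real.norm_eq_abs, abs_of_nonneg hw] at e0 e1
  rw [pow_zero, one_mul] at e0
  rw [le_div_iff₀ (by positivity)]
  have h3 : (1 + w) ^ j ≤ 2 ^ (j - 1) * (1 ^ j + w ^ j) := add_pow_le zero_le_one hw j
  rw [one_pow] at h3
  calc ‖f w‖ * (1 + w) ^ j ≤ ‖f w‖ * (2 ^ (j - 1) * (1 + w ^ j)) := by gcongr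
    _ = 2 ^ (j - 1) * (‖f w‖ + w ^ j * ‖f w‖) := by ring
    _ ≤ _ := by gcongr

lemma G_decays (j : ℕ) : ∃ C : ℝ, 0 < C ∧ ∀ w : ℝ, 0 ≤ w →
    |K.G w| ≤ C / (1 + w) ^ j ∧ |K.G' w| ≤ C / (1 + w) ^ j := by
  obtain ⟨C1, hC1, h1⟩ := schwartz_decay (𝓕 K.gS : 𝓢(ℝ, ℂ)) j
  obtain ⟨C2, hC2, h2⟩ := schwartz_decay (SchwartzMap.derivCLM ℝ ℂ (𝓕 K.gS : 𝓢(ℝ, ℂ))) j
  refine ⟨C1 + C2, by positivity, fun w hw => ⟨?_, ?_⟩⟩
  · refine (Complex.abs_re_le_norm _).trans ((h1 w hw).trans ?_)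
    gcongr
    linarith
  · refine (Complex.abs_re_le_norm _).trans ((h2 w hw).trans ?_)
    gcongr
    linarith

/-- amplitude -/
noncomputable def ww (T u : ℝ) : ℝ := u ^ (-(1 / 2) : ℝ) * K.G (u / T)

/-- derivative of the amplitude -/
noncomputable def ww' (T u : ℝ) : ℝ :=
  (-(1 / 2) * u ^ (-(1 / 2) - 1 : ℝ)) * K.G (u / T) + u ^ (-(1 / 2) : ℝ) * (K.G' (u / T) * (1 / T))

lemma ww_deriv {T u : ℝ} (hu : 0 < u) : HasDerivAt (K.ww T) (K.ww' T u) u := by
  unfold ww ww'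
  have h1 := Real.hasDerivAt_rpow_const (x := u) (p := -(1 / 2)) (Or.inl hu.ne')
  have h0 : HasDerivAt (fun v : ℝ => v / T) (1 / T) u := (hasDerivAt_id u).div_const T
  have h2 : HasDerivAt (fun v : ℝ => K.G (v / T)) (K.G' (u / T) * (1 / T)) u :=
    HasDerivAt.comp u (h₂ := K.G) (h := fun v : ℝ => v / T) (K.G_hasDerivAt (u / T)) h0
  exact h1.mul h2

lemma ww'_contAt {T u : ℝ} (hu : 0 < u) : ContinuousAt (K.ww' T) u := by
  unfold ww'
  refine ContinuousAt.add (ContinuousAt.mul ?_ ?_) (ContinuousAt.mul ?_ ?_)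
  · exact ContinuousAt.mul continuousAt_const (Real.continuousAt_rpow_const _ _ (Or.inl hu.ne'))
  · exact K.G_cont.continuousAt.comp (by fun_prop)
  · exact Real.continuousAt_rpow_const _ _ (Or.inl hu.ne')
  · exact ContinuousAt.mul (K.G'_cont.continuousAt.comp (by fun_prop)) continuousAt_const

lemma hU_eq {T t u : ℝ} (hu : 0 < u) :
    K.hU T t u = (1 / 2 : ℂ) * ((K.ww T u : ℂ) * EE1 1 t u) + (1 / 2 : ℂ) * ((K.ww T u : ℂ) * EE1 (-1) t u) := by
  have huc : (u : ℂ) ≠ 0 := by exact_mod_cast hu.ne'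
  unfold hU ww EE1
  have e1 : (u : ℂ) ^ (-(1 / 2 + I * t : ℂ)) = ((u ^ (-(1 / 2) : ℝ) : ℝ) : ℂ) * cexp (((-(t * Real.log u) : ℝ) : ℂ) * I) := by
    rw [Complex.ofReal_cpow hu.le, Complex.cpow_def_of_ne_zero huc, Complex.cpow_def_of_ne_zero huc,
      ← Complex.exp_add]
    congr 1
    push_cast
    rw [Complex.ofReal_log hu.le]
    ring
  have e2 : ((Real.cos (2 * Real.pi * u) : ℝ) : ℂ)
      = (1 / 2 : ℂ) * (cexp (((2 * Real.pi * u : ℝ) : ℂ) * I) + cexp (((-(2 * Real.pi * u) : ℝ) : ℂ) * I)) := by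
    rw [Complex.ofReal_cos, Complex.cos]
    push_cast
    ring_nf
  have e3 : cexp (((2 * Real.pi * 1 * u - t * Real.log u : ℝ) : ℂ) * I)
      = cexp (((2 * Real.pi * u : ℝ) : ℂ) * I) * cexp (((-(t * Real.log u) : ℝ) : ℂ) * I) := by
    rw [← Complex.exp_add]
    congr 1
    push_cast
    ring
  have e4 : cexp (((2 * Real.pi * (-1) * u - t * Real.log u : ℝ) : ℂ) * I)
      = cexp (((-(2 * Real.pi * u) : ℝ) : ℂ) * I) * cexp (((-(t * Real.log u) : ℝ) : ℂ) * I) := by
    rw [← Complex.exp_add]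
    congr 1
    push_cast
    ring
  rw [e1, e3, e4, Complex.ofReal_mul (Real.cos _), e2, Complex.ofReal_mul (u ^ _)]
  ring

/-- trivial and derivative bounds for one piece -/
lemma gam_bounds {C T : ℝ} (hC : 0 < C) (hT : 0 < T) {j : ℕ}
    (hG : ∀ w : ℝ, 0 ≤ w → |K.G w| ≤ C / (1 + w) ^ j ∧ |K.G' w| ≤ C / (1 + w) ^ j)
    {a : ℝ} (ha : 0 < a) (haT : a ≤ T) {k : ℕ} (hk : 1 ≤ k) {t : ℝ} (ht : 0 < t) :
    ‖K.gam T t a k‖ ≤ a * (((k : ℝ) * a) ^ (-(1 / 2) : ℝ) * (C / (1 + (k : ℝ) * a / T) ^ j)) ∧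
    ∀ δ : ℝ, 0 < δ → (∀ u ∈ Icc ((k : ℝ) * a) (((k + 1 : ℕ) : ℝ) * a), δ ≤ |2 * Real.pi * 1 - t / u| ∧
      δ ≤ |2 * Real.pi * (-1) - t / u|) →
      ‖K.gam T t a k‖ ≤ 6 * (((k : ℝ) * a) ^ (-(1 / 2) : ℝ) * (C / (1 + (k : ℝ) * a / T) ^ j)) / δ := by
  have hk0 : (1 : ℝ) ≤ k := by exact_mod_cast hk
  set c : ℝ := (k : ℝ) * a with hc
  set d : ℝ := ((k + 1 : ℕ) : ℝ) * a with hd
  have hc0 : 0 < c := by positivity
  have hca : a ≤ c := le_mul_of_one_le_left ha.le hk0
  have hdc : d - c = a := by rw [hc, hd]; push_cast; ring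
  have hcd : c ≤ d := by linarith
  set W : ℝ := c ^ (-(1 / 2) : ℝ) * (C / (1 + c / T) ^ j) with hW
  have hW0 : 0 ≤ W := by positivity
  have hGu : ∀ u ∈ Icc c d, |K.G (u / T)| ≤ C / (1 + c / T) ^ j ∧ |K.G' (u / T)| ≤ C / (1 + c / T) ^ j := by
    intro u hu
    have hu0 : 0 < u := lt_of_lt_of_le hc0 hu.1
    have h1 : C / (1 + u / T) ^ j ≤ C / (1 + c / T) ^ j := by
      have := hu.1
      gcongr
    exact ⟨((hG (u / T) (by positivity)).1).trans h1, ((hG (u / T) (by positivity)).2).trans h1⟩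
  have hru : ∀ u ∈ Icc c d, u ^ (-(1 / 2) : ℝ) ≤ c ^ (-(1 / 2) : ℝ) := fun u hu =>
    Real.rpow_le_rpow_of_nonpos hc0 hu.1 (by norm_num)
  have hw : ∀ u ∈ Icc c d, |K.ww T u| ≤ W := by
    intro u hu
    have hu0 : 0 < u := lt_of_lt_of_le hc0 hu.1
    unfold ww
    rw [abs_mul, abs_of_pos (by positivity : 0 < u ^ (-(1 / 2) : ℝ))]
    exact mul_le_mul (hru u hu) (hGu u hu).1 (abs_nonneg _) (by positivity)
  have hw' : ∀ u ∈ Icc c d, |K.ww' T u| ≤ 3 / 2 * W / a := by
    intro u hu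
    have hu0 : 0 < u := lt_of_lt_of_le hc0 hu.1
    unfold ww'
    refine (abs_add_le _ _).trans ?_
    rw [abs_mul, abs_mul, abs_mul, abs_mul, abs_of_pos (by positivity : 0 < u ^ (-(1 / 2) - 1 : ℝ)),
      abs_of_pos (by positivity : 0 < u ^ (-(1 / 2) : ℝ)), abs_of_pos (by positivity : 0 < 1 / T)]
    have h1 : u ^ (-(1 / 2) - 1 : ℝ) ≤ c ^ (-(1 / 2) : ℝ) * (1 / a) := by
      rw [Real.rpow_sub_one hu0.ne', div_eq_mul_one_div]
      have : 1 / u ≤ 1 / a := by
        gcongr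
        exact hca.trans hu.1
      exact mul_le_mul (hru u hu) this (by positivity) (by positivity)
    have h2 : |(-(1 / 2) : ℝ)| = 1 / 2 := by norm_num
    rw [h2]
    have h3 : 1 / T ≤ 1 / a := by gcongr
    calc 1 / 2 * u ^ (-(1 / 2) - 1 : ℝ) * |K.G (u / T)| + u ^ (-(1 / 2) : ℝ) * (|K.G' (u / T)| * (1 / T))
        ≤ 1 / 2 * (c ^ (-(1 / 2) : ℝ) * (1 / a)) * (C / (1 + c / T) ^ j)
          + c ^ (-(1 / 2) : ℝ) * ((C / (1 + c / T) ^ j) * (1 / a)) := by
          have g1 := (hGu u hu).1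
          have g2 := (hGu u hu).2
          have g3 := hru u hu
          gcongr
      _ = 3 / 2 * W / a := by rw [hW]; ring
  have hint : ∀ σ : ℝ, ContinuousOn (fun u => (K.ww T u : ℂ) * EE1 σ t u) (Icc c d) := by
    intro σ u hu
    have hu0 : 0 < u := lt_of_lt_of_le hc0 hu.1
    refine ContinuousAt.continuousWithinAt ?_
    exact (Complex.continuous_ofReal.continuousAt.comp (K.ww_deriv hu0).continuousAt).mul
      (EE1_deriv hu0).continuousAt
  have hsplit : K.gam T t a k = (1 / 2 : ℂ) * (∫ u in c..d, (K.ww T u : ℂ) * EE1 1 t u)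
      + (1 / 2 : ℂ) * (∫ u in c..d, (K.ww T u : ℂ) * EE1 (-1) t u) := by
    unfold gam
    rw [← hc, ← hd, ← intervalIntegral.integral_of_le hcd, ← intervalIntegral.integral_const_mul,
      ← intervalIntegral.integral_const_mul, ← intervalIntegral.integral_add]
    · refine intervalIntegral.integral_congr fun u hu => ?_
      rw [uIcc_of_le hcd] at hu
      exact K.hU_eq (lt_of_lt_of_le hc0 hu.1)
    · refine ContinuousOn.intervalIntegrable ?_
      rw [uIcc_of_le hcd]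
      exact continuousOn_const.mul (hint 1)
    · refine ContinuousOn.intervalIntegrable ?_
      rw [uIcc_of_le hcd]
      exact continuousOn_const.mul (hint (-1))
  have hhalf : ‖(1 / 2 : ℂ)‖ = 1 / 2 := by norm_num
  constructor
  · have h1 : ∀ σ : ℝ, ‖∫ u in c..d, (K.ww T u : ℂ) * EE1 σ t u‖ ≤ W * (d - c) := by
      intro σ
      have := intervalIntegral.norm_integral_le_of_norm_le_const (a := c) (b := d) (C := W)
        (f := fun u => (K.ww T u : ℂ) * EE1 σ t u) ?_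
      · rwa [abs_of_nonneg (by linarith)] at this
      · intro u hu
        rw [uIoc_of_le hcd] at hu
        rw [norm_mul, norm_EE1, mul_one, Complex.norm_real, Real.norm_eq_abs]
        exact hw u ⟨hu.1.le, hu.2⟩
    rw [hsplit]
    refine (norm_add_le _ _).trans ?_
    rw [norm_mul, norm_mul, hhalf]
    have h2 := h1 1
    have h3 := h1 (-1)
    rw [hdc] at h2 h3
    linarith
  · intro δ hδ hp
    have h1 : ∀ σ : ℝ, (∀ u ∈ Icc c d, δ ≤ |2 * Real.pi * σ - t / u|) →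
        ‖∫ u in c..d, (K.ww T u : ℂ) * EE1 σ t u‖ ≤ (4 * W + 3 / 2 * W / a * (d - c)) / δ := by
      intro σ hσ
      exact first_deriv hc0 hcd ht hδ hσ (fun u hu => K.ww_deriv (lt_of_lt_of_le hc0 hu.1))
        (fun u hu => (K.ww'_contAt (lt_of_lt_of_le hc0 hu.1)).continuousWithinAt) hw hw'
    rw [hsplit]
    refine (norm_add_le _ _).trans ?_
    rw [norm_mul, norm_mul, hhalf]
    have h2 := h1 1 (fun u hu => (hp u hu).1)
    have h3 := h1 (-1) (fun u hu => (hp u hu).2)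
    rw [hdc] at h2 h3
    have e1 : (4 * W + 3 / 2 * W / a * a) / δ = 11 / 2 * W / δ := by
      field_simp
      ring
    rw [e1] at h2 h3
    have h4 : 11 / 2 * W / δ ≤ 6 * W / δ := by
      gcongr
      norm_num
    linarith

/-- the final bound for the pieces of the dual integral -/
theorem gam_le : ∃ C : ℝ, 0 < C ∧ ∀ T a : ℝ, 1000 ≤ a → T ≤ a ^ 2 → a ^ 2 ≤ 9 * T → a ≤ T →
    ∀ t : ℝ, T / 2 ≤ t → t ≤ T → ∀ k : ℕ, 1 ≤ k →
    ‖K.gam T t a k‖ ≤ C * (a / (a + |(k : ℝ) * a - t / (2 * Real.pi)|)) / (1 + (k : ℝ) / a) ^ 4 := by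
  obtain ⟨C, hC, hG⟩ := K.G_decays 5
  refine ⟨60 * C, by positivity, fun T a ha1 haT haT' haT1 t ht1 ht2 k hk => ?_⟩
  have ha0 : 0 < a := by linarith
  have hT : 0 < T := by linarith
  have ht : 0 < t := by linarith
  have hk0 : (1 : ℝ) ≤ k := by exact_mod_cast hk
  have hpi := Real.pi_pos
  have hpi3 := Real.pi_gt_three
  have hpi4 : Real.pi < 4 := by linarith [Real.pi_lt_d2]
  obtain ⟨b1, b2⟩ := K.gam_bounds hC hT hG ha0 haT1 hk ht
  set c : ℝ := (k : ℝ) * a with hc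
  have hc0 : 0 < c := by positivity
  have hca : a ≤ c := le_mul_of_one_le_left ha0.le hk0
  set τ : ℝ := t / (2 * Real.pi) with hτ
  have hτ0 : 0 < τ := by positivity
  have htτ : t = 2 * Real.pi * τ := by rw [hτ]; field_simp
  -- size of tau
  have hτ1 : a ^ 2 / 144 ≤ τ := by
    rw [hτ, div_le_div_iff₀ (by norm_num) (by positivity)]
    have : a ^ 2 ≤ 18 * t := by linarith
    calc a ^ 2 * (2 * Real.pi) ≤ (18 * t) * (2 * 4) := by gcongr
      _ = t * 144 := by ring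
  have hdec : 1 / (1 + c / T) ^ 5 ≤ 1 / (1 + (k : ℝ) / a) ^ 5 := by
    have h1 : (k : ℝ) / a ≤ c / T := by
      rw [div_le_div_iff₀ ha0 hT, hc]
      calc (k : ℝ) * T ≤ k * a ^ 2 := by gcongr
        _ = k * a * a := by ring
    gcongr
  set X : ℝ := 1 + (k : ℝ) / a with hX
  have hX0 : 0 < X := by positivity
  have hX1 : 1 ≤ X := by rw [hX]; have : 0 < (k : ℝ) / a := by positivity
                         linarith
  set r : ℝ := c ^ (-(1 / 2) : ℝ) with hr
  have hr0 : 0 < r := by positivity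
  have hr2 : r ^ 2 = 1 / c := by
    rw [hr, ← Real.rpow_natCast, ← Real.rpow_mul hc0.le]
    norm_num
    exact Real.rpow_neg_one c
  have hCd : C / (1 + c / T) ^ 5 ≤ C * (1 / X ^ 5) := by
    rw [div_eq_mul_one_div]
    gcongr
  by_cases hcase : 2 * a ≤ |c - τ|
  · -- away from the stationary point
    have habs : 0 < |c - τ| := by linarith
    have hδ : 0 < |c - τ| / c := by positivity
    have h3 := b2 (|c - τ| / c) hδ ?_
    · refine h3.trans ?_
      have hrc : r * c ≤ a * X := by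
        have e1 : (r * c) ^ 2 ≤ (a * X) ^ 2 := by
          rw [mul_pow, hr2, hX]
          have e2 : 1 / c * c ^ 2 = c := by field_simp
          have e3 : a * (1 + (k : ℝ) / a) = a + k := by field_simp
          rw [e2, e3, hc]
          have e4 : 0 ≤ a ^ 2 + a * k + (k : ℝ) ^ 2 := by positivity
          calc (k : ℝ) * a ≤ k * a + (a ^ 2 + a * k + (k : ℝ) ^ 2) := by linarith
            _ = (a + k) ^ 2 := by ring
        exact le_of_sq_le_sq e1 (by positivity)
      have hfr : a / |c - τ| ≤ 3 / 2 * (a / (a + |c - τ|)) := by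
        rw [mul_div_assoc', div_le_div_iff₀ habs (by positivity)]
        calc a * (a + |c - τ|) ≤ a * (|c - τ| / 2 + |c - τ|) := by gcongr; linarith
          _ = 3 / 2 * a * |c - τ| := by ring
      calc 6 * (r * (C / (1 + c / T) ^ 5)) / (|c - τ| / c)
          = 6 * (r * c) * (C / (1 + c / T) ^ 5) / |c - τ| := by field_simp
        _ ≤ 6 * (a * X) * (C * (1 / X ^ 5)) / |c - τ| := by gcongr
        _ = 6 * C * (a / |c - τ|) / X ^ 4 := by field_simp
        _ ≤ 6 * C * (3 / 2 * (a / (a + |c - τ|))) / X ^ 4 := by gcongr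
        _ = 9 * C * (a / (a + |c - τ|)) / X ^ 4 := by ring
        _ ≤ 60 * C * (a / (a + |c - τ|)) / X ^ 4 := by
            gcongr
            norm_num
    · intro u hu
      have hu1 := hu.1
      have hu2 := hu.2
      have hu0 : 0 < u := lt_of_lt_of_le hc0 hu1
      have hd : ((k + 1 : ℕ) : ℝ) * a = c + a := by rw [hc]; push_cast; ring
      rw [hd] at hu2
      have huc : |u - c| ≤ a := by rw [abs_of_nonneg (by linarith)]; linarith
      have h4 : |c - τ| / 2 ≤ |u - τ| := by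
        have : |c - τ| ≤ |u - c| + |u - τ| := by
          have e1 : c - τ = -(u - c) + (u - τ) := by ring
          rw [e1]
          exact (abs_add_le _ _).trans (by rw [abs_neg])
        linarith
      have hu2c : u ≤ 2 * c := by linarith
      constructor
      · have e1 : 2 * Real.pi * 1 - t / u = 2 * Real.pi * ((u - τ) / u) := by
          rw [htτ]; field_simp
        rw [e1, abs_mul, abs_div, abs_of_pos hu0, abs_of_pos (by positivity : 0 < 2 * Real.pi)]
        have e2 : |c - τ| / c ≤ 4 * (|u - τ| / u) := by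
          rw [mul_div_assoc', div_le_div_iff₀ hc0 hu0]
          calc |c - τ| * u ≤ (2 * |u - τ|) * (2 * c) := by gcongr; linarith
            _ = 4 * |u - τ| * c := by ring
        have e3 : 0 ≤ |u - τ| / u := by positivity
        exact e2.trans (mul_le_mul_of_nonneg_right (by linarith) e3)
      · have e1 : 2 * Real.pi * (-1) - t / u = -(2 * Real.pi * ((u + τ) / u)) := by
          rw [htτ]; field_simp; ring
        have e0 : 0 < 2 * Real.pi * ((u + τ) / u) := by positivity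
        rw [e1, abs_neg, abs_of_pos e0]
        have e2 : |c - τ| ≤ c + τ := by
          rw [abs_le]; constructor <;> linarith
        have e3 : |c - τ| / c ≤ (c + τ) / c := by gcongr
        have e4 : (c + τ) / c ≤ 2 * ((u + τ) / u) := by
          rw [mul_div_assoc', div_le_div_iff₀ hc0 hu0]
          have g1 : τ * u ≤ τ * (2 * c) := by gcongr
          have g2 : 0 ≤ c * u := by positivity
          calc (c + τ) * u = c * u + τ * u := by ring
            _ ≤ c * u + c * u + τ * (2 * c) := by linarith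
            _ = 2 * (u + τ) * c := by ring
        have e5 : 0 ≤ (u + τ) / u := by positivity
        exact (e3.trans e4).trans (mul_le_mul_of_nonneg_right (by linarith) e5)
  · -- near the stationary point
    push Not at hcase
    refine b1.trans ?_
    have hcτ : τ / 2 ≤ c := by
      have h5 := abs_lt.mp hcase
      have : 4 * a ≤ τ := by
        have g1 : 1000 * a ≤ a ^ 2 := by rw [sq]; gcongr
        linarith
      linarith [h5.1]
    have h6 : a * r ≤ 17 := by
      have e1 : (a * r) ^ 2 ≤ 17 ^ 2 := by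
        rw [mul_pow, hr2, mul_one_div, div_le_iff₀ hc0]
        linarith
      exact le_of_sq_le_sq e1 (by norm_num)
    have h7 : (1 : ℝ) / 3 ≤ a / (a + |c - τ|) := by
      rw [div_le_div_iff₀ (by norm_num) (by positivity)]
      linarith
    have h8 : 1 / X ^ 5 ≤ 1 / X ^ 4 := by
      apply one_div_le_one_div_of_le (by positivity)
      exact pow_le_pow_right₀ hX1 (by norm_num)
    calc a * (r * (C / (1 + c / T) ^ 5)) = (a * r) * (C / (1 + c / T) ^ 5) := by ring
      _ ≤ 17 * (C * (1 / X ^ 5)) := by gcongr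
      _ ≤ 17 * (C * (1 / X ^ 4)) := by gcongr
      _ = 51 * C * (1 / 3) / X ^ 4 := by ring
      _ ≤ 60 * C * (a / (a + |c - τ|)) / X ^ 4 := by gcongr; norm_num

end Ker

end Pool.Agent.Lib.MP_f9aece_nt_h97
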