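import Mathlib

/-!
Elementary sums for the fourth moment.
-/

set_option autoImplicit false

namespace Pool.Agent.Lib.MP_f9aece_nt_h97

/-- harmonic sum -/
noncomputable def Hn (n : ℕ) : ℝ := ∑ j ∈ Finset.range n, 1 / ((j : ℝ) + 1)

lemma Hn_nonneg (n : ℕ) : 0 ≤ Hn n := Finset.sum_nonneg fun j _ => by positivity

lemma Hn_mono {m n : ℕ} (h : m ≤ n) : Hn m ≤ Hn n :=
  Finset.sum_le_sum_of_subset_of_nonneg (Finset.range_mono h) fun j _ _ => by positivity

lemma Hn_le (n : ℕ) : Hn n ≤ 1 + Real.log n := by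
  have h := harmonic_le_one_add_log n
  refine le_trans (le_of_eq ?_) h
  unfold Hn harmonic
  push_cast
  refine Finset.sum_congr rfl fun j _ => ?_
  rw [one_div]

lemma Hn_one_le {n : ℕ} (hn : 1 ≤ n) : 1 ≤ Hn n := by
  have h : Hn 1 ≤ Hn n := Hn_mono hn
  have e : Hn 1 = 1 := by simp [Hn]
  linarith

/-- distances to an integer -/
lemma sum_dist_nat {n c : ℕ} (hc : c < n) :
    ∑ i ∈ Finset.range n, 1 / (1 + |(i : ℝ) - c|) ≤ 2 * Hn n := by
  have hsplit : Finset.range n = Finset.range (c + 1) ∪ Finset.Ico (c + 1) n := by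
    ext i
    simp only [Finset.mem_range, Finset.mem_union, Finset.mem_Ico]
    omega
  have hdis : Disjoint (Finset.range (c + 1)) (Finset.Ico (c + 1) n) := by
    rw [Finset.disjoint_left]
    intro i hi hi2
    rw [Finset.mem_range] at hi
    rw [Finset.mem_Ico] at hi2
    omega
  rw [hsplit, Finset.sum_union hdis]
  have h1 : ∑ i ∈ Finset.range (c + 1), 1 / (1 + |(i : ℝ) - c|) ≤ Hn n := by
    rw [← Finset.sum_range_reflect]
    refine le_trans (Finset.sum_le_sum (g := fun j : ℕ => 1 / ((j : ℝ) + 1)) fun j hj => ?_)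
      (Hn_mono (m := c + 1) (n := n) (by omega))
    rw [Finset.mem_range] at hj
    have e : ((c + 1 - 1 - j : ℕ) : ℝ) = (c : ℝ) - j := by
      rw [Nat.cast_sub (by omega)]
      simp
    rw [e]
    have : |(c : ℝ) - j - c| = j := by
      rw [show (c : ℝ) - j - c = -(j : ℝ) by ring, abs_neg, abs_of_nonneg (Nat.cast_nonneg _)]
    rw [this, add_comm]
  have h2 : ∑ i ∈ Finset.Ico (c + 1) n, 1 / (1 + |(i : ℝ) - c|) ≤ Hn n := by
    rw [Finset.sum_Ico_eq_sum_range]
    refine le_trans (Finset.sum_le_sum (g := fun j : ℕ => 1 / ((j : ℝ) + 1)) fun j hj => ?_)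
      (Hn_mono (m := n - (c + 1)) (n := n) (by omega))
    have : |((c + 1 + j : ℕ) : ℝ) - c| = j + 1 := by
      push_cast
      rw [show (c : ℝ) + 1 + j - c = (j : ℝ) + 1 by ring, abs_of_nonneg (by positivity)]
    rw [this]
    apply one_div_le_one_div_of_le (by positivity)
    linarith
  linarith

/-- distances to a real number -/
lemma sum_dist {n : ℕ} (x : ℝ) :
    ∑ i ∈ Finset.range n, 1 / (1 + |(i : ℝ) - x|) ≤ 4 * Hn n := by
  rcases Nat.eq_zero_or_pos n with rfl | hn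
  · simp [Hn]
  have hex : ∃ c < n, ∀ i < n, |(i : ℝ) - c| ≤ |(i : ℝ) - x| + 1 := by
    rcases lt_or_ge x 0 with hx | hx
    · refine ⟨0, hn, fun i _ => ?_⟩
      have : (0 : ℝ) ≤ i := Nat.cast_nonneg i
      rw [Nat.cast_zero, sub_zero, abs_of_nonneg this, abs_of_nonneg (by linarith)]
      linarith
    · by_cases h : ⌊x⌋₊ < n
      · refine ⟨⌊x⌋₊, h, fun i _ => ?_⟩
        have h1 := Nat.floor_le hx
        have h2 := Nat.lt_floor_add_one x
        have h3 : |x - ⌊x⌋₊| ≤ 1 := by rw [abs_le]; constructor <;> linarith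
        calc |(i : ℝ) - ⌊x⌋₊| = |((i : ℝ) - x) + (x - ⌊x⌋₊)| := by ring_nf
          _ ≤ |(i : ℝ) - x| + |x - ⌊x⌋₊| := abs_add_le _ _
          _ ≤ _ := by linarith
      · refine ⟨n - 1, by omega, fun i hi => ?_⟩
        push Not at h
        have h1 := Nat.floor_le hx
        have h2 : ((n : ℕ) : ℝ) ≤ ⌊x⌋₊ := by exact_mod_cast h
        have h3 : (i : ℝ) + 1 ≤ n := by exact_mod_cast hi
        have h4 : ((n - 1 : ℕ) : ℝ) = n - 1 := by rw [Nat.cast_sub (by omega)]; simp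
        rw [h4, abs_sub_comm, abs_of_nonneg (by linarith), abs_sub_comm (i : ℝ) x,
          abs_of_nonneg (by linarith)]
        linarith
  obtain ⟨c, hc, h⟩ := hex
  have h1 := sum_dist_nat hc
  calc ∑ i ∈ Finset.range n, 1 / (1 + |(i : ℝ) - x|)
      ≤ ∑ i ∈ Finset.range n, 2 * (1 / (1 + |(i : ℝ) - c|)) := by
        refine Finset.sum_le_sum fun i hi => ?_
        have h2 := h i (Finset.mem_range.mp hi)
        have h3 := abs_nonneg ((i : ℝ) - x)
        have h4 := abs_nonneg ((i : ℝ) - c)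
        rw [mul_one_div, div_le_div_iff₀ (by positivity) (by positivity)]
        linarith
    _ = 2 * ∑ i ∈ Finset.range n, 1 / (1 + |(i : ℝ) - c|) := by rw [Finset.mul_sum]
    _ ≤ 4 * Hn n := by linarith

/-- the quadruples with equal products -/
lemma quad_sum (N : ℕ) :
    ∑ a ∈ Finset.range N, ∑ b ∈ Finset.range N, ∑ c ∈ Finset.range N, ∑ d ∈ Finset.range N,
      (if (a + 1) * (b + 1) = (c + 1) * (d + 1) then (1 : ℝ) / (((a + 1) * (b + 1) : ℕ) : ℝ) else 0)
      ≤ Hn N ^ 4 := by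
  classical
  set R := Finset.range N with hR
  set P := R ×ˢ (R ×ˢ (R ×ˢ R)) with hP
  set F : ℕ × ℕ × ℕ × ℕ → ℝ := fun q => 1 / (((q.1 : ℝ) + 1) * ((q.2.1 : ℝ) + 1) * ((q.2.2.1 : ℝ) + 1)
    * ((q.2.2.2 : ℝ) + 1)) with hF
  have e1 : ∑ a ∈ R, ∑ b ∈ R, ∑ c ∈ R, ∑ d ∈ R,
      (if (a + 1) * (b + 1) = (c + 1) * (d + 1) then (1 : ℝ) / (((a + 1) * (b + 1) : ℕ) : ℝ) else 0)
      = ∑ q ∈ P, (if (q.1 + 1) * (q.2.1 + 1) = (q.2.2.1 + 1) * (q.2.2.2 + 1) then
        (1 : ℝ) / (((q.1 + 1) * (q.2.1 + 1) : ℕ) : ℝ) else 0) := by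
    rw [hP, Finset.sum_product]
    refine Finset.sum_congr rfl fun a _ => ?_
    rw [Finset.sum_product]
    refine Finset.sum_congr rfl fun b _ => ?_
    rw [Finset.sum_product]
  rw [e1, ← Finset.sum_filter]
  set S := P.filter (fun q => (q.1 + 1) * (q.2.1 + 1) = (q.2.2.1 + 1) * (q.2.2.2 + 1)) with hS
  -- parametrisation
  set φ : ℕ × ℕ × ℕ × ℕ → ℕ × ℕ × ℕ × ℕ := fun q =>
    (Nat.gcd (q.1 + 1) (q.2.2.1 + 1) - 1,
     (q.1 + 1) / Nat.gcd (q.1 + 1) (q.2.2.1 + 1) - 1,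
     (q.2.2.1 + 1) / Nat.gcd (q.1 + 1) (q.2.2.1 + 1) - 1,
     (q.2.1 + 1) / ((q.2.2.1 + 1) / Nat.gcd (q.1 + 1) (q.2.2.1 + 1)) - 1) with hφ
  -- structure of solutions
  have key : ∀ q ∈ S, ∃ x y z w : ℕ, φ q = (x, y, z, w) ∧ q.1 + 1 = (x + 1) * (y + 1) ∧
      q.2.1 + 1 = (z + 1) * (w + 1) ∧ q.2.2.1 + 1 = (x + 1) * (z + 1) ∧
      q.2.2.2 + 1 = (y + 1) * (w + 1) := by
    intro q hq
    have hq2 := (Finset.mem_filter.mp hq).2
    set A := q.1 + 1 with hA
    set B := q.2.1 + 1 with hB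
    set C := q.2.2.1 + 1 with hC
    set D := q.2.2.2 + 1 with hD
    set g := Nat.gcd A C with hg
    have hg0 : 0 < g := Nat.gcd_pos_of_pos_left _ (by omega)
    obtain ⟨y, hy⟩ : g ∣ A := Nat.gcd_dvd_left _ _
    obtain ⟨z, hz⟩ : g ∣ C := Nat.gcd_dvd_right _ _
    have hcop : Nat.Coprime y z := by
      have := Nat.coprime_div_gcd_div_gcd (m := A) (n := C) hg0
      rw [← hg, hy, hz, Nat.mul_div_cancel_left _ hg0, Nat.mul_div_cancel_left _ hg0] at this
      exact this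
    have hyz : y * B = z * D := by
      have : g * (y * B) = g * (z * D) := by
        rw [← mul_assoc, ← hy, hq2, hz]; ring
      exact Nat.eq_of_mul_eq_mul_left hg0 this
    have hzB : z ∣ B := by
      have : z ∣ y * B := ⟨D, hyz⟩
      exact (Nat.Coprime.dvd_of_dvd_mul_left hcop.symm this)
    obtain ⟨w, hw⟩ := hzB
    have hy0 : 0 < y := by
      rcases Nat.eq_zero_or_pos y with h | h
      · rw [h, mul_zero] at hy; omega
      · exact h
    have hz0 : 0 < z := by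
      rcases Nat.eq_zero_or_pos z with h | h
      · rw [h, mul_zero] at hz; omega
      · exact h
    have hw0 : 0 < w := by
      rcases Nat.eq_zero_or_pos w with h | h
      · rw [h, mul_zero] at hw; omega
      · exact h
    have hD' : D = y * w := by
      have : z * (y * w) = z * D := by rw [← hyz, hw]; ring
      exact (Nat.eq_of_mul_eq_mul_left hz0 this).symm
    have hAg : A / g = y := by
      rw [hy]; exact Nat.mul_div_cancel_left _ hg0
    have hCg : C / g = z := by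
      rw [hz]; exact Nat.mul_div_cancel_left _ hg0
    have hBz : B / z = w := by
      rw [hw]; exact Nat.mul_div_cancel_left _ hz0
    refine ⟨g - 1, y - 1, z - 1, w - 1, ?_, ?_, ?_, ?_, ?_⟩
    · rw [hφ]
      simp only
      rw [← hA, ← hC, ← hB, ← hg, hAg, hCg, hBz]
    · rw [Nat.sub_add_cancel hg0, Nat.sub_add_cancel hy0]; exact hy
    · rw [Nat.sub_add_cancel hz0, Nat.sub_add_cancel hw0]; exact hw
    · rw [Nat.sub_add_cancel hg0, Nat.sub_add_cancel hz0]; exact hz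
    · rw [Nat.sub_add_cancel hy0, Nat.sub_add_cancel hw0]; exact hD'
  have hmem : ∀ q ∈ S, φ q ∈ P := by
    intro q hq
    obtain ⟨x, y, z, w, h0, h1, h2, h3, h4⟩ := key q hq
    have hqP := (Finset.mem_filter.mp hq).1
    simp only [hP, Finset.mem_product, hR, Finset.mem_range] at hqP
    rw [h0]
    simp only [hP, Finset.mem_product, hR, Finset.mem_range]
    obtain ⟨p1, p2, p3, p4⟩ := hqP
    refine ⟨?_, ?_, ?_, ?_⟩
    · have : x + 1 ≤ (x + 1) * (y + 1) := Nat.le_mul_of_pos_right _ (by omega)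
      omega
    · have : y + 1 ≤ (x + 1) * (y + 1) := Nat.le_mul_of_pos_left _ (by omega)
      omega
    · have : z + 1 ≤ (z + 1) * (w + 1) := Nat.le_mul_of_pos_right _ (by omega)
      omega
    · have : w + 1 ≤ (z + 1) * (w + 1) := Nat.le_mul_of_pos_left _ (by omega)
      omega
  have hinj : Set.InjOn φ (S : Set (ℕ × ℕ × ℕ × ℕ)) := by
    intro q hq q' hq' h
    obtain ⟨x, y, z, w, h0, h1, h2, h3, h4⟩ := key q hq
    obtain ⟨x', y', z', w', h0', h1', h2', h3', h4'⟩ := key q' hq'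
    rw [h0, h0'] at h
    simp only [Prod.mk.injEq] at h
    obtain ⟨rfl, rfl, rfl, rfl⟩ := h
    ext
    · omega
    · omega
    · omega
    · omega
  have hval : ∀ q ∈ S, (1 : ℝ) / (((q.1 + 1) * (q.2.1 + 1) : ℕ) : ℝ) = F (φ q) := by
    intro q hq
    obtain ⟨x, y, z, w, h0, h1, h2, h3, h4⟩ := key q hq
    rw [h0, h1, h2, hF]
    push_cast
    congr 1
    ring
  rw [Finset.sum_congr rfl hval, ← Finset.sum_image (f := F) hinj]
  refine (Finset.sum_le_sum_of_subset_of_nonneg (t := P) ?_ ?_).trans (le_of_eq ?_)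
  · intro q hq
    obtain ⟨q', hq', rfl⟩ := Finset.mem_image.mp hq
    exact hmem q' hq'
  · intro q _ _
    rw [hF]
    positivity
  · rw [hP, Finset.sum_product]
    have e2 : ∀ x ∈ R, ∑ y ∈ R ×ˢ (R ×ˢ R), F (x, y) = 1 / ((x : ℝ) + 1) * Hn N ^ 3 := by
      intro x _
      rw [Finset.sum_product]
      have e3 : ∀ y ∈ R, ∑ z ∈ R ×ˢ R, F (x, y, z) = 1 / ((x : ℝ) + 1) * (1 / ((y : ℝ) + 1)) * Hn N ^ 2 := by
        intro y _
        rw [Finset.sum_product]
        have e4 : ∀ z ∈ R, ∑ w ∈ R, F (x, y, z, w)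
            = 1 / ((x : ℝ) + 1) * (1 / ((y : ℝ) + 1)) * (1 / ((z : ℝ) + 1)) * Hn N := by
          intro z _
          unfold Hn
          rw [Finset.mul_sum]
          refine Finset.sum_congr rfl fun w _ => ?_
          rw [hF]
          simp only
          field_simp
        rw [Finset.sum_congr rfl e4, ← Finset.sum_mul, ← Finset.mul_sum]
        have : ∑ z ∈ R, 1 / ((z : ℝ) + 1) = Hn N := rfl
        rw [this]
        ring
      rw [Finset.sum_congr rfl e3, ← Finset.sum_mul, ← Finset.mul_sum]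
      have : ∑ z ∈ R, 1 / ((z : ℝ) + 1) = Hn N := rfl
      rw [this]
      ring
    rw [Finset.sum_congr rfl e2, ← Finset.sum_mul]
    have : ∑ z ∈ R, 1 / ((z : ℝ) + 1) = Hn N := rfl
    rw [this]
    ring

end Pool.Agent.Lib.MP_f9aece_nt_h97
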