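import Mathlib
import Pool.Agent.Lib.MP_f9aece_nt_h97.FM4
import Pool.Agent.Lib.MP_f9aece_nt_h97.FMs

/-!
Averaging the approximate functional equation over the splitting point.
-/

set_option autoImplicit false

namespace Pool.Agent.Lib.MP_f9aece_nt_h97

open MeasureTheory Set Filter Topology Complex FourierTransform
open scoped ENNReal ContDiff SchwartzMap ComplexConjugate

lemma avg_sum {N : ℕ} (hN : 1 ≤ N) {T τ : ℝ} (h1 : (N : ℝ) ^ 2 ≤ 4 * T) (hτ : T / 16 ≤ τ)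
    {m : ℝ} (hm : 1 ≤ m) :
    ∑ i ∈ Finset.range N, ((N + i : ℕ) + 1 / 2 : ℝ) / (((N + i : ℕ) + 1 / 2 : ℝ)
      + |m * ((N + i : ℕ) + 1 / 2 : ℝ) - τ|) ≤ 2048 * Hn N := by
  have hN0 : (0 : ℝ) < N := by exact_mod_cast hN
  have hT : 0 < T := by nlinarith [sq_pos_of_pos hN0]
  have hτ0 : 0 < τ := by linarith
  have hm0 : 0 < m := by linarith
  have hH := Hn_one_le hN
  have ha : ∀ i ∈ Finset.range N, ((N + i : ℕ) + 1 / 2 : ℝ) ≤ 2 * N := by
    intro i hi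
    rw [Finset.mem_range] at hi
    have : (i : ℝ) + 1 ≤ N := by exact_mod_cast hi
    push_cast
    linarith
  by_cases hcase : m * (2 * N) ≤ τ / 2
  · have h2 : ∀ i ∈ Finset.range N, ((N + i : ℕ) + 1 / 2 : ℝ) / (((N + i : ℕ) + 1 / 2 : ℝ)
      + |m * ((N + i : ℕ) + 1 / 2 : ℝ) - τ|) ≤ 4 * N / τ := by
      intro i hi
      have ha' := ha i hi
      have ha0 : (0 : ℝ) < ((N + i : ℕ) + 1 / 2 : ℝ) := by positivity
      have h3 : m * ((N + i : ℕ) + 1 / 2 : ℝ) ≤ τ / 2 := by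
        refine le_trans ?_ hcase
        gcongr
      have h4 : τ / 2 ≤ |m * ((N + i : ℕ) + 1 / 2 : ℝ) - τ| := by
        rw [abs_sub_comm]
        exact (le_abs_self _).trans' (by linarith)
      rw [div_le_div_iff₀ (by positivity) hτ0]
      calc ((N + i : ℕ) + 1 / 2 : ℝ) * τ ≤ 2 * N * τ := by gcongr
        _ = 4 * N * (0 + τ / 2) := by ring
        _ ≤ 4 * N * (((N + i : ℕ) + 1 / 2 : ℝ) + |m * ((N + i : ℕ) + 1 / 2 : ℝ) - τ|) := by gcongr
    refine (Finset.sum_le_sum h2).trans ?_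
    rw [Finset.sum_const, Finset.card_range, nsmul_eq_mul]
    have h5 : (N : ℝ) * (4 * N / τ) ≤ 256 := by
      rw [mul_div_assoc', div_le_iff₀ hτ0]
      have : (N : ℝ) * (4 * N) = 4 * (N : ℝ) ^ 2 := by ring
      rw [this]
      linarith
    linarith
  · push Not at hcase
    have h6 : (N : ℝ) ≤ 256 * m := by
      have h7 : (N : ℝ) ^ 2 / 128 < m * (2 * N) := by linarith
      have h8 : (N : ℝ) * N < 256 * m * N := by nlinarith
      exact (lt_of_mul_lt_mul_right h8 hN0.le).le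
    set x : ℝ := τ / m - (N + 1 / 2) with hx
    have h9 : ∀ i ∈ Finset.range N, ((N + i : ℕ) + 1 / 2 : ℝ) / (((N + i : ℕ) + 1 / 2 : ℝ)
      + |m * ((N + i : ℕ) + 1 / 2 : ℝ) - τ|) ≤ 512 * (1 / (1 + |(i : ℝ) - x|)) := by
      intro i hi
      have ha' := ha i hi
      have ha0 : (0 : ℝ) < ((N + i : ℕ) + 1 / 2 : ℝ) := by positivity
      have e1 : m * ((N + i : ℕ) + 1 / 2 : ℝ) - τ = m * ((i : ℝ) - x) := by
        rw [hx]
        push_cast
        field_simp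
        ring
      rw [e1, abs_mul, abs_of_pos hm0, mul_one_div, div_le_div_iff₀ (by positivity) (by positivity)]
      have h10 : ((N + i : ℕ) + 1 / 2 : ℝ) ≤ 512 * m := by linarith
      have h11 := abs_nonneg ((i : ℝ) - x)
      calc ((N + i : ℕ) + 1 / 2 : ℝ) * (1 + |(i : ℝ) - x|)
          = ((N + i : ℕ) + 1 / 2 : ℝ) + ((N + i : ℕ) + 1 / 2 : ℝ) * |(i : ℝ) - x| := by ring
        _ ≤ 512 * ((N + i : ℕ) + 1 / 2 : ℝ) + 512 * m * |(i : ℝ) - x| := by
            gcongr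
            linarith
        _ = _ := by ring
    refine (Finset.sum_le_sum h9).trans ?_
    rw [← Finset.mul_sum]
    have := sum_dist (n := N) x
    linarith

namespace Ker

variable (K : Ker)

/-- averaged approximate functional equation -/
theorem zeta_avg : ∃ C T0 : ℝ, 0 < C ∧ 1 ≤ T0 ∧ ∀ T : ℝ, T0 ≤ T → ∀ M : ℕ, T ^ 2 ≤ M →
    ∀ t : ℝ, T / 2 ≤ t → t ≤ T →
    ‖riemannZeta (1 / 2 + I * t)‖ * (T * ‖mellin (fun x => (K.phi T x : ℂ)) (1 / 2 + I * t)‖)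
      ≤ (T * ‖mellin (fun x => (K.phi T x : ℂ)) (1 / 2 + I * t)‖)
          * ((∑ i ∈ Finset.range ⌈Real.sqrt T⌉₊, ‖DSt t (⌈Real.sqrt T⌉₊ + i)‖) / ⌈Real.sqrt T⌉₊)
        + C * (1 + ∑ m ∈ Finset.range M, ‖DSt t (m + 1)‖ * (Hn ⌈Real.sqrt T⌉₊ / ⌈Real.sqrt T⌉₊
          / (1 + ((m : ℝ) + 1) / (2 * ⌈Real.sqrt T⌉₊)) ^ 4)) := by
  obtain ⟨C1, hC1, hgam⟩ := K.gam_le
  have hL := K.hL
  have hB4 := K.B4_pos
  refine ⟨|K.m1| + 6 * K.B4 + 4096 * C1, max (10 ^ 6) ((10 * K.L) ^ 2),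
    by positivity, le_trans (by norm_num) (le_max_left _ _), fun T hT0 M hM t ht1 ht2 => ?_⟩
  have hT6 : (10 : ℝ) ^ 6 ≤ T := (le_max_left _ _).trans hT0
  have hTL : (10 * K.L) ^ 2 ≤ T := (le_max_right _ _).trans hT0
  have hT : 0 < T := lt_of_lt_of_le (by norm_num) hT6
  have ht : 0 < t := by linarith
  set q := Real.sqrt T with hq
  have hq2 : q ^ 2 = T := Real.sq_sqrt hT.le
  have hq0 : 0 ≤ q := Real.sqrt_nonneg _
  have hq3 : 1000 ≤ q := by
    apply Real.le_sqrt_of_sq_le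
    norm_num at hT6 ⊢
    exact hT6
  have hqL : 10 * K.L ≤ q := Real.le_sqrt_of_sq_le hTL
  set N := ⌈q⌉₊ with hN
  have hNq : q ≤ N := Nat.le_ceil q
  have hNq2 : (N : ℝ) < q + 1 := Nat.ceil_lt_add_one hq0
  have hN0 : (0 : ℝ) < N := by linarith
  have hN1 : 1 ≤ N := by exact_mod_cast hN0
  have h2L : 2 * K.L ≤ T := by
    have : 1 * q ≤ q * q := by gcongr; linarith
    rw [← hq2, sq]
    linarith
  set φt : ℝ := ‖mellin (fun x => (K.phi T x : ℂ)) (1 / 2 + I * t)‖ with hφt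
  set Z : ℝ := ‖riemannZeta (1 / 2 + I * t)‖ with hZ
  have hpi := Real.pi_pos
  have hpi4 : Real.pi < 4 := by linarith [Real.pi_lt_d2]
  have hτ : T / 16 ≤ t / (2 * Real.pi) := by
    rw [div_le_div_iff₀ (by norm_num) (by positivity)]
    calc T * (2 * Real.pi) ≤ (2 * t) * (2 * 4) := by gcongr; linarith
      _ = t * 16 := by ring
  -- one splitting point
  have hone : ∀ i ∈ Finset.range N, Z * (T * φt) ≤ (T * φt) * ‖DSt t (N + i)‖ + |K.m1| + 6 * K.B4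
      + 2 * ∑ m ∈ Finset.range M, ‖DSt t (m + 1)‖ * (C1 * (((N + i : ℕ) + 1 / 2 : ℝ) / (((N + i : ℕ) + 1 / 2 : ℝ)
      + |((m : ℝ) + 1) * ((N + i : ℕ) + 1 / 2 : ℝ) - t / (2 * Real.pi)|))
        / (1 + ((m : ℝ) + 1) / (2 * N)) ^ 4) := by
    intro i hi
    rw [Finset.mem_range] at hi
    have hi' : (i : ℝ) + 1 ≤ N := by exact_mod_cast hi
    set a : ℝ := ((N + i : ℕ) + 1 / 2 : ℝ) with ha
    have ha' : a = N + i + 1 / 2 := by rw [ha]; push_cast; ring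
    have hi0 : (0 : ℝ) ≤ i := Nat.cast_nonneg i
    have haq : q ≤ a := by linarith
    have ha2N : a ≤ 2 * N := by linarith
    have ha3 : a ≤ 3 * q := by linarith
    have ha0 : 0 < a := by linarith
    have haT : T ≤ a ^ 2 := by rw [← hq2]; gcongr
    have haT' : a ^ 2 ≤ 9 * T := by
      calc a ^ 2 ≤ (3 * q) ^ 2 := by gcongr
        _ = 9 * T := by rw [mul_pow, hq2]; norm_num
    have hqq : 1000 * q ≤ q * q := by gcongr
    have haT1 : a ≤ T := by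
      rw [← hq2, sq]
      linarith
    have hz := K.zeta_le h2L (N := N + i) (M := M) (by omega) (by
      have : (2 * ((N + i : ℕ) : ℝ) + 1) = 2 * a := by rw [ha']; push_cast; ring
      rw [this]
      calc 2 * a * K.L ≤ 2 * (3 * q) * K.L := by gcongr
        _ = (6 * K.L) * q := by ring
        _ < q * q := mul_lt_mul_of_pos_right (by linarith) (by linarith)
        _ = T := by rw [← hq2]; ring) hM ht
    rw [← ha, ← hφt, ← hZ] at hz
    have hg : ∑ m ∈ Finset.range M, ‖DSt t (m + 1)‖ * ‖K.gam T t a (m + 1)‖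
        ≤ ∑ m ∈ Finset.range M, ‖DSt t (m + 1)‖ * (C1 * (a / (a
      + |((m : ℝ) + 1) * a - t / (2 * Real.pi)|)) / (1 + ((m : ℝ) + 1) / (2 * N)) ^ 4) := by
      refine Finset.sum_le_sum fun m _ => ?_
      have h3 := hgam T a (by linarith) haT haT' haT1 t ht1 ht2 (m + 1) (by omega)
      have e1 : ((m + 1 : ℕ) : ℝ) = (m : ℝ) + 1 := by push_cast; ring
      rw [e1] at h3
      gcongr
      refine h3.trans ?_
      gcongr
    have h4 : a / t ≤ 1 := by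
      rw [div_le_one ht]
      rw [← hq2, sq] at ht1
      linarith
    calc Z * (T * φt) = T * (Z * φt) := by ring
      _ ≤ T * (φt * ‖DSt t (N + i)‖ + T⁻¹ * |K.m1| * a / t
        + 2 / T * (∑ m ∈ Finset.range M, ‖DSt t (m + 1)‖ * ‖K.gam T t a (m + 1)‖ + 3 * K.B4)) := by
          gcongr
      _ = (T * φt) * ‖DSt t (N + i)‖ + |K.m1| * (a / t) + 6 * K.B4
        + 2 * ∑ m ∈ Finset.range M, ‖DSt t (m + 1)‖ * ‖K.gam T t a (m + 1)‖ := by
          field_simp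
          ring
      _ ≤ (T * φt) * ‖DSt t (N + i)‖ + |K.m1| * 1 + 6 * K.B4
        + 2 * ∑ m ∈ Finset.range M, ‖DSt t (m + 1)‖ * (C1 * (a / (a
      + |((m : ℝ) + 1) * a - t / (2 * Real.pi)|)) / (1 + ((m : ℝ) + 1) / (2 * N)) ^ 4) := by
          gcongr
      _ = _ := by rw [mul_one]
  -- average
  set f : ℕ → ℕ → ℝ := fun i m => ‖DSt t (m + 1)‖ * (C1 * (((N + i : ℕ) + 1 / 2 : ℝ) / (((N + i : ℕ) + 1 / 2 : ℝ)
      + |((m : ℝ) + 1) * ((N + i : ℕ) + 1 / 2 : ℝ) - t / (2 * Real.pi)|))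
        / (1 + ((m : ℝ) + 1) / (2 * N)) ^ 4) with hf
  have hsum := Finset.sum_le_sum hone
  rw [Finset.sum_const, Finset.card_range, nsmul_eq_mul] at hsum
  have hsplit : ∑ i ∈ Finset.range N, ((T * φt) * ‖DSt t (N + i)‖ + |K.m1| + 6 * K.B4
      + 2 * ∑ m ∈ Finset.range M, f i m)
      = T * φt * ∑ i ∈ Finset.range N, ‖DSt t (N + i)‖
      + N * |K.m1| + N * (6 * K.B4) + 2 * ∑ m ∈ Finset.range M, ∑ i ∈ Finset.range N, f i m := by
    rw [Finset.sum_add_distrib, Finset.sum_add_distrib, Finset.sum_add_distrib, Finset.sum_const,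
      Finset.sum_const, Finset.card_range, nsmul_eq_mul, nsmul_eq_mul, Finset.mul_sum]
    congr 1
    rw [Finset.sum_comm, Finset.mul_sum]
  rw [hsplit] at hsum
  have hin : ∑ m ∈ Finset.range M, ∑ i ∈ Finset.range N, f i m
      ≤ ∑ m ∈ Finset.range M, ‖DSt t (m + 1)‖ * (C1 * (2048 * Hn N) / (1 + ((m : ℝ) + 1) / (2 * N)) ^ 4) := by
    refine Finset.sum_le_sum fun m _ => ?_
    have hav := avg_sum hN1 (T := T) (τ := t / (2 * Real.pi)) (by
      calc (N : ℝ) ^ 2 ≤ (2 * q) ^ 2 := by gcongr; linarith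
        _ = 4 * T := by rw [mul_pow, hq2]; norm_num) hτ (m := (m : ℝ) + 1)
        (by linarith [Nat.cast_nonneg (α := ℝ) m])
    rw [hf]
    simp only
    rw [← Finset.mul_sum, ← Finset.sum_div, ← Finset.mul_sum]
    gcongr
  have hfin : (N : ℝ) * (Z * (T * φt)) ≤ T * φt * ∑ i ∈ Finset.range N, ‖DSt t (N + i)‖
      + N * |K.m1| + N * (6 * K.B4) + 2 * ∑ m ∈ Finset.range M, ‖DSt t (m + 1)‖
        * (C1 * (2048 * Hn N) / (1 + ((m : ℝ) + 1) / (2 * N)) ^ 4) := by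
    linarith
  have hdiv : Z * (T * φt) ≤ (T * φt * ∑ i ∈ Finset.range N, ‖DSt t (N + i)‖
      + N * |K.m1| + N * (6 * K.B4) + 2 * ∑ m ∈ Finset.range M, ‖DSt t (m + 1)‖
        * (C1 * (2048 * Hn N) / (1 + ((m : ℝ) + 1) / (2 * N)) ^ 4)) / N := by
    rw [le_div_iff₀ hN0, mul_comm]
    exact hfin
  have hS : 2 * ∑ m ∈ Finset.range M, ‖DSt t (m + 1)‖
        * (C1 * (2048 * Hn N) / (1 + ((m : ℝ) + 1) / (2 * N)) ^ 4)
      = N * (4096 * C1 * ∑ m ∈ Finset.range M, ‖DSt t (m + 1)‖ * (Hn N / N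
          / (1 + ((m : ℝ) + 1) / (2 * N)) ^ 4)) := by
    simp_rw [Finset.mul_sum]
    refine Finset.sum_congr rfl fun m _ => ?_
    field_simp
    ring
  rw [hS] at hdiv
  set S := ∑ m ∈ Finset.range M, ‖DSt t (m + 1)‖ * (Hn N / N / (1 + ((m : ℝ) + 1) / (2 * N)) ^ 4) with hSd
  have hS0 : 0 ≤ S := Finset.sum_nonneg fun m _ => by have := Hn_nonneg N; positivity
  refine hdiv.trans ?_
  have e2 : (T * φt * ∑ i ∈ Finset.range N, ‖DSt t (N + i)‖ + N * |K.m1| + N * (6 * K.B4)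
      + N * (4096 * C1 * S)) / N = T * φt * ((∑ i ∈ Finset.range N, ‖DSt t (N + i)‖) / N)
      + |K.m1| + 6 * K.B4 + 4096 * C1 * S := by
    field_simp
  rw [e2]
  have h5 : 0 ≤ |K.m1| * S := by positivity
  have h6 : 0 ≤ K.B4 * S := by positivity
  linarith

end Ker

end Pool.Agent.Lib.MP_f9aece_nt_h97
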