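import Mathlib
import Pool.Agent.Lib.MP_f9aece_nt.MeanValue
import Pool.Agent.Lib.MP_f9aece_nt_h97.FMs
import Pool.Agent.Lib.MP_f9aece_nt_h97.FM1

/-!
Mean value theorem with the correct order, and the fourth moment of the partial sums of zeta.
-/

set_option autoImplicit false

namespace Pool.Agent.Lib.MP_f9aece_nt_h97

open MeasureTheory Set Filter Topology Complex
open scoped ENNReal ComplexConjugate
open Pool.Agent.Lib.MP_f9aece_nt

lemma charFun_le' {T ξ : ℝ} (hT : 0 ≤ T) (hξ : ξ ≠ 0) :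
    ‖charFun (volume.restrict (Ioc 0 T)) ξ‖ ≤ 2 / |ξ| := by
  rw [charFun_apply_real, ← intervalIntegral.integral_of_le hT]
  have hc : (ξ : ℂ) * I ≠ 0 := mul_ne_zero (by exact_mod_cast hξ) I_ne_zero
  have h1 : ∫ x in (0 : ℝ)..T, cexp (ξ * x * I) = ∫ x in (0 : ℝ)..T, cexp ((ξ * I) * x) := by
    refine intervalIntegral.integral_congr fun x _ => ?_
    congr 1
    ring
  rw [h1, integral_exp_mul_complex hc, norm_div, norm_mul, Complex.norm_real, norm_I, mul_one,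
    Real.norm_eq_abs]
  gcongr
  refine (norm_sub_le _ _).trans ?_
  have e1 : ∀ x : ℝ, ‖cexp (ξ * I * x)‖ = 1 := by
    intro x
    have : (ξ * I * x : ℂ) = ((ξ * x : ℝ) : ℂ) * I := by push_cast; ring
    rw [this, Complex.norm_exp_ofReal_mul_I]
  rw [e1, e1]
  norm_num

/-- lower bound for the difference of logarithms -/
lemma log_sub_ge {a b : ℕ} {H : ℝ} (ha : 1 ≤ a) (hb : 1 ≤ b) (haH : (a : ℝ) ≤ H)
    (hbH : (b : ℝ) ≤ H) : |(b : ℝ) - a| / H ≤ |Real.log b - Real.log a| := by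
  wlog h : a ≤ b generalizing a b with hw
  · rw [abs_sub_comm, abs_sub_comm (Real.log b)]
    exact hw hb ha hbH haH (by omega)
  have ha0 : (0 : ℝ) < a := by exact_mod_cast ha
  have hb0 : (0 : ℝ) < b := by exact_mod_cast hb
  have hH0 : 0 < H := by linarith
  have h1 : (a : ℝ) ≤ b := by exact_mod_cast h
  have h2 := Real.one_sub_inv_le_log_of_pos (div_pos hb0 ha0)
  rw [Real.log_div hb0.ne' ha0.ne', inv_div] at h2
  have h3 : |(b : ℝ) - a| / H ≤ 1 - (a : ℝ) / b := by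
    have : 1 - (a : ℝ) / b = (b - a) / b := by field_simp
    rw [this, abs_of_nonneg (by linarith)]
    apply div_le_div_of_nonneg_left (by linarith) hb0 hbH
  exact h3.trans (h2.trans (le_abs_self _))

/-- mean value theorem of the right order up to a logarithm -/
theorem mean_value' {T : ℝ} {M : ℕ} (hT : 0 ≤ T) {f : DP}
    (hf : ∀ n, f.coeff n ≠ 0 → 1 ≤ n ∧ n ≤ M) :
    ∫ t in (0 : ℝ)..T, ‖ev t f‖ ^ 2 ≤ (T + 16 * M * Hn M) * BK K1 f f := by
  classical
  rcases Nat.eq_zero_or_pos M with rfl | hM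
  · have : f = 0 := by
      ext n
      by_contra h
      have := hf n h
      omega
    rw [this]
    simp [BK, pair_def]
  set ν : Measure ℝ := volume.restrict (Ioc 0 T) with hν
  have hν1 : ν.real univ = T := by
    rw [hν, measureReal_restrict_apply MeasurableSet.univ, univ_inter, Real.volume_real_Ioc_of_le hT,
      sub_zero]
  have hM0 : (0 : ℝ) < M := by exact_mod_cast hM
  have hs : ∀ a ∈ f.coeff.support, 1 ≤ a ∧ a ≤ M :=
    fun a ha => hf a (Finsupp.mem_support_iff.mp ha)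
  have h1 : ∀ t : ℝ, ((‖ev t f‖ ^ 2 : ℝ) : ℂ) = ∑ a ∈ f.coeff.support, ∑ b ∈ f.coeff.support,
      ((f.coeff a * f.coeff b : ℝ) : ℂ) *
        ((a : ℂ) ^ (-(1 / 2 + I * t : ℂ)) * conj ((b : ℂ) ^ (-(1 / 2 + I * t : ℂ)))) := by
    intro t
    have h2 : ((‖ev t f‖ ^ 2 : ℝ) : ℂ) = ev t f * conj (ev t f) := by
      rw [Complex.mul_conj, Complex.normSq_eq_norm_sq]
    rw [h2, ev_apply, map_sum, Finset.sum_mul_sum]
    refine Finset.sum_congr rfl fun a _ => Finset.sum_congr rfl fun b _ => ?_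
    rw [map_mul, Complex.conj_ofReal]
    push_cast
    ring
  have h3 : ((∫ t in (0 : ℝ)..T, ‖ev t f‖ ^ 2 : ℝ) : ℂ)
      = ∑ a ∈ f.coeff.support, ∑ b ∈ f.coeff.support, ((f.coeff a * f.coeff b : ℝ) : ℂ) *
        ((((a : ℝ) ^ (-(1 / 2) : ℝ) * (b : ℝ) ^ (-(1 / 2) : ℝ) : ℝ) : ℂ)
        * charFun ν (Real.log b - Real.log a)) := by
    have h0 : ((∫ t in (0 : ℝ)..T, ‖ev t f‖ ^ 2 : ℝ) : ℂ)
        = ∫ t in Ioc 0 T, ((‖ev t f‖ ^ 2 : ℝ) : ℂ) := by
      rw [intervalIntegral.integral_of_le hT]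
      exact integral_complex_ofReal.symm
    rw [h0]
    simp_rw [h1]
    rw [integral_finsetSum _ (fun a ha => integrable_finsetSum _ (fun b hb =>
      (integrable_term ν (hs a ha).1 (hs b hb).1).const_mul _))]
    refine Finset.sum_congr rfl fun a ha => ?_
    rw [integral_finsetSum _ (fun b hb =>
      (integrable_term ν (hs a ha).1 (hs b hb).1).const_mul _)]
    refine Finset.sum_congr rfl fun b hb => ?_
    rw [integral_const_mul, term_integral ν (hs a ha).1 (hs b hb).1]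
  set x : ℕ → ℝ := fun a => |f.coeff a| * (a : ℝ) ^ (-(1 / 2) : ℝ) with hx
  have hxx : ∀ a ∈ f.coeff.support, x a ^ 2 = f.coeff a ^ 2 * (a : ℝ)⁻¹ := by
    intro a ha
    have ha1 := (hs a ha).1
    have ha0 : (0 : ℝ) < a := by exact_mod_cast ha1
    rw [hx]
    simp only
    have e : ((a : ℝ) ^ (-(1 / 2) : ℝ)) ^ 2 = (a : ℝ)⁻¹ := by
      rw [← Real.rpow_natCast, ← Real.rpow_mul ha0.le, ← Real.rpow_neg_one]
      norm_num
    rw [mul_pow, sq_abs, e]
  have hB : BK K1 f f = ∑ a ∈ f.coeff.support, x a ^ 2 := by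
    rw [BK, pair_def]
    refine Finset.sum_congr rfl fun a ha => ?_
    rw [pair_def, hxx a ha, Finset.sum_eq_single a]
    · rw [K1, if_pos rfl]; ring
    · intro b _ hb
      rw [K1, if_neg (Ne.symm hb), mul_zero]
    · intro h; exact absurd ha h
  -- termwise
  have hterm : ∀ a ∈ f.coeff.support, ∀ b ∈ f.coeff.support,
      ‖((f.coeff a * f.coeff b : ℝ) : ℂ) *
        ((((a : ℝ) ^ (-(1 / 2) : ℝ) * (b : ℝ) ^ (-(1 / 2) : ℝ) : ℝ) : ℂ)
        * charFun ν (Real.log b - Real.log a))‖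
      ≤ (if a = b then T * x a ^ 2 else 0)
        + 2 * M * (x a ^ 2 * (1 / (1 + |(b : ℝ) - a|)) + x b ^ 2 * (1 / (1 + |(a : ℝ) - b|))) := by
    intro a ha b hb
    obtain ⟨ha1, ha2⟩ := hs a ha
    obtain ⟨hb1, hb2⟩ := hs b hb
    have hx0 : ∀ c, 0 ≤ x c := fun c => by rw [hx]; positivity
    rw [norm_mul, norm_mul, Complex.norm_real, Complex.norm_real, Real.norm_eq_abs,
      Real.norm_eq_abs, abs_mul,
      abs_of_nonneg (by positivity : 0 ≤ (a : ℝ) ^ (-(1 / 2) : ℝ) * (b : ℝ) ^ (-(1 / 2) : ℝ))]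
    have e0 : |f.coeff a| * |f.coeff b| * ((a : ℝ) ^ (-(1 / 2) : ℝ) * (b : ℝ) ^ (-(1 / 2) : ℝ)
              * ‖charFun ν (Real.log b - Real.log a)‖)
        = x a * x b * ‖charFun ν (Real.log b - Real.log a)‖ := by rw [hx]; ring
    rw [e0]
    by_cases hab : a = b
    · subst hab
      rw [if_pos rfl, sub_self, charFun_zero, hν1, Complex.norm_real, Real.norm_eq_abs, abs_of_nonneg hT]
      have h0 := hx0 a
      have : 0 ≤ 2 * M * (x a ^ 2 * (1 / (1 + |(a : ℝ) - a|)) + x a ^ 2 * (1 / (1 + |(a : ℝ) - a|))) := by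
        positivity
      linarith [sq (x a)]
    · rw [if_neg hab, zero_add]
      have hab' : (1 : ℝ) ≤ |(b : ℝ) - a| := by
        have : (1 : ℤ) ≤ |(b : ℤ) - a| := Int.one_le_abs (by omega)
        exact_mod_cast this
      have h7 := log_sub_ge (H := M) ha1 hb1 (by exact_mod_cast ha2) (by exact_mod_cast hb2)
      have h8 : 0 < |Real.log b - Real.log a| := lt_of_lt_of_le (by positivity) h7
      have h9 : ‖charFun ν (Real.log b - Real.log a)‖ ≤ 4 * M * (1 / (1 + |(b : ℝ) - a|)) := by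
        refine (charFun_le' hT (abs_pos.mp h8)).trans ?_
        have h10 : 1 + |(b : ℝ) - a| ≤ 2 * |(b : ℝ) - a| := by linarith
        rw [div_le_iff₀ h8]
        calc (2 : ℝ) = 4 * M * (1 / (2 * |(b : ℝ) - a|)) * (|(b : ℝ) - a| / M) := by
              field_simp
              norm_num
          _ ≤ 4 * M * (1 / (1 + |(b : ℝ) - a|)) * |Real.log b - Real.log a| := by gcongr
      rw [abs_sub_comm (a : ℝ) b]
      have h11 : x a * x b ≤ (x a ^ 2 + x b ^ 2) / 2 := by nlinarith [sq_nonneg (x a - x b)]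
      calc x a * x b * ‖charFun ν (Real.log b - Real.log a)‖
          ≤ (x a ^ 2 + x b ^ 2) / 2 * (4 * M * (1 / (1 + |(b : ℝ) - a|))) := by
            have := hx0 a
            have := hx0 b
            gcongr
        _ = _ := by ring
  have hinner : ∀ a ∈ f.coeff.support, ∑ b ∈ f.coeff.support, 1 / (1 + |(b : ℝ) - a|) ≤ 4 * Hn M := by
    intro a ha
    have hsub : f.coeff.support ⊆ (Finset.range M).image (fun i : ℕ => i + 1) := by
      intro b hb
      obtain ⟨hb1, hb2⟩ := hs b hb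
      rw [Finset.mem_image]
      exact ⟨b - 1, Finset.mem_range.mpr (by omega), by omega⟩
    calc ∑ b ∈ f.coeff.support, 1 / (1 + |(b : ℝ) - a|)
        ≤ ∑ b ∈ (Finset.range M).image (fun i : ℕ => i + 1), 1 / (1 + |(b : ℝ) - a|) :=
          Finset.sum_le_sum_of_subset_of_nonneg hsub fun _ _ _ => by positivity
      _ = ∑ i ∈ Finset.range M, 1 / (1 + |(i : ℝ) - (a - 1)|) := by
          rw [Finset.sum_image (fun i _ j _ h => by omega)]
          refine Finset.sum_congr rfl fun i _ => ?_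
          have e : ((i + 1 : ℕ) : ℝ) - a = (i : ℝ) - (a - 1) := by push_cast; ring
          rw [e]
      _ ≤ 4 * Hn M := sum_dist _
  have hmain : ∫ t in (0 : ℝ)..T, ‖ev t f‖ ^ 2 ≤ ∑ a ∈ f.coeff.support, ∑ b ∈ f.coeff.support,
      ((if a = b then T * x a ^ 2 else 0)
        + 2 * M * (x a ^ 2 * (1 / (1 + |(b : ℝ) - a|)) + x b ^ 2 * (1 / (1 + |(a : ℝ) - b|)))) := by
    have h4 : ∫ t in (0 : ℝ)..T, ‖ev t f‖ ^ 2 ≤ ‖((∫ t in (0 : ℝ)..T, ‖ev t f‖ ^ 2 : ℝ) : ℂ)‖ := by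
      rw [Complex.norm_real]
      exact Real.le_norm_self _
    refine h4.trans ?_
    rw [h3]
    exact (norm_sum_le _ _).trans (Finset.sum_le_sum fun a ha => (norm_sum_le _ _).trans
      (Finset.sum_le_sum fun b hb => hterm a ha b hb))
  refine hmain.trans ?_
  simp_rw [Finset.sum_add_distrib, mul_add, Finset.sum_add_distrib]
  have s1 : ∑ a ∈ f.coeff.support, ∑ b ∈ f.coeff.support, (if a = b then T * x a ^ 2 else 0)
      = T * ∑ a ∈ f.coeff.support, x a ^ 2 := by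
    rw [Finset.mul_sum]
    refine Finset.sum_congr rfl fun a ha => ?_
    rw [Finset.sum_ite_eq, if_pos ha]
  have s2 : ∑ a ∈ f.coeff.support, ∑ b ∈ f.coeff.support, 2 * M * (x a ^ 2 * (1 / (1 + |(b : ℝ) - a|)))
      ≤ 8 * M * Hn M * ∑ a ∈ f.coeff.support, x a ^ 2 := by
    rw [Finset.mul_sum]
    refine Finset.sum_le_sum fun a ha => ?_
    have e : ∑ b ∈ f.coeff.support, 2 * M * (x a ^ 2 * (1 / (1 + |(b : ℝ) - a|)))
        = 2 * M * x a ^ 2 * ∑ b ∈ f.coeff.support, 1 / (1 + |(b : ℝ) - a|) := by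
      rw [Finset.mul_sum]
      exact Finset.sum_congr rfl fun b _ => by ring
    rw [e]
    calc 2 * M * x a ^ 2 * ∑ b ∈ f.coeff.support, 1 / (1 + |(b : ℝ) - a|)
        ≤ 2 * M * x a ^ 2 * (4 * Hn M) := by
          gcongr
          exact hinner a ha
      _ = _ := by ring
  have s3 : ∑ a ∈ f.coeff.support, ∑ b ∈ f.coeff.support, 2 * M * (x b ^ 2 * (1 / (1 + |(a : ℝ) - b|)))
      ≤ 8 * M * Hn M * ∑ a ∈ f.coeff.support, x a ^ 2 := by
    rw [Finset.sum_comm]
    exact s2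
  rw [s1, hB]
  nlinarith [s2, s3]

/-- partial sum of zeta as a formal Dirichlet polynomial -/
noncomputable def XN (N : ℕ) : DP := ∑ n ∈ Finset.range N, MonoidAlgebra.single (n + 1) 1

lemma ev_XN (t : ℝ) (N : ℕ) : ev t (XN N) = DSt t N := by
  unfold XN DSt
  rw [map_sum]
  refine Finset.sum_congr rfl fun n _ => ?_
  rw [ev_single]
  push_cast
  ring

lemma pair_XN (φ : ℕ → ℝ) (N : ℕ) : pair φ (XN N) = ∑ n ∈ Finset.range N, φ (n + 1) := by
  unfold XN
  rw [pair_sum]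
  refine Finset.sum_congr rfl fun n _ => ?_
  rw [pair_single]
  ring

lemma XN_cone (N : ℕ) : Cone {n | 1 ≤ n ∧ n ≤ N} (XN N) := by
  unfold XN
  refine Cone.sum _ fun n hn => Cone.single ?_ zero_le_one
  rw [Finset.mem_range] at hn
  exact ⟨by omega, by omega⟩

lemma BK_XX (N : ℕ) : BK K1 (XN N * XN N) (XN N * XN N) ≤ Hn N ^ 4 := by
  refine le_trans (le_of_eq ?_) (quad_sum N)
  unfold BK
  rw [pair_mul, pair_XN]
  refine Finset.sum_congr rfl fun a _ => ?_
  rw [pair_XN]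
  refine Finset.sum_congr rfl fun b _ => ?_
  rw [pair_mul, pair_XN]
  refine Finset.sum_congr rfl fun c _ => ?_
  rw [pair_XN]
  refine Finset.sum_congr rfl fun d _ => ?_
  unfold K1
  rw [one_div]

/-- fourth moment of the partial sums -/
theorem fourth_DS {T : ℝ} (hT : 0 ≤ T) (N : ℕ) :
    ∫ t in (0 : ℝ)..T, ‖DSt t N‖ ^ 4 ≤ (T + 16 * (N : ℝ) ^ 2 * Hn (N ^ 2)) * Hn N ^ 4 := by
  have h1 := mean_value' (T := T) (M := N ^ 2) hT (f := XN N * XN N) (fun n hn => by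
    have hc := Cone.mul (C := {n | 1 ≤ n ∧ n ≤ N ^ 2}) (XN_cone N) (XN_cone N) (fun a ha b hb => by
      obtain ⟨a1, a2⟩ := ha
      obtain ⟨b1, b2⟩ := hb
      refine ⟨Nat.mul_pos a1 b1, ?_⟩
      rw [sq]
      exact Nat.mul_le_mul a2 b2)
    exact (hc n).2 hn)
  have h2 : ∀ t : ℝ, ‖ev t (XN N * XN N)‖ ^ 2 = ‖DSt t N‖ ^ 4 := by
    intro t
    rw [map_mul, ev_XN, norm_mul]
    ring
  simp_rw [h2] at h1
  refine h1.trans ?_
  have h3 := BK_XX N
  have h4 := Hn_nonneg (N ^ 2)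
  push_cast
  gcongr

end Pool.Agent.Lib.MP_f9aece_nt_h97
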