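import Mathlib
import Pool.Agent.Lib.MP_f9aece_nt_h97.MellinL
import Pool.Agent.Lib.MP_f9aece_nt_h97.KernChoice
import Pool.Agent.Lib.MP_f9aece_nt_h97.FM5
import Pool.Agent.Lib.MP_f9aece_nt_h97.FM6

/-!
Fourth moment of zeta on the critical line with a polylogarithmic loss.
-/

set_option autoImplicit false

namespace Pool.Agent.Lib.MP_f9aece_nt_h97

open MeasureTheory Set Filter Topology Complex
open scoped ENNReal

lemma continuous_zeta_half : Continuous (fun t : ℝ => riemannZeta (1 / 2 + I * t)) := by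
  rw [continuous_iff_continuousAt]
  intro t
  have h1 : (1 / 2 + I * t : ℂ) ≠ 1 := by
    intro h
    have := congrArg Complex.re h
    simp at this
  have h2 : ContinuousAt (fun t : ℝ => (1 / 2 + I * t : ℂ)) t := by fun_prop
  exact ContinuousAt.comp (g := riemannZeta) (f := fun t : ℝ => (1 / 2 + I * t : ℂ))
    (differentiableAt_riemannZeta h1).continuousAt h2

lemma continuous_DS (N : ℕ) : Continuous (fun t : ℝ => DSt t N) := by
  have : (fun t : ℝ => DSt t N) = fun t => Pool.Agent.Lib.MP_f9aece_nt.ev t (XN N) :=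
    funext fun t => (ev_XN t N).symm
  rw [this]
  exact Pool.Agent.Lib.MP_f9aece_nt.continuous_ev _

lemma fm7_aux1 {q T : ℝ} (hq : 3 ≤ q) (hq2 : q ^ 2 = T) : 2 * (q + 1) ≤ T := by
  nlinarith

lemma fm7_aux2 {T : ℝ} (hT : 9 ≤ T) : T ≤ T ^ 2 := by
  nlinarith

lemma fm7_aux3 {p C S : ℝ} (hp : 1 / 2 ≤ p) (h : 0 ≤ C * (1 + S)) :
    C * (1 + S) ≤ p * (2 * C * (1 + S)) := by
  nlinarith

lemma pow_four_add (x y : ℝ) : (x + y) ^ 4 ≤ 8 * (x ^ 4 + y ^ 4) := by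
  have h1 : (x + y) ^ 2 ≤ 2 * (x ^ 2 + y ^ 2) := by nlinarith [sq_nonneg (x - y)]
  have h2 : (x ^ 2 + y ^ 2) ^ 2 ≤ 2 * (x ^ 4 + y ^ 4) := by nlinarith [sq_nonneg (x ^ 2 - y ^ 2)]
  calc (x + y) ^ 4 = ((x + y) ^ 2) ^ 2 := by ring
    _ ≤ (2 * (x ^ 2 + y ^ 2)) ^ 2 := by gcongr
    _ = 4 * (x ^ 2 + y ^ 2) ^ 2 := by ring
    _ ≤ 4 * (2 * (x ^ 4 + y ^ 4)) := by gcongr
    _ = _ := by ring

/-- weighted Hölder for fourth powers -/
lemma sum_pow_four (s : Finset ℕ) (w x : ℕ → ℝ) (hw : ∀ i, 0 ≤ w i) :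
    (∑ i ∈ s, w i * x i) ^ 4 ≤ (∑ i ∈ s, w i) ^ 3 * ∑ i ∈ s, w i * x i ^ 4 := by
  have hcs : ∀ y : ℕ → ℝ, (∑ i ∈ s, w i * y i) ^ 2 ≤ (∑ i ∈ s, w i) * ∑ i ∈ s, w i * y i ^ 2 := by
    intro y
    have h := Finset.sum_mul_sq_le_sq_mul_sq s (fun i => Real.sqrt (w i)) (fun i => Real.sqrt (w i) * y i)
    have e1 : ∀ i ∈ s, Real.sqrt (w i) * (Real.sqrt (w i) * y i) = w i * y i := fun i _ => by
      rw [← mul_assoc, Real.mul_self_sqrt (hw i)]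
    have e2 : ∀ i ∈ s, Real.sqrt (w i) ^ 2 = w i := fun i _ => Real.sq_sqrt (hw i)
    have e3 : ∀ i ∈ s, (Real.sqrt (w i) * y i) ^ 2 = w i * y i ^ 2 := fun i _ => by
      rw [mul_pow, Real.sq_sqrt (hw i)]
    rw [Finset.sum_congr rfl e1, Finset.sum_congr rfl e2, Finset.sum_congr rfl e3] at h
    exact h
  have hW : 0 ≤ ∑ i ∈ s, w i := Finset.sum_nonneg fun i _ => hw i
  have h1 := hcs x
  have h2 := hcs (fun i => x i ^ 2)
  have h0 : 0 ≤ ∑ i ∈ s, w i * x i ^ 2 := Finset.sum_nonneg fun i _ => mul_nonneg (hw i) (sq_nonneg _)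
  have e4 : ∑ i ∈ s, w i * (x i ^ 2) ^ 2 = ∑ i ∈ s, w i * x i ^ 4 :=
    Finset.sum_congr rfl fun i _ => by ring
  rw [e4] at h2
  calc (∑ i ∈ s, w i * x i) ^ 4 = ((∑ i ∈ s, w i * x i) ^ 2) ^ 2 := by ring
    _ ≤ ((∑ i ∈ s, w i) * ∑ i ∈ s, w i * x i ^ 2) ^ 2 := by gcongr
    _ = (∑ i ∈ s, w i) ^ 2 * (∑ i ∈ s, w i * x i ^ 2) ^ 2 := by ring
    _ ≤ (∑ i ∈ s, w i) ^ 2 * ((∑ i ∈ s, w i) * ∑ i ∈ s, w i * x i ^ 4) := by gcongr
    _ = _ := by ring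

/-- sum of the weights -/
lemma weight_sum {N : ℕ} (hN : 1 ≤ N) (M : ℕ) :
    ∑ m ∈ Finset.range M, 1 / (N : ℝ) / (1 + ((m : ℝ) + 1) / (2 * N)) ^ 2 ≤ 4 := by
  have hN0 : (0 : ℝ) < N := by exact_mod_cast hN
  have h1 : ∀ m ∈ Finset.range M, 1 / (N : ℝ) / (1 + ((m : ℝ) + 1) / (2 * N)) ^ 2
      = 4 * N * (1 / ((m + (2 * N + 1) : ℕ) : ℝ) ^ 2) := by
    intro m _
    push_cast
    have : (1 + ((m : ℝ) + 1) / (2 * N)) = (m + (2 * N + 1)) / (2 * N) := by field_simp; ring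
    rw [this]
    field_simp
    norm_num
  rw [Finset.sum_congr rfl h1, ← Finset.mul_sum]
  have h2 := Pool.Agent.Lib.MP_f9aece_nt.tail_sum_sq_partial (2 * N + 1) (by omega) M
  have h3 : 0 ≤ 2 / ((M : ℝ) + ((2 * N + 1 : ℕ) : ℝ)) := by positivity
  have h4 : ∑ n ∈ Finset.range M, 1 / ((n + (2 * N + 1) : ℕ) : ℝ) ^ 2 ≤ (2 : ℝ) / (2 * (N : ℝ) + 1) := by
    push_cast at h2 h3 ⊢
    linarith
  calc 4 * (N : ℝ) * ∑ n ∈ Finset.range M, 1 / ((n + (2 * N + 1) : ℕ) : ℝ) ^ 2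
      ≤ 4 * (N : ℝ) * ((2 : ℝ) / (2 * (N : ℝ) + 1)) := by gcongr
    _ = 8 * (N : ℝ) / (2 * (N : ℝ) + 1) := by ring
    _ ≤ 4 := by
        rw [div_le_iff₀ (by positivity)]
        linarith

/-- the pointwise bound -/
theorem zeta_pt : ∃ C T0 : ℝ, 0 < C ∧ 1 ≤ T0 ∧ ∀ T : ℝ, T0 ≤ T → ∀ M : ℕ, T ^ 2 ≤ M →
    ∀ t : ℝ, T / 2 ≤ t → t ≤ T →
    ‖riemannZeta (1 / 2 + I * t)‖ ≤ C * (1 + ∑ m ∈ Finset.range M,
      (Hn ⌈Real.sqrt T⌉₊ / ⌈Real.sqrt T⌉₊ / (1 + ((m : ℝ) + 1) / (2 * ⌈Real.sqrt T⌉₊)) ^ 4)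
        * ‖DSt t (m + 1)‖) := by
  obtain ⟨K, _, hg⟩ := Ker.exists_good (ε := 1 / 4) (by norm_num) (by norm_num)
  obtain ⟨C, T0, hC, hT0, h⟩ := K.zeta_avg
  have hL := K.hL
  have hml := K.ml_nonneg
  refine ⟨16 + 2 * C, max (max T0 9) (max (4 * K.L ^ 2) (16 * K.L ^ 2 * K.ml)), by positivity,
    le_trans hT0 (le_trans (le_max_left _ _) (le_max_left _ _)), fun T hT M hM t ht1 ht2 => ?_⟩
  have hT1 : T0 ≤ T := (le_max_left _ _).trans ((le_max_left _ _).trans hT)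
  have hT9 : 9 ≤ T := (le_max_right _ _).trans ((le_max_left _ _).trans hT)
  have hT2 : 4 * K.L ^ 2 ≤ T := (le_max_left _ _).trans ((le_max_right _ _).trans hT)
  have hT3 : 16 * K.L ^ 2 * K.ml ≤ T := (le_max_right _ _).trans ((le_max_right _ _).trans hT)
  have hTp : 0 < T := by linarith
  have hmain := h T hT1 M hM t ht1 ht2
  have hlow := K.mellin_lower hg hT2 (by linarith) ht2
  set N := ⌈Real.sqrt T⌉₊ with hN
  set p := T * ‖mellin (fun x => (K.phi T x : ℂ)) (1 / 2 + I * t)‖ with hp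
  set Z := ‖riemannZeta (1 / 2 + I * t)‖ with hZ
  have hp2 : 1 / 2 ≤ p := by
    rw [div_le_iff₀ hTp] at hlow
    have h4 : 4 * K.L ^ 2 * K.ml / T ≤ 1 / 4 := by
      rw [div_le_iff₀ hTp]; linarith
    rw [hp, mul_comm]
    linarith
  have hq : 3 ≤ Real.sqrt T := by
    apply Real.le_sqrt_of_sq_le
    norm_num
    exact hT9
  have hNq : Real.sqrt T ≤ N := Nat.le_ceil _
  have hN0 : (0 : ℝ) < N := by linarith
  have hN1 : 1 ≤ N := by exact_mod_cast hN0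
  have hN3 : (N : ℝ) < Real.sqrt T + 1 := Nat.ceil_lt_add_one (Real.sqrt_nonneg _)
  set w : ℕ → ℝ := fun m => Hn N / N / (1 + ((m : ℝ) + 1) / (2 * N)) ^ 4 with hw
  have hH1 := Hn_one_le hN1
  have hw0 : ∀ m, 0 ≤ w m := fun m => by rw [hw]; positivity
  have hS : ∑ m ∈ Finset.range M, ‖DSt t (m + 1)‖ * (Hn N / N / (1 + ((m : ℝ) + 1) / (2 * N)) ^ 4)
      = ∑ m ∈ Finset.range M, w m * ‖DSt t (m + 1)‖ := Finset.sum_congr rfl fun m _ => by
    rw [hw]; ring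
  rw [hS] at hmain
  set S := ∑ m ∈ Finset.range M, w m * ‖DSt t (m + 1)‖ with hSd
  have hS0 : 0 ≤ S := Finset.sum_nonneg fun m _ => mul_nonneg (hw0 m) (norm_nonneg _)
  have h2NM : 2 * N ≤ M := by
    have : ((2 * N : ℕ) : ℝ) ≤ M := by
      push_cast
      have hq2 : Real.sqrt T ^ 2 = T := Real.sq_sqrt hTp.le
      have h5 : 2 * (Real.sqrt T + 1) ≤ T := fm7_aux1 hq hq2
      have h6 : T ≤ T ^ 2 := fm7_aux2 hT9
      linarith only [h5, h6, hN3, hM]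
    exact_mod_cast this
  have hA : (∑ i ∈ Finset.range N, ‖DSt t (N + i)‖) / N ≤ 16 * S := by
    rw [div_le_iff₀ hN0]
    have h7 : ∑ i ∈ Finset.range N, ‖DSt t (N + i)‖
        = ∑ m ∈ Finset.Ico (N - 1) (2 * N - 1), ‖DSt t (m + 1)‖ := by
      rw [Finset.sum_Ico_eq_sum_range]
      have e1 : 2 * N - 1 - (N - 1) = N := by omega
      rw [e1]
      refine Finset.sum_congr rfl fun i _ => ?_
      have e2 : N - 1 + i + 1 = N + i := by omega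
      rw [e2]
    rw [h7]
    have h8 : ∀ m ∈ Finset.Ico (N - 1) (2 * N - 1), ‖DSt t (m + 1)‖ ≤ 16 * N * (w m * ‖DSt t (m + 1)‖) := by
      intro m hm
      rw [Finset.mem_Ico] at hm
      have h9 : (m : ℝ) + 1 ≤ 2 * N := by
        have : m + 1 ≤ 2 * N := by omega
        exact_mod_cast this
      have h10 : (1 + ((m : ℝ) + 1) / (2 * N)) ^ 4 ≤ 16 := by
        have h11 : 1 + ((m : ℝ) + 1) / (2 * N) ≤ 2 := by
          have : ((m : ℝ) + 1) / (2 * N) ≤ 1 := by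
            rw [div_le_one (by positivity)]; exact h9
          linarith
        calc (1 + ((m : ℝ) + 1) / (2 * N)) ^ 4 ≤ 2 ^ 4 := by gcongr
          _ = 16 := by norm_num
      have h12 : 1 ≤ 16 * N * w m := by
        rw [hw]
        simp only
        have e3 : 16 * (N : ℝ) * (Hn N / N / (1 + ((m : ℝ) + 1) / (2 * N)) ^ 4)
            = 16 * Hn N / (1 + ((m : ℝ) + 1) / (2 * N)) ^ 4 := by field_simp
        rw [e3, le_div_iff₀ (by positivity)]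
        linarith
      calc ‖DSt t (m + 1)‖ = 1 * ‖DSt t (m + 1)‖ := (one_mul _).symm
        _ ≤ (16 * N * w m) * ‖DSt t (m + 1)‖ := by gcongr
        _ = _ := by ring
    refine (Finset.sum_le_sum h8).trans ?_
    rw [← Finset.mul_sum]
    have h13 : ∑ m ∈ Finset.Ico (N - 1) (2 * N - 1), w m * ‖DSt t (m + 1)‖ ≤ S := by
      refine Finset.sum_le_sum_of_subset_of_nonneg ?_ fun m _ _ => mul_nonneg (hw0 m) (norm_nonneg _)
      intro m hm
      rw [Finset.mem_Ico] at hm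
      rw [Finset.mem_range]
      omega
    calc 16 * (N : ℝ) * ∑ m ∈ Finset.Ico (N - 1) (2 * N - 1), w m * ‖DSt t (m + 1)‖ ≤ 16 * N * S := by gcongr
      _ = 16 * S * N := by ring
  have hZ0 : 0 ≤ Z := norm_nonneg _
  -- divide by p
  have h14 : Z * p ≤ p * (16 * S) + C * (1 + S) := by
    have := mul_le_mul_of_nonneg_left hA (by linarith : 0 ≤ p)
    linarith
  have h15 : C * (1 + S) ≤ p * (2 * C * (1 + S)) := by
    exact fm7_aux3 hp2 (by positivity)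
  have h16 : Z * p ≤ (16 * S + 2 * C * (1 + S)) * p := by linarith
  have h17 : Z ≤ 16 * S + 2 * C * (1 + S) := le_of_mul_le_mul_right h16 (by linarith)
  linarith

end Pool.Agent.Lib.MP_f9aece_nt_h97
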