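import Mathlib
import Pool.Agent.Lib.MP_f9aece_nt_h97.FM7

/-!
Fourth moment of zeta on the critical line: integration and dyadic summation.
-/

set_option autoImplicit false

namespace Pool.Agent.Lib.MP_f9aece_nt_h97

open MeasureTheory Set Filter Topology Complex
open scoped ENNReal

lemma fourth_dyadic : ∃ C T0 : ℝ, 0 < C ∧ 1 ≤ T0 ∧ ∀ T : ℝ, T0 ≤ T →
    ∫ t in (T / 2)..T, ‖riemannZeta (1 / 2 + I * t)‖ ^ 4 ≤ C * T * Real.log T ^ 9 := by
  obtain ⟨C, T0, hC, hT0, h⟩ := zeta_pt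
  refine ⟨8 * C ^ 4 * (8 + 65536 * 10 ^ 9 * 8), max T0 9, by positivity,
    le_trans hT0 (le_max_left _ _), fun T hT => ?_⟩
  have hT1 : T0 ≤ T := (le_max_left _ _).trans hT
  have hT9 : 9 ≤ T := (le_max_right _ _).trans hT
  have hTp : 0 < T := by linarith
  set M := ⌈T ^ 2⌉₊ with hM
  have hM1 : T ^ 2 ≤ M := Nat.le_ceil _
  have hM2 : (M : ℝ) < T ^ 2 + 1 := Nat.ceil_lt_add_one (by positivity)
  set N := ⌈Real.sqrt T⌉₊ with hN
  have hq : 3 ≤ Real.sqrt T := by
    apply Real.le_sqrt_of_sq_le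
    norm_num
    exact hT9
  have hq2 : Real.sqrt T ^ 2 = T := Real.sq_sqrt hTp.le
  have hNq : Real.sqrt T ≤ N := Nat.le_ceil _
  have hN3 : (N : ℝ) < Real.sqrt T + 1 := Nat.ceil_lt_add_one (Real.sqrt_nonneg _)
  have hN0 : (0 : ℝ) < N := by linarith
  have hN1 : 1 ≤ N := by exact_mod_cast hN0
  have hNT : (N : ℝ) ^ 2 ≤ 2 * T := by
    calc (N : ℝ) ^ 2 ≤ (Real.sqrt T + 1) ^ 2 := by gcongr
      _ = T + 2 * Real.sqrt T + 1 := by rw [add_sq, hq2]; ring
      _ ≤ 2 * T := by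
          have : 3 * Real.sqrt T ≤ T := by
            calc 3 * Real.sqrt T ≤ Real.sqrt T * Real.sqrt T := by gcongr
              _ = T := by rw [← sq, hq2]
          linarith
  have hTN : T ≤ (N : ℝ) ^ 2 := by rw [← hq2]; gcongr
  have hNM : N ≤ M := by
    have : (N : ℝ) ≤ M := by
      have h1 : (N : ℝ) ≤ N ^ 2 := by
        have : (1 : ℝ) ≤ N := by linarith
        nlinarith
      have h2 : 2 * T ≤ T ^ 2 := by nlinarith
      linarith
    exact_mod_cast this
  set w : ℕ → ℝ := fun m => Hn N / N / (1 + ((m : ℝ) + 1) / (2 * N)) ^ 4 with hw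
  have hw0 : ∀ m, 0 ≤ w m := fun m => by
    have := Hn_nonneg N
    rw [hw]; positivity
  set H := Hn (M ^ 2) with hH
  have hM1' : 1 ≤ M := hN1.trans hNM
  have hH1 : 1 ≤ H := Hn_one_le (Nat.one_le_pow _ _ hM1')
  have hHN : Hn N ≤ H := Hn_mono (hNM.trans (Nat.le_self_pow (by norm_num) M))
  have hlogT : 2 ≤ Real.log T := by
    have h1 : Real.log 9 ≤ Real.log T := Real.log_le_log (by norm_num) hT9
    have h2 : Real.log 9 = 2 * Real.log 3 := by
      rw [show (9 : ℝ) = 3 ^ 2 by norm_num, Real.log_pow]; norm_num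
    have h3 : (1 : ℝ) ≤ Real.log 3 := by
      rw [Real.le_log_iff_exp_le (by norm_num)]
      linarith [Real.exp_one_lt_d9]
    linarith
  have hHlog : H ≤ 10 * Real.log T := by
    refine (Hn_le _).trans ?_
    have h1 : ((M ^ 2 : ℕ) : ℝ) ≤ T ^ 6 := by
      push_cast
      have h2 : (M : ℝ) ≤ T ^ 3 := by nlinarith [pow_pos hTp 2]
      calc (M : ℝ) ^ 2 ≤ (T ^ 3) ^ 2 := by gcongr
        _ = T ^ 6 := by ring
    have h3 : Real.log ((M ^ 2 : ℕ) : ℝ) ≤ 6 * Real.log T := by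
      have h4 : (0 : ℝ) < ((M ^ 2 : ℕ) : ℝ) := by
        have : 0 < M ^ 2 := by positivity
        exact_mod_cast this
      have := Real.log_le_log h4 h1
      rwa [Real.log_pow] at this
    linarith
  -- sums of weights
  have hws := weight_sum hN1 M
  have hW : ∑ m ∈ Finset.range M, w m ≤ 4 * H := by
    calc ∑ m ∈ Finset.range M, w m
        ≤ ∑ m ∈ Finset.range M, H * (1 / (N : ℝ) / (1 + ((m : ℝ) + 1) / (2 * N)) ^ 2) := by
          refine Finset.sum_le_sum fun m _ => ?_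
          rw [hw]
          simp only
          have hx : 1 ≤ 1 + ((m : ℝ) + 1) / (2 * N) := by
            have : 0 ≤ ((m : ℝ) + 1) / (2 * N) := by positivity
            linarith
          calc Hn N / N / (1 + ((m : ℝ) + 1) / (2 * N)) ^ 4
              ≤ H / N / (1 + ((m : ℝ) + 1) / (2 * N)) ^ 2 := by
                gcongr ?_ / N / ?_
                exact pow_le_pow_right₀ hx (by norm_num)
            _ = _ := by ring
      _ = H * ∑ m ∈ Finset.range M, (1 / (N : ℝ) / (1 + ((m : ℝ) + 1) / (2 * N)) ^ 2) := by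
          rw [Finset.mul_sum]
      _ ≤ H * 4 := by gcongr
      _ = 4 * H := by ring
  have hW0 : 0 ≤ ∑ m ∈ Finset.range M, w m := Finset.sum_nonneg fun m _ => hw0 m
  -- fourth moments
  have hD : ∑ m ∈ Finset.range M, w m * ∫ t in (0 : ℝ)..T, ‖DSt t (m + 1)‖ ^ 4 ≤ 1024 * T * H ^ 6 := by
    have hterm : ∀ m ∈ Finset.range M, w m * ∫ t in (0 : ℝ)..T, ‖DSt t (m + 1)‖ ^ 4
        ≤ (128 * H ^ 6 * T) * (1 / (N : ℝ) / (1 + ((m : ℝ) + 1) / (2 * N)) ^ 2) := by
      intro m hm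
      rw [Finset.mem_range] at hm
      have h1 := fourth_DS (T := T) hTp.le (m + 1)
      have h2 : Hn ((m + 1) ^ 2) ≤ H := Hn_mono (Nat.pow_le_pow_left (by omega) 2)
      have h3 : Hn (m + 1) ≤ H := Hn_mono ((show m + 1 ≤ M by omega).trans (Nat.le_self_pow (by norm_num) M))
      have h4 := Hn_nonneg (m + 1)
      have h5 := Hn_nonneg ((m + 1) ^ 2)
      have hm0 : (0 : ℝ) ≤ m := Nat.cast_nonneg m
      have h6 : T + 16 * ((m + 1 : ℕ) : ℝ) ^ 2 * Hn ((m + 1) ^ 2)
          ≤ 16 * H * (2 * N) ^ 2 * (1 + ((m : ℝ) + 1) / (2 * N)) ^ 2 := by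
        have e1 : 16 * H * (2 * (N : ℝ)) ^ 2 * (1 + ((m : ℝ) + 1) / (2 * N)) ^ 2
            = 16 * H * (2 * N + (m + 1)) ^ 2 := by field_simp
        rw [e1]
        push_cast
        calc T + 16 * ((m : ℝ) + 1) ^ 2 * Hn ((m + 1) ^ 2)
            ≤ H * (N : ℝ) ^ 2 + 16 * ((m : ℝ) + 1) ^ 2 * H := by
              gcongr
              calc T ≤ (N : ℝ) ^ 2 := hTN
                _ = 1 * (N : ℝ) ^ 2 := (one_mul _).symm
                _ ≤ H * (N : ℝ) ^ 2 := by gcongr
          _ ≤ 16 * H * ((2 * N) ^ 2 + ((m : ℝ) + 1) ^ 2 + 2 * (2 * N) * ((m : ℝ) + 1)) := by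
              have g1 : 0 ≤ H * (N : ℝ) ^ 2 := by positivity
              have g2 : 0 ≤ H * ((N : ℝ) * ((m : ℝ) + 1)) := by positivity
              nlinarith
          _ = 16 * H * (2 * N + (m + 1)) ^ 2 := by ring
      have h7 : ∫ t in (0 : ℝ)..T, ‖DSt t (m + 1)‖ ^ 4
          ≤ (16 * H * (2 * N) ^ 2 * (1 + ((m : ℝ) + 1) / (2 * N)) ^ 2) * H ^ 4 := by
        refine h1.trans ?_
        gcongr
      have h8 : w m ≤ H * (1 / N) / (1 + ((m : ℝ) + 1) / (2 * N)) ^ 4 := by
        rw [hw]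
        simp only
        have : Hn N / (N : ℝ) ≤ H * (1 / N) := by
          rw [mul_one_div]; gcongr
        gcongr
      calc w m * ∫ t in (0 : ℝ)..T, ‖DSt t (m + 1)‖ ^ 4
          ≤ (H * (1 / N) / (1 + ((m : ℝ) + 1) / (2 * N)) ^ 4)
            * ((16 * H * (2 * N) ^ 2 * (1 + ((m : ℝ) + 1) / (2 * N)) ^ 2) * H ^ 4) := by
            refine mul_le_mul h8 h7 ?_ (by positivity)
            exact intervalIntegral.integral_nonneg hTp.le fun t _ => by positivity
        _ = (64 * H ^ 6 * (N : ℝ) ^ 2) * (1 / (N : ℝ) / (1 + ((m : ℝ) + 1) / (2 * N)) ^ 2) := by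
            have hx : (1 + ((m : ℝ) + 1) / (2 * N)) ≠ 0 := by positivity
            field_simp
            norm_num
        _ ≤ (64 * H ^ 6 * (2 * T)) * (1 / (N : ℝ) / (1 + ((m : ℝ) + 1) / (2 * N)) ^ 2) := by gcongr
        _ = _ := by ring
    refine (Finset.sum_le_sum hterm).trans ?_
    rw [← Finset.mul_sum]
    calc (128 * H ^ 6 * T) * ∑ m ∈ Finset.range M, (1 / (N : ℝ) / (1 + ((m : ℝ) + 1) / (2 * N)) ^ 2)
        ≤ (128 * H ^ 6 * T) * 4 := by gcongr
      _ ≤ 1024 * T * H ^ 6 := by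
          have : 0 ≤ T * H ^ 6 := by positivity
          linarith
  -- integrate the pointwise bound
  have hcD : ∀ m : ℕ, Continuous (fun t : ℝ => ‖DSt t (m + 1)‖ ^ 4) := fun m =>
    (continuous_DS (m + 1)).norm.pow 4
  have hpt : ∀ t ∈ Icc (T / 2) T, ‖riemannZeta (1 / 2 + I * t)‖ ^ 4
      ≤ 8 * C ^ 4 + 8 * C ^ 4 * (4 * H) ^ 3 * ∑ m ∈ Finset.range M, w m * ‖DSt t (m + 1)‖ ^ 4 := by
    intro t ht
    have h1 := h T hT1 M hM1 t ht.1 ht.2
    set S := ∑ m ∈ Finset.range M, w m * ‖DSt t (m + 1)‖ with hS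
    have hS0 : 0 ≤ S := Finset.sum_nonneg fun m _ => mul_nonneg (hw0 m) (norm_nonneg _)
    have h2 := sum_pow_four (Finset.range M) w (fun m => ‖DSt t (m + 1)‖) hw0
    rw [← hS] at h2
    have h3 := pow_four_add 1 S
    have hQ : 0 ≤ ∑ m ∈ Finset.range M, w m * ‖DSt t (m + 1)‖ ^ 4 :=
      Finset.sum_nonneg fun m _ => mul_nonneg (hw0 m) (by positivity)
    calc ‖riemannZeta (1 / 2 + I * t)‖ ^ 4 ≤ (C * (1 + S)) ^ 4 := by gcongr
      _ = C ^ 4 * (1 + S) ^ 4 := by ring
      _ ≤ C ^ 4 * (8 * (1 ^ 4 + S ^ 4)) := by gcongr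
      _ ≤ C ^ 4 * (8 * (1 ^ 4 + (4 * H) ^ 3 * ∑ m ∈ Finset.range M, w m * ‖DSt t (m + 1)‖ ^ 4)) := by
          gcongr
          refine h2.trans ?_
          gcongr
      _ = _ := by ring
  have hle : T / 2 ≤ T := by linarith
  have hint1 : ∫ t in (T / 2)..T, ‖riemannZeta (1 / 2 + I * t)‖ ^ 4
      ≤ ∫ t in (T / 2)..T, (8 * C ^ 4 + 8 * C ^ 4 * (4 * H) ^ 3
        * ∑ m ∈ Finset.range M, w m * ‖DSt t (m + 1)‖ ^ 4) := by
    refine intervalIntegral.integral_mono_on hle ?_ ?_ hpt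
    · exact (continuous_zeta_half.norm.pow 4).intervalIntegrable _ _
    · refine Continuous.intervalIntegrable ?_ _ _
      refine continuous_const.add (continuous_const.mul ?_)
      exact continuous_finsetSum _ fun m _ => continuous_const.mul (hcD m)
  refine hint1.trans ?_
  have hcs : Continuous (fun t : ℝ => ∑ m ∈ Finset.range M, w m * ‖DSt t (m + 1)‖ ^ 4) :=
    continuous_finsetSum _ fun m _ => continuous_const.mul (hcD m)
  have hci : IntervalIntegrable (fun t : ℝ => 8 * C ^ 4 * (4 * H) ^ 3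
      * ∑ m ∈ Finset.range M, w m * ‖DSt t (m + 1)‖ ^ 4) volume (T / 2) T :=
    (continuous_const.mul hcs).intervalIntegrable _ _
  rw [intervalIntegral.integral_add (by simp) hci,
    intervalIntegral.integral_const, intervalIntegral.integral_const_mul]
  have h10 : ∫ t in (T / 2)..T, ∑ m ∈ Finset.range M, w m * ‖DSt t (m + 1)‖ ^ 4 ≤ 1024 * T * H ^ 6 := by
    refine le_trans ?_ hD
    rw [intervalIntegral.integral_finsetSum]
    · refine Finset.sum_le_sum fun m _ => ?_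
      rw [intervalIntegral.integral_const_mul]
      refine mul_le_mul_of_nonneg_left ?_ (hw0 m)
      refine intervalIntegral.integral_mono_interval (by linarith) hle le_rfl ?_
        ((hcD m).intervalIntegrable _ _)
      exact Eventually.of_forall fun t => by positivity
    · intro m _
      exact (continuous_const.mul (hcD m)).intervalIntegrable _ _
  have hH0 : 0 ≤ H := by linarith
  have hL9 : 1 ≤ Real.log T ^ 9 := one_le_pow₀ (by linarith)
  calc (T - T / 2) • (8 * C ^ 4) + 8 * C ^ 4 * (4 * H) ^ 3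
        * ∫ t in (T / 2)..T, ∑ m ∈ Finset.range M, w m * ‖DSt t (m + 1)‖ ^ 4
      ≤ (T - T / 2) • (8 * C ^ 4) + 8 * C ^ 4 * (4 * H) ^ 3 * (1024 * T * H ^ 6) := by gcongr
    _ = 8 * C ^ 4 * (T / 2 + 65536 * T * H ^ 9) := by rw [smul_eq_mul]; ring
    _ ≤ 8 * C ^ 4 * (T / 2 * Real.log T ^ 9 + 65536 * T * (10 * Real.log T) ^ 9) := by
        gcongr
        exact le_mul_of_one_le_right (by positivity) hL9
    _ = (8 * C ^ 4 * T * Real.log T ^ 9) * (1 / 2 + 65536 * 10 ^ 9) := by ring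
    _ ≤ (8 * C ^ 4 * T * Real.log T ^ 9) * (8 + 65536 * 10 ^ 9 * 8) :=
        mul_le_mul_of_nonneg_left (by norm_num) (by positivity)
    _ = 8 * C ^ 4 * (8 + 65536 * 10 ^ 9 * 8) * T * Real.log T ^ 9 := by ring

/-- fourth moment of zeta with a polylogarithmic loss -/
theorem fourth_moment : ∃ C T0 : ℝ, 0 < C ∧ 3 ≤ T0 ∧ ∀ T : ℝ, T0 ≤ T →
    ∫ t in (0 : ℝ)..T, ‖riemannZeta (1 / 2 + I * t)‖ ^ 4 ≤ C * T * Real.log T ^ 9 := by
  obtain ⟨C, T0, hC, hT0, h⟩ := fourth_dyadic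
  set T1 := max T0 3 with hT1
  have hT13 : 3 ≤ T1 := le_max_right _ _
  have hT10 : T0 ≤ T1 := le_max_left _ _
  set F : ℝ → ℝ := fun T => ∫ t in (0 : ℝ)..T, ‖riemannZeta (1 / 2 + I * t)‖ ^ 4 with hF
  have hcz : Continuous (fun t : ℝ => ‖riemannZeta (1 / 2 + I * t)‖ ^ 4) := continuous_zeta_half.norm.pow 4
  have hFm : ∀ a b : ℝ, 0 ≤ a → a ≤ b → F a ≤ F b := by
    intro a b ha hab
    refine intervalIntegral.integral_mono_interval le_rfl ha hab ?_ (hcz.intervalIntegrable _ _)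
    exact Eventually.of_forall fun t => by positivity
  have hstep : ∀ T : ℝ, F T = F (T / 2) + ∫ t in (T / 2)..T, ‖riemannZeta (1 / 2 + I * t)‖ ^ 4 := by
    intro T
    rw [hF]
    simp only
    rw [intervalIntegral.integral_add_adjacent_intervals (hcz.intervalIntegrable _ _)
      (hcz.intervalIntegrable _ _)]
  have hind : ∀ n : ℕ, ∀ T : ℝ, T1 ≤ T → T ≤ 2 ^ n * T1 → F T ≤ F T1 + 2 * C * T * Real.log T ^ 9 := by
    intro n
    induction n with
    | zero =>
      intro T h1 h2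
      have : T = T1 := by linarith
      rw [this]
      have hl : 0 ≤ Real.log T1 := Real.log_nonneg (by linarith)
      have : 0 ≤ 2 * C * T1 * Real.log T1 ^ 9 := by positivity
      linarith
    | succ n ih =>
      intro T h1 h2
      have hd := h T (hT10.trans h1)
      rw [hstep T]
      have hl : 0 ≤ Real.log T := Real.log_nonneg (by linarith)
      by_cases hc : T1 ≤ T / 2
      · have h3 := ih (T / 2) hc (by rw [pow_succ] at h2; linarith)
        have h4 : Real.log (T / 2) ≤ Real.log T := Real.log_le_log (by linarith) (by linarith)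
        have h5 : 0 ≤ Real.log (T / 2) := Real.log_nonneg (by linarith)
        have h6 : 2 * C * (T / 2) * Real.log (T / 2) ^ 9 ≤ 2 * C * (T / 2) * Real.log T ^ 9 := by
          have : 0 ≤ T / 2 := by linarith
          gcongr
        linarith
      · push Not at hc
        have h3 := hFm (T / 2) T1 (by linarith) hc.le
        have h4 : 0 ≤ C * T * Real.log T ^ 9 := by
          have : 0 ≤ T := by linarith
          positivity
        linarith
  refine ⟨2 * C + F T1, T1, ?_, hT13, fun T hT => ?_⟩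
  · have : 0 ≤ F T1 := intervalIntegral.integral_nonneg (by linarith) fun t _ => by positivity
    linarith
  · obtain ⟨n, hn⟩ := pow_unbounded_of_one_lt (T / T1) (by norm_num : (1 : ℝ) < 2)
    have h1 := hind n T hT (by
      rw [div_lt_iff₀ (by linarith)] at hn
      exact hn.le)
    refine h1.trans ?_
    have h2 : 0 ≤ F T1 := intervalIntegral.integral_nonneg (by linarith) fun t _ => by positivity
    have hl : 1 ≤ Real.log T := by
      rw [Real.le_log_iff_exp_le (by linarith)]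
      linarith [Real.exp_one_lt_d9]
    have h3 : 1 ≤ T * Real.log T ^ 9 := by
      have : 1 ≤ Real.log T ^ 9 := one_le_pow₀ hl
      nlinarith
    have h4 : F T1 * 1 ≤ F T1 * (T * Real.log T ^ 9) := by gcongr
    calc F T1 + 2 * C * T * Real.log T ^ 9 ≤ F T1 * (T * Real.log T ^ 9) + 2 * C * T * Real.log T ^ 9 := by
          linarith
      _ = (2 * C + F T1) * T * Real.log T ^ 9 := by ring

end Pool.Agent.Lib.MP_f9aece_nt_h97
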