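import Mathlib
import Pool.Agent.Lib.MP_f9aece_nt_h97.Polys
import Pool.Agent.Lib.MP_f9aece_nt_h97.TSM

/-!
The second moment of zeta against the majorant of the first weight.
-/

set_option autoImplicit false

namespace Pool.Agent.Lib.MP_f9aece_nt_h97

open MeasureTheory Set Filter Topology Complex
open Pool.Agent.Lib.MP_f9aece_nt
open scoped ArithmeticFunction.Omega

/-- the scales -/
noncomputable def Sc (Y : ℝ) (j : ℕ) : Finset ℕ := sc Y 1 j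

/-- total reciprocal sum -/
noncomputable def Vt (Y : ℝ) (J : ℕ) : ℝ := ∑ j ∈ Finset.range J, VV (Sc Y j)

lemma Sc_prime {Y : ℝ} {j : ℕ} : ∀ p ∈ Sc Y j, p.Prime := fun _ hp => sc_prime hp

lemma Sc_log {Y : ℝ} {j : ℕ} : ∀ p ∈ Sc Y j, Real.log p ≤ Y / 4 ^ j := fun _ hp => sc_log_le hp

lemma Sc_disj {Y : ℝ} (hY : 0 < Y) (s : Finset ℕ) :
    ∀ i ∈ s, ∀ j ∈ s, i ≠ j → Disjoint (Sc Y i) (Sc Y j) := fun _ _ _ _ h => sc_disjoint hY h

lemma Vt_le {Y : ℝ} (hY : 0 < Y) (J : ℕ) : Vt Y J ≤ 1 + Y := sum_VV_le hY 1 J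

lemma Vt_nonneg (Y : ℝ) (J : ℕ) : 0 ≤ Vt Y J := Finset.sum_nonneg fun _ _ => VV_nonneg _

lemma sum_V2_le {Y : ℝ} (hY : 0 < Y) (J : ℕ) : ∑ j ∈ Finset.range J, V2 (Sc Y j) ≤ 1 := by
  have := sum_sq_sc_le hY (p0 := 1) le_rfl J
  simpa [V2, Sc] using this

lemma sum_LL_le {Y : ℝ} (hY : 0 < Y) (J : ℕ) : ∑ j ∈ Finset.range J, LL (Sc Y j) ≤ Y + 2 := by
  classical
  set n := ⌊Real.exp Y⌋₊ with hn
  have hn1 : 1 ≤ n := Nat.floor_pos.mpr (Real.one_le_exp hY.le)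
  have h1 : ∑ j ∈ Finset.range J, LL (Sc Y j)
      = ∑ p ∈ (Finset.range J).biUnion (Sc Y), (p : ℝ)⁻¹ * Real.log p := by
    rw [Finset.sum_biUnion]
    · rfl
    · intro i _ j _ hij
      exact sc_disjoint hY hij
  rw [h1]
  have hsub : (Finset.range J).biUnion (Sc Y) ⊆ (Finset.Ioc 0 n).filter Nat.Prime := by
    intro p hp
    rw [Finset.mem_biUnion] at hp
    obtain ⟨j, _, hj⟩ := hp
    have h2 := (mem_sc.mp hj).1
    rw [Finset.mem_Icc] at h2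
    rw [Finset.mem_filter, Finset.mem_Ioc]
    exact ⟨⟨by omega, h2.2⟩, sc_prime hj⟩
  calc ∑ p ∈ (Finset.range J).biUnion (Sc Y), (p : ℝ)⁻¹ * Real.log p
      ≤ ∑ p ∈ (Finset.Ioc 0 n).filter Nat.Prime, (p : ℝ)⁻¹ * Real.log p :=
        Finset.sum_le_sum_of_subset_of_nonneg hsub fun p _ _ =>
          mul_nonneg (by positivity) (Real.log_natCast_nonneg p)
    _ = ∑ p ∈ (Finset.Ioc 0 n).filter Nat.Prime, Real.log p / p :=
        Finset.sum_congr rfl fun p _ => by ring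
    _ ≤ Real.log n + Real.log 4 := sum_log_div_le hn1
    _ ≤ Y + 2 := by
        have h3 : Real.log n ≤ Y := by
          rw [Real.log_le_iff_le_exp (by exact_mod_cast hn1)]
          exact Nat.floor_le (Real.exp_pos Y).le
        have h4 : Real.log 4 ≤ 2 := by
          have : Real.log 4 = 2 * Real.log 2 := by
            rw [show (4 : ℝ) = 2 ^ 2 by norm_num, Real.log_pow]; norm_num
          rw [this]
          have := Real.log_two_lt_d9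
          linarith
        linarith

lemma sum_len {Y : ℝ} (hY : 0 < Y) (J : ℕ) :
    ∑ i ∈ Finset.range J, (Mj i : ℝ) * (Y / 4 ^ i) ≤ 8000 * Y := by
  have h : ∑ i ∈ Finset.range J, (Mj i : ℝ) * (Y / 4 ^ i) = 8000 * Y - 8000 * Y / 2 ^ J := by
    induction J with
    | zero => simp
    | succ J ih =>
      rw [Finset.sum_range_succ, ih, Mj_cast]
      have : (4 : ℝ) ^ J = 2 ^ J * 2 ^ J := by rw [← mul_pow]; norm_num
      rw [this, pow_succ]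
      field_simp
      ring
  rw [h]
  have : 0 ≤ 8000 * Y / 2 ^ J := by positivity
  linarith

lemma sum_len_Ico {Y : ℝ} (hY : 0 < Y) {J j : ℕ} (hj : j < J) :
    (Mj j : ℝ) * (Y / 4 ^ j) + ∑ i ∈ Finset.Ico (j + 1) J, (Mj i : ℝ) * (Y / 4 ^ i) ≤ 8000 * Y := by
  have h1 : (Mj j : ℝ) * (Y / 4 ^ j) + ∑ i ∈ Finset.Ico (j + 1) J, (Mj i : ℝ) * (Y / 4 ^ i)
      = ∑ i ∈ Finset.Ico j J, (Mj i : ℝ) * (Y / 4 ^ i) := by
    rw [Finset.sum_eq_sum_Ico_succ_bot hj (fun i => (Mj i : ℝ) * (Y / 4 ^ i))]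
  rw [h1]
  refine le_trans ?_ (sum_len hY J)
  refine Finset.sum_le_sum_of_subset_of_nonneg ?_ fun i _ _ => by positivity
  intro i hi
  rw [Finset.mem_Ico] at hi
  rw [Finset.mem_range]
  exact hi.2

section geom

variable {Y : ℝ} {c : ℝ}

lemma dom_AD (hc : |c| ≤ 1) (j : ℕ) : Dom (AD c (Sc Y) j) (AD 1 (Sc Y) j) :=
  dom_expo Sc_prime hc _

lemma cone_AD_Sc (hY : 0 < Y) {c : ℝ} (hc : 0 ≤ c) (j : ℕ) :
    Cone (Len (Mj j * (Y / 4 ^ j))) (AD c (Sc Y) j) :=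
  cone_AD hc Sc_prime (by positivity) Sc_log

lemma cone_D0 (hY : 0 < Y) {c : ℝ} (hc : 0 ≤ c) (J : ℕ) : Cone (Len (8000 * Y)) (D0 c (Sc Y) J) :=
  (cone_len_prod _ _ _ fun j _ => cone_AD_Sc hY hc j).mono (Len.mono (sum_len hY J))

lemma cone_D1 (hY : 0 < Y) {c : ℝ} (hc : 0 ≤ c) {J j : ℕ} (hj : j < J) :
    Cone (Len (8000 * Y)) (D1 c (Sc Y) J j) := by
  have h1 : Cone (Len ((Mj j : ℝ) * (Y / 4 ^ j))) (PP (Sc Y j) ^ Mj j) :=
    cone_PPM Sc_prime (by positivity) Sc_log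
  have h2 : Cone (Len (∑ i ∈ Finset.Ico (j + 1) J, (Mj i : ℝ) * (Y / 4 ^ i)))
      (∏ i ∈ Finset.Ico (j + 1) J, AD c (Sc Y) i) := cone_len_prod _ _ _ fun i _ => cone_AD_Sc hY hc i
  have h3 := h1.mul h2 (fun x hx y hy => Len.mul hx hy)
  exact h3.mono (Len.mono (sum_len_Ico hY hj))

lemma dom_D0 (hc : |c| ≤ 1) (J : ℕ) : Dom (D0 c (Sc Y) J) (D0 1 (Sc Y) J) :=
  Dom.prod _ fun j _ => dom_AD hc j

lemma dom_D1 (hc : |c| ≤ 1) (J j : ℕ) : Dom (D1 c (Sc Y) J j) (D1 1 (Sc Y) J j) :=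
  (dom_self (cone_PP_pow Sc_prime _)).mul (Dom.prod _ fun j _ => dom_AD hc j)

lemma card_Sc (j : ℕ) : ((Sc Y j).card : ℝ) ≤ Real.exp (Y / 4 ^ j) :=
  card_le_exp fun p hp => ⟨(Sc_prime p hp).one_le, Sc_log p hp⟩

lemma aug_AD (hY : 0 < Y) (j : ℕ) : aug (AD 1 (Sc Y) j) ≤ Real.exp (1 + Mj j * (Y / 4 ^ j)) :=
  aug_expo_le (by positivity) (card_Sc j)

lemma aug_D0 (hY : 0 < Y) (J : ℕ) : aug (D0 1 (Sc Y) J) ≤ Real.exp (J + 8000 * Y) := by
  unfold D0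
  rw [aug_prod]
  calc ∏ i ∈ Finset.range J, aug (AD 1 (Sc Y) i)
      ≤ ∏ i ∈ Finset.range J, Real.exp (1 + Mj i * (Y / 4 ^ i)) :=
        Finset.prod_le_prod (fun i _ => aug_nonneg (cone_AD_Sc hY zero_le_one i)) fun i _ => aug_AD hY i
    _ = Real.exp (∑ i ∈ Finset.range J, (1 + Mj i * (Y / 4 ^ i))) := by rw [Real.exp_sum]
    _ ≤ _ := by
        apply Real.exp_le_exp.mpr
        rw [Finset.sum_add_distrib]
        simp only [Finset.sum_const, Finset.card_range, nsmul_eq_mul, mul_one]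
        have := sum_len hY J
        linarith

lemma aug_D1 (hY : 0 < Y) {J j : ℕ} (hj : j < J) :
    aug (D1 1 (Sc Y) J j) ≤ Real.exp (J + 8000 * Y) := by
  unfold D1
  rw [aug_mul, aug_prod, aug_pow, aug_PP]
  have h1 : ((Sc Y j).card : ℝ) ^ Mj j ≤ Real.exp (Mj j * (Y / 4 ^ j)) := by
    rw [Real.exp_nat_mul]
    gcongr
    exact card_Sc j
  have h2 : ∏ i ∈ Finset.Ico (j + 1) J, aug (AD 1 (Sc Y) i)
      ≤ Real.exp (∑ i ∈ Finset.Ico (j + 1) J, (1 + Mj i * (Y / 4 ^ i))) := by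
    rw [Real.exp_sum]
    exact Finset.prod_le_prod (fun i _ => aug_nonneg (cone_AD_Sc hY zero_le_one i)) fun i _ => aug_AD hY i
  calc ((Sc Y j).card : ℝ) ^ Mj j * ∏ i ∈ Finset.Ico (j + 1) J, aug (AD 1 (Sc Y) i)
      ≤ Real.exp (Mj j * (Y / 4 ^ j))
        * Real.exp (∑ i ∈ Finset.Ico (j + 1) J, (1 + Mj i * (Y / 4 ^ i))) := by
        gcongr
        exact Finset.prod_nonneg fun i _ => aug_nonneg (cone_AD_Sc hY zero_le_one i)
    _ ≤ _ := by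
        rw [← Real.exp_add]
        apply Real.exp_le_exp.mpr
        rw [Finset.sum_add_distrib]
        simp only [Finset.sum_const, Nat.card_Ico, nsmul_eq_mul, mul_one]
        have h3 := sum_len_Ico hY hj
        have h4 : ((J - (j + 1) : ℕ) : ℝ) ≤ J := by exact_mod_cast Nat.sub_le _ _
        linarith

end geom

section forms

variable {Y : ℝ} {a : ℝ}

/-- bound for the `K2` form of one factor -/
noncomputable def Uf (a Y : ℝ) (i : ℕ) : ℝ :=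
  Real.exp ((a ^ 2 - 2 * a) * VV (Sc Y i) + 3.4 * a ^ 2 * V2 (Sc Y i) + 3 * a * (1 / 2) ^ (i + 21))

lemma Uf_pos (a Y : ℝ) (i : ℕ) : 0 < Uf a Y i := Real.exp_pos _

lemma AD_bounds (hY : 0 < Y) (ha0 : 0 ≤ a) (ha : a ≤ 1) (i : ℕ) :
    |BK K2 (AD (-a) (Sc Y) i) (AD (-a) (Sc Y) i)| ≤ Uf a Y i ∧
    |BK KL (AD (-a) (Sc Y) i) (AD (-a) (Sc Y) i)| ≤ (26 * a * LL (Sc Y i)) * Uf a Y i := by
  have hM : 1 ≤ Mj i := by have := Mj_ge i; omega
  obtain ⟨h1, h2⟩ := expo_bounds (I := Sc Y i) Sc_prime ha0 ha hM (VV_sc_le hY 1 i)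
  have ht := tiny_le i
  have e1 : a / 2 ^ Mj i * Real.exp 660 ≤ a * (1 / 2) ^ (i + 21) := by
    have : a / 2 ^ Mj i * Real.exp 660 = a * (Real.exp 660 / 2 ^ Mj i) := by ring
    rw [this]
    gcongr
  have e2 : (1 / 2 : ℝ) ^ (i + 21) ≤ 1 / 2000000 := by
    calc (1 / 2 : ℝ) ^ (i + 21) ≤ (1 / 2) ^ 21 :=
          pow_le_pow_of_le_one (by norm_num) (by norm_num) (by omega)
      _ ≤ _ := by norm_num
  have hexp : Real.exp ((a ^ 2 - 2 * a) * VV (Sc Y i) + 3.4 * a ^ 2 * V2 (Sc Y i)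
      + 3 * (a / 2 ^ Mj i) * Real.exp 660) ≤ Uf a Y i := by
    unfold Uf
    apply Real.exp_le_exp.mpr
    linarith
  have hLL := LL_nonneg (Sc Y i)
  refine ⟨h1.trans hexp, h2.trans ?_⟩
  have h3 : 25 * a + 660 * (a / 2 ^ Mj i) * Real.exp 660 ≤ 26 * a := by
    have : a * (1 / 2) ^ (i + 21) ≤ a * (1 / 2000000) := by gcongr
    linarith
  calc LL (Sc Y i) * (25 * a + 660 * (a / 2 ^ Mj i) * Real.exp 660)
        * Real.exp ((a ^ 2 - 2 * a) * VV (Sc Y i) + 3.4 * a ^ 2 * V2 (Sc Y i)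
          + 3 * (a / 2 ^ Mj i) * Real.exp 660)
      ≤ LL (Sc Y i) * (26 * a) * Uf a Y i := by gcongr
    _ = _ := by ring

lemma sup_AD (c : ℝ) (i : ℕ) : Sup (Smo (Sc Y i)) (AD c (Sc Y) i) := sup_expo Sc_prime _ _

/-- the main constant -/
noncomputable def P0 (a Y : ℝ) (J : ℕ) : ℝ := Real.exp ((a ^ 2 - 2 * a) * Vt Y J + 3.401 * a)

lemma P0_pos (a Y : ℝ) (J : ℕ) : 0 < P0 a Y J := Real.exp_pos _

lemma prod_Uf_le (hY : 0 < Y) (ha0 : 0 ≤ a) (ha : a ≤ 1) (J : ℕ) :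
    ∏ i ∈ Finset.range J, Uf a Y i ≤ P0 a Y J := by
  unfold Uf P0 Vt
  rw [← Real.exp_sum]
  apply Real.exp_le_exp.mpr
  rw [Finset.sum_add_distrib, Finset.sum_add_distrib, ← Finset.mul_sum, ← Finset.mul_sum,
    ← Finset.mul_sum]
  have h1 := sum_V2_le hY J
  have h2 := sum_half21 J
  have h3 : 0 ≤ ∑ j ∈ Finset.range J, V2 (Sc Y j) := Finset.sum_nonneg fun j _ => V2_nonneg _
  have h4 : 3.4 * a ^ 2 * ∑ j ∈ Finset.range J, V2 (Sc Y j) ≤ 3.4 * a := by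
    calc 3.4 * a ^ 2 * ∑ j ∈ Finset.range J, V2 (Sc Y j) ≤ 3.4 * a ^ 2 * 1 := by gcongr
      _ ≤ 3.4 * a := by nlinarith
  have h5 : 3 * a * ∑ j ∈ Finset.range J, (1 / 2 : ℝ) ^ (j + 21) ≤ 3 * a * (1 / 1000000) := by gcongr
  linarith

lemma prod_Uf_Ico_le (hY : 0 < Y) (ha0 : 0 ≤ a) (ha : a ≤ 1) {J j : ℕ} (hj : j < J) :
    ∏ i ∈ Finset.Ico (j + 1) J, Uf a Y i ≤ Real.exp (12 * (j + 1)) * P0 a Y J := by
  have h1 : (∏ i ∈ Finset.range (j + 1), Uf a Y i) * ∏ i ∈ Finset.Ico (j + 1) J, Uf a Y i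
      = ∏ i ∈ Finset.range J, Uf a Y i := Finset.prod_range_mul_prod_Ico _ (by omega)
  have h2 : Real.exp (-(12 * (j + 1))) ≤ ∏ i ∈ Finset.range (j + 1), Uf a Y i := by
    have h3 : Real.exp (-(12 * ((j : ℝ) + 1))) = ∏ i ∈ Finset.range (j + 1), Real.exp (-12) := by
      rw [Finset.prod_const, Finset.card_range, ← Real.exp_nat_mul]
      congr 1; push_cast; ring
    rw [h3]
    refine Finset.prod_le_prod (fun i _ => (Real.exp_pos _).le) fun i _ => ?_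
    unfold Uf
    apply Real.exp_le_exp.mpr
    have h4 := VV_sc_le hY 1 i
    have h5 : -(1 : ℝ) ≤ a ^ 2 - 2 * a := by nlinarith [sq_nonneg (a - 1)]
    have h6 : 0 ≤ VV (Sc Y i) := VV_nonneg _
    have h7 : 0 ≤ 3.4 * a ^ 2 * V2 (Sc Y i) := mul_nonneg (by positivity) (V2_nonneg _)
    have h8 : 0 ≤ 3 * a * (1 / 2 : ℝ) ^ (i + 21) := by positivity
    have h9 : VV (Sc Y i) ≤ 12 := h4
    nlinarith
  have h3 : 0 < ∏ i ∈ Finset.Ico (j + 1) J, Uf a Y i := Finset.prod_pos fun i _ => Uf_pos a Y i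
  have h4 : Real.exp (-(12 * (j + 1))) * ∏ i ∈ Finset.Ico (j + 1) J, Uf a Y i ≤ P0 a Y J := by
    calc Real.exp (-(12 * (j + 1))) * ∏ i ∈ Finset.Ico (j + 1) J, Uf a Y i
        ≤ (∏ i ∈ Finset.range (j + 1), Uf a Y i) * ∏ i ∈ Finset.Ico (j + 1) J, Uf a Y i := by gcongr
      _ = _ := h1
      _ ≤ _ := prod_Uf_le hY ha0 ha J
  rw [Real.exp_neg, inv_mul_le_iff₀ (Real.exp_pos _)] at h4
  exact h4

lemma D0_bounds (hY : 0 < Y) (ha0 : 0 ≤ a) (ha : a ≤ 1) (J : ℕ) :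
    |BK K2 (D0 (-a) (Sc Y) J) (D0 (-a) (Sc Y) J)| ≤ P0 a Y J ∧
    |BK KL (D0 (-a) (Sc Y) J) (D0 (-a) (Sc Y) J)| ≤ (26 * a * (Y + 2)) * P0 a Y J := by
  obtain ⟨h1, h2⟩ := prod_bounds (Finset.range J) (Sc Y) (Sc_disj hY _) (AD (-a) (Sc Y))
    (fun j _ => sup_AD _ j) (Uf a Y) (fun i => 26 * a * LL (Sc Y i)) (fun i _ => (Uf_pos a Y i).le)
    (fun i _ => mul_nonneg (by positivity) (LL_nonneg _))
    (fun i _ => (AD_bounds hY ha0 ha i).1) (fun i _ => (AD_bounds hY ha0 ha i).2)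
  have h3 := prod_Uf_le hY ha0 ha J
  have h4 : ∑ i ∈ Finset.range J, 26 * a * LL (Sc Y i) ≤ 26 * a * (Y + 2) := by
    rw [← Finset.mul_sum]
    have := sum_LL_le hY J
    gcongr
  have h5 : 0 ≤ ∏ i ∈ Finset.range J, Uf a Y i := Finset.prod_nonneg fun i _ => (Uf_pos a Y i).le
  refine ⟨h1.trans h3, h2.trans ?_⟩
  gcongr

lemma D1_bounds (hY : 0 < Y) (ha0 : 0 ≤ a) (ha : a ≤ 1) {J j : ℕ} (hj : j < J) :
    |BK K2 (D1 (-a) (Sc Y) J j) (D1 (-a) (Sc Y) J j)|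
      ≤ (24 * Mj j : ℝ) ^ Mj j * (Real.exp (12 * (j + 1)) * P0 a Y J) ∧
    |BK KL (D1 (-a) (Sc Y) J j) (D1 (-a) (Sc Y) J j)|
      ≤ (16000 * Y + 26 * a * (Y + 2)) * ((24 * Mj j : ℝ) ^ Mj j * (Real.exp (12 * (j + 1)) * P0 a Y J)) := by
  classical
  set f : ℕ → DP := fun i => if i = j then PP (Sc Y j) ^ Mj j else AD (-a) (Sc Y) i with hf
  set U : ℕ → ℝ := fun i => if i = j then (24 * Mj j : ℝ) ^ Mj j else Uf a Y i with hU
  set κ : ℕ → ℝ := fun i => if i = j then 2 * Mj j * (Y / 4 ^ j) else 26 * a * LL (Sc Y i) with hκ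
  have hD : D1 (-a) (Sc Y) J j = ∏ i ∈ Finset.Ico j J, f i := by
    rw [hf, Finset.prod_eq_prod_Ico_succ_bot hj]
    unfold D1
    simp only [if_true]
    congr 1
    refine Finset.prod_congr rfl fun i hi => ?_
    rw [Finset.mem_Ico] at hi
    rw [if_neg (by omega)]
  have hUp : ∏ i ∈ Finset.Ico j J, U i = (24 * Mj j : ℝ) ^ Mj j * ∏ i ∈ Finset.Ico (j + 1) J, Uf a Y i := by
    rw [hU, Finset.prod_eq_prod_Ico_succ_bot hj]
    simp only [if_true]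
    congr 1
    refine Finset.prod_congr rfl fun i hi => ?_
    rw [Finset.mem_Ico] at hi
    rw [if_neg (by omega)]
  have hκs : ∑ i ∈ Finset.Ico j J, κ i
      = 2 * Mj j * (Y / 4 ^ j) + ∑ i ∈ Finset.Ico (j + 1) J, 26 * a * LL (Sc Y i) := by
    rw [hκ, Finset.sum_eq_sum_Ico_succ_bot hj]
    simp only [if_true]
    congr 1
    refine Finset.sum_congr rfl fun i hi => ?_
    rw [Finset.mem_Ico] at hi
    rw [if_neg (by omega)]
  have hM12 : 12 ≤ Mj j := by have := Mj_ge j; omega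
  have hpb := pow_bounds (I := Sc Y j) Sc_prime hM12 (VV_sc_le hY 1 j) (y := Y / 4 ^ j)
    (by positivity) Sc_log
  obtain ⟨h1, h2⟩ := prod_bounds (Finset.Ico j J) (Sc Y) (Sc_disj hY _) f
    (fun i _ => by
      rw [hf]; simp only
      split_ifs with h
      · rw [h]
        exact (sup_of_cone (cone_PP_pow Sc_prime _)).mono fun n hn => hn.1
      · exact sup_AD _ i)
    U κ (fun i _ => by
      rw [hU]; simp only
      split_ifs
      · positivity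
      · exact (Uf_pos a Y i).le)
    (fun i _ => by
      rw [hκ]; simp only
      split_ifs
      · positivity
      · exact mul_nonneg (by positivity) (LL_nonneg _))
    (fun i _ => by
      rw [hf, hU]; simp only
      split_ifs with h
      · exact hpb.1
      · exact (AD_bounds hY ha0 ha i).1)
    (fun i _ => by
      rw [hf, hU, hκ]; simp only
      split_ifs with h
      · exact hpb.2
      · exact (AD_bounds hY ha0 ha i).2)
  rw [← hD, hUp] at h1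
  rw [← hD, hUp, hκs] at h2
  have h3 := prod_Uf_Ico_le hY ha0 ha hj
  have h5 : 0 ≤ ∏ i ∈ Finset.Ico (j + 1) J, Uf a Y i :=
    Finset.prod_nonneg fun i _ => (Uf_pos a Y i).le
  have h6 : 2 * Mj j * (Y / 4 ^ j) + ∑ i ∈ Finset.Ico (j + 1) J, 26 * a * LL (Sc Y i)
      ≤ 16000 * Y + 26 * a * (Y + 2) := by
    have a1 : (Mj j : ℝ) * (Y / 4 ^ j) ≤ 8000 * Y := by
      have := sum_len_Ico hY hj
      have h7 : 0 ≤ ∑ i ∈ Finset.Ico (j + 1) J, (Mj i : ℝ) * (Y / 4 ^ i) :=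
        Finset.sum_nonneg fun i _ => by positivity
      linarith
    have a2 : ∑ i ∈ Finset.Ico (j + 1) J, 26 * a * LL (Sc Y i) ≤ 26 * a * (Y + 2) := by
      rw [← Finset.mul_sum]
      have h8 : ∑ i ∈ Finset.Ico (j + 1) J, LL (Sc Y i) ≤ Y + 2 := by
        refine le_trans ?_ (sum_LL_le hY J)
        refine Finset.sum_le_sum_of_subset_of_nonneg ?_ fun i _ _ => LL_nonneg _
        intro i hi
        rw [Finset.mem_Ico] at hi
        rw [Finset.mem_range]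
        exact hi.2
      gcongr
    linarith
  refine ⟨h1.trans (by gcongr), h2.trans ?_⟩
  gcongr

end forms

end Pool.Agent.Lib.MP_f9aece_nt_h97
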