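import Mathlib
import Pool.Agent.Lib.MP_f9aece_nt_h97.MeanX

/-!
The second moment of zeta against the majorant of the first weight: assembly.
-/

set_option autoImplicit false

namespace Pool.Agent.Lib.MP_f9aece_nt_h97

open MeasureTheory Set Filter Topology Complex
open Pool.Agent.Lib.MP_f9aece_nt
open scoped ArithmeticFunction.Omega

lemma qj_weight {a : ℝ} (ha0 : 0 ≤ a) (j : ℕ) :
    qj (-a) j * ((24 * Mj j : ℝ) ^ Mj j * Real.exp (12 * (j + 1))) ≤ a * (1 / 2) ^ (j + 21) := by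
  unfold qj
  rw [abs_neg, abs_of_nonneg ha0]
  have := weight_le j
  calc 5 * a * (Real.exp (Rj j) / Rj j ^ (2 * Mj j)) * ((24 * Mj j : ℝ) ^ Mj j * Real.exp (12 * (j + 1)))
      = a * (5 * (Real.exp (Rj j) / Rj j ^ (2 * Mj j)) * (24 * Mj j : ℝ) ^ Mj j * Real.exp (12 * (j + 1))) := by
        ring
    _ ≤ _ := by gcongr

lemma one_le_weight (j : ℕ) : 1 ≤ (24 * Mj j : ℝ) ^ Mj j * Real.exp (12 * (j + 1)) := by
  have h1 : (1 : ℝ) ≤ (24 * Mj j : ℝ) ^ Mj j := by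
    apply one_le_pow₀
    have : (4000 : ℝ) ≤ Mj j := by exact_mod_cast Mj_ge j
    linarith
  have h2 : 1 ≤ Real.exp (12 * ((j : ℝ) + 1)) := Real.one_le_exp (by positivity)
  calc (1 : ℝ) = 1 * 1 := by ring
    _ ≤ _ := by gcongr

lemma qj_le {a : ℝ} (ha0 : 0 ≤ a) (j : ℕ) : qj (-a) j ≤ a * (1 / 2) ^ (j + 21) := by
  refine le_trans ?_ (qj_weight ha0 j)
  exact le_mul_of_one_le_right (qj_nonneg _ _) (one_le_weight j)

lemma continuous_zeta_ev (D : DP) :
    Continuous (fun t : ℝ => ‖riemannZeta (1 / 2 + I * t) * ev t D‖ ^ 2) :=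
  (continuous_zeta.mul (continuous_ev D)).norm.pow 2

/-- abstract bookkeeping of the main sum -/
lemma sum_bound {J : ℕ} {q W h X : ℕ → ℝ} {a P B E : ℝ} (hq : ∀ j, 0 ≤ q j)
    (hB : 0 ≤ B) (hP : 0 ≤ P) (hE : 0 ≤ E)
    (hqW : ∀ j, q j * W j ≤ a * h j) (hqh : ∀ j, q j ≤ a * h j) (hh : ∑ j ∈ Finset.range J, h j ≤ 1 / 1000000)
    (ha : 0 ≤ a)
    (hX : ∀ j ∈ Finset.range J, X j ≤ B * (W j * P) + E) :
    ∑ j ∈ Finset.range J, q j * X j ≤ a * (1 / 1000000) * (B * P + E) := by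
  calc ∑ j ∈ Finset.range J, q j * X j ≤ ∑ j ∈ Finset.range J, (a * h j) * (B * P + E) := by
        refine Finset.sum_le_sum fun j hj => ?_
        calc q j * X j ≤ q j * (B * (W j * P) + E) := by
              exact mul_le_mul_of_nonneg_left (hX j hj) (hq j)
          _ = (q j * W j) * (B * P) + q j * E := by ring
          _ ≤ (a * h j) * (B * P) + (a * h j) * E := by
              have h1 := hqW j
              have h2 := hqh j
              gcongr
          _ = _ := by ring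
    _ = a * (∑ j ∈ Finset.range J, h j) * (B * P + E) := by
        rw [← Finset.sum_mul, ← Finset.mul_sum]
    _ ≤ _ := by gcongr

lemma numX1 {a Y C : ℝ} (ha0 : 0 ≤ a) (ha : a ≤ 1) (hY1 : 1 ≤ Y) (hCY : C ≤ 320 * a * Y) :
    (1 + a / 1000) * (640000 * Y + 26 * a * (Y + 2)) + C ≤ 640000 * Y * (1 + 0.002 * a) := by
  have h0 : a * (Y + 2) ≤ a * (3 * Y) := by gcongr; linarith
  have h1 : 26 * a * (Y + 2) ≤ 78 * (a * Y) := by linarith
  have h2 : (1 + a / 1000) * (640000 * Y + 26 * a * (Y + 2))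
      ≤ (1 + a / 1000) * (640000 * Y + 78 * (a * Y)) :=
    mul_le_mul_of_nonneg_left (by linarith) (by positivity)
  have h3 : 0 ≤ a * Y := by positivity
  have h4 : a * (a * Y) ≤ 1 * (a * Y) := by gcongr
  have e : (1 + a / 1000) * (640000 * Y + 78 * (a * Y))
      = 640000 * Y + 718 * (a * Y) + 0.078 * (a * (a * Y)) := by ring
  linarith

lemma numX2 {a Y C : ℝ} (ha0 : 0 ≤ a) (ha : a ≤ 1) (hY1 : 1 ≤ Y) (hCY : C ≤ 320 * a * Y) :
    (1 + a / 1000) * (640000 * Y + (16000 * Y + 26 * a * (Y + 2))) + C ≤ 1280000 * Y := by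
  have h0 : a * (Y + 2) ≤ 1 * (3 * Y) := by
    have : a * (Y + 2) ≤ 1 * (Y + 2) := by gcongr
    linarith
  have h1 : 26 * a * (Y + 2) ≤ 78 * Y := by linarith
  have h3 : (1 + a / 1000) * (640000 * Y + (16000 * Y + 26 * a * (Y + 2))) + C
      ≤ (1 + 1 / 1000) * (640000 * Y + (16000 * Y + 78 * Y)) + 320 * a * Y := by
    gcongr
  have h4 : a * Y ≤ 1 * Y := by gcongr
  linarith

lemma numX3 {a Y V : ℝ} (ha0 : 0 ≤ a) (hY1 : 1 ≤ Y) (h2 : V ≤ 1 + Y) (h3 : 0 ≤ V) :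
    6 - 7998 * Y ≤ (a ^ 2 - 2 * a) * V + 3.401 * a := by
  have h5 : 0 ≤ (a - 1) ^ 2 * V := mul_nonneg (sq_nonneg _) h3
  have e : (a ^ 2 - 2 * a) * V = (a - 1) ^ 2 * V - V := by ring
  rw [e]
  linarith

lemma numX4 {a Y P : ℝ} (ha0 : 0 < a) (hY1 : 1 ≤ Y) (hP0 : 0 < P) :
    320 * a * Y * P ≤ 0.001 * a * (640000 * Y) * P := by
  have : 0 ≤ a * Y * P := by positivity
  linarith

lemma numX5 {a Y P E B A : ℝ} (ha0 : 0 < a) (ha : a ≤ 1) (hY1 : 1 ≤ Y) (hP0 : 0 < P)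
    (hE1 : E ≤ 0.001 * a * (640000 * Y) * P) (hB1 : A ≤ 640000 * Y * (1 + 0.002 * a))
    (hB2 : B ≤ 1280000 * Y) :
    A * P + E + a * (1 / 1000000) * (B * P + E) ≤ 640000 * Y * P * (1 + 0.004 * a) := by
  have c1 : A * P ≤ 640000 * Y * (1 + 0.002 * a) * P := mul_le_mul_of_nonneg_right hB1 hP0.le
  have c2 : B * P ≤ 1280000 * Y * P := mul_le_mul_of_nonneg_right hB2 hP0.le
  have hYP : 0 ≤ Y * P := by positivity
  have haYP : 0 ≤ a * (Y * P) := by positivity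
  have c3 : E ≤ 640 * (Y * P) := by
    refine hE1.trans ?_
    have : a * (Y * P) ≤ 1 * (Y * P) := mul_le_mul_of_nonneg_right ha hYP
    linarith
  have c4 : B * P + E ≤ 1280640 * (Y * P) := by linarith
  have c5 : a * (1 / 1000000) * (B * P + E) ≤ a * (1 / 1000000) * (1280640 * (Y * P)) :=
    mul_le_mul_of_nonneg_left c4 (by positivity)
  linarith

lemma numX6 {a Y P : ℝ} (hY1 : 1 ≤ Y) (hP0 : 0 < P) :
    640000 * Y * P * (1 + 0.004 * a) ≤ 640000 * Y * (P * Real.exp (0.004 * a)) := by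
  have h4 : 1 + 0.004 * a ≤ Real.exp (0.004 * a) := by
    have := Real.add_one_le_exp (0.004 * a)
    linarith
  have h5 : 0 ≤ 640000 * Y * P := by positivity
  calc 640000 * Y * P * (1 + 0.004 * a) ≤ 640000 * Y * P * Real.exp (0.004 * a) :=
        mul_le_mul_of_nonneg_left h4 h5
    _ = _ := by ring

theorem meanX {a : ℝ} (ha0 : 0 < a) (ha : a ≤ 1) : ∃ Y0 : ℝ, 1 ≤ Y0 ∧ ∀ Y : ℝ, Y0 ≤ Y →
    ∀ J : ℕ, (J : ℝ) ≤ Y + 3 →
    ∫ t in (0 : ℝ)..Real.exp (640000 * Y), ‖riemannZeta (1 / 2 + I * t)‖ ^ 2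
        * up (-a) Mj Rj (fun j => ev t (PP (Sc Y j))) J
      ≤ Real.exp (640000 * Y) * (640000 * Y * Real.exp ((a ^ 2 - 2 * a) * Vt Y J + 3.41 * a)) := by
  obtain ⟨C, T0, hC, hT0, htsm⟩ := tsm (ε := a / 1000) (by positivity) (by linarith)
  refine ⟨max 1 (max (C / (320 * a)) (Real.log T0)), le_max_left _ _, ?_⟩
  intro Y hY J hJ
  have hY1 : 1 ≤ Y := (le_max_left _ _).trans hY
  have hYC : C / (320 * a) ≤ Y := ((le_max_left _ _).trans (le_max_right _ _)).trans hY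
  have hYT : Real.log T0 ≤ Y := ((le_max_right _ _).trans (le_max_right _ _)).trans hY
  have hY0 : 0 < Y := by linarith
  have hCY : C ≤ 320 * a * Y := by
    rw [div_le_iff₀ (by positivity)] at hYC
    linarith
  set T := Real.exp (640000 * Y) with hT
  have hTpos : 0 < T := Real.exp_pos _
  have hTT0 : T0 ≤ T := by
    rw [← Real.log_le_iff_le_exp (by linarith)]
    linarith
  have hlogT : Real.log T = 640000 * Y := by rw [hT, Real.log_exp]
  have hT16 : T ^ (1 / 16 : ℝ) = Real.exp (40000 * Y) := by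
    rw [hT, ← Real.exp_mul]; congr 1; ring
  set P := P0 a Y J with hP
  have hP0 : 0 < P := P0_pos a Y J
  set B := (1 + a / 1000) * (640000 * Y + (16000 * Y + 26 * a * (Y + 2))) + C with hB
  have hB0 : 0 ≤ B := by positivity
  set E := C * Real.exp (6 - 7998 * Y) with hE
  have hE0 : 0 ≤ E := by positivity
  -- error term for a polynomial
  have herr : ∀ D : DP, nrm D ≤ Real.exp (J + 8000 * Y) →
      C * (nrm D * Real.exp (8000 * Y)) ^ 2 / T ^ (1 / 16 : ℝ) ≤ E := by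
    intro D hD
    rw [hT16, hE, div_le_iff₀ (Real.exp_pos _), mul_assoc, ← Real.exp_add]
    have h1 : (nrm D * Real.exp (8000 * Y)) ^ 2 ≤ Real.exp (6 - 7998 * Y + 40000 * Y) := by
      calc (nrm D * Real.exp (8000 * Y)) ^ 2 ≤ (Real.exp (J + 8000 * Y) * Real.exp (8000 * Y)) ^ 2 := by
            have := nrm_nonneg D
            gcongr
        _ = Real.exp (2 * (J + 16000 * Y)) := by
            rw [← Real.exp_add, ← Real.exp_nat_mul]; congr 1; push_cast; ring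
        _ ≤ _ := by
            apply Real.exp_le_exp.mpr
            linarith
    gcongr
  have ha1 : |(-a)| ≤ 1 := by rw [abs_neg, abs_of_pos ha0]; exact ha
  have hH1 : (1 : ℝ) ≤ Real.exp (8000 * Y) := Real.one_le_exp (by positivity)
  -- first polynomial
  have hI0 : ∫ t in (0 : ℝ)..T, ‖riemannZeta (1 / 2 + I * t) * ev t (D0 (-a) (Sc Y) J)‖ ^ 2
      ≤ T * (((1 + a / 1000) * (640000 * Y + 26 * a * (Y + 2)) + C) * P + E) := by
    have hsup : Sup (Len (8000 * Y)) (D0 (-a) (Sc Y) J) :=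
      (dom_D0 ha1 J).sup (cone_D0 hY0 zero_le_one J)
    refine (htsm T hTT0 (D0 (-a) (Sc Y) J) (Real.exp (8000 * Y)) hH1 (sup_len_floor hsup)).trans ?_
    obtain ⟨b1, b2⟩ := D0_bounds hY0 ha0.le ha J
    have b3 := herr (D0 (-a) (Sc Y) J) ((nrm_le_aug (dom_D0 ha1 J)).trans (aug_D0 hY0 J))
    rw [hlogT]
    refine mul_le_mul_of_nonneg_left ?_ hTpos.le
    calc (1 + a / 1000) * (640000 * Y * |BK K2 (D0 (-a) (Sc Y) J) (D0 (-a) (Sc Y) J)|
          + |BK KL (D0 (-a) (Sc Y) J) (D0 (-a) (Sc Y) J)|) + C * |BK K2 (D0 (-a) (Sc Y) J) (D0 (-a) (Sc Y) J)|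
          + C * (nrm (D0 (-a) (Sc Y) J) * Real.exp (8000 * Y)) ^ 2 / T ^ (1 / 16 : ℝ)
        ≤ (1 + a / 1000) * (640000 * Y * P + (26 * a * (Y + 2)) * P) + C * P + E := by
          gcongr
      _ = _ := by ring
  -- the reset polynomials
  set W : ℕ → ℝ := fun j => (24 * Mj j : ℝ) ^ Mj j * Real.exp (12 * (j + 1)) with hW
  have hI1 : ∀ j ∈ Finset.range J,
      (∫ t in (0 : ℝ)..T, ‖riemannZeta (1 / 2 + I * t) * ev t (D1 (-a) (Sc Y) J j)‖ ^ 2) / T
      ≤ B * (W j * P) + E := by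
    intro j hj
    rw [Finset.mem_range] at hj
    rw [div_le_iff₀ hTpos]
    have hsup : Sup (Len (8000 * Y)) (D1 (-a) (Sc Y) J j) :=
      (dom_D1 ha1 J j).sup (cone_D1 hY0 zero_le_one hj)
    refine (htsm T hTT0 (D1 (-a) (Sc Y) J j) (Real.exp (8000 * Y)) hH1 (sup_len_floor hsup)).trans ?_
    obtain ⟨b1, b2⟩ := D1_bounds hY0 ha0.le ha hj
    have b3 := herr (D1 (-a) (Sc Y) J j) ((nrm_le_aug (dom_D1 ha1 J j)).trans (aug_D1 hY0 hj))
    have hWe : (24 * Mj j : ℝ) ^ Mj j * (Real.exp (12 * (j + 1)) * P) = W j * P := by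
      rw [hW]; ring
    rw [← hP, hWe] at b1 b2
    have hWP : 0 ≤ W j * P := by
      have : 0 ≤ W j := by rw [hW]; positivity
      positivity
    rw [hlogT, mul_comm _ T]
    refine mul_le_mul_of_nonneg_left ?_ hTpos.le
    calc (1 + a / 1000) * (640000 * Y * |BK K2 (D1 (-a) (Sc Y) J j) (D1 (-a) (Sc Y) J j)|
          + |BK KL (D1 (-a) (Sc Y) J j) (D1 (-a) (Sc Y) J j)|)
          + C * |BK K2 (D1 (-a) (Sc Y) J j) (D1 (-a) (Sc Y) J j)|
          + C * (nrm (D1 (-a) (Sc Y) J j) * Real.exp (8000 * Y)) ^ 2 / T ^ (1 / 16 : ℝ)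
        ≤ (1 + a / 1000) * (640000 * Y * (W j * P) + (16000 * Y + 26 * a * (Y + 2)) * (W j * P))
          + C * (W j * P) + E := by
          gcongr
      _ = _ := by rw [hB]; ring
  -- expansion
  have hexp : ∀ t : ℝ, ‖riemannZeta (1 / 2 + I * t)‖ ^ 2
        * up (-a) Mj Rj (fun j => ev t (PP (Sc Y j))) J
      = ‖riemannZeta (1 / 2 + I * t) * ev t (D0 (-a) (Sc Y) J)‖ ^ 2
        + ∑ j ∈ Finset.range J, qj (-a) j * ‖riemannZeta (1 / 2 + I * t) * ev t (D1 (-a) (Sc Y) J j)‖ ^ 2 := by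
    intro t
    rw [up_eq, mul_add, norm_mul, mul_pow, Finset.mul_sum]
    congr 1
    refine Finset.sum_congr rfl fun j _ => ?_
    rw [norm_mul, mul_pow]
    ring
  simp_rw [hexp]
  have i0 : IntervalIntegrable
      (fun t : ℝ => ‖riemannZeta (1 / 2 + I * t) * ev t (D0 (-a) (Sc Y) J)‖ ^ 2) volume 0 T :=
    (continuous_zeta_ev _).intervalIntegrable _ _
  have i1 : ∀ j ∈ Finset.range J, IntervalIntegrable
      (fun t : ℝ => qj (-a) j * ‖riemannZeta (1 / 2 + I * t) * ev t (D1 (-a) (Sc Y) J j)‖ ^ 2) volume 0 T :=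
    fun j _ => Continuous.intervalIntegrable (continuous_const.mul (continuous_zeta_ev _)) _ _
  have i2 : IntervalIntegrable (fun t : ℝ => ∑ j ∈ Finset.range J,
      qj (-a) j * ‖riemannZeta (1 / 2 + I * t) * ev t (D1 (-a) (Sc Y) J j)‖ ^ 2) volume 0 T := by
    refine Continuous.intervalIntegrable (continuous_finsetSum _ fun j _ => ?_) _ _
    exact continuous_const.mul (continuous_zeta_ev _)
  rw [intervalIntegral.integral_add i0 i2, intervalIntegral.integral_finsetSum i1]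
  simp_rw [intervalIntegral.integral_const_mul]
  have hsum := sum_bound (J := J) (q := qj (-a)) (W := W) (h := fun j => (1 / 2 : ℝ) ^ (j + 21))
    (X := fun j => (∫ t in (0 : ℝ)..T, ‖riemannZeta (1 / 2 + I * t) * ev t (D1 (-a) (Sc Y) J j)‖ ^ 2) / T)
    (a := a) (P := P) (B := B) (E := E) (qj_nonneg _) hB0 hP0.le hE0 (fun j => qj_weight ha0.le j)
    (fun j => qj_le ha0.le j) (sum_half21 J) ha0.le hI1
  have hsum2 : ∑ j ∈ Finset.range J, qj (-a) j *
      (∫ t in (0 : ℝ)..T, ‖riemannZeta (1 / 2 + I * t) * ev t (D1 (-a) (Sc Y) J j)‖ ^ 2)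
      ≤ T * (a * (1 / 1000000) * (B * P + E)) := by
    have e1 : ∑ j ∈ Finset.range J, qj (-a) j *
        (∫ t in (0 : ℝ)..T, ‖riemannZeta (1 / 2 + I * t) * ev t (D1 (-a) (Sc Y) J j)‖ ^ 2)
        = T * ∑ j ∈ Finset.range J, qj (-a) j *
        ((∫ t in (0 : ℝ)..T, ‖riemannZeta (1 / 2 + I * t) * ev t (D1 (-a) (Sc Y) J j)‖ ^ 2) / T) := by
      rw [Finset.mul_sum]
      refine Finset.sum_congr rfl fun j _ => ?_
      field_simp
    rw [e1]
    exact mul_le_mul_of_nonneg_left hsum hTpos.le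
  refine (add_le_add hI0 hsum2).trans ?_
  rw [← mul_add]
  refine mul_le_mul_of_nonneg_left ?_ hTpos.le
  -- numerical part
  have hE1 : E ≤ 0.001 * a * (640000 * Y) * P := by
    have h1 : Real.exp (6 - 7998 * Y) ≤ P := by
      rw [hP]
      unfold P0
      exact Real.exp_le_exp.mpr (numX3 ha0.le hY1 (Vt_le hY0 J) (Vt_nonneg Y J))
    refine le_trans ?_ (numX4 ha0 hY1 hP0)
    rw [hE]
    exact mul_le_mul hCY h1 (Real.exp_pos _).le (by positivity)
  have hB1 : (1 + a / 1000) * (640000 * Y + 26 * a * (Y + 2)) + C ≤ 640000 * Y * (1 + 0.002 * a) :=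
    numX1 ha0.le ha hY1 hCY
  have hB2 : B ≤ 1280000 * Y := numX2 ha0.le ha hY1 hCY
  refine (numX5 ha0 ha hY1 hP0 hE1 hB1 hB2).trans ?_
  refine (numX6 hY1 hP0).trans ?_
  refine mul_le_mul_of_nonneg_left ?_ (by positivity)
  rw [hP]
  unfold P0
  rw [← Real.exp_add]
  apply Real.exp_le_exp.mpr
  linarith only [ha0]

end Pool.Agent.Lib.MP_f9aece_nt_h97
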