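import Mathlib
import Pool.Agent.Lib.MP_f9aece_nt_h97.MeanX2
import Pool.Agent.Lib.MP_f9aece_nt.Assemble

/-!
The mean value of the majorant of the second weight.
-/

set_option autoImplicit false

namespace Pool.Agent.Lib.MP_f9aece_nt_h97

open MeasureTheory Set Filter Topology Complex
open Pool.Agent.Lib.MP_f9aece_nt
open scoped ArithmeticFunction.Omega

/-- mean value on `[0,T]` -/
lemma mean_ev {T lam B : ℝ} (hT : 0 < T) {f : DP} (hf : Cone (Len lam) f)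
    (hB : aug f ≤ B) :
    ∫ t in (0 : ℝ)..T, ‖ev t f‖ ^ 2 ≤ T * BK K1 f f + 4 * Real.exp lam * B ^ 2 := by
  set Z := ⌊Real.exp lam⌋₊ with hZ
  have hfZ : Cone {n | 1 ≤ n ∧ n ≤ Z} f := hf.mono fun n hn => by
    refine ⟨hn.1, Nat.le_floor ?_⟩
    rw [← Real.log_le_iff_le_exp (by exact_mod_cast hn.1)]
    exact hn.2
  have := unif_prob hT
  set ρ : ℝ := 4 * Real.exp lam / T with hρdef
  have hρ0 : 0 ≤ ρ := by positivity
  have hρ : ∀ a b : ℕ, 1 ≤ a → 1 ≤ b → b ≤ Z → a ≠ b →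
      ‖charFun (unif T) (Real.log b - Real.log a)‖ ≤ ρ := by
    intro a b ha hb hbZ hab
    have h1 := abs_log_sub_ge ha hb hab
    have hb0 : (0 : ℝ) < b := by exact_mod_cast hb
    have h2 : 0 < 1 / (2 * (b : ℝ)) := by positivity
    have hne : Real.log b - Real.log a ≠ 0 := by
      intro h0
      rw [h0, abs_zero] at h1
      linarith
    refine (charFun_unif_norm hT hne).trans ?_
    have hbe : (b : ℝ) ≤ Real.exp lam := by
      refine le_trans ?_ (Nat.floor_le (Real.exp_pos lam).le)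
      exact_mod_cast hbZ
    calc 2 / (T * |Real.log b - Real.log a|) ≤ 2 / (T * (1 / (2 * (b : ℝ)))) := by gcongr
      _ = 4 * b / T := by field_simp; norm_num
      _ ≤ 4 * Real.exp lam / T := by gcongr
  have h1 := mv_sq hρ hρ0 hfZ
  have huniv : (unif T).real univ = 1 := by
    unfold Measure.real
    rw [unif_univ hT]; rfl
  rw [huniv, one_mul] at h1
  have h2 : ∫ t, ‖ev t f‖ ^ 2 ∂(unif T) = (1 / T) * ∫ t in (0 : ℝ)..T, ‖ev t f‖ ^ 2 := by
    rw [unif, integral_smul_measure, intervalIntegral.integral_of_le hT.le,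
      integral_Icc_eq_integral_Ioc, ENNReal.toReal_inv, ENNReal.toReal_ofReal hT.le, smul_eq_mul,
      one_div]
  rw [h2] at h1
  have h3 := (abs_le.mp h1).2
  have h4 : evh f ^ 2 ≤ B ^ 2 := by
    have h5 := evh_le_aug hf fun n hn => hn.1
    have h6 := evh_nonneg hf
    gcongr
    exact h5.trans hB
  have h7 : (1 / T) * ∫ t in (0 : ℝ)..T, ‖ev t f‖ ^ 2 ≤ BK K1 f f + ρ * B ^ 2 := by
    have : ρ * evh f ^ 2 ≤ ρ * B ^ 2 := by gcongr
    linarith
  calc ∫ t in (0 : ℝ)..T, ‖ev t f‖ ^ 2 = T * ((1 / T) * ∫ t in (0 : ℝ)..T, ‖ev t f‖ ^ 2) := by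
        field_simp
    _ ≤ T * (BK K1 f f + ρ * B ^ 2) := by gcongr
    _ = _ := by
        rw [hρdef]; field_simp

lemma K1_D0 {Y k : ℝ} (hY : 0 < Y) (hk : 0 ≤ k) (J : ℕ) :
    BK K1 (D0 k (Sc Y) J) (D0 k (Sc Y) J) ≤ Real.exp (k ^ 2 * Vt Y J) := by
  unfold D0
  have hcone : ∀ j ∈ Finset.range J, Cone (Smo (Sc Y j)) (AD k (Sc Y) j) := fun j _ =>
    (cone_expo Sc_prime hk _).mono fun n hn => hn.1
  rw [BK_prod mulKer_K1 (Finset.range J) (Sc Y) (Sc_disj hY _) _ _ hcone hcone]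
  unfold Vt
  rw [Finset.mul_sum, Real.exp_sum]
  refine Finset.prod_le_prod (fun j hj => ?_) fun _ _ => BK_expo Sc_prime k _
  exact BK_nonneg (hcone j hj) (hcone j hj) K1_nonneg

lemma K1_D1 {Y k : ℝ} (hY : 0 < Y) (hk : 0 ≤ k) {J j : ℕ} (hj : j < J) :
    BK K1 (D1 k (Sc Y) J j) (D1 k (Sc Y) J j)
      ≤ (24 * Mj j : ℝ) ^ Mj j * Real.exp (k ^ 2 * Vt Y J) := by
  classical
  have hcone : ∀ i ∈ Finset.Ico (j + 1) J, Cone (Smo (Sc Y i)) (AD k (Sc Y) i) := fun i _ =>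
    (cone_expo Sc_prime hk _).mono fun n hn => hn.1
  have hc1 : Cone (Smo (Sc Y j)) (PP (Sc Y j) ^ Mj j) :=
    (cone_PP_pow Sc_prime _).mono fun n hn => hn.1
  have hdis : Disjoint (Sc Y j : Set ℕ) (⋃ i ∈ Finset.Ico (j + 1) J, (Sc Y i : Set ℕ)) := by
    rw [Set.disjoint_iUnion₂_right]
    intro i hi
    rw [Finset.mem_Ico] at hi
    rw [Finset.disjoint_coe]
    exact sc_disjoint hY (by omega)
  unfold D1
  rw [BK_mul K1 hc1 hc1 (cone_prod_Smo _ _ _ hcone) (cone_prod_Smo _ _ _ hcone) (mulKer_K1.2 _ _ hdis),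
    BK_prod mulKer_K1 (Finset.Ico (j + 1) J) (Sc Y) (Sc_disj hY _) _ _ hcone hcone]
  have hm : (4000 : ℝ) ≤ Mj j := by exact_mod_cast Mj_ge j
  have h1 : BK K1 (PP (Sc Y j) ^ Mj j) (PP (Sc Y j) ^ Mj j) ≤ (24 * Mj j : ℝ) ^ Mj j := by
    refine (BK_PP_pow_self Sc_prime _).trans ?_
    have h2 : ((Mj j).factorial : ℝ) ≤ (Mj j : ℝ) ^ Mj j := by exact_mod_cast Nat.factorial_le_pow _
    have h3 : VV (Sc Y j) ≤ 12 := VV_sc_le hY 1 j
    have h4 := VV_nonneg (Sc Y j)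
    calc ((Mj j).factorial : ℝ) * VV (Sc Y j) ^ Mj j ≤ (Mj j : ℝ) ^ Mj j * 24 ^ Mj j := by
          gcongr
          linarith
      _ = _ := by rw [← mul_pow]; congr 1; ring
  have h2 : ∏ i ∈ Finset.Ico (j + 1) J, BK K1 (AD k (Sc Y) i) (AD k (Sc Y) i)
      ≤ Real.exp (k ^ 2 * Vt Y J) := by
    have h3 : ∏ i ∈ Finset.Ico (j + 1) J, BK K1 (AD k (Sc Y) i) (AD k (Sc Y) i)
        ≤ ∏ i ∈ Finset.Ico (j + 1) J, Real.exp (k ^ 2 * VV (Sc Y i)) :=
      Finset.prod_le_prod (fun i hi => BK_nonneg (hcone i hi) (hcone i hi) K1_nonneg)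
        fun i _ => BK_expo Sc_prime k _
    refine h3.trans ?_
    rw [← Real.exp_sum, ← Finset.mul_sum]
    apply Real.exp_le_exp.mpr
    unfold Vt
    refine mul_le_mul_of_nonneg_left ?_ (by positivity)
    refine Finset.sum_le_sum_of_subset_of_nonneg ?_ fun i _ _ => VV_nonneg _
    intro i hi
    rw [Finset.mem_Ico] at hi
    rw [Finset.mem_range]
    exact hi.2
  have h3 : 0 ≤ ∏ i ∈ Finset.Ico (j + 1) J, BK K1 (AD k (Sc Y) i) (AD k (Sc Y) i) :=
    Finset.prod_nonneg fun i hi => BK_nonneg (hcone i hi) (hcone i hi) K1_nonneg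
  gcongr

lemma qj_eq_neg (k : ℝ) (j : ℕ) : qj k j = qj (-k) j := by
  unfold qj; rw [abs_neg]

theorem meanY {k : ℝ} (hk0 : 0 < k) (hk : k ≤ 1) : ∃ Y0 : ℝ, 1 ≤ Y0 ∧ ∀ Y : ℝ, Y0 ≤ Y →
    ∀ J : ℕ, (J : ℝ) ≤ Y + 3 →
    ∫ t in (0 : ℝ)..Real.exp (640000 * Y), up k Mj Rj (fun j => ev t (PP (Sc Y j))) J
      ≤ Real.exp (640000 * Y) * Real.exp (k ^ 2 * Vt Y J + 0.01 * k) := by
  refine ⟨max 1 (Real.log (1000 / k)), le_max_left _ _, ?_⟩
  intro Y hY J hJ
  have hY1 : 1 ≤ Y := (le_max_left _ _).trans hY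
  have hYk : Real.log (1000 / k) ≤ Y := (le_max_right _ _).trans hY
  have hY0 : 0 < Y := by linarith
  set T := Real.exp (640000 * Y) with hT
  have hTpos : 0 < T := Real.exp_pos _
  set Q := Real.exp (k ^ 2 * Vt Y J) with hQ
  have hVt := Vt_nonneg Y J
  have hQ1 : 1 ≤ Q := Real.one_le_exp (by positivity)
  have hkabs : |k| ≤ 1 := by rw [abs_of_pos hk0]; exact hk
  set E := Real.exp (-Y) with hE
  have hE0 : 0 < E := Real.exp_pos _
  have hEk : E ≤ k / 1000 := by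
    rw [hE, Real.exp_neg]
    have h1 : 1000 / k ≤ Real.exp Y := by
      rw [← Real.log_le_iff_le_exp (by positivity)]
      exact hYk
    have h2 : (Real.exp Y)⁻¹ ≤ (1000 / k)⁻¹ := inv_anti₀ (by positivity) h1
    rwa [inv_div] at h2
  have herr : 4 * Real.exp (8000 * Y) * Real.exp (J + 8000 * Y) ^ 2 ≤ T * E := by
    have h1 : (4 : ℝ) ≤ Real.exp 2 := by
      have := Real.quadratic_le_exp_of_nonneg (zero_le_two (α := ℝ))
      linarith
    calc 4 * Real.exp (8000 * Y) * Real.exp (J + 8000 * Y) ^ 2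
        ≤ Real.exp 2 * Real.exp (8000 * Y) * Real.exp (J + 8000 * Y) ^ 2 := by gcongr
      _ = Real.exp (2 + 8000 * Y + 2 * (J + 8000 * Y)) := by
          rw [← Real.exp_nat_mul, ← Real.exp_add, ← Real.exp_add]
          congr 1
      _ ≤ Real.exp (640000 * Y + -Y) := by
          apply Real.exp_le_exp.mpr
          linarith
      _ = T * E := by rw [hT, hE, ← Real.exp_add]
  have hI0 : ∫ t in (0 : ℝ)..T, ‖ev t (D0 k (Sc Y) J)‖ ^ 2 ≤ T * (Q + E) := by
    have h1 := mean_ev hTpos (cone_D0 hY0 hk0.le J)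
      (B := Real.exp (J + 8000 * Y)) ((le_abs_self _).trans ?_)
    · have h2 := K1_D0 hY0 hk0.le J
      calc _ ≤ T * BK K1 (D0 k (Sc Y) J) (D0 k (Sc Y) J)
            + 4 * Real.exp (8000 * Y) * Real.exp (J + 8000 * Y) ^ 2 := h1
        _ ≤ T * Q + T * E := by gcongr
        _ = _ := by ring
    · refine le_trans ?_ (aug_D0 hY0 J)
      exact abs_pair_le (dom_D0 hkabs J) (fun _ => by simp)
  set W : ℕ → ℝ := fun j => (24 * Mj j : ℝ) ^ Mj j * Real.exp (12 * (j + 1)) with hW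
  have hI1 : ∀ j ∈ Finset.range J,
      (∫ t in (0 : ℝ)..T, ‖ev t (D1 k (Sc Y) J j)‖ ^ 2) / T ≤ 1 * (W j * Q) + E := by
    intro j hj
    rw [Finset.mem_range] at hj
    rw [div_le_iff₀ hTpos]
    have h1 := mean_ev hTpos (cone_D1 hY0 hk0.le hj)
      (B := Real.exp (J + 8000 * Y)) ((le_abs_self _).trans ?_)
    · have h2 := K1_D1 hY0 hk0.le hj
      rw [← hQ] at h2
      have h3 : (24 * Mj j : ℝ) ^ Mj j ≤ W j := by
        rw [hW]
        exact le_mul_of_one_le_right (by positivity) (Real.one_le_exp (by positivity))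
      have h4 : BK K1 (D1 k (Sc Y) J j) (D1 k (Sc Y) J j) ≤ W j * Q := h2.trans (by gcongr)
      calc _ ≤ T * BK K1 (D1 k (Sc Y) J j) (D1 k (Sc Y) J j)
            + 4 * Real.exp (8000 * Y) * Real.exp (J + 8000 * Y) ^ 2 := h1
        _ ≤ T * (W j * Q) + T * E := by gcongr
        _ = _ := by ring
    · refine le_trans ?_ (aug_D1 hY0 hj)
      exact abs_pair_le (dom_D1 hkabs J j) (fun _ => by simp)
  simp_rw [up_eq]
  have hcont : ∀ D : DP, Continuous (fun t : ℝ => ‖ev t D‖ ^ 2) := fun D => (continuous_ev D).norm.pow 2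
  have i0 : IntervalIntegrable (fun t : ℝ => ‖ev t (D0 k (Sc Y) J)‖ ^ 2) volume 0 T :=
    (hcont _).intervalIntegrable _ _
  have i1 : ∀ j ∈ Finset.range J, IntervalIntegrable
      (fun t : ℝ => qj k j * ‖ev t (D1 k (Sc Y) J j)‖ ^ 2) volume 0 T :=
    fun j _ => Continuous.intervalIntegrable (continuous_const.mul (hcont _)) _ _
  have i2 : IntervalIntegrable (fun t : ℝ => ∑ j ∈ Finset.range J,
      qj k j * ‖ev t (D1 k (Sc Y) J j)‖ ^ 2) volume 0 T := by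
    refine Continuous.intervalIntegrable (continuous_finsetSum _ fun j _ => ?_) _ _
    exact continuous_const.mul (hcont _)
  rw [intervalIntegral.integral_add i0 i2, intervalIntegral.integral_finsetSum i1]
  simp_rw [intervalIntegral.integral_const_mul]
  have hsum := sum_bound (J := J) (q := qj k) (W := W) (h := fun j => (1 / 2 : ℝ) ^ (j + 21))
    (X := fun j => (∫ t in (0 : ℝ)..T, ‖ev t (D1 k (Sc Y) J j)‖ ^ 2) / T)
    (a := k) (P := Q) (B := 1) (E := E) (qj_nonneg _) zero_le_one (by positivity) hE0.le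
    (fun j => by rw [qj_eq_neg]; exact qj_weight hk0.le j)
    (fun j => by rw [qj_eq_neg]; exact qj_le hk0.le j) (sum_half21 J) hk0.le hI1
  have hsum2 : ∑ j ∈ Finset.range J, qj k j * (∫ t in (0 : ℝ)..T, ‖ev t (D1 k (Sc Y) J j)‖ ^ 2)
      ≤ T * (k * (1 / 1000000) * (1 * Q + E)) := by
    have e1 : ∑ j ∈ Finset.range J, qj k j * (∫ t in (0 : ℝ)..T, ‖ev t (D1 k (Sc Y) J j)‖ ^ 2)
        = T * ∑ j ∈ Finset.range J, qj k j *
        ((∫ t in (0 : ℝ)..T, ‖ev t (D1 k (Sc Y) J j)‖ ^ 2) / T) := by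
      rw [Finset.mul_sum]
      refine Finset.sum_congr rfl fun j _ => ?_
      field_simp
    rw [e1]
    exact mul_le_mul_of_nonneg_left hsum hTpos.le
  refine (add_le_add hI0 hsum2).trans ?_
  rw [← mul_add]
  refine mul_le_mul_of_nonneg_left ?_ hTpos.le
  have h1 : E ≤ k / 1000 * Q := by
    calc E ≤ k / 1000 * 1 := by linarith
      _ ≤ _ := by gcongr
  have h2 : k / 1000 * Q ≤ 1 * Q := by
    refine mul_le_mul_of_nonneg_right ?_ (by positivity)
    linarith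
  have h3 : k * (1 / 1000000) * (1 * Q + E) ≤ k * (1 / 1000000) * (2 * Q) := by
    refine mul_le_mul_of_nonneg_left ?_ (by positivity)
    linarith
  have h4 : 1 + 0.01 * k ≤ Real.exp (0.01 * k) := by
    have := Real.add_one_le_exp (0.01 * k)
    linarith
  rw [Real.exp_add, ← hQ]
  calc Q + E + k * (1 / 1000000) * (1 * Q + E) ≤ Q * (1 + 0.01 * k) := by
        have h5 : 0 ≤ k * Q := by positivity
        linarith
    _ ≤ _ := by gcongr

end Pool.Agent.Lib.MP_f9aece_nt_h97
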