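import Mathlib
import Pool.Agent.Lib.MP_f9aece_nt_h97.MeanY

/-!
Upper bounds with explicit constants for fractional moments of zeta below the second moment.
-/

set_option autoImplicit false

namespace Pool.Agent.Lib.MP_f9aece_nt_h97

open MeasureTheory Set Filter Topology Complex
open Pool.Agent.Lib.MP_f9aece_nt

lemma dl_Mj_le (j : ℕ) : dl (Mj j) ≤ (1 / 2) ^ (j + 21) := by
  unfold dl
  have h1 : (1 / 3 : ℝ) ^ (Mj j + 1) ≤ (1 / 2) ^ (Mj j + 1) := by gcongr; norm_num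
  have h2 : (1 / 2 : ℝ) ^ (Mj j + 1) = 1 / 2 * (1 / 2) ^ Mj j := by rw [pow_succ]; ring
  have h3 : (1 / 2 : ℝ) ^ Mj j ≤ (1 / 2) ^ (j + 21) := by
    apply pow_le_pow_of_le_one (by norm_num) (by norm_num)
    unfold Mj
    have := succ_le_two_pow j
    omega
  linarith

lemma sum_dl (J : ℕ) : ∑ i ∈ Finset.range J, dl (Mj i) ≤ 1 / 1000000 :=
  (Finset.sum_le_sum fun i _ => dl_Mj_le i).trans (sum_half21 J)

lemma Vt_ge {Y : ℝ} (hY : 1 ≤ Y) : Real.log Y - 2 ≤ Vt Y (⌈Y⌉₊ + 1) := by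
  have h1 : Y / 4 ^ (⌈Y⌉₊ + 1) < Real.log 2 := by
    rw [div_lt_iff₀ (by positivity)]
    have h2 : Y ≤ ⌈Y⌉₊ := Nat.le_ceil Y
    have h3 : ((⌈Y⌉₊ : ℕ) : ℝ) ≤ 4 ^ ⌈Y⌉₊ := by
      exact_mod_cast (Nat.lt_pow_self (by norm_num : 1 < 4)).le
    have h4 := Real.log_two_gt_d9
    have h5 : (0 : ℝ) < 4 ^ ⌈Y⌉₊ := by positivity
    rw [pow_succ]
    nlinarith
  have h2 := sum_VV_ge hY (p0 := 1) le_rfl h1
  rw [Nat.cast_one, Real.log_one, sub_zero] at h2
  exact h2

/-- weighted arithmetic-geometric mean inequality, normalised -/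
lemma amgm {a k u v X Z : ℝ} (ha : 0 ≤ a) (hk : 0 ≤ k) (hak : a + k = 1) (hu : 0 ≤ u) (hv : 0 ≤ v)
    (hX : 0 < X) (hZ : 0 < Z) :
    u ^ k * v ^ a ≤ X ^ k * Z ^ a * (k * (u / X) + a * (v / Z)) := by
  have h1 := Real.geom_mean_le_arith_mean2_weighted hk ha (div_nonneg hu hX.le) (div_nonneg hv hZ.le)
    (by linarith)
  have h2 : u ^ k * v ^ a = X ^ k * Z ^ a * ((u / X) ^ k * (v / Z) ^ a) := by
    rw [Real.div_rpow hu hX.le, Real.div_rpow hv hZ.le]
    have : 0 < X ^ k := Real.rpow_pos_of_pos hX _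
    have : 0 < Z ^ a := Real.rpow_pos_of_pos hZ _
    field_simp
  rw [h2]
  gcongr

lemma up_nonneg (c : ℝ) (z : ℕ → ℂ) (j : ℕ) : 0 ≤ up c Mj Rj z j := by
  induction j with
  | zero => simp [up]
  | succ j ih =>
    simp only [up]
    have : 0 ≤ Rj j := by linarith [Rj_ge j]
    positivity

lemma continuous_up (c Y : ℝ) (J : ℕ) :
    Continuous (fun t : ℝ => up c Mj Rj (fun j => ev t (PP (Sc Y j))) J) := by
  simp_rw [up_eq]
  refine ((continuous_ev _).norm.pow 2).add (continuous_finsetSum _ fun j _ => ?_)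
  exact continuous_const.mul ((continuous_ev _).norm.pow 2)

lemma sharp_V {lL lY V : ℝ} (h1 : lL ≤ lY + 13.87) (h2 : lY - 2 ≤ V) : lL - 15.87 ≤ V := by
  linarith

lemma sharp_const {a k V lL S : ℝ} (hka : 0 ≤ k * a) (hk1 : k = 1 - a) (hS : S ≤ 1 / 1000000)
    (hV : lL - 15.87 ≤ V) :
    8 * k * a * S + k * lL + k * ((a ^ 2 - 2 * a) * V + 3.41 * a) + a * (k ^ 2 * V + 0.01 * k)
      - k ^ 2 * lL - 19.5 * (k * a) ≤ 0 := by
  have e1 : k * a * S ≤ k * a * (1 / 1000000) := mul_le_mul_of_nonneg_left hS hka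
  have e3 : k * a * (lL - 15.87) ≤ k * a * V := mul_le_mul_of_nonneg_left hV hka
  have e2 : 8 * k * a * S + k * lL + k * ((a ^ 2 - 2 * a) * V + 3.41 * a)
      + a * (k ^ 2 * V + 0.01 * k) - k ^ 2 * lL - 19.5 * (k * a)
      = 8 * (k * a * S) + k * a * lL - k * a * V + 3.42 * (k * a) - 19.5 * (k * a) := by
    rw [hk1]; ring
  rw [e2]
  linarith

lemma sq_le_one_aux {k : ℝ} (h0 : 0 ≤ k) (h1 : k ≤ 1) : k ^ 2 ≤ 1 := pow_le_one₀ h0 h1

/-- the moment over `[0,T]` at the special points -/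
theorem moment_Y {a k : ℝ} (ha : 0 < a) (hk : 0 < k) (hak : a + k = 1) :
    ∃ Y0 : ℝ, 1 ≤ Y0 ∧ ∀ Y : ℝ, Y0 ≤ Y →
    ∫ t in (0 : ℝ)..Real.exp (640000 * Y), ‖riemannZeta (1 / 2 + I * t)‖ ^ (2 * k)
      ≤ Real.exp (640000 * Y) * ((640000 * Y) ^ (k ^ 2) * Real.exp (19.5 * (k * a))) := by
  obtain ⟨Y1, hY1, hX⟩ := meanX ha (by linarith)
  obtain ⟨Y2, hY2, hV⟩ := meanY hk (by linarith)
  refine ⟨max Y1 Y2, le_max_of_le_left hY1, ?_⟩
  intro Y hY
  have hYa : Y1 ≤ Y := (le_max_left _ _).trans hY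
  have hYb : Y2 ≤ Y := (le_max_right _ _).trans hY
  have hYone : 1 ≤ Y := hY1.trans hYa
  have hY0 : 0 < Y := by linarith
  set J := ⌈Y⌉₊ + 1 with hJ
  have hJY : (J : ℝ) ≤ Y + 3 := by
    rw [hJ]
    push_cast
    have := (Nat.ceil_lt_add_one hY0.le).le
    linarith
  have h1 := hX Y hYa J hJY
  have h2 := hV Y hYb J hJY
  set T := Real.exp (640000 * Y) with hT
  have hTpos : 0 < T := Real.exp_pos _
  set V := Vt Y J with hVdef
  set X0 := 640000 * Y * Real.exp ((a ^ 2 - 2 * a) * V + 3.41 * a) with hX0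
  set Z0 := Real.exp (k ^ 2 * V + 0.01 * k) with hZ0
  have hX0pos : 0 < X0 := by positivity
  have hZ0pos : 0 < Z0 := Real.exp_pos _
  set F : ℝ → ℝ := fun t => ‖riemannZeta (1 / 2 + I * t)‖ with hF
  set u1 : ℝ → ℝ := fun t => F t ^ 2 * up (-a) Mj Rj (fun j => ev t (PP (Sc Y j))) J with hu1
  set u2 : ℝ → ℝ := fun t => up k Mj Rj (fun j => ev t (PP (Sc Y j))) J with hu2
  have hFc : Continuous F := continuous_zeta.norm
  have hu1c : Continuous u1 := (hFc.pow 2).mul (continuous_up _ _ _)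
  have hu2c : Continuous u2 := continuous_up _ _ _
  set c0 := Real.exp (8 * k * a * ∑ i ∈ Finset.range J, dl (Mj i)) with hc0
  set K0 := c0 * (X0 ^ k * Z0 ^ a) with hK0
  have hK00 : 0 ≤ K0 := by positivity
  have hpt : ∀ t : ℝ, F t ^ (2 * k) ≤ K0 * (k * (u1 t / X0) + a * (u2 t / Z0)) := by
    intro t
    have hF0 : 0 ≤ F t := norm_nonneg _
    have g1 := one_le_up ha.le hk.le hak (fun j => ev t (PP (Sc Y j)))
      (fun j => by have := Mj_ge j; omega) (fun j => by linarith [Rj_ge j]) Rj_le sum_Rj J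
    have hn1 := up_nonneg (-a) (fun j => ev t (PP (Sc Y j))) J
    have hn2 := up_nonneg k (fun j => ev t (PP (Sc Y j))) J
    have g2 : F t ^ (2 * k) = (F t ^ 2) ^ k := by
      rw [← Real.rpow_natCast, ← Real.rpow_mul hF0]; norm_num
    have g3 : u1 t ^ k = (F t ^ 2) ^ k * up (-a) Mj Rj (fun j => ev t (PP (Sc Y j))) J ^ k :=
      Real.mul_rpow (by positivity) hn1
    have g4 := amgm ha.le hk.le hak (u := u1 t) (v := u2 t) (mul_nonneg (by positivity) hn1) hn2
      hX0pos hZ0pos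
    calc F t ^ (2 * k) = (F t ^ 2) ^ k * 1 := by rw [g2, mul_one]
      _ ≤ (F t ^ 2) ^ k * (c0 * (up (-a) Mj Rj (fun j => ev t (PP (Sc Y j))) J ^ k
            * up k Mj Rj (fun j => ev t (PP (Sc Y j))) J ^ a)) := by
          refine mul_le_mul_of_nonneg_left g1 (by positivity)
      _ = c0 * (u1 t ^ k * u2 t ^ a) := by rw [g3]; ring
      _ ≤ c0 * (X0 ^ k * Z0 ^ a * (k * (u1 t / X0) + a * (u2 t / Z0))) := by
          refine mul_le_mul_of_nonneg_left g4 (Real.exp_pos _).le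
      _ = _ := by rw [hK0]; ring
  have hint : ∫ t in (0 : ℝ)..T, F t ^ (2 * k)
      ≤ K0 * (k * ((∫ t in (0 : ℝ)..T, u1 t) / X0) + a * ((∫ t in (0 : ℝ)..T, u2 t) / Z0)) := by
    have i1 : IntervalIntegrable (fun t => F t ^ (2 * k)) volume 0 T :=
      (hFc.rpow_const fun _ => Or.inr (by positivity)).intervalIntegrable _ _
    have i2 : IntervalIntegrable (fun t => K0 * (k * (u1 t / X0) + a * (u2 t / Z0))) volume 0 T := by
      refine Continuous.intervalIntegrable ?_ _ _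
      fun_prop
    refine (intervalIntegral.integral_mono_on hTpos.le i1 i2 fun t _ => hpt t).trans (le_of_eq ?_)
    rw [intervalIntegral.integral_const_mul, intervalIntegral.integral_add,
      intervalIntegral.integral_const_mul, intervalIntegral.integral_const_mul,
      intervalIntegral.integral_div, intervalIntegral.integral_div]
    · exact Continuous.intervalIntegrable (by fun_prop) _ _
    · exact Continuous.intervalIntegrable (by fun_prop) _ _
  refine hint.trans ?_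
  have h3 : (∫ t in (0 : ℝ)..T, u1 t) / X0 ≤ T := by
    rw [div_le_iff₀ hX0pos]; exact h1
  have h4 : (∫ t in (0 : ℝ)..T, u2 t) / Z0 ≤ T := by
    rw [div_le_iff₀ hZ0pos]; exact h2
  have h5 : K0 * (k * ((∫ t in (0 : ℝ)..T, u1 t) / X0) + a * ((∫ t in (0 : ℝ)..T, u2 t) / Z0))
      ≤ K0 * (k * T + a * T) := by gcongr
  refine h5.trans ?_
  have h6 : K0 * (k * T + a * T) = T * K0 := by
    have : k * T + a * T = T := by rw [← add_mul]; rw [add_comm k a, hak, one_mul]
    rw [this]; ring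
  rw [h6]
  refine mul_le_mul_of_nonneg_left ?_ hTpos.le
  -- the constant
  set L := 640000 * Y with hL
  have hL0 : 0 < L := by positivity
  have hVge : Real.log Y - 2 ≤ V := Vt_ge hYone
  have hlog : Real.log L ≤ Real.log Y + 13.87 := by
    rw [hL, Real.log_mul (by norm_num) hY0.ne']
    have h7 : Real.log 640000 ≤ Real.log (2 ^ 20) := by
      apply Real.log_le_log (by norm_num); norm_num
    rw [Real.log_pow] at h7
    have h8 := Real.log_two_lt_d9
    push_cast at h7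
    linarith
  have hX0k : X0 ^ k = L ^ k * Real.exp (k * ((a ^ 2 - 2 * a) * V + 3.41 * a)) := by
    rw [hX0, Real.mul_rpow hL0.le (Real.exp_pos _).le, ← Real.exp_mul]
    congr 2; ring
  have hZ0a : Z0 ^ a = Real.exp (a * (k ^ 2 * V + 0.01 * k)) := by
    rw [hZ0, ← Real.exp_mul]; congr 1; ring
  have hLk : L ^ k = Real.exp (k * Real.log L) := by
    rw [Real.rpow_def_of_pos hL0]; congr 1; ring
  have hLk2 : L ^ (k ^ 2) = Real.exp (k ^ 2 * Real.log L) := by
    rw [Real.rpow_def_of_pos hL0]; congr 1; ring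
  rw [hK0, hX0k, hZ0a, hLk, hLk2, hc0, ← Real.exp_add, ← Real.exp_add, ← Real.exp_add, ← Real.exp_add]
  apply Real.exp_le_exp.mpr
  have hd := sum_dl J
  have hka : 0 ≤ k * a := mul_nonneg hk.le ha.le
  have hk1 : k = 1 - a := eq_sub_of_add_eq' hak
  have hV3 : Real.log L - 15.87 ≤ V := sharp_V hlog hVge
  refine le_of_sub_nonpos (le_trans (le_of_eq ?_) (sharp_const hka hk1 hd hV3))
  ring

/-- the moment over `[0,T]` -/
theorem moment_zero {a k : ℝ} (ha : 0 < a) (hk : 0 < k) (hak : a + k = 1) :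
    ∃ T0 : ℝ, Real.exp 1 ≤ T0 ∧ ∀ T : ℝ, T0 ≤ T →
    ∫ t in (0 : ℝ)..T, ‖riemannZeta (1 / 2 + I * t)‖ ^ (2 * k)
      ≤ T * (Real.log T ^ (k ^ 2) * Real.exp (19.5 * (k * a))) := by
  obtain ⟨Y0, hY0, h⟩ := moment_Y ha hk hak
  refine ⟨Real.exp (640000 * Y0), Real.exp_le_exp.mpr (by linarith), ?_⟩
  intro T hT
  have hTpos : 0 < T := (Real.exp_pos _).trans_le hT
  have h1 : 640000 * Y0 ≤ Real.log T := by rwa [Real.le_log_iff_exp_le hTpos]
  have h2 := h (Real.log T / 640000) (by rw [le_div_iff₀ (by norm_num)]; linarith)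
  have e1 : 640000 * (Real.log T / 640000) = Real.log T := by ring
  rw [e1, Real.exp_log hTpos] at h2
  exact h2

/-- **Upper bound with an explicit constant** for the randomly shifted moments. -/
theorem sharp_upper (β : ℝ) (hβ0 : 0 < β) (hβ2 : β < 2) (x : ℝ) :
    ∀ᶠ T in atTop, mom β x T ≤ Real.exp (5 * β * (2 - β)) * Real.log T ^ (β ^ 2 / 4) := by
  set k := β / 2 with hk
  set a := 1 - k with ha
  have hk0 : 0 < k := by positivity
  have ha0 : 0 < a := by rw [ha, hk]; linarith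
  have hβk : β = 2 * k := by rw [hk]; ring
  obtain ⟨T0, hT0, h⟩ := moment_zero ha0 hk0 (by rw [ha]; ring)
  set F : ℝ → ℝ := fun t => ‖riemannZeta (1 / 2 + I * t)‖ ^ β with hF
  have hFc : Continuous F := continuous_zeta.norm.rpow_const fun _ => Or.inr hβ0.le
  have hF0 : ∀ t, 0 ≤ F t := fun t => by rw [hF]; positivity
  set A0 := ∫ t in (-|x|)..0, F t with hA0
  have hA00 : 0 ≤ A0 := intervalIntegral.integral_nonneg (by simp) fun t _ => hF0 t
  set c1 := Real.exp (19.5 * (k * a)) with hc1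
  have hc12 : c1 < Real.exp (5 * β * (2 - β)) := by
    apply Real.exp_lt_exp.mpr
    have : 5 * β * (2 - β) = 20 * (k * a) := by rw [ha, hk]; ring
    rw [this]
    have : 0 < k * a := by positivity
    linarith
  -- limit of the constant
  have hlim : Tendsto (fun T : ℝ => A0 * T⁻¹ + (1 + |x| * T⁻¹) ^ 2 * c1) atTop
      (𝓝 (A0 * 0 + (1 + |x| * 0) ^ 2 * c1)) := by
    have h0 := tendsto_inv_atTop_zero (𝕜 := ℝ)
    exact (h0.const_mul A0).add ((((h0.const_mul |x|).const_add 1).pow 2).mul_const c1)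
  simp only [mul_zero, zero_add, add_zero, one_pow, one_mul] at hlim
  have hev := hlim.eventually (gt_mem_nhds hc12)
  filter_upwards [hev, eventually_ge_atTop T0, eventually_ge_atTop (Real.exp 1)] with T hT1 hT2 hTe
  have hTpos : 0 < T := (Real.exp_pos _).trans_le hTe
  have hlogT : 1 ≤ Real.log T := by rwa [Real.le_log_iff_exp_le hTpos]
  have hxa : 0 ≤ |x| := abs_nonneg x
  have h1 : mom β x T = (∫ t in x..(x + T), F t) / T := by
    have h2 := intervalIntegral.integral_comp_mul_add (a := 0) (b := 1) F hTpos.ne' x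
    simp only [mul_zero, zero_add, mul_one, smul_eq_mul] at h2
    unfold mom
    rw [add_comm T x] at h2
    rw [div_eq_inv_mul (∫ t in x..(x + T), F t) T, ← h2]
    refine intervalIntegral.integral_congr fun u _ => ?_
    simp only [hF]
    congr 3
    push_cast
    ring
  have h2 : ∫ t in x..(x + T), F t ≤ A0 + ∫ t in (0 : ℝ)..(T + |x|), F t := by
    have h3 : ∫ t in x..(x + T), F t ≤ ∫ t in (-|x|)..(T + |x|), F t := by
      refine intervalIntegral.integral_mono_interval (neg_abs_le x) (by linarith) ?_ ?_ ?_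
      · have := le_abs_self x
        linarith
      · exact Eventually.of_forall fun t => hF0 t
      · exact hFc.intervalIntegrable _ _
    refine h3.trans (le_of_eq ?_)
    rw [hA0, intervalIntegral.integral_add_adjacent_intervals (hFc.intervalIntegrable _ _)
      (hFc.intervalIntegrable _ _)]
  have h3 := h (T + |x|) (by linarith)
  rw [← hβk] at h3
  have hlog2 : Real.log (T + |x|) ≤ Real.log T * (1 + |x| * T⁻¹) := by
    have e1 : T + |x| = T * (1 + |x| * T⁻¹) := by field_simp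
    have h4 : 0 < 1 + |x| * T⁻¹ := by positivity
    rw [e1, Real.log_mul hTpos.ne' h4.ne']
    have h5 := Real.log_le_sub_one_of_pos h4
    have h6 : |x| * T⁻¹ ≤ Real.log T * (|x| * T⁻¹) := le_mul_of_one_le_left (by positivity) hlogT
    linarith
  have hk2 : β ^ 2 / 4 = k ^ 2 := by rw [hk]; ring
  rw [hk2]
  have hk21 : k ^ 2 ≤ 1 := by
    have : k ≤ 1 := by rw [hk]; linarith only [hβ2]
    exact sq_le_one_aux hk0.le this
  have h4 : Real.log (T + |x|) ^ (k ^ 2) ≤ Real.log T ^ (k ^ 2) * (1 + |x| * T⁻¹) := by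
    have h5 : 0 ≤ Real.log (T + |x|) := Real.log_nonneg (by
      have := Real.one_le_exp (zero_le_one (α := ℝ))
      linarith)
    calc Real.log (T + |x|) ^ (k ^ 2) ≤ (Real.log T * (1 + |x| * T⁻¹)) ^ (k ^ 2) := by
          gcongr
      _ = Real.log T ^ (k ^ 2) * (1 + |x| * T⁻¹) ^ (k ^ 2) := by
          rw [Real.mul_rpow (by linarith) (by positivity)]
      _ ≤ Real.log T ^ (k ^ 2) * (1 + |x| * T⁻¹) := by
          gcongr
          have h6 : (1 : ℝ) ≤ 1 + |x| * T⁻¹ := by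
            have : 0 ≤ |x| * T⁻¹ := by positivity
            linarith
          calc (1 + |x| * T⁻¹) ^ (k ^ 2) ≤ (1 + |x| * T⁻¹) ^ (1 : ℝ) :=
                Real.rpow_le_rpow_of_exponent_le h6 hk21
            _ = _ := Real.rpow_one _
  have hlk : 1 ≤ Real.log T ^ (k ^ 2) := Real.one_le_rpow hlogT (by positivity)
  rw [h1, div_le_iff₀ hTpos]
  refine h2.trans ?_
  set lk := Real.log T ^ (k ^ 2) with hlkdef
  have h5 : A0 + ∫ t in (0 : ℝ)..(T + |x|), F t
      ≤ T * (lk * (A0 * T⁻¹ + (1 + |x| * T⁻¹) ^ 2 * c1)) := by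
    have e1 : T * (lk * (A0 * T⁻¹ + (1 + |x| * T⁻¹) ^ 2 * c1))
        = lk * A0 + (T + |x|) * ((lk * (1 + |x| * T⁻¹)) * c1) := by
      field_simp
    rw [e1]
    have h6 : A0 ≤ lk * A0 := le_mul_of_one_le_left hA00 hlk
    have h7 : ∫ t in (0 : ℝ)..(T + |x|), F t ≤ (T + |x|) * ((lk * (1 + |x| * T⁻¹)) * c1) := by
      refine h3.trans ?_
      gcongr
    linarith
  refine h5.trans ?_
  have h6 : lk * (A0 * T⁻¹ + (1 + |x| * T⁻¹) ^ 2 * c1) ≤ lk * Real.exp (5 * β * (2 - β)) := by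
    gcongr
  calc T * (lk * (A0 * T⁻¹ + (1 + |x| * T⁻¹) ^ 2 * c1)) ≤ T * (lk * Real.exp (5 * β * (2 - β))) := by
        gcongr
    _ = _ := by ring

end Pool.Agent.Lib.MP_f9aece_nt_h97
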