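import Mathlib
import Pool.Agent.Lib.MP_f9aece_nt_h97.EnergyE

/-!
Lower bounds for the energies of truncated exponentials convolved with the divisor function.
-/

set_option autoImplicit false

namespace Pool.Agent.Lib.MP_f9aece_nt_h97

open MeasureTheory Set Filter Topology Complex
open Pool.Agent.Lib.MP_f9aece_nt
open scoped ArithmeticFunction.Omega

lemma dv_prod_primes (T : Finset ℕ) (hT : ∀ p ∈ T, p.Prime) : dv (∏ p ∈ T, p) = 2 ^ T.card := by
  classical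
  induction T using Finset.induction_on with
  | empty => simp [dv]
  | insert p T hp ih =>
    have hpp := hT p (Finset.mem_insert_self _ _)
    have hT' : ∀ q ∈ T, q.Prime := fun q hq => hT q (Finset.mem_insert_of_mem hq)
    have hc : Nat.Coprime p (∏ q ∈ T, q) := by
      refine Nat.Coprime.prod_right fun q hq => ?_
      rw [Nat.coprime_primes hpp (hT' q hq)]
      rintro rfl; exact hp hq
    rw [Finset.prod_insert hp, dv_mul hc, ih hT', Finset.card_insert_of_notMem hp]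
    have : dv p = 2 := by
      have := dv_pow hpp 1
      rw [pow_one] at this
      rw [this]; norm_num
    rw [this, pow_succ']

lemma Omega_prod_primes (T : Finset ℕ) (hT : ∀ p ∈ T, p.Prime) : Ω (∏ p ∈ T, p) = T.card := by
  classical
  induction T using Finset.induction_on with
  | empty => simp
  | insert p T hp ih =>
    have hpp := hT p (Finset.mem_insert_self _ _)
    have hT' : ∀ q ∈ T, q.Prime := fun q hq => hT q (Finset.mem_insert_of_mem hq)
    have h0 : ∏ q ∈ T, q ≠ 0 := Finset.prod_ne_zero_iff.mpr fun q hq => (hT' q hq).ne_zero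
    rw [Finset.prod_insert hp, ArithmeticFunction.cardFactors_mul hpp.ne_zero h0, ih hT',
      Finset.card_insert_of_notMem hp, ArithmeticFunction.cardFactors_apply_prime hpp]
    ring

lemma prod_primes_smo {S T : Finset ℕ} (hS : ∀ p ∈ S, p.Prime) (hT : T ⊆ S) :
    ∏ p ∈ T, p ∈ Smo (S : Set ℕ) := by
  refine ⟨Finset.prod_ne_zero_iff.mpr fun q hq => (hS q (hT hq)).ne_zero, fun q hq hd => ?_⟩
  obtain ⟨r, hr, hd'⟩ := (hq.prime.dvd_finsetProd_iff _).mp hd
  rw [(Nat.prime_dvd_prime_iff_eq hq (hS r (hT hr))).mp hd']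
  exact hT hr

lemma dk_zero (n : ℕ) : dk 0 n = dv n := by unfold dk; rw [Real.rpow_zero, mul_one]

lemma cvd_eq (f : DP) (m : ℕ) : cvg dv f m = cvd f m := rfl

lemma cvg_dk_zero (f : DP) (m : ℕ) : cvg (dk 0) f m = cvd f m := by
  have : dk 0 = dv := funext dk_zero
  rw [this, cvd_eq]

/-- values at squarefree numbers -/
lemma cvd_ge {S T : Finset ℕ} (hS : ∀ p ∈ S, p.Prime) (hT : T ⊆ S) {c : ℝ} (hc : 0 ≤ c) {K : ℕ}
    (hK : T.card ≤ K) : (2 + c) ^ T.card ≤ cvd (expo c K S) (∏ p ∈ T, p) := by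
  classical
  set φ : ℕ → ℝ := fun a => if a ∣ ∏ p ∈ T, p then dv ((∏ p ∈ T, p) / a) else 0 with hφ
  have hφ0 : ∀ a, 0 ≤ φ a := fun a => by
    simp only [hφ]; split_ifs; exacts [dv_nonneg _, le_rfl]
  have h1 : pair φ (GT c K S) ≤ cvd (expo c K S) (∏ p ∈ T, p) := by
    have hd : Dom (GT c K S) (expo c K S) := fun n => by
      rw [abs_of_nonneg (coeff_GT_nonneg hc K n)]
      exact coeff_GT_le hS hc K n
    exact (le_abs_self _).trans (abs_pair_le_of_dom hφ0 hd)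
  refine le_trans ?_ h1
  have h2 : pair φ (GT c K S) = ∑ H ∈ S.powerset with H.card ≤ K, c ^ H.card * φ (∏ p ∈ H, p) := by
    unfold GT
    rw [pair_sum]
    exact Finset.sum_congr rfl fun H _ => pair_single _ _ _
  rw [h2]
  have h3 : (2 + c) ^ T.card = ∑ H ∈ T.powerset, c ^ H.card * φ (∏ p ∈ H, p) := by
    rw [add_comm, ← Finset.sum_pow_mul_eq_add_pow]
    refine Finset.sum_congr rfl fun H hH => ?_
    rw [Finset.mem_powerset] at hH
    have hH0 : 0 < ∏ p ∈ H, p := Finset.prod_pos fun p hp => (hS p (hT (hH hp))).pos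
    have e : ∏ p ∈ T, p = (∏ p ∈ H, p) * ∏ p ∈ T \ H, p := by
      rw [mul_comm, Finset.prod_sdiff hH]
    simp only [hφ]
    rw [if_pos (by rw [e]; exact Dvd.intro _ rfl), e, Nat.mul_div_cancel_left _ hH0,
      dv_prod_primes _ (fun p hp => hS p (hT (Finset.sdiff_subset hp))), Finset.card_sdiff_of_subset hH]
  rw [h3]
  refine Finset.sum_le_sum_of_subset_of_nonneg ?_ fun H _ _ => mul_nonneg (by positivity) (hφ0 _)
  intro H hH
  rw [Finset.mem_powerset] at hH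
  rw [Finset.mem_filter, Finset.mem_powerset]
  exact ⟨hH.trans hT, (Finset.card_le_card hH).trans hK⟩

lemma one_add_ge_exp_sq {u : ℝ} (hu : 0 ≤ u) : Real.exp (u - u ^ 2 / 2) ≤ 1 + u := by
  have hp : 0 < 1 + u := by linarith
  rw [← Real.le_log_iff_exp_le hp]
  have h := Real.le_log_one_add_of_nonneg hu
  refine le_trans ?_ h
  rw [← sub_nonneg]
  have : 2 * u / (u + 2) - (u - u ^ 2 / 2) = u ^ 3 / (2 * (u + 2)) := by
    field_simp; ring
  rw [this]; positivity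

/-- the finite set of test points -/
noncomputable def sqf (K : ℕ) (S : Finset ℕ) : Finset ℕ :=
  (S.powerset.filter (fun T => T.card ≤ K)).image (fun T => ∏ p ∈ T, p)

lemma sqf_mem {K : ℕ} {S : Finset ℕ} (hS : ∀ p ∈ S, p.Prime) {m : ℕ} (hm : m ∈ sqf K S) :
    m ∈ Smo (S : Set ℕ) ∧ Ω m ≤ K := by
  unfold sqf at hm
  rw [Finset.mem_image] at hm
  obtain ⟨T, hT, rfl⟩ := hm
  rw [Finset.mem_filter, Finset.mem_powerset] at hT
  exact ⟨prod_primes_smo hS hT.1, by rw [Omega_prod_primes _ (fun p hp => hS p (hT.1 hp))]; exact hT.2⟩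

lemma sum_powerset_prod (S : Finset ℕ) (w : ℝ) :
    ∑ T ∈ S.powerset, w ^ T.card * ∏ p ∈ T, (p : ℝ)⁻¹ = ∏ p ∈ S, (1 + w * (p : ℝ)⁻¹) := by
  classical
  rw [Finset.prod_one_add]
  refine Finset.sum_congr rfl fun T _ => ?_
  rw [Finset.prod_mul_distrib, Finset.prod_const]

/-- **lower bound** for the energy, nonnegative parameter -/
theorem energy_lower {S : Finset ℕ} (hS : ∀ p ∈ S, p.Prime) {c : ℝ} (hc : 0 ≤ c) (hc1 : c ≤ 1) (K : ℕ) :
    DS S * Real.exp ((4 * c + c ^ 2) * VV S - 77 * V2 S) - (1 / 2) ^ K * Real.exp (18 * VV S)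
      ≤ ∑ m ∈ sqf K S, cvd (expo c K S) m ^ 2 * (m : ℝ)⁻¹ := by
  classical
  set w := (2 + c) ^ 2 with hw
  have hw0 : 0 ≤ w := by positivity
  have hw9 : w ≤ 9 := by rw [hw]; nlinarith
  have hinj : Set.InjOn (fun T : Finset ℕ => ∏ p ∈ T, p)
      ((S.powerset.filter (fun T => T.card ≤ K) : Finset (Finset ℕ)) : Set (Finset ℕ)) := by
    intro T hT T' hT' h
    simp only [Finset.coe_filter, Finset.mem_powerset, Set.mem_ofPred_eq] at hT hT'
    simp only at h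
    rw [← Nat.primeFactors_prod (fun p hp => hS p (hT.1 hp)), h,
      Nat.primeFactors_prod (fun p hp => hS p (hT'.1 hp))]
  have h1 : ∑ T ∈ S.powerset with T.card ≤ K, w ^ T.card * ∏ p ∈ T, (p : ℝ)⁻¹
      ≤ ∑ m ∈ sqf K S, cvd (expo c K S) m ^ 2 * (m : ℝ)⁻¹ := by
    unfold sqf
    rw [Finset.sum_image hinj]
    refine Finset.sum_le_sum fun T hT => ?_
    rw [Finset.mem_filter, Finset.mem_powerset] at hT
    have h2 := cvd_ge hS hT.1 hc hT.2
    have h3 : w ^ T.card = ((2 + c) ^ T.card) ^ 2 := by rw [hw, ← pow_mul, ← pow_mul, mul_comm]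
    have h4 : ((∏ p ∈ T, p : ℕ) : ℝ)⁻¹ = ∏ p ∈ T, (p : ℝ)⁻¹ := by
      push_cast
      rw [Finset.prod_inv_distrib]
    rw [h3, h4]
    have h5 : 0 ≤ ∏ p ∈ T, (p : ℝ)⁻¹ := Finset.prod_nonneg fun p _ => by positivity
    gcongr
  have h6 : ∑ T ∈ S.powerset, w ^ T.card * ∏ p ∈ T, (p : ℝ)⁻¹
      = ∑ T ∈ S.powerset with T.card ≤ K, w ^ T.card * ∏ p ∈ T, (p : ℝ)⁻¹
        + ∑ T ∈ S.powerset with ¬ T.card ≤ K, w ^ T.card * ∏ p ∈ T, (p : ℝ)⁻¹ :=
    (Finset.sum_filter_add_sum_filter_not _ _ _).symm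
  have h7 : ∑ T ∈ S.powerset with ¬ T.card ≤ K, w ^ T.card * ∏ p ∈ T, (p : ℝ)⁻¹
      ≤ (1 / 2) ^ K * Real.exp (18 * VV S) := by
    have h8 : ∑ T ∈ S.powerset with ¬ T.card ≤ K, w ^ T.card * ∏ p ∈ T, (p : ℝ)⁻¹
        ≤ ∑ T ∈ S.powerset, (1 / 2) ^ K * ((2 * w) ^ T.card * ∏ p ∈ T, (p : ℝ)⁻¹) := by
      refine (Finset.sum_le_sum fun T hT => ?_).trans
        (Finset.sum_le_sum_of_subset_of_nonneg (Finset.filter_subset _ _) fun T _ _ => ?_)
      · rw [Finset.mem_filter, not_le] at hT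
        have h5 : 0 ≤ ∏ p ∈ T, (p : ℝ)⁻¹ := Finset.prod_nonneg fun p _ => by positivity
        have h9 : (1 : ℝ) ≤ (1 / 2) ^ K * 2 ^ T.card := by
          rw [one_div, inv_pow, ← div_eq_inv_mul, one_le_div (by positivity)]
          exact pow_le_pow_right₀ (by norm_num) hT.2.le
        calc w ^ T.card * ∏ p ∈ T, (p : ℝ)⁻¹ = 1 * (w ^ T.card * ∏ p ∈ T, (p : ℝ)⁻¹) := by ring
          _ ≤ ((1 / 2) ^ K * 2 ^ T.card) * (w ^ T.card * ∏ p ∈ T, (p : ℝ)⁻¹) := by gcongr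
          _ = _ := by rw [mul_pow]; ring
      · have h5 : 0 ≤ ∏ p ∈ T, (p : ℝ)⁻¹ := Finset.prod_nonneg fun p _ => by positivity
        positivity
    refine h8.trans ?_
    rw [← Finset.mul_sum, sum_powerset_prod]
    have h10 : ∏ p ∈ S, (1 + 2 * w * (p : ℝ)⁻¹) ≤ Real.exp (18 * VV S) := by
      have e : Real.exp (18 * VV S) = ∏ p ∈ S, Real.exp (18 * (p : ℝ)⁻¹) := by
        rw [← Real.exp_sum, ← Finset.mul_sum]; rfl
      rw [e]
      refine Finset.prod_le_prod (fun p _ => by positivity) fun p _ => ?_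
      have h11 := Real.add_one_le_exp (18 * (p : ℝ)⁻¹)
      have h12 : 2 * w * (p : ℝ)⁻¹ ≤ 18 * (p : ℝ)⁻¹ := by
        have : (0 : ℝ) ≤ (p : ℝ)⁻¹ := by positivity
        nlinarith
      linarith
    gcongr
  have h13 : Real.exp (w * VV S - 41 * V2 S) ≤ ∏ p ∈ S, (1 + w * (p : ℝ)⁻¹) := by
    have e : Real.exp (w * VV S - 41 * V2 S) = ∏ p ∈ S, Real.exp (w * (p : ℝ)⁻¹ - 41 * ((p : ℝ)⁻¹) ^ 2) := by
      rw [← Real.exp_sum, Finset.sum_sub_distrib, ← Finset.mul_sum, ← Finset.mul_sum]; rfl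
    rw [e]
    refine Finset.prod_le_prod (fun _ _ => (Real.exp_pos _).le) fun p _ => ?_
    have hx0 : (0 : ℝ) ≤ (p : ℝ)⁻¹ := by positivity
    refine le_trans (Real.exp_le_exp.mpr ?_) (one_add_ge_exp_sq (mul_nonneg hw0 hx0))
    have : w ^ 2 ≤ 81 := by nlinarith
    rw [mul_pow]
    nlinarith [sq_nonneg (p : ℝ)⁻¹]
  have h14 : DS S * Real.exp ((4 * c + c ^ 2) * VV S - 77 * V2 S) ≤ Real.exp (w * VV S - 41 * V2 S) := by
    have h15 := DS_le hS
    calc DS S * Real.exp ((4 * c + c ^ 2) * VV S - 77 * V2 S)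
        ≤ Real.exp (4 * VV S + 36 * V2 S) * Real.exp ((4 * c + c ^ 2) * VV S - 77 * V2 S) := by gcongr
      _ = Real.exp (w * VV S - 41 * V2 S) := by
          rw [← Real.exp_add]; congr 1; rw [hw]; ring
  rw [sum_powerset_prod] at h6
  linarith

end Pool.Agent.Lib.MP_f9aece_nt_h97
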