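import Mathlib
import Pool.Agent.Lib.MP_f9aece_nt_h97.OffG
import Pool.Agent.Lib.MP_f9aece_nt_h5.MeanB2
import Pool.Agent.Lib.MP_f9aece_nt_h5.Tilt
import Pool.Agent.Lib.MP_f9aece_nt_h5.UniformUpper
import Pool.Agent.Lib.MP_f9aece_nt_h40.Transfer

/-!
Lower bound with constant tending to one for small moments of the zeta function.
-/

set_option autoImplicit false

namespace Pool.Agent.Lib.MP_f9aece_nt_h97

open MeasureTheory Set Filter Topology Complex
open Pool.Agent.Lib.MP_f9aece_nt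

/-- integrated form of the pointwise tilt -/
lemma tilt_int {m p0 : ℕ} (hm : 4000 ≤ m) {k : ℝ} (hk0 : 0 < k) (hk : k ≤ 1 / 4) (Y : ℝ) (J : ℕ)
    {σ : ℝ} (hσ : 1 / 2 ≤ σ) (hσ1 : σ < 1) {T : ℝ} (hT : 0 ≤ T) :
    (∏ p ∈ Psm p0, (1 + (p : ℝ) ^ (-(1 / 2) : ℝ))) ^ (-(2 * k)) * Real.exp (-(4 * (1 / 2) ^ m)) *
      ((1 - 2 * k) * ((∫ t in (0 : ℝ)..T, ‖evs (σ + I * t) (Bm m p0 k Y J)‖ ^ 2)
        - ∑ j ∈ Finset.range J, ∫ t in (0 : ℝ)..T, ‖evs (σ + I * t) (Bm m p0 k Y J)‖ ^ 2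
          * (‖Pj p0 Y σ j t‖ / ((Mm m j : ℝ) / 10)) ^ (2 * Mm m j))
      - 4 * ∫ t in (0 : ℝ)..T, ‖riemannZeta (σ + I * t) * evs (σ + I * t) (Dm m p0 (1 - k) Y J)
          - evs (σ + I * t) (Bm m p0 k Y J)‖ ^ 2)
      ≤ ∫ t in (0 : ℝ)..T, ‖riemannZeta (σ + I * t)‖ ^ (2 * k) := by
  set c1 := (∏ p ∈ Psm p0, (1 + (p : ℝ) ^ (-(1 / 2) : ℝ))) ^ (-(2 * k)) * Real.exp (-(4 * (1 / 2) ^ m))
    with hc1
  have hσ0 : 0 < σ := by linarith
  have cz := continuous_zeta_line hσ1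
  have cD := continuous_evs_line hσ0 (Dm m p0 (1 - k) Y J)
  have cB := continuous_evs_line hσ0 (Bm m p0 k Y J)
  have cP : ∀ j, Continuous (fun t : ℝ => Pj p0 Y σ j t) := by
    intro j
    unfold Pj
    refine continuous_finsetSum _ fun p hp => ?_
    refine Continuous.const_cpow (by fun_prop) ?_
    left
    exact_mod_cast (sc_prime hp).ne_zero
  have cB2 : Continuous (fun t : ℝ => ‖evs (σ + I * t) (Bm m p0 k Y J)‖ ^ 2) := cB.norm.pow 2
  have cQ : ∀ j, Continuous (fun t : ℝ => ‖evs (σ + I * t) (Bm m p0 k Y J)‖ ^ 2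
      * (‖Pj p0 Y σ j t‖ / ((Mm m j : ℝ) / 10)) ^ (2 * Mm m j)) :=
    fun j => cB2.mul (((cP j).norm.div_const _).pow _)
  have cZ : Continuous (fun t : ℝ => ‖riemannZeta (σ + I * t) * evs (σ + I * t) (Dm m p0 (1 - k) Y J)
          - evs (σ + I * t) (Bm m p0 k Y J)‖ ^ 2) := ((cz.mul cD).sub cB).norm.pow 2
  have e1 : c1 * ((1 - 2 * k) * ((∫ t in (0 : ℝ)..T, ‖evs (σ + I * t) (Bm m p0 k Y J)‖ ^ 2)
        - ∑ j ∈ Finset.range J, ∫ t in (0 : ℝ)..T, ‖evs (σ + I * t) (Bm m p0 k Y J)‖ ^ 2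
          * (‖Pj p0 Y σ j t‖ / ((Mm m j : ℝ) / 10)) ^ (2 * Mm m j))
      - 4 * ∫ t in (0 : ℝ)..T, ‖riemannZeta (σ + I * t) * evs (σ + I * t) (Dm m p0 (1 - k) Y J)
          - evs (σ + I * t) (Bm m p0 k Y J)‖ ^ 2)
      = ∫ t in (0 : ℝ)..T, c1 * ((1 - 2 * k) * (‖evs (σ + I * t) (Bm m p0 k Y J)‖ ^ 2
        - ∑ j ∈ Finset.range J, ‖evs (σ + I * t) (Bm m p0 k Y J)‖ ^ 2
          * (‖Pj p0 Y σ j t‖ / ((Mm m j : ℝ) / 10)) ^ (2 * Mm m j))
      - 4 * ‖riemannZeta (σ + I * t) * evs (σ + I * t) (Dm m p0 (1 - k) Y J)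
          - evs (σ + I * t) (Bm m p0 k Y J)‖ ^ 2) := by
    rw [intervalIntegral.integral_const_mul, intervalIntegral.integral_sub,
      intervalIntegral.integral_const_mul, intervalIntegral.integral_const_mul,
      intervalIntegral.integral_sub, intervalIntegral.integral_finsetSum]
    · exact fun j _ => (cQ j).intervalIntegrable _ _
    · exact cB2.intervalIntegrable _ _
    · exact (continuous_finsetSum _ fun j _ => cQ j).intervalIntegrable _ _
    · exact ((cB2.sub (continuous_finsetSum _ fun j _ => cQ j)).const_mul _).intervalIntegrable _ _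
    · exact (cZ.const_mul _).intervalIntegrable _ _
  rw [e1]
  refine intervalIntegral.integral_mono_on hT ?_ ?_ ?_
  · refine Continuous.intervalIntegrable ?_ _ _
    exact (((cB2.sub (continuous_finsetSum _ fun j _ => cQ j)).const_mul _).sub
      (cZ.const_mul _)).const_mul _
  · exact (cz.norm.rpow_const fun _ => Or.inr (by linarith)).intervalIntegrable _ _
  · intro t _
    have h := Pool.Agent.Lib.MP_f9aece_nt_h5.pointwise_tilt m p0 hm hk0 hk Y J hσ t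
      (riemannZeta (σ + I * t))
    refine le_trans (le_of_eq ?_) h
    rw [hc1]
    congr 1
    rw [mul_sub, mul_sub, mul_one, Finset.mul_sum, Finset.mul_sum]
    congr 2
    refine Finset.sum_congr rfl fun j _ => ?_
    ring

lemma numH1 {η : ℝ} (h0 : 0 ≤ η) (h1 : η ≤ 1 / 100) :
    1 - 10 * η ≤ (1 - η) * (1 - η) * ((1 - η) * (1 - η)) * (1 - 6 * η) := by
  have a1 : 1 - 2 * η ≤ (1 - η) * (1 - η) := by nlinarith
  have a2 : (1 - 2 * η) * (1 - 2 * η) ≤ (1 - η) * (1 - η) * ((1 - η) * (1 - η)) :=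
    mul_le_mul a1 a1 (by linarith) (le_trans (by linarith) a1)
  have a3 : 1 - 4 * η ≤ (1 - 2 * η) * (1 - 2 * η) := by nlinarith
  have a4 : (1 - 4 * η) * (1 - 6 * η) ≤ (1 - η) * (1 - η) * ((1 - η) * (1 - η)) * (1 - 6 * η) := by
    have : 0 ≤ 1 - 6 * η := by linarith
    exact mul_le_mul_of_nonneg_right (a3.trans a2) this
  nlinarith

/-- bookkeeping of the lower bound -/
lemma numH2 {η c1 k T E X2 IB SB IZ I0 : ℝ} (h0 : 0 ≤ η) (h1 : η ≤ 1 / 100)
    (hc1 : (1 - η) * (1 - η) ≤ c1) (hk : 2 * k ≤ η) (hk0 : 0 ≤ k) (hT : 0 ≤ T) (hX2 : 0 ≤ X2)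
    (hE : (1 - η) * (1 - η) * X2 ≤ E) (hIB : T * (E * (1 - η / 4)) ≤ IB)
    (hSB : SB ≤ T * (E * (η / 4 + η / 4))) (hIZ : IZ ≤ η * (T * E))
    (h : c1 * ((1 - 2 * k) * (IB - SB) - 4 * IZ) ≤ I0) :
    (1 - 10 * η) * (T * X2) ≤ I0 := by
  have hE0 : 0 ≤ E := le_trans (by
    have : 0 ≤ 1 - η := by linarith
    positivity) hE
  have hTE : 0 ≤ T * E := by positivity
  have a1 : T * E * (1 - η) ≤ IB - SB := by
    have e1 : T * (E * (1 - η / 4)) - T * (E * (η / 4 + η / 4)) = T * E * (1 - 3 * η / 4) := by ring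
    have e2 : T * E * (1 - η) ≤ T * E * (1 - 3 * η / 4) :=
      mul_le_mul_of_nonneg_left (by linarith) hTE
    linarith
  have a2 : (1 - η) * (T * E * (1 - η)) ≤ (1 - 2 * k) * (IB - SB) := by
    have b1 : 0 ≤ T * E * (1 - η) := mul_nonneg hTE (by linarith)
    calc (1 - η) * (T * E * (1 - η)) ≤ (1 - 2 * k) * (T * E * (1 - η)) :=
          mul_le_mul_of_nonneg_right (by linarith) b1
      _ ≤ _ := mul_le_mul_of_nonneg_left a1 (by linarith)
  have a3 : (1 - 6 * η) * (T * E) ≤ (1 - 2 * k) * (IB - SB) - 4 * IZ := by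
    have e1 : (1 - η) * (T * E * (1 - η)) = (1 - 2 * η) * (T * E) + η ^ 2 * (T * E) := by ring
    have e2 : 0 ≤ η ^ 2 * (T * E) := by positivity
    linarith
  have a4 : (1 - 6 * η) * (T * ((1 - η) * (1 - η) * X2)) ≤ (1 - 6 * η) * (T * E) := by
    have : 0 ≤ 1 - 6 * η := by linarith
    gcongr
  have a5 : 0 ≤ (1 - 6 * η) * (T * ((1 - η) * (1 - η) * X2)) := by
    have b1 : 0 ≤ 1 - 6 * η := by linarith
    have b2 : 0 ≤ 1 - η := by linarith
    positivity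
  have a6 : (1 - η) * (1 - η) * ((1 - 6 * η) * (T * ((1 - η) * (1 - η) * X2))) ≤ I0 := by
    refine le_trans ?_ h
    have b0 : 0 ≤ (1 - η) * (1 - η) := by
      have : 0 ≤ 1 - η := by linarith
      positivity
    calc (1 - η) * (1 - η) * ((1 - 6 * η) * (T * ((1 - η) * (1 - η) * X2)))
        ≤ (1 - η) * (1 - η) * ((1 - 2 * k) * (IB - SB) - 4 * IZ) :=
          mul_le_mul_of_nonneg_left (a4.trans a3) b0
      _ ≤ _ := mul_le_mul_of_nonneg_right hc1 ((a5.trans a4).trans a3)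
  refine le_trans ?_ a6
  have hn := numH1 h0 h1
  calc (1 - 10 * η) * (T * X2)
      ≤ ((1 - η) * (1 - η) * ((1 - η) * (1 - η)) * (1 - 6 * η)) * (T * X2) :=
        mul_le_mul_of_nonneg_right hn (by positivity)
    _ = _ := by ring

lemma one_sub_le_rpow_neg {S u η : ℝ} (hS : 1 ≤ S) (hu : u * Real.log S ≤ η) : 1 - η ≤ S ^ (-u) := by
  rw [Real.rpow_def_of_pos (by linarith)]
  have := Real.add_one_le_exp (Real.log S * -u)
  linarith

theorem lower_zero_Y {η : ℝ} (hη : 0 < η) (hη1 : η ≤ 1 / 100) : ∃ (m : ℕ) (k0 Y0 : ℝ), 1 ≤ m ∧ 0 < k0 ∧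
    1 ≤ Y0 ∧ ∀ Y : ℝ, Y0 ≤ Y → ∀ k : ℝ, 0 < k → k ≤ k0 →
    (1 - 11 * η) * (Real.exp (160 * m * Y) * (160 * m * Y) ^ (k ^ 2))
      ≤ ∫ t in (0 : ℝ)..Real.exp (160 * m * Y), ‖riemannZeta (1 / 2 + I * t)‖ ^ (2 * k) := by
  obtain ⟨m, p0, Λ, c, Y1, hm, hp0, hmη, hΛ1, hc0, hY1, hcore⟩ := off_core hη (by linarith)
  obtain ⟨Y2, hY2, hmean⟩ := Pool.Agent.Lib.MP_f9aece_nt_h5.mean_B m p0 hm (by omega)
  obtain ⟨A, hA⟩ := Pool.Agent.Lib.MP_f9aece_nt_h40.transfer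
  set S := ∏ p ∈ Psm p0, (1 + (p : ℝ) ^ (-(1 / 2) : ℝ)) with hS
  have hS1 : 1 ≤ S := by
    rw [hS]
    calc (1 : ℝ) = ∏ p ∈ Psm p0, (1 : ℝ) := by simp
      _ ≤ _ := Finset.prod_le_prod (fun _ _ => zero_le_one) fun p _ => by
        have : 0 ≤ (p : ℝ) ^ (-(1 / 2) : ℝ) := by positivity
        linarith
  have hlS : 0 ≤ Real.log S := Real.log_nonneg hS1
  have hlΛ : 0 ≤ Real.log Λ := Real.log_nonneg hΛ1
  have hm0 : (4000 : ℝ) ≤ m := by exact_mod_cast hm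
  -- smallness of k
  set k0 := min (1 / 100) (min (η / 2) (min (η / (2 * Real.log S + 1)) (η / (Real.log Λ + c + 1))))
    with hk0
  have hk0p : 0 < k0 := by
    refine lt_min (by norm_num) (lt_min (by positivity) (lt_min (by positivity) (by positivity)))
  -- largeness of Y
  have hlim1 : ∀ᶠ Y : ℝ in atTop, Real.exp (-Y) ≤ η / 4 :=
    Real.tendsto_exp_neg_atTop_nhds_zero.eventually (eventually_le_nhds (by positivity))
  have hlim2 : ∀ᶠ Y : ℝ in atTop, |A| * Real.exp (-Y) ≤ η := by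
    have h1 := Real.tendsto_exp_neg_atTop_nhds_zero.const_mul |A|
    rw [mul_zero] at h1
    exact h1.eventually (eventually_le_nhds hη)
  obtain ⟨Y3, hY3⟩ := (hlim1.and hlim2).exists_forall_of_atTop
  refine ⟨m, k0, max (max Y1 Y2) Y3, by omega, hk0p, le_max_of_le_left (le_max_of_le_left hY1), ?_⟩
  intro Y hY k hk hkk0
  have hYa : Y1 ≤ Y := ((le_max_left _ _).trans (le_max_left _ _)).trans hY
  have hYb : Y2 ≤ Y := ((le_max_right _ _).trans (le_max_left _ _)).trans hY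
  obtain ⟨hYc, hYd⟩ := hY3 Y ((le_max_right _ _).trans hY)
  have hYone : 1 ≤ Y := hY1.trans hYa
  have hYp : 0 < Y := by linarith
  have hk1 : k ≤ 1 / 100 := hkk0.trans (min_le_left _ _)
  have hk2 : k ≤ η / 2 := hkk0.trans ((min_le_right _ _).trans (min_le_left _ _))
  have hk3 : k ≤ η / (2 * Real.log S + 1) :=
    hkk0.trans ((min_le_right _ _).trans ((min_le_right _ _).trans (min_le_left _ _)))
  have hk4 : k ≤ η / (Real.log Λ + c + 1) :=
    hkk0.trans ((min_le_right _ _).trans ((min_le_right _ _).trans (min_le_right _ _)))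
  rw [le_div_iff₀ (by positivity)] at hk3 hk4
  set J := ⌈Y⌉₊ + 1 with hJ
  have hJY : (J : ℝ) ≤ Y + 3 := by
    rw [hJ]
    push_cast
    have := (Nat.ceil_lt_add_one hYp.le).le
    linarith
  have hJ4 : Y / 4 ^ J < Real.log 2 := by
    have h1 : Y ≤ (⌈Y⌉₊ : ℝ) := Nat.le_ceil Y
    have h2 : ((⌈Y⌉₊ + 1 : ℕ) : ℝ) ≤ 2 ^ ⌈Y⌉₊ := by exact_mod_cast Nat.lt_two_pow_self
    have h3 : (2 : ℝ) ^ ⌈Y⌉₊ ≤ 4 ^ ⌈Y⌉₊ := by gcongr; norm_num
    have h4 := Real.log_two_gt_d9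
    rw [div_lt_iff₀ (by positivity), hJ, pow_succ]
    push_cast at h2
    have h5 : (1 : ℝ) ≤ 4 ^ ⌈Y⌉₊ := one_le_pow₀ (by norm_num)
    nlinarith
  obtain ⟨hδ4, hElow, hZ⟩ := hcore Y hYa J hJY hJ4 k hk hk1
  set X := 160 * m * Y with hX
  have hXp : 0 < X := by positivity
  set δ := Λ / X with hδ
  have hδ0 : 0 < δ := by positivity
  set T := Real.exp X with hT
  have hTp : 0 < T := Real.exp_pos _
  obtain ⟨hE1, hB1, hB2⟩ := hmean Y hYb J hJY k hk hk1 (1 / 2 + δ) (by linarith) (by linarith)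
  have hti := tilt_int (p0 := p0) (σ := 1 / 2 + δ) hm hk (by linarith) Y J (by linarith) (by linarith) hTp.le
  set E := BK (K1s (2 * (1 / 2 + δ))) (Bm m p0 k Y J) (Bm m p0 k Y J) with hE
  have hk2' : k ^ 2 ≤ k := by nlinarith
  -- constants
  have hc1 : (1 - η) * (1 - η) ≤ S ^ (-(2 * k)) * Real.exp (-(4 * (1 / 2) ^ m)) := by
    have b1 : 1 - η ≤ S ^ (-(2 * k)) := one_sub_le_rpow_neg hS1 (by linarith)
    have b2 : 1 - η ≤ Real.exp (-(4 * (1 / 2) ^ m)) := by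
      have := Real.add_one_le_exp (-(4 * (1 / 2 : ℝ) ^ m))
      linarith
    have b0 : 0 ≤ 1 - η := by linarith
    gcongr
  have hX2 : 0 ≤ X ^ (k ^ 2) := by positivity
  have hE2 : (1 - η) * (1 - η) * X ^ (k ^ 2) ≤ E := by
    refine le_trans ?_ hElow
    have b1 : 1 - η ≤ Real.exp (-(k ^ 2 * (Real.log Λ + c))) := by
      have h1 := Real.add_one_le_exp (-(k ^ 2 * (Real.log Λ + c)))
      have h2 : k ^ 2 * (Real.log Λ + c) ≤ k * (Real.log Λ + c) := by gcongr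
      linarith
    have b2 : 1 - η ≤ Real.exp (-η) := by
      have := Real.add_one_le_exp (-η)
      linarith
    have b0 : 0 ≤ 1 - η := by linarith
    have e1 : (X / Λ) ^ (k ^ 2) * Real.exp (-(k ^ 2 * c) - η)
        = Real.exp (-(k ^ 2 * (Real.log Λ + c))) * Real.exp (-η) * X ^ (k ^ 2) := by
      rw [Real.div_rpow hXp.le (by linarith)]
      have e2 : Λ ^ (k ^ 2) = Real.exp (k ^ 2 * Real.log Λ) := by
        rw [Real.rpow_def_of_pos (by linarith), mul_comm]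
      rw [e2, div_eq_mul_inv, ← Real.exp_neg, ← Real.exp_add, mul_assoc, ← Real.exp_add, mul_comm]
      congr 2
      ring
    rw [e1]
    gcongr
  have hIB : T * (E * (1 - η / 4)) ≤ ∫ t in (0 : ℝ)..T, ‖evs (((1 / 2 + δ : ℝ) : ℂ) + I * t) (Bm m p0 k Y J)‖ ^ 2 := by
    refine le_trans ?_ hB1
    gcongr
  have hSB : ∑ j ∈ Finset.range J, ∫ t in (0 : ℝ)..T, ‖evs (((1 / 2 + δ : ℝ) : ℂ) + I * t) (Bm m p0 k Y J)‖ ^ 2
        * (‖Pj p0 Y (1 / 2 + δ) j t‖ / ((Mm m j : ℝ) / 10)) ^ (2 * Mm m j)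
      ≤ T * (E * (η / 4 + η / 4)) := by
    refine hB2.trans ?_
    gcongr
  have hmainI := numH2 (η := η) (X2 := X ^ (k ^ 2)) hη.le hη1 hc1 (by linarith) hk.le hTp.le hX2 hE2
    hIB hSB hZ hti
  -- transfer to the critical line
  have htr := hA T (Real.one_le_exp hXp.le) δ hδ0 hδ4 (2 * k) (by linarith) (by linarith)
  have e1 : ∫ t in (0 : ℝ)..T, ‖riemannZeta (1 / 2 + (δ : ℂ) + t * I)‖ ^ (2 * k)
      = ∫ t in (0 : ℝ)..T, ‖riemannZeta (((1 / 2 + δ : ℝ) : ℂ) + I * t)‖ ^ (2 * k) := by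
    refine intervalIntegral.integral_congr fun t _ => ?_
    congr 3
    push_cast
    ring
  have e2 : ∫ t in (0 : ℝ)..T, ‖riemannZeta (1 / 2 + t * I)‖ ^ (2 * k)
      = ∫ t in (0 : ℝ)..T, ‖riemannZeta (1 / 2 + I * t)‖ ^ (2 * k) := by
    refine intervalIntegral.integral_congr fun t _ => ?_
    congr 3
    ring
  rw [e1, e2] at htr
  have hXk : 1 ≤ X ^ (k ^ 2) := by
    apply Real.one_le_rpow _ (by positivity)
    rw [hX]
    nlinarith
  have hT9 : A * T ^ (9 / 10 : ℝ) ≤ η * (T * X ^ (k ^ 2)) := by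
    have b1 : T ^ (9 / 10 : ℝ) ≤ T * Real.exp (-Y) := by
      rw [hT, ← Real.exp_mul, ← Real.exp_add]
      apply Real.exp_le_exp.mpr
      have : 1 * Y ≤ 16 * m * Y := by gcongr; linarith
      rw [hX]
      linarith
    calc A * T ^ (9 / 10 : ℝ) ≤ |A| * T ^ (9 / 10 : ℝ) := by gcongr; exact le_abs_self A
      _ ≤ |A| * (T * Real.exp (-Y)) := by gcongr
      _ = T * (|A| * Real.exp (-Y)) := by ring
      _ ≤ T * η := by gcongr
      _ = η * (T * 1) := by ring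
      _ ≤ _ := by gcongr
  linarith

theorem lower_zero {ε : ℝ} (hε : 0 < ε) : ∃ k0 : ℝ, 0 < k0 ∧ ∃ T0 : ℝ, 1 ≤ T0 ∧ ∀ k : ℝ, 0 < k → k ≤ k0 →
    ∀ T : ℝ, T0 ≤ T →
    (1 - ε) * (T * Real.log T ^ (k ^ 2)) ≤ ∫ t in (0 : ℝ)..T, ‖riemannZeta (1 / 2 + I * t)‖ ^ (2 * k) := by
  set η := min (ε / 11) (1 / 100) with hη
  have hη0 : 0 < η := lt_min (by positivity) (by norm_num)
  have hη1 : 11 * η ≤ ε := by
    have := min_le_left (ε / 11) (1 / 100)
    rw [← hη] at this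
    linarith
  obtain ⟨m, k0, Y0, hm, hk0, hY0, h⟩ := lower_zero_Y hη0 (min_le_right _ _)
  have hm0 : (1 : ℝ) ≤ m := by exact_mod_cast hm
  refine ⟨k0, hk0, Real.exp (160 * m * Y0), Real.one_le_exp (by positivity), ?_⟩
  intro k hk hkk T hT
  have hTp : 0 < T := (Real.exp_pos _).trans_le hT
  have hlog : 160 * m * Y0 ≤ Real.log T := by rwa [Real.le_log_iff_exp_le hTp]
  have h1 := h (Real.log T / (160 * m)) (by rw [le_div_iff₀ (by positivity)]; linarith) k hk hkk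
  have e1 : 160 * m * (Real.log T / (160 * m)) = Real.log T := by field_simp
  rw [e1, Real.exp_log hTp] at h1
  refine le_trans ?_ h1
  have h2 : 0 ≤ Real.log T := le_trans (by positivity) hlog
  gcongr

/-- **Lower bound** for small moments with a constant close to one, for the shifted moments. -/
theorem lower_uniform (x ε : ℝ) (hε : 0 < ε) : ∃ β0 : ℝ, 0 < β0 ∧ ∃ T0 : ℝ, ∀ β : ℝ, 0 < β → β ≤ β0 →
    ∀ T : ℝ, T0 ≤ T → (1 - ε) * Real.log T ^ (β ^ 2 / 4) ≤ mom β x T := by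
  obtain ⟨k0, hk0, T1, hT1, h⟩ := lower_zero (ε := ε / 2) (by positivity)
  set A0 := ∫ t in (0 : ℝ)..|x|, (1 + ‖riemannZeta (1 / 2 + I * t)‖) with hA0
  have hA00 : 0 ≤ A0 := intervalIntegral.integral_nonneg (abs_nonneg x) fun t _ => by positivity
  have hxa : 0 ≤ |x| := abs_nonneg x
  have hlim : Tendsto (fun T : ℝ => (1 - ε / 2) * ((1 - |x| * T⁻¹) * (1 - 2 * |x| * T⁻¹)) - A0 * T⁻¹) atTop
      (𝓝 ((1 - ε / 2) * ((1 - |x| * 0) * (1 - 2 * |x| * 0)) - A0 * 0)) := by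
    have h0 := tendsto_inv_atTop_zero (𝕜 := ℝ)
    exact ((((h0.const_mul |x|).const_sub 1).mul ((h0.const_mul (2 * |x|)).const_sub 1)).const_mul _).sub
      (h0.const_mul A0)
  simp only [mul_zero, sub_zero, mul_one] at hlim
  have hev := hlim.eventually (lt_mem_nhds (show 1 - ε < 1 - ε / 2 by linarith))
  obtain ⟨T2, hT2⟩ := (hev.and (eventually_ge_atTop (T1 + 2 * |x| + Real.exp 1))).exists_forall_of_atTop
  refine ⟨min (2 * k0) 1, lt_min (by positivity) one_pos, T2, ?_⟩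
  intro β hβ hβ0 T hT
  obtain ⟨hTa, hTb⟩ := hT2 T hT
  have he1 : 1 ≤ Real.exp 1 := Real.one_le_exp zero_le_one
  have hTpos : 0 < T := by linarith
  have hβ1 : β ≤ 1 := hβ0.trans (min_le_right _ _)
  have hβ2 : β ≤ 2 * k0 := hβ0.trans (min_le_left _ _)
  set k := β / 2 with hk
  have hkp : 0 < k := by positivity
  have hβk : β = 2 * k := by rw [hk]; ring
  have hk1 : k ≤ 1 := by linarith
  have hk2 : β ^ 2 / 4 = k ^ 2 := by rw [hk]; ring
  set F : ℝ → ℝ := fun t => ‖riemannZeta (1 / 2 + I * t)‖ ^ β with hF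
  have hFc : Continuous F := continuous_zeta.norm.rpow_const fun _ => Or.inr hβ.le
  have hF0 : ∀ t, 0 ≤ F t := fun t => by rw [hF]; positivity
  have h1 : mom β x T = (∫ t in x..(x + T), F t) / T := by
    have h2 := intervalIntegral.integral_comp_mul_add (a := 0) (b := 1) F hTpos.ne' x
    simp only [mul_zero, zero_add, mul_one, smul_eq_mul] at h2
    unfold mom
    rw [add_comm T x] at h2
    rw [div_eq_inv_mul (∫ t in x..(x + T), F t) T, ← h2]
    refine intervalIntegral.integral_congr fun u _ => ?_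
    simp only [hF]
    congr 3
    push_cast
    ring
  have h2 : (∫ t in (0 : ℝ)..(T - |x|), F t) - A0 ≤ ∫ t in x..(x + T), F t := by
    have h3 : ∫ t in |x|..(T - |x|), F t ≤ ∫ t in x..(x + T), F t := by
      refine intervalIntegral.integral_mono_interval (le_abs_self x) (by linarith) ?_ ?_ ?_
      · have := neg_abs_le x
        linarith
      · exact Eventually.of_forall fun t => hF0 t
      · exact hFc.intervalIntegrable _ _
    have h4 : ∫ t in (0 : ℝ)..|x|, F t ≤ A0 := by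
      rw [hA0]
      refine intervalIntegral.integral_mono_on hxa (hFc.intervalIntegrable _ _)
        ((continuous_const.add continuous_zeta.norm).intervalIntegrable _ _) fun t _ => ?_
      rw [hF]
      simp only
      rcases le_total ‖riemannZeta (1 / 2 + I * t)‖ 1 with h5 | h5
      · have := Real.rpow_le_one (norm_nonneg _) h5 hβ.le
        have := norm_nonneg (riemannZeta (1 / 2 + I * t))
        linarith
      · have h6 : ‖riemannZeta (1 / 2 + I * t)‖ ^ β ≤ ‖riemannZeta (1 / 2 + I * t)‖ ^ (1 : ℝ) :=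
          Real.rpow_le_rpow_of_exponent_le h5 hβ1
        rw [Real.rpow_one] at h6
        linarith
    have h5 := intervalIntegral.integral_add_adjacent_intervals
      (hFc.intervalIntegrable (μ := volume) 0 |x|) (hFc.intervalIntegrable |x| (T - |x|))
    linarith
  have h3 := h k hkp (by linarith) (T - |x|) (by linarith)
  rw [← hβk] at h3
  have hlogT : 1 ≤ Real.log T := by
    rw [Real.le_log_iff_exp_le hTpos]
    linarith
  rw [hk2, h1, le_div_iff₀ hTpos]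
  set lk := Real.log T ^ (k ^ 2) with hlk
  have hlk1 : 1 ≤ lk := Real.one_le_rpow hlogT (by positivity)
  rcases le_or_gt 1 (ε / 2) with hε2 | hε2
  · have : 0 ≤ ∫ t in x..(x + T), F t :=
      intervalIntegral.integral_nonneg (by linarith) fun t _ => hF0 t
    have h4 : 0 ≤ lk * T := by positivity
    nlinarith
  -- logarithms
  have hxT : |x| * T⁻¹ ≤ 1 / 2 := by
    rw [← div_eq_mul_inv, div_le_iff₀ hTpos]
    linarith
  have hlog2 : Real.log T * (1 - 2 * |x| * T⁻¹) ≤ Real.log (T - |x|) := by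
    have e1 : T - |x| = T * (1 - |x| * T⁻¹) := by field_simp
    have h4 : 0 < 1 - |x| * T⁻¹ := by linarith
    rw [e1, Real.log_mul hTpos.ne' h4.ne']
    have h5 := Real.one_sub_inv_le_log_of_pos h4
    have h6 : -(2 * (|x| * T⁻¹)) ≤ 1 - (1 - |x| * T⁻¹)⁻¹ := by
      have hu : ∀ u : ℝ, 0 < 1 - u → 1 - (1 - u)⁻¹ = -u / (1 - u) := by
        intro u hu
        field_simp
        ring
      have e2 := hu (|x| * T⁻¹) h4
      rw [e2, le_div_iff₀ h4]
      have : 0 ≤ |x| * T⁻¹ := by positivity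
      nlinarith
    have h7 : |x| * T⁻¹ ≤ Real.log T * (|x| * T⁻¹) := le_mul_of_one_le_left (by positivity) hlogT
    linarith
  have hy0 : 0 ≤ 1 - 2 * |x| * T⁻¹ := by linarith
  have hy1 : 1 - 2 * |x| * T⁻¹ ≤ 1 := by
    have : 0 ≤ |x| * T⁻¹ := by positivity
    linarith
  have h4 : lk * (1 - 2 * |x| * T⁻¹) ≤ Real.log (T - |x|) ^ (k ^ 2) := by
    have hk21 : k ^ 2 ≤ 1 := by nlinarith
    calc lk * (1 - 2 * |x| * T⁻¹) ≤ lk * (1 - 2 * |x| * T⁻¹) ^ (k ^ 2) := by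
          gcongr
          rcases hy0.eq_or_lt with h5 | h5
          · rw [← h5]
            positivity
          · calc 1 - 2 * |x| * T⁻¹ = (1 - 2 * |x| * T⁻¹) ^ (1 : ℝ) := (Real.rpow_one _).symm
              _ ≤ _ := Real.rpow_le_rpow_of_exponent_ge h5 hy1 hk21
      _ = (Real.log T * (1 - 2 * |x| * T⁻¹)) ^ (k ^ 2) := by
          rw [Real.mul_rpow (by linarith) hy0]
      _ ≤ _ := by gcongr
  have h5 : (1 - ε / 2) * ((T - |x|) * (lk * (1 - 2 * |x| * T⁻¹))) ≤ ∫ t in (0 : ℝ)..(T - |x|), F t := by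
    refine le_trans ?_ h3
    have : 0 ≤ T - |x| := by linarith
    have : 0 ≤ 1 - ε / 2 := by linarith
    gcongr
  have e3 : (1 - ε / 2) * ((T - |x|) * (lk * (1 - 2 * |x| * T⁻¹))) - A0 * lk
      = (T * lk) * ((1 - ε / 2) * ((1 - |x| * T⁻¹) * (1 - 2 * |x| * T⁻¹)) - A0 * T⁻¹) := by
    field_simp
  have h6 : A0 ≤ A0 * lk := le_mul_of_one_le_right hA00 hlk1
  have h7 : (T * lk) * (1 - ε) ≤ (T * lk) * ((1 - ε / 2) * ((1 - |x| * T⁻¹) * (1 - 2 * |x| * T⁻¹)) - A0 * T⁻¹) := by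
    gcongr
  calc (1 - ε) * lk * T = (T * lk) * (1 - ε) := by ring
    _ ≤ _ := h7
    _ ≤ ∫ t in x..(x + T), F t := by
        rw [← e3]
        linarith

end Pool.Agent.Lib.MP_f9aece_nt_h97
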